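import Pool.Agent.X310.RdB

set_option autoImplicit false
set_option linter.unusedSectionVars false

namespace Pool.Agent.X310.Rd

open Pool.Agent.X307.MU Pool.Agent.X310.Rc IntermediateField NumberField

theorem zero_all_cm {k : Type} [Field k] [NumberField k] [Subsingleton (k →+* ℂ)] (T : DescentFunctor k)
    {c : Aut k} (hc : IsConjugation c)
    (h : ∀ E : Fld k, FiniteDimensional k E → (HasRealPlace E ∨ IsCMField E) → Rq.HasFreeRep (AutOf E) → T.Zero E)
    (E : Fld k) (hE : FiniteDimensional k E) : T.Zero E := by
  refine zero_all T hc (fun E hE hP hf => h E hE ?_ hf) E hE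
  rcases hP with h1 | h1
  · exact Or.inl h1
  · by_cases hne : ∃ x ∈ E, c x ≠ x
    · exact Or.inr (cm_field hc E h1 hne)
    · push Not at hne
      exact Or.inl (real_of_fixed hc E hne)

end Pool.Agent.X310.Rd
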