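import Pool.Agent.X310.MuDefs

set_option autoImplicit false

namespace Pool.Agent.X310.Mu

section
variable {Γ : Type} [Group Γ]

theorem odd_cop {p : ℕ} (hp : p.Prime) (hp2 : p ≠ 2) : ¬ p ∣ 2 := fun h =>
  hp2 ((Nat.prime_dvd_prime_iff_eq hp Nat.prime_two).1 h)

theorem eq_one_two {p : ℕ} (hp : p.Prime) (hp2 : p ≠ 2) {M : Type} [Group M] {v : M} (h1 : v ^ p = 1)
    (h2 : v * v = 1) : v = 1 := by
  have h3 : orderOf v ∣ Nat.gcd p 2 := Nat.dvd_gcd (orderOf_dvd_of_pow_eq_one h1)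
    (orderOf_dvd_of_pow_eq_one (by rw [pow_two, h2]))
  rw [(Nat.Prime.coprime_iff_not_dvd hp).2 (odd_cop hp hp2)] at h3
  exact orderOf_eq_one_iff.1 (Nat.dvd_one.1 h3)

/-- Without nontrivial fixed vectors an involution acts as the inversion. -/
theorem inv_of_no_fixed {V : Type} [CommGroup V] (b : Γ →* MulAut V) {c : Γ} (hc : c * c = 1)
    (h : ∀ v : V, b c v = v → v = 1) (v : V) : b c v = v⁻¹ := by
  have h1 : b c (v * b c v) = v * b c v := by
    rw [map_mul, ← MulAut.mul_apply, ← map_mul, hc, map_one, MulAut.one_apply, mul_comm]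
  exact (inv_eq_of_mul_eq_one_right (h _ h1)).symm

theorem comms_le_ker {V : Type} [CommGroup V] (b : Γ →* MulAut V) {c : Γ}
    (h : ∀ v : V, b c v = v⁻¹) : comms c ≤ b.ker := by
  unfold comms
  rw [Subgroup.closure_le]
  rintro _ ⟨g, rfl⟩
  change b (g * c * g⁻¹ * c⁻¹) = 1
  have h1 : b (g * c) = b (c * g) := by
    ext v
    rw [map_mul, map_mul, MulAut.mul_apply, MulAut.mul_apply, h, h, map_inv]
  have h2 : g * c * g⁻¹ * c⁻¹ = (g * c) * (c * g)⁻¹ := by group
  rw [h2, map_mul, map_inv, h1, mul_inv_cancel]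

theorem fixed_zpowers {V : Type} [CommGroup V] (b : Γ →* MulAut V) {c : Γ} {v : V} (h : b c v = v)
    (d : Γ) (hd : d ∈ Subgroup.zpowers c) : b d v = v := by
  have : Subgroup.zpowers c ≤ (MulAction.stabilizer (MulAut V) v).comap b := by
    rw [Subgroup.zpowers_le]
    exact h
  exact this hd

/-- The subgroups `⟨c⟩` and `comms c` together. -/
def pair (c : Γ) : Bool → Subgroup Γ
  | true => Subgroup.zpowers c
  | false => comms c

theorem dominates_pair {p : ℕ} {c : Γ} (hc : c * c = 1) (H : Subgroup Γ) : Dominates p H (pair c) := by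
  intro V _ _ b _ _ hv
  obtain ⟨v, hv1, _⟩ := hv
  by_cases h : ∀ v : V, b c v = v → v = 1
  · have h1 := comms_le_ker b (inv_of_no_fixed b hc h)
    refine ⟨false, v, hv1, fun d hd => ?_⟩
    have h2 : b d = 1 := h1 hd
    rw [h2]
    rfl
  · push Not at h
    obtain ⟨w, hw, hw1⟩ := h
    exact ⟨true, w, hw1, fun d hd => fixed_zpowers b hw d hd⟩

theorem dominates_single {p : ℕ} (hp : p.Prime) (hp2 : p ≠ 2) {c : Γ} (hc : c * c = 1) (hcc : c ∈ comms c)
    (H : Subgroup Γ) : Dominates p H (fun _ : Unit => Subgroup.zpowers c) := by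
  intro V _ _ b hV _ hv
  obtain ⟨v, hv1, _⟩ := hv
  by_cases h : ∀ v : V, b c v = v → v = 1
  · exfalso
    have h0 := inv_of_no_fixed b hc h
    have h1 : b c = 1 := comms_le_ker b h0 hcc
    apply hv1
    have h2 : v = v⁻¹ := by
      rw [← h0 v, h1]
      rfl
    apply eq_one_two hp hp2 (hV v)
    nth_rewrite 2 [h2]
    exact mul_inv_cancel v
  · push Not at h
    obtain ⟨w, hw, hw1⟩ := h
    exact ⟨(), w, hw1, fun d hd => fixed_zpowers b hw d hd⟩

theorem comms_normal (c : Γ) : (comms c).Normal := by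
  constructor
  intro n hn h
  unfold comms at hn ⊢
  refine Subgroup.closure_induction (p := fun n _ => h * n * h⁻¹ ∈ Subgroup.closure
    {x | ∃ g : Γ, x = g * c * g⁻¹ * c⁻¹}) ?_ ?_ ?_ ?_ hn
  · rintro _ ⟨g, rfl⟩
    have h1 : h * (g * c * g⁻¹ * c⁻¹) * h⁻¹ =
        ((h * g) * c * (h * g)⁻¹ * c⁻¹) * (h * c * h⁻¹ * c⁻¹)⁻¹ := by group
    rw [h1]
    exact mul_mem (Subgroup.subset_closure ⟨_, rfl⟩) (inv_mem (Subgroup.subset_closure ⟨_, rfl⟩))
  · rw [mul_one, mul_inv_cancel]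
    exact one_mem _
  · intro x y _ _ hx hy
    have : h * (x * y) * h⁻¹ = (h * x * h⁻¹) * (h * y * h⁻¹) := by group
    rw [this]
    exact mul_mem hx hy
  · intro x _ hx
    have : h * x⁻¹ * h⁻¹ = (h * x * h⁻¹)⁻¹ := by group
    rw [this]
    exact inv_mem hx

theorem comms_simple [IsSimpleGroup Γ] (hn : ∃ a b : Γ, a * b ≠ b * a) {c : Γ} (hc : c ≠ 1) : c ∈ comms c := by
  have h1 := comms_normal c
  rcases h1.eq_bot_or_eq_top with h | h
  · exfalso
    have hcen : c ∈ Subgroup.center Γ := by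
      rw [Subgroup.mem_center_iff]
      intro g
      have h2 : g * c * g⁻¹ * c⁻¹ ∈ comms c := Subgroup.subset_closure ⟨g, rfl⟩
      rw [h, Subgroup.mem_bot, mul_inv_eq_one, mul_inv_eq_iff_eq_mul] at h2
      exact h2
    rcases (inferInstance : (Subgroup.center Γ).Normal).eq_bot_or_eq_top with h3 | h3
    · rw [h3, Subgroup.mem_bot] at hcen
      exact hc hcen
    · obtain ⟨a, b, hab⟩ := hn
      apply hab
      have : b ∈ Subgroup.center Γ := by rw [h3]; trivial
      exact (Subgroup.mem_center_iff.1 this a)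
  · rw [h]
    trivial

/-- An element of a nonabelian simple subgroup. -/
theorem comms_of_simple (Γ' : Subgroup Γ) [IsSimpleGroup Γ'] (hn : ∃ a b : Γ', a * b ≠ b * a) {c : Γ}
    (hcΓ : c ∈ Γ') (hc : c ≠ 1) : c ∈ comms c := by
  have h1 : (⟨c, hcΓ⟩ : Γ') ∈ comms (⟨c, hcΓ⟩ : Γ') := comms_simple hn fun h => hc (congrArg Subtype.val h)
  have h2 : (comms (⟨c, hcΓ⟩ : Γ')).map Γ'.subtype ≤ comms c := by
    unfold comms
    rw [MonoidHom.map_closure, Subgroup.closure_le]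
    rintro _ ⟨_, ⟨g, rfl⟩, rfl⟩
    exact Subgroup.subset_closure ⟨g.1, rfl⟩
  exact h2 ⟨_, h1, rfl⟩

theorem card_zpowers_two {p : ℕ} (hp : p.Prime) (hp2 : p ≠ 2) {c : Γ} (hc : c * c = 1) :
    ¬ p ∣ Nat.card (Subgroup.zpowers c) := by
  intro h
  rw [Nat.card_zpowers] at h
  exact odd_cop hp hp2 (h.trans (orderOf_dvd_of_pow_eq_one (by rw [pow_two, hc])))

end

end Pool.Agent.X310.Mu
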