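import Mathlib

/-!
# Traces of polynomials in an operator times commuting idempotents
-/

set_option autoImplicit false
set_option linter.unusedSectionVars false

open Polynomial LinearMap Module Set

namespace Pool.Agent.X310

section Closed

variable {F U : Type*} [Field F] [CharZero F] [IsAlgClosed F] [AddCommGroup U] [Module F U]
  [FiniteDimensional F U]

/-- The set of the eigenvalues. -/
noncomputable def eigs (c : End F U) : Finset F :=
  (WellFoundedGT.finite_ne_bot_of_iSupIndep c.independent_maxGenEigenspace).toFinset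

lemma mem_eigs {c : End F U} {α : F} : α ∈ eigs c ↔ c.maxGenEigenspace α ≠ ⊥ := by
  simp [eigs]

/-- The restriction of an operator commuting with `c` to a generalised eigenspace of `c`. -/
noncomputable def rst {c T : End F U} (h : Commute c T) (α : F) : End F (c.maxGenEigenspace α) :=
  T.restrict (c.mapsTo_maxGenEigenspace_of_comm h α)

lemma rst_coe {c T : End F U} (h : Commute c T) (α : F) (x : c.maxGenEigenspace α) :
    ((rst h α x : c.maxGenEigenspace α) : U) = T x := rfl

lemma trace_eq_sum_rst {c T : End F U} (h : Commute c T) :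
    trace F U T = ∑ α ∈ eigs c, trace F _ (rst h α) := by
  classical
  have hds := DirectSum.isInternal_submodule_of_iSupIndep_of_iSup_eq_top
    c.independent_maxGenEigenspace c.iSup_maxGenEigenspace_eq_top
  exact trace_eq_sum_trace_restrict' hds _ (fun α => c.mapsTo_maxGenEigenspace_of_comm h α)

lemma rst_mul {c S T : End F U} (hS : Commute c S) (hT : Commute c T) (α : F) :
    rst (hS.mul_right hT) α = rst hS α * rst hT α := by
  ext x
  rfl

lemma comm_aeval (c : End F U) (g : F[X]) : Commute c (aeval c g) := by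
  have h := (Commute.all (X : F[X]) g).map (aeval c)
  rwa [aeval_X] at h

lemma rst_aeval_nil (c : End F U) (g : F[X]) (α : F) :
    IsNilpotent (rst (comm_aeval c g) α - algebraMap F _ (g.eval α)) := by
  obtain ⟨q, hq⟩ : X - C α ∣ g - C (g.eval α) := by
    rw [dvd_iff_isRoot]
    simp
  have hca : Commute c (c - algebraMap F _ α) :=
    (Commute.refl c).sub_right (Algebra.commute_algebraMap_right α c)
  have h1 : rst (comm_aeval c g) α - algebraMap F _ (g.eval α) =
      rst hca α * rst (comm_aeval c q) α := by
    rw [← rst_mul hca (comm_aeval c q)]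
    ext x
    rw [rst_coe]
    have h2 := congrArg (fun p => (aeval c p : End F U) (x : U)) hq
    simp only [map_sub, aeval_C, map_mul, aeval_X, LinearMap.sub_apply] at h2
    rw [LinearMap.sub_apply, Submodule.coe_sub, rst_coe]
    exact h2
  rw [h1]
  refine Commute.isNilpotent_mul_right ?_ ?_
  · change rst hca α * rst (comm_aeval c q) α = rst (comm_aeval c q) α * rst hca α
    ext x
    have h3 : Commute (c - algebraMap F _ α) (aeval c q) :=
      (comm_aeval c q).sub_left (Algebra.commute_algebraMap_left α _)
    exact congrArg (fun p : End F U => p (x : U)) h3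
  · exact c.isNilpotent_restrict_maxGenEigenspace_sub_algebraMap α

/-- The trace of `T g(c)`. -/
lemma trace_mul_aeval {c T : End F U} (h : Commute c T) (g : F[X]) :
    trace F U (T * aeval c g) = ∑ α ∈ eigs c, g.eval α * trace F _ (rst h α) := by
  rw [trace_eq_sum_rst (h.mul_right (comm_aeval c g))]
  refine Finset.sum_congr rfl fun α _ => ?_
  rw [rst_mul h (comm_aeval c g)]
  refine trace_comp_eq_mul_of_commute_of_isNilpotent (g.eval α) ?_ (rst_aeval_nil c g α)
  change rst h α * rst (comm_aeval c g) α = rst (comm_aeval c g) α * rst h α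
  ext x
  have h3 : Commute T (aeval c g) := by
    induction g using Polynomial.induction_on' with
    | add p q hp hq => rw [map_add]; exact hp.add_right hq
    | monomial n a =>
      rw [aeval_monomial]
      exact (Algebra.commute_algebraMap_right a T).mul_right (h.symm.pow_right n)
  exact congrArg (fun p : End F U => p (x : U)) h3

lemma rst_idem {c T : End F U} (h : Commute c T) (hT : IsIdempotentElem T) (α : F) :
    IsIdempotentElem (rst h α) := by
  change rst h α * rst h α = rst h α
  ext x
  exact congrArg (fun p : End F U => p (x : U)) hT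

lemma trace_rst_idem {c T : End F U} (h : Commute c T) (hT : IsIdempotentElem T) (α : F) :
    trace F _ (rst h α) = (finrank F (LinearMap.range (rst h α)) : F) :=
  (IsIdempotentElem.isProj_range _ (rst_idem h hT α)).trace

/-- The spectral data of an operator and commuting idempotents. -/
theorem exists_spectral {ι : Type*} [Fintype ι] (c : End F U) (P : ι → End F U)
    (hc : ∀ i, Commute c (P i)) (hP : ∀ i, IsIdempotentElem (P i)) (hsum : ∑ i, P i = 1) :
    ∃ d : ι → F → ℕ,
      (∀ i (g : F[X]), trace F U (P i * aeval c g) = ∑ α ∈ eigs c, g.eval α * (d i α : F)) ∧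
      (∀ α ∈ eigs c, 0 < ∑ i, d i α) ∧
      ∀ i (μ : F), (∀ α ∈ eigs c, d i α ≠ 0 → α = μ) →
        IsNilpotent ((c - algebraMap F _ μ) * P i) := by
  refine ⟨fun i α => finrank F (LinearMap.range (rst (hc i) α)), fun i g => ?_, fun α hα => ?_,
    fun i μ h => ?_⟩
  · rw [trace_mul_aeval (hc i)]
    exact Finset.sum_congr rfl fun α _ => by rw [trace_rst_idem _ (hP i)]
  · by_contra hcon
    have h0 : ∀ i, finrank F (LinearMap.range (rst (hc i) α)) = 0 := by
      intro i
      have h1 : ∑ i, finrank F (LinearMap.range (rst (hc i) α)) = 0 :=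
        Nat.eq_zero_of_not_pos hcon
      exact (Finset.sum_eq_zero_iff.1 h1) i (Finset.mem_univ i)
    apply mem_eigs.1 hα
    rw [Submodule.eq_bot_iff]
    intro x hx
    have h2 : ∑ i, P i x = x := by
      have := congrArg (fun f : End F U => f x) hsum
      simpa using this
    rw [← h2]
    refine Finset.sum_eq_zero fun i _ => ?_
    have h3 : rst (hc i) α = 0 := by
      rw [← LinearMap.range_eq_bot]
      exact Submodule.finrank_eq_zero.1 (h0 i)
    have h4 := rst_coe (hc i) α ⟨x, hx⟩
    rw [h3] at h4
    exact h4.symm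
  · have hcm : Commute c (c - algebraMap F _ μ) :=
      (Commute.refl c).sub_right (Algebra.commute_algebraMap_right μ c)
    have hcT : Commute c ((c - algebraMap F _ μ) * P i) := hcm.mul_right (hc i)
    have hnil : ∀ α, IsNilpotent (rst hcT α) := by
      intro α
      by_cases hα : α ∈ eigs c
      · by_cases hd : finrank F (LinearMap.range (rst (hc i) α)) = 0
        · have h3 : rst (hc i) α = 0 := by
            rw [← LinearMap.range_eq_bot]
            exact Submodule.finrank_eq_zero.1 hd
          rw [rst_mul hcm (hc i), h3, mul_zero]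
          exact IsNilpotent.zero
        · obtain rfl := h α hα hd
          rw [rst_mul hcm (hc i)]
          refine Commute.isNilpotent_mul_right ?_
            (c.isNilpotent_restrict_maxGenEigenspace_sub_algebraMap α)
          change rst hcm α * rst (hc i) α = rst (hc i) α * rst hcm α
          ext x
          have h3 : Commute (c - algebraMap F _ α) (P i) :=
            (hc i).sub_left (Algebra.commute_algebraMap_left α _)
          exact congrArg (fun p : End F U => p (x : U)) h3
      · have h5 : c.maxGenEigenspace α = ⊥ := by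
          by_contra hne
          exact hα (mem_eigs.2 hne)
        refine ⟨1, ?_⟩
        ext x
        have h6 : (x : U) = 0 := (Submodule.mem_bot F).1 (h5.le x.2)
        have h7 : x = 0 := Subtype.ext h6
        rw [h7, map_zero, map_zero]
    have hpow : ∀ α (x : c.maxGenEigenspace α) (n : ℕ),
        (((rst hcT α ^ n) x : c.maxGenEigenspace α) : U) =
          ((((c - algebraMap F _ μ) * P i) ^ n : End F U)) x := by
      intro α x n
      induction n generalizing x with
      | zero => rfl
      | succ n ih =>
        rw [pow_succ, pow_succ, Module.End.mul_apply, Module.End.mul_apply, ih, rst_coe]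
    refine ⟨finrank F U, ?_⟩
    have htop : ∀ x ∈ (⨆ α, c.maxGenEigenspace α),
        (((c - algebraMap F _ μ) * P i) ^ finrank F U : End F U) x = 0 := by
      intro x hx
      refine Submodule.iSup_induction (p := fun α => c.maxGenEigenspace α)
        (motive := fun x => (((c - algebraMap F _ μ) * P i) ^ finrank F U : End F U) x = 0)
        hx ?_ (map_zero _) ?_
      · intro α y hy
        have h8 := hpow α ⟨y, hy⟩ (finrank F U)
        rw [← h8]
        obtain ⟨m, hm⟩ := hnil α
        have h9 : rst hcT α ^ finrank F U = 0 := by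
          have h10 : rst hcT α ^ finrank F (c.maxGenEigenspace α) = 0 := by
            have := (LinearMap.isNilpotent_iff_charpoly (rst hcT α)).1 ⟨m, hm⟩
            have h11 := (rst hcT α).aeval_self_charpoly
            rw [this, map_pow, aeval_X] at h11
            exact h11
          exact pow_eq_zero_of_le (Submodule.finrank_le _) h10
        rw [h9]
        rfl
      · intro y z hy hz
        rw [map_add, hy, hz, add_zero]
    ext x
    exact htop x (by rw [c.iSup_maxGenEigenspace_eq_top]; exact Submodule.mem_top)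

end Closed

section General

open TensorProduct

variable {K V : Type*} [Field K] [CharZero K] [AddCommGroup V] [Module K V]
  [FiniteDimensional K V]

/-- The base change to the algebraic closure. -/
noncomputable def bc (K : Type*) {V : Type*} [Field K] [AddCommGroup V] [Module K V] :
    End K V →ₐ[K] End (AlgebraicClosure K) (AlgebraicClosure K ⊗[K] V) :=
  Module.End.baseChangeHom K (AlgebraicClosure K) V

lemma bc_apply (f : End K V) : bc K f = f.baseChange (AlgebraicClosure K) := rfl

lemma bc_inj : Function.Injective (bc K : End K V →ₐ[K] _) :=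
  LinearMap.baseChangeHom_injective K V (AlgebraicClosure K)

lemma trace_bc (f : End K V) :
    trace (AlgebraicClosure K) (AlgebraicClosure K ⊗[K] V) (bc K f) =
      algebraMap K (AlgebraicClosure K) (trace K V f) := by
  rw [bc_apply, LinearMap.trace_baseChange]

/-- The spectral data over a field which need not be algebraically closed. -/
theorem exists_spectral' {ι : Type*} [Fintype ι] (c : End K V) (P : ι → End K V)
    (hc : ∀ i, Commute c (P i)) (hP : ∀ i, IsIdempotentElem (P i)) (hsum : ∑ i, P i = 1) :
    ∃ (s : Finset (AlgebraicClosure K)) (d : ι → AlgebraicClosure K → ℕ),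
      (∀ i r, algebraMap K (AlgebraicClosure K) (trace K V (P i * c ^ r)) =
        ∑ α ∈ s, α ^ r * (d i α : AlgebraicClosure K)) ∧
      (∀ α ∈ s, 0 < ∑ i, d i α) ∧
      ∀ i (μ : K), (∀ α ∈ s, d i α ≠ 0 → α = algebraMap K _ μ) →
        IsNilpotent ((c - algebraMap K _ μ) * P i) := by
  obtain ⟨d, h1, h2, h3⟩ := exists_spectral (bc K c) (fun i => bc K (P i))
    (fun i => (hc i).map (bc K)) (fun i => by
      change bc K (P i) * bc K (P i) = bc K (P i)
      rw [← map_mul, (hP i).eq]) (by rw [← map_sum, hsum, map_one])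
  refine ⟨eigs (bc K c), d, fun i r => ?_, h2, fun i μ h => ?_⟩
  · have h4 := h1 i (X ^ r)
    rw [map_pow, aeval_X, ← map_pow, ← map_mul, trace_bc] at h4
    rw [h4]
    exact Finset.sum_congr rfl fun α _ => by rw [eval_pow, eval_X]
  · obtain ⟨n, hn⟩ := h3 i (algebraMap K _ μ) h
    refine ⟨n, bc_inj ?_⟩
    rw [map_zero, map_pow, map_mul, map_sub, ← hn]
    congr 3
    rw [AlgHom.commutes, ← IsScalarTower.algebraMap_apply]

/-- Independence of the powers. -/
lemma eq_of_power_sums {L : Type*} [Field L] (s : Finset L) (a b : L → L)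
    (h : ∀ r : ℕ, ∑ α ∈ s, α ^ r * a α = ∑ α ∈ s, α ^ r * b α) : ∀ α ∈ s, a α = b α := by
  classical
  have hpoly : ∀ g : L[X], ∑ α ∈ s, g.eval α * a α = ∑ α ∈ s, g.eval α * b α := by
    intro g
    induction g using Polynomial.induction_on' with
    | add p q hp hq =>
      simp only [eval_add, add_mul, Finset.sum_add_distrib, hp, hq]
    | monomial n c =>
      simp only [eval_monomial, mul_assoc, ← Finset.mul_sum, h n]
  intro α hα
  have h1 := hpoly (Lagrange.basis s (fun x => x) α)
  have key : ∀ f : L → L, ∑ β ∈ s, (Lagrange.basis s (fun x => x) α).eval β * f β = f α := by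
    intro f
    rw [Finset.sum_eq_single_of_mem α hα]
    · rw [Lagrange.eval_basis_self (s := s) (v := fun x => x) (i := α)
        (fun _ _ _ _ h => h) hα, one_mul]
    · intro β hβ hne
      rw [Lagrange.eval_basis_of_ne (s := s) (v := fun x => x) (i := α) (j := β)
        (Ne.symm hne) hβ, zero_mul]
  rwa [key, key] at h1

/-- The combinatorial part of the variance inequality. -/
lemma comb_variance {L ι : Type*} [Field L] [CharZero L] [Fintype ι] (s : Finset L)
    (d : ι → L → ℕ) (w : ι → ℚ) (h2 : ∀ α ∈ s, 0 < ∑ i, d i α)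
    (hkey : ∀ α ∈ s, α * ∑ i, (d i α : L) = ∑ i, (w i : L) * (d i α : L)) :
    ∃ q : ℚ, 0 ≤ q ∧
      ∑ i, (w i : L) ^ 2 * ∑ α ∈ s, (d i α : L) - ∑ α ∈ s, α ^ 2 * ∑ i, (d i α : L) = (q : L) ∧
      (q = 0 → ∀ i, ∀ α ∈ s, d i α ≠ 0 → α = (w i : L)) := by
  classical
  set ρ : L → ℚ := fun α => (∑ i, w i * (d i α : ℚ)) / (∑ i, (d i α : ℚ)) with hρ
  have hρ1 : ∀ α ∈ s, ρ α * ∑ i, (d i α : ℚ) = ∑ i, w i * (d i α : ℚ) := by
    intro α hα
    have h0 : (∑ i, (d i α : ℚ)) ≠ 0 := by exact_mod_cast (h2 α hα).ne'
    rw [hρ]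
    field_simp
  have hρ2 : ∀ α ∈ s, α = (ρ α : L) := by
    intro α hα
    have h0 : (∑ i, (d i α : L)) ≠ 0 := by exact_mod_cast (h2 α hα).ne'
    apply mul_right_cancel₀ h0
    rw [hkey α hα]
    have h7 := congrArg (fun x : ℚ => (x : L)) (hρ1 α hα)
    push_cast at h7
    exact h7.symm
  refine ⟨∑ α ∈ s, ∑ i, (w i - ρ α) ^ 2 * (d i α : ℚ), ?_, ?_, ?_⟩
  · exact Finset.sum_nonneg fun α _ => Finset.sum_nonneg fun i _ => by positivity
  · simp only [Finset.mul_sum]
    rw [Finset.sum_comm]
    simp only [← Finset.mul_sum]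
    rw [← Finset.sum_sub_distrib]
    push_cast
    refine Finset.sum_congr rfl fun α hα => ?_
    have h9 := congrArg (fun x : ℚ => (x : L)) (hρ1 α hα)
    push_cast at h9
    have h10 : α ^ 2 * ∑ i, (d i α : L) = (ρ α : L) ^ 2 * ∑ i, (d i α : L) :=
      congrArg (fun x : L => x ^ 2 * ∑ i, (d i α : L)) (hρ2 α hα)
    have h11 : ∑ i, ((w i : L) - (ρ α : L)) ^ 2 * (d i α : L) =
        ∑ i, (w i : L) ^ 2 * (d i α : L) - 2 * (ρ α : L) * ∑ i, (w i : L) * (d i α : L) +
          (ρ α : L) ^ 2 * ∑ i, (d i α : L) := by
      rw [Finset.mul_sum, Finset.mul_sum, ← Finset.sum_sub_distrib, ← Finset.sum_add_distrib]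
      exact Finset.sum_congr rfl fun i _ => by ring
    rw [h11, ← h9, h10]
    ring
  · intro hq i α hα hd
    have h12 : ∀ α ∈ s, ∑ i, (w i - ρ α) ^ 2 * (d i α : ℚ) = 0 :=
      (Finset.sum_eq_zero_iff_of_nonneg fun α _ =>
        Finset.sum_nonneg fun i _ => by positivity).1 hq
    have h13 := (Finset.sum_eq_zero_iff_of_nonneg fun i _ => by positivity).1 (h12 α hα) i
      (Finset.mem_univ i)
    have h14 : w i = ρ α := by
      rcases mul_eq_zero.1 h13 with h | h
      · exact sub_eq_zero.1 (pow_eq_zero_iff (two_ne_zero) |>.1 h)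
      · exact absurd (by exact_mod_cast h) hd
    rw [h14]
    exact hρ2 α hα

/-- **The variance inequality.** Let `c` be an operator commuting with the idempotents `P i` with
sum one, and let `h` be the operator which is `w i` on the image of `P i`. If the traces of `c ^
(r + 1)` and `h c ^ r` agree for all `r`, then the trace of `c ^ 2` is at most the trace of `h ^ 2`,
with equality only if `c - w i` is nilpotent on the image of `P i`. -/
theorem variance {ι : Type*} [Fintype ι] (c : End K V) (P : ι → End K V)
    (hc : ∀ i, Commute c (P i)) (hP : ∀ i, IsIdempotentElem (P i)) (hsum : ∑ i, P i = 1)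
    (w : ι → ℚ)
    (htr : ∀ r, trace K V (c ^ (r + 1)) = ∑ i, (w i : K) * trace K V (P i * c ^ r)) :
    ∃ q : ℚ, 0 ≤ q ∧ ∑ i, (w i : K) ^ 2 * trace K V (P i) - trace K V (c ^ 2) = (q : K) ∧
      (q = 0 → ∀ i, IsNilpotent ((c - algebraMap K _ (w i : K)) * P i)) := by
  obtain ⟨s, d, h1, h2, h3⟩ := exists_spectral' c P hc hP hsum
  have htot : ∀ r, algebraMap K (AlgebraicClosure K) (trace K V (c ^ r)) =
      ∑ α ∈ s, α ^ r * ∑ i, (d i α : AlgebraicClosure K) := by
    intro r
    have h4 : c ^ r = ∑ i, P i * c ^ r := by rw [← Finset.sum_mul, hsum, one_mul]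
    rw [h4, map_sum, map_sum, Finset.sum_congr rfl fun i _ => h1 i r]
    rw [Finset.sum_comm]
    exact Finset.sum_congr rfl fun α _ => by rw [← Finset.mul_sum]
  have hkey : ∀ α ∈ s, α * ∑ i, (d i α : AlgebraicClosure K) =
      ∑ i, (w i : AlgebraicClosure K) * (d i α : AlgebraicClosure K) := by
    refine eq_of_power_sums s _ _ fun r => ?_
    have h5 := congrArg (algebraMap K (AlgebraicClosure K)) (htr r)
    have h5' : algebraMap K (AlgebraicClosure K)
        (∑ i, (w i : K) * trace K V (P i * c ^ r)) =
        ∑ i, (w i : AlgebraicClosure K) * ∑ α ∈ s, α ^ r * (d i α : AlgebraicClosure K) := by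
      rw [map_sum]
      exact Finset.sum_congr rfl fun i _ => by rw [map_mul, h1 i r, map_ratCast]
    rw [htot (r + 1), h5'] at h5
    have h6 : ∑ α ∈ s, α ^ r * (α * ∑ i, (d i α : AlgebraicClosure K)) =
        ∑ α ∈ s, α ^ (r + 1) * ∑ i, (d i α : AlgebraicClosure K) :=
      Finset.sum_congr rfl fun α _ => by rw [pow_succ, mul_assoc]
    rw [h6, h5]
    simp only [Finset.mul_sum]
    rw [Finset.sum_comm]
    refine Finset.sum_congr rfl fun α _ => Finset.sum_congr rfl fun i _ => ?_
    ring
  obtain ⟨q, hq1, hq2, hq3⟩ := comb_variance s d w h2 hkey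
  refine ⟨q, hq1, ?_, fun hq i => h3 i _ fun α hα hd => ?_⟩
  · apply (algebraMap K (AlgebraicClosure K)).injective
    rw [map_sub, htot 2, map_ratCast, ← hq2, map_sum]
    congr 1
    refine Finset.sum_congr rfl fun i _ => ?_
    rw [map_mul, map_pow, map_ratCast]
    congr 1
    have := h1 i 0
    rw [pow_zero, mul_one] at this
    rw [this]
    exact Finset.sum_congr rfl fun α _ => by rw [pow_zero, one_mul]
  · rw [map_ratCast]
    exact hq3 hq i α hα hd

/-- The combinatorial part of the inequality for the sign. -/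
lemma comb_sign {L : Type*} [Field L] [CharZero L] (s : Finset L) (a b : L → ℕ)
    (h2 : ∀ α ∈ s, 0 < a α + b α)
    (hkey : ∀ α ∈ s, α * ((a α : L) - (b α : L)) = (a α : L) + (b α : L)) :
    ∃ q : ℚ, 0 ≤ q ∧
      ∑ α ∈ s, α ^ 2 * ((a α : L) + (b α : L)) - ∑ α ∈ s, ((a α : L) + (b α : L)) = (q : L) ∧
      (q = 0 → ∀ α ∈ s, (a α ≠ 0 → α = 1) ∧ (b α ≠ 0 → α = -1)) := by
  classical
  have hne : ∀ α ∈ s, ((a α : ℚ) - (b α : ℚ)) ≠ 0 := by
    intro α hα h0
    have h6 := hkey α hα
    have h7 : ((a α : L) - (b α : L)) = 0 := by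
      have := congrArg (fun x : ℚ => (x : L)) h0
      push_cast at this
      exact this
    rw [h7, mul_zero] at h6
    have h9 : a α + b α = 0 := by exact_mod_cast h6.symm
    have := h2 α hα
    omega
  set ρ : L → ℚ := fun α => ((a α : ℚ) + b α) / ((a α : ℚ) - b α) with hρ
  have hρ1 : ∀ α ∈ s, ρ α * ((a α : ℚ) - b α) = (a α : ℚ) + b α := by
    intro α hα
    have := hne α hα
    rw [hρ]
    field_simp
  have hρ2 : ∀ α ∈ s, α = (ρ α : L) := by
    intro α hα
    have h0 : ((a α : L) - (b α : L)) ≠ 0 := by
      intro h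
      apply hne α hα
      have : (((a α : ℚ) - b α : ℚ) : L) = ((0 : ℚ) : L) := by
        push_cast
        exact h
      exact_mod_cast this
    apply mul_right_cancel₀ h0
    rw [hkey α hα]
    have h7 := congrArg (fun x : ℚ => (x : L)) (hρ1 α hα)
    push_cast at h7
    exact h7.symm
  have habs : ∀ α ∈ s, 1 ≤ ρ α ^ 2 := by
    intro α hα
    have h10 := hρ1 α hα
    have h11 : ((a α : ℚ) - b α) ^ 2 ≤ ((a α : ℚ) + b α) ^ 2 := by
      have h12 : (0 : ℚ) ≤ (a α : ℚ) * b α := by positivity
      nlinarith
    have h13 : 0 < ((a α : ℚ) - b α) ^ 2 := by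
      have := hne α hα
      positivity
    rw [← h10, mul_pow] at h11
    by_contra hcon
    push Not at hcon
    nlinarith
  refine ⟨∑ α ∈ s, (ρ α ^ 2 - 1) * ((a α : ℚ) + b α), ?_, ?_, ?_⟩
  · refine Finset.sum_nonneg fun α hα => mul_nonneg (by linarith [habs α hα]) (by positivity)
  · rw [← Finset.sum_sub_distrib]
    push_cast
    refine Finset.sum_congr rfl fun α hα => ?_
    have h15 : α ^ 2 = (ρ α : L) ^ 2 := congrArg (fun x : L => x ^ 2) (hρ2 α hα)
    rw [h15]
    ring
  · intro hq
    have h16 : ∀ α ∈ s, (ρ α ^ 2 - 1) * ((a α : ℚ) + b α) = 0 :=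
      (Finset.sum_eq_zero_iff_of_nonneg fun α hα =>
        mul_nonneg (by linarith [habs α hα]) (by positivity)).1 hq
    intro α hα
    have h17 : ρ α ^ 2 = 1 := by
      rcases mul_eq_zero.1 (h16 α hα) with h | h
      · linarith
      · have h18 : a α + b α = 0 := by exact_mod_cast h
        have := h2 α hα
        omega
    have h20 := hρ1 α hα
    have h21 := hρ2 α hα
    have h22 : (ρ α - 1) * (ρ α + 1) = 0 := by linear_combination h17
    rcases mul_eq_zero.1 h22 with h | h
    · have h23 : ρ α = 1 := by linarith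
      rw [h23, one_mul] at h20
      have h24 : (b α : ℚ) = 0 := by linarith
      have h25 : b α = 0 := by exact_mod_cast h24
      refine ⟨fun _ => ?_, fun hb => absurd h25 hb⟩
      rw [h21, h23, Rat.cast_one]
    · have h23 : ρ α = -1 := by linarith
      rw [h23] at h20
      have h24 : (a α : ℚ) = 0 := by linarith
      have h25 : a α = 0 := by exact_mod_cast h24
      refine ⟨fun ha => absurd h25 ha, fun _ => ?_⟩
      rw [h21, h23]
      simp

/-- **The inequality for the sign.** -/
theorem sign_variance (c e : End K V) (hc : Commute c e) (he : IsIdempotentElem e)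
    (htr : ∀ r, trace K V ((2 * e - 1) * c ^ (r + 1)) = trace K V (c ^ r)) :
    ∃ q : ℚ, 0 ≤ q ∧ trace K V (c ^ 2) - (finrank K V : K) = (q : K) ∧
      (q = 0 → IsNilpotent ((c - algebraMap K _ 1) * e) ∧
        IsNilpotent ((c - algebraMap K _ (-1)) * (1 - e))) := by
  obtain ⟨s, d, h1, h2, h3⟩ := exists_spectral' c (fun b : Bool => if b then e else 1 - e)
    (by
      intro b
      cases b
      · simpa using (Commute.one_right c).sub_right hc
      · simpa using hc)
    (by
      intro b
      cases b
      · simpa using he.one_sub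
      · simpa using he)
    (by simp)
  have ht : ∀ r, algebraMap K (AlgebraicClosure K) (trace K V (e * c ^ r)) =
      ∑ α ∈ s, α ^ r * (d true α : AlgebraicClosure K) :=
    fun r => by simpa using h1 true r
  have hf : ∀ r, algebraMap K (AlgebraicClosure K) (trace K V ((1 - e) * c ^ r)) =
      ∑ α ∈ s, α ^ r * (d false α : AlgebraicClosure K) := fun r => by simpa using h1 false r
  have htot : ∀ r, algebraMap K (AlgebraicClosure K) (trace K V (c ^ r)) =
      ∑ α ∈ s, α ^ r * ((d true α : AlgebraicClosure K) + (d false α : AlgebraicClosure K)) := by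
    intro r
    have h4 : c ^ r = e * c ^ r + (1 - e) * c ^ r := by rw [← add_mul]; simp
    rw [h4, map_add, map_add, ht, hf, ← Finset.sum_add_distrib]
    exact Finset.sum_congr rfl fun α _ => by ring
  have hkey : ∀ α ∈ s, α * ((d true α : AlgebraicClosure K) - (d false α : AlgebraicClosure K)) =
      (d true α : AlgebraicClosure K) + (d false α : AlgebraicClosure K) := by
    refine eq_of_power_sums s _ _ fun r => ?_
    rw [← htot r, ← htr r]
    have h5 : (2 * e - 1) * c ^ (r + 1) = e * c ^ (r + 1) - (1 - e) * c ^ (r + 1) := by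
      rw [← sub_mul]
      congr 1
      rw [two_mul]
      abel
    rw [h5, map_sub, map_sub, ht, hf, ← Finset.sum_sub_distrib]
    exact Finset.sum_congr rfl fun α _ => by rw [pow_succ]; ring
  obtain ⟨q, hq1, hq2, hq3⟩ := comb_sign s (d true) (d false)
    (fun α hα => by simpa using h2 α hα) hkey
  refine ⟨q, hq1, ?_, fun hq => ⟨?_, ?_⟩⟩
  · apply (algebraMap K (AlgebraicClosure K)).injective
    have h14 : algebraMap K (AlgebraicClosure K) (finrank K V : K) =
        ∑ α ∈ s, ((d true α : AlgebraicClosure K) + (d false α : AlgebraicClosure K)) := by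
      have := htot 0
      rw [pow_zero, LinearMap.trace_one] at this
      rw [this]
      exact Finset.sum_congr rfl fun α _ => by rw [pow_zero, one_mul]
    rw [map_sub, htot 2, h14, map_ratCast, ← hq2]
  · have := h3 true 1 (by
      intro α hα hd
      rw [map_one]
      exact (hq3 hq α hα).1 hd)
    simpa using this
  · have := h3 false (-1) (by
      intro α hα hd
      rw [map_neg, map_one]
      exact (hq3 hq α hα).2 hd)
    simpa using this

end General

end Pool.Agent.X310
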