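import Pool.Agent.Y106.One.Main

/-!
# From pointwise to uniform inverses, and from one theory to all theories
-/

open CategoryTheory AlgebraicGeometry Finset Polynomial

universe u₁ v₁ u v

namespace Pool.Agent.X310

section Alg

variable {K V : Type*} [Field K] [AddCommGroup V] [Module K V]

/-- If every vector of the finitely generated subspace `U` is fixed by some member of the
subalgebra `J` (without unit) of operators preserving `U`, then some member of `J` fixes all vectors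
of `U`. -/
theorem exists_unit {J : Submodule K (Module.End K V)} {U : Submodule K V} (hfg : U.FG)
    (hJ : ∀ a ∈ J, ∀ b ∈ J, a * b ∈ J) (hU : ∀ a ∈ J, ∀ y ∈ U, a y ∈ U)
    (h : ∀ y ∈ U, ∃ a ∈ J, a y = y) : ∃ a ∈ J, ∀ y ∈ U, a y = y := by
  have key : ∀ (m : ℕ) (y : Fin m → V), (∀ i, y i ∈ U) → ∃ a ∈ J, ∀ i, a (y i) = y i := by
    intro m
    induction m with
    | zero => exact fun y _ => ⟨0, Submodule.zero_mem _, fun i => i.elim0⟩
    | succ m ih =>
      intro y hy
      obtain ⟨a₁, ha₁, h₁⟩ := h (y 0) (hy 0)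
      obtain ⟨a₂, ha₂, h₂⟩ := ih (fun i => y i.succ - a₁ (y i.succ))
        (fun i => Submodule.sub_mem _ (hy _) (hU _ ha₁ _ (hy _)))
      refine ⟨a₁ + (a₂ - a₂ * a₁), Submodule.add_mem _ ha₁
        (Submodule.sub_mem _ ha₂ (hJ _ ha₂ _ ha₁)), ?_⟩
      intro i
      refine Fin.cases ?_ (fun i => ?_) i
      · simp only [LinearMap.add_apply, LinearMap.sub_apply, Module.End.mul_apply, h₁]
        abel
      · have h3 := h₂ i
        rw [map_sub] at h3
        simp only [LinearMap.add_apply, LinearMap.sub_apply, Module.End.mul_apply]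
        rw [h3]
        abel
  obtain ⟨m, s, hs⟩ := Submodule.fg_iff_exists_fin_generating_family.1 hfg
  have hsU : ∀ i, s i ∈ U := fun i => hs ▸ Submodule.subset_span ⟨i, rfl⟩
  obtain ⟨a, ha, h'⟩ := key m s hsU
  refine ⟨a, ha, fun y hy => ?_⟩
  have : U ≤ LinearMap.eqLocus a (1 : Module.End K V) := by
    rw [← hs, Submodule.span_le]
    rintro _ ⟨i, rfl⟩
    exact h' i
  exact this hy

end Alg

open Pool.Agent.H914 Pool.Agent.H447 Pool.Agent.W537 VarClass Obj WeilCohomology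
  Pool.Agent.Y106.One

variable {k : Type u} [Field k] {𝒱 : VarClass k} {ops : CycleOps 𝒱} {X : 𝒱.Obj}

/-- Every class `a` of degree `i` is the image of `ξ ^ (n - i) a` under a combination (depending on
`a`) of algebraic correspondences, with coefficients in the coefficient field of `W`, of classes of
cycles of codimension `i` on `X × X`. Here `n = dim X` and `ξ` is the class of `D`. -/
def LiesInOrbits (W : WeilCohomology.{u, v} ops) (X : 𝒱.Obj) (D : X.Cycles) (i : ℕ) : Prop :=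
  ∀ a ∈ W.gr X i, ∃ γ ∈ spanCycles W (X.prod X) (i : ℤ), corrLef W X D i γ a = a

/-- Pointwise inverses give uniform inverses. -/
theorem injectsLefschetz_of_orbits (W : WeilCohomology.{u, v} ops) {D : X.Cycles}
    (hD : X.IsCyc 1 D) {i : ℕ} (hi : i ≤ X.dim) (h : LiesInOrbits W X D i) :
    InjectsLefschetz W X D i := by
  have hOA := rop_opAlg (W := W) (X := X)
  set c := X.dim - i with hc
  set L := LL D W ^ c with hLdef
  have hL : ROp W X c L := by
    obtain ⟨Y, hY, hYW⟩ := LL_rop (W := W) hD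
    exact ⟨_, (hY.pow c).cast (by ring), by rw [hYW]⟩
  have hLK : L ∈ KS (ROp W X) c := Submodule.subset_span hL
  have hiff : ∀ T : Module.End W.K (W.H X), T ∈ KS (ROp W X) (-(c : ℤ)) ↔
      ∃ γ ∈ spanCycles W (X.prod X) (i : ℤ), W.corr γ = T := by
    intro T
    rw [mem_KS_iff, mem_KOp_iff, show (X.dim : ℤ) + -(c : ℤ) = (i : ℤ) by omega]
  set J : Submodule W.K (Module.End W.K (W.H X)) :=
    (KS (ROp W X) (-(c : ℤ))).map (LinearMap.mulRight W.K L) with hJ
  have hJ0 : ∀ T ∈ J, T ∈ KS (ROp W X) 0 := by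
    rintro _ ⟨T, hT, rfl⟩
    exact hOA.kspan.cast (hOA.kspan.mul hT hLK) (by ring)
  have hmul : ∀ a ∈ J, ∀ b ∈ J, a * b ∈ J := by
    rintro _ ⟨S, hS, rfl⟩ _ ⟨T, hT, rfl⟩
    refine ⟨S * L * T, hOA.kspan.cast (hOA.kspan.mul (hOA.kspan.mul hS hLK) hT) (by ring), ?_⟩
    simp only [LinearMap.mulRight_apply, mul_assoc]
  have hmem : ∀ T ∈ J, ∀ a ∈ W.gr X i, T a ∈ W.gr X i := by
    intro T hT a ha
    have h1 := hOA.kspan.hom (hJ0 T hT) i a (by rw [grZ_natCast]; exact ha)
    rwa [mul_zero, add_zero, grZ_natCast] at h1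
  obtain ⟨_, ⟨T, hT, rfl⟩, h2⟩ := exists_unit (J := J) (U := W.gr X i)
    (IsNoetherian.noetherian _) hmul hmem (by
      intro a ha
      obtain ⟨γ, hγ, hγa⟩ := h a ha
      refine ⟨W.corr γ * L, ⟨W.corr γ, (hiff _).2 ⟨γ, hγ, rfl⟩, rfl⟩, ?_⟩
      rw [hLdef, LinearMap.pow_mulLeft]
      exact hγa)
  obtain ⟨γ, hγ, rfl⟩ := (hiff T).1 hT
  refine ⟨γ, hγ, fun a ha h0 => ?_⟩
  have h3 := h2 a ha
  rw [LinearMap.mulRight_apply, hLdef, LinearMap.pow_mulLeft] at h3
  rw [← h3]
  exact h0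

end Pool.Agent.X310
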