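import Pool.Agent.X310.Spec
import Pool.Agent.H447R3.KuB

/-!
# Idempotents from nilpotent differences
-/

set_option autoImplicit false

open Polynomial LinearMap Module

namespace Pool.Agent.X310

open Pool.Agent.H914

variable {K : Type*} [Field K] [CharZero K] {V : Type*} [AddCommGroup V] [Module K V]

/-- If `c - w i` is nilpotent on the image of the idempotent `P i`, with distinct rational numbers
`w i`, then the `P i` are polynomials in `c` with rational coefficients. -/
theorem poly_of_nilp {ι : Type*} [Fintype ι] [DecidableEq ι] (c : Module.End K V)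
    (P : ι → Module.End K V) (hc : ∀ i, Commute c (P i)) (hP : ∀ i, IsIdempotentElem (P i))
    (hsum : ∑ i, P i = 1) (w : ι → ℚ) (hw : Function.Injective w)
    (h : ∀ i, IsNilpotent ((c - algebraMap K _ (w i : K)) * P i)) (i : ι) :
    ∃ g : ℚ[X], P i = ev c g := by
  have hcm : ∀ j, Commute (c - algebraMap K (Module.End K V) (w j : K)) (P j) := fun j =>
    (hc j).sub_left (Algebra.commute_algebraMap_left _ _)
  have hpow : ∀ j m, 1 ≤ m → (P j) ^ m = P j := by
    intro j m hm
    induction m, hm using Nat.le_induction with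
    | base => rw [pow_one]
    | succ m _ ih => rw [pow_succ, ih, (hP j).eq]
  -- a common exponent
  have hN : ∃ N, 1 ≤ N ∧ ∀ j, (c - algebraMap K (Module.End K V) (w j : K)) ^ N * P j = 0 := by
    choose m hm using h
    refine ⟨∑ j, m j + 1, by omega, fun j => ?_⟩
    have h1 : ((c - algebraMap K (Module.End K V) (w j : K)) * P j) ^ (∑ j, m j + 1) = 0 :=
      pow_eq_zero_of_le (by
        have := Finset.single_le_sum (f := m) (fun _ _ => Nat.zero_le _) (Finset.mem_univ j)
        omega) (hm j)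
    rwa [(hcm j).mul_pow, hpow j _ (by omega)] at h1
  obtain ⟨N, -, hN⟩ := hN
  have hcop : IsCoprime ((X - C (w i) : ℚ[X]) ^ N)
      (∏ j ∈ Finset.univ.erase i, (X - C (w j) : ℚ[X]) ^ N) := by
    apply IsCoprime.prod_right
    intro j hj
    apply IsCoprime.pow
    apply isCoprime_X_sub_C_of_isUnit_sub
    rw [isUnit_iff_ne_zero, sub_ne_zero]
    exact fun h => Finset.ne_of_mem_erase hj (hw h).symm
  obtain ⟨a, b, hab⟩ := hcop
  refine ⟨b * ∏ j ∈ Finset.univ.erase i, (X - C (w j) : ℚ[X]) ^ N, ?_⟩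
  have hev : ∀ j, ev c ((X - C (w j) : ℚ[X]) ^ N) * P j = 0 := by
    intro j
    rw [map_pow, map_sub, ev_X, ev_C, ← Algebra.algebraMap_eq_smul_one]
    exact hN j
  have h1 : ev c (b * ∏ j ∈ Finset.univ.erase i, (X - C (w j) : ℚ[X]) ^ N) * P i = P i := by
    have h2 : b * ∏ j ∈ Finset.univ.erase i, (X - C (w j) : ℚ[X]) ^ N =
        1 - a * (X - C (w i)) ^ N := by linear_combination hab
    rw [h2, map_sub, map_one, map_mul, sub_mul, mul_assoc, hev, mul_zero, sub_zero, one_mul]
  have h3 : ∀ j, j ≠ i →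
      ev c (b * ∏ j ∈ Finset.univ.erase i, (X - C (w j) : ℚ[X]) ^ N) * P j = 0 := by
    intro j hj
    obtain ⟨q, hq⟩ : (X - C (w j) : ℚ[X]) ^ N ∣
        b * ∏ j ∈ Finset.univ.erase i, (X - C (w j) : ℚ[X]) ^ N :=
      dvd_mul_of_dvd_right (Finset.dvd_prod_of_mem (fun j => (X - C (w j) : ℚ[X]) ^ N)
        (Finset.mem_erase.2 ⟨hj, Finset.mem_univ j⟩)) b
    rw [hq, mul_comm, map_mul, mul_assoc, hev, mul_zero]
  calc P i = ∑ j, ev c (b * ∏ j ∈ Finset.univ.erase i, (X - C (w j) : ℚ[X]) ^ N) * P j := by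
        rw [Finset.sum_eq_single i (fun j _ hj => h3 j hj)
          (fun h => absurd (Finset.mem_univ i) h), h1]
    _ = _ := by rw [← Finset.mul_sum, hsum, mul_one]

end Pool.Agent.X310
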