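import Pool.Agent.X310.CenDefs
import Pool.Agent.X310.Nil

/-!
# Numerical criteria for the Künneth and sign conjectures
-/

set_option autoImplicit false

open CategoryTheory AlgebraicGeometry Finset

universe u v

namespace Pool.Agent.X310

open Pool.Agent.H914 Pool.Agent.H447 VarClass Obj WeilCohomology

variable {k : Type u} [Field k] {𝒱 : VarClass k} {ops : CycleOps 𝒱}
  {W : WeilCohomology.{u, v} ops} {X : 𝒱.Obj}

/-- Intersection numbers with transposes are supertraces. -/
lemma interT_eq {z w : (X.prod X).Cycles} (hz : (X.prod X).IsCyc X.dim z)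
    (hw : (X.prod X).IsCyc X.dim w) : (interT ops X z w : W.K) =
      LinearMap.trace W.K (W.H X)
        (par (W.isInternal X) * (W.corr (W.cl _ z) * W.corr (W.cl _ w))) := by
  rw [str_eq_deg (by omega) hz hw]
  rfl

lemma interT_rop {z : (X.prod X).Cycles} (hz : (X.prod X).IsCyc X.dim z) {τ : W.H X →ₗ[W.K] W.H X}
    (h : ∀ b, (X.prod X).IsCyc X.dim b → (interT ops X z b : W.K) =
      LinearMap.trace W.K (W.H X) (τ * W.corr (W.cl _ b))) {y : Module.End W.K (W.H X)}
    (hy : ROp W X 0 y) : LinearMap.trace W.K (W.H X)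
      (par (W.isInternal X) * (W.corr (W.cl _ z) * y)) =
        LinearMap.trace W.K (W.H X) (τ * y) := by
  obtain ⟨b, hb, rfl⟩ := exists_of_rop (p := X.dim) (by simp) hy
  rw [← interT_eq hz hb, h b hb]

lemma par_comm_rop {y : Module.End W.K (W.H X)} (hy : ROp W X 0 y) :
    par (W.isInternal X) * y = y * par (W.isInternal X) :=
  IsHom.par_comm (d := 0) (W.isInternal X) (y := y) (by simpa using rop_opAlg.hom hy)

lemma scal_comm_rop {y : Module.End W.K (W.H X)} (hy : ROp W X 0 y) (c : ℕ → W.K) :
    Commute y (scal (W.isInternal X) c) := by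
  have hh : IsHom (W.gr X) 0 y := by simpa using rop_opAlg.hom hy
  have := hh.scal_comm (W.isInternal X) (fun i => if 0 ≤ i then c i.toNat else 0)
    (fun i => if 0 ≤ i then c i.toNat else 0) (fun i => by rw [add_zero])
  simp only [Int.natCast_nonneg, if_true, Int.toNat_natCast] at this
  exact this.symm

lemma one_eq_sum_proj : ∑ j : Fin (2 * X.dim + 1), proj (W.isInternal X) (j : ℕ) = 1 := by
  rw [← scal_one (W.isInternal X), scal_eq_sum (W.isInternal X) W_hbd,
    Finset.sum_range fun i => (1 : W.K) • proj (W.isInternal X) i]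
  exact Finset.sum_congr rfl fun i _ => (one_smul _ _).symm

lemma rop_cyc {z : (X.prod X).Cycles} (hz : (X.prod X).IsCyc X.dim z) :
    ROp W X 0 (W.corr (W.cl _ z)) := rop_corr (by simp) hz

lemma rop_pow {y : Module.End W.K (W.H X)} (hy : ROp W X 0 y) (r : ℕ) : ROp W X 0 (y ^ r) :=
  rop_opAlg.cast (rop_opAlg.pow hy r) (by simp)

lemma rop_mul {y z : Module.End W.K (W.H X)} (hy : ROp W X 0 y) (hz : ROp W X 0 z) :
    ROp W X 0 (y * z) := rop_opAlg.cast (rop_opAlg.mul hy hz) (by simp)

lemma actsBy_iff {ω : ℕ → ℚ} {T : Module.End W.K (W.H X)} :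
    ActsBy (W.gr X) ω T ↔ T = scal (W.isInternal X) (fun j => (ω j : W.K)) := by
  constructor
  · intro hT
    apply gr_ext (W.isInternal X)
    intro j a ha
    rw [hT j a ha, scal_apply _ _ ha]
  · rintro rfl j a ha
    rw [scal_apply _ _ ha]

lemma Represents.eq {ω : ℕ → ℚ} {z b : (X.prod X).Cycles} (h : Represents W X ω z)
    (hb : (X.prod X).IsCyc X.dim b) : (interT ops X z b : W.K) =
      LinearMap.trace W.K (W.H X) (scal (W.isInternal X) (fun j => (ω j : W.K)) *
        W.corr (W.cl _ b)) :=
  ((h.2 b hb) _ (actsBy_iff.2 rfl)).symm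

lemma Represents.of_eq {ω : ℕ → ℚ} {z : (X.prod X).Cycles} (hz : (X.prod X).IsCyc X.dim z)
    (h : W.corr (W.cl _ z) = par (W.isInternal X) * scal (W.isInternal X) (fun j => (ω j : W.K))) :
    Represents W X ω z := by
  refine ⟨hz, fun b hb T hT => ?_⟩
  rw [interT_eq hz hb, h, actsBy_iff.1 hT, ← mul_assoc, ← mul_assoc, par_mul_par, one_mul]

lemma RepresentsTrace.eq {w b : (X.prod X).Cycles} (hw : RepresentsTrace W X w)
    (hb : (X.prod X).IsCyc X.dim b) : (interT ops X w b : W.K) =
      LinearMap.trace W.K (W.H X) (W.corr (W.cl _ b)) := by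
  have h := Represents.eq hw hb
  have e : scal (W.isInternal X) (fun _ : ℕ => ((1 : ℚ) : W.K)) = 1 := by
    simpa using scal_one (W.isInternal X)
  rwa [e, one_mul] at h

/-- A cycle representing the sign operator: the powers. -/
lemma sign_traces {w : (X.prod X).Cycles} (hw : RepresentsTrace W X w) (r : ℕ) :
    LinearMap.trace W.K (W.H X) ((2 * evenProj (W.isInternal X) - 1) *
      W.corr (W.cl _ w) ^ (r + 1)) =
      LinearMap.trace W.K (W.H X) (W.corr (W.cl _ w) ^ r) := by
  have h := interT_rop (τ := 1) hw.1 (fun b hb => by rw [hw.eq hb, one_mul])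
    (rop_pow (rop_cyc hw.1) r)
  rw [one_mul] at h
  rw [← h, pow_succ']
  congr 2
  apply gr_ext (W.isInternal X)
  intro j a ha
  have e : (2 : Module.End W.K (W.H X)) * evenProj (W.isInternal X) =
      evenProj (W.isInternal X) + evenProj (W.isInternal X) := two_mul _
  rw [e, par, scal_apply _ _ ha, LinearMap.sub_apply, LinearMap.add_apply, evenProj,
    scal_apply _ _ ha, Module.End.one_apply]
  split_ifs with hj
  · rw [hj.neg_one_pow, one_smul, add_sub_cancel_right]
  · rw [(Nat.not_even_iff_odd.1 hj).neg_one_pow, zero_smul, zero_add, zero_sub, neg_one_smul]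

lemma totalBetti_eq : ((totalBetti W X : ℚ) : W.K) = (Module.finrank W.K (W.H X) : W.K) := by
  rw [finrank_eq_sum (W.isInternal X) W_hbd, totalBetti]
  push_cast
  rfl

/-- **The numerical criterion for the sign conjecture.** -/
theorem sign_criterion {w : (X.prod X).Cycles} (hw : RepresentsTrace W X w) :
    totalBetti W X ≤ interT ops X w (compCyc ops w w) ∧
      (interT ops X w (compCyc ops w w) = totalBetti W X ↔ SignStd W X) := by
  have hOA := rop_opAlg (W := W) (X := X)
  have hcyc := compCyc_mem (ops := ops) hw.1 hw.1 (r := X.dim) rfl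
  set T := W.corr (W.cl _ w) with hT
  have hTR : ROp W X 0 T := rop_cyc hw.1
  have hnum : (interT ops X w (compCyc ops w w) : W.K) =
      LinearMap.trace W.K (W.H X) (T ^ 2) := by
    rw [hw.eq hcyc, corr_compCyc W hw.1, pow_two]
    rfl
  have hcomm : Commute T (evenProj (W.isInternal X)) := scal_comm_rop hTR _
  have hidem : IsIdempotentElem (evenProj (W.isInternal X)) := by
    change evenProj (W.isInternal X) * evenProj (W.isInternal X) = _
    rw [evenProj, scal_mul]
    congr 1
    funext i
    split_ifs <;> simp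
  obtain ⟨q, hq0, hq1, hq2⟩ := sign_variance T (evenProj (W.isInternal X)) hcomm hidem
    (sign_traces hw)
  rw [← hnum, ← totalBetti_eq] at hq1
  have hq3 : interT ops X w (compCyc ops w w) - totalBetti W X = q := by exact_mod_cast hq1
  refine ⟨by linarith, fun he => ?_, fun hS => ?_⟩
  · have hq : q = 0 := by rw [← hq3, he, sub_self]
    obtain ⟨hn1, hn2⟩ := hq2 hq
    obtain ⟨g, hg⟩ := poly_of_nilp T
      (fun b : Bool => if b then evenProj (W.isInternal X) else 1 - evenProj (W.isInternal X))
      (by
        intro b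
        cases b
        · simpa using (Commute.one_right T).sub_right hcomm
        · simpa using hcomm)
      (by
        intro b
        cases b
        · simpa using hidem.one_sub
        · simpa using hidem)
      (by simp) (fun b => if b then 1 else -1)
      (by
        intro a b hab
        cases a <;> cases b <;> simp_all <;> norm_num at hab)
      (by
        intro b
        cases b
        · simpa using hn2
        · simpa using hn1) true
    have hE : ROp W X 0 (evenProj (W.isInternal X)) := by
      have h2 : evenProj (W.isInternal X) = ev T g := by simpa using hg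
      rw [h2]
      exact hOA.ev hTR g
    obtain ⟨P, hP, hP'⟩ := exists_of_rop (p := X.dim) (by simp) hE
    exact ⟨P, hP, isEvenProj_iff.2 hP'⟩
  · have hpar := par_rop_of_sign hS
    have htr : ∀ {y : Module.End W.K (W.H X)}, ROp W X 0 y → LinearMap.trace W.K (W.H X)
      (par (W.isInternal X) * (T * y)) = LinearMap.trace W.K (W.H X) y := by
      intro y hy
      have := interT_rop (τ := 1) hw.1 (fun b hb => by rw [hw.eq hb, one_mul]) hy
      rwa [one_mul] at this
    have h1 := htr (rop_mul hTR hpar)
    have h2 := htr (hOA.one : ROp W X 0 1)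
    have h3 : par (W.isInternal X) * (T * (T * par (W.isInternal X))) = T ^ 2 := by
      rw [← par_comm_rop hTR, ← mul_assoc T, ← par_comm_rop hTR, mul_assoc, ← mul_assoc,
        par_mul_par, one_mul, pow_two]
    rw [h3] at h1
    rw [mul_one, par_comm_rop hTR] at h2
    rw [← hnum, h2, LinearMap.trace_one, ← totalBetti_eq] at h1
    exact_mod_cast h1

/-- With the sign operator algebraic, plain traces of powers. -/
lemma plain_traces (hS : SignStd W X) {z : (X.prod X).Cycles} {c ω : ℕ → ℚ}
    (hz : Represents W X ω z) (hω : ∀ j, ω j = (-1) ^ j * c j)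
    {y : Module.End W.K (W.H X)} (hy : ROp W X 0 y) :
    LinearMap.trace W.K (W.H X) (W.corr (W.cl _ z) * y) =
      LinearMap.trace W.K (W.H X) (scal (W.isInternal X) (fun j => (c j : W.K)) * y) := by
  have hpar := par_rop_of_sign hS
  have h := interT_rop hz.1 (fun b hb => hz.eq hb) (rop_mul hpar hy)
  have hTR : ROp W X 0 (W.corr (W.cl _ z)) := rop_cyc hz.1
  have e1 : par (W.isInternal X) * (W.corr (W.cl _ z) * (par (W.isInternal X) * y)) =
      W.corr (W.cl _ z) * y := by
    rw [← mul_assoc (W.corr (W.cl _ z)), ← par_comm_rop hTR, ← mul_assoc, ← mul_assoc,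
      par_mul_par, one_mul]
  have e2 : scal (W.isInternal X) (fun j => (ω j : W.K)) * (par (W.isInternal X) * y) =
      scal (W.isInternal X) (fun j => (c j : W.K)) * y := by
    rw [← mul_assoc, par, scal_mul]
    congr 2
    funext j
    rw [hω j]
    push_cast
    rw [mul_right_comm, ← mul_pow, neg_mul_neg, one_mul, one_pow, one_mul]
  rwa [e1, e2] at h

lemma exists_representsTrace (hS : SignStd W X) : ∃ w, RepresentsTrace W X w := by
  obtain ⟨w, hw, hw'⟩ := exists_of_rop (p := X.dim) (by simp) (par_rop_of_sign hS)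
  refine ⟨w, Represents.of_eq hw ?_⟩
  have e : scal (W.isInternal X) (fun _ : ℕ => ((1 : ℚ) : W.K)) = 1 := by
    simpa using scal_one (W.isInternal X)
  rw [hw', e, mul_one]

lemma scal_rop (hK : KunnethStd W X) (c : ℕ → ℚ) :
    ROp W X 0 (scal (W.isInternal X) (fun j => (c j : W.K))) := by
  rw [scal_eq_sum (W.isInternal X) W_hbd]
  exact rop_opAlg.sum fun j _ => rop_opAlg.smul (c j) (kunneth_rop hK j)

lemma exists_representsWeight (hK : KunnethStd W X) : ∃ c, RepresentsWeight W X c := by
  obtain ⟨c, hc, hc'⟩ := exists_of_rop (p := X.dim) (by simp)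
    (scal_rop hK (fun j => (j : ℚ) - X.dim))
  refine ⟨c, Represents.of_eq hc ?_⟩
  rw [hc', par, scal_mul]
  congr 1
  funext j
  push_cast
  rw [← mul_assoc, ← mul_pow, neg_mul_neg, one_mul, one_pow, one_mul]

/-- **The numerical criterion for the Künneth conjecture, given the sign conjecture.** -/
theorem kunneth_criterion (hS : SignStd W X) {w c : (X.prod X).Cycles}
    (hw : RepresentsTrace W X w) (hc : RepresentsWeight W X c) :
    interT ops X w (compCyc ops c c) ≤ totalWeight W X ∧
      (interT ops X w (compCyc ops c c) = totalWeight W X ↔ KunnethStd W X) := by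
  have hOA := rop_opAlg (W := W) (X := X)
  have hcyc := compCyc_mem (ops := ops) hc.1 hc.1 (r := X.dim) rfl
  set T := W.corr (W.cl _ c) with hT
  have hTR : ROp W X 0 T := rop_cyc hc.1
  have hnum : (interT ops X w (compCyc ops c c) : W.K) =
      LinearMap.trace W.K (W.H X) (T ^ 2) := by
    rw [hw.eq hcyc, corr_compCyc W hc.1, pow_two]
    rfl
  set ω : ℕ → ℚ := fun j => (j : ℚ) - X.dim with hω
  have hscal : ∀ y : Module.End W.K (W.H X), LinearMap.trace W.K (W.H X)
      (scal (W.isInternal X) (fun j => (ω j : W.K)) * y) = ∑ j ∈ range (2 * X.dim + 1),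
        (ω j : W.K) * LinearMap.trace W.K (W.H X) (proj (W.isInternal X) j * y) := by
    intro y
    rw [scal_eq_sum (W.isInternal X) W_hbd, Finset.sum_mul, map_sum]
    exact Finset.sum_congr rfl fun j _ => by rw [smul_mul_assoc, map_smul, smul_eq_mul]
  have hplain : ∀ {y : Module.End W.K (W.H X)}, ROp W X 0 y →
      LinearMap.trace W.K (W.H X) (T * y) =
        LinearMap.trace W.K (W.H X) (scal (W.isInternal X) (fun j => (ω j : W.K)) * y) :=
    fun hy => plain_traces hS hc (fun _ => rfl) hy
  have hsq : LinearMap.trace W.K (W.H X) (scal (W.isInternal X) (fun j => (ω j : W.K)) *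
      scal (W.isInternal X) (fun j => (ω j : W.K))) = ((totalWeight W X : ℚ) : W.K) := by
    rw [scal_mul, trace_scal (W.isInternal X) W_hbd, totalWeight]
    push_cast
    refine Finset.sum_congr rfl fun j _ => ?_
    rw [hω, pow_two]
    push_cast
    rfl
  obtain ⟨q, hq0, hq1, hq2⟩ := variance T
    (fun j : Fin (2 * X.dim + 1) => proj (W.isInternal X) (j : ℕ))
    (fun j => scal_comm_rop hTR _) (fun j => proj_mul_proj (W.isInternal X) j) one_eq_sum_proj
    (fun j => ω (j : ℕ)) (fun r => by
      rw [pow_succ', hplain (rop_pow hTR r), hscal, Finset.sum_range fun j =>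
        (ω j : W.K) * LinearMap.trace W.K (W.H X) (proj (W.isInternal X) j * T ^ r)])
  have htw : ((totalWeight W X : ℚ) : W.K) = ∑ j : Fin (2 * X.dim + 1),
      (ω (j : ℕ) : W.K) ^ 2 * LinearMap.trace W.K (W.H X) (proj (W.isInternal X) (j : ℕ)) := by
    rw [totalWeight, Finset.sum_range fun j => ((j : ℚ) - X.dim) ^ 2 * (W.betti X j : ℚ)]
    push_cast
    refine Finset.sum_congr rfl fun j _ => ?_
    rw [trace_proj, hω]
    push_cast
    rfl
  have hq3 : totalWeight W X - interT ops X w (compCyc ops c c) = q := by
    rw [← htw, ← hnum] at hq1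
    exact_mod_cast hq1
  refine ⟨by linarith, fun he => ?_, fun hK => ?_⟩
  · have hq : q = 0 := by rw [← hq3, he, sub_self]
    apply kunneth_of_rop
    intro i
    by_cases hi : i < 2 * X.dim + 1
    · obtain ⟨g, hg⟩ := poly_of_nilp T
        (fun j : Fin (2 * X.dim + 1) => proj (W.isInternal X) (j : ℕ))
        (fun j => scal_comm_rop hTR _) (fun j => proj_mul_proj (W.isInternal X) j)
        one_eq_sum_proj (fun j => ω (j : ℕ))
        (fun a b hab => by
          have : ((a : ℕ) : ℚ) = ((b : ℕ) : ℚ) := by simpa [hω] using hab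
          exact Fin.ext (by exact_mod_cast this)) (hq2 hq) ⟨i, hi⟩
      have h2 : proj (W.isInternal X) i = ev T g := hg
      rw [h2]
      exact hOA.ev hTR g
    · have h3 : proj (W.isInternal X) i = 0 := by
        ext x
        have h4 := proj_mem (W.isInternal X) i x
        rw [W_hbd i (by omega)] at h4
        exact (Submodule.mem_bot W.K).1 h4
      rw [h3]
      exact hOA.zero 0
  · have h1 := hplain hTR
    have h2 := hplain (scal_rop hK ω)
    have h3 : scal (W.isInternal X) (fun j => (ω j : W.K)) * T =
        T * scal (W.isInternal X) (fun j => (ω j : W.K)) := (scal_comm_rop hTR _).symm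
    rw [← pow_two, h3, h2, hsq, ← hnum] at h1
    exact_mod_cast h1

/-- **The numerical criterion for one Künneth projector, given the sign conjecture.** -/
theorem projector_criterion (hS : SignStd W X) {i : ℕ} {z : (X.prod X).Cycles}
    (hz : RepresentsProjector W X i z) :
    (-1) ^ i * interT ops X z z ≤ (W.betti X i : ℚ) ∧
      ((-1) ^ i * interT ops X z z = (W.betti X i : ℚ) ↔ KunnethAt W X i) := by
  have hOA := rop_opAlg (W := W) (X := X)
  set T := W.corr (W.cl _ z) with hT
  have hTR : ROp W X 0 T := rop_cyc hz.1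
  have hprojdef : scal (W.isInternal X) (fun j => (((if j = i then 1 else 0 : ℚ)) : W.K)) =
      proj (W.isInternal X) i := by
    rw [proj]
    congr 1
    funext j
    split_ifs <;> simp
  have hplain : ∀ {y : Module.End W.K (W.H X)}, ROp W X 0 y →
      LinearMap.trace W.K (W.H X) (T * y) =
        LinearMap.trace W.K (W.H X) (proj (W.isInternal X) i * y) := by
    intro y hy
    rw [← hprojdef]
    refine plain_traces hS hz (fun j => ?_) hy
    split_ifs with h
    · rw [h, mul_one]
    · rw [mul_zero]
  have hcomm : Commute T (proj (W.isInternal X) i) := scal_comm_rop hTR _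
  have hidem : IsIdempotentElem (proj (W.isInternal X) i) := proj_mul_proj (W.isInternal X) i
  have hnum : (((-1) ^ i * interT ops X z z : ℚ) : W.K) =
      LinearMap.trace W.K (W.H X) (T ^ 2) := by
    have e1 : scal (W.isInternal X) (fun j => (((if j = i then (-1) ^ i else 0 : ℚ)) : W.K)) =
        (-1 : W.K) ^ i • proj (W.isInternal X) i := by
      apply gr_ext (W.isInternal X)
      intro j a ha
      rw [scal_apply _ _ ha, LinearMap.smul_apply]
      split_ifs with h
      · subst h
        rw [proj_same _ ha]
        push_cast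
        rfl
      · rw [proj_ne _ ha h]
        simp
    push_cast
    rw [Represents.eq hz hz.1, e1, smul_mul_assoc, map_smul, smul_eq_mul, ← mul_assoc, ← mul_pow,
      neg_mul_neg, one_mul, one_pow, one_mul, pow_two, hplain hTR]
  obtain ⟨q, hq0, hq1, hq2⟩ := variance T
    (fun b : Bool => if b then proj (W.isInternal X) i else 1 - proj (W.isInternal X) i)
    (by
      intro b
      cases b
      · simpa using (Commute.one_right T).sub_right hcomm
      · simpa using hcomm)
    (by
      intro b
      cases b
      · simpa using hidem.one_sub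
      · simpa using hidem)
    (by simp) (fun b => if b then 1 else 0) (fun r => by
      rw [pow_succ', hplain (rop_pow hTR r)]
      simp)
  have hq1' : (((W.betti X i : ℚ) - (-1) ^ i * interT ops X z z : ℚ) : W.K) = (q : W.K) := by
    rw [← hq1, Rat.cast_sub, hnum]
    congr 1
    simp [trace_proj, WeilCohomology.betti]
  have hq3 : (W.betti X i : ℚ) - (-1) ^ i * interT ops X z z = q := by exact_mod_cast hq1'
  refine ⟨by linarith, fun he => ?_, fun hK => ?_⟩
  · have hq : q = 0 := by rw [← hq3, he, sub_self]
    obtain ⟨g, hg⟩ := poly_of_nilp T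
      (fun b : Bool => if b then proj (W.isInternal X) i else 1 - proj (W.isInternal X) i)
      (by
        intro b
        cases b
        · simpa using (Commute.one_right T).sub_right hcomm
        · simpa using hcomm)
      (by
        intro b
        cases b
        · simpa using hidem.one_sub
        · simpa using hidem)
      (by simp) (fun b => if b then 1 else 0)
      (by
        intro a b hab
        cases a <;> cases b <;> simp_all)
      (hq2 hq) true
    have hE : ROp W X 0 (proj (W.isInternal X) i) := by
      have h2 : proj (W.isInternal X) i = ev T g := by simpa using hg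
      rw [h2]
      exact hOA.ev hTR g
    obtain ⟨P, hP, hP'⟩ := exists_of_rop (p := X.dim) (by simp) hE
    exact ⟨P, hP, isProjTo_iff.2 hP'⟩
  · obtain ⟨P, hP, hP'⟩ := hK
    have h4 : W.corr (W.cl _ P) = proj (W.isInternal X) i := isProjTo_iff.1 hP'
    have hPR : ROp W X 0 (proj (W.isInternal X) i) := by
      rw [← h4]
      exact rop_cyc hP
    have h1 := hplain hTR
    have h2 := hplain hPR
    rw [← pow_two, ← hcomm.eq, h2, hidem.eq, trace_proj, ← hnum] at h1
    exact_mod_cast h1

/-- **The criterion for the sign conjecture, complete form.** -/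
theorem sign_main :
    (SignStd W X ↔ ∃ w, RepresentsTrace W X w ∧
      interT ops X w (compCyc ops w w) = totalBetti W X) ∧
    ∀ w, RepresentsTrace W X w → totalBetti W X ≤ interT ops X w (compCyc ops w w) ∧
        (interT ops X w (compCyc ops w w) = totalBetti W X ↔ SignStd W X) := by
  refine ⟨⟨fun hS => ?_, ?_⟩, fun w hw => sign_criterion hw⟩
  · obtain ⟨w, hw⟩ := exists_representsTrace hS
    exact ⟨w, hw, (sign_criterion hw).2.2 hS⟩
  · rintro ⟨w, hw, he⟩
    exact (sign_criterion hw).2.1 he

lemma sign_of_kunneth' (hK : KunnethStd W X) : SignStd W X :=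
  sign_of_kunneth fun i => kunneth_rop hK i

/-- **The criterion for the Künneth conjecture, complete form.** -/
theorem kunneth_main :
    (KunnethStd W X ↔ ∃ w c, RepresentsTrace W X w ∧ RepresentsWeight W X c ∧
      interT ops X w (compCyc ops w w) = totalBetti W X ∧
      interT ops X w (compCyc ops c c) = totalWeight W X) ∧
    ∀ w c, RepresentsTrace W X w → RepresentsWeight W X c →
      totalBetti W X ≤ interT ops X w (compCyc ops w w) ∧
      (interT ops X w (compCyc ops w w) = totalBetti W X →
        interT ops X w (compCyc ops c c) ≤ totalWeight W X ∧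
          (interT ops X w (compCyc ops c c) = totalWeight W X ↔ KunnethStd W X)) := by
  refine ⟨⟨fun hK => ?_, ?_⟩, fun w c hw hc => ⟨(sign_criterion hw).1, fun he =>
    kunneth_criterion ((sign_criterion hw).2.1 he) hw hc⟩⟩
  · have hS := sign_of_kunneth' hK
    obtain ⟨w, hw⟩ := exists_representsTrace hS
    obtain ⟨c, hc⟩ := exists_representsWeight hK
    exact ⟨w, c, hw, hc, (sign_criterion hw).2.2 hS, (kunneth_criterion hS hw hc).2.2 hK⟩
  · rintro ⟨w, c, hw, hc, he, he'⟩
    exact (kunneth_criterion ((sign_criterion hw).2.1 he) hw hc).2.1 he'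

end Pool.Agent.X310
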