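import Pool.Agent.X310.BeDefs
import Pool.Agent.X208.BR.Conv

set_option autoImplicit false

open Module

namespace Pool.Agent.X310.Be

open Pool.Agent.X208.BR.Pk

section

variable {Γ : Type} [Group Γ]

open Classical in
/-- The monomial matrices. -/
noncomputable def mono (H : Subgroup Γ) (l : H →* ℂˣ) (g : Γ) (x y : Γ ⧸ H) : ℂ :=
  if hx : x.out⁻¹ * g * y.out ∈ H then (l ⟨_, hx⟩ : ℂ) else 0

theorem mono_unique (H : Subgroup Γ) {h : Γ} {y z : Γ ⧸ H} (hy : y.out⁻¹ * h * z.out ∈ H) :
    y = QuotientGroup.mk (h * z.out) := by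
  rw [← QuotientGroup.out_eq' y, QuotientGroup.eq, ← mul_assoc]
  exact hy

theorem mono_exists (H : Subgroup Γ) (h : Γ) (z : Γ ⧸ H) :
    (QuotientGroup.mk (h * z.out) : Γ ⧸ H).out⁻¹ * h * z.out ∈ H := by
  rw [mul_assoc]
  exact QuotientGroup.eq.1 (QuotientGroup.out_eq' _)

theorem mono_mul (H : Subgroup Γ) [Fintype (Γ ⧸ H)] (l : H →* ℂˣ) (g h : Γ) (x z : Γ ⧸ H) :
    mono H l (g * h) x z = ∑ y, mono H l g x y * mono H l h y z := by
  classical
  set y0 : Γ ⧸ H := QuotientGroup.mk (h * z.out) with hy0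
  have h0 : y0.out⁻¹ * h * z.out ∈ H := mono_exists H h z
  rw [Finset.sum_eq_single y0]
  · unfold mono
    rw [dif_pos h0]
    have h1 : x.out⁻¹ * (g * h) * z.out = (x.out⁻¹ * g * y0.out) * (y0.out⁻¹ * h * z.out) := by
      group
    by_cases h2 : x.out⁻¹ * g * y0.out ∈ H
    · rw [dif_pos h2, dif_pos (by rw [h1]; exact H.mul_mem h2 h0)]
      rw [← Units.val_mul, ← map_mul]
      congr 2
      exact Subtype.ext h1
    · rw [dif_neg h2, zero_mul, dif_neg]
      intro h3
      apply h2
      rw [h1] at h3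
      have h4 := H.mul_mem h3 (H.inv_mem h0)
      rwa [mul_inv_cancel_right] at h4
  · intro y _ hne
    have h3 : mono H l h y z = 0 := by
      unfold mono
      rw [dif_neg]
      intro h4
      exact hne (mono_unique H h4)
    rw [h3, mul_zero]
  · intro h3
    exact absurd (Finset.mem_univ _) h3

/-- **Induced characters.** -/
theorem indG_isChar (H : Subgroup Γ) (hfin : Finite (Γ ⧸ H)) (l : H →* ℂˣ) (N : Subgroup Γ)
    (hN : ∀ n ∈ N, ∀ g, g⁻¹ * n * g ∈ N) (hNH : N ≤ H)
    (hl : ∀ n : H, (n : Γ) ∈ N → l n = 1) :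
    IsChar N (indG H fun g => (l g : ℂ)) := by
  classical
  haveI : Fintype (Γ ⧸ H) := Fintype.ofFinite _
  let P : Γ →* Matrix (Γ ⧸ H) (Γ ⧸ H) ℂ :=
    { toFun := fun g => Matrix.of fun x y => mono H l g x y
      map_one' := by
        ext x y
        rw [Matrix.of_apply, Matrix.one_apply]
        unfold mono
        by_cases h1 : x = y
        · subst h1
          rw [if_pos rfl]
          have h2 : x.out⁻¹ * 1 * x.out = 1 := by group
          rw [dif_pos (by rw [h2]; exact H.one_mem)]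
          have h3 : (⟨x.out⁻¹ * 1 * x.out, by rw [h2]; exact H.one_mem⟩ : H) = 1 := Subtype.ext h2
          rw [h3, map_one]
          rfl
        · rw [if_neg h1, dif_neg]
          intro h2
          apply h1
          rw [mul_one] at h2
          rw [← QuotientGroup.out_eq' x, ← QuotientGroup.out_eq' y, QuotientGroup.eq]
          exact h2
      map_mul' := fun g h => by
        ext x z
        rw [Matrix.mul_apply, Matrix.of_apply, mono_mul]
        rfl }
  refine ⟨Γ ⧸ H, inferInstance, inferInstance, P, fun g hg => ?_, fun g => ?_⟩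
  · ext x y
    change mono H l g x y = _
    rw [Matrix.one_apply]
    unfold mono
    by_cases h1 : x = y
    · subst h1
      rw [if_pos rfl]
      have h2 : x.out⁻¹ * g * x.out ∈ N := hN g hg x.out
      rw [dif_pos (hNH h2), hl _ h2]
      rfl
    · rw [if_neg h1, dif_neg]
      intro h2
      apply h1
      have h3 : y.out⁻¹ * g * y.out ∈ H := hNH (hN g hg y.out)
      rw [← QuotientGroup.out_eq' x, ← QuotientGroup.out_eq' y, QuotientGroup.eq]
      have h4 := H.mul_mem h2 (H.inv_mem h3)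
      have h5 : x.out⁻¹ * g * y.out * (y.out⁻¹ * g * y.out)⁻¹ = x.out⁻¹ * y.out := by group
      rwa [h5] at h4
  · unfold indG
    rw [finsum_eq_sum_of_fintype]
    rfl

end

variable {K K' : Fld}

theorem relIndex_finite (h : K ≤ K') (hK' : IsNF K') :
    Finite (G K ⧸ (G K').subgroupOf (G K)) := by
  apply Nat.finite_of_card_ne_zero
  change (G K').relIndex (G K) ≠ 0
  intro h3
  have h4 := Subgroup.relIndex_mul_index (G_anti h)
  rw [h3, zero_mul] at h4
  exact Pool.Agent.X208.BR.index_ne_zero hK' h4.symm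

theorem fs_nrm (K : IntermediateField ℚ (AlgebraicClosure ℚ)) (h : Normal ℚ K) :
    K.fixingSubgroup.Normal := by
  have h1 := @IntermediateField.restrictNormalHom_ker ℚ (AlgebraicClosure ℚ) _ _ _ K h
  rw [← h1]
  exact MonoidHom.normal_ker _

theorem G_nrm {L K : Fld} (h : Over L K) : (G L).Normal := fs_nrm L h.normal

theorem exists_over' (M K : Fld) (hM : IsNF M) (hK : IsNF K) : ∃ L, Over L K ∧ M ≤ L := by
  obtain ⟨L, h1, h2⟩ := Pool.Agent.X208.BR.exists_over
    (show IntermediateField ℚ _ from M) (show IntermediateField ℚ _ from K) hM hK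
  exact ⟨L, (over_iff L K).2 h1, h2⟩

/-- Linear characters are characters. -/
theorem lin_artin {M : Fld} (hM : IsNF M) {χ : G K → ℂ} (h : IsLin K M χ) : IsArtin K χ := by
  obtain ⟨l, h1, h2⟩ := h
  refine ⟨M, hM, Unit, inferInstance, inferInstance,
    { toFun := fun g => Matrix.of fun _ _ => (l g : ℂ)
      map_one' := by
        ext i j
        simp
      map_mul' := fun g h => by
        ext i j
        simp [Matrix.mul_apply] }, fun g hg => ?_, fun g => ?_⟩
  · ext i j
    change (l g : ℂ) = _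
    rw [h1 g hg]
    simp
  · rw [h2 g]
    simp [Matrix.trace]

/-- Characters induced from linear characters. -/
theorem ind_lin_artin {M : Fld} (hM : IsNF M) (hK' : IsNF K') (h : K ≤ K') {χ : G K' → ℂ}
    (hχ : IsLin K' M χ) : IsArtin K (ind h χ) := by
  obtain ⟨l, h1, h2⟩ := hχ
  obtain ⟨L, hL, hML⟩ := exists_over' M K' hM hK'
  haveI := G_nrm hL
  refine ⟨L, hL.fin, ?_⟩
  have h3 : χ = fun g => (l g : ℂ) := funext h2
  subst h3
  unfold IsCharOf ind
  refine indG_isChar ((G K').subgroupOf (G K)) (relIndex_finite h hK')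
    (l.comp ⟨⟨fun g => (⟨g.1, g.2⟩ : G K'), rfl⟩, fun _ _ => rfl⟩) ((G L).subgroupOf (G K)) ?_ ?_ ?_
  · intro n hn g
    rw [Subgroup.mem_subgroupOf] at hn ⊢
    have h4 := (inferInstance : (G L).Normal).conj_mem _ hn (g⁻¹ : G K)
    simpa using h4
  · intro n hn
    rw [Subgroup.mem_subgroupOf] at hn ⊢
    exact G_anti hL.le hn
  · intro n hn
    exact h1 _ (G_anti hML hn)

theorem one_lin (K M : Fld) : IsLin K M fun _ => 1 := ⟨1, fun _ _ => rfl, fun _ => rfl⟩

theorem lin_mono {K₀ M : Fld} (h : K₀ ≤ K) {χ : G K₀ → ℂ} (hχ : IsLin K₀ M χ) :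
    IsLin K M (res h χ) := by
  obtain ⟨l, h1, h2⟩ := hχ
  exact ⟨l.comp (Subgroup.inclusion (G_anti h)), fun g hg => h1 _ hg, fun g => h2 _⟩

end Pool.Agent.X310.Be
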