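import Pool.Agent.X310.BeA

set_option autoImplicit false

open Module

namespace Pool.Agent.X310.Be

open Pool.Agent.X208.BR.Pk

variable {K K₀ M : Fld}

/-- The defect, an inductive invariant. -/
noncomputable def dd (T : BorelSystem) (σ : ℂ ≃+* ℂ) (K : Fld) (χ : G K → ℂ) : ℂˣ :=
  (T.toStarkSystem.conv.inv σ).d K χ

theorem dd_add (T : BorelSystem) (σ : ℂ ≃+* ℂ) (hK : IsNF K) {χ ψ : G K → ℂ} (h1 : IsArtin K χ)
    (h2 : IsArtin K ψ) : dd T σ K (χ + ψ) = dd T σ K χ * dd T σ K ψ :=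
  (T.toStarkSystem.conv.inv σ).add K χ ψ hK ((artin_iff K χ).1 h1) ((artin_iff K ψ).1 h2)

theorem dd_ind (T : BorelSystem) (σ : ℂ ≃+* ℂ) (h : K₀ ≤ K) (hK : IsNF K) {χ : G K → ℂ}
    (h1 : IsArtin K χ) (h2 : IsArtin K₀ (ind h χ)) : dd T σ K₀ (ind h χ) = dd T σ K χ :=
  (T.toStarkSystem.conv.inv σ).ind K₀ K h χ hK ((artin_iff K χ).1 h1) ((artin_iff K₀ _).1 h2)

theorem holds_iff (T : BorelSystem) (hK : IsNF K) {χ : G K → ℂ} (h : IsArtin K χ) :
    T.Holds K χ ↔ ∀ σ, dd T σ K χ = 1 := by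
  rw [holds_conv]
  exact T.toStarkSystem.conv.holds_iff K χ hK ((artin_iff K χ).1 h)

theorem nf_le (h : K₀ ≤ K) (hK : IsNF K) : IsNF K₀ := Pool.Agent.X208.BR.fin_of_le h hK

theorem one_artin (hK : IsNF K) : IsArtin K fun _ => 1 := lin_artin hK (one_lin K K)

theorem dd_one (T : BorelSystem) (σ : ℂ ≃+* ℂ) (hK : IsNF K) : dd T σ K (fun _ => 1) = 1 :=
  (holds_iff T hK (one_artin hK)).1 (T.borel K hK) σ

theorem artin_add {χ ψ : G K → ℂ} (h1 : IsArtin K χ) (h2 : IsArtin K ψ) :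
    IsArtin K (χ + ψ) := (artin_iff K _).2 (((artin_iff K χ).1 h1).add ((artin_iff K ψ).1 h2))

theorem artin_nsmul {χ : G K → ℂ} (h1 : IsArtin K χ) (n : ℕ) : IsArtin K (n • χ) :=
  (artin_iff K _).2 (((artin_iff K χ).1 h1).nsmul n)

theorem dd_nsmul (T : BorelSystem) (σ : ℂ ≃+* ℂ) (hK : IsNF K) {χ : G K → ℂ}
    (h1 : IsArtin K χ) (n : ℕ) : dd T σ K (n • χ) = dd T σ K χ ^ n :=
  (T.toStarkSystem.conv.inv σ).d_nsmul hK ((artin_iff K χ).1 h1) n

/-- The number of fixed cosets. -/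
theorem ind_res (h : K₀ ≤ K) (hK : IsNF K) (l : G K₀ →* ℂˣ) (g : G K₀) :
    ind h (res h fun g => (l g : ℂ)) g = (l g : ℂ) * ind h (fun _ => 1) g := by
  haveI := relIndex_finite h hK
  unfold ind indG
  rw [mul_finsum']
  · refine finsum_congr fun x => ?_
    by_cases hx : x.out⁻¹ * g * x.out ∈ (G K).subgroupOf (G K₀)
    · rw [dif_pos hx, dif_pos hx, mul_one]
      change (l (x.out⁻¹ * g * x.out) : ℂ) = l g
      rw [map_mul, map_mul, map_inv]
      congr 1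
      rw [mul_comm (l x.out)⁻¹, mul_assoc, inv_mul_cancel, mul_one]
    · rw [dif_neg hx, dif_neg hx, mul_zero]
  · exact Set.toFinite _

/-- An element which fixes one coset only. -/
theorem ind_one_eq (h : K₀ ≤ K) {g : G K₀} (hg : FixesOne K₀ K g) :
    ind h (fun _ => 1) g = 1 := by
  classical
  obtain ⟨x0, h0, h1⟩ := hg
  have hiff : ∀ x : G K₀ ⧸ (G K).subgroupOf (G K₀),
      x.out⁻¹ * g * x.out ∈ (G K).subgroupOf (G K₀) ↔ g • x = x := by
    intro x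
    have h2 : g • x = QuotientGroup.mk (g * x.out) := by
      conv_lhs => rw [← QuotientGroup.out_eq' x]
      rfl
    rw [h2]
    have h3 : (QuotientGroup.mk (g * x.out) : G K₀ ⧸ (G K).subgroupOf (G K₀)) = x ↔
        (QuotientGroup.mk x.out : G K₀ ⧸ (G K).subgroupOf (G K₀)) =
          QuotientGroup.mk (g * x.out) := by
      rw [QuotientGroup.out_eq']
      exact eq_comm
    rw [h3, QuotientGroup.eq, mul_assoc]
  unfold ind indG
  rw [finsum_eq_single _ x0]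
  · rw [dif_pos ((hiff x0).2 h0)]
  · intro x hx
    rw [dif_neg (fun h2 => hx (h1 x ((hiff x).1 h2)))]

/-- **The relation.** -/
theorem relation (h : K₀ ≤ K) (hK : IsNF K) (hfix : ∀ g : G K₀, (g : GalQ) ∉ G M → FixesOne K₀ K g)
    {χ : G K₀ → ℂ} (hχ : IsLin K₀ M χ) :
    ind h (res h χ) + (fun _ => 1) = χ + ind h (fun _ => 1) := by
  obtain ⟨l, h1, h2⟩ := hχ
  have h3 : χ = fun g => (l g : ℂ) := funext h2
  subst h3
  funext g
  rw [Pi.add_apply, Pi.add_apply, ind_res h hK]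
  by_cases hg : (g : GalQ) ∈ G M
  · rw [h1 g hg]
    push_cast
    ring
  · rw [ind_one_eq h (hfix g hg)]
    ring

/-- **Transfer**, the defects. -/
theorem dd_res (T : BorelSystem) (σ : ℂ ≃+* ℂ) (h : K₀ ≤ K) (hK : IsNF K) (hM : IsNF M)
    (hfix : ∀ g : G K₀, (g : GalQ) ∉ G M → FixesOne K₀ K g)
    {χ : G K₀ → ℂ} (hχ : IsLin K₀ M χ) : dd T σ K (res h χ) = dd T σ K₀ χ := by
  have hK₀ := nf_le h hK
  have hr := lin_mono h hχ
  have hi := ind_lin_artin hM hK h hr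
  have hp := ind_lin_artin hM hK h (one_lin K M)
  have h1 := congrArg (dd T σ K₀) (relation h hK hfix hχ)
  rw [dd_add T σ hK₀ hi (one_artin hK₀), dd_add T σ hK₀ (lin_artin hM hχ) hp, dd_one T σ hK₀,
    mul_one, dd_ind T σ h hK (lin_artin hM hr) hi, dd_ind T σ h hK (one_artin hK) hp,
    dd_one T σ hK, mul_one] at h1
  exact h1

theorem holds_res (T : BorelSystem) (h : K₀ ≤ K) (hK : IsNF K) (hM : IsNF M)
    (hfix : ∀ g : G K₀, (g : GalQ) ∉ G M → FixesOne K₀ K g)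
    {χ : G K₀ → ℂ} (hχ : IsLin K₀ M χ) : T.Holds K (res h χ) ↔ T.Holds K₀ χ := by
  rw [holds_iff T hK (lin_artin hM (lin_mono h hχ)), holds_iff T (nf_le h hK) (lin_artin hM hχ)]
  refine forall_congr' fun σ => ?_
  rw [dd_res T σ h hK hM hfix hχ]

end Pool.Agent.X310.Be
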