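import Mathlib

/-! Elements outside of a Frobenius kernel fix exactly one point. -/

set_option autoImplicit false

namespace Pool.Agent.X310.Be

variable {Γ : Type} [Group Γ]

theorem frob_fix (H N : Subgroup Γ) [Finite (Γ ⧸ H)]
    (hN : ∀ n ∈ N, ∀ g : Γ, g * n * g⁻¹ ∈ N)
    (hL : ∀ n ∈ N, n ∈ H → ∀ g : Γ, g * n * g⁻¹ ∈ H)
    (hsup : ∀ g : Γ, ∃ n ∈ N, ∃ h ∈ H, g = n * h)
    (hfpf : ∀ h ∈ H, ∀ n ∈ N, h * n * h⁻¹ * n⁻¹ ∈ H → h ∈ N ∨ n ∈ H)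
    (g : Γ) (hg : g ∉ N) : ∃! x : Γ ⧸ H, g • x = x := by
  classical
  obtain ⟨n, hn, h, hh, rfl⟩ := hsup g
  have hhN : h ∉ N := fun h1 => hg (N.mul_mem hn h1)
  -- representatives in `N`
  have hμ : ∀ x : Γ ⧸ H, ∃ a ∈ N, (QuotientGroup.mk a : Γ ⧸ H) = x := by
    intro x
    obtain ⟨a, ha, b, hb, hab⟩ := hsup x.out
    refine ⟨a, ha, ?_⟩
    rw [← QuotientGroup.out_eq' x, QuotientGroup.eq, hab]
    rwa [← mul_assoc, inv_mul_cancel, one_mul]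
  choose μ hμN hμx using hμ
  let F : Γ ⧸ H → Γ ⧸ H := fun x => QuotientGroup.mk (μ x * h * (μ x)⁻¹ * h⁻¹)
  have hD : ∀ x, μ x * h * (μ x)⁻¹ * h⁻¹ ∈ N := by
    intro x
    have h1 := N.mul_mem (hμN x) (hN _ (N.inv_mem (hμN x)) h)
    simpa [mul_assoc] using h1
  have hinj : Function.Injective F := by
    intro x y hxy
    have h1 := QuotientGroup.eq.1 hxy
    set a := μ x with ha
    set b := μ y with hb
    set u := a⁻¹ * b with hu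
    have huN : u ∈ N := N.mul_mem (N.inv_mem (hμN x)) (hμN y)
    have h2 : (a * h * a⁻¹ * h⁻¹)⁻¹ * (b * h * b⁻¹ * h⁻¹) =
        (h * a * h⁻¹) * (u * (h * u * h⁻¹)⁻¹) * (h * a * h⁻¹)⁻¹ := by
      rw [hu]
      group
    rw [h2] at h1
    have h3 : (h * a * h⁻¹) * (u * (h * u * h⁻¹)⁻¹) * (h * a * h⁻¹)⁻¹ ∈ N := by
      rw [← h2]
      exact N.mul_mem (N.inv_mem (hD x)) (hD y)
    have h4 := hL _ h3 h1 (h * a * h⁻¹)⁻¹
    have h5 : (h * a * h⁻¹)⁻¹ * ((h * a * h⁻¹) * (u * (h * u * h⁻¹)⁻¹) * (h * a * h⁻¹)⁻¹) *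
        ((h * a * h⁻¹)⁻¹)⁻¹ = u * (h * u * h⁻¹)⁻¹ := by group
    rw [h5] at h4
    have h6 : h * u * h⁻¹ * u⁻¹ ∈ H := by
      have h7 := H.inv_mem h4
      have h8 : (u * (h * u * h⁻¹)⁻¹)⁻¹ = h * u * h⁻¹ * u⁻¹ := by group
      rwa [h8] at h7
    rcases hfpf h hh u huN h6 with h7 | h7
    · exact absurd h7 hhN
    · rw [← hμx x, ← hμx y, QuotientGroup.eq]
      exact h7
  have hbij : Function.Bijective F := Finite.injective_iff_bijective.1 hinj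
  -- the fixed points
  have hfix : ∀ x : Γ ⧸ H, (n * h) • x = x ↔ F x = QuotientGroup.mk n := by
    intro x
    set a := μ x with ha
    have h1 : (n * h) • x = x ↔ a⁻¹ * (n * h * a) ∈ H := by
      conv_lhs => rw [← hμx x]
      have h2 : (n * h) • (QuotientGroup.mk a : Γ ⧸ H) = QuotientGroup.mk (n * h * a) := rfl
      rw [h2, eq_comm, QuotientGroup.eq]
    have h3 : F x = QuotientGroup.mk n ↔ n⁻¹ * (a * h * a⁻¹ * h⁻¹) ∈ H := by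
      rw [eq_comm]
      exact QuotientGroup.eq
    rw [h1, h3]
    set w := n⁻¹ * (a * h * a⁻¹ * h⁻¹) with hw
    have hwN : w ∈ N := N.mul_mem (N.inv_mem hn) (hD x)
    have h4 : a⁻¹ * (n * h * a) = h * (a⁻¹ * h⁻¹ * w⁻¹ * (a⁻¹ * h⁻¹)⁻¹) := by
      rw [hw]
      group
    rw [h4]
    constructor
    · intro h5
      have h6 : a⁻¹ * h⁻¹ * w⁻¹ * (a⁻¹ * h⁻¹)⁻¹ ∈ H := by
        have h7 := H.mul_mem (H.inv_mem hh) h5
        rwa [inv_mul_cancel_left] at h7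
      have h7 : a⁻¹ * h⁻¹ * w⁻¹ * (a⁻¹ * h⁻¹)⁻¹ ∈ N := hN _ (N.inv_mem hwN) _
      have h8 := hL _ h7 h6 (a⁻¹ * h⁻¹)⁻¹
      have h9 : (a⁻¹ * h⁻¹)⁻¹ * (a⁻¹ * h⁻¹ * w⁻¹ * (a⁻¹ * h⁻¹)⁻¹) * ((a⁻¹ * h⁻¹)⁻¹)⁻¹ = w⁻¹ := by
        group
      rw [h9] at h8
      simpa using H.inv_mem h8
    · intro h5
      exact H.mul_mem hh (hL _ (N.inv_mem hwN) (H.inv_mem h5) _)
  obtain ⟨x, hx⟩ := hbij.2 (QuotientGroup.mk n)
  refine ⟨x, (hfix x).2 hx, fun y hy => ?_⟩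
  exact hbij.1 (((hfix y).1 hy).trans hx.symm)

end Pool.Agent.X310.Be
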