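import Pool.Agent.X310.BeB
import Pool.Agent.X310.BeG

set_option autoImplicit false

open Module

namespace Pool.Agent.X310.Be

open Pool.Agent.X208.BR.Pk

variable {K K₀ M : Fld}

/-- Characters extend. -/
theorem lin_extend (h : K₀ ≤ K) (hM : IsNF M) (hab : IsAb K₀ M) {χ : G K → ℂ}
    (hχ : IsLin K M χ) : ∃ χ₀ : G K₀ → ℂ, IsLin K₀ M χ₀ ∧ res h χ₀ = χ := by
  obtain ⟨l, h1, h2⟩ := hχ
  have hle : G K ≤ G K₀ := G_anti h
  haveI hfi : (G M).FiniteIndex := ⟨Pool.Agent.X208.BR.index_ne_zero hM⟩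
  haveI hN0 : ((G M).subgroupOf (G K₀)).Normal := by
    refine ⟨fun n hn g => ?_⟩
    rw [Subgroup.mem_subgroupOf] at hn ⊢
    have h3 := (G M).mul_mem (hab g g.2 n n.2) hn
    simpa using h3
  haveI hN1 : ((G M).subgroupOf (G K)).Normal := by
    refine ⟨fun n hn g => ?_⟩
    rw [Subgroup.mem_subgroupOf] at hn ⊢
    have h3 := (G M).mul_mem (hab g (hle g.2) n (hle n.2)) hn
    simpa using h3
  let Q := G K₀ ⧸ (G M).subgroupOf (G K₀)
  letI : CommGroup Q :=
    { (inferInstance : Group Q) with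
      mul_comm := by
        intro a b
        induction a using QuotientGroup.induction_on with
        | H x =>
          induction b using QuotientGroup.induction_on with
          | H y =>
            rw [← QuotientGroup.mk_mul, ← QuotientGroup.mk_mul, QuotientGroup.eq,
              Subgroup.mem_subgroupOf]
            have h3 := hab (y : GalQ)⁻¹ ((G K₀).inv_mem y.2) (x : GalQ)⁻¹ ((G K₀).inv_mem x.2)
            have h4 : (((x * y)⁻¹ * (y * x) : G K₀) : GalQ) =
                (y : GalQ)⁻¹ * (x : GalQ)⁻¹ * ((y : GalQ)⁻¹)⁻¹ * ((x : GalQ)⁻¹)⁻¹ := by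
              push_cast
              group
            rw [h4]
            exact h3 }
  haveI : Finite Q := inferInstanceAs (Finite (G K₀ ⧸ (G M).subgroupOf (G K₀)))
  let R := G K ⧸ (G M).subgroupOf (G K)
  let φ : R →* Q := QuotientGroup.map _ _ (Subgroup.inclusion hle) (by
    intro x hx
    rw [Subgroup.mem_comap, Subgroup.mem_subgroupOf]
    exact hx)
  have hφ : Function.Injective φ := by
    rw [injective_iff_map_eq_one]
    intro a
    induction a using QuotientGroup.induction_on with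
    | H x =>
      intro h3
      have h4 : (QuotientGroup.mk (Subgroup.inclusion hle x) : Q) = 1 := h3
      rw [QuotientGroup.eq_one_iff, Subgroup.mem_subgroupOf] at h4
      exact (QuotientGroup.eq_one_iff x).2 (Subgroup.mem_subgroupOf.2 h4)
  let lb : R →* ℂˣ := QuotientGroup.lift _ l (fun x hx => h1 x hx)
  let e : R ≃* φ.range := MonoidHom.ofInjective hφ
  obtain ⟨ψ, hψ⟩ := MonoidHom.domRestrict_surjective (M := ℂ) φ.range
    (lb.comp e.symm.toMonoidHom)
  have hext : ∀ x : G K, ψ (QuotientGroup.mk (Subgroup.inclusion hle x) : Q) = l x := by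
    intro x
    have h3 := DFunLike.congr_fun hψ (e (QuotientGroup.mk x))
    have h4 : (lb.comp e.symm.toMonoidHom) (e (QuotientGroup.mk x)) = l x := by
      change lb (e.symm (e (QuotientGroup.mk x))) = l x
      rw [MulEquiv.symm_apply_apply]
      rfl
    rw [h4] at h3
    exact h3
  refine ⟨fun g => (ψ (QuotientGroup.mk g : Q) : ℂ),
    ⟨ψ.comp (QuotientGroup.mk' _), fun g hg => ?_, fun g => rfl⟩, ?_⟩
  · change ψ (QuotientGroup.mk g : Q) = 1
    have h3 : (QuotientGroup.mk g : Q) = 1 :=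
      (QuotientGroup.eq_one_iff g).2 (Subgroup.mem_subgroupOf.2 hg)
    rw [h3, map_one]
  · funext g
    rw [h2 g]
    change (ψ (QuotientGroup.mk (Subgroup.inclusion hle g) : Q) : ℂ) = l g
    rw [hext]

/-- **Transfer.** -/
theorem equivariant_iff (T : BorelSystem) (h : K₀ ≤ K) (hK : IsNF K) (hM : IsNF M)
    (hab : IsAb K₀ M) (hfix : ∀ g : G K₀, (g : GalQ) ∉ G M → FixesOne K₀ K g) :
    T.Equivariant K M ↔ T.Equivariant K₀ M := by
  constructor
  · intro h1 χ hχ
    exact (holds_res T h hK hM hfix hχ).1 (h1 _ (lin_mono h hχ))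
  · intro h1 χ hχ
    obtain ⟨χ₀, h2, rfl⟩ := lin_extend h hM hab hχ
    exact (holds_res T h hK hM hfix h2).2 (h1 _ h2)

theorem QQ_le (K : Fld) : QQ ≤ K := (bot_le : (⊥ : IntermediateField ℚ (AlgebraicClosure ℚ)) ≤ K)

theorem equivariant_QQ (T : BorelSystem) (hK : IsNF K) (hM : IsNF M)
    (hab : IsAb QQ M) (hfix : ∀ g : G QQ, (g : GalQ) ∉ G M → FixesOne QQ K g) :
    T.Equivariant K M :=
  (equivariant_iff T (QQ_le K) hK hM hab hfix).2 fun χ hχ => T.beilinson M χ hM hχ

/-- **Frobenius extensions.** -/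
theorem frobenius (h : K₀ ≤ K) (hK : IsNF K) (hab : IsAb K₀ M) (hF : IsFrob K₀ K M)
    (g : G K₀) (hg : (g : GalQ) ∉ G M) : FixesOne K₀ K g := by
  have hle : G K ≤ G K₀ := G_anti h
  haveI := relIndex_finite h hK
  refine frob_fix ((G K).subgroupOf (G K₀)) ((G M).subgroupOf (G K₀)) ?_ ?_ ?_ ?_ g
    (fun h1 => hg (Subgroup.mem_subgroupOf.1 h1))
  · intro n hn x
    rw [Subgroup.mem_subgroupOf] at hn ⊢
    have h3 := (G M).mul_mem (hab x x.2 n n.2) hn
    simpa using h3
  · intro n hn hn' x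
    rw [Subgroup.mem_subgroupOf] at hn hn' ⊢
    exact hF.gal n hn' hn x x.2
  · intro x
    obtain ⟨n, hn, k, hk, hx⟩ := hF.sup x x.2
    have hn0 : n ∈ G K₀ := by
      have h3 : n = (x : GalQ) * k⁻¹ := by rw [hx, mul_inv_cancel_right]
      rw [h3]
      exact (G K₀).mul_mem x.2 ((G K₀).inv_mem (hle hk))
    exact ⟨⟨n, hn0⟩, Subgroup.mem_subgroupOf.2 hn, ⟨k, hle hk⟩, Subgroup.mem_subgroupOf.2 hk,
      Subtype.ext hx⟩
  · intro k hk n hn h1
    rw [Subgroup.mem_subgroupOf] at hk hn h1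
    rcases hF.fpf k hk n n.2 hn h1 with h2 | h2
    · exact Or.inl (Subgroup.mem_subgroupOf.2 h2)
    · exact Or.inr (Subgroup.mem_subgroupOf.2 h2)

theorem elementary_artin {χ : G QQ → ℂ} (h : Elementary χ) : IsArtin QQ χ := by
  induction h with
  | zero => exact (artin_iff QQ _).2 Pool.Agent.X208.BR.IsArtinChar.zero
  | lin M χ hM hχ => exact lin_artin hM hχ
  | perm K h hK => exact ind_lin_artin hK hK h (one_lin K K)
  | add χ ψ _ _ h1 h2 => exact artin_add h1 h2

theorem QQ_nf : IsNF QQ :=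
  inferInstanceAs (FiniteDimensional ℚ (⊥ : IntermediateField ℚ (AlgebraicClosure ℚ)))

theorem elementary_dd (T : BorelSystem) (σ : ℂ ≃+* ℂ) {χ : G QQ → ℂ} (h : Elementary χ) :
    dd T σ QQ χ = 1 := by
  induction h with
  | zero => exact (T.toStarkSystem.conv.inv σ).d_zero QQ_nf
  | lin M χ hM hχ => exact (holds_iff T QQ_nf (lin_artin hM hχ)).1 (T.beilinson M χ hM hχ) σ
  | perm K h hK =>
    rw [dd_ind T σ h hK (one_artin hK) (ind_lin_artin hK hK h (one_lin K K)), dd_one T σ hK]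
  | add χ ψ h1 h2 h3 h4 =>
    rw [dd_add T σ QQ_nf (elementary_artin h1) (elementary_artin h2), h3, h4, one_mul]

/-- **Differences of elementary characters.** -/
theorem dd_of_elementary (T : BorelSystem) (σ : ℂ ≃+* ℂ) (hK : IsNF K) (hM : IsNF M)
    {χ : G K → ℂ} (hχ : IsLin K M χ) (n : ℕ) {a b : G QQ → ℂ} (ha : Elementary a)
    (hb : Elementary b) (h : n • ind (QQ_le K) χ + a = b) : dd T σ K χ ^ n = 1 := by
  have hi := ind_lin_artin hM hK (QQ_le K) hχ
  have h1 := congrArg (dd T σ QQ) h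
  rw [dd_add T σ QQ_nf (artin_nsmul hi n) (elementary_artin ha), elementary_dd T σ ha,
    elementary_dd T σ hb, mul_one, dd_nsmul T σ QQ_nf hi,
    dd_ind T σ (QQ_le K) hK (lin_artin hM hχ) hi] at h1
  exact h1

theorem holds_of_elementary (T : BorelSystem) (hK : IsNF K) (hM : IsNF M)
    {χ : G K → ℂ} (hχ : IsLin K M χ) {a b : G QQ → ℂ} (ha : Elementary a)
    (hb : Elementary b) (h : ind (QQ_le K) χ + a = b) : T.Holds K χ := by
  rw [holds_iff T hK (lin_artin hM hχ)]
  intro σ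
  have h1 := dd_of_elementary T σ hK hM hχ 1 ha hb (by rw [one_smul]; exact h)
  rwa [pow_one] at h1

/-- The statement on powers at each level. -/
theorem pow_of_elementary (T : BorelSystem) (hK : IsNF K) (hM : IsNF M)
    {χ : G K → ℂ} (hχ : IsLin K M χ) (n : ℕ) {a b : G QQ → ℂ} (ha : Elementary a)
    (hb : Elementary b) (h : n • ind (QQ_le K) χ + a = b) (L : Fld) (σ : ℂ ≃+* ℂ)
    (hL : Over L K) (hχL : IsCharOf L K χ) :
    (σ (T.A L K χ)) ^ n = (T.A L K fun g => σ (χ g) : ℂ) ^ n := by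
  have h1 := dd_of_elementary T σ hK hM hχ n ha hb h
  have h2 : dd T σ K χ = T.toStarkSystem.conv.dL σ L K χ :=
    T.toStarkSystem.conv.defect_eq σ ((over_iff L K).1 hL) hχL
  rw [h2] at h1
  have h3 := congrArg Units.val h1
  rw [Units.val_pow_eq_pow_val, Pool.Agent.X208.BR.StarkSystem.dL_coe, div_pow, Units.val_one,
    div_eq_one_iff_eq (pow_ne_zero _ (Units.ne_zero _))] at h3
  exact h3

end Pool.Agent.X310.Be
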