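import Pool.Agent.X208.BR.Pk

/-! Definitions: the equivariant Beilinson conjecture for number fields, characters of abelian
extensions. -/

set_option autoImplicit false

namespace Pool.Agent.X310.Be

open Pool.Agent.X208.BR.Pk

/-- The field of rational numbers. -/
noncomputable def QQ : Fld := (⊥ : IntermediateField ℚ (AlgebraicClosure ℚ))

/-- `χ` is a one-dimensional character of the absolute Galois group of `K` which is trivial on
that of `KM`: if `KM/K` is abelian, these are the characters of its Galois group. -/
def IsLin (K M : Fld) (χ : G K → ℂ) : Prop :=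
  ∃ l : G K →* ℂˣ, (∀ g : G K, (g : GalQ) ∈ G M → l g = 1) ∧ ∀ g, χ g = l g

/-- `KM/K` is an abelian extension: the commutators of elements of `G K` are in `G M`. -/
def IsAb (K M : Fld) : Prop := ∀ g ∈ G K, ∀ h ∈ G K, g * h * g⁻¹ * h⁻¹ ∈ G M

/-- For `K₀ ⊂ K`: the element `g` of the absolute Galois group of `K₀` fixes exactly one
`K₀`-embedding of `K` in the algebraic numbers; the embeddings are the cosets of `G K` in `G K₀`. -/
def FixesOne (K₀ K : Fld) (g : G K₀) : Prop :=
  ∃! x : G K₀ ⧸ (G K).subgroupOf (G K₀), g • x = x

/-- For `K₀ ⊂ K` and `M/K₀` abelian: `KM/K₀` is a Galois extension with a Frobenius group; the complement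
is the Galois group of `KM/K` and the kernel is the Galois group of `KM` over `K₀M`. -/
structure IsFrob (K₀ K M : Fld) : Prop where
  /-- `KM/K₀` is Galois -/
  gal : ∀ n ∈ G K, n ∈ G M → ∀ g ∈ G K₀, g * n * g⁻¹ ∈ G K
  /-- `K ∩ K₀M = K₀` -/
  sup : ∀ g ∈ G K₀, ∃ n ∈ G M, ∃ k ∈ G K, g = n * k
  /-- the complement acts on the kernel without fixed points -/
  fpf : ∀ k ∈ G K, ∀ n ∈ G K₀, n ∈ G M → k * n * k⁻¹ * n⁻¹ ∈ G K → k ∈ G M ∨ n ∈ G K

/-- **Regulator quotients for a fixed `k > 1`.** For every finite Galois extension `L/ℚ` a
`ℚ[Gal(L/ℚ)]`-isomorphism `φ` of `B_L^+` with `ℚ ⊗ K_{2k-1}(L)` is fixed; `A L K χ` is the quotient,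
for the extension `L/K` and the character `χ` of `Gal(L/K)`, of the determinant on the `χ`-part of
Borel's regulator composed with `φ` by the leading coefficient of the Artin `L`-function at `1 - k`. It
has the same formal properties as Stark's quotients (`StarkSystem`): it is additive in `χ`, invariant
under induction, and the quotients `A(χ)^σ / A(χ^σ)` do not depend on the choices. The conjecture for `χ`
is `A(χ)^σ = A(χ^σ)` for all automorphisms `σ` of `ℂ` (`Holds`). It is known for the trivial characters
of all number fields (Borel), and for the characters of abelian extensions of `ℚ` (Beilinson). -/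
structure BorelSystem extends StarkSystem where
  borel : ∀ K : Fld, IsNF K → toStarkSystem.Holds K fun _ => 1
  beilinson : ∀ (M : Fld) (χ : G QQ → ℂ), IsNF M → IsLin QQ M χ → toStarkSystem.Holds QQ χ

/-- The equivariant conjecture for the abelian extension `KM/K`: it holds for all characters of the
Galois group. -/
def BorelSystem.Equivariant (T : BorelSystem) (K M : Fld) : Prop :=
  ∀ χ : G K → ℂ, IsLin K M χ → T.Holds K χ

/-- Sums of characters of abelian extensions of `ℚ` and of permutation characters of number fields
(the characters of `ℚ` induced from the trivial characters of number fields `K`). -/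
inductive Elementary : (G QQ → ℂ) → Prop
  | zero : Elementary 0
  | lin (M : Fld) (χ : G QQ → ℂ) : IsNF M → IsLin QQ M χ → Elementary χ
  | perm (K : Fld) (h : QQ ≤ K) : IsNF K → Elementary (ind h fun _ => 1)
  | add (χ ψ : G QQ → ℂ) : Elementary χ → Elementary ψ → Elementary (χ + ψ)

end Pool.Agent.X310.Be
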