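import Pool.Agent.X310.Mom4

/-!
# The defect of the powers of a variety, and the conjectures A and B
-/

set_option autoImplicit false

open CategoryTheory AlgebraicGeometry Finset

universe u v

namespace Pool.Agent.X310.Mom

open Pool.Agent.H914 Pool.Agent.H447 Pool.Agent.W534 Pool.Agent.W537 Pool.Agent.TH720.LB VarClass
  Obj WeilCohomology Pool.Agent.X310.Gap

variable {k : Type u} [Field k] {𝒱 : VarClass k} {ops : CycleOps 𝒱}
  {W : WeilCohomology.{u, v} ops} {X V Y : 𝒱.Obj} {D : X.Cycles} {E : V.Cycles}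

/-- The conjecture B gives an algebraic lowering operator. -/
lemma exists_low_kop (hD : X.IsCyc 1 D) (hX : HardLefschetz W X D) (hB : LefschetzB W X D) :
    ∃ f, TH132.A.Low W X D f ∧ f ∈ KOp W X X (-1) := by
  have hLh : IsHom (W.gr X) 2 (LinearMap.mulLeft W.K (W.cl X D)) := isHom_mulLeft W hD
  obtain ⟨f, t, -, hfv⟩ := exists_sl2 (W.isInternal X) hLh W_hbd hX
  exact ⟨f, t, (rop_iff.1 (rop_lower hD hX hB hfv)).kop⟩

/-- An algebraic lowering operator gives the conjecture B. -/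
lemma lefschetzB_of_low (hD : X.IsCyc 1 D) (hX : HardLefschetz W X D)
    {f : Module.End W.K (W.H X)} (t : TH132.A.Low W X D f) (hf : f ∈ KOp W X X (-1)) :
    LefschetzB W X D := by
  have hOA := (rop_opAlg (W := W) (X := X)).kspan
  apply lefschetzB_of_inj hD hX
  intro c _
  refine ⟨f ^ c, ?_, ?_⟩
  · rw [← mem_KS_iff]
    exact hOA.cast (hOA.pow (mem_KS_iff.2 hf) c) (by ring)
  · intro a ha h0
    apply f_pow_inj t _ h0
    rw [wt, scal_apply _ _ ha]
    congr 1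
    rw [node]
    push_cast; ring

/-- The conjecture B for products. -/
lemma lefschetzB_prod (hD : X.IsCyc 1 D) (hE : V.IsCyc 1 E) (hX : HardLefschetz W X D)
    (hV : HardLefschetz W V E) (hBX : LefschetzB W X D) (hBV : LefschetzB W V E) :
    LefschetzB W (X.prod V) (sumDiv ops D E) := by
  obtain ⟨f, tf, hf⟩ := exists_low_kop hD hX hBX
  obtain ⟨g, tg, hg⟩ := exists_low_kop hE hV hBV
  refine lefschetzB_of_low (isCyc_sumDiv hD hE) (TH125.Gal.hardLefschetz_prod hD hE hX hV)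
    (TH132.A.low_prod hE tf tg) ?_
  refine Submodule.add_mem _ ?_ ?_
  · exact kop_cast (KOp.ext hf (KOp.id V)) (by ring)
  · exact kop_cast (KOp.ext (KOp.id X) hg) (by ring)

/-- the divisor on the powers -/
noncomputable def pwDiv (ops : CycleOps 𝒱) {X : 𝒱.Obj} (D : X.Cycles) : ∀ m, (pw X m).Cycles
  | 0 => D
  | m + 1 => sumDiv ops D (pwDiv ops D m)

lemma pw_dim (X : 𝒱.Obj) (m : ℕ) : (pw X m).dim = (m + 1) * X.dim := by
  induction m with
  | zero => rw [pw, zero_add, one_mul]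
  | succ m ih => rw [pw, dim_prod, ih]; ring

lemma pwDiv_cyc (hD : X.IsCyc 1 D) (m : ℕ) : (pw X m).IsCyc 1 (pwDiv ops D m) := by
  induction m with
  | zero => exact hD
  | succ m ih => exact isCyc_sumDiv hD ih

lemma pw_hard (hD : X.IsCyc 1 D) (hX : HardLefschetz W X D) (m : ℕ) :
    HardLefschetz W (pw X m) (pwDiv ops D m) := by
  induction m with
  | zero => exact hX
  | succ m ih => exact TH125.Gal.hardLefschetz_prod hD (pwDiv_cyc hD m) hX ih

lemma pw_B (hD : X.IsCyc 1 D) (hX : HardLefschetz W X D) (hB : LefschetzB W X D) (m : ℕ) :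
    LefschetzB W (pw X m) (pwDiv ops D m) := by
  induction m with
  | zero => exact hB
  | succ m ih => exact lefschetzB_prod hD (pwDiv_cyc hD m) hX (pw_hard hD hX m) hB ih

/-- the defect of the powers -/
lemma defect_pw (hne : ∀ X : 𝒱.Obj, (1 : W.H X) ≠ 0) (hD : X.IsCyc 1 D)
    (hX : HardLefschetz W X D) (m : ℕ) :
    ((X.dim : ℤ) + 1) ^ m * defect W (X.prod X) ≤ defect W (pw X (m + 1)) := by
  induction m with
  | zero => rw [pow_zero, one_mul]; exact le_rfl
  | succ m ih =>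
    have h1 := defect_prod' hne hD (pwDiv_cyc (ops := ops) hD (m + 1)) hX (pw_hard hD hX (m + 1))
    have h2 := defect_nonneg hD hX
    have h3 : ((pw X (m + 1)).dim + 1 : ℤ) * defect W X ≥ 0 := by positivity
    have h4 : (0 : ℤ) ≤ (X.dim : ℤ) + 1 := by positivity
    change _ ≤ defect W (X.prod (pw X (m + 1)))
    calc ((X.dim : ℤ) + 1) ^ (m + 1) * defect W (X.prod X) =
          ((X.dim : ℤ) + 1) * (((X.dim : ℤ) + 1) ^ m * defect W (X.prod X)) := by ring
      _ ≤ ((X.dim : ℤ) + 1) * defect W (pw X (m + 1)) := mul_le_mul_of_nonneg_left ih h4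
      _ ≤ _ := by linarith

/-- the powers of a curve times `Y` -/
noncomputable def cmul (C : 𝒱.Obj) (Y : 𝒱.Obj) : ℕ → 𝒱.Obj
  | 0 => Y
  | m + 1 => C.prod (cmul C Y m)

noncomputable def cmulDiv (ops : CycleOps 𝒱) {C Y : 𝒱.Obj} (G : C.Cycles) (F : Y.Cycles) :
    ∀ m, (cmul C Y m).Cycles
  | 0 => F
  | m + 1 => sumDiv ops G (cmulDiv ops G F m)

lemma cmul_dim {C : 𝒱.Obj} (hC : C.dim = 1) (Y : 𝒱.Obj) (m : ℕ) :
    (cmul C Y m).dim = Y.dim + m := by
  induction m with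
  | zero => rfl
  | succ m ih => rw [cmul, dim_prod, ih, hC]; ring

lemma cmulDiv_cyc {C : 𝒱.Obj} {G : C.Cycles} {F : Y.Cycles} (hG : C.IsCyc 1 G)
    (hF : Y.IsCyc 1 F) (m : ℕ) : (cmul C Y m).IsCyc 1 (cmulDiv ops G F m) := by
  induction m with
  | zero => exact hF
  | succ m ih => exact isCyc_sumDiv hG ih

lemma cmul_hard {C : 𝒱.Obj} {G : C.Cycles} {F : Y.Cycles} (hG : C.IsCyc 1 G)
    (hF : Y.IsCyc 1 F) (hC : HardLefschetz W C G) (hY : HardLefschetz W Y F) (m : ℕ) :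
    HardLefschetz W (cmul C Y m) (cmulDiv ops G F m) := by
  induction m with
  | zero => exact hY
  | succ m ih => exact TH125.Gal.hardLefschetz_prod hG (cmulDiv_cyc hG hF m) hC ih

lemma defect_cmul (hne : ∀ X : 𝒱.Obj, (1 : W.H X) ≠ 0) {C : 𝒱.Obj} {G : C.Cycles}
    {F : Y.Cycles} (hG : C.IsCyc 1 G) (hF : Y.IsCyc 1 F) (hC : HardLefschetz W C G)
    (hY : HardLefschetz W Y F) (hC1 : C.dim = 1) (m : ℕ) :
    2 ^ m * defect W Y ≤ defect W (cmul C Y m) := by
  induction m with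
  | zero => rw [pow_zero, one_mul]; exact le_rfl
  | succ m ih =>
    have h1 := defect_prod' hne hG (cmulDiv_cyc (ops := ops) hG hF m) hC
      (cmul_hard hG hF hC hY m)
    have h2 := defect_nonneg hG hC
    have h3 : ((cmul C Y m).dim + 1 : ℤ) * defect W C ≥ 0 := by positivity
    change _ ≤ defect W (C.prod (cmul C Y m))
    rw [hC1] at h1
    push_cast at h1
    have : (2 : ℤ) ^ (m + 1) * defect W Y = 2 * (2 ^ m * defect W Y) := by ring
    linarith

/-- **The defect of the conjecture A for the powers of a variety.** -/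
theorem power_tfae (hne : ∀ X : 𝒱.Obj, (1 : W.H X) ≠ 0) (hD : X.IsCyc 1 D)
    (hX : HardLefschetz W X D) :
    List.TFAE [
      LefschetzB W X D,
      ∀ m, ∀ E : (pw X m).Cycles, (pw X m).IsCyc 1 E → HardLefschetz W (pw X m) E →
        LefschetzA W (pw X m) E,
      ∃ m, ∃ E : (pw X (m + 1)).Cycles, (pw X (m + 1)).IsCyc 1 E ∧
        HardLefschetz W (pw X (m + 1)) E ∧ LefschetzA W (pw X (m + 1)) E,
      ∃ m, defect W (pw X (m + 1)) < ((X.dim : ℤ) + 1) ^ m] := by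
  tfae_have 1 → 2 := by
    intro hB m E hE hHL
    exact lefschetzA_of_B hE hHL
      (lefschetzB_indep (pwDiv_cyc hD m) (pw_hard hD hX m) hE hHL (pw_B hD hX hB m))
  tfae_have 2 → 3 := fun h => ⟨0, _, pwDiv_cyc (ops := ops) hD 1, pw_hard hD hX 1,
    h 1 _ (pwDiv_cyc hD 1) (pw_hard hD hX 1)⟩
  tfae_have 3 → 4 := by
    rintro ⟨m, E, hE, hHL, hA⟩
    refine ⟨m, ?_⟩
    rw [defect_of_A hE hHL hA]
    positivity
  tfae_have 4 → 1 := by
    rintro ⟨m, hm⟩
    rw [lefschetzB_iff_defect hD hX]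
    have h1 := defect_pw hne hD hX m
    have h2 := defect_nonneg (isCyc_sumDiv hD hD) (TH125.Gal.hardLefschetz_prod hD hD hX hX)
    have h3 : (0 : ℤ) < ((X.dim : ℤ) + 1) ^ m := by positivity
    by_contra hne0
    have h4 : 1 ≤ defect W (X.prod X) := by omega
    have h5 : ((X.dim : ℤ) + 1) ^ m * 1 ≤ ((X.dim : ℤ) + 1) ^ m * defect W (X.prod X) :=
      mul_le_mul_of_nonneg_left h4 h3.le
    omega
  tfae_finish

/-- A bound for the defect in one dimension gives the conjecture B in the lower dimensions. -/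
theorem lefschetzB_of_bound (hne : ∀ X : 𝒱.Obj, (1 : W.H X) ≠ 0) {C : 𝒱.Obj} {G : C.Cycles}
    (hC1 : C.dim = 1) (hG : C.IsCyc 1 G) (hC : HardLefschetz W C G) {d N : ℕ} (hN : 2 * d ≤ N)
    (h : ∀ V : 𝒱.Obj, V.dim = N → defect W V < 2 ^ (N - 2 * d)) (hD : X.IsCyc 1 D)
    (hX : HardLefschetz W X D) (hd : X.dim ≤ d) : LefschetzB W X D := by
  rw [lefschetzB_iff_defect hD hX]
  have hD2 := isCyc_sumDiv (ops := ops) hD hD
  have hX2 := TH125.Gal.hardLefschetz_prod hD hD hX hX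
  have h1 := defect_cmul hne hG hD2 hC hX2 hC1 (N - 2 * X.dim)
  have h2 := defect_nonneg hD2 hX2
  have h3 := h (cmul C (X.prod X) (N - 2 * X.dim)) (by
    rw [cmul_dim hC1, dim_prod]; omega)
  have h4 : (2 : ℤ) ^ (N - 2 * d) ≤ 2 ^ (N - 2 * X.dim) :=
    pow_le_pow_right₀ (by norm_num) (by omega)
  by_contra hne0
  have h5 : 1 ≤ defect W (X.prod X) := by omega
  have h6 : (2 : ℤ) ^ (N - 2 * X.dim) * 1 ≤ 2 ^ (N - 2 * X.dim) * defect W (X.prod X) :=
    mul_le_mul_of_nonneg_left h5 (by positivity)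
  omega

/-- **The conjecture A for all varieties and the growth of the defect.** -/
theorem growth_tfae (hne : ∀ X : 𝒱.Obj, (1 : W.H X) ≠ 0)
    (hex : ∀ V : 𝒱.Obj, ∃ E : V.Cycles, V.IsCyc 1 E ∧ HardLefschetz W V E) {C : 𝒱.Obj}
    (hC1 : C.dim = 1) :
    List.TFAE [
      ∀ (V : 𝒱.Obj) (E : V.Cycles), V.IsCyc 1 E → HardLefschetz W V E → LefschetzA W V E,
      ∀ V : 𝒱.Obj, defect W V = 0,
      ∀ d, ∃ N, 2 * d ≤ N ∧ ∀ V : 𝒱.Obj, V.dim = N → defect W V < 2 ^ (N - 2 * d),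
      ∀ (V : 𝒱.Obj) (E : V.Cycles), V.IsCyc 1 E → HardLefschetz W V E → LefschetzB W V E] := by
  tfae_have 1 → 2 := by
    intro h V
    obtain ⟨E, hE, hV⟩ := hex V
    exact defect_of_A hE hV (h V E hE hV)
  tfae_have 2 → 3 := fun h d => ⟨2 * d, le_rfl, fun V _ => by rw [h V]; positivity⟩
  tfae_have 3 → 4 := by
    intro h V E hE hV
    obtain ⟨N, hN, hb⟩ := h V.dim
    obtain ⟨G, hG, hC⟩ := hex C
    exact lefschetzB_of_bound hne hC1 hG hC hN hb hE hV le_rfl
  tfae_have 4 → 1 := fun h V E hE hV => lefschetzA_of_B hE hV (h V E hE hV)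
  tfae_finish

end Pool.Agent.X310.Mom
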