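import Pool.Agent.X310.BmcDefs

namespace Pool.Agent.X310.Bmc

variable {Q : Type} [AddCommGroup Q]

theorem Complex.pair_zero (C : Complex Q) (β : C.Br) : C.pair 0 β = 0 := by
  have h := C.pair_add 0 0 β
  rw [add_zero] at h
  exact left_eq_add.1 h

theorem Complex.pair_neg (C : Complex Q) (z : C.B) (β : C.Br) : C.pair (-z) β = - C.pair z β := by
  have h := C.pair_add z (-z) β
  rw [add_neg_cancel, C.pair_zero] at h
  exact (neg_eq_of_add_eq_zero_right h.symm).symm

/-- exactness over an extension of degree `d` gives: `d` kills the homology. -/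
theorem killedBy_degree {C C' : Complex Q} (E : Extension C C') {d : ℤ} (hd : E.HasDegree d)
    (h : C'.Exact) : C.KilledBy d := by
  intro z hz
  obtain ⟨a, ha⟩ := h (E.resB z) (fun β => by rw [E.adj_res, hz])
  refine ⟨E.normA a, ?_⟩
  rw [E.comm_norm, ha, hd]

theorem killedBy_gcd (C : Complex Q) {m n : ℤ} (hm : C.KilledBy m) (hn : C.KilledBy n) :
    C.KilledBy (gcd m n) := by
  intro z hz
  obtain ⟨a, ha⟩ := hm z hz
  obtain ⟨b, hb⟩ := hn z hz
  refine ⟨Int.gcdA m n • a + Int.gcdB m n • b, ?_⟩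
  rw [map_add, map_zsmul, map_zsmul, ha, hb, smul_smul, smul_smul, ← add_smul]
  congr 1
  have := Int.gcd_eq_gcd_ab m n
  rw [Int.coe_gcd] at this
  rw [this]
  ring

theorem exact_of_killed_one (C : Complex Q) (h : C.KilledBy 1) : C.Exact := by
  intro z hz
  obtain ⟨a, ha⟩ := h z hz
  exact ⟨a, by rw [ha, one_smul]⟩

theorem killedBy_finset {J : Type} (s : Finset J) (C : Complex Q) (d : J → ℤ)
    (h : ∀ j ∈ s, C.KilledBy (d j)) (c : J → ℤ) (hc : ∑ j ∈ s, c j * d j = 1) : C.Exact := by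
  classical
  apply exact_of_killed_one
  intro z hz
  choose! f hf using fun j (hj : j ∈ s) => h j hj z hz
  refine ⟨∑ j ∈ s, c j • f j, ?_⟩
  rw [map_sum, ← hc, Finset.sum_smul]
  refine Finset.sum_congr rfl fun j hj => ?_
  rw [map_zsmul, hf j hj, smul_smul]

/-- the partition relation. -/
theorem killedBy_partition {C' : Complex Q} {G : Type} [Group G] [Fintype G] [DecidableEq G]
    (act : G → C'.B →+ C'.B) (h1 : ∀ z, act 1 z = z) {J : Type} [Fintype J]
    (P : J → Finset G) (hP1 : ∀ j, (1 : G) ∈ P j)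
    (hP : ∀ g : G, g ≠ 1 → ∃! j, g ∈ P j)
    (C : J → Complex Q) (E : ∀ j, Extension (C j) C') (hE : ∀ j, (E j).IsGaloisWith act (P j))
    (C₀ : Complex Q) (E₀ : Extension C₀ C') (hE₀ : E₀.IsGaloisWith act Finset.univ)
    (hex : ∀ j, (C j).Exact) (hex₀ : C₀.Exact) : C'.KilledBy ((Fintype.card J : ℤ) - 1) := by
  classical
  intro z hz
  have key : ∀ (D : Complex Q) (F : Extension D C'), D.Exact →
      ∃ a, C'.Δ a = F.resB (F.normB z) := by
    intro D F hD
    obtain ⟨a, ha⟩ := hD (F.normB z) (fun β => by rw [F.adj_norm, hz])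
    exact ⟨F.resA a, by rw [F.comm_res, ha]⟩
  choose a ha using fun j => key (C j) (E j) (hex j)
  obtain ⟨a₀, ha₀⟩ := key C₀ E₀ hex₀
  refine ⟨∑ j, a j - a₀, ?_⟩
  rw [map_sub, map_sum, Finset.sum_congr rfl fun j _ => ha j, ha₀, hE₀ z,
    Finset.sum_congr rfl fun j _ => hE j z]
  -- count
  have h2 : ∑ j, ∑ g ∈ P j, act g z = ∑ g : G, ∑ j, if g ∈ P j then act g z else 0 := by
    rw [Finset.sum_comm]
    refine Finset.sum_congr rfl fun j _ => ?_
    rw [Finset.sum_ite_mem, Finset.univ_inter]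
  have h3 : ∀ g : G, g ≠ 1 → (∑ j, if g ∈ P j then act g z else 0) = act g z := by
    intro g hg
    obtain ⟨j₀, hj₀, huniq⟩ := hP g hg
    rw [Finset.sum_eq_single j₀]
    · rw [if_pos hj₀]
    · intro j _ hj
      rw [if_neg]
      intro hgj
      exact hj (huniq j hgj)
    · intro h; exact absurd (Finset.mem_univ _) h
  rw [h2, ← Finset.add_sum_erase _ _ (Finset.mem_univ (1 : G)),
    ← Finset.add_sum_erase Finset.univ (fun g => act g z) (Finset.mem_univ (1 : G)),
    Finset.sum_congr rfl fun g hg => h3 g (Finset.ne_of_mem_erase hg)]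
  have h4 : (∑ j, if (1 : G) ∈ P j then act 1 z else 0) = (Fintype.card J : ℤ) • z := by
    rw [Finset.sum_congr rfl fun j _ => by rw [if_pos (hP1 j), h1], Finset.sum_const,
      Finset.card_univ, natCast_zsmul]
  rw [h4, h1, sub_smul, one_smul]
  abel

end Pool.Agent.X310.Bmc
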