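import Mathlib

/-! Definitions: the Brauer-Manin complex for zero-cycles over a number field and its
restriction/norm maps. -/

namespace Pool.Agent.X310.Bmc

/-- The complex for `X` over a number field: `A` is the completed group of global zero-cycles of
degree zero, `B` the completed adelic group, `Br` the Brauer group, `Q` the target of the pairing
(`ℚ/ℤ`, the same for all fields). -/
structure Complex (Q : Type) [AddCommGroup Q] where
  /-- global zero-cycles -/
  A : Type
  /-- adelic zero-cycles -/
  B : Type
  /-- the Brauer group -/
  Br : Type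
  [gA : AddCommGroup A]
  [gB : AddCommGroup B]
  [gBr : AddCommGroup Br]
  /-- the diagonal map -/
  Δ : A →+ B
  /-- the Brauer-Manin pairing -/
  pair : B → Br → Q
  pair_add : ∀ z z' β, pair (z + z') β = pair z β + pair z' β
  recip : ∀ a β, pair (Δ a) β = 0

attribute [instance] Complex.gA Complex.gB Complex.gBr

variable {Q : Type} [AddCommGroup Q]

/-- Exactness of the complex. -/
def Complex.Exact (C : Complex Q) : Prop := ∀ z : C.B, (∀ β, C.pair z β = 0) → ∃ a, C.Δ a = z

/-- `n` kills the homology of the complex. -/
def Complex.KilledBy (C : Complex Q) (n : ℤ) : Prop :=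
  ∀ z : C.B, (∀ β, C.pair z β = 0) → ∃ a, C.Δ a = n • z

/-- A field extension `F ⊆ L`: `C` is the complex over `F`, `C'` the complex over `L`; restriction,
norm and corestriction maps. -/
structure Extension (C C' : Complex Q) where
  /-- restriction on global cycles -/
  resA : C.A →+ C'.A
  /-- norm on global cycles -/
  normA : C'.A →+ C.A
  /-- restriction on adelic cycles -/
  resB : C.B →+ C'.B
  /-- norm on adelic cycles -/
  normB : C'.B →+ C.B
  /-- restriction on Brauer groups -/
  resBr : C.Br → C'.Br
  /-- corestriction on Brauer groups -/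
  corBr : C'.Br → C.Br
  comm_res : ∀ a, C'.Δ (resA a) = resB (C.Δ a)
  comm_norm : ∀ a, C.Δ (normA a) = normB (C'.Δ a)
  adj_res : ∀ z β, C'.pair (resB z) β = C.pair z (corBr β)
  adj_norm : ∀ z β, C.pair (normB z) β = C'.pair z (resBr β)

/-- The extension has degree `d`. -/
def Extension.HasDegree {C C' : Complex Q} (E : Extension C C') (d : ℤ) : Prop :=
  ∀ z, E.normB (E.resB z) = d • z

/-- `E` is Galois with group `P`, a subgroup of a group acting on the adelic cycles over `L`
by `act`: restriction after norm is the sum over `P`. -/
def Extension.IsGaloisWith {C C' : Complex Q} (E : Extension C C') {G : Type} [Group G]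
    [Fintype G] (act : G → C'.B →+ C'.B) (P : Finset G) : Prop :=
  ∀ z, E.resB (E.normB z) = ∑ g ∈ P, act g z

end Pool.Agent.X310.Bmc
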