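import Pool.Agent.TH720.LB.Stm
import Pool.Agent.H914R2.KLef

/-!
# The Lefschetz standard conjecture: one step up and one step down with a projective line
-/

set_option autoImplicit false

open CategoryTheory AlgebraicGeometry Finset

universe u v

namespace Pool.Agent.X310.Gap

open Pool.Agent.H914 Pool.Agent.W534 Pool.Agent.W537 Pool.Agent.TH720.LB VarClass Obj
  WeilCohomology

variable {k : Type u} [Field k] {𝒱 : VarClass k} {ops : CycleOps 𝒱}
  {W : WeilCohomology.{u, v} ops} {X P : 𝒱.Obj} {D : X.Cycles} {h : P.Cycles}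

/-- some `K`-combination of algebraic correspondences of degree `-c` inverts `ξ ^ c` on
`H^(dim X - c)` -/
def KInv (W : WeilCohomology.{u, v} ops) (X : 𝒱.Obj) (D : X.Cycles) (c : ℕ) : Prop :=
  ∃ T ∈ KOp W X X (-(c : ℤ)), ∀ a ∈ W.gr X (X.dim - c), T (W.cl X D ^ c * a) = a

lemma kop_cast {X Y : 𝒱.Obj} {d e : ℤ} {φ : W.H X →ₗ[W.K] W.H Y} (h : φ ∈ KOp W X Y d)
    (hde : d = e) : φ ∈ KOp W X Y e := hde ▸ h

lemma kop_mem {X Y : 𝒱.Obj} {d : ℤ} {φ : W.H X →ₗ[W.K] W.H Y} (hφ : φ ∈ KOp W X Y d) {i j : ℕ}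
    {a : W.H X} (ha : a ∈ W.gr X i) (hij : (j : ℤ) = i + 2 * d) : φ a ∈ W.gr Y j := by
  have h := KOp.isHom hφ i a (by rw [grZ_natCast]; exact ha)
  rwa [← hij, grZ_natCast] at h

lemma kinv_zero : KInv W X D 0 := by
  refine ⟨LinearMap.id, kop_cast (KOp.id X) (by simp), fun a _ => ?_⟩
  rw [pow_zero, one_mul, LinearMap.id_apply]

/-- injective combinations give inverses -/
lemma kinv_of_inj (hD : X.IsCyc 1 D) (hHL : HardLefschetz W X D) {c : ℕ} (hc : c ≤ X.dim)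
    (hI : SpanInjective W X c) : KInv W X D c := by
  obtain ⟨γ, hγ, hinj⟩ := hI
  have hγ' : W.corr γ ∈ KOp W X X (-(c : ℤ)) := mem_KOp_iff.2 ⟨γ, hγ, rfl⟩
  obtain ⟨θ, hθ, h1⟩ := (rop_opAlg (W := W) (X := X)).exists_theta_of_inj
    (Submodule.subset_span (rop_mulLeft hD)) hHL hc (mem_KS_iff.2 hγ') hinj
  refine ⟨θ, mem_KS_iff.1 hθ, fun a ha => ?_⟩
  have := h1 a ha
  rwa [LinearMap.pow_mulLeft, LinearMap.mulLeft_apply] at this

lemma inj_of_kinv (hHL : HardLefschetz W X D) {c : ℕ} (hc : c ≤ X.dim)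
    (hI : KInv W X D c) : SpanInjective W X c := by
  obtain ⟨T, hT, h1⟩ := hI
  obtain ⟨γ, hγ, rfl⟩ := mem_KOp_iff.1 hT
  refine ⟨γ, hγ, fun x hx h0 => ?_⟩
  obtain ⟨a, ha, rfl⟩ := hl_surj hHL hc hx
  rw [h1 a ha] at h0
  rw [h0, mul_zero]

section line

variable (hP : IsProjLike W P h) (hP1 : P.dim = 1)
include hP hP1

lemma inc_two : inc W X h 2 = 0 := inc_zero hP (by omega)

lemma pow_inc_one (hD : X.IsCyc 1 D) (c : ℕ) (x : W.H X) :
    W.cl _ (sumDiv ops D h) ^ c * inc W X h 1 x = inc W X h 1 (W.cl X D ^ c * x) := by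
  induction c with
  | zero => rw [pow_zero, pow_zero, one_mul, one_mul]
  | succ c ih =>
    rw [pow_succ', mul_assoc, ih, mul_inc hD, inc_two hP hP1, LinearMap.zero_apply, add_zero,
      ← mul_assoc, ← pow_succ']

lemma pow_inc_zero (hD : X.IsCyc 1 D) (c : ℕ) (x : W.H X) :
    W.cl _ (sumDiv ops D h) ^ (c + 1) * inc W X h 0 x =
      inc W X h 0 (W.cl X D ^ (c + 1) * x) + ((c : W.K) + 1) • inc W X h 1 (W.cl X D ^ c * x) := by
  induction c with
  | zero =>
    rw [zero_add, pow_one, pow_one, mul_inc hD, pow_zero, one_mul, Nat.cast_zero,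
      zero_add (1 : W.K), one_smul, zero_add]
  | succ c ih =>
    rw [pow_succ', mul_assoc, ih, mul_add, mul_smul_comm, mul_inc hD, mul_inc hD,
      inc_two hP hP1, LinearMap.zero_apply, add_zero, ← mul_assoc, ← pow_succ', ← mul_assoc,
      ← pow_succ']
    push_cast
    module

omit hP1 in
lemma kop_inc (a : ℕ) : inc W X h a ∈ KOp W X (X.prod P) a := (qop_inc hP a).kop

lemma kop_coe {a : ℕ} (ha : a ≤ 1) : coe W X h a ∈ KOp W (X.prod P) X (-a) :=
  (qop_coe hP (by omega)).kop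

/-- **one step up** -/
theorem up (hD : X.IsCyc 1 D) {c : ℕ} (hc : 1 ≤ c) (hcX : c + 1 ≤ X.dim)
    (hY : KInv W (X.prod P) (sumDiv ops D h) c) : KInv W X D (c + 1) := by
  obtain ⟨T, hT, h1⟩ := hY
  have hdim : (X.prod P).dim = X.dim + 1 := by rw [dim_prod X P, hP1]
  have hc0 : (c : W.K) ≠ 0 := by
    have : c ≠ 0 := by omega
    exact_mod_cast this
  refine ⟨(-(c : W.K)⁻¹) • (coe W X h 1 ∘ₗ T ∘ₗ inc W X h 0), ?_, ?_⟩
  · refine Submodule.smul_mem _ _ ?_
    exact kop_cast (KOp.comp (kop_coe hP hP1 le_rfl) (KOp.comp hT (kop_inc hP 0)))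
      (by push_cast; ring)
  · intro y hy
    obtain ⟨e, rfl⟩ : ∃ e, c = e + 1 := ⟨c - 1, by omega⟩
    have hξ : W.cl X D ∈ W.gr X 2 := cl_div hD
    have hu : inc W X h 0 (W.cl X D * y) - ((e + 1 : ℕ) : W.K) • inc W X h 1 y ∈
        W.gr (X.prod P) ((X.prod P).dim - (e + 1)) := by
      refine Submodule.sub_mem _ (kop_mem (kop_inc hP 0) (W.mul_mem hξ hy) ?_)
        (Submodule.smul_mem _ _ (kop_mem (kop_inc hP 1) hy ?_))
      · push_cast; omega
      · push_cast; omega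
    have h2 := h1 _ hu
    have e1 : W.cl X D ^ e * (W.cl X D * y) = W.cl X D ^ (e + 1) * y := by
      rw [← mul_assoc, ← pow_succ]
    have e2 : W.cl X D ^ (e + 1) * (W.cl X D * y) = W.cl X D ^ (e + 1 + 1) * y := by
      rw [← mul_assoc, ← pow_succ]
    rw [mul_sub, mul_smul_comm, pow_inc_zero hP hP1 hD, pow_inc_one hP hP1 hD, e1, e2,
      Nat.cast_succ, add_sub_cancel_right] at h2
    have hc1 : ((e : W.K) + 1) ≠ 0 := by
      rw [← Nat.cast_succ]; exact hc0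
    rw [LinearMap.smul_apply, LinearMap.comp_apply, LinearMap.comp_apply, h2, map_sub, map_smul,
      coe_inc hP (by omega), coe_inc hP (by omega), if_neg (by omega), if_pos rfl, zero_sub,
      smul_neg, neg_smul, neg_neg, smul_smul, Nat.cast_succ, inv_mul_cancel₀ hc1, one_smul]

/-- **one step down**, together with the step up -/
theorem down (hD : X.IsCyc 1 D) (hHL : HardLefschetz W X D) {c : ℕ} (hcX : c ≤ X.dim)
    (hY : KInv W (X.prod P) (sumDiv ops D h) (c + 1)) (h2 : c + 2 ≤ X.dim → KInv W X D (c + 2)) :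
    KInv W X D c := by
  obtain ⟨T, hT, h1⟩ := hY
  have hdim : (X.prod P).dim = X.dim + 1 := by rw [dim_prod X P, hP1]
  have hξ : W.cl X D ∈ W.gr X 2 := cl_div hD
  set S : W.H X →ₗ[W.K] W.H X := ((c : W.K) + 1) • (coe W X h 0 ∘ₗ T ∘ₗ inc W X h 1) with hS
  have hSk : S ∈ KOp W X X (-(c : ℤ)) := by
    refine Submodule.smul_mem _ _ ?_
    exact kop_cast (KOp.comp (kop_coe hP hP1 (Nat.zero_le 1)) (KOp.comp hT (kop_inc hP 1)))
      (by push_cast; ring)
  have hSp : ∀ p ∈ W.gr X (X.dim - c), W.cl X D ^ (c + 1) * p = 0 → S (W.cl X D ^ c * p) = p := by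
    intro p hp hp0
    have hu : inc W X h 0 p ∈ W.gr (X.prod P) ((X.prod P).dim - (c + 1)) :=
      kop_mem (kop_inc hP 0) hp (by push_cast; omega)
    have h3 := h1 _ hu
    rw [pow_inc_zero hP hP1 hD, hp0, map_zero, zero_add, map_smul] at h3
    rw [hS, LinearMap.smul_apply, LinearMap.comp_apply, LinearMap.comp_apply, ← map_smul, h3,
      coe_inc hP (by omega), if_pos rfl]
  have hT2 : ∃ T2 ∈ KOp W X X (-((c : ℤ) + 2)), ∀ j, j + 2 = X.dim - c → ∀ b ∈ W.gr X j,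
      T2 (W.cl X D ^ (c + 2) * b) = b := by
    by_cases hc2 : c + 2 ≤ X.dim
    · obtain ⟨T2, hT2, h4⟩ := h2 hc2
      refine ⟨T2, kop_cast hT2 (by push_cast; ring), fun j hj b hb => h4 b ?_⟩
      rwa [show X.dim - (c + 2) = j by omega]
    · exact ⟨0, Submodule.zero_mem _, fun j hj => absurd hj (by omega)⟩
  obtain ⟨T2, hT2, h4⟩ := hT2
  have hM : ∀ j : ℕ, LinearMap.mulLeft W.K (W.cl X D ^ j) ∈ KOp W X X j := fun j =>
    (qop_mul_pow hD j).kop
  have hM1 : LinearMap.mulLeft W.K (W.cl X D) ∈ KOp W X X 1 := (qop_mul hD).kop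
  refine ⟨S - S ∘ₗ LinearMap.mulLeft W.K (W.cl X D ^ (c + 1)) ∘ₗ T2 ∘ₗ
      LinearMap.mulLeft W.K (W.cl X D) + LinearMap.mulLeft W.K (W.cl X D) ∘ₗ T2 ∘ₗ
      LinearMap.mulLeft W.K (W.cl X D), ?_, ?_⟩
  · refine Submodule.add_mem _ (Submodule.sub_mem _ hSk ?_) ?_
    · exact kop_cast (KOp.comp hSk (KOp.comp (hM (c + 1)) (KOp.comp hT2 hM1)))
        (by push_cast; ring)
    · exact kop_cast (KOp.comp hM1 (KOp.comp hT2 hM1)) (by ring)
  · intro a ha
    obtain ⟨p, q, rfl, hp, hp0, hq⟩ := prim_decomp hD hHL hcX ha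
    have e0 : W.cl X D * (W.cl X D ^ c * p) = 0 := by
      rw [← mul_assoc, ← pow_succ', hp0]
    simp only [LinearMap.add_apply, LinearMap.sub_apply, LinearMap.comp_apply,
      LinearMap.mulLeft_apply, mul_add, map_add, e0, map_zero, hSp p hp hp0]
    rcases hq with rfl | ⟨j, hj, b, hb, rfl⟩
    · simp
    · have e1 : W.cl X D * (W.cl X D ^ c * (W.cl X D * b)) = W.cl X D ^ (c + 2) * b := by
        rw [← mul_assoc (W.cl X D ^ c), ← pow_succ, ← mul_assoc, ← pow_succ']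
      have e2 : W.cl X D ^ c * (W.cl X D * b) = W.cl X D ^ (c + 1) * b := by
        rw [← mul_assoc, ← pow_succ]
      rw [e1, h4 j hj b hb, e2]
      abel

end line

end Pool.Agent.X310.Gap
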