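import Pool.Agent.H447R3.KuDefs

/-!
# Cycles with prescribed intersection numbers: definitions
-/

open CategoryTheory AlgebraicGeometry

universe u v

namespace Pool.Agent.X310

section Alg

variable {K : Type*} [Field K] {V : Type*} [AddCommGroup V] [Module K V]

/-- The operator `T` acts on the graded piece `gr j` as multiplication by the rational number
`ω j`, for all `j`. -/
def ActsBy (gr : ℕ → Submodule K V) (ω : ℕ → ℚ) (T : Module.End K V) : Prop :=
  ∀ j, ∀ a ∈ gr j, T a = (ω j : K) • a

/-- `∑_j ω_j Tr(B | gr j) = t`, for an operator `B` which respects the grading: the left hand side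
is the trace of `T ∘ B`, where `T` is the operator which acts on `gr j` as multiplication by
`ω j`. -/
def WeightedTrace (gr : ℕ → Submodule K V) (ω : ℕ → ℚ) (B : Module.End K V) (t : K) : Prop :=
  ∀ T : Module.End K V, ActsBy gr ω T → LinearMap.trace K V (T * B) = t

end Alg

open Pool.Agent.H914 Pool.Agent.H447 VarClass Obj WeilCohomology

variable {k : Type u} [Field k] {𝒱 : VarClass k} {ops : CycleOps 𝒱}

/-- The intersection number `z · ᵗb` of the cycle `z` with the transpose of the cycle `b`, for
cycles on `X × X`. -/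
noncomputable def interT (ops : CycleOps 𝒱) (X : 𝒱.Obj) (z b : (X.prod X).Cycles) : ℚ :=
  (X.prod X).V.degCycle (ops.mul z (ops.pull (flip X) b))

/-- The cycle `z` has codimension `n = dim X` on `X × X`, and for all cycles `b` of codimension `n`
on `X × X` the intersection number `z · ᵗb` is `∑_j ω_j Tr(b | H^j(X))`. -/
def Represents (W : WeilCohomology.{u, v} ops) (X : 𝒱.Obj) (ω : ℕ → ℚ)
    (z : (X.prod X).Cycles) : Prop :=
  (X.prod X).IsCyc X.dim z ∧ ∀ b, (X.prod X).IsCyc X.dim b →
    WeightedTrace (W.gr X) ω (W.corr (W.cl (X.prod X) b)) (interT ops X z b : W.K)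

/-- `z · ᵗb` is the trace of `b` on the total cohomology of `X` (the sum of the traces on all
`H^j(X)`, without signs), for all cycles `b` of codimension `n = dim X` on `X × X`. -/
def RepresentsTrace (W : WeilCohomology.{u, v} ops) (X : 𝒱.Obj) (z : (X.prod X).Cycles) : Prop :=
  Represents W X (fun _ => 1) z

/-- `z · ᵗb = ∑_j (-1)^j (j - n) Tr(b | H^j(X))` for all cycles `b` of codimension `n = dim X` on
`X × X`. -/
def RepresentsWeight (W : WeilCohomology.{u, v} ops) (X : 𝒱.Obj) (z : (X.prod X).Cycles) : Prop :=
  Represents W X (fun j => (-1) ^ j * ((j : ℚ) - X.dim)) z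

/-- `z · ᵗb = (-1)^i Tr(b | H^i(X))` for all cycles `b` of codimension `n = dim X` on `X × X`: that
is, `z` has the same intersection numbers with all cycles of codimension `n` as the `i`-th Künneth
component of the diagonal. -/
def RepresentsProjector (W : WeilCohomology.{u, v} ops) (X : 𝒱.Obj) (i : ℕ)
    (z : (X.prod X).Cycles) : Prop :=
  Represents W X (fun j => if j = i then (-1) ^ i else 0) z

/-- The sum of the Betti numbers of `X`. -/
noncomputable def totalBetti (W : WeilCohomology.{u, v} ops) (X : 𝒱.Obj) : ℚ :=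
  ∑ j ∈ Finset.range (2 * X.dim + 1), (W.betti X j : ℚ)

/-- The number `∑_j (j - n)² b_j(X)`, where `n = dim X`. -/
noncomputable def totalWeight (W : WeilCohomology.{u, v} ops) (X : 𝒱.Obj) : ℚ :=
  ∑ j ∈ Finset.range (2 * X.dim + 1), ((j : ℚ) - X.dim) ^ 2 * (W.betti X j : ℚ)

end Pool.Agent.X310
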