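import Pool.Agent.X208.CZ.Comb

/-! Combinatorics of CM types: average over the types containing an embedding, odd functions. -/

set_option autoImplicit false

namespace Pool.Agent.X310.Col

open Finset Pool.Agent.X208.CZ

variable {X : Type} [Fintype X] [DecidableEq X] {c : X → X}

/-- the type with all pairs but `{ψ, c ψ}` exchanged -/
def sw (c : X → X) (ψ : X) (Φ : Finset X) : Finset X :=
  univ.filter fun x => if x = ψ ∨ x = c ψ then x ∈ Φ else x ∉ Φ

theorem mem_sw (ψ : X) (Φ : Finset X) (x : X) :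
    x ∈ sw c ψ Φ ↔ if x = ψ ∨ x = c ψ then x ∈ Φ else x ∉ Φ := by
  simp [sw]

theorem sw_isT (hc : ∀ x, c (c x) = x) (ψ : X) {Φ : Finset X} (h : IsT c Φ) :
    IsT c (sw c ψ Φ) := by
  intro x
  rw [mem_sw, mem_sw]
  have h1 : (c x = ψ ∨ c x = c ψ) ↔ (x = ψ ∨ x = c ψ) := by
    constructor
    · rintro (h2 | h2)
      · right; rw [← h2, hc]
      · left; rw [← hc x, h2, hc]
    · rintro (h2 | h2)
      · right; rw [h2]
      · left; rw [h2, hc]
  have h3 := h x
  by_cases h2 : x = ψ ∨ x = c ψ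
  · rw [if_pos h2, if_pos (h1.2 h2)]
    exact h3
  · rw [if_neg h2, if_neg (fun h4 => h2 (h1.1 h4))]
    rw [not_not, h3, not_not]

theorem sw_sw (ψ : X) (Φ : Finset X) : sw c ψ (sw c ψ Φ) = Φ := by
  ext x
  rw [mem_sw, mem_sw]
  by_cases h2 : x = ψ ∨ x = c ψ
  · rw [if_pos h2, if_pos h2]
  · rw [if_neg h2, if_neg h2, not_not]

theorem wt_sw (hc' : ∀ x, c x ≠ x) (w : X → ℝ) (ψ : X) {Φ : Finset X} (h : IsT c Φ)
    (hψ : ψ ∈ Φ) : wt w Φ + wt w (sw c ψ Φ) = w ψ - w (c ψ) + ∑ x, w x := by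
  have h1 : ∀ x, (if x ∈ Φ then w x else 0) + (if x ∈ sw c ψ Φ then w x else 0) =
      (if x = ψ then w x else 0) - (if x = c ψ then w x else 0) + w x := by
    intro x
    rw [if_congr (mem_sw ψ Φ x) rfl rfl]
    by_cases h2 : x = ψ
    · subst h2
      have h3 : ¬ (x = c x) := fun h4 => hc' x h4.symm
      simp [hψ, h3]
    · by_cases h3 : x = c ψ
      · subst h3
        have h4 : c ψ ∉ Φ := (h ψ).1 hψ
        simp [h2, h4]
      · by_cases h4 : x ∈ Φ <;> simp [h2, h3, h4]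
  unfold wt
  rw [← sum_add_distrib, sum_congr rfl fun x _ => h1 x, sum_add_distrib, sum_sub_distrib]
  simp

/-- the average over the types containing `ψ`. -/
theorem sum_types (hc : ∀ x, c (c x) = x) (hc' : ∀ x, c x ≠ x) (w : X → ℝ) (ψ : X) :
    2 * ∑ Φ ∈ Finset.univ.filter (fun Φ => IsT c Φ ∧ ψ ∈ Φ), wt w Φ =
      ((Finset.univ.filter (fun Φ => IsT c Φ ∧ ψ ∈ Φ)).card : ℝ) *
        (w ψ - w (c ψ) + ∑ x, w x) := by
  have h1 : ∑ Φ ∈ Finset.univ.filter (fun Φ => IsT c Φ ∧ ψ ∈ Φ), wt w (sw c ψ Φ) =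
      ∑ Φ ∈ Finset.univ.filter (fun Φ => IsT c Φ ∧ ψ ∈ Φ), wt w Φ := by
    have hmem : ∀ Φ ∈ Finset.univ.filter (fun Φ => IsT c Φ ∧ ψ ∈ Φ),
        sw c ψ Φ ∈ Finset.univ.filter (fun Φ => IsT c Φ ∧ ψ ∈ Φ) := by
      intro Φ hΦ
      simp only [mem_filter, mem_univ, true_and] at hΦ ⊢
      refine ⟨sw_isT hc ψ hΦ.1, ?_⟩
      rw [mem_sw, if_pos (Or.inl rfl)]
      exact hΦ.2
    refine Finset.sum_bij (fun Φ _ => sw c ψ Φ) hmem ?_ ?_ ?_
    · intro Φ _ Ψ _ he
      have := congrArg (sw c ψ) he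
      rwa [sw_sw, sw_sw] at this
    · intro Φ hΦ
      exact ⟨sw c ψ Φ, hmem Φ hΦ, sw_sw ψ Φ⟩
    · intro Φ _
      rfl
  rw [two_mul]
  nth_rewrite 2 [← h1]
  rw [← sum_add_distrib, sum_congr rfl fun Φ hΦ => wt_sw hc' w ψ (mem_filter.1 hΦ).2.1
    (mem_filter.1 hΦ).2.2, sum_const, nsmul_eq_mul]

/-- the sign of an embedding -/
def sg (Φ : Finset X) (x : X) : ℝ := if x ∈ Φ then 1 else -1

theorem sg_c (c : X → X) {Φ : Finset X} (h : IsT c Φ) (x : X) : sg Φ (c x) = - sg Φ x := by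
  unfold sg
  have h1 := h x
  by_cases h2 : x ∈ Φ
  · rw [if_neg (h1.1 h2), if_pos h2]
  · have h3 : c x ∈ Φ := by
      by_contra h4
      exact h2 (h1.2 h4)
    rw [if_pos h3, if_neg h2, neg_neg]

theorem four_wt (hc : ∀ x, c (c x) = x) (w : X → ℝ) (hw : ∑ x, w x = 0) {Φ : Finset X}
    (h : IsT c Φ) : 4 * wt w Φ = ∑ x, sg Φ x * (w x - w (c x)) := by
  have h1 : ∑ x, sg Φ x * w (c x) = - ∑ x, sg Φ x * w x := by
    let e : X ≃ X := ⟨c, c, hc, hc⟩
    rw [← Equiv.sum_comp e]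
    simp only [e, Equiv.coe_fn_mk, hc]
    rw [← sum_neg_distrib]
    refine sum_congr rfl fun x _ => ?_
    rw [sg_c c h]
    ring
  have h2 : ∑ x, sg Φ x * w x = 2 * wt w Φ := by
    have h3 : ∀ x, sg Φ x * w x = 2 * (if x ∈ Φ then w x else 0) - w x := by
      intro x
      unfold sg
      split_ifs <;> ring
    rw [sum_congr rfl fun x _ => h3 x, sum_sub_distrib, ← mul_sum, hw, sub_zero]
    rfl
  have h4 : ∀ x, sg Φ x * (w x - w (c x)) = sg Φ x * w x - sg Φ x * w (c x) := fun x => by ring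
  rw [sum_congr rfl fun x _ => h4 x, sum_sub_distrib, h1, h2]
  ring

/-- sums against a function constant on the classes of an equivalence relation. -/
theorem sum_class (r : X → X → Prop) [DecidableRel r] (hr : Equivalence r) (s u : X → ℝ)
    (hu : ∀ x y, r x y → u x = u y) :
    ∑ x, s x * u x = ∑ x, (∑ y, if r x y then s y else 0) * (u x /
      ((univ.filter fun y => r x y).card : ℝ)) := by
  have h1 : ∀ x, (∑ y, if r x y then s y else 0) * (u x /
      ((univ.filter fun y => r x y).card : ℝ)) = ∑ y, if r x y then s y * (u x /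
      ((univ.filter fun y => r x y).card : ℝ)) else 0 := by
    intro x
    rw [sum_mul]
    refine sum_congr rfl fun y _ => ?_
    split_ifs
    · rfl
    · rw [zero_mul]
  rw [sum_congr rfl fun x _ => h1 x, sum_comm]
  refine sum_congr rfl fun y _ => ?_
  have h2 : ∀ x, (if r x y then s y * (u x / ((univ.filter fun z => r x z).card : ℝ)) else 0) =
      if r y x then s y * (u y / ((univ.filter fun z => r y z).card : ℝ)) else 0 := by
    intro x
    by_cases h3 : r x y
    · rw [if_pos h3, if_pos (hr.symm h3), hu x y h3]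
      have h4 : (univ.filter fun z => r x z) = univ.filter fun z => r y z := by
        ext z
        simp only [mem_filter, mem_univ, true_and]
        exact ⟨fun h => hr.trans (hr.symm h3) h, fun h => hr.trans h3 h⟩
      rw [h4]
    · rw [if_neg h3, if_neg fun h4 => h3 (hr.symm h4)]
  rw [sum_congr rfl fun x _ => h2 x, ← sum_filter, sum_const, nsmul_eq_mul]
  have h5 : ((univ.filter fun z => r y z).card : ℝ) ≠ 0 := by
    have : y ∈ univ.filter fun z => r y z := by
      simp only [mem_filter, mem_univ, true_and]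
      exact hr.refl y
    exact_mod_cast (card_pos.2 ⟨y, this⟩).ne'
  field_simp

/-- the proportional law. -/
theorem law (hc : ∀ x, c (c x) = x) (r : X → X → Prop) [DecidableRel r] (hr : Equivalence r)
    (w : X → ℝ) (hw : ∑ x, w x = 0) (hw' : ∀ x y, r x y → w x = w y)
    (hrc : ∀ x y, r x y → r (c x) (c y)) (ψ : X) (hψ : w ψ = w (c ψ)) {Φ Φ₀ : Finset X}
    (h : IsT c Φ) (h₀ : IsT c Φ₀) (l : ℝ)
    (hl : ∀ x, x ≠ ψ → x ≠ c ψ → (∑ y, if r x y then sg Φ y else 0) =
      l * ∑ y, if r x y then sg Φ₀ y else 0) :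
    wt w Φ = l * wt w Φ₀ := by
  have hu : ∀ x y, r x y → w x - w (c x) = w y - w (c y) := fun x y hxy => by
    rw [hw' x y hxy, hw' _ _ (hrc x y hxy)]
  have h1 := four_wt hc w hw h
  have h2 := four_wt hc w hw h₀
  rw [sum_class r hr (sg Φ) _ hu] at h1
  rw [sum_class r hr (sg Φ₀) _ hu] at h2
  have h3 : 4 * wt w Φ = l * (4 * wt w Φ₀) := by
    rw [h1, h2, mul_sum]
    refine sum_congr rfl fun x _ => ?_
    by_cases hx : x = ψ
    · subst hx
      rw [hψ, sub_self, zero_div, mul_zero, mul_zero, mul_zero]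
    · by_cases hx' : x = c ψ
      · subst hx'
        rw [hc, hψ, sub_self, zero_div, mul_zero, mul_zero, mul_zero]
      · rw [hl x hx hx']
        ring
  linarith

end Pool.Agent.X310.Col
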