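import Pool.Agent.X310.ColDefs
import Pool.Agent.X310.ColComb

set_option autoImplicit false

open Module

namespace Pool.Agent.X310.Col

open Pool.Agent.X208.BR (Qb GK)
open Pool.Agent.X208.BR.Pk Pool.Agent.X208.CZ

variable {c : GalQ} {E : Fld}

theorem act_comm (hE : IsCM c E) (τ : GalQ) (φ : Emb E) : act c (act τ φ) = act τ (act c φ) := by
  obtain ⟨-, ρ, -, h2⟩ := hE
  rw [h2, h2]
  rfl

theorem act_inj (σ : GalQ) {φ φ' : Emb E} (h : act σ φ = act σ φ') : φ = φ' := by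
  have := congrArg (act σ⁻¹) h
  rwa [act_inv_act, act_inv_act] at this

theorem act_act_inv (σ : GalQ) (ψ : Emb E) : act σ (act σ⁻¹ ψ) = ψ := by
  rw [← act_mul, mul_inv_cancel, act_one]

theorem conj_equiv (ψ : Emb E) : Equivalence (Conj ψ) where
  refl φ := ⟨1, act_one _, act_one _⟩
  symm := by
    rintro φ φ' ⟨σ, h1, h2⟩
    refine ⟨σ⁻¹, ?_, ?_⟩
    · nth_rewrite 1 [← h1]
      exact act_inv_act _ _
    · rw [← h2]
      exact act_inv_act _ _
  trans := by
    rintro φ φ' φ'' ⟨σ, h1, h2⟩ ⟨τ, h3, h4⟩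
    refine ⟨τ * σ, ?_, ?_⟩
    · rw [act_mul, h1, h3]
    · rw [act_mul, h2, h4]

theorem conj_c (hE : IsCM c E) {ψ φ φ' : Emb E} (h : Conj ψ φ φ') :
    Conj ψ (act c φ) (act c φ') := by
  obtain ⟨σ, h1, h2⟩ := h
  refine ⟨σ, h1, ?_⟩
  rw [← act_comm hE, h2]

theorem fs_normal (K : IntermediateField ℚ (AlgebraicClosure ℚ)) (h : Normal ℚ K) :
    K.fixingSubgroup.Normal := by
  have h1 := @IntermediateField.restrictNormalHom_ker ℚ (AlgebraicClosure ℚ) _ _ _ K h
  rw [← h1]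
  exact MonoidHom.normal_ker _

theorem G_normal {K : Fld} (h : Over K E) : (G K).Normal := fs_normal K h.normal

theorem a0_act {K : Fld} (h : Over K E) (σ : GalQ) (ψ : Emb E) (Φ : Set (Emb E)) :
    a0 K (act σ ψ) Φ = a0 K ψ {φ | act σ φ ∈ Φ} := by
  classical
  haveI := G_normal h
  funext g
  unfold a0
  congr 2
  refine Nat.card_congr ?_
  -- right multiplication by `σ` on the cosets
  refine (Equiv.mulRight (QuotientGroup.mk σ : GalQ ⧸ G K)).subtypeEquiv ?_
  intro x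
  have h1 : ∀ y z : GalQ, (QuotientGroup.mk y : GalQ ⧸ G K) = QuotientGroup.mk z →
      act (y⁻¹ * g * y) ψ = act (z⁻¹ * g * z) ψ := by
    intro y z hyz
    have hyz' : y⁻¹ * z ∈ G K := QuotientGroup.eq.1 hyz
    have h2 : z⁻¹ * g * z = (y⁻¹ * z)⁻¹ * (y⁻¹ * g * y) * (y⁻¹ * z) := by group
    rw [h2]
    conv_rhs => rw [act_mul, act_trivial h hyz', act_mul, act_trivial h ((G K).inv_mem hyz')]
  have h3 : (QuotientGroup.mk ((Equiv.mulRight (QuotientGroup.mk σ : GalQ ⧸ G K)) x).out :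
      GalQ ⧸ G K) = QuotientGroup.mk (x.out * σ) := by
    rw [QuotientGroup.out_eq', QuotientGroup.mk_mul, QuotientGroup.out_eq']
    rfl
  rw [h1 _ _ h3, Set.mem_ofPred_eq]
  have h4 : σ * ((x.out * σ)⁻¹ * g * (x.out * σ)) = x.out⁻¹ * g * x.out * σ := by group
  rw [← act_mul σ, h4, act_mul _ σ]

theorem trans_act (hE : IsNF E) (ψ ψ' : Emb E) : ∃ σ : GalQ, act σ ψ = ψ' := by
  have hfd : FiniteDimensional ℚ (show IntermediateField ℚ (AlgebraicClosure ℚ) from E) := hE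
  obtain ⟨θ, hθ⟩ := Field.exists_primitive_element ℚ
    (show IntermediateField ℚ (AlgebraicClosure ℚ) from E)
  set f : (show IntermediateField ℚ (AlgebraicClosure ℚ) from E) →ₐ[ℚ] AlgebraicClosure ℚ :=
    RingHom.toRatAlgHom ψ with hf
  set f' : (show IntermediateField ℚ (AlgebraicClosure ℚ) from E) →ₐ[ℚ] AlgebraicClosure ℚ :=
    RingHom.toRatAlgHom ψ' with hf'
  have hint : IsIntegral ℚ (f θ) :=
    (Pool.Agent.X208.BR.alg1).isAlgebraic (f θ) |>.isIntegral
  have h2 : Polynomial.aeval (f' θ) (minpoly ℚ (f θ)) = 0 := by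
    have h3 : minpoly ℚ (f θ) = minpoly ℚ θ := minpoly.algHom_eq f f.injective θ
    rw [h3]
    have h4 := Polynomial.aeval_algHom_apply f' θ (minpoly ℚ θ)
    rw [minpoly.aeval, map_zero] at h4
    exact h4
  obtain ⟨τ, hτ⟩ := minpoly.exists_algEquiv_of_root' hint.isAlgebraic h2
  refine ⟨τ, ?_⟩
  have h5 : (τ : AlgebraicClosure ℚ →ₐ[ℚ] AlgebraicClosure ℚ).comp f = f' := by
    have h6 := AlgHom.ext_of_adjoin_eq_top (A := (show IntermediateField ℚ (AlgebraicClosure ℚ)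
      from E)) (s := {θ}) (φ₁ := (τ : AlgebraicClosure ℚ →ₐ[ℚ] AlgebraicClosure ℚ).comp f)
      (φ₂ := f') (by
        have h7 : Algebra.adjoin ℚ ({θ} : Set _) = (IntermediateField.adjoin ℚ {θ}).toSubalgebra :=
          (IntermediateField.adjoin_simple_toSubalgebra_of_isAlgebraic
            (Algebra.IsAlgebraic.isAlgebraic θ)).symm
        rw [h7, hθ]
        rfl) (by
        intro x hx
        rw [Set.mem_singleton_iff] at hx
        subst hx
        exact hτ)
    exact h6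
  refine emb_ext fun x => ?_
  exact congrArg (fun k : (show IntermediateField ℚ (AlgebraicClosure ℚ) from E) →ₐ[ℚ]
    AlgebraicClosure ℚ => k x) h5

end Pool.Agent.X310.Col
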