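import Pool.Agent.X310.Col

set_option autoImplicit false

open Module

namespace Pool.Agent.X310.Col

open Pool.Agent.X208.BR (Qb GK)
open Pool.Agent.X208.BR.Pk Pool.Agent.X208.CZ

variable {c : GalQ} {E : Fld}

theorem isType_act (hE : IsCM c E) (σ : GalQ) {Φ : Set (Emb E)} (h : IsType c Φ) :
    IsType c {φ | act σ φ ∈ Φ} := by
  intro φ
  have h1 := h (act σ φ)
  change act σ φ ∈ Φ ↔ ¬ (act σ (act c φ) ∈ Φ)
  rw [← act_comm hE]
  exact h1

theorem holds_act (T : ColmezData c) (hE : IsCM c E) (σ : GalQ) (ψ : Emb E) {Φ : Set (Emb E)}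
    (hΦ : IsType c Φ) (hh : T.Holds ψ {φ | act σ φ ∈ Φ}) : T.Holds (act σ ψ) Φ := by
  intro K hK
  have h1 := hh K hK
  rw [T.colmez K ψ _ hE (isType_act hE σ hΦ) hK] at h1
  rw [T.colmez K (act σ ψ) Φ hE hΦ hK, a0_act hK, h1]

/-- all embeddings have the same behaviour. -/
theorem holds_all (T : ColmezData c) (hE : IsCM c E) (ψ : Emb E)
    (h : ∀ Φ : Set (Emb E), IsType c Φ → T.Holds ψ Φ) (ψ' : Emb E) {Φ : Set (Emb E)}
    (hΦ : IsType c Φ) : T.Holds ψ' Φ := by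
  obtain ⟨σ, rfl⟩ := trans_act hE.1 ψ ψ'
  exact holds_act T hE σ ψ hΦ (h _ (isType_act hE σ hΦ))

/-- weights are invariant. -/
theorem wgt_act (T : ColmezData c) {K : Fld} (h : Over K E) (σ : GalQ) (ψ φ : Emb E) :
    wgt T (act σ ψ) K (act σ φ) = wgt T ψ K φ := by
  unfold wgt
  rw [a0_act h]
  have h1 : {x : Emb E | act σ x ∈ ({act σ φ} : Set (Emb E))} = {φ} := by
    ext x
    rw [Set.mem_ofPred_eq, Set.mem_singleton_iff, Set.mem_singleton_iff]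
    exact ⟨fun h => act_inj σ h, fun h => by rw [h]⟩
  rw [h1]

theorem wgt_conj (T : ColmezData c) {K : Fld} (h : Over K E) {ψ φ φ' : Emb E}
    (hc : Conj ψ φ φ') : wgt T ψ K φ = wgt T ψ K φ' := by
  obtain ⟨σ, h1, h2⟩ := hc
  have h3 := wgt_act T h σ ψ φ
  rw [h1, h2] at h3
  exact h3.symm

theorem a0_univ {K : Fld} (h : Over K E) (ψ : Emb E) : a0 K ψ Set.univ = fun _ => 1 := by
  funext g
  unfold a0
  have h1 : deg K = (G K).index :=
    IntermediateField.finrank_eq_fixingSubgroup_index (F := ℚ) (E' := Qb)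
      (L := (show IntermediateField ℚ (AlgebraicClosure ℚ) from K))
  have h2 : (G K).index ≠ 0 := Pool.Agent.X208.BR.index_ne_zero h.fin
  have h3 : Nat.card {x : GalQ ⧸ G K // act (x.out⁻¹ * g * x.out) ψ ∈ (Set.univ : Set (Emb E))} =
      (G K).index := by
    rw [Subgroup.index]
    exact Nat.card_congr (Equiv.subtypeUnivEquiv fun x => Set.mem_univ _)
  rw [h3, h1]
  exact div_self (by exact_mod_cast h2)

theorem a0_conj {K : Fld} (hc : IsConj c) (hE : IsCM c E) (ψ : Emb E) (Φ : Set (Emb E))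
    (hΦ : IsType c Φ) : a0 K (act c ψ) Φ = a0 K ψ Φᶜ := by
  funext g
  unfold a0
  congr 2
  refine Nat.card_congr (Equiv.subtypeEquivRight fun x => ?_)
  rw [← act_comm hE, Set.mem_compl_iff]
  have h1 := hΦ (act (x.out⁻¹ * g * x.out) ψ)
  tauto

open Classical in
theorem a0_compl [Fintype (Emb E)] {K : Fld} (hK : Over K E) (ψ : Emb E) (Φ : Set (Emb E)) :
    a0 K ψ Φ + a0 K ψ Φᶜ = a0 K ψ Set.univ := by
  rw [a0_sum hK.fin ψ Φ, a0_sum hK.fin ψ Φᶜ, a0_sum hK.fin ψ Set.univ, ← Finset.sum_add_distrib]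
  refine Finset.sum_congr rfl fun φ _ => ?_
  by_cases h : φ ∈ Φ
  · rw [if_pos h, if_neg (by simpa using h), if_pos (Set.mem_univ _), add_zero]
  · rw [if_neg h, if_pos (by simpa using h), if_pos (Set.mem_univ _), zero_add]

theorem exists_type (hc : IsConj c) (hE : IsCM c E) : ∃ Φ : Set (Emb E), IsType c Φ := by
  have h := types_pos hc hE
  obtain ⟨Φ, hΦ⟩ := Set.nonempty_of_ncard_ne_zero h.ne'
  exact ⟨Φ, hΦ⟩

theorem exists_type_mem (hc : IsConj c) (hE : IsCM c E) (ψ : Emb E) :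
    ∃ Φ : Set (Emb E), IsType c Φ ∧ ψ ∈ Φ := by
  obtain ⟨Φ, hΦ⟩ := exists_type hc hE
  by_cases h : ψ ∈ Φ
  · exact ⟨Φ, hΦ, h⟩
  · refine ⟨{φ | act c φ ∈ Φ}, isType_act hE c hΦ, ?_⟩
    by_contra h1
    exact h ((hΦ ψ).2 h1)

/-- the sum of all weights is zero. -/
theorem sum_wgt [Fintype (Emb E)] (T : ColmezData c) (hT : Known T) (hc : IsConj c)
    (hE : IsCM c E) {K : Fld} (hK : Over K E) (ψ : Emb E) : ∑ φ, wgt T ψ K φ = 0 := by
  classical
  obtain ⟨Φ, hΦ⟩ := exists_type hc hE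
  have h1 := hT.conj hE ψ Φ hΦ
  rw [T.colmez K ψ Φ hE hΦ hK, T.colmez K (act c ψ) Φ hE hΦ hK, a0_conj hc hE ψ Φ hΦ,
    ← map_add, a0_compl hK, ← a0_univ hK ψ] at h1
  have h2 := defect_eq T ψ hK Set.univ
  rw [h1, sub_self] at h2
  unfold wt at h2
  rw [h2]
  refine Finset.sum_congr rfl fun φ _ => ?_
  refine (if_pos ?_).symm
  exact (@Set.mem_toFinset _ Set.univ (_) φ).2 (Set.mem_univ φ)

/-- **the averaged formula**: the weights of `ψ` and its conjugate agree. -/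
theorem wgt_self (T : ColmezData c) (hT : Known T) (hc : IsConj c)
    (hE : IsCM c E) {K : Fld} (hK : Over K E) (ψ : Emb E) :
    wgt T ψ K ψ = wgt T ψ K (act c ψ) := by
  classical
  have : Finite (Emb E) := finite_emb hE.1
  haveI : Fintype (Emb E) := Fintype.ofFinite _
  set cc : Emb E → Emb E := fun φ => act c φ with hcc
  have hv : ∀ ψ', wgt T ψ' K ψ' - wgt T ψ' K (cc ψ') = wgt T ψ K ψ - wgt T ψ K (cc ψ) := by
    intro ψ'
    obtain ⟨σ, rfl⟩ := trans_act hE.1 ψ ψ'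
    rw [wgt_act T hK]
    simp only [hcc]
    rw [act_comm hE, wgt_act T hK]
  have h0 := hT.average hE K hK
  rw [finsum_eq_sum_of_fintype] at h0
  -- as a double sum
  have h1 : ∑ p : {p : Emb E × Set (Emb E) // IsType c p.2 ∧ p.1 ∈ p.2},
      (T.ht p.1.1 p.1.2 - T.Z (a0 K p.1.1 p.1.2)) =
      ∑ ψ' : Emb E, ∑ Φ ∈ Finset.univ.filter (fun Φ => IsT cc Φ ∧ ψ' ∈ Φ),
        wt (wgt T ψ' K) Φ := by
    have h2 : ∀ p : {p : Emb E × Set (Emb E) // IsType c p.2 ∧ p.1 ∈ p.2},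
        (T.ht p.1.1 p.1.2 - T.Z (a0 K p.1.1 p.1.2)) =
        (fun q : Emb E × Set (Emb E) => wt (wgt T q.1 K) q.2.toFinset) p.1 := by
      intro p
      rw [T.colmez K p.1.1 p.1.2 hE p.2.1 hK, defect_eq T p.1.1 hK p.1.2]
    rw [Finset.sum_congr rfl fun p _ => h2 p]
    rw [← Finset.sum_subtype (Finset.univ.filter fun q : Emb E × Set (Emb E) =>
      IsType c q.2 ∧ q.1 ∈ q.2) (by intro x; simp) (fun q => wt (wgt T q.1 K) q.2.toFinset)]
    rw [Finset.sum_filter, Fintype.sum_prod_type]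
    refine Finset.sum_congr rfl fun ψ' _ => ?_
    rw [Finset.sum_filter]
    refine (Equiv.sum_comp (Fintype.finsetEquivSet (α := Emb E)) _).symm.trans ?_
    refine Finset.sum_congr rfl fun Φ _ => ?_
    have h3 : (IsType c (Fintype.finsetEquivSet Φ : Set (Emb E)) ∧
        ψ' ∈ (Fintype.finsetEquivSet Φ : Set (Emb E))) ↔ (IsT cc Φ ∧ ψ' ∈ Φ) := by
      rw [Fintype.finsetEquivSet_apply]
      have h4 : IsType c (Φ : Set (Emb E)) ↔ IsT cc Φ := Iff.rfl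
      rw [h4]
      exact Iff.rfl
    rw [if_congr h3 rfl rfl]
    congr 2
    ext x
    simp
  rw [h1] at h0
  have h3 : ∀ ψ' : Emb E, 2 * ∑ Φ ∈ Finset.univ.filter (fun Φ => IsT cc Φ ∧ ψ' ∈ Φ),
      wt (wgt T ψ' K) Φ = ((Finset.univ.filter (fun Φ => IsT cc Φ ∧ ψ' ∈ Φ)).card : ℝ) *
      (wgt T ψ K ψ - wgt T ψ K (cc ψ)) := by
    intro ψ'
    rw [sum_types (act_act hc) (act_ne hE), sum_wgt T hT hc hE hK ψ', add_zero, hv ψ']
  have h4 : (∑ ψ' : Emb E, ((Finset.univ.filter (fun Φ => IsT cc Φ ∧ ψ' ∈ Φ)).card : ℝ)) *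
      (wgt T ψ K ψ - wgt T ψ K (cc ψ)) = 0 := by
    rw [Finset.sum_mul, ← Finset.sum_congr rfl fun ψ' _ => h3 ψ', ← Finset.mul_sum, h0, mul_zero]
  rcases mul_eq_zero.1 h4 with h5 | h5
  · exfalso
    have h6 : (0 : ℝ) < ∑ ψ' : Emb E,
        ((Finset.univ.filter (fun Φ => IsT cc Φ ∧ ψ' ∈ Φ)).card : ℝ) := by
      refine Finset.sum_pos' (fun i _ => Nat.cast_nonneg _) ⟨ψ, Finset.mem_univ _, ?_⟩
      obtain ⟨Φ, hΦ, hψ⟩ := exists_type_mem hc hE ψ
      have h7 : Φ.toFinset ∈ Finset.univ.filter (fun Φ => IsT cc Φ ∧ ψ ∈ Φ) := by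
        rw [Finset.mem_filter]
        exact ⟨Finset.mem_univ _, (isT_iff Φ).2 hΦ, Set.mem_toFinset.2 hψ⟩
      exact_mod_cast Finset.card_pos.2 ⟨_, h7⟩
    exact h6.ne' h5
  · exact sub_eq_zero.1 h5

end Pool.Agent.X310.Col
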