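import Pool.Agent.X310.Col2

set_option autoImplicit false

open Module

namespace Pool.Agent.X310.Col

open Pool.Agent.X208.BR (Qb GK)
open Pool.Agent.X208.BR.Pk Pool.Agent.X208.CZ

variable {c : GalQ} {E : Fld}

open Classical in
theorem excess_eq [Fintype (Emb E)] (ψ : Emb E) (Φ : Set (Emb E)) (φ : Emb E) :
    (∑ x, if Conj ψ φ x then sg Φ.toFinset x else 0) = (excess ψ Φ φ : ℝ) := by
  have h1 : ∀ x, (if Conj ψ φ x then sg Φ.toFinset x else 0) =
      (if Conj ψ φ x ∧ x ∈ Φ then (1 : ℝ) else 0) - (if Conj ψ φ x ∧ x ∉ Φ then 1 else 0) := by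
    intro x
    unfold sg
    by_cases h2 : Conj ψ φ x <;> by_cases h3 : x ∈ Φ <;> simp [h2, h3]
  rw [Finset.sum_congr rfl fun x _ => h1 x, Finset.sum_sub_distrib]
  unfold excess
  have h4 : ∀ (P : Emb E → Prop) [DecidablePred P],
      (∑ x, if P x then (1 : ℝ) else 0) = ({x | P x}.ncard : ℝ) := by
    intro P _
    rw [← Finset.sum_filter, Finset.sum_const, nsmul_eq_mul, mul_one]
    congr 1
    rw [← Set.ncard_coe_finset]
    congr 1
    ext x
    simp
  rw [h4, h4]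
  push_cast
  rfl

/-- the proportional law for Colmez's formula, defect form. -/
theorem defect_law (T : ColmezData c) (hT : Known T) (hc : IsConj c) (hE : IsCM c E)
    {K : Fld} (hK : Over K E) (ψ : Emb E) {Φ Φ₀ : Set (Emb E)} (hΦ : IsType c Φ)
    (hΦ₀ : IsType c Φ₀) (l : ℚ)
    (hl : ∀ φ, φ ≠ ψ → φ ≠ act c ψ → (excess ψ Φ φ : ℚ) = l * excess ψ Φ₀ φ) :
    T.h (a0 K ψ Φ) - T.Z (a0 K ψ Φ) = l * (T.h (a0 K ψ Φ₀) - T.Z (a0 K ψ Φ₀)) := by
  classical
  have : Finite (Emb E) := finite_emb hE.1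
  haveI : Fintype (Emb E) := Fintype.ofFinite _
  rw [defect_eq T ψ hK, defect_eq T ψ hK]
  refine law (c := fun φ => act c φ) (act_act hc) (Conj ψ) (conj_equiv ψ) _
    (sum_wgt T hT hc hE hK ψ) (fun x y h => wgt_conj T hK h) (fun x y h => conj_c hE h) ψ
    (wgt_self T hT hc hE hK ψ) ((isT_iff Φ).2 hΦ) ((isT_iff Φ₀).2 hΦ₀) (l : ℝ) ?_
  intro φ h1 h2
  rw [excess_eq, excess_eq]
  have := hl φ h1 h2
  exact_mod_cast congrArg (fun q : ℚ => (q : ℝ)) this

theorem holds_iff' (T : ColmezData c) (hE : IsCM c E) {K : Fld} (hK : Over K E) (ψ : Emb E)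
    {Φ : Set (Emb E)} (hΦ : IsType c Φ) :
    T.Holds ψ Φ ↔ T.h (a0 K ψ Φ) - T.Z (a0 K ψ Φ) = 0 := by
  classical
  have : Finite (Emb E) := finite_emb hE.1
  haveI : Fintype (Emb E) := Fintype.ofFinite _
  rw [holds_iff T hE ψ hK hΦ, defect_eq T ψ hK]

/-- 1. -/
theorem holds_of_prop (T : ColmezData c) (hT : Known T) (hc : IsConj c) (hE : IsCM c E)
    (ψ : Emb E) {Φ Φ₀ : Set (Emb E)} (hΦ : IsType c Φ) (hΦ₀ : IsType c Φ₀) (l : ℚ)
    (hl : ∀ φ, φ ≠ ψ → φ ≠ act c ψ → (excess ψ Φ φ : ℚ) = l * excess ψ Φ₀ φ)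
    (h : T.Holds ψ Φ₀) : T.Holds ψ Φ := by
  obtain ⟨K, hK⟩ := exists_level hE.1
  rw [holds_iff' T hE hK ψ hΦ, defect_law T hT hc hE hK ψ hΦ hΦ₀ l hl,
    (holds_iff' T hE hK ψ hΦ₀).1 h, mul_zero]

/-- 2. -/
theorem holds_of_balanced (T : ColmezData c) (hT : Known T) (hc : IsConj c) (hE : IsCM c E)
    (ψ : Emb E) {Φ : Set (Emb E)} (hΦ : IsType c Φ)
    (hl : ∀ φ, φ ≠ ψ → φ ≠ act c ψ → excess ψ Φ φ = 0) : T.Holds ψ Φ := by
  obtain ⟨K, hK⟩ := exists_level hE.1
  rw [holds_iff' T hE hK ψ hΦ, defect_law T hT hc hE hK ψ hΦ hΦ 0 (fun φ h1 h2 => by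
    rw [hl φ h1 h2]; simp)]
  push_cast
  rw [zero_mul]

/-- an orbit stable under complex conjugation has excess zero. -/
theorem excess_zero (hc : IsConj c) (hE : IsCM c E) (ψ φ : Emb E) {Φ : Set (Emb E)}
    (hΦ : IsType c Φ) (h : Conj ψ φ (act c φ)) : excess ψ Φ φ = 0 := by
  unfold excess
  have h1 : {x | Conj ψ φ x ∧ x ∉ Φ} = (fun x => act c x) '' {x | Conj ψ φ x ∧ x ∈ Φ} := by
    ext x
    rw [Set.mem_image]
    have hcx : ∀ y, Conj ψ φ y → Conj ψ φ (act c y) := fun y hy =>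
      (conj_equiv ψ).trans h (conj_c hE hy)
    constructor
    · rintro ⟨h2, h3⟩
      refine ⟨act c x, ⟨hcx x h2, ?_⟩, act_act hc x⟩
      by_contra h4
      exact h3 ((hΦ x).2 h4)
    · rintro ⟨y, ⟨h2, h3⟩, rfl⟩
      exact ⟨hcx y h2, (hΦ y).1 h3⟩
  rw [h1, Set.ncard_image_of_injective _ (fun x y hxy => act_inj c hxy), sub_self]

/-- 3. -/
theorem holds_of_selfconj (T : ColmezData c) (hT : Known T) (hc : IsConj c) (hE : IsCM c E)
    (ψ : Emb E) (h : ∀ φ, φ ≠ ψ → φ ≠ act c ψ → Conj ψ φ (act c φ)) (ψ' : Emb E)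
    {Φ : Set (Emb E)} (hΦ : IsType c Φ) : T.Holds ψ' Φ :=
  holds_all T hE ψ (fun Φ hΦ => holds_of_balanced T hT hc hE ψ hΦ fun φ h1 h2 =>
    excess_zero hc hE ψ φ hΦ (h φ h1 h2)) ψ' hΦ

/-- 4. -/
theorem holds_of_transitive (T : ColmezData c) (hT : Known T) (hc : IsConj c) (hE : IsCM c E)
    (ψ : Emb E) {Φ₀ : Set (Emb E)} (hΦ₀ : IsType c Φ₀) (h₀ : T.Holds ψ Φ₀)
    (h : ∀ φ ∈ Φ₀, ∀ φ' ∈ Φ₀, φ ≠ ψ → φ ≠ act c ψ → φ' ≠ ψ → φ' ≠ act c ψ → Conj ψ φ φ')
    (ψ' : Emb E) {Φ : Set (Emb E)} (hΦ : IsType c Φ) : T.Holds ψ' Φ := by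
  refine holds_all T hE ψ (fun Φ hΦ => ?_) ψ' hΦ
  classical
  have : Finite (Emb E) := finite_emb hE.1
  haveI : Fintype (Emb E) := Fintype.ofFinite _
  obtain ⟨K, hK⟩ := exists_level hE.1
  set w := wgt T ψ K with hw
  have hs := sum_wgt T hT hc hE hK ψ
  have hψ : w ψ = w (act c ψ) := wgt_self T hT hc hE hK ψ
  -- the odd part of the weight vanishes
  have hodd : ∀ φ, w φ = w (act c φ) := by
    by_contra hne
    push Not at hne
    obtain ⟨φ₁, hφ₁⟩ := hne
    -- an element of `Φ₀`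
    obtain ⟨φ₀, hφ₀, hne₀⟩ : ∃ φ₀ ∈ Φ₀, w φ₀ ≠ w (act c φ₀) := by
      by_cases h1 : φ₁ ∈ Φ₀
      · exact ⟨φ₁, h1, hφ₁⟩
      · refine ⟨act c φ₁, ?_, ?_⟩
        · by_contra h2
          exact h1 ((hΦ₀ φ₁).2 h2)
        · rw [act_act hc]
          exact hφ₁.symm
    have hn1 : φ₀ ≠ ψ := fun h1 => hne₀ (by rw [h1]; exact hψ)
    have hn2 : φ₀ ≠ act c ψ := fun h1 => hne₀ (by rw [h1, act_act hc]; exact hψ.symm)
    -- all terms have the same sign
    have h1 := four_wt (c := fun φ => act c φ) (act_act hc) w hs ((isT_iff Φ₀).2 hΦ₀)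
    rw [(holds_iff T hE ψ hK hΦ₀).1 h₀, mul_zero] at h1
    have h2 : ∀ x, sg Φ₀.toFinset x * (w x - w (act c x)) =
        if x = ψ ∨ x = act c ψ then 0 else (w φ₀ - w (act c φ₀)) := by
      intro x
      by_cases hx : x = ψ ∨ x = act c ψ
      · rw [if_pos hx]
        rcases hx with hx | hx
        · rw [hx, hψ, sub_self, mul_zero]
        · rw [hx, act_act hc, hψ, sub_self, mul_zero]
      · rw [if_neg hx]
        push Not at hx
        by_cases hx' : x ∈ Φ₀
        · have h3 := h φ₀ hφ₀ x hx' hn1 hn2 hx.1 hx.2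
          have h4 := wgt_conj T hK h3
          have h5 := wgt_conj T hK (conj_c hE h3)
          unfold sg
          rw [if_pos (Set.mem_toFinset.2 hx'), one_mul, hw, h4, h5]
        · have h6 : act c x ∈ Φ₀ := by
            by_contra h7
            exact hx' ((hΦ₀ x).2 h7)
          have h3 := h φ₀ hφ₀ _ h6 hn1 hn2
            (fun h8 => hx.2 (by rw [← h8, act_act hc]))
            (fun h8 => hx.1 (act_inj c h8))
          have h4 := wgt_conj T hK h3
          have h5 := wgt_conj T hK (conj_c hE h3)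
          rw [act_act hc] at h5
          unfold sg
          rw [if_neg (fun h9 => hx' (Set.mem_toFinset.1 h9)), hw, h4, h5]
          ring
    rw [Finset.sum_congr rfl fun x _ => h2 x] at h1
    have h3 : (∑ x : Emb E, if x = ψ ∨ x = act c ψ then (0 : ℝ) else (w φ₀ - w (act c φ₀))) =
        ((Finset.univ.filter fun x : Emb E => ¬ (x = ψ ∨ x = act c ψ)).card : ℝ) *
          (w φ₀ - w (act c φ₀)) := by
      rw [← nsmul_eq_mul, ← Finset.sum_const, Finset.sum_filter]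
      refine Finset.sum_congr rfl fun x _ => ?_
      by_cases hx : x = ψ ∨ x = act c ψ
      · rw [if_pos hx, if_neg (not_not.2 hx)]
      · rw [if_neg hx, if_pos hx]
    rw [h3] at h1
    rcases mul_eq_zero.1 h1.symm with h4 | h4
    · have h5 : φ₀ ∈ Finset.univ.filter fun x : Emb E => ¬ (x = ψ ∨ x = act c ψ) := by
        rw [Finset.mem_filter]
        exact ⟨Finset.mem_univ _, not_or.2 ⟨hn1, hn2⟩⟩
      have h6 := Finset.card_pos.2 ⟨_, h5⟩
      have h7 : (Finset.univ.filter fun x : Emb E => ¬ (x = ψ ∨ x = act c ψ)).card = 0 := by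
        exact_mod_cast h4
      omega
    · exact hne₀ (sub_eq_zero.1 h4)
  rw [holds_iff T hE ψ hK hΦ]
  have h1 := four_wt (c := fun φ => act c φ) (act_act hc) w hs ((isT_iff Φ).2 hΦ)
  have h2 : ∑ x, sg Φ.toFinset x * (w x - w (act c x)) = 0 := by
    refine Finset.sum_eq_zero fun x _ => ?_
    rw [← hodd x, sub_self, mul_zero]
  rw [h2] at h1
  linarith

/-- an imaginary quadratic field has two embeddings. -/
theorem two_emb (hc : IsConj c) {k : Fld} (hk : IsCM c k) (h2 : deg k = 2) (ψ φ : Emb k) :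
    φ = ψ ∨ φ = act c ψ := by
  classical
  have hfd : FiniteDimensional ℚ (show IntermediateField ℚ (AlgebraicClosure ℚ) from k) := hk.1
  have h3 : Nat.card (Emb k) = 2 := by
    have h4 : Nat.card ((show IntermediateField ℚ (AlgebraicClosure ℚ) from k) →ₐ[ℚ]
        AlgebraicClosure ℚ) = Module.finrank ℚ
          (show IntermediateField ℚ (AlgebraicClosure ℚ) from k) := by
      rw [Nat.card_eq_fintype_card]
      exact AlgHom.card ℚ _ _
    rw [← h2]
    unfold deg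
    rw [← h4]
    exact Nat.card_congr (RingHom.equivRatAlgHom
      (R := (show IntermediateField ℚ (AlgebraicClosure ℚ) from k))
      (S := AlgebraicClosure ℚ))
  have : Finite (Emb k) := finite_emb hk.1
  haveI : Fintype (Emb k) := Fintype.ofFinite _
  rw [Nat.card_eq_fintype_card] at h3
  have h4 : ({ψ, act c ψ} : Finset (Emb k)).card = 2 :=
    Finset.card_pair (act_ne hk ψ).symm
  have h5 : ({ψ, act c ψ} : Finset (Emb k)) = Finset.univ := by
    rw [← Finset.card_eq_iff_eq_univ, h4, h3]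
  have h6 : φ ∈ ({ψ, act c ψ} : Finset (Emb k)) := by
    rw [h5]
    exact Finset.mem_univ _
  simpa using h6

/-- 5. -/
theorem holds_quadratic (T : ColmezData c) (hT : Known T) (hc : IsConj c) {k E : Fld}
    (hle : k ≤ E) (hk : IsCM c k) (h2 : deg k = 2) (hE : IsCM c E) (ψ : Emb E)
    (h : ∀ φ φ' : Emb E, resEmb hle φ = resEmb hle ψ → resEmb hle φ' = resEmb hle ψ →
      φ ≠ ψ → φ' ≠ ψ → Conj ψ φ φ') (ψ' : Emb E)
    {Φ : Set (Emb E)} (hΦ : IsType c Φ) : T.Holds ψ' Φ := by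
  have hty : IsType c ({resEmb hle ψ} : Set (Emb k)) := by
    intro φ
    rw [Set.mem_singleton_iff, Set.mem_singleton_iff]
    constructor
    · rintro rfl
      exact act_ne hk _
    · intro h3
      rcases two_emb hc hk h2 (resEmb hle ψ) φ with h4 | h4
      · exact h4
      · exfalso
        apply h3
        rw [h4, act_act hc]
  have hk0 : T.Holds (resEmb hle ψ) ({resEmb hle ψ} : Set (Emb k)) := by
    refine holds_of_balanced T hT hc hk _ hty fun φ h3 h4 => ?_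
    rcases two_emb hc hk h2 (resEmb hle ψ) φ with h5 | h5
    · exact absurd h5 h3
    · exact absurd h5 h4
  have hE0 : T.Holds ψ (indType hle ({resEmb hle ψ} : Set (Emb k))) := by
    intro K hK
    have hK' : Over K k := ⟨hle.trans hK.le, hK.fin, hK.normal⟩
    have h3 := hk0 K hK'
    rw [T.colmez K _ _ hk hty hK'] at h3
    rw [T.colmez K ψ _ hE (indType_isType hle hty) hK, a0_ind]
    exact h3
  refine holds_of_transitive T hT hc hE ψ (indType_isType hle hty) hE0 ?_ ψ' hΦ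
  intro φ hφ φ' hφ' h3 _ h5 _
  exact h φ φ' hφ hφ' h3 h5

end Pool.Agent.X310.Col
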