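import Pool.Agent.X310.Col3

set_option autoImplicit false

open Module

namespace Pool.Agent.X310.Col

open Pool.Agent.X208.BR (Qb GK)
open Pool.Agent.X208.BR.Pk Pool.Agent.X208.CZ

variable {c : GalQ} {E : Fld}

/-- if the weights are even then the formula holds. -/
theorem holds_of_even (T : ColmezData c) (hT : Known T) (hc : IsConj c) (hE : IsCM c E)
    [Fintype (Emb E)] {K : Fld} (hK : Over K E) (ψ : Emb E)
    (hodd : ∀ φ, wgt T ψ K φ = wgt T ψ K (act c φ)) {Φ : Set (Emb E)} (hΦ : IsType c Φ) :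
    T.Holds ψ Φ := by
  classical
  rw [holds_iff T hE ψ hK hΦ]
  have h1 := four_wt (c := fun φ => act c φ) (act_act hc) (wgt T ψ K)
    (sum_wgt T hT hc hE hK ψ) ((isT_iff Φ).2 hΦ)
  have h2 : ∑ x, sg Φ.toFinset x * (wgt T ψ K x - wgt T ψ K (act c x)) = 0 := by
    refine Finset.sum_eq_zero fun x _ => ?_
    rw [← hodd x, sub_self, mul_zero]
  rw [h2] at h1
  linarith

/-- if the formula holds for all types then the weights are even. -/
theorem even_of_holds (T : ColmezData c) (hc : IsConj c) (hE : IsCM c E)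
    {K : Fld} (hK : Over K E) (ψ : Emb E)
    (h : ∀ Φ : Set (Emb E), IsType c Φ → T.Holds ψ Φ) (φ : Emb E) :
    wgt T ψ K φ = wgt T ψ K (act c φ) := by
  classical
  have : Finite (Emb E) := finite_emb hE.1
  haveI : Fintype (Emb E) := Fintype.ofFinite _
  obtain ⟨Φ, hΦ⟩ := exists_type hc hE
  have h1 := (holds_iff T hE ψ hK hΦ).1 (h Φ hΦ)
  have h2 := (holds_iff T hE ψ hK (swap_isType hc hE φ hΦ)).1 (h _ (swap_isType hc hE φ hΦ))
  rw [wt_swap hc hE _ φ hΦ, h1, zero_add] at h2
  split_ifs at h2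
  · exact (sub_eq_zero.1 h2).symm
  · exact sub_eq_zero.1 h2

open Classical in
/-- the weights of a subfield are sums of weights. -/
theorem wgt_sub [Fintype (Emb E)] (T : ColmezData c) {k : Fld} (hle : k ≤ E) {K : Fld}
    (hK : Over K E) (ψ : Emb E) (χ : Emb k) :
    wgt T (resEmb hle ψ) K χ = ∑ φ, if resEmb hle φ = χ then wgt T ψ K φ else 0 := by
  have h1 := defect_eq T ψ hK (indType hle ({χ} : Set (Emb k)))
  rw [a0_ind] at h1
  unfold wgt
  rw [h1]
  unfold wt
  refine Finset.sum_congr rfl fun φ _ => ?_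
  have h2 : φ ∈ (indType hle ({χ} : Set (Emb k))).toFinset ↔ resEmb hle φ = χ := by
    rw [Set.mem_toFinset]
    exact Iff.rfl
  rw [if_congr h2 rfl rfl]
  rfl

/-- towers. -/
theorem holds_tower (T : ColmezData c) (hT : Known T) (hc : IsConj c) {k E : Fld}
    (hle : k ≤ E) (hk : IsCM c k) (hE : IsCM c E) (ψ : Emb E)
    (hk0 : ∀ Φ : Set (Emb k), IsType c Φ → T.Holds (resEmb hle ψ) Φ)
    (h : ∀ φ φ' : Emb E, resEmb hle φ = resEmb hle φ' → φ ≠ ψ → φ ≠ act c ψ → φ' ≠ ψ →
      φ' ≠ act c ψ → Conj ψ φ φ' ∨ Conj ψ φ (act c φ) ∨ Conj ψ φ' (act c φ')) (ψ' : Emb E)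
    {Φ : Set (Emb E)} (hΦ : IsType c Φ) : T.Holds ψ' Φ := by
  refine holds_all T hE ψ (fun Φ hΦ => ?_) ψ' hΦ
  classical
  have : Finite (Emb E) := finite_emb hE.1
  haveI : Fintype (Emb E) := Fintype.ofFinite _
  obtain ⟨K, hK⟩ := exists_level hE.1
  have hK' : Over K k := ⟨hle.trans hK.le, hK.fin, hK.normal⟩
  refine holds_of_even T hT hc hE hK ψ ?_ hΦ
  set w := wgt T ψ K with hw
  have hψ : w ψ = w (act c ψ) := wgt_self T hT hc hE hK ψ
  have hself : ∀ φ, Conj ψ φ (act c φ) → w φ = w (act c φ) := fun φ h1 => wgt_conj T hK h1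
  intro φ
  by_contra hne
  have hn1 : φ ≠ ψ := fun h1 => hne (by rw [h1]; exact hψ)
  have hn2 : φ ≠ act c ψ := fun h1 => hne (by rw [h1, act_act hc]; exact hψ.symm)
  -- the fibre
  have h1 := even_of_holds T hc hk hK' (resEmb hle ψ) hk0 (resEmb hle φ)
  rw [wgt_sub T hle hK, wgt_sub T hle hK] at h1
  have h2 : (∑ x, if resEmb hle x = act c (resEmb hle φ) then wgt T ψ K x else 0) =
      ∑ x, if resEmb hle x = resEmb hle φ then w (act c x) else 0 := by
    let e : Emb E ≃ Emb E := ⟨fun x => act c x, fun x => act c x, act_act hc, act_act hc⟩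
    rw [← Equiv.sum_comp e]
    refine Finset.sum_congr rfl fun x _ => ?_
    simp only [e, Equiv.coe_fn_mk]
    have h3 : resEmb hle (act c x) = act c (resEmb hle φ) ↔ resEmb hle x = resEmb hle φ := by
      rw [resEmb_act]
      exact ⟨fun h => act_inj c h, fun h => by rw [h]⟩
    rw [if_congr h3 rfl rfl]
  rw [h2] at h1
  have h3 : ∑ x, (if resEmb hle x = resEmb hle φ then w x - w (act c x) else 0) = 0 := by
    have h4 : ∀ x, (if resEmb hle x = resEmb hle φ then w x - w (act c x) else 0) =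
        (if resEmb hle x = resEmb hle φ then w x else 0) -
        (if resEmb hle x = resEmb hle φ then w (act c x) else 0) := by
      intro x
      split_ifs
      · rfl
      · rw [sub_zero]
    rw [Finset.sum_congr rfl fun x _ => h4 x, Finset.sum_sub_distrib, h1, sub_self]
  -- every term is zero or `u φ`
  have h4 : ∀ x, (if resEmb hle x = resEmb hle φ then w x - w (act c x) else 0) =
      if resEmb hle x = resEmb hle φ ∧ w x ≠ w (act c x) then w φ - w (act c φ) else 0 := by
    intro x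
    by_cases hx : resEmb hle x = resEmb hle φ
    · by_cases hx' : w x = w (act c x)
      · rw [if_pos hx, if_neg (fun h5 => h5.2 hx'), hx', sub_self]
      · rw [if_pos hx, if_pos ⟨hx, hx'⟩]
        have hn3 : x ≠ ψ := fun h1 => hx' (by rw [h1]; exact hψ)
        have hn4 : x ≠ act c ψ := fun h1 => hx' (by rw [h1, act_act hc]; exact hψ.symm)
        rcases h φ x hx.symm hn1 hn2 hn3 hn4 with h5 | h5 | h5
        · have h6 : w φ = w x := wgt_conj T hK h5
          have h7 : w (act c φ) = w (act c x) := wgt_conj T hK (conj_c hE h5)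
          rw [h6, h7]
        · exact absurd (hself φ h5) hne
        · exact absurd (hself x h5) hx'
    · rw [if_neg hx, if_neg (fun h5 => hx h5.1)]
  rw [Finset.sum_congr rfl fun x _ => h4 x, ← Finset.sum_filter, Finset.sum_const,
    nsmul_eq_mul] at h3
  rcases mul_eq_zero.1 h3 with h5 | h5
  · have h6 : φ ∈ Finset.univ.filter fun x : Emb E =>
        resEmb hle x = resEmb hle φ ∧ w x ≠ w (act c x) := by
      rw [Finset.mem_filter]
      exact ⟨Finset.mem_univ _, rfl, hne⟩
    have h7 := Finset.card_pos.2 ⟨_, h6⟩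
    have h8 : (Finset.univ.filter fun x : Emb E =>
        resEmb hle x = resEmb hle φ ∧ w x ≠ w (act c x)).card = 0 := by
      exact_mod_cast h5
    omega
  · exact hne (sub_eq_zero.1 h5)

end Pool.Agent.X310.Col
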