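import Pool.Agent.X208.CZ.Law

/-! Definitions for the conjugacy of embeddings and for the known cases of Colmez's formula. -/

set_option autoImplicit false

namespace Pool.Agent.X310.Col

open Pool.Agent.X208.BR.Pk Pool.Agent.X208.CZ

/-- `φ` and `φ'` are conjugate by an element of the Galois group of `ℚ` which fixes `ψ`. -/
def Conj {E : Fld} (ψ φ φ' : Emb E) : Prop := ∃ σ : GalQ, act σ ψ = ψ ∧ act σ φ = φ'

/-- The number of the embeddings conjugate to `φ` (by elements fixing `ψ`) which are in `Φ`, minus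
the number of those which are not in `Φ`. -/
noncomputable def excess {E : Fld} (ψ : Emb E) (Φ : Set (Emb E)) (φ : Emb E) : ℤ :=
  ({x | Conj ψ φ x ∧ x ∈ Φ}.ncard : ℤ) - {x | Conj ψ φ x ∧ x ∉ Φ}.ncard

/-- Two known facts on heights of CM types: the heights for `ψ` and its complex conjugate add up to
`log 2π = Z^∞(1)`, and the averaged formula (Andreatta–Goren–Howard–Madapusi Pera, Yuan–Zhang):
the sum of `ht(E, ψ, Φ) - Z^∞((a⁰)^*, 0)` over all CM types `Φ` of `E` and all `ψ ∈ Φ` is zero. -/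
structure Known {c : GalQ} (T : ColmezData c) : Prop where
  conj : ∀ {E : Fld}, IsCM c E → ∀ (ψ : Emb E) (Φ : Set (Emb E)), IsType c Φ →
    T.ht ψ Φ + T.ht (act c ψ) Φ = T.Z fun _ => 1
  average : ∀ {E : Fld}, IsCM c E → ∀ K : Fld, Over K E →
    ∑ᶠ p : {p : Emb E × Set (Emb E) // IsType c p.2 ∧ p.1 ∈ p.2},
      (T.ht p.1.1 p.1.2 - T.Z (a0 K p.1.1 p.1.2)) = 0

end Pool.Agent.X310.Col
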