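import Pool.Agent.X310.RqDefs

/-!
# Abelian groups with restriction and transfer
-/

set_option autoImplicit false

namespace Pool.Agent.X310.Fg

/-- The restrictions and transfers for a free action of the finite group `G` on a scheme `Y`: `A` is a cohomology group of
`Y` with the action of `G`, and `B D` is the same cohomology group of `Y/D`, for the subgroups `D` of `G`. Restriction
after transfer is the sum of the elements of `D`, transfer after restriction is the multiplication by the order of
`D`. The `n`-torsion subgroups are finite. -/
structure TransferData (G : Type) [Group G] where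
  A : Type
  [grpA : AddCommGroup A]
  act : Representation ℤ G A
  B : Subgroup G → Type
  [grpB : ∀ D, AddCommGroup (B D)]
  res : ∀ D, B D →ₗ[ℤ] A
  cor : ∀ D, A →ₗ[ℤ] B D
  res_cor : ∀ D x, res D (cor D x) = ∑ᶠ d : D, act d x
  cor_res : ∀ D y, cor D (res D y) = Nat.card D • y
  torsion_A : ∀ n : ℕ, n ≠ 0 → {x : A | n • x = 0}.Finite
  torsion_B : ∀ D, ∀ n : ℕ, n ≠ 0 → {y : B D | n • y = 0}.Finite

attribute [instance] TransferData.grpA TransferData.grpB

end Pool.Agent.X310.Fg
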