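import Pool.Agent.X310.RqA
import Pool.Agent.X310.FgDefs

set_option autoImplicit false
set_option linter.unusedSectionVars false

namespace Pool.Agent.X310.Fg

open Pool.Agent.X310.Rq

variable {G : Type} [Group G] [Finite G]

abbrev ZG (G : Type) [Group G] := MonoidAlgebra ℤ G

noncomputable def toQ (G : Type) [Group G] : ZG G →+* R G :=
  MonoidAlgebra.mapRingHom G (Int.castRingHom ℚ)

theorem toQ_of (g : G) : toQ G (MonoidAlgebra.of ℤ G g) = MonoidAlgebra.of ℚ G g := by
  simp [toQ]

theorem toQ_inj : Function.Injective (toQ G) := by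
  intro x y h
  ext g
  have h1 := congrArg (fun f : R G => f.coeff g) h
  simpa [toQ] using h1

theorem den (r : R G) : ∃ (m : ℕ) (r' : ZG G), m ≠ 0 ∧ toQ G r' = m • r := by
  induction r using MonoidAlgebra.induction_on with
  | of g => exact ⟨1, MonoidAlgebra.of ℤ G g, one_ne_zero, by rw [toQ_of, one_smul]⟩
  | add a b ha hb =>
    obtain ⟨m, a', hm, ha⟩ := ha
    obtain ⟨n, b', hn, hb⟩ := hb
    refine ⟨m * n, n • a' + m • b', mul_ne_zero hm hn, ?_⟩
    rw [map_add, map_nsmul, map_nsmul, ha, hb, smul_add, smul_smul, smul_smul, mul_comm n m]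
  | smul q a ha =>
    obtain ⟨m, a', hm, ha⟩ := ha
    refine ⟨m * q.den, q.num • a', mul_ne_zero hm q.den_ne_zero, ?_⟩
    rw [map_zsmul, ha, ← Int.cast_smul_eq_zsmul ℚ, ← Nat.cast_smul_eq_nsmul ℚ, ← Nat.cast_smul_eq_nsmul ℚ,
      smul_smul, smul_smul]
    congr 1
    push_cast
    have h := Rat.mul_den_eq_num q
    rw [mul_assoc, mul_comm (q.den : ℚ) q, h]
    ring

variable (T : TransferData G)

noncomputable def act' : ZG G →ₐ[ℤ] Module.End ℤ T.A := MonoidAlgebra.lift ℤ (Module.End ℤ T.A) G T.act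

theorem act'_of (g : G) : act' T (MonoidAlgebra.of ℤ G g) = T.act g := MonoidAlgebra.lift_of T.act g

/-- The sum of the elements of `D`. -/
noncomputable def sumD (D : Subgroup G) : ZG G := ∑ᶠ d : D, MonoidAlgebra.of ℤ G (d : G)

theorem sumD_act (D : Subgroup G) (x : T.A) : act' T (sumD D) x = T.res D (T.cor D x) := by
  haveI : Fintype D := Fintype.ofFinite D
  rw [T.res_cor, sumD, finsum_eq_sum_of_fintype, finsum_eq_sum_of_fintype, map_sum, LinearMap.sum_apply]
  simp only [act'_of]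

theorem sumD_toQ (D : Subgroup G) : toQ G (sumD D) = Nat.card D • mean (MonoidAlgebra.of ℚ G) D := by
  haveI : Fintype D := Fintype.ofFinite D
  rw [sumD, finsum_eq_sum_of_fintype, map_sum, mean_sum, ← Nat.cast_smul_eq_nsmul ℚ, smul_smul,
    mul_inv_cancel₀ (by exact_mod_cast Nat.card_pos.ne'), one_smul]
  simp only [toQ_of]

theorem stable (S : Submodule ℤ T.A) (hS : ∀ g, ∀ x ∈ S, T.act g x ∈ S) (r : ZG G) (x : T.A) (hx : x ∈ S) :
    act' T r x ∈ S := by
  induction r using MonoidAlgebra.induction_on with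
  | of g =>
    rw [act'_of]
    exact hS g x hx
  | add a b ha hb =>
    rw [map_add, LinearMap.add_apply]
    exact S.add_mem ha hb
  | smul q a ha =>
    rw [map_smul, LinearMap.smul_apply]
    exact S.smul_mem q ha

theorem bounded {ι : Type} (D : ι → Subgroup G) (hD : IsRich D) (S : Submodule ℤ T.A)
    (hS : ∀ g, ∀ x ∈ S, T.act g x ∈ S) (hres : ∀ i y, T.res (D i) y ∈ S) :
    ∃ n : ℕ, n ≠ 0 ∧ ∀ x : T.A, n • x ∈ S := by
  have key : ∀ x ∈ Submodule.span (R G) {y | ∃ i b, y = mean (MonoidAlgebra.of ℚ G) (D i) * b},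
      ∃ (n : ℕ) (y : ZG G), n ≠ 0 ∧ toQ G y = n • x ∧ ∀ a : T.A, act' T y a ∈ S := by
    intro x hx
    induction hx using Submodule.span_induction with
    | mem y hy =>
      obtain ⟨i, b, rfl⟩ := hy
      obtain ⟨m, b', hm, hb⟩ := den b
      refine ⟨Nat.card (D i) * m, sumD (D i) * b', mul_ne_zero Nat.card_pos.ne' hm, ?_, fun a => ?_⟩
      · rw [map_mul, sumD_toQ, hb, smul_mul_smul_comm]
      · rw [map_mul, Module.End.mul_apply, sumD_act]
        exact hres i _
    | zero => exact ⟨1, 0, one_ne_zero, by simp, fun a => by simp⟩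
    | add y z _ _ h1 h2 =>
      obtain ⟨m, y', hm, hy, hy'⟩ := h1
      obtain ⟨n, z', hn, hz, hz'⟩ := h2
      refine ⟨m * n, n • y' + m • z', mul_ne_zero hm hn, ?_, fun a => ?_⟩
      · rw [map_add, map_nsmul, map_nsmul, hy, hz, smul_add, smul_smul, smul_smul, mul_comm n m]
      · rw [map_add, map_nsmul, map_nsmul, LinearMap.add_apply, LinearMap.smul_apply, LinearMap.smul_apply]
        exact S.add_mem (S.smul_of_tower_mem n (hy' a)) (S.smul_of_tower_mem m (hz' a))
    | smul r y _ h =>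
      obtain ⟨n, y', hn, hy, hy'⟩ := h
      obtain ⟨m, r', hm, hr⟩ := den r
      refine ⟨m * n, r' * y', mul_ne_zero hm hn, ?_, fun a => ?_⟩
      · rw [map_mul, hr, hy, smul_eq_mul, smul_mul_smul_comm]
      · rw [map_mul, Module.End.mul_apply]
        exact stable T S hS r' _ (hy' a)
  have h1 : (1 : R G) ∈ Submodule.span (R G) {y | ∃ i b, y = mean (MonoidAlgebra.of ℚ G) (D i) * b} := by
    obtain ⟨κ, _, i, a, b, h2⟩ := one_inIdeal D hD
    rw [h2]
    exact Submodule.sum_mem _ fun j _ => Submodule.smul_mem _ (a j) (Submodule.subset_span ⟨i j, b j, rfl⟩)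
  obtain ⟨n, y, hn, hy, hy'⟩ := key 1 h1
  refine ⟨n, hn, fun x => ?_⟩
  have h3 : y = n • (1 : ZG G) := toQ_inj (by rw [hy, map_nsmul, map_one])
  have h4 := hy' x
  rw [h3, map_nsmul, map_one, LinearMap.smul_apply, Module.End.one_apply] at h4
  exact h4

theorem fg_of_bounded {M : Type} [AddCommGroup M] (n : ℕ) (htor : {x : M | n • x = 0}.Finite)
    (S : Submodule ℤ M) (hS : S.FG) (h : ∀ x : M, n • x ∈ S) : Module.Finite ℤ M := by
  let f : M →ₗ[ℤ] M := LinearMap.lsmul ℤ M (n : ℤ)
  have hf : ∀ x, f x = n • x := fun x => by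
    change (n : ℤ) • x = n • x
    exact natCast_zsmul x n
  refine ⟨Submodule.fg_of_fg_map_of_fg_inf_ker f ?_ ?_⟩
  · haveI : Module.Finite ℤ S := Module.Finite.iff_fg.2 hS
    haveI : IsNoetherian ℤ S := isNoetherian_of_isNoetherianRing_of_finite ℤ S
    have hle : Submodule.map f ⊤ ≤ S := by
      rintro _ ⟨x, -, rfl⟩
      rw [hf]
      exact h x
    have h1 : (Submodule.comap S.subtype (Submodule.map f ⊤)).FG := IsNoetherian.noetherian _
    have h2 := h1.map S.subtype
    rwa [Submodule.map_comap_subtype, inf_eq_right.2 hle] at h2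
  · have hfin : Finite (⊤ ⊓ LinearMap.ker f : Submodule ℤ M) := by
      have h1 : ((⊤ ⊓ LinearMap.ker f : Submodule ℤ M) : Set M) = {x : M | n • x = 0} := by
        ext x
        simp [hf]
      exact (h1 ▸ htor : ((⊤ ⊓ LinearMap.ker f : Submodule ℤ M) : Set M).Finite).to_subtype
    exact Module.Finite.iff_fg.1 Module.Finite.of_finite

theorem fg_rich {ι : Type} (D : ι → Subgroup G) (hD : IsRich D) :
    Module.Finite ℤ T.A ↔ ∀ i, Module.Finite ℤ (T.B (D i)) := by
  constructor
  · intro h i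
    refine fg_of_bounded (Nat.card (D i)) (T.torsion_B _ _ Nat.card_pos.ne') (LinearMap.range (T.cor (D i)))
      (Module.Finite.iff_fg.1 inferInstance) fun y => ⟨T.res (D i) y, T.cor_res _ y⟩
  · intro h
    let S : Submodule ℤ T.A := ⨆ p : G × Set.range D, Submodule.map (T.act p.1) (LinearMap.range (T.res p.2))
    have hfin : Finite (Subgroup G) := inferInstance
    have hS : S.FG := by
      refine Submodule.fg_iSup _ ?_
      rintro ⟨g, _, i, rfl⟩
      have := h i
      exact (Module.Finite.iff_fg.1 (inferInstance : Module.Finite ℤ (LinearMap.range (T.res (D i))))).map _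
    have hst : ∀ g, ∀ x ∈ S, T.act g x ∈ S := by
      intro g x hx
      have h1 : S ≤ Submodule.comap (T.act g) S := by
        refine iSup_le ?_
        rintro ⟨g', d⟩ _ ⟨y, hy, rfl⟩
        change T.act g (T.act g' y) ∈ S
        rw [← Module.End.mul_apply, ← map_mul]
        exact Submodule.mem_iSup_of_mem (g * g', d) ⟨y, hy, rfl⟩
      exact h1 hx
    obtain ⟨n, hn, h1⟩ := bounded T D hD S hst fun i y =>
      Submodule.mem_iSup_of_mem (1, ⟨D i, i, rfl⟩) ⟨T.res (D i) y, ⟨y, rfl⟩, by simp⟩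
    exact fg_of_bounded n (T.torsion_A n hn) S hS h1

end Pool.Agent.X310.Fg
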