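import Mathlib

/-! A function on a finite commutative group with values in a rational vector space vanishes if
for every character either the function is invariant under an element on which the character is
nontrivial, or the sums over the cosets of the kernel vanish. -/

set_option autoImplicit false

namespace Pool.Agent.X310.Gd

open Finset

variable {G : Type} [CommGroup G] [Fintype G] {V : Type} [AddCommGroup V] [Module ℚ V]

/-- translation -/
def tr (γ : G) : (G → V) →ₗ[ℚ] (G → V) where
  toFun δ := fun u => δ (u * γ)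
  map_add' _ _ := rfl
  map_smul' _ _ := rfl

/-- translations as a homomorphism -/
def trHom : G →* Module.End ℚ (G → V) where
  toFun := tr
  map_one' := by
    ext δ u
    simp [tr]
  map_mul' x y := by
    refine LinearMap.ext fun δ => ?_
    funext u
    change δ (u * (x * y)) = δ (u * x * y)
    rw [mul_assoc]

/-- the action of the group ring -/
noncomputable def actHom : MonoidAlgebra ℚ G →ₐ[ℚ] Module.End ℚ (G → V) :=
  MonoidAlgebra.lift ℚ (Module.End ℚ (G → V)) G trHom

theorem actHom_of (v : G) (δ : G → V) : actHom (MonoidAlgebra.of ℚ G v) δ = fun u => δ (u * v) := by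
  unfold actHom
  rw [MonoidAlgebra.lift_of]
  rfl

/-- the annihilator -/
noncomputable def annI (δ : G → V) : Ideal (MonoidAlgebra ℚ G) where
  carrier := {a | actHom a δ = 0}
  add_mem' := by
    intro a b ha hb
    change actHom (a + b) δ = 0
    rw [map_add, LinearMap.add_apply]
    rw [show actHom a δ = 0 from ha, show actHom b δ = 0 from hb, add_zero]
  zero_mem' := by
    change actHom 0 δ = 0
    rw [map_zero]
    rfl
  smul_mem' := by
    intro a b hb
    change actHom (a * b) δ = 0
    rw [map_mul]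
    change actHom a (actHom b δ) = 0
    rw [show actHom b δ = 0 from hb, map_zero]

theorem vanish (δ : G → V)
    (h : ∀ (L : Type) [Field L] [CharZero L] (χ : G →* L),
      (∃ v, (∀ u, δ (u * v) = δ u) ∧ χ v ≠ 1) ∨ (∀ u, ∑ᶠ v : χ.ker, δ (u * v) = 0)) : δ = 0 := by
  classical
  by_contra hne
  have hI : annI δ ≠ ⊤ := by
    intro h1
    have h2 : (1 : MonoidAlgebra ℚ G) ∈ annI δ := by
      rw [h1]
      exact Submodule.mem_top
    apply hne
    have h3 : actHom (1 : MonoidAlgebra ℚ G) δ = 0 := h2
    rw [map_one] at h3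
    exact h3
  obtain ⟨M, hM, hle⟩ := Ideal.exists_le_maximal _ hI
  letI : Field (MonoidAlgebra ℚ G ⧸ M) := Ideal.Quotient.field M
  have hchar : CharZero (MonoidAlgebra ℚ G ⧸ M) :=
    charZero_of_injective_algebraMap (algebraMap ℚ (MonoidAlgebra ℚ G ⧸ M)).injective
  let χ : G →* (MonoidAlgebra ℚ G ⧸ M) :=
    ((Ideal.Quotient.mk M : MonoidAlgebra ℚ G →+* MonoidAlgebra ℚ G ⧸ M) :
      MonoidAlgebra ℚ G →* MonoidAlgebra ℚ G ⧸ M).comp (MonoidAlgebra.of ℚ G)
  have hχ : ∀ v, χ v = Ideal.Quotient.mk M (MonoidAlgebra.of ℚ G v) := fun v => rfl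
  rcases h _ χ with ⟨v, h1, h2⟩ | h1
  · apply h2
    have h3 : MonoidAlgebra.of ℚ G v - 1 ∈ annI δ := by
      change actHom (MonoidAlgebra.of ℚ G v - 1) δ = 0
      rw [map_sub, map_one, LinearMap.sub_apply, actHom_of]
      funext u
      change δ (u * v) - δ u = 0
      rw [h1, sub_self]
    have h4 := Ideal.Quotient.eq_zero_iff_mem.2 (hle h3)
    rw [map_sub, map_one] at h4
    rw [hχ]
    exact sub_eq_zero.1 h4
  · have h3 : (∑ v : χ.ker, MonoidAlgebra.of ℚ G (v : G)) ∈ annI δ := by
      change actHom (∑ v : χ.ker, MonoidAlgebra.of ℚ G (v : G)) δ = 0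
      rw [map_sum, LinearMap.sum_apply]
      funext u
      rw [Finset.sum_apply]
      have h4 := h1 u
      rw [finsum_eq_sum_of_fintype] at h4
      refine Eq.trans (Finset.sum_congr rfl fun v _ => ?_) h4
      rw [actHom_of]
    have h4 := Ideal.Quotient.eq_zero_iff_mem.2 (hle h3)
    rw [map_sum] at h4
    have h5 : ∀ v : χ.ker, Ideal.Quotient.mk M (MonoidAlgebra.of ℚ G (v : G)) = 1 := fun v =>
      (hχ v).symm.trans (MonoidHom.mem_ker.1 v.2)
    rw [Finset.sum_congr rfl fun v _ => h5 v, Finset.sum_const, nsmul_eq_mul, mul_one] at h4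
    have h6 : (Finset.univ : Finset χ.ker).card = 0 := by exact_mod_cast h4
    have h7 : 0 < (Finset.univ : Finset χ.ker).card := Finset.card_pos.2 ⟨1, Finset.mem_univ _⟩
    omega

end Pool.Agent.X310.Gd
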