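import Pool.Agent.X310.GdDefs
import Pool.Agent.X310.GdA

set_option autoImplicit false

namespace Pool.Agent.X310.Gd

open Finset

variable {d : ℕ} [NeZero d] {V : Type} [AddCommGroup V] [Module ℚ V]

/-- multiplication by a unit -/
def mulE (u : (ZMod d)ˣ) : ZMod d ≃ ZMod d := Units.mulLeft u

theorem reindex (ε : ZMod d → ℚ) (f : ZMod d → V) (u : (ZMod d)ˣ) :
    ∑ a, ε (a * (u⁻¹ : (ZMod d)ˣ)) • f a = ∑ a, ε a • f (u * a) := by
  rw [← Equiv.sum_comp (mulE u)]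
  refine sum_congr rfl fun a _ => ?_
  have h1 : (mulE u a) * ((u⁻¹ : (ZMod d)ˣ) : ZMod d) = a := by
    change (u : ZMod d) * a * ((u⁻¹ : (ZMod d)ˣ) : ZMod d) = a
    rw [mul_comm (u : ZMod d) a, mul_assoc, Units.mul_inv, mul_one]
  rw [h1]
  rfl

variable (Γ : GammaClasses d V)

/-- the gamma side -/
noncomputable def gs (ε : ZMod d → ℚ) (u : (ZMod d)ˣ) : V := ∑ a, ε a • Γ.g (u * a)

theorem holds_iff (p : (ZMod d)ˣ → ℤ) (P : (ZMod d)ˣ → V) :
    Γ.Holds p P ↔ ∀ ε, Represents ε p → ∀ u, P u = gs Γ ε u := by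
  unfold GammaClasses.Holds gs
  simp only [reindex]

theorem gs_sub (ε ε' : ZMod d → ℚ) (u : (ZMod d)ˣ) :
    gs Γ (fun a => ε a - ε' a) u = gs Γ ε u - gs Γ ε' u := by
  unfold gs
  rw [← sum_sub_distrib]
  exact sum_congr rfl fun a _ => sub_smul _ _ _

/-- Koblitz–Ogus: the gamma side depends on `p` only. -/
theorem gs_unique {ε ε' : ZMod d → ℚ} {p : (ZMod d)ˣ → ℤ} (h : Represents ε p)
    (h' : Represents ε' p) (u : (ZMod d)ˣ) : gs Γ ε u = gs Γ ε' u := by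
  rw [← sub_eq_zero, ← gs_sub]
  refine Γ.koblitz_ogus _ (fun v => ?_) u
  have h1 := h v
  have h2 := h' v
  rw [h1] at h2
  simp only [sub_mul]
  rw [sum_sub_distrib, h2, sub_self]

theorem holds_of_one {ε : ZMod d → ℚ} {p : (ZMod d)ˣ → ℤ} {P : (ZMod d)ˣ → V}
    (h : Represents ε p) (hP : ∀ u, P u = gs Γ ε u) : Γ.Holds p P := by
  rw [holds_iff]
  intro ε' h' u
  rw [hP, gs_unique Γ h h']

/-- translation of `ε`. -/
theorem rep_tr {ε : ZMod d → ℚ} {p : (ZMod d)ˣ → ℤ} (h : Represents ε p) (v : (ZMod d)ˣ) :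
    Represents (fun a : ZMod d => ε (a * (v⁻¹ : (ZMod d)ˣ))) (fun u => p (u * v)) := by
  intro u
  have h1 := h (u * v)
  rw [h1]
  have h2 := reindex (V := ℚ) ε (fun a => ((u * a : ZMod d).val : ℚ)) v
  simp only [smul_eq_mul] at h2
  rw [h2]
  refine sum_congr rfl fun a _ => ?_
  rw [Units.val_mul, mul_assoc]

theorem gs_tr (ε : ZMod d → ℚ) (u v : (ZMod d)ˣ) :
    gs Γ (fun a : ZMod d => ε (a * (v⁻¹ : (ZMod d)ˣ))) u = gs Γ ε (u * v) := by
  unfold gs
  rw [reindex ε (fun a => Γ.g (u * a)) v]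
  refine sum_congr rfl fun a _ => ?_
  rw [Units.val_mul, mul_assoc]

theorem gs_inv {ε : ZMod d → ℚ} {p : (ZMod d)ˣ → ℤ} (h : Represents ε p) {v : (ZMod d)ˣ}
    (hv : ∀ u, p (u * v) = p u) (u : (ZMod d)ˣ) : gs Γ ε (u * v) = gs Γ ε u := by
  have h1 := rep_tr h v
  simp only [hv] at h1
  rw [← gs_tr]
  exact gs_unique Γ h1 h u

theorem rep_add {ε ε' : ZMod d → ℚ} {p p' : (ZMod d)ˣ → ℤ} (h : Represents ε p)
    (h' : Represents ε' p') : Represents (fun a => ε a + ε' a) (p + p') := by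
  intro u
  simp only [add_mul, Pi.add_apply]
  rw [sum_add_distrib, ← h u, ← h' u]
  push_cast
  ring

theorem gs_add (ε ε' : ZMod d → ℚ) (u : (ZMod d)ˣ) :
    gs Γ (fun a => ε a + ε' a) u = gs Γ ε u + gs Γ ε' u := by
  unfold gs
  rw [← sum_add_distrib]
  exact sum_congr rfl fun a _ => add_smul _ _ _

theorem rep_sum {ι : Type} (s : Finset ι) (ε : ι → ZMod d → ℚ) (p : ι → (ZMod d)ˣ → ℤ)
    (h : ∀ i ∈ s, Represents (ε i) (p i)) :
    Represents (fun a => ∑ i ∈ s, ε i a) (fun u => ∑ i ∈ s, p i u) := by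
  intro u
  simp only [sum_mul]
  rw [sum_comm]
  push_cast
  rw [mul_sum]
  exact sum_congr rfl fun i hi => h i hi u

theorem gs_sum {ι : Type} (s : Finset ι) (ε : ι → ZMod d → ℚ) (u : (ZMod d)ˣ) :
    gs Γ (fun a => ∑ i ∈ s, ε i a) u = ∑ i ∈ s, gs Γ (ε i) u := by
  unfold gs
  rw [sum_comm]
  refine sum_congr rfl fun a _ => ?_
  rw [sum_smul]

theorem val_neg (a : ZMod d) (ha : a ≠ 0) : ((-a : ZMod d).val : ℚ) = d - (a.val : ℚ) := by
  have h1 : (-a).val = d - a.val := by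
    rw [ZMod.neg_val]
    rw [if_neg ha]
  rw [h1, Nat.cast_sub (ZMod.val_lt a).le]

/-- the gamma side of a constant type. -/
theorem gs_const {ε : ZMod d → ℚ} {k : ℤ} (h : Represents ε fun _ => k) (u : (ZMod d)ˣ) :
    gs Γ ε u = (k : ℚ) • Γ.ϖ := by
  have h1 : gs Γ ε (u * -1) = gs Γ ε u := gs_inv Γ h (fun _ => rfl) u
  have h2 : gs Γ ε u + gs Γ ε (u * -1) = (∑ a ∈ univ.erase 0, ε a) • Γ.ϖ := by
    unfold gs
    rw [← sum_add_distrib, ← Finset.add_sum_erase _ _ (mem_univ (0 : ZMod d))]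
    rw [mul_zero, mul_zero, Γ.g_zero, smul_zero, add_zero, zero_add, sum_smul]
    refine sum_congr rfl fun a ha => ?_
    have ha' : (u : ZMod d) * a ≠ 0 := by
      intro h3
      exact (Finset.ne_of_mem_erase ha) ((Units.mul_right_eq_zero u).1 h3)
    rw [← smul_add]
    congr 1
    have h4 : ((u * -1 : (ZMod d)ˣ) : ZMod d) * a = -(u * a) := by
      rw [Units.val_mul, Units.val_neg, Units.val_one]
      ring
    rw [h4]
    exact Γ.refl _ ha'
  have h3 : ∑ a ∈ univ.erase 0, ε a = 2 * k := by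
    have h4 := h u
    have h5 := h (u * -1)
    have h6 : (d : ℚ) * k + (d : ℚ) * k = d * ∑ a ∈ univ.erase 0, ε a := by
      nth_rewrite 1 [h4]
      rw [h5, ← sum_add_distrib, ← Finset.add_sum_erase _ _ (mem_univ (0 : ZMod d))]
      rw [mul_zero, mul_zero, ZMod.val_zero, Nat.cast_zero, mul_zero, add_zero, zero_add, mul_sum]
      refine sum_congr rfl fun a ha => ?_
      have ha' : (u : ZMod d) * a ≠ 0 := by
        intro h3
        exact (Finset.ne_of_mem_erase ha) ((Units.mul_right_eq_zero u).1 h3)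
      have h7 : ((u * -1 : (ZMod d)ˣ) : ZMod d) * a = -(u * a) := by
        rw [Units.val_mul, Units.val_neg, Units.val_one]
        ring
      rw [h7, val_neg _ ha']
      ring
    have hd : (d : ℚ) ≠ 0 := by exact_mod_cast NeZero.ne d
    have h8 : (d : ℚ) * (2 * k) = d * ∑ a ∈ univ.erase 0, ε a := by
      rw [← h6]
      ring
    exact (mul_left_cancel₀ hd h8).symm
  rw [h1, h3, ← two_smul ℚ, mul_smul] at h2
  have h4 : (2 : ℚ) ≠ 0 := two_ne_zero
  have h5 := congrArg (fun x => (2 : ℚ)⁻¹ • x) h2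
  simp only [smul_smul, inv_mul_cancel₀ h4, one_smul] at h5
  rw [h5, ← mul_assoc, inv_mul_cancel₀ h4, one_mul]

end Pool.Agent.X310.Gd
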