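import Pool.Agent.X310.GdB

set_option autoImplicit false

namespace Pool.Agent.X310.Gd

open Finset

variable {d : ℕ} [NeZero d] {V : Type} [AddCommGroup V] [Module ℚ V] {Γ : GammaClasses d V}

theorem isCyc_ker {L : Type} [Field L] (χ : (ZMod d)ˣ →* L) : IsCyc χ.ker := by
  unfold IsCyc
  refine isCyclic_of_subgroup_isDomain (QuotientGroup.lift χ.ker χ le_rfl) ?_
  intro x y hxy
  obtain ⟨a, rfl⟩ := QuotientGroup.mk_surjective x
  obtain ⟨b, rfl⟩ := QuotientGroup.mk_surjective y
  rw [QuotientGroup.eq, MonoidHom.mem_ker, map_mul]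
  have h1 : χ a = χ b := hxy
  rw [← h1, ← map_mul, inv_mul_cancel, map_one]

theorem all_of_cyclic (S : System Γ)
    (h : ∀ U m p P, S.Adm U m p P → IsCyc U → Γ.Holds p P) :
    ∀ U m p P, S.Adm U m p P → Γ.Holds p P := by
  classical
  intro U m p P hA
  obtain ⟨ε, hε⟩ := S.represented hA
  refine holds_of_one Γ hε ?_
  have key : (fun u => P u - gs Γ ε u) = 0 := by
    refine vanish _ fun L _ _ χ => ?_
    by_cases hU : U ≤ χ.ker
    · right
      intro u
      obtain ⟨m', p', P', hA', hp', hP'⟩ := S.det hA χ.ker hU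
      have hH := (holds_iff Γ p' P').1 (h _ _ _ _ hA' (isCyc_ker χ))
      have hcard : (Nat.card U : ℚ) ≠ 0 := by
        exact_mod_cast Nat.card_pos.ne'
      set ε' : ZMod d → ℚ := fun a => (Nat.card U : ℚ)⁻¹ *
        ∑ v : χ.ker, ε (a * (((v : (ZMod d)ˣ))⁻¹ : (ZMod d)ˣ)) with hε'
      have hrep : Represents ε' p' := by
        intro u
        have h1 := rep_sum (univ : Finset χ.ker)
          (fun (v : χ.ker) (a : ZMod d) => ε (a * (((v : (ZMod d)ˣ))⁻¹ : (ZMod d)ˣ)))
          (fun v u => p (u * v)) (fun v _ => rep_tr hε (v : (ZMod d)ˣ)) u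
        have h2 := hp' u
        rw [finsum_eq_sum_of_fintype] at h2
        simp only at h1
        rw [← h2] at h1
        push_cast at h1
        rw [hε']
        simp only [mul_assoc]
        rw [← mul_sum, ← h1]
        field_simp
      have h3 := hH ε' hrep u
      have h4 : gs Γ ε' u = (Nat.card U : ℚ)⁻¹ • ∑ v : χ.ker, gs Γ ε (u * v) := by
        have h5 : gs Γ ε' u = (Nat.card U : ℚ)⁻¹ • gs Γ (fun a => ∑ v : χ.ker,
            ε (a * (((v : (ZMod d)ˣ))⁻¹ : (ZMod d)ˣ))) u := by
          unfold gs
          rw [smul_sum]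
          refine sum_congr rfl fun a _ => ?_
          rw [hε', mul_smul]
        rw [h5, gs_sum]
        congr 1
        exact sum_congr rfl fun v _ => gs_tr Γ ε u v
      rw [finsum_eq_sum_of_fintype, sum_sub_distrib]
      have h6 := hP' u
      rw [finsum_eq_sum_of_fintype] at h6
      rw [← h6, h3, h4, smul_smul, mul_inv_cancel₀ hcard, one_smul, sub_self]
    · left
      rw [SetLike.not_le_iff_exists] at hU
      obtain ⟨v, hv, hv'⟩ := hU
      refine ⟨v, fun u => ?_, fun h1 => hv' (MonoidHom.mem_ker.2 h1)⟩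
      rw [S.inv_per hA u v hv, gs_inv Γ hε (fun u => S.inv_type hA u v hv) u]
  intro u
  exact sub_eq_zero.1 (congrFun key u)

/-- the subgroup generated by `U` and `-1` -/
def pm (U : Subgroup (ZMod d)ˣ) : Subgroup (ZMod d)ˣ where
  carrier := {x | x ∈ U ∨ -x ∈ U}
  mul_mem' := by
    rintro a b (ha | ha) (hb | hb)
    · exact Or.inl (U.mul_mem ha hb)
    · right
      have := U.mul_mem ha hb
      rwa [mul_neg] at this
    · right
      have := U.mul_mem ha hb
      rwa [neg_mul] at this
    · left
      have := U.mul_mem ha hb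
      rwa [neg_mul_neg] at this
  one_mem' := Or.inl U.one_mem
  inv_mem' := by
    rintro a (ha | ha)
    · exact Or.inl (U.inv_mem ha)
    · right
      have := U.inv_mem ha
      rwa [inv_neg] at this

theorem exists_sign (U : Subgroup (ZMod d)ˣ) (hU : -1 ∉ U) :
    ∃ s : (ZMod d)ˣ → Prop, (∀ u, ∀ v ∈ U, (s (u * v) ↔ s u)) ∧ ∀ u, (s (-u) ↔ ¬ s u) := by
  have hr : ∀ u v : (ZMod d)ˣ, u⁻¹ * v ∈ pm U →
      (QuotientGroup.mk u : (ZMod d)ˣ ⧸ pm U) = QuotientGroup.mk v := fun u v h =>
    QuotientGroup.eq.2 h
  refine ⟨fun u => ((QuotientGroup.mk u : (ZMod d)ˣ ⧸ pm U).out)⁻¹ * u ∈ U, ?_, ?_⟩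
  · intro u v hv
    have h1 : (QuotientGroup.mk (u * v) : (ZMod d)ˣ ⧸ pm U) = QuotientGroup.mk u := by
      refine (hr u (u * v) ?_).symm
      rw [inv_mul_cancel_left]
      exact Or.inl hv
    simp only [h1]
    rw [← mul_assoc]
    exact U.mul_mem_cancel_right hv
  · intro u
    have h1 : (QuotientGroup.mk (-u) : (ZMod d)ˣ ⧸ pm U) = QuotientGroup.mk u := by
      refine (hr u (-u) ?_).symm
      right
      rw [mul_neg, neg_neg, inv_mul_cancel]
      exact U.one_mem
    simp only [h1]
    set x := ((QuotientGroup.mk u : (ZMod d)ˣ ⧸ pm U).out)⁻¹ * u with hx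
    have h2 : x ∈ pm U := QuotientGroup.eq.1 (QuotientGroup.out_eq' _)
    rw [mul_neg, ← hx]
    constructor
    · intro h3 h4
      apply hU
      have h5 := U.mul_mem h3 (U.inv_mem h4)
      rwa [neg_mul, mul_inv_cancel] at h5
    · intro h3
      rcases h2 with h2 | h2
      · exact absurd h2 h3
      · exact h2

theorem cyclic_of_const (S : System Γ)
    (h : ∀ U m p P, S.Adm U m p P → IsCyc U → ∀ k : ℤ, (∀ u, p u = k) →
      ∀ u, P u = (k : ℚ) • Γ.ϖ) :
    ∀ U m p P, S.Adm U m p P → IsCyc U → Γ.Holds p P := by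
  classical
  intro U m p P hA hcyc
  obtain ⟨ε, hε⟩ := S.represented hA
  refine holds_of_one Γ hε ?_
  by_cases hU : -1 ∈ U
  · -- constant type
    have h1 : ∀ u, p u = p 1 := by
      intro u
      have h2 := S.weight hA u
      have h3 := S.weight hA 1
      have h4 := S.inv_type hA u (-1) hU
      have h5 := S.inv_type hA 1 (-1) hU
      rw [mul_neg, mul_one] at h4 h5
      omega
    intro u
    have h2 : Represents ε fun _ => p 1 := by
      have : p = fun _ => p 1 := funext h1
      rwa [this] at hε
    rw [h U m p P hA hcyc (p 1) h1 u, gs_const Γ h2]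
  · obtain ⟨s, hs1, hs2⟩ := exists_sign U hU
    let φ : ℕ → (ZMod d)ˣ → ℤ := fun i u =>
      if s u then (if (i : ℤ) < p (-u) then 1 else 0) else (if p u ≤ i then 1 else 0)
    have hφ1 : ∀ i u, φ i u = 0 ∨ φ i u = 1 := by
      intro i u
      simp only [φ]
      split_ifs <;> simp
    have hφ2 : ∀ i u, φ i u + φ i (-u) = 1 := by
      intro i u
      simp only [φ, neg_neg]
      by_cases hs : s u
      · have h1 : ¬ s (-u) := fun h2 => (hs2 u).1 h2 hs
        rw [if_pos hs, if_neg h1]
        split_ifs <;> omega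
      · have h1 : s (-u) := (hs2 u).2 hs
        rw [if_neg hs, if_pos h1]
        split_ifs <;> omega
    have hφ3 : ∀ i u, ∀ v ∈ U, φ i (u * v) = φ i u := by
      intro i u v hv
      simp only [φ]
      have h1 := hs1 u v hv
      have h2 := S.inv_type hA u v hv
      have h3 := S.inv_type hA (-u) v hv
      rw [neg_mul] at h3
      rw [h2, h3, if_congr h1 rfl rfl]
    have hsum : ∀ u, ∑ i ∈ range m, φ i u = p (-u) := by
      intro u
      have h1 := S.weight hA u
      have h2 := S.nonneg hA u
      have h3 := S.nonneg hA (-u)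
      have hc1 : ∀ n : ℕ, ∀ t : ℤ, 0 ≤ t → t ≤ n →
          ∑ i ∈ range n, (if (i : ℤ) < t then (1 : ℤ) else 0) = t := by
        intro n
        induction n with
        | zero =>
          intro t h4 h5
          simp
          push_cast at h5
          omega
        | succ n ih =>
          intro t h4 h5
          rw [sum_range_succ]
          by_cases h6 : t ≤ n
          · rw [ih t h4 h6, if_neg (by omega), add_zero]
          · have h7 : t = n + 1 := by push_cast at h5; omega
            rw [if_pos (by omega)]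
            have h8 : ∑ i ∈ range n, (if (i : ℤ) < t then (1 : ℤ) else 0) = n := by
              have h9 := ih n (by omega) le_rfl
              rw [← h9]
              rw [h9]
              refine Eq.trans (sum_congr rfl fun i hi => ?_) h9
              rw [mem_range] at hi
              rw [if_pos (by omega), if_pos (by exact_mod_cast hi)]
            rw [h8, h7]
      by_cases hs : s u
      · have h4 : ∀ i ∈ range m, φ i u = if (i : ℤ) < p (-u) then 1 else 0 := by
          intro i _
          simp only [φ]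
          rw [if_pos hs]
        rw [sum_congr rfl h4]
        exact hc1 m _ h3 (by omega)
      · have h4 : ∀ i ∈ range m, φ i u = 1 - if (i : ℤ) < p u then 1 else 0 := by
          intro i _
          simp only [φ]
          rw [if_neg hs]
          split_ifs <;> omega
        rw [sum_congr rfl h4, sum_sub_distrib, hc1 m _ h2 (by omega), sum_const, card_range]
        simp
        omega
    have hex : ∀ i, ∃ P, S.Adm U 1 (φ i) P ∧ Γ.Holds (φ i) P := fun i =>
      S.cm U (φ i) hU (hφ1 i) (hφ2 i) (hφ3 i)
    choose Q hQ1 hQ2 using hex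
    choose e he using fun i => S.represented (hQ1 i)
    have hten : ∀ n : ℕ, S.Adm U (m + n) (fun u => p u + ∑ i ∈ range n, φ i u)
        (fun u => P u + ∑ i ∈ range n, Q i u) := by
      intro n
      induction n with
      | zero => simpa using hA
      | succ n ih =>
        have h1 := S.tensor ih (hQ1 n)
        have h2 : (fun u => p u + ∑ i ∈ range (n + 1), φ i u) =
            (fun u => p u + ∑ i ∈ range n, φ i u) + φ n := by
          funext u
          rw [Pi.add_apply, sum_range_succ]
          ring
        have h3 : (fun u => P u + ∑ i ∈ range (n + 1), Q i u) =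
            (fun u => P u + ∑ i ∈ range n, Q i u) + Q n := by
          funext u
          rw [Pi.add_apply, sum_range_succ, add_assoc]
        rw [h2, h3, ← add_assoc]
        exact h1
    have hconst : ∀ u, (p u + ∑ i ∈ range m, φ i u) = (m : ℤ) := by
      intro u
      rw [hsum]
      exact S.weight hA u
    intro u
    have h1 := h U _ _ _ (hten m) hcyc (m : ℤ) hconst u
    have h2 : Represents (fun a => ε a + ∑ i ∈ range m, e i a) fun _ => (m : ℤ) := by
      have h3 := rep_add hε (rep_sum (range m) e φ fun i _ => he i)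
      have h4 : (p + fun u => ∑ i ∈ range m, φ i u) = fun _ => (m : ℤ) := funext hconst
      rwa [h4] at h3
    have h3 := gs_const Γ h2 u
    rw [gs_add, gs_sum] at h3
    rw [← h3] at h1
    have h4 : ∑ i ∈ range m, Q i u = ∑ i ∈ range m, gs Γ (e i) u :=
      sum_congr rfl fun i _ => (holds_iff Γ _ _).1 (hQ2 i) (e i) (he i) u
    rw [h4] at h1
    exact add_right_cancel h1

theorem const_of_holds (S : System Γ) {U m p P} (hA : S.Adm U m p P) (h : Γ.Holds p P) {k : ℤ}
    (hk : ∀ u, p u = k) (u : (ZMod d)ˣ) : P u = (k : ℚ) • Γ.ϖ := by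
  obtain ⟨ε, hε⟩ := S.represented hA
  have h1 : Represents ε fun _ => k := by
    have : p = fun _ => k := funext hk
    rwa [this] at hε
  rw [(holds_iff Γ _ _).1 h ε hε u, gs_const Γ h1]

end Pool.Agent.X310.Gd
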