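import Mathlib

/-! Definitions: classes of gamma values and of periods in `ℂˣ / ℚ̄ˣ`, at level `d`. -/

set_option autoImplicit false

namespace Pool.Agent.X310.Gd

variable (d : ℕ) [NeZero d] (V : Type) [AddCommGroup V] [Module ℚ V]

/-- The classes of the gamma values.  `V` is `ℂˣ / ℚ̄ˣ` written additively (a `ℚ`-vector space),
`g a` is the class of `Γ(1 - a/d)` for `0 < a < d`, and `ϖ` is the class of `π`. -/
structure GammaClasses where
  /-- the class of `Γ(1 - a/d)` -/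
  g : ZMod d → V
  /-- the class of `π` -/
  ϖ : V
  g_zero : g 0 = 0
  /-- the reflection formula -/
  refl : ∀ a, a ≠ 0 → g a + g (-a) = ϖ
  /-- the theorem of Koblitz and Ogus -/
  koblitz_ogus : ∀ ε : ZMod d → ℚ, (∀ u : (ZMod d)ˣ, ∑ a, ε a * ((u * a : ZMod d).val : ℚ) = 0) →
    ∀ u : (ZMod d)ˣ, ∑ a, ε a • g (u * a) = 0

variable {d V}

/-- `ε` represents `p`: `d p(u) = ∑ ε(a) ⟨u a⟩` for all units `u`. -/
def Represents (ε : ZMod d → ℚ) (p : (ZMod d)ˣ → ℤ) : Prop :=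
  ∀ u : (ZMod d)ˣ, (d : ℚ) * p u = ∑ a, ε a * ((u * a : ZMod d).val : ℚ)

/-- The formula of Gross and Deligne for the type `p` and the periods `P`:
`P(u) = ∑ ε(a u⁻¹) g(a)` for every `ε` which represents `p`. -/
def GammaClasses.Holds (Γ : GammaClasses d V) (p : (ZMod d)ˣ → ℤ) (P : (ZMod d)ˣ → V) : Prop :=
  ∀ ε : ZMod d → ℚ, Represents ε p →
    ∀ u : (ZMod d)ˣ, P u = ∑ a, ε (a * (u⁻¹ : (ZMod d)ˣ)) • Γ.g a

/-- A system of admissible triples at level `d`.  `Adm U m p P` says: there is an admissible triple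
`(H, F, ι)` of weight `m` with `F ⊂ ℚ(μ_d)` the fixed field of `U`, with Hodge type `p` and period
classes `P` (as functions on `(ℤ/d)ˣ`). -/
structure System (Γ : GammaClasses d V) where
  /-- admissible triples -/
  Adm : Subgroup (ZMod d)ˣ → ℕ → ((ZMod d)ˣ → ℤ) → ((ZMod d)ˣ → V) → Prop
  inv_type : ∀ {U m p P}, Adm U m p P → ∀ u, ∀ v ∈ U, p (u * v) = p u
  inv_per : ∀ {U m p P}, Adm U m p P → ∀ u, ∀ v ∈ U, P (u * v) = P u
  nonneg : ∀ {U m p P}, Adm U m p P → ∀ u, 0 ≤ p u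
  weight : ∀ {U m p P}, Adm U m p P → ∀ u, p u + p (-u) = m
  /-- some `ε` represents the type -/
  represented : ∀ {U m p P}, Adm U m p P → ∃ ε, Represents ε p
  /-- tensor product over `F` -/
  tensor : ∀ {U m p P m' p' P'}, Adm U m p P → Adm U m' p' P' → Adm U (m + m') (p + p') (P + P')
  /-- determinant over a subfield -/
  det : ∀ {U m p P}, Adm U m p P → ∀ U' : Subgroup (ZMod d)ˣ, U ≤ U' →
    ∃ m' p' P', Adm U' m' p' P' ∧
      (∀ u, (Nat.card U : ℤ) * p' u = ∑ᶠ v : U', p (u * v)) ∧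
      (∀ u, (Nat.card U : ℚ) • P' u = ∑ᶠ v : U', P (u * v))
  /-- Anderson's theorem for abelian varieties with complex multiplication -/
  cm : ∀ (U : Subgroup (ZMod d)ˣ) (φ : (ZMod d)ˣ → ℤ), -1 ∉ U → (∀ u, φ u = 0 ∨ φ u = 1) →
    (∀ u, φ u + φ (-u) = 1) → (∀ u, ∀ v ∈ U, φ (u * v) = φ u) →
    ∃ P, Adm U 1 φ P ∧ Γ.Holds φ P

/-- The quotient group `(ℤ/d)ˣ / U`, the Galois group of `F`, is cyclic. -/
def IsCyc (U : Subgroup (ZMod d)ˣ) : Prop := IsCyclic ((ZMod d)ˣ ⧸ U)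

end Pool.Agent.X310.Gd
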