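import Pool.Agent.X310.HtDefs

set_option autoImplicit false

/-! # Height pairings and Lefschetz decompositions -/

namespace Pool.Agent.X310.HT

variable {X : HeightSpace} (D : LefschetzDecomposition X)

theorem L_pow_mem (X : HeightSpace) (i : ℤ) (k : ℕ) : ∀ x ∈ X.Ch i, (X.L ^ k) x ∈ X.Ch (i + k) := by
  induction k with
  | zero => intro x hx; simpa using hx
  | succ k ih =>
    intro x hx
    rw [pow_succ', Module.End.mul_apply]
    have := X.L_mem _ _ (ih x hx)
    have e : i + ((k + 1 : ℕ) : ℤ) = i + k + 1 := by push_cast; ring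
    rw [e]
    exact this

theorem adj_pow (X : HeightSpace) (k : ℕ) : ∀ x y, X.ht ((X.L ^ k) x) y = X.ht x ((X.L ^ k) y) := by
  induction k with
  | zero => intro x y; rfl
  | succ k ih =>
    intro x y
    rw [pow_succ, Module.End.mul_apply, ih, X.adj, ← Module.End.mul_apply X.L, ← pow_succ', pow_succ]

theorem map_L_pow (k : ℕ) : ∀ a x, (X.L ^ k) (D.π a x) = D.π (a + 2 * k) ((X.L ^ k) x) := by
  induction k with
  | zero => intro a x; simp
  | succ k ih =>
    intro a x
    rw [pow_succ', Module.End.mul_apply, ih, D.map_L, Module.End.mul_apply]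
    congr 2
    push_cast
    ring

/-- the classes of codimension `i` in the `s`-th part -/
def Part (s i : ℤ) (x : X.V) : Prop := x ∈ X.Ch i ∧ D.π (2 * i - s) x = x

variable {D}

theorem Part.zero_of_neg {s i : ℤ} {x : X.V} (h : Part D s i x) (hi : i < 0) : x = 0 := by
  have := h.1
  rw [X.eq_bot i (Or.inl hi)] at this
  exact (Submodule.mem_bot ℚ).1 this

theorem Part.zero_of_lt {s i : ℤ} {x : X.V} (h : Part D s i x) (hi : (X.n : ℤ) < i) : x = 0 := by
  have := h.1
  rw [X.eq_bot i (Or.inr hi)] at this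
  exact (Submodule.mem_bot ℚ).1 this

theorem part_π {s i : ℤ} {x : X.V} (h : x ∈ X.Ch i) : Part D s i (D.π (2 * i - s) x) :=
  ⟨D.mem _ _ _ h, D.idem _ _⟩

theorem Part.pow {s i : ℤ} {x : X.V} (h : Part D s i x) (k : ℕ) : Part D s (i + k) ((X.L ^ k) x) := by
  refine ⟨L_pow_mem X i k x h.1, ?_⟩
  have h1 := map_L_pow D k (2 * i - s) x
  rw [h.2] at h1
  have e : 2 * (i + k) - s = 2 * i - s + 2 * k := by ring
  rw [e]
  exact h1.symm

theorem Part.sub {s i : ℤ} {x y : X.V} (h : Part D s i x) (h' : Part D s i y) : Part D s i (x - y) :=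
  ⟨Submodule.sub_mem _ h.1 h'.1, by rw [map_sub, h.2, h'.2]⟩

theorem part_inj {s i : ℤ} {k : ℕ} (hk : 2 * i + k = X.n + s) {x : X.V} (h : Part D s i x)
    (h0 : (X.L ^ k) x = 0) : x = 0 :=
  D.inj i (2 * i - s) k (by omega) x h.1 h.2 h0

theorem part_surj {s i : ℤ} {k : ℕ} (hk : 2 * i + k = X.n + s) {y : X.V} (h : Part D s (i + k) y) :
    ∃ x, Part D s i x ∧ (X.L ^ k) x = y := by
  obtain ⟨x, h1, h2, h3⟩ := D.surj i (2 * i - s) k (by omega) y h.1 (by
    have e : (X.n : ℤ) + k = 2 * (i + k) - s := by omega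
    rw [e]
    exact h.2)
  exact ⟨x, ⟨h1, h2⟩, h3⟩

/-! ### hard Lefschetz -/

theorem part_iff (s i : ℤ) :
    (∀ x, Part D s i x → x = 0) ↔ ∀ x, Part D s (X.n + s - i) x → x = 0 := by
  have key : ∀ j : ℤ, 2 * j ≤ X.n + s →
      ((∀ x, Part D s j x → x = 0) ↔ ∀ x, Part D s (X.n + s - j) x → x = 0) := by
    intro j hj
    obtain ⟨k, hk⟩ := Int.eq_ofNat_of_zero_le (by omega : 0 ≤ (X.n : ℤ) + s - 2 * j)
    have e : (X.n : ℤ) + s - j = j + k := by omega
    rw [e]
    constructor
    · intro h y hy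
      obtain ⟨x, hx, rfl⟩ := part_surj (by omega) hy
      rw [h x hx, map_zero]
    · intro h x hx
      exact part_inj (by omega) hx (h _ (hx.pow k))
  rcases le_total (2 * i) (X.n + s) with h | h
  · exact key i h
  · have h1 := key (X.n + s - i) (by omega)
    have e : (X.n : ℤ) + s - (X.n + s - i) = i := by ring
    rw [e] at h1
    exact h1.symm

theorem part_iff' (hQ : X.HardLefschetz) (s i : ℤ) :
    (∀ x, Part D s i x → x = 0) ↔ ∀ x, Part D s (X.n + 1 - i) x → x = 0 := by
  have key : ∀ j : ℤ, 2 * j ≤ X.n + 1 →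
      ((∀ x, Part D s j x → x = 0) ↔ ∀ x, Part D s (X.n + 1 - j) x → x = 0) := by
    intro j hj
    obtain ⟨k, hk⟩ := Int.eq_ofNat_of_zero_le (by omega : 0 ≤ (X.n : ℤ) + 1 - 2 * j)
    have e : (X.n : ℤ) + 1 - j = j + k := by omega
    obtain ⟨h1, h2⟩ := hQ j k (by omega)
    rw [e]
    constructor
    · intro h y hy
      obtain ⟨x, hx, hxy⟩ := h2 y hy.1
      have h3 := map_L_pow D k (2 * j - s) x
      rw [hxy] at h3
      have e2 : 2 * j - s + 2 * k = 2 * (j + k) - s := by ring
      rw [e2, hy.2, h _ (part_π hx), map_zero] at h3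
      exact h3.symm
    · intro h x hx
      exact h1 x hx.1 (h _ (hx.pow k))
  rcases le_total (2 * i) (X.n + 1) with h | h
  · exact key i h
  · have h1 := key (X.n + 1 - i) (by omega)
    have e : (X.n : ℤ) + 1 - (X.n + 1 - i) = i := by ring
    rw [e] at h1
    exact h1.symm

theorem part_zero (hQ : X.HardLefschetz) (s : ℤ) (hs : s ≠ 1) (i : ℤ) (x : X.V) (hx : Part D s i x) :
    x = 0 := by
  have h1 : ∀ j : ℤ, (∀ x, Part D s j x → x = 0) ↔ ∀ x, Part D s (j + (1 - s)) x → x = 0 := by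
    intro j
    rw [part_iff s j, part_iff' hQ s (X.n + s - j)]
    have e : (X.n : ℤ) + 1 - (X.n + s - j) = j + (1 - s) := by ring
    rw [e]
  have h2 : ∀ t : ℕ, (∀ x, Part D s i x → x = 0) ↔ ∀ x, Part D s (i + t * (1 - s)) x → x = 0 := by
    intro t
    induction t with
    | zero => simp
    | succ t ih =>
      rw [ih, h1]
      have e : i + t * (1 - s) + (1 - s) = i + ((t + 1 : ℕ) : ℤ) * (1 - s) := by push_cast; ring
      rw [e]
  rcases lt_or_gt_of_ne hs with h | h
  · refine (h2 (X.n + 1 - i).toNat).2 (fun y hy => hy.zero_of_lt ?_) x hx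
    have e1 := Int.self_le_toNat ((X.n : ℤ) + 1 - i)
    have e2 : (0 : ℤ) ≤ ((X.n : ℤ) + 1 - i).toNat := by positivity
    nlinarith
  · refine (h2 (i + 1).toNat).2 (fun y hy => hy.zero_of_neg ?_) x hx
    have e1 := Int.self_le_toNat (i + 1)
    have e2 : (0 : ℤ) ≤ (i + 1).toNat := by positivity
    nlinarith

/-- a class with all components but one zero -/
theorem eq_π {b : ℤ} {x : X.V} (h : ∀ a, a ≠ b → D.π a x = 0) : D.π b x = x := by
  have h1 := D.total x
  by_cases hb : b ∈ Finset.Icc (0 : ℤ) (2 * X.n)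
  · rw [Finset.sum_eq_single_of_mem b hb fun a _ ha => h a ha] at h1
    exact h1
  · rw [Finset.sum_eq_zero fun a ha => h a fun hab => hb (hab ▸ ha)] at h1
    rw [← h1, map_zero]

theorem hardLefschetz_iff (D : LefschetzDecomposition X) :
    X.HardLefschetz ↔ ∀ i, ∀ x ∈ X.Ch i, D.π (2 * i - 1) x = x := by
  constructor
  · intro h i x hx
    refine eq_π fun a ha => ?_
    have h1 := part_π (D := D) (s := 2 * i - a) hx
    have e : 2 * i - (2 * i - a) = a := by ring
    rw [e] at h1
    exact part_zero h (2 * i - a) (by omega) i _ h1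
  · intro h i k hk
    refine ⟨fun x hx h0 => part_inj (D := D) hk ⟨hx, h i x hx⟩ h0, fun y hy => ?_⟩
    obtain ⟨x, hx, hxy⟩ := part_surj (D := D) (s := 1) hk ⟨hy, h _ y hy⟩
    exact ⟨x, hx.1, hxy⟩

/-! ### Hodge index -/

theorem part_zero_of_hodge (hI : X.HodgeIndex) (s : ℤ) (hs : s ≤ 0) :
    ∀ (m : ℕ) (i : ℤ), i ≤ m → ∀ x, Part D s i x → x = 0 := by
  intro m
  induction m with
  | zero =>
    intro i hi x hx
    rcases lt_or_eq_of_le hi with h | h
    · exact hx.zero_of_neg h
    · -- codimension zero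
      subst h
      rcases le_or_gt 0 ((X.n : ℤ) + s) with h0 | h0
      · obtain ⟨k, hk⟩ := Int.eq_ofNat_of_zero_le h0
        have h1 : (X.L ^ (k + 1)) x = 0 := by
          have h2 := hx.pow (k + 1)
          have e : (0 : ℤ) + ((0 : ℕ) : ℤ) = 0 := by simp
          have e1 : ((0 : ℕ) : ℤ) + ((k + 1 : ℕ) : ℤ) = (-1 : ℤ) + ((k + 2 : ℕ) : ℤ) := by push_cast; ring
          rw [e1] at h2
          obtain ⟨z, hz, hz'⟩ := part_surj (D := D) (s := s) (i := -1) (k := k + 2)
            (by push_cast; omega) h2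
          rw [hz.zero_of_neg (by omega), map_zero] at hz'
          exact hz'.symm
        obtain ⟨k', hk'⟩ := Int.eq_ofNat_of_zero_le (by omega : (0 : ℤ) ≤ (X.n : ℤ) + 1)
        obtain ⟨t, ht⟩ := Nat.exists_eq_add_of_le (by omega : k + 1 ≤ k')
        have h3 : (X.L ^ k') x = 0 := by
          rw [ht, add_comm, pow_add, Module.End.mul_apply, h1, map_zero]
        by_contra hx0
        have h4 := hI 0 k' (by omega) x hx.1 hx0 (by
          rw [pow_succ', Module.End.mul_apply, h3, map_zero])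
        rw [h3, map_zero, mul_zero] at h4
        exact lt_irrefl _ h4
      · obtain ⟨k, hk⟩ := Int.eq_ofNat_of_zero_le (by omega : (0 : ℤ) ≤ -((X.n : ℤ) + s))
        have e1 : ((0 : ℕ) : ℤ) = ((X.n : ℤ) + s) + (k : ℤ) := by push_cast; omega
        rw [e1] at hx
        obtain ⟨z, hz, hz'⟩ := part_surj (D := D) (s := s) (by omega) hx
        rw [← hz', hz.zero_of_neg (by omega), map_zero]
  | succ m ih =>
    intro i hi x hx
    by_cases him : i ≤ m
    · exact ih i him x hx
    rcases le_or_gt (2 * i) ((X.n : ℤ) + s) with h0 | h0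
    · obtain ⟨k, hk⟩ := Int.eq_ofNat_of_zero_le (by omega : (0 : ℤ) ≤ (X.n : ℤ) + s - 2 * i)
      have h1 : (X.L ^ (k + 1)) x = 0 := by
        have h2 := hx.pow (k + 1)
        have e1 : i + ((k + 1 : ℕ) : ℤ) = (i - 1) + ((k + 2 : ℕ) : ℤ) := by push_cast; ring
        rw [e1] at h2
        obtain ⟨z, hz, hz'⟩ := part_surj (D := D) (s := s) (i := i - 1) (k := k + 2)
          (by push_cast; omega) h2
        rw [ih (i - 1) (by omega) z hz, map_zero] at hz'
        exact hz'.symm
      obtain ⟨k', hk'⟩ := Int.eq_ofNat_of_zero_le (by omega : (0 : ℤ) ≤ (X.n : ℤ) + 1 - 2 * i)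
      obtain ⟨t, ht⟩ := Nat.exists_eq_add_of_le (by omega : k + 1 ≤ k')
      have h3 : (X.L ^ k') x = 0 := by
        rw [ht, add_comm, pow_add, Module.End.mul_apply, h1, map_zero]
      by_contra hx0
      have h4 := hI i k' (by omega) x hx.1 hx0 (by
        rw [pow_succ', Module.End.mul_apply, h3, map_zero])
      rw [h3, map_zero, mul_zero] at h4
      exact lt_irrefl _ h4
    · obtain ⟨k, hk⟩ := Int.eq_ofNat_of_zero_le (by omega : (0 : ℤ) ≤ 2 * i - ((X.n : ℤ) + s))
      have e1 : i = ((X.n : ℤ) + s - i) + (k : ℤ) := by omega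
      rw [e1] at hx
      obtain ⟨z, hz, hz'⟩ := part_surj (D := D) (s := s) (by omega) hx
      rw [← hz', ih _ (by omega) z hz, map_zero]

theorem partVanishes_of_hodge (hI : X.HodgeIndex) (s : ℤ) (hs : s ≤ 0) : D.PartVanishes s := by
  intro i x hx
  exact part_zero_of_hodge hI s hs i.toNat i (Int.self_le_toNat i) _ (part_π hx)

/-- nondegeneracy on the part `s = 1` -/
theorem nondeg_low (hI : X.HodgeIndex) :
    ∀ (m : ℕ) (i : ℤ) (k : ℕ), i ≤ m → 2 * i + k = X.n + 1 → ∀ x, Part D 1 i x →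
      (∀ y, Part D 1 i y → X.ht x ((X.L ^ k) y) = 0) → x = 0 := by
  have step : ∀ (i : ℤ) (k : ℕ), 2 * i + k = X.n + 1 →
      (∀ x, Part D 1 (i - 1) x → (∀ y, Part D 1 (i - 1) y → X.ht x ((X.L ^ (k + 2)) y) = 0) → x = 0) →
      ∀ x, Part D 1 i x → (∀ y, Part D 1 i y → X.ht x ((X.L ^ k) y) = 0) → x = 0 := by
    intro i k hk ih x hx h
    have h2 := hx.pow (k + 1)
    have e1 : i + ((k + 1 : ℕ) : ℤ) = (i - 1) + ((k + 2 : ℕ) : ℤ) := by push_cast; ring
    rw [e1] at h2
    obtain ⟨x', hx', hxx'⟩ := part_surj (D := D) (s := 1) (i := i - 1) (k := k + 2)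
      (by push_cast; omega) h2
    have hLx' : Part D 1 i (X.L x') := by
      have := hx'.pow 1
      rw [pow_one] at this
      have e : i - 1 + ((1 : ℕ) : ℤ) = i := by push_cast; ring
      rw [e] at this
      exact this
    have hp0 : (X.L ^ (k + 1)) (x - X.L x') = 0 := by
      rw [map_sub, ← Module.End.mul_apply _ X.L, ← pow_succ, hxx', sub_self]
    have hx'0 : x' = 0 := by
      refine ih x' hx' fun y hy => ?_
      have hLy : Part D 1 i (X.L y) := by
        have := hy.pow 1
        rw [pow_one] at this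
        have e : i - 1 + ((1 : ℕ) : ℤ) = i := by push_cast; ring
        rw [e] at this
        exact this
      have h3 := h _ hLy
      rw [← Module.End.mul_apply _ X.L, ← pow_succ] at h3
      have h4 : X.ht (x - X.L x') ((X.L ^ (k + 1)) y) = 0 := by
        rw [← adj_pow, hp0, map_zero, LinearMap.zero_apply]
      rw [map_sub, LinearMap.sub_apply, h3, zero_sub, neg_eq_zero, X.adj, ← Module.End.mul_apply X.L,
        ← pow_succ'] at h4
      exact h4
    rw [hx'0, map_zero, sub_zero] at hp0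
    by_contra hx0
    have h5 := hI i k hk x hx.1 hx0 hp0
    rw [h x hx, mul_zero] at h5
    exact lt_irrefl _ h5
  intro m
  induction m with
  | zero =>
    intro i k hi hk x hx h
    rcases lt_or_eq_of_le hi with h0 | h0
    · exact hx.zero_of_neg h0
    · exact step i k hk (fun z hz _ => hz.zero_of_neg (by rw [h0]; simp)) x hx h
  | succ m ih =>
    intro i k hi hk x hx h
    exact step i k hk (fun z hz h' => ih (i - 1) (k + 2) (by push_cast at hi; omega)
      (by push_cast; omega) z hz h') x hx h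

theorem radical_iff (hI : X.HodgeIndex) (D : LefschetzDecomposition X) (i : ℤ) (x : X.V)
    (hx : x ∈ X.Ch i) : X.InRadical i x ↔ D.π (2 * i - 1) x = 0 := by
  constructor
  · intro h
    have h1 : X.InRadical i (D.π (2 * i - 1) x) := by
      refine ⟨D.mem _ _ _ hx, fun y hy => ?_⟩
      rw [D.dual]
      exact h.2 _ (D.mem _ _ _ hy)
    have h2 : Part D 1 i (D.π (2 * i - 1) x) := part_π hx
    rcases le_or_gt (2 * i) ((X.n : ℤ) + 1) with h0 | h0
    · obtain ⟨k, hk⟩ := Int.eq_ofNat_of_zero_le (by omega : (0 : ℤ) ≤ (X.n : ℤ) + 1 - 2 * i)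
      refine nondeg_low hI i.toNat i k (Int.self_le_toNat i) (by omega) _ h2 fun y hy => ?_
      refine h1.2 _ ?_
      have e : (X.n : ℤ) + 1 - i = i + k := by omega
      rw [e]
      exact (hy.pow k).1
    · obtain ⟨k, hk⟩ := Int.eq_ofNat_of_zero_le (by omega : (0 : ℤ) ≤ 2 * i - ((X.n : ℤ) + 1))
      have e1 : i = ((X.n : ℤ) + 1 - i) + (k : ℤ) := by omega
      have h3 : Part D 1 (((X.n : ℤ) + 1 - i) + (k : ℤ)) (D.π (2 * i - 1) x) := by
        rw [← e1]; exact h2
      obtain ⟨z, hz, hz'⟩ := part_surj (D := D) (s := 1) (by omega) h3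
      have hz0 : z = 0 := by
        refine nondeg_low hI ((X.n : ℤ) + 1 - i).toNat _ k (Int.self_le_toNat _) (by omega) z hz
          fun y hy => ?_
        rw [← adj_pow, hz']
        exact h1.2 _ hy.1
      rw [← hz', hz0, map_zero]
  · intro h
    refine ⟨hx, fun y hy => ?_⟩
    conv_lhs => rw [← D.total x]
    rw [map_sum, LinearMap.sum_apply]
    refine Finset.sum_eq_zero fun a _ => ?_
    by_cases ha : a = 2 * i - 1
    · rw [ha, h, map_zero, LinearMap.zero_apply]
    · rcases le_or_gt (2 * i - a) 0 with hs | hs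
      · have h1 := partVanishes_of_hodge (D := D) hI (2 * i - a) hs i x hx
        have e : 2 * i - (2 * i - a) = a := by ring
        rw [e] at h1
        rw [h1, map_zero, LinearMap.zero_apply]
      · have h1 := partVanishes_of_hodge (D := D) hI (2 - (2 * i - a)) (by omega) (X.n + 1 - i) y hy
        have e : 2 * ((X.n : ℤ) + 1 - i) - (2 - (2 * i - a)) = 2 * X.n - a := by ring
        rw [e] at h1
        rw [D.dual, h1, map_zero]

/-- **Main theorem** -/
theorem hodge_main (D : LefschetzDecomposition X) :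
    (X.HardLefschetz ↔ ∀ s, s ≠ 1 → D.PartVanishes s) ∧
    (X.HodgeIndex → (∀ s, s ≤ 0 → D.PartVanishes s) ∧
      (∀ i, ∀ x ∈ X.Ch i, X.InRadical i x ↔ D.π (2 * i - 1) x = 0) ∧
      (X.HardLefschetz ↔ X.Nondegenerate)) := by
  have hL : X.HardLefschetz ↔ ∀ s, s ≠ 1 → D.PartVanishes s := by
    rw [hardLefschetz_iff D]
    constructor
    · intro h s hs i x hx
      rw [← h i x hx]
      exact D.orth _ _ (by omega) _
    · intro h i x hx
      refine eq_π fun a ha => ?_
      have h1 := h (2 * i - a) (by omega) i x hx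
      have e : 2 * i - (2 * i - a) = a := by ring
      rw [e] at h1
      exact h1
  refine ⟨hL, fun hI => ⟨fun s hs => partVanishes_of_hodge hI s hs,
    fun i x hx => radical_iff hI D i x hx, ?_⟩⟩
  constructor
  · intro h i x hx
    have h1 := (radical_iff hI D i x hx.1).1 hx
    rw [(hardLefschetz_iff D).1 h i x hx.1] at h1
    exact h1
  · intro h
    rw [hL]
    intro s hs i x hx
    refine h i _ ((radical_iff hI D i _ (D.mem _ _ _ hx)).2 ?_)
    exact D.orth _ _ (by omega) _

end Pool.Agent.X310.HT
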