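import Mathlib

set_option autoImplicit false

/-! # Height pairings and the Lefschetz operator: the definitions of the statements -/

namespace Pool.Agent.X310.HT

/-- The homologically trivial cycle classes with rational coefficients on a smooth projective
variety `X` of dimension `n` over a number field, with the Lefschetz operator of an ample line
bundle and the Beilinson–Bloch height pairing. -/
structure HeightSpace where
  /-- the dimension of `X` -/
  n : ℕ
  /-- the space of all homologically trivial classes -/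
  V : Type
  [grp : AddCommGroup V]
  [mod : Module ℚ V]
  /-- the classes of codimension `i` -/
  Ch : ℤ → Submodule ℚ V
  /-- the Lefschetz operator -/
  L : V →ₗ[ℚ] V
  /-- the height pairing, zero on classes of codimensions `i`, `j` with `i + j ≠ n + 1` -/
  ht : V →ₗ[ℚ] V →ₗ[ℚ] ℝ
  L_mem : ∀ i, ∀ x ∈ Ch i, L x ∈ Ch (i + 1)
  eq_bot : ∀ i, i < 0 ∨ (n : ℤ) < i → Ch i = ⊥
  symm : ∀ x y, ht x y = ht y x
  adj : ∀ x y, ht (L x) y = ht x (L y)

attribute [instance] HeightSpace.grp HeightSpace.mod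

/-- `L ^ k` is an isomorphism from the classes of codimension `i` to those of codimension
`i + k` -/
def HeightSpace.LefschetzIso (X : HeightSpace) (i : ℤ) (k : ℕ) : Prop :=
  (∀ x ∈ X.Ch i, (X.L ^ k) x = 0 → x = 0) ∧ ∀ y ∈ X.Ch (i + k), ∃ x ∈ X.Ch i, (X.L ^ k) x = y

/-- Beilinson's arithmetic hard Lefschetz: `L ^ (n + 1 - 2 i)` is an isomorphism from codimension
`i` to codimension `n + 1 - i` -/
def HeightSpace.HardLefschetz (X : HeightSpace) : Prop :=
  ∀ (i : ℤ) (k : ℕ), 2 * i + k = X.n + 1 → X.LefschetzIso i k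

/-- Beilinson's arithmetic Hodge index: `(-1) ^ i (x, L ^ (n + 1 - 2 i) x) > 0` for `x ≠ 0` of
codimension `i` with `L ^ (n + 2 - 2 i) x = 0` -/
def HeightSpace.HodgeIndex (X : HeightSpace) : Prop :=
  ∀ (i : ℤ) (k : ℕ), 2 * i + k = X.n + 1 → ∀ x ∈ X.Ch i, x ≠ 0 → (X.L ^ (k + 1)) x = 0 →
    0 < (-1 : ℝ) ^ i * X.ht x ((X.L ^ k) x)

/-- `x`, of codimension `i`, is orthogonal to all classes of codimension `n + 1 - i` -/
def HeightSpace.InRadical (X : HeightSpace) (i : ℤ) (x : X.V) : Prop :=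
  x ∈ X.Ch i ∧ ∀ y ∈ X.Ch (X.n + 1 - i), X.ht x y = 0

/-- the height pairing is nondegenerate -/
def HeightSpace.Nondegenerate (X : HeightSpace) : Prop :=
  ∀ (i : ℤ) (x : X.V), X.InRadical i x → x = 0

/-- The action of a Lefschetz Chow–Künneth decomposition of `X` on the homologically trivial
classes: projectors `π a`, `0 ≤ a ≤ 2 n` (onto the classes of the summand `h ^ a (X)` of the
motive), self-dual, compatible with `L`, such that `L ^ (n - a)` is an isomorphism from `h ^ a` to
`h ^ (2 n - a)`. -/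
structure LefschetzDecomposition (X : HeightSpace) where
  /-- the projectors -/
  π : ℤ → (X.V →ₗ[ℚ] X.V)
  mem : ∀ a i, ∀ x ∈ X.Ch i, π a x ∈ X.Ch i
  idem : ∀ a x, π a (π a x) = π a x
  orth : ∀ a b, a ≠ b → ∀ x, π a (π b x) = 0
  total : ∀ x, ∑ a ∈ Finset.Icc (0 : ℤ) (2 * X.n), π a x = x
  map_L : ∀ a x, X.L (π a x) = π (a + 2) (X.L x)
  dual : ∀ a x y, X.ht (π a x) y = X.ht x (π (2 * X.n - a) y)
  inj : ∀ (i a : ℤ) (k : ℕ), a + k = X.n → ∀ x ∈ X.Ch i, π a x = x → (X.L ^ k) x = 0 → x = 0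
  surj : ∀ (i a : ℤ) (k : ℕ), a + k = X.n → ∀ y ∈ X.Ch (i + k), π (X.n + k) y = y →
    ∃ x ∈ X.Ch i, π a x = x ∧ (X.L ^ k) x = y

/-- the component in `h ^ (2 i - s) (X)` of every class of codimension `i` is zero: for an abelian
variety, the part `CH ^ i_(s)` of Beauville's decomposition -/
def LefschetzDecomposition.PartVanishes {X : HeightSpace} (D : LefschetzDecomposition X) (s : ℤ) :
    Prop :=
  ∀ i, ∀ x ∈ X.Ch i, D.π (2 * i - s) x = 0

end Pool.Agent.X310.HT
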