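import Pool.Agent.X310.HtmDefs
import Pool.Agent.X310.Ht

set_option autoImplicit false

/-! # Products with projective spaces -/

namespace Pool.Agent.X310.HT

variable {X Y : HeightSpace} {m : ℕ} (P : TimesProj X Y m)

/-- minus the Lefschetz operator -/
def T (X : HeightSpace) : Module.End ℚ X.V := -X.L

theorem T_pow (X : HeightSpace) (k : ℕ) (x : X.V) : (T X ^ k) x = (-1 : ℚ) ^ k • (X.L ^ k) x := by
  induction k generalizing x with
  | zero => simp
  | succ k ih =>
    rw [pow_succ, Module.End.mul_apply, ih]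
    unfold T
    rw [LinearMap.neg_apply, map_neg, ← Module.End.mul_apply _ X.L, ← pow_succ, smul_neg,
      pow_succ (-1 : ℚ), mul_neg_one, neg_smul]

theorem T_mem (X : HeightSpace) (i : ℤ) (x : X.V) (hx : x ∈ X.Ch i) : T X x ∈ X.Ch (i + 1) :=
  Submodule.neg_mem _ (X.L_mem i x hx)

theorem T_pow_mem (X : HeightSpace) (i : ℤ) (k : ℕ) (x : X.V) (hx : x ∈ X.Ch i) :
    (T X ^ k) x ∈ X.Ch (i + k) := by
  rw [T_pow]
  exact Submodule.smul_mem _ _ (L_pow_mem X i k x hx)

include P in
theorem c_zero (y : Y.V) : P.c 0 (Y.L y) = -(T X (P.c 0 y)) := by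
  rw [P.L_zero]; simp [T]

include P in
theorem c_succ (y : Y.V) (a : ℕ) (ha : a < m) :
    P.c (a + 1) (Y.L y) = P.c a y - T X (P.c (a + 1) y) := by
  rw [P.L_succ y a ha]; simp [T, add_comm]

/-- telescoping -/
theorem tele (y : Y.V) (j : ℕ) (hj : j ≤ m) :
    ∑ a ∈ Finset.range (j + 1), (T X ^ a) (P.c a (Y.L y)) = -((T X ^ (j + 1)) (P.c j y)) := by
  induction j with
  | zero =>
    rw [Finset.sum_range_one, pow_zero, Module.End.one_apply, c_zero P, zero_add, pow_one]
  | succ j ih =>
    rw [Finset.sum_range_succ, ih (by omega), c_succ P y j (by omega), map_sub,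
      ← Module.End.mul_apply _ (T X), ← pow_succ]
    abel

/-- the class with coefficients `T ^ (m - a) x` -/
theorem exists_kernel (x : X.V) :
    ∃ y : Y.V, ∀ a, a ≤ m → P.c a y = (T X ^ (m - a)) x :=
  P.surj fun a => (T X ^ (m - a)) x

theorem kernel_coeff (y : Y.V) (hy : Y.L y = 0) :
    (∀ j a, a + j = m → P.c a y = (T X ^ j) (P.c m y)) ∧ (T X ^ (m + 1)) (P.c m y) = 0 := by
  have h1 : ∀ j a, a + j = m → P.c a y = (T X ^ j) (P.c m y) := by
    intro j
    induction j with
    | zero => intro a ha; have : a = m := by omega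
              rw [this]; simp
    | succ j ih =>
      intro a ha
      have h2 := c_succ P y a (by omega)
      rw [hy, map_zero] at h2
      rw [sub_eq_zero.1 h2.symm, ih (a + 1) (by omega), ← Module.End.mul_apply (T X), ← pow_succ']
  refine ⟨h1, ?_⟩
  have h3 := tele P y m le_rfl
  rw [hy] at h3
  simp only [map_zero, Finset.sum_const_zero] at h3
  exact neg_eq_zero.1 h3.symm

theorem kernel_of (x : X.V) (y : Y.V) (hy : ∀ a, a ≤ m → P.c a y = (T X ^ (m - a)) x)
    (hx : (T X ^ (m + 1)) x = 0) : Y.L y = 0 := by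
  refine P.ext _ fun a ha => ?_
  rcases a with _ | a
  · rw [c_zero P, hy 0 (Nat.zero_le _), Nat.sub_zero, ← Module.End.mul_apply (T X), ← pow_succ', hx,
      neg_zero]
  · rw [c_succ P y a (by omega), hy a (by omega), hy (a + 1) ha, ← Module.End.mul_apply (T X),
      ← pow_succ']
    have : m - (a + 1) + 1 = m - a := by omega
    rw [this, sub_self]

theorem T_pow_eq_zero_iff (k : ℕ) (x : X.V) : (T X ^ k) x = 0 ↔ (X.L ^ k) x = 0 := by
  rw [T_pow, smul_eq_zero]
  constructor
  · rintro (h | h)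
    · exact absurd h (pow_ne_zero _ (by norm_num))
    · exact h
  · exact Or.inr

/-- solving `L y = z` -/
theorem exists_solution (i : ℤ) (z : Y.V) (hz : z ∈ Y.Ch (i + m + 1)) (x : X.V) (hx : x ∈ X.Ch i)
    (hS : (T X ^ (m + 1)) x = -∑ a ∈ Finset.range (m + 1), (T X ^ a) (P.c a z)) :
    ∃ y ∈ Y.Ch (i + m), Y.L y = z := by
  let g : ℕ → X.V := fun j => Nat.rec x (fun j u => P.c (m - j) z + T X u) j
  have g0 : g 0 = x := rfl
  have gs : ∀ j, g (j + 1) = P.c (m - j) z + T X (g j) := fun j => rfl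
  have hz' := (P.mem_iff _ z).1 hz
  have gm : ∀ j, j ≤ m → g j ∈ X.Ch (i + j) := by
    intro j
    induction j with
    | zero => intro _; rw [g0]; simpa using hx
    | succ j ih =>
      intro hj
      rw [gs]
      have e : i + ((j + 1 : ℕ) : ℤ) = i + j + 1 := by push_cast; ring
      rw [e]
      refine Submodule.add_mem _ ?_ (T_mem X _ _ (ih (by omega)))
      have h1 := hz' (m - j) (by omega)
      have e2 : i + m + 1 - ((m - j : ℕ) : ℤ) = i + j + 1 := by
        rw [Nat.cast_sub (by omega)]; ring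
      rw [e2] at h1
      exact h1
  obtain ⟨y, hy⟩ := P.surj fun a => g (m - a)
  refine ⟨y, (P.mem_iff _ y).2 fun a ha => ?_, ?_⟩
  · rw [hy a ha]
    have h1 := gm (m - a) (by omega)
    have e2 : i + ((m - a : ℕ) : ℤ) = i + m - a := by
      rw [Nat.cast_sub (by omega)]; ring
    rw [e2] at h1
    exact h1
  · have h1 : ∀ a, a < m → P.c (a + 1) (Y.L y) = P.c (a + 1) z := by
      intro a ha
      rw [c_succ P y a ha, hy a (by omega), hy (a + 1) (by omega)]
      have e : m - a = (m - (a + 1)) + 1 := by omega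
      rw [e, gs]
      have e2 : m - (m - (a + 1)) = a + 1 := by omega
      rw [e2]
      abel
    have h2 : P.c 0 (Y.L y) = P.c 0 z := by
      have h3 := tele P y m le_rfl
      rw [hy m le_rfl, Nat.sub_self, g0, hS, neg_neg, Finset.sum_range_succ', Finset.sum_range_succ'] at h3
      have h4 : ∑ a ∈ Finset.range m, (T X ^ (a + 1)) (P.c (a + 1) (Y.L y)) =
          ∑ a ∈ Finset.range m, (T X ^ (a + 1)) (P.c (a + 1) z) :=
        Finset.sum_congr rfl fun a ha => by rw [h1 a (Finset.mem_range.1 ha)]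
      rw [h4] at h3
      simpa using add_left_cancel h3
    have h5 : Y.L y - z = 0 := by
      refine P.ext _ fun a ha => ?_
      rw [map_sub, sub_eq_zero]
      rcases a with _ | a
      · exact h2
      · exact h1 a (by omega)
    exact sub_eq_zero.1 h5

include P in
theorem iso_iff (i : ℤ) : X.LefschetzIso i (m + 1) ↔ Y.LefschetzIso (i + m) 1 := by
  constructor
  · rintro ⟨h1, h2⟩
    refine ⟨fun y hy h0 => ?_, fun z hz => ?_⟩
    · rw [pow_one] at h0
      obtain ⟨h3, h4⟩ := kernel_coeff P y h0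
      have h5 : P.c m y = 0 := by
        refine h1 _ ?_ ((T_pow_eq_zero_iff _ _).1 h4)
        have := (P.mem_iff _ y).1 hy m le_rfl
        rwa [add_sub_cancel_right] at this
      refine P.ext y fun a ha => ?_
      rw [h3 (m - a) a (by omega), h5, map_zero]
    · have hz' : z ∈ Y.Ch (i + m + 1) := by simpa using hz
      have hS : ∑ a ∈ Finset.range (m + 1), (T X ^ a) (P.c a z) ∈ X.Ch (i + ((m + 1 : ℕ) : ℤ)) := by
        refine Submodule.sum_mem _ fun a ha => ?_
        have h3 := T_pow_mem X _ a _ ((P.mem_iff _ z).1 hz' a (by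
          have := Finset.mem_range.1 ha; omega))
        have e : i + m + 1 - (a : ℤ) + a = i + ((m + 1 : ℕ) : ℤ) := by push_cast; ring
        rw [e] at h3
        exact h3
      obtain ⟨x, hx, hxS⟩ := h2 _ (Submodule.smul_mem _ (-((-1 : ℚ) ^ (m + 1))) hS)
      obtain ⟨y, hy, hyz⟩ := exists_solution P i z hz' x hx (by
        rw [T_pow, hxS, smul_smul, mul_neg, ← mul_pow, neg_mul_neg, one_mul, one_pow, neg_one_smul])
      exact ⟨y, hy, by rw [pow_one]; exact hyz⟩
  · rintro ⟨h1, h2⟩
    refine ⟨fun x hx h0 => ?_, fun w hw => ?_⟩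
    · obtain ⟨y, hy⟩ := exists_kernel P x
      have h3 := kernel_of P x y hy ((T_pow_eq_zero_iff _ _).2 h0)
      have h4 : y = 0 := by
        refine h1 y ((P.mem_iff _ y).2 fun a ha => ?_) (by rw [pow_one]; exact h3)
        rw [hy a ha]
        have h5 := T_pow_mem X i (m - a) x hx
        have e2 : i + ((m - a : ℕ) : ℤ) = i + m - a := by
          rw [Nat.cast_sub (by omega)]; ring
        rw [e2] at h5
        exact h5
      have h6 := hy m le_rfl
      rw [h4, map_zero, Nat.sub_self, pow_zero, Module.End.one_apply] at h6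
      exact h6.symm
    · obtain ⟨z, hz⟩ := P.surj fun a => if a = 0 then w else 0
      have hzm : z ∈ Y.Ch (i + m + ((1 : ℕ) : ℤ)) := by
        refine (P.mem_iff _ z).2 fun a ha => ?_
        rw [hz a ha]
        split_ifs with h
        · subst h
          have e : i + (m : ℤ) + ((1 : ℕ) : ℤ) - ((0 : ℕ) : ℤ) = i + ((m + 1 : ℕ) : ℤ) := by
            push_cast; ring
          rw [e]
          exact hw
        · exact Submodule.zero_mem _
      obtain ⟨y, hy, hyz⟩ := h2 z hzm
      rw [pow_one] at hyz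
      have h3 := tele P y m le_rfl
      rw [hyz, Finset.sum_range_succ'] at h3
      have h4 : ∑ a ∈ Finset.range m, (T X ^ (a + 1)) (P.c (a + 1) z) = 0 := by
        refine Finset.sum_eq_zero fun a ha => ?_
        rw [hz (a + 1) (by have := Finset.mem_range.1 ha; omega), if_neg (by omega), map_zero]
      rw [h4, zero_add, pow_zero, Module.End.one_apply, hz 0 (Nat.zero_le _), if_pos rfl, T_pow] at h3
      refine ⟨(-((-1 : ℚ) ^ (m + 1))) • P.c m y, Submodule.smul_mem _ _ ?_, ?_⟩
      · have := (P.mem_iff _ y).1 hy m le_rfl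
        rwa [add_sub_cancel_right] at this
      · rw [map_smul, neg_smul, h3]

theorem ht_T (X : HeightSpace) (j k : ℕ) (x : X.V) :
    X.ht ((T X ^ j) x) ((T X ^ k) x) = (-1 : ℝ) ^ (j + k) * X.ht x ((X.L ^ (j + k)) x) := by
  rw [T_pow, T_pow, map_smul, map_smul, LinearMap.smul_apply, adj_pow, ← Module.End.mul_apply,
    ← pow_add, smul_smul, ← pow_add, add_comm k j]
  rw [Algebra.smul_def]
  simp

include P in
theorem definite_iff (i : ℤ) :
    (∀ x ∈ X.Ch i, x ≠ 0 → (X.L ^ (m + 1)) x = 0 → 0 < (-1 : ℝ) ^ i * X.ht x ((X.L ^ m) x)) ↔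
    ∀ y ∈ Y.Ch (i + m), y ≠ 0 → Y.L y = 0 → 0 < (-1 : ℝ) ^ (i + m) * Y.ht y y := by
  have key : ∀ (x : X.V) (y : Y.V), (∀ a, a ≤ m → P.c a y = (T X ^ (m - a)) x) →
      (-1 : ℝ) ^ (i + m) * Y.ht y y = (m + 1 : ℝ) * ((-1 : ℝ) ^ i * X.ht x ((X.L ^ m) x)) := by
    intro x y hy
    have h1 : Y.ht y y = ∑ a ∈ Finset.range (m + 1), (-1 : ℝ) ^ m * X.ht x ((X.L ^ m) x) := by
      rw [P.ht_eq]
      refine Finset.sum_congr rfl fun a ha => ?_
      have ha' : a ≤ m := by have := Finset.mem_range.1 ha; omega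
      rw [hy a ha', hy (m - a) (by omega), ht_T]
      have e : m - a + (m - (m - a)) = m := by omega
      rw [e]
    rw [h1, Finset.sum_const, Finset.card_range, nsmul_eq_mul, zpow_add₀ (by norm_num), zpow_natCast]
    push_cast
    have h2 : (-1 : ℝ) ^ m * (-1 : ℝ) ^ m = 1 := by rw [← mul_pow]; norm_num
    linear_combination ((m : ℝ) + 1) * (-1 : ℝ) ^ i * X.ht x ((X.L ^ m) x) * h2
  have hm : (0 : ℝ) < m + 1 := by positivity
  constructor
  · intro h y hy hy0 hL
    obtain ⟨h3, h4⟩ := kernel_coeff P y hL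
    have hc : P.c m y ∈ X.Ch i := by
      have := (P.mem_iff _ y).1 hy m le_rfl
      rwa [add_sub_cancel_right] at this
    have hc0 : P.c m y ≠ 0 := by
      intro h0
      apply hy0
      refine P.ext y fun a ha => ?_
      rw [h3 (m - a) a (by omega), h0, map_zero]
    rw [key (P.c m y) y fun a ha => h3 (m - a) a (by omega)]
    exact mul_pos hm (h _ hc hc0 ((T_pow_eq_zero_iff _ _).1 h4))
  · intro h x hx hx0 hL
    obtain ⟨y, hy⟩ := exists_kernel P x
    have hy0 : y ≠ 0 := by
      intro h0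
      apply hx0
      have h6 := hy m le_rfl
      rw [h0, map_zero, Nat.sub_self, pow_zero, Module.End.one_apply] at h6
      exact h6.symm
    have h1 := h y ((P.mem_iff _ y).2 fun a ha => by
      rw [hy a ha]
      have h5 := T_pow_mem X i (m - a) x hx
      have e2 : i + ((m - a : ℕ) : ℤ) = i + m - a := by
        rw [Nat.cast_sub (by omega)]; ring
      rw [e2] at h5
      exact h5) hy0 (kernel_of P x y hy ((T_pow_eq_zero_iff _ _).2 hL))
    rw [key x y hy] at h1
    exact (mul_pos_iff_of_pos_left hm).1 h1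

/-- **Main theorem** -/
theorem middle_main (C : HeightClass) :
    ((∀ X, (C.sp X).HardLefschetz) ↔ C.MiddleLefschetz) ∧
    ((∀ X, (C.sp X).HodgeIndex) ↔ C.MiddleDefinite) ∧
    ((∀ X, (C.sp X).HodgeIndex) → ((∀ X, (C.sp X).HardLefschetz) ↔ C.MiddleSurjective)) := by
  have h1 : (∀ X, (C.sp X).HardLefschetz) ↔ C.MiddleLefschetz := by
    constructor
    · intro h X m hm
      exact h X m 1 (by push_cast; omega)
    · intro h X i k hk
      rcases k with _ | k
      · refine ⟨fun x _ h0 => by simpa using h0, fun y hy => ⟨y, by simpa using hy, by simp⟩⟩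
      · obtain ⟨Y, ⟨P⟩⟩ := C.timesProj X k
        refine (iso_iff P i).2 (h Y (i + k) ?_)
        have := P.dim_eq
        push_cast at hk
        omega
  have h2 : (∀ X, (C.sp X).HodgeIndex) ↔ C.MiddleDefinite := by
    constructor
    · intro h X m hm x hx hx0 hL
      have := h X m 0 (by push_cast; omega) x hx hx0 (by rw [zero_add, pow_one]; exact hL)
      simpa using this
    · intro h X i k hk
      obtain ⟨Y, ⟨P⟩⟩ := C.timesProj X k
      refine (definite_iff P i).2 (h Y (i + k) ?_)
      have := P.dim_eq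
      omega
  refine ⟨h1, h2, fun hI => ?_⟩
  rw [h1]
  constructor
  · intro h X m hm y hy
    obtain ⟨x, hx, hxy⟩ := (h X m hm).2 y (by simpa using hy)
    exact ⟨x, hx, by rw [pow_one] at hxy; exact hxy⟩
  · intro h X m hm
    refine ⟨fun x hx h0 => ?_, fun y hy => ?_⟩
    · by_contra hx0
      have h3 := hI X m 1 (by push_cast; omega) x hx hx0 (by
        rw [pow_succ', Module.End.mul_apply, h0, map_zero])
      rw [h0, map_zero, mul_zero] at h3
      exact lt_irrefl _ h3
    · obtain ⟨x, hx, hxy⟩ := h X m hm y (by simpa using hy)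
      exact ⟨x, hx, by rw [pow_one]; exact hxy⟩

end Pool.Agent.X310.HT
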