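import Pool.Agent.X310.HtDefs

set_option autoImplicit false

/-! # Products with projective spaces: the definitions of the statements -/

namespace Pool.Agent.X310.HT

/-- `Y` is the product of `X` with the projective space of dimension `m`, with the tensor product of
the polarizations: every class `y` is the sum of the `c a y · H ^ a`, `0 ≤ a ≤ m`, where `H` is the
class of a hyperplane, and `L_Y = L_X + H`. -/
structure TimesProj (X Y : HeightSpace) (m : ℕ) where
  dim_eq : Y.n = X.n + m
  /-- the coefficient of `H ^ a` -/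
  c : ℕ → (Y.V →ₗ[ℚ] X.V)
  ext : ∀ y, (∀ a, a ≤ m → c a y = 0) → y = 0
  surj : ∀ f : ℕ → X.V, ∃ y, ∀ a, a ≤ m → c a y = f a
  mem_iff : ∀ i y, y ∈ Y.Ch i ↔ ∀ a : ℕ, a ≤ m → c a y ∈ X.Ch (i - a)
  L_zero : ∀ y, c 0 (Y.L y) = X.L (c 0 y)
  L_succ : ∀ y a, a < m → c (a + 1) (Y.L y) = X.L (c (a + 1) y) + c a y
  ht_eq : ∀ y y', Y.ht y y' = ∑ a ∈ Finset.range (m + 1), X.ht (c a y) (c (m - a) y')

/-- A class of polarized smooth projective varieties over number fields, stable under products with
projective spaces. -/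
structure HeightClass where
  /-- the polarized varieties -/
  Var : Type 1
  /-- the homologically trivial classes -/
  sp : Var → HeightSpace
  timesProj : ∀ (X : Var) (m : ℕ), ∃ Y : Var, Nonempty (TimesProj (sp X) (sp Y) m)

/-- the Lefschetz operator is an isomorphism in the middle: from codimension `m` to codimension
`m + 1` for all varieties of even dimension `2 m` -/
def HeightClass.MiddleLefschetz (C : HeightClass) : Prop :=
  ∀ (X : C.Var) (m : ℤ), ((C.sp X).n : ℤ) = 2 * m → (C.sp X).LefschetzIso m 1

/-- the Lefschetz operator is surjective in the middle -/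
def HeightClass.MiddleSurjective (C : HeightClass) : Prop :=
  ∀ (X : C.Var) (m : ℤ), ((C.sp X).n : ℤ) = 2 * m → ∀ y ∈ (C.sp X).Ch (m + 1),
    ∃ x ∈ (C.sp X).Ch m, (C.sp X).L x = y

/-- for all varieties of odd dimension `2 m - 1` the height pairing on the classes of codimension
`m` killed by the Lefschetz operator is `(-1) ^ m`-definite -/
def HeightClass.MiddleDefinite (C : HeightClass) : Prop :=
  ∀ (X : C.Var) (m : ℤ), ((C.sp X).n : ℤ) + 1 = 2 * m → ∀ x ∈ (C.sp X).Ch m, x ≠ 0 →
    (C.sp X).L x = 0 → 0 < (-1 : ℝ) ^ m * (C.sp X).ht x x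

end Pool.Agent.X310.HT
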