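import Pool.Agent.X310.HtnDefs
import Pool.Agent.X310.Ht

set_option autoImplicit false

/-! # Nilpotent correspondences and height pairings -/

namespace Pool.Agent.X310.HT

/-- the same with linear maps -/
structure CA (X : HeightSpace) (D : LefschetzDecomposition X) where
  /-- the operators given by correspondences of degree `d` -/
  R : ℤ → Set (Module.End ℚ X.V)
  /-- the operators given by homologically trivial correspondences of degree `d` -/
  J : ℤ → Set (Module.End ℚ X.V)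
  le : ∀ d, J d ⊆ R d
  map : ∀ d, ∀ r ∈ R d, ∀ i, ∀ x ∈ X.Ch i, r x ∈ X.Ch (i + d)
  sub : ∀ d, ∀ r ∈ R d, ∀ s ∈ R d, r - s ∈ R d
  mul : ∀ d e, ∀ r ∈ R d, ∀ s ∈ R e, r * s ∈ R (d + e)
  mul_left : ∀ d e, ∀ r ∈ R d, ∀ s ∈ J e, r * s ∈ J (d + e)
  mul_right : ∀ d e, ∀ r ∈ J d, ∀ s ∈ R e, r * s ∈ J (d + e)
  L_mem : X.L ∈ R 1
  π_mem : ∀ a, D.π a ∈ R 0
  inverse : ∀ (a : ℤ) (k : ℕ), a + k = X.n → ∃ s ∈ R (-k), ∀ x,
    (X.L ^ k) (s (D.π (X.n + k) x)) = D.π (X.n + k) x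
  transpose : ∀ d, ∀ r ∈ R d, ∃ r' ∈ R d, (∀ x y, X.ht (r x) y = X.ht x (r' y)) ∧
    (r ∈ J d → r' ∈ J d)

/-- nilpotence -/
def CA.Nil {X : HeightSpace} {D : LefschetzDecomposition X} (C : CA X D) : Prop :=
  ∀ r ∈ C.J 0, ∃ m : ℕ, r ^ m = 0

variable {X : HeightSpace} {D : LefschetzDecomposition X} (C : CA X D)

/-- primitive classes -/
def Prim (D : LefschetzDecomposition X) (i : ℤ) (k : ℕ) (x : X.V) : Prop :=
  Part D 1 i x ∧ (X.L ^ (k + 1)) x = 0

theorem L_pow_mem_R (k : ℕ) : X.L ^ (k + 1) ∈ C.R ((k + 1 : ℕ) : ℤ) := by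
  induction k with
  | zero => simpa using C.L_mem
  | succ k ih =>
    rw [pow_succ]
    have := C.mul _ _ _ ih _ C.L_mem
    have e : ((k + 1 + 1 : ℕ) : ℤ) = ((k + 1 : ℕ) : ℤ) + 1 := by push_cast; ring
    rw [e]
    exact this

/-- multiplying by a power of `L`, zero included -/
theorem L_pow_mul_J (k : ℕ) (d : ℤ) (r : Module.End ℚ X.V) (hr : r ∈ C.J d) :
    X.L ^ k * r ∈ C.J (k + d) := by
  rcases k with _ | k
  · simpa using hr
  · exact C.mul_left _ _ _ (L_pow_mem_R C k) _ hr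

theorem mul_L_pow_J (k : ℕ) (d : ℤ) (r : Module.End ℚ X.V) (hr : r ∈ C.J d) :
    r * X.L ^ k ∈ C.J (d + k) := by
  rcases k with _ | k
  · simpa using hr
  · exact C.mul_right _ _ _ hr _ (L_pow_mem_R C k)

include C in
/-- the primitive component and the rest are given by correspondences -/
theorem exists_prim (i : ℤ) (k : ℕ) (hk : 2 * i + k = X.n + 1) :
    ∃ p ∈ C.R 0, ∃ ρ ∈ C.R (-1), ∀ x ∈ X.Ch i, Prim D i k (p x) ∧ Part D 1 (i - 1) (ρ x) ∧
      D.π (2 * i - 1) x = p x + X.L (ρ x) := by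
  obtain ⟨s, hs, hs'⟩ := C.inverse (2 * i - 3) (k + 2) (by push_cast; omega)
  let ρ : Module.End ℚ X.V :=
    D.π (2 * i - 3) * (s * (D.π (X.n + ((k + 2 : ℕ) : ℤ)) * (X.L ^ (k + 1) * D.π (2 * i - 1))))
  have hρ : ρ ∈ C.R (-1) := by
    have h1 := C.mul _ _ _ (L_pow_mem_R C k) _ (C.π_mem (2 * i - 1))
    have h2 := C.mul _ _ _ (C.π_mem (X.n + ((k + 2 : ℕ) : ℤ))) _ h1
    have h3 := C.mul _ _ _ hs _ h2
    have h4 := C.mul _ _ _ (C.π_mem (2 * i - 3)) _ h3
    have e : (0 : ℤ) + (-((k + 2 : ℕ) : ℤ) + (0 + (((k + 1 : ℕ) : ℤ) + 0))) = -1 := by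
      push_cast; ring
    rw [e] at h4
    exact h4
  have hL : X.L * ρ ∈ C.R 0 := by
    have := C.mul _ _ _ C.L_mem _ hρ
    simpa using this
  refine ⟨D.π (2 * i - 1) - X.L * ρ, C.sub _ _ (C.π_mem _) _ hL, ρ, hρ, fun x hx => ?_⟩
  have hy : Part D 1 i (D.π (2 * i - 1) x) := part_π hx
  have hz := hy.pow (k + 1)
  have e1 : 2 * (i + ((k + 1 : ℕ) : ℤ)) - 1 = X.n + ((k + 2 : ℕ) : ℤ) := by push_cast; omega
  have hzπ : D.π (X.n + ((k + 2 : ℕ) : ℤ)) ((X.L ^ (k + 1)) (D.π (2 * i - 1) x)) =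
      (X.L ^ (k + 1)) (D.π (2 * i - 1) x) := by
    rw [← e1]
    exact hz.2
  have hρx : ρ x = D.π (2 * i - 3) (s ((X.L ^ (k + 1)) (D.π (2 * i - 1) x))) := by
    show D.π (2 * i - 3) (s (D.π (X.n + ((k + 2 : ℕ) : ℤ)) ((X.L ^ (k + 1)) (D.π (2 * i - 1) x)))) = _
    rw [hzπ]
  have hsm : s ((X.L ^ (k + 1)) (D.π (2 * i - 1) x)) ∈ X.Ch (i - 1) := by
    have h1 := C.map _ _ hs _ _ hz.1
    have e : i + ((k + 1 : ℕ) : ℤ) + -((k + 2 : ℕ) : ℤ) = i - 1 := by push_cast; ring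
    rw [e] at h1
    exact h1
  have hρp : Part D 1 (i - 1) (ρ x) := by
    rw [hρx]
    have e : 2 * i - 3 = 2 * (i - 1) - 1 := by ring
    rw [e]
    exact part_π hsm
  have hLρ : (X.L ^ (k + 2)) (ρ x) = (X.L ^ (k + 1)) (D.π (2 * i - 1) x) := by
    rw [hρx, map_L_pow]
    have h1 := hs' ((X.L ^ (k + 1)) (D.π (2 * i - 1) x))
    rw [hzπ] at h1
    rw [h1]
    have e : 2 * i - 3 + 2 * ((k + 2 : ℕ) : ℤ) = X.n + ((k + 2 : ℕ) : ℤ) := by push_cast; omega
    rw [e]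
    exact hzπ
  have hLρp : Part D 1 i (X.L (ρ x)) := by
    have := hρp.pow 1
    rw [pow_one] at this
    have e : i - 1 + ((1 : ℕ) : ℤ) = i := by push_cast; ring
    rw [e] at this
    exact this
  refine ⟨⟨?_, ?_⟩, hρp, ?_⟩
  · exact hy.sub hLρp
  · show (X.L ^ (k + 1)) (D.π (2 * i - 1) x - X.L (ρ x)) = 0
    rw [map_sub, ← Module.End.mul_apply _ X.L, ← pow_succ, hLρ, sub_self]
  · show _ = D.π (2 * i - 1) x - X.L (ρ x) + X.L (ρ x)
    rw [sub_add_cancel]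

/-- nilpotent self-adjoint operators for a definite form vanish -/
theorem nil_zero (hI : X.HodgeIndex) (i : ℤ) (k : ℕ) (hk : 2 * i + k = X.n + 1)
    (E : Module.End ℚ X.V) (hE : ∀ x, Prim D i k x → Prim D i k (E x))
    (hsa : ∀ x y, Prim D i k x → Prim D i k y →
      X.ht x ((X.L ^ k) (E y)) = X.ht (E x) ((X.L ^ k) y)) :
    ∀ N : ℕ, (∀ x, Prim D i k x → (E ^ (N + 1)) x = 0) → ∀ x, Prim D i k x → E x = 0 := by
  have hpow : ∀ m x, Prim D i k x → Prim D i k ((E ^ m) x) := by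
    intro m
    induction m with
    | zero => intro x hx; exact hx
    | succ m ih => intro x hx; rw [pow_succ, Module.End.mul_apply]; exact ih _ (hE x hx)
  have hsap : ∀ m x y, Prim D i k x → Prim D i k y →
      X.ht x ((X.L ^ k) ((E ^ m) y)) = X.ht ((E ^ m) x) ((X.L ^ k) y) := by
    intro m
    induction m with
    | zero => intro x y _ _; rfl
    | succ m ih =>
      intro x y hx hy
      have e1 : (E ^ (m + 1)) y = (E ^ m) (E y) := by rw [pow_succ, Module.End.mul_apply]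
      have e2 : (E ^ (m + 1)) x = E ((E ^ m) x) := by rw [pow_succ', Module.End.mul_apply]
      rw [e1, e2, ih x (E y) hx (hE y hy), hsa _ _ (hpow m x hx) hy]
  have hdef : ∀ x, Prim D i k x → X.ht x ((X.L ^ k) x) = 0 → x = 0 := by
    intro x hx h0
    by_contra hx0
    have h1 := hI i k hk x hx.1.1 hx0 hx.2
    rw [h0, mul_zero] at h1
    exact lt_irrefl _ h1
  intro N
  induction N with
  | zero => intro h x hx; have := h x hx; rwa [zero_add, pow_one] at this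
  | succ N ih =>
    intro h
    refine ih fun x hx => hdef _ (hpow _ x hx) ?_
    rw [← hsap _ x _ hx (hpow _ x hx), ← Module.End.mul_apply (E ^ (N + 1)), ← pow_add]
    have e : N + 1 + (N + 1) = N + (N + 1 + 1) := by omega
    rw [e, pow_add, Module.End.mul_apply, h x hx, map_zero, map_zero, map_zero]

include C in
theorem key_zero (hI : X.HodgeIndex) (hnil : C.Nil) (i : ℤ) (k : ℕ) (hk : 2 * i + k = X.n + 1)
    (d : ℤ) (k' : ℕ) (hk' : 2 * (i + d) + k' = X.n + 1) (θ : Module.End ℚ X.V) (hθ : θ ∈ C.J d)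
    (p : X.V) (hp : Prim D i k p) (hu : Prim D (i + d) k' (θ p)) : θ p = 0 := by
  obtain ⟨θ', hθ', hadj, hJ'⟩ := C.transpose d θ (C.le d hθ)
  have hθJ := hJ' hθ
  obtain ⟨s, hs, hs'⟩ := C.inverse (2 * i - 1) k (by omega)
  obtain ⟨P, hP, ρ, hρ, hPρ⟩ := exists_prim C i k hk
  let Z : Module.End ℚ X.V := s * (D.π (X.n + k) * (θ' * (X.L ^ k' * θ)))
  have hZ : Z ∈ C.J 0 := by
    have h1 := L_pow_mul_J C k' d θ hθ
    have h2 := C.mul_left _ _ _ hθ' _ h1
    have h3 := C.mul_left _ _ _ (C.π_mem (X.n + k)) _ h2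
    have h4 := C.mul_left _ _ _ hs _ h3
    have e : -(k : ℤ) + (0 + (d + (k' + d))) = 0 := by omega
    rw [e] at h4
    exact h4
  let E : Module.End ℚ X.V := P * Z
  have hE : E ∈ C.J 0 := by
    have := C.mul_left _ _ _ hP _ hZ
    simpa using this
  have hZm : ∀ x, x ∈ X.Ch i → Z x ∈ X.Ch i := by
    intro x hx
    have := C.map 0 Z (C.le 0 hZ) i x hx
    simpa using this
  have hEprim : ∀ x, Prim D i k x → Prim D i k (E x) := fun x hx =>
    (hPρ (Z x) (hZm x hx.1.1)).1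
  have hLZ : ∀ x, (X.L ^ k) (Z x) = D.π (X.n + k) (θ' ((X.L ^ k') (θ x))) := fun x => hs' _
  have hb : ∀ x y, Prim D i k x → Prim D i k y →
      X.ht x ((X.L ^ k) (E y)) = X.ht (θ x) ((X.L ^ k') (θ y)) := by
    intro x y hx hy
    obtain ⟨_, h2, h3⟩ := hPρ (Z y) (hZm y hy.1.1)
    have h4 : P (Z y) = D.π (2 * i - 1) (Z y) - X.L (ρ (Z y)) := by rw [h3, add_sub_cancel_right]
    have h5 : X.ht x ((X.L ^ k) (X.L (ρ (Z y)))) = 0 := by
      rw [← Module.End.mul_apply _ X.L, ← pow_succ, ← adj_pow, hx.2, map_zero, LinearMap.zero_apply]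
    show X.ht x ((X.L ^ k) (P (Z y))) = _
    rw [h4, map_sub, map_sub, h5, sub_zero, map_L_pow, hLZ]
    have e1 : 2 * i - 1 + 2 * (k : ℤ) = 2 * X.n - (2 * i - 1) := by omega
    have e2 : (X.n : ℤ) + k = 2 * X.n - (2 * i - 1) := by omega
    have hx1 : D.π (2 * i - 1) x = x := hx.1.2
    rw [e1, ← D.dual, hx1, e2, ← D.dual, hx1, ← hadj]
  have hsa : ∀ x y, Prim D i k x → Prim D i k y →
      X.ht x ((X.L ^ k) (E y)) = X.ht (E x) ((X.L ^ k) y) := by
    intro x y hx hy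
    rw [hb x y hx hy, ← adj_pow X k, X.symm ((X.L ^ k) (E x)), hb y x hy hx, ← adj_pow X k', X.symm]
  obtain ⟨N, hN⟩ := hnil E hE
  have hE0 : E p = 0 := by
    refine nil_zero hI i k hk E hEprim hsa N (fun x hx => ?_) p hp
    rw [pow_succ, Module.End.mul_apply, hN, LinearMap.zero_apply]
  have h0 := hb p p hp hp
  rw [hE0, map_zero, map_zero] at h0
  by_contra hu0
  have h1 := hI (i + d) k' hk' (θ p) hu.1.1 hu0 hu.2
  rw [← h0, mul_zero] at h1
  exact lt_irrefl _ h1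

include C in
/-- the case of primitive classes, small target -/
theorem prim_low (hI : X.HodgeIndex) (hnil : C.Nil) (i : ℤ) (k : ℕ) (hk : 2 * i + k = X.n + 1)
    (p : X.V) (hp : Prim D i k p) :
    ∀ (m : ℕ) (d : ℤ) (k' : ℕ), i + d ≤ m → 2 * (i + d) + k' = X.n + 1 → ∀ γ ∈ C.J d,
      D.π (2 * (i + d) - 1) (γ p) = 0 := by
  have step : ∀ (d : ℤ) (k' : ℕ), 2 * (i + d) + k' = X.n + 1 →
      (∀ γ ∈ C.J (d - 1), D.π (2 * (i + (d - 1)) - 1) (γ p) = 0) → ∀ γ ∈ C.J d,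
      D.π (2 * (i + d) - 1) (γ p) = 0 := by
    intro d k' hk' ih γ hγ
    have hγm := C.map d γ (C.le d hγ) i p hp.1.1
    obtain ⟨P, hP, ρ, hρ, hPρ⟩ := exists_prim C (i + d) k' hk'
    obtain ⟨h1, h2, h3⟩ := hPρ _ hγm
    have hθ : P * γ ∈ C.J d := by
      have := C.mul_left _ _ _ hP _ hγ
      simpa using this
    have h4 : P (γ p) = 0 := key_zero C hI hnil i k hk d k' hk' (P * γ) hθ p hp h1
    have hργ : ρ * γ ∈ C.J (d - 1) := by
      have := C.mul_left _ _ _ hρ _ hγ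
      have e : -1 + d = d - 1 := by ring
      rwa [e] at this
    have h5 : ρ (γ p) = 0 := by
      have h6 := ih _ hργ
      have e : 2 * (i + (d - 1)) - 1 = 2 * (i + d - 1) - 1 := by ring
      rw [e] at h6
      have h7 : D.π (2 * (i + d - 1) - 1) (ρ (γ p)) = ρ (γ p) := h2.2
      rw [← h7]
      exact h6
    rw [h3, h4, h5, map_zero, add_zero]
  intro m
  induction m with
  | zero =>
    intro d k' hd hk' γ hγ
    refine step d k' hk' (fun γ' hγ' => ?_) γ hγ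
    have h1 : Part D 1 (i + (d - 1)) (D.π (2 * (i + (d - 1)) - 1) (γ' p)) :=
      part_π (C.map _ γ' (C.le _ hγ') i p hp.1.1)
    exact h1.zero_of_neg (by simp at hd; omega)
  | succ m ih =>
    intro d k' hd hk' γ hγ
    refine step d k' hk' (fun γ' hγ' => ?_) γ hγ
    exact ih (d - 1) (k' + 2) (by push_cast at hd; omega) (by push_cast; omega) γ' hγ'

include C in
/-- the case of primitive classes -/
theorem prim_all (hI : X.HodgeIndex) (hnil : C.Nil) (i : ℤ) (k : ℕ) (hk : 2 * i + k = X.n + 1)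
    (p : X.V) (hp : Prim D i k p) (d : ℤ) (γ : Module.End ℚ X.V) (hγ : γ ∈ C.J d) :
    D.π (2 * (i + d) - 1) (γ p) = 0 := by
  rcases le_or_gt (2 * (i + d)) ((X.n : ℤ) + 1) with h | h
  · obtain ⟨k', hk'⟩ := Int.eq_ofNat_of_zero_le (by omega : (0 : ℤ) ≤ (X.n : ℤ) + 1 - 2 * (i + d))
    exact prim_low C hI hnil i k hk p hp (i + d).toNat d k' (Int.self_le_toNat _) (by omega) γ hγ
  · obtain ⟨k', hk'⟩ := Int.eq_ofNat_of_zero_le (by omega : (0 : ℤ) ≤ 2 * (i + d) - ((X.n : ℤ) + 1))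
    obtain ⟨s, hs, hs'⟩ := C.inverse (2 * (i + (d - k')) - 1) k' (by omega)
    have hθ : s * (D.π (X.n + k') * γ) ∈ C.J (d - k') := by
      have h1 := C.mul_left _ _ _ (C.π_mem (X.n + k')) _ hγ
      have h2 := C.mul_left _ _ _ hs _ h1
      have e : -(k' : ℤ) + (0 + d) = d - k' := by ring
      rwa [e] at h2
    have h1 := prim_low C hI hnil i k hk p hp (i + (d - k')).toNat (d - k') k' (Int.self_le_toNat _)
      (by omega) _ hθ
    have h2 := map_L_pow D k' (2 * (i + (d - k')) - 1) (s (D.π (X.n + k') (γ p)))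
    have h3 : D.π (2 * (i + (d - k')) - 1) (s (D.π (X.n + k') (γ p))) = 0 := h1
    rw [h3, map_zero, hs'] at h2
    have e1 : 2 * (i + (d - k')) - 1 + 2 * (k' : ℤ) = X.n + k' := by omega
    have e2 : 2 * (i + d) - 1 = X.n + (k' : ℤ) := by omega
    rw [e1, D.idem] at h2
    rw [e2]
    exact h2.symm

include C in
/-- all classes of the part `s = 1` -/
theorem part_low (hI : X.HodgeIndex) (hnil : C.Nil) :
    ∀ (m : ℕ) (i : ℤ) (k : ℕ), i ≤ m → 2 * i + k = X.n + 1 → ∀ x, Part D 1 i x →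
      ∀ (d : ℤ), ∀ γ ∈ C.J d, D.π (2 * (i + d) - 1) (γ x) = 0 := by
  have step : ∀ (i : ℤ) (k : ℕ), 2 * i + k = X.n + 1 →
      (∀ x, Part D 1 (i - 1) x → ∀ (d : ℤ), ∀ γ ∈ C.J d, D.π (2 * (i - 1 + d) - 1) (γ x) = 0) →
      ∀ x, Part D 1 i x → ∀ (d : ℤ), ∀ γ ∈ C.J d, D.π (2 * (i + d) - 1) (γ x) = 0 := by
    intro i k hk ih x hx d γ hγ
    obtain ⟨P, hP, ρ, hρ, hPρ⟩ := exists_prim C i k hk
    obtain ⟨h1, h2, h3⟩ := hPρ x hx.1
    have hx2 : D.π (2 * i - 1) x = x := hx.2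
    rw [hx2] at h3
    have h4 := prim_all C hI hnil i k hk _ h1 d γ hγ
    have h5 := ih _ h2 (d + 1) (γ * X.L) (by
      have := C.mul_right _ _ _ hγ _ C.L_mem
      exact this)
    have e : 2 * (i - 1 + (d + 1)) - 1 = 2 * (i + d) - 1 := by ring
    rw [e, Module.End.mul_apply] at h5
    conv_lhs => rw [h3]
    rw [map_add, map_add, h4, h5, add_zero]
  intro m
  induction m with
  | zero =>
    intro i k hi hk x hx d γ hγ
    refine step i k hk (fun z hz d γ hγ => ?_) x hx d γ hγ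
    rw [hz.zero_of_neg (by simp at hi; omega), map_zero, map_zero]
  | succ m ih =>
    intro i k hi hk x hx d γ hγ
    exact step i k hk (fun z hz d γ hγ => ih (i - 1) (k + 2) (by push_cast at hi; omega)
      (by push_cast; omega) z hz d γ hγ) x hx d γ hγ

include C in
theorem part_all (hI : X.HodgeIndex) (hnil : C.Nil) (i : ℤ) (x : X.V) (hx : Part D 1 i x) (d : ℤ)
    (γ : Module.End ℚ X.V) (hγ : γ ∈ C.J d) : D.π (2 * (i + d) - 1) (γ x) = 0 := by
  rcases le_or_gt (2 * i) ((X.n : ℤ) + 1) with h | h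
  · obtain ⟨k, hk⟩ := Int.eq_ofNat_of_zero_le (by omega : (0 : ℤ) ≤ (X.n : ℤ) + 1 - 2 * i)
    exact part_low C hI hnil i.toNat i k (Int.self_le_toNat _) (by omega) x hx d γ hγ
  · obtain ⟨k, hk⟩ := Int.eq_ofNat_of_zero_le (by omega : (0 : ℤ) ≤ 2 * i - ((X.n : ℤ) + 1))
    have e1 : i = ((X.n : ℤ) + 1 - i) + (k : ℤ) := by omega
    have h3 : Part D 1 (((X.n : ℤ) + 1 - i) + (k : ℤ)) x := by
      rw [← e1]; exact hx
    obtain ⟨z, hz, hz'⟩ := part_surj (D := D) (s := 1) (by omega) h3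
    have h4 := part_low C hI hnil ((X.n : ℤ) + 1 - i).toNat _ k (Int.self_le_toNat _) (by omega) z hz
      (d + k) (γ * X.L ^ k) (mul_L_pow_J C k d γ hγ)
    have e : 2 * ((X.n : ℤ) + 1 - i + (d + k)) - 1 = 2 * (i + d) - 1 := by omega
    rw [e, Module.End.mul_apply, hz'] at h4
    exact h4

/-- **Main theorem**: homologically trivial correspondences act as zero modulo the kernel of the
height pairing -/
theorem nil_main (hI : X.HodgeIndex) (hnil : C.Nil) (d : ℤ) (r : Module.End ℚ X.V) (hr : r ∈ C.J d)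
    (i : ℤ) (x : X.V) (hx : x ∈ X.Ch i) : X.InRadical (i + d) (r x) := by
  have hrx := C.map d r (C.le d hr) i x hx
  refine (radical_iff hI D _ _ hrx).2 ?_
  conv_lhs => rw [← D.total x]
  rw [map_sum, map_sum]
  refine Finset.sum_eq_zero fun a _ => ?_
  by_cases ha : a = 2 * i - 1
  · subst ha
    exact part_all C hI hnil i _ (part_π hx) d r hr
  · have h1 : X.InRadical i (D.π a x) :=
      (radical_iff hI D i _ (D.mem _ _ _ hx)).2 (D.orth _ _ (Ne.symm ha) _)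
    have h2 : X.InRadical (i + d) (r (D.π a x)) := by
      refine ⟨C.map d r (C.le d hr) i _ h1.1, fun y hy => ?_⟩
      obtain ⟨r', hr', hadj, _⟩ := C.transpose d r (C.le d hr)
      rw [hadj]
      refine h1.2 _ ?_
      have := C.map d r' hr' _ y hy
      have e : (X.n : ℤ) + 1 - (i + d) + d = X.n + 1 - i := by ring
      rwa [e] at this
    exact (radical_iff hI D _ _ h2.1).1 h2

/-- from maps to linear maps -/
def CorrespondenceAction.toCA (C : CorrespondenceAction X D) : CA X D where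
  R d := {f | (fun x => f x) ∈ C.R d}
  J d := {f | (fun x => f x) ∈ C.J d}
  le d f hf := C.le d hf
  map d r hr i x hx := C.map d _ hr i x hx
  sub d r hr s hs := C.sub d _ hr _ hs
  mul d e r hr s hs := C.comp d e _ hr _ hs
  mul_left d e r hr s hs := C.ideal d e _ hr _ (C.le e hs) (Or.inr hs)
  mul_right d e r hr s hs := C.ideal d e _ (C.le d hr) _ hs (Or.inl hr)
  L_mem := C.L_mem
  π_mem := C.π_mem
  inverse a k h := by
    obtain ⟨s, hs, h'⟩ := C.inverse a k h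
    exact ⟨(C.lin _ s hs).mk' s, hs, h'⟩
  transpose d r hr := by
    obtain ⟨r', hr', h1, h2⟩ := C.transpose d _ hr
    exact ⟨(C.lin _ r' hr').mk' r', hr', h1, h2⟩

theorem CorrespondenceAction.nil_toCA (C : CorrespondenceAction X D) (h : C.Nil) : C.toCA.Nil := by
  intro r hr
  obtain ⟨m, hm⟩ := h _ hr
  refine ⟨m, LinearMap.ext fun x => ?_⟩
  have h1 : ∀ k : ℕ, (r ^ k) x = (fun x => r x)^[k] x := by
    intro k
    rw [Module.End.pow_apply]
  rw [h1, hm]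
  rfl

/-- **Main theorem** for maps -/
theorem nil_main' (C : CorrespondenceAction X D) (hI : X.HodgeIndex) (hnil : C.Nil) (d : ℤ)
    (r : X.V → X.V) (hr : r ∈ C.J d) (i : ℤ) (x : X.V) (hx : x ∈ X.Ch i) :
    X.InRadical (i + d) (r x) :=
  nil_main C.toCA hI (C.nil_toCA hnil) d ((C.lin d r (C.le d hr)).mk' r) hr i x hx

end Pool.Agent.X310.HT
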