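import Pool.Agent.X310.HtDefs

set_option autoImplicit false

/-! # Correspondences acting on homologically trivial classes: the definitions -/

namespace Pool.Agent.X310.HT

/-- The action on the homologically trivial classes of the correspondences of `X` with itself and of
the ideal of homologically trivial correspondences, for a variety with a Lefschetz decomposition
whose projectors and inverse Lefschetz isomorphisms are given by correspondences. -/
structure CorrespondenceAction (X : HeightSpace) (D : LefschetzDecomposition X) where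
  /-- the maps given by correspondences of degree `d` -/
  R : ℤ → Set (X.V → X.V)
  /-- the maps given by homologically trivial correspondences of degree `d` -/
  J : ℤ → Set (X.V → X.V)
  lin : ∀ d, ∀ r ∈ R d, IsLinearMap ℚ r
  sub : ∀ d, ∀ r ∈ R d, ∀ s ∈ R d, (fun x => r x - s x) ∈ R d
  comp : ∀ d e, ∀ r ∈ R d, ∀ s ∈ R e, (fun x => r (s x)) ∈ R (d + e)
  le : ∀ d, J d ⊆ R d
  ideal : ∀ d e, ∀ r ∈ R d, ∀ s ∈ R e, r ∈ J d ∨ s ∈ J e → (fun x => r (s x)) ∈ J (d + e)
  map : ∀ d, ∀ r ∈ R d, ∀ i, ∀ x ∈ X.Ch i, r x ∈ X.Ch (i + d)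
  L_mem : (fun x => X.L x) ∈ R 1
  π_mem : ∀ a, (fun x => D.π a x) ∈ R 0
  inverse : ∀ (a : ℤ) (k : ℕ), a + k = X.n → ∃ s ∈ R (-k), ∀ x,
    (X.L ^ k) (s (D.π (X.n + k) x)) = D.π (X.n + k) x
  transpose : ∀ d, ∀ r ∈ R d, ∃ r' ∈ R d, (∀ x y, X.ht (r x) y = X.ht x (r' y)) ∧
    (r ∈ J d → r' ∈ J d)

/-- the homologically trivial correspondences of degree `0` are nilpotent -/
def CorrespondenceAction.Nil {X : HeightSpace} {D : LefschetzDecomposition X}
    (C : CorrespondenceAction X D) : Prop :=
  ∀ r ∈ C.J 0, ∃ m : ℕ, ∀ x, r^[m] x = 0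

end Pool.Agent.X310.HT
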