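import Pool.Agent.H447R3.DegA

/-!
# Nilpotent elements of finite dimensional algebras with a trace form
-/

set_option autoImplicit false
set_option linter.unusedSectionVars false

open Polynomial Module

namespace Pool.Agent.X310.Jm

open Pool.Agent.H914 Pool.Agent.H447

section operators

variable {K : Type*} [Field K] [CharZero K] {V : Type*} [AddCommGroup V] [Module K V]
  {E F H : End K V}

omit [CharZero K] in
lemma eh (h2 : H * E - E * H = 2 * E) : E * H = (H - 2) * E := by
  calc E * H = H * E - (H * E - E * H) := by noncomm_ring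
    _ = (H - 2) * E := by rw [h2]; noncomm_ring

omit [CharZero K] in
lemma epow_f (h1 : E * F - F * E = H) (h2 : H * E - E * H = 2 * E) (k : ℕ) :
    E ^ (k + 1) * F = F * E ^ (k + 1) + (k + 1 : ℕ) • ((H - k) * E ^ k) := by
  induction k with
  | zero =>
    simp only [zero_add, pow_one, one_smul, Nat.cast_zero, sub_zero, pow_zero, mul_one]
    rw [← h1]; noncomm_ring
  | succ k ih =>
    have h3 : E ^ (k + 1 + 1) * F = E * (E ^ (k + 1) * F) := by rw [pow_succ' E (k + 1), mul_assoc]
    have h4 : E * F = F * E + H := by rw [← h1]; noncomm_ring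
    have hk : E * (k : End K V) = (k : End K V) * E := (Nat.cast_commute k E).symm
    have h5 : E * (F * E ^ (k + 1)) = F * E ^ (k + 1 + 1) + H * E ^ (k + 1) := by
      rw [← mul_assoc, h4, add_mul, mul_assoc, ← pow_succ']
    have h6 : E * ((H - k) * E ^ k) = (H - 2 - k) * E ^ (k + 1) := by
      calc E * ((H - k) * E ^ k) = (E * H - E * k) * E ^ k := by noncomm_ring
        _ = ((H - 2) * E - k * E) * E ^ k := by rw [eh h2, hk]
        _ = (H - 2 - k) * (E * E ^ k) := by noncomm_ring
        _ = _ := by rw [← pow_succ']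
    rw [h3, ih, mul_add, h5, mul_smul_comm, h6]
    simp only [nsmul_eq_mul]
    push_cast
    have hk2 : ∀ y : End K V, y * (k : End K V) = (k : End K V) * y :=
      fun y => (Nat.cast_commute k y).symm
    have e1 : (H - (k + 1 : End K V)) * E ^ (k + 1) =
        H * E ^ (k + 1) - k * E ^ (k + 1) - E ^ (k + 1) := by
      noncomm_ring
    have e2 : (H - 2 - (k : End K V)) * E ^ (k + 1) =
        H * E ^ (k + 1) - E ^ (k + 1) - E ^ (k + 1) - k * E ^ (k + 1) := by
      noncomm_ring
    rw [e1, e2]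
    noncomm_ring

lemma aeval_sub_C (H : End K V) (c : K) (x : V) : aeval H (X - C c) x = H x - c • x := by
  rw [map_sub, aeval_X, aeval_C, LinearMap.sub_apply, Module.algebraMap_end_apply]

lemma ker_range (h1 : E * F - F * E = H) (h2 : H * E - E * H = 2 * E) {x : V} (hx : E x = 0)
    (j : ℕ) : E (aeval H (∏ i ∈ Finset.range j, (X - C (i : K))) x) = 0 ∧
      ∃ y, aeval H (∏ i ∈ Finset.range j, (X - C (i : K))) x = (E ^ j) y := by
  induction j with
  | zero => exact ⟨by simpa using hx, x, by simp⟩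
  | succ j ih =>
    obtain ⟨h3, y, hy⟩ := ih
    set xj := aeval H (∏ i ∈ Finset.range j, (X - C (i : K))) x with hxj
    have h4 : aeval H (∏ i ∈ Finset.range (j + 1), (X - C (i : K))) x = H xj - (j : K) • xj := by
      rw [Finset.prod_range_succ, mul_comm, map_mul, Module.End.mul_apply, ← hxj, aeval_sub_C]
    have h5 : ∀ v, E (H v) = H (E v) - (2 : K) • E v := by
      intro v
      have := congrArg (fun T => T v) (eh h2)
      simp only [Module.End.mul_apply, LinearMap.sub_apply] at this
      rw [this]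
      congr 1
      rw [show (2 : End K V) = (2 : K) • 1 by rw [ofNat_smul_eq_nsmul, nsmul_eq_mul, mul_one]; rfl,
        LinearMap.smul_apply, Module.End.one_apply]
    refine ⟨by rw [h4, map_sub, h5, map_smul, h3]; simp, ?_⟩
    have h6 := congrArg (fun T => T y) (epow_f h1 h2 j)
    simp only [Module.End.mul_apply, LinearMap.add_apply, LinearMap.smul_apply,
      LinearMap.sub_apply] at h6
    have h9 : (E ^ (j + 1)) y = 0 := by
      rw [pow_succ', Module.End.mul_apply, ← hy, h3]
    rw [h9, map_zero, zero_add, ← hy] at h6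
    have h7 : ((j : End K V)) xj = (j : K) • xj := by
      rw [show (j : End K V) = (j : K) • (1 : End K V) by
        rw [Nat.cast_smul_eq_nsmul, nsmul_eq_mul, mul_one]]
      rfl
    rw [h7, ← Nat.cast_smul_eq_nsmul K] at h6
    have h8 : ((j + 1 : ℕ) : K) ≠ 0 := by exact_mod_cast Nat.succ_ne_zero j
    refine ⟨(((j + 1 : ℕ) : K))⁻¹ • F y, ?_⟩
    rw [h4, map_smul, h6, smul_smul, inv_mul_cancel₀ h8, one_smul]

lemma prod_ker (h1 : E * F - F * E = H) (h2 : H * E - E * H = 2 * E) {m : ℕ} (hm : E ^ m = 0)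
    {x : V} (hx : E x = 0) : aeval H (∏ i ∈ Finset.range m, (X - C (i : K))) x = 0 := by
  obtain ⟨y, hy⟩ := (ker_range h1 h2 hx m).2
  rw [hy, hm, LinearMap.zero_apply]

lemma aeval_eigen {c : K} {x : V} (hx : H x = c • x) (P : K[X]) :
    aeval H P x = P.eval c • x := by
  induction P using Polynomial.induction_on' with
  | add a b ha hb => rw [map_add, LinearMap.add_apply, ha, hb, eval_add, add_smul]
  | monomial r a =>
    have h3 : ∀ r : ℕ, (H ^ r) x = c ^ r • x := by
      intro r
      induction r with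
      | zero => simp
      | succ r ih => rw [pow_succ, Module.End.mul_apply, hx, map_smul, ih, smul_smul, pow_succ']
    rw [aeval_monomial, Module.End.mul_apply, h3, Module.algebraMap_end_apply, smul_smul,
      eval_monomial]

/-- `H + 2` is bijective on the kernel of `E`. -/
lemma surj_ker (h1 : E * F - F * E = H) (h2 : H * E - E * H = 2 * E) {m : ℕ} (hm : E ^ m = 0)
    (S : Submodule K V) [Module.Finite K S] (hS : ∀ x ∈ S, E x = 0) (hH : ∀ x ∈ S, H x ∈ S)
    {u : V} (hu : u ∈ S) : ∃ w ∈ S, H w + (2 : K) • w = u := by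
  have hT : ∀ x ∈ S, (H + (2 : K) • 1) x ∈ S := fun x hx => by
    rw [LinearMap.add_apply, LinearMap.smul_apply, Module.End.one_apply]
    exact S.add_mem (hH x hx) (S.smul_mem _ hx)
  have hinj : Function.Injective ((H + (2 : K) • 1 : End K V).restrict hT) := by
    rw [← LinearMap.ker_eq_bot, LinearMap.ker_eq_bot']
    rintro ⟨x, hx⟩ h0
    have h3 : (H + (2 : K) • 1) x = 0 := congrArg Subtype.val h0
    rw [LinearMap.add_apply, LinearMap.smul_apply, Module.End.one_apply] at h3
    have h4 : H x = (-2 : K) • x := by rw [neg_smul]; exact eq_neg_of_add_eq_zero_left h3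
    have h5 := prod_ker h1 h2 hm (hS x hx)
    rw [aeval_eigen h4, eval_prod, smul_eq_zero] at h5
    rcases h5 with h5 | h5
    · exfalso
      obtain ⟨i, -, hi⟩ := Finset.prod_eq_zero_iff.1 h5
      rw [eval_sub, eval_X, eval_C] at hi
      have : ((i + 2 : ℕ) : K) = 0 := by push_cast; linear_combination -hi
      exact absurd (by exact_mod_cast this : i + 2 = 0) (by omega)
    · exact Subtype.ext h5
  obtain ⟨w, hw⟩ := (LinearMap.injective_iff_surjective.1 hinj) ⟨u, hu⟩
  refine ⟨w, w.2, ?_⟩
  have := congrArg Subtype.val hw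
  exact this

/-- The polynomial with integral roots. -/
noncomputable def rootPoly (K : Type*) [Field K] (m j : ℕ) : K[X] :=
  ∏ l ∈ Finset.range j, ∏ i ∈ Finset.range m, (X - C ((i : K) - 2 * l))

lemma epow_shift (h2 : H * E - E * H = 2 * E) (j : ℕ) (s : Finset ℕ) :
    E ^ j * aeval H (∏ i ∈ s, (X - C ((i : K) - 2 * j))) =
      aeval H (∏ i ∈ s, (X - C (i : K))) * E ^ j := by
  have h3 : ∀ j : ℕ, E ^ j * H = (H - (2 * j : K) • 1) * E ^ j := by
    intro j
    induction j with
    | zero => simp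
    | succ j ih =>
      have h4 : E * H = (H - (2 : K) • 1) * E := by
        rw [eh h2]
        congr 2
        rw [ofNat_smul_eq_nsmul, nsmul_eq_mul, mul_one]
        rfl
      rw [pow_succ', mul_assoc, ih, ← mul_assoc, mul_sub, h4, ← mul_assoc]
      congr 1
      rw [mul_smul_comm, mul_one, sub_mul, sub_mul, smul_mul_assoc, smul_mul_assoc, one_mul,
        sub_sub, ← add_smul]
      congr 2
      push_cast
      ring
  classical
  induction s using Finset.induction_on with
  | empty => simp
  | insert a s ha ih =>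
    rw [Finset.prod_insert ha, Finset.prod_insert ha, map_mul, map_mul, ← mul_assoc]
    have h4 : E ^ j * aeval H (X - C ((a : K) - 2 * j)) = aeval H (X - C (a : K)) * E ^ j := by
      simp only [map_sub, aeval_X, aeval_C, mul_sub, sub_mul, h3, Algebra.algebraMap_eq_smul_one,
        mul_smul_comm, smul_mul_assoc, mul_one, one_mul, sub_smul]
      abel
    rw [h4, mul_assoc, ih, mul_assoc]

lemma rootPoly_ker (h1 : E * F - F * E = H) (h2 : H * E - E * H = 2 * E) {m : ℕ}
    (hm : E ^ m = 0) (j : ℕ) : ∀ x, (E ^ j) x = 0 → aeval H (rootPoly K m j) x = 0 := by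
  induction j with
  | zero =>
    intro x hx
    rw [pow_zero, Module.End.one_apply] at hx
    rw [hx, map_zero]
  | succ j ih =>
    intro x hx
    have h3 : E ((E ^ j) x) = 0 := by
      rw [← Module.End.mul_apply, ← pow_succ']
      exact hx
    have h4 := prod_ker h1 h2 hm h3
    rw [← Module.End.mul_apply, ← epow_shift h2, Module.End.mul_apply] at h4
    have h5 := ih _ h4
    rw [rootPoly, Finset.prod_range_succ, map_mul, Module.End.mul_apply]
    exact h5

lemma rootPoly_zero (h1 : E * F - F * E = H) (h2 : H * E - E * H = 2 * E) {m : ℕ}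
    (hm : E ^ m = 0) : aeval H (rootPoly K m m) = 0 :=
  LinearMap.ext fun x => rootPoly_ker h1 h2 hm m x (by rw [hm, LinearMap.zero_apply])

omit [CharZero K] in
lemma f_pow_h (t : Sl2 H E F) (k : ℕ) : F ^ k * H = (H + (2 * k : K) • 1) * F ^ k := by
  induction k with
  | zero => simp
  | succ k ih =>
    have h4 : F * H = (H + (2 : K) • 1) * F := by
      have h5 : (2 : End K V) = (2 : K) • 1 := by
        rw [ofNat_smul_eq_nsmul, nsmul_eq_mul, mul_one]
        rfl
      have h6 : F * H = H * F - (H * F - F * H) := by abel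
      rw [h6, t.hf, add_mul, h5]
      abel
    rw [pow_succ', mul_assoc, ih, ← mul_assoc, mul_add, h4, ← mul_assoc]
    congr 1
    rw [mul_smul_comm, mul_one, add_mul, add_mul, smul_mul_assoc, smul_mul_assoc, one_mul,
      add_assoc, ← add_smul]
    congr 2
    push_cast
    ring

omit [CharZero K] in
lemma e_pow_h' (t : Sl2 H E F) (k : ℕ) : E ^ k * H = (H - (2 * k : K) • 1) * E ^ k := by
  have h5 : (2 * (k : End K V)) = (2 * k : K) • 1 := by
    rw [mul_smul, ofNat_smul_eq_nsmul, nsmul_eq_mul, Nat.cast_smul_eq_nsmul, nsmul_eq_mul, mul_one]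
    rfl
  rw [t.e_pow_h, h5]

lemma gen_f_inj [Module.Finite K V] (t : Sl2 H E F) {k : ℕ} (N : ℕ) : ∀ x : V,
    ((H - (k : K) • 1) ^ N) x = 0 → (F ^ k) x = 0 → x = 0 := by
  induction N with
  | zero => intro x hx _; simpa using hx
  | succ N ih =>
    intro x hx h0
    have h3 := f_pow_h t k
    have h4 : (H - (k : K) • 1) x = 0 := by
      apply ih
      · rw [← Module.End.mul_apply, ← pow_succ]; exact hx
      · rw [LinearMap.sub_apply, map_sub, ← Module.End.mul_apply, h3, Module.End.mul_apply, h0,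
          map_zero, LinearMap.smul_apply, Module.End.one_apply, map_smul, h0, smul_zero, sub_zero]
    apply f_pow_inj t _ h0
    rw [LinearMap.sub_apply, LinearMap.smul_apply, Module.End.one_apply, sub_eq_zero] at h4
    exact h4

lemma gen_ef_inj [Module.Finite K V] (t : Sl2 H E F) {k : ℕ} (N : ℕ) {x : V}
    (hx : ((H - (k : K) • 1) ^ N) x = 0) (h0 : (E ^ k) ((F ^ k) x) = 0) : x = 0 := by
  apply gen_f_inj t N x hx
  have h1 : ∀ N : ℕ, (H + (k : K) • 1) ^ N * F ^ k = F ^ k * (H - (k : K) • 1) ^ N := by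
    intro N
    induction N with
    | zero => simp
    | succ N ih =>
      have h2 : (H + (k : K) • 1) * F ^ k = F ^ k * (H - (k : K) • 1) := by
        rw [mul_sub, f_pow_h t, mul_smul_comm, mul_one, add_mul, add_mul, smul_mul_assoc,
          smul_mul_assoc, one_mul, mul_smul, two_smul]
        abel
      rw [pow_succ, pow_succ, mul_assoc, h2, ← mul_assoc, ih, mul_assoc]
  have h3 : ((-H - (k : K) • 1) ^ N) ((F ^ k) x) = 0 := by
    have : (-H - (k : K) • 1 : End K V) = -(H + (k : K) • 1) := by abel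
    rw [this, neg_pow, Module.End.mul_apply, ← Module.End.mul_apply _ (F ^ k), h1,
      Module.End.mul_apply, hx, map_zero, map_zero]
  apply gen_f_inj t.neg_swap N _ h3
  rw [neg_pow, Module.End.mul_apply, h0, map_zero]

end operators

section alg

variable {K : Type*} [Field K] {M : Type*} [Ring M] [Algebra K M]

/-- A finite dimensional graded algebra with a nondegenerate trace form. -/
structure TrAlg (τ : M →ₗ[K] K) (G : ℤ → Submodule K M) : Prop where
  one : 1 ∈ G 0
  mul : ∀ {a b x y}, x ∈ G a → y ∈ G b → x * y ∈ G (a + b)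
  top : ⨆ d, G d = ⊤
  comm : ∀ x y, τ (x * y) = τ (y * x)
  nondeg : ∀ x, (∀ y, τ (x * y) = 0) → x = 0
  nil : ∀ x, IsNilpotent x → τ x = 0
  deg : ∀ d, d ≠ 0 → ∀ x ∈ G d, τ x = 0

variable {τ : M →ₗ[K] K} {G : ℤ → Submodule K M}

lemma TrAlg.mulc (h : TrAlg τ G) {a b c : ℤ} {x y : M} (hx : x ∈ G a) (hy : y ∈ G b)
    (hc : a + b = c) : x * y ∈ G c := hc ▸ h.mul hx hy

lemma TrAlg.eq_zero (h : TrAlg τ G) {d : ℤ} {x : M} (hx : x ∈ G d)
    (h0 : ∀ y ∈ G (-d), τ (x * y) = 0) : x = 0 := by
  apply h.nondeg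
  intro y
  have hy : y ∈ ⨆ e, G e := h.top ▸ Submodule.mem_top
  refine Submodule.iSup_induction G (motive := fun y => τ (x * y) = 0) hy (fun e y hy => ?_)
    (by rw [mul_zero, map_zero]) (fun a b ha hb => by rw [mul_add, map_add, ha, hb, add_zero])
  by_cases he : e = -d
  · subst he
    exact h0 y hy
  · exact h.deg (d + e) (by omega) _ (h.mul hx hy)

lemma comm_nil [CharZero K] [Module.Finite K M] {e y : M}
    (h : e * (e * y - y * e) = (e * y - y * e) * e) : IsNilpotent (e * y - y * e) := by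
  set z := e * y - y * e with hz
  have hc : Commute e z := h
  have h1 : IsNilpotent (Algebra.lmul K M z) := by
    apply isNilpotent_of_trace_pow
    intro r
    rw [← map_pow]
    have h2 : z ^ (r + 1) = e * (z ^ r * y) - z ^ r * y * e := by
      rw [pow_succ]
      nth_rewrite 2 [hz]
      rw [mul_sub, ← mul_assoc, ← (hc.pow_right r).eq]
      noncomm_ring
    rw [h2, map_sub, map_sub, map_mul, map_mul (Algebra.lmul K M) (z ^ r * y),
      LinearMap.trace_mul_comm, sub_self]
  obtain ⟨k, hk⟩ := h1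
  refine ⟨k, ?_⟩
  rw [← map_pow] at hk
  exact Algebra.lmul_injective (by rw [hk, map_zero])

lemma epow_y {e y z : M} (hz : e * y - y * e = z) (h : e * z = z * e) (m : ℕ) :
    e ^ (m + 1) * y = y * e ^ (m + 1) + (m + 1 : ℕ) • (z * e ^ m) := by
  induction m with
  | zero => rw [zero_add, pow_one, pow_zero, mul_one, one_smul, ← hz]; abel
  | succ m ih =>
    rw [pow_succ' e (m + 1), mul_assoc, ih, mul_add, mul_smul_comm, ← mul_assoc e z, h,
      show e * (y * e ^ (m + 1)) = y * (e * e ^ (m + 1)) + z * e ^ (m + 1) by rw [← hz]; noncomm_ring,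
      mul_assoc z, ← pow_succ' e m, ← pow_succ' e (m + 1), succ_nsmul _ (m + 1)]
    abel

lemma ey_nil {e y : M} (he : IsNilpotent e) (h : e * (e * y - y * e) = (e * y - y * e) * e)
    (hz : IsNilpotent (e * y - y * e)) : IsNilpotent (e * y) := by
  obtain ⟨m, hm⟩ := he
  obtain ⟨k, hk⟩ := hz
  set z := e * y - y * e with hzdef
  have key : ∀ (m : ℕ) (v : M), e ^ m * v = 0 → (e * y) ^ (k * m) * v = 0 := by
    intro m
    induction m with
    | zero => intro v hv; simpa using hv
    | succ m ih =>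
      intro v hv
      have h1 : ∀ j : ℕ, e ^ (m + 1) * ((e * y) ^ j * v) = 0 ∧
          e ^ m * ((e * y) ^ j * v) = ((m + 1) ^ j : ℕ) • (z ^ j * (e ^ m * v)) := by
        intro j
        induction j with
        | zero => exact ⟨by simpa using hv, by simp⟩
        | succ j ihj =>
          obtain ⟨a1, a2⟩ := ihj
          set w := (e * y) ^ j * v with hw
          have a3 : (e * y) ^ (j + 1) * v = e * y * w := by rw [pow_succ', mul_assoc, hw]
          have a4 : e ^ m * (e * y * w) = (m + 1 : ℕ) • (z * (e ^ m * w)) := by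
            have : e ^ m * (e * y * w) = (e ^ (m + 1) * y) * w := by
              rw [pow_succ]
              noncomm_ring
            rw [this, epow_y hzdef.symm h, add_mul, mul_assoc y, a1, mul_zero, zero_add,
              smul_mul_assoc, mul_assoc z]
          refine ⟨?_, ?_⟩
          · rw [a3, pow_succ', mul_assoc e, a4, mul_smul_comm, ← mul_assoc e z, h, mul_assoc z,
              ← mul_assoc e, ← pow_succ', a1, mul_zero, smul_zero]
          · rw [a3, a4, a2, mul_smul_comm, smul_smul, ← mul_assoc z, ← pow_succ', ← pow_succ']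
      have h2 := (h1 k).2
      rw [hk, zero_mul, smul_zero] at h2
      rw [Nat.mul_succ, pow_add, mul_assoc]
      exact ih _ h2
  refine ⟨k * m, ?_⟩
  have := key m 1 (by rw [hm, zero_mul])
  rwa [mul_one] at this

lemma exists_of_ker {U : Type*} [AddCommGroup U] [Module K U] [Module.Finite K U]
    (B : U →ₗ[K] Dual K U) (l : Dual K U) (h : ∀ y, B y = 0 → l y = 0) :
    ∃ w, ∀ y, l y = B y w := by
  have h1 : l ∈ (LinearMap.ker B).dualAnnihilator := by
    rw [Submodule.mem_dualAnnihilator]
    exact fun y hy => h y (LinearMap.mem_ker.1 hy)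
  rw [← LinearMap.range_dualMap_eq_dualAnnihilator_ker] at h1
  obtain ⟨ξ, hξ⟩ := h1
  refine ⟨(Module.evalEquiv K U).symm ξ, fun y => ?_⟩
  rw [← hξ, LinearMap.dualMap_apply]
  conv_lhs => rw [← (Module.evalEquiv K U).apply_symm_apply ξ]
  rfl

/-- The commutator with `e`. -/
noncomputable def ad (K : Type*) [Field K] {M : Type*} [Ring M] [Algebra K M] (e : M) :
    End K M := LinearMap.mulLeft K e - LinearMap.mulRight K e

lemma ad_apply (e x : M) : ad K e x = e * x - x * e := rfl

lemma ad_mem (h : TrAlg τ G) {a d : ℤ} {e x : M} (he : e ∈ G a) (hx : x ∈ G d) :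
    ad K e x ∈ G (a + d) := by
  rw [ad_apply]
  exact Submodule.sub_mem _ (h.mul he hx) (h.mulc hx he (add_comm _ _))

lemma ad_sym (h : TrAlg τ G) (e x y : M) : τ (ad K e x * y) = -τ (x * ad K e y) := by
  rw [ad_apply, ad_apply, sub_mul, mul_sub, map_sub, map_sub, neg_sub, mul_assoc, h.comm e,
    mul_assoc, mul_assoc]

theorem exists_w [CharZero K] [Module.Finite K M] (h : TrAlg τ G) {e : M} (he : e ∈ G 1)
    (hn : IsNilpotent e) : ∃ w ∈ G (-1), ad K e (ad K e w) = e := by
  have hT : ∀ x y, τ (ad K e (ad K e x) * y) = τ (x * ad K e (ad K e y)) := by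
    intro x y
    rw [ad_sym h, ad_sym h, neg_neg]
  let B : G (-1) →ₗ[K] Dual K (G (-1)) := LinearMap.mk₂ K
    (fun y w => τ (ad K e (ad K e (y : M)) * (w : M)))
    (fun a b w => by
      change τ (ad K e (ad K e ((a : M) + b)) * (w : M)) = _
      rw [map_add, map_add, add_mul, map_add])
    (fun c a w => by
      change τ (ad K e (ad K e (c • (a : M))) * (w : M)) = _
      rw [map_smul, map_smul, smul_mul_assoc, map_smul])
    (fun a w w' => by
      change τ (ad K e (ad K e (a : M)) * ((w : M) + w')) = _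
      rw [mul_add, map_add])
    (fun c a w => by
      change τ (ad K e (ad K e (a : M)) * (c • (w : M))) = _
      rw [mul_smul_comm, map_smul])
  have hB : ∀ y w : G (-1), B y w = τ (ad K e (ad K e (y : M)) * (w : M)) := fun y w => rfl
  obtain ⟨w, hw⟩ := exists_of_ker B ((τ ∘ₗ LinearMap.mulLeft K e) ∘ₗ (G (-1)).subtype) (by
    intro y hy
    change τ (e * (y : M)) = 0
    have h1 : ad K e (ad K e (y : M)) = 0 := by
      apply h.eq_zero (d := 1) (by simpa using ad_mem h he (ad_mem h he y.2))
      intro w hw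
      have := congrArg (fun l => l ⟨w, hw⟩) hy
      exact this
    rw [ad_apply, ad_apply, sub_eq_zero] at h1
    exact h.nil _ (ey_nil hn h1 (comm_nil (K := K) h1)))
  refine ⟨w, w.2, ?_⟩
  rw [← sub_eq_zero]
  apply h.eq_zero (d := 1)
    (Submodule.sub_mem _ (by simpa using ad_mem h he (ad_mem h he w.2)) he)
  intro y hy
  have h1 := hw ⟨y, hy⟩
  rw [hB] at h1
  change τ (e * y) = τ (ad K e (ad K e y) * (w : M)) at h1
  rw [sub_mul, map_sub, h1, hT, h.comm, sub_self]

lemma ad_lie (a b : M) : ad K a * ad K b - ad K b * ad K a = ad K (a * b - b * a) := by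
  apply LinearMap.ext
  intro x
  simp only [LinearMap.sub_apply, Module.End.mul_apply, ad_apply]
  noncomm_ring

lemma ad_two (a : M) : ad K (2 * a) = 2 * ad K a := by
  apply LinearMap.ext
  intro x
  rw [two_mul, two_mul, LinearMap.add_apply, ad_apply, ad_apply]
  noncomm_ring

lemma ad_neg (a : M) : ad K (-a) = -ad K a := by
  apply LinearMap.ext
  intro x
  rw [LinearMap.neg_apply, ad_apply, ad_apply]
  noncomm_ring

lemma ad_nil {e : M} (hn : IsNilpotent e) : IsNilpotent (ad K e) :=
  (LinearMap.commute_mulLeft_right (R := K) e e).isNilpotent_sub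
    ((LinearMap.isNilpotent_mulLeft_iff K e).2 hn) ((LinearMap.isNilpotent_mulRight_iff K e).2 hn)

theorem exists_w' [CharZero K] [Module.Finite K M] (h : TrAlg τ G) {e c F : M} (he : e ∈ G 1)
    (hc : c ∈ G 0) (hF : F ∈ G (-1)) (hn : IsNilpotent e) (h1 : e * F - F * e = c)
    (h2 : c * e - e * c = 2 * e) :
    ∃ w ∈ G (-1), e * w - w * e = 0 ∧ c * w - w * c + 2 * w = c * F - F * c + 2 * F := by
  obtain ⟨m, hm⟩ := ad_nil (K := K) hn
  have h3 : ad K e * ad K F - ad K F * ad K e = ad K c := by rw [ad_lie, h1]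
  have h4 : ad K c * ad K e - ad K e * ad K c = 2 * ad K e := by rw [ad_lie, h2, ad_two]
  have h5 : ∀ x, ad K e (ad K c x) = ad K c (ad K e x) - (2 : K) • ad K e x := by
    intro x
    have := congrArg (fun T => T x) (eh h4)
    simp only [Module.End.mul_apply, LinearMap.sub_apply] at this
    rw [this]
    congr 1
    rw [show (2 : End K M) = (2 : K) • 1 by rw [ofNat_smul_eq_nsmul, nsmul_eq_mul, mul_one]; rfl,
      LinearMap.smul_apply, Module.End.one_apply]
  have h2' : ∀ x : M, (2 : K) • x = 2 * x := fun x => by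
    rw [ofNat_smul_eq_nsmul, nsmul_eq_mul]
    rfl
  obtain ⟨w, ⟨hw, hw'⟩, hw2⟩ := surj_ker h3 h4 hm (G (-1) ⊓ LinearMap.ker (ad K e))
    (fun x hx => hx.2) (fun x hx => ⟨by simpa using ad_mem h hc hx.1, by
      rw [SetLike.mem_coe, LinearMap.mem_ker, h5, LinearMap.mem_ker.1 hx.2]
      simp⟩) (u := ad K c F + (2 : K) • F) (by
      refine ⟨Submodule.add_mem _ (by simpa using ad_mem h hc hF) (Submodule.smul_mem _ _ hF), ?_⟩
      have h6 : ad K e F = c := h1
      have h7 : ad K c c = 0 := by rw [ad_apply, sub_self]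
      rw [SetLike.mem_coe, LinearMap.mem_ker, map_add, h5, map_smul, h6, h7]
      simp)
  refine ⟨w, hw, LinearMap.mem_ker.1 hw', ?_⟩
  rw [h2', h2'] at hw2
  exact hw2

lemma aeval_lmul (c : M) (P : K[X]) : aeval (Algebra.lmul K M c) P = Algebra.lmul K M (aeval c P) :=
  Polynomial.aeval_algHom_apply _ _ _

lemma rootPoly_alg [CharZero K] {e c F : M} (h1 : e * F - F * e = c)
    (h2 : c * e - e * c = 2 * e) {m : ℕ} (hm : e ^ m = 0) : aeval c (rootPoly K m m) = 0 := by
  apply Algebra.lmul_injective (R := K)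
  rw [← aeval_lmul, map_zero]
  apply rootPoly_zero (E := Algebra.lmul K M e) (F := Algebra.lmul K M F)
  · rw [← map_mul, ← map_mul, ← map_sub, h1]
  · rw [← map_mul, ← map_mul, ← map_sub, h2, map_mul]
    congr 1
    exact map_ofNat (Algebra.lmul K M) 2
  · rw [← map_pow, hm, map_zero]

lemma exists_left_inv [Module.Finite K M] (h : TrAlg τ G) {x : M} (hx : x ∈ G 0)
    (hinj : ∀ v, x * v = 0 → v = 0) : ∃ g ∈ G 0, g * x = 1 := by
  have hT : ∀ v ∈ G 0, LinearMap.mulLeft K x v ∈ G 0 := fun v hv => h.mulc hx hv (add_zero 0)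
  have hi : Function.Injective ((LinearMap.mulLeft K x).restrict hT) := by
    rw [← LinearMap.ker_eq_bot, LinearMap.ker_eq_bot']
    rintro ⟨v, hv⟩ h0
    exact Subtype.ext (hinj v (congrArg Subtype.val h0))
  obtain ⟨g, hg⟩ := (LinearMap.injective_iff_surjective.1 hi) ⟨1, h.one⟩
  have hg' : x * (g : M) = 1 := congrArg Subtype.val hg
  refine ⟨g, g.2, ?_⟩
  have := hinj ((g : M) * x - 1) (by rw [mul_sub, ← mul_assoc, hg']; simp)
  rwa [sub_eq_zero] at this

lemma exists_q {Q : K[X]} (hQ : Q ≠ 0) (κ : K) :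
    ∃ (q : K[X]) (N : ℕ), q.eval κ = 1 ∧ Q ∣ (X - C κ) ^ N * q ∧ Q ∣ q * q - q := by
  have hQ' : (X - C κ) * Q ≠ 0 := mul_ne_zero (X_sub_C_ne_zero κ) hQ
  obtain ⟨R, hR, hndvd⟩ := Polynomial.exists_eq_pow_rootMultiplicity_mul_and_not_dvd _ hQ' κ
  set N := rootMultiplicity κ ((X - C κ) * Q) with hN
  have hN1 : N ≠ 0 := by
    rw [← Nat.pos_iff_ne_zero, hN, rootMultiplicity_pos hQ', IsRoot.def, eval_mul, eval_sub, eval_X,
      eval_C, sub_self, zero_mul]
  have hcop : IsCoprime ((X - C κ) ^ N) R :=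
    ((irreducible_X_sub_C κ).coprime_iff_not_dvd.2 hndvd).pow_left
  obtain ⟨a, b, hab⟩ := hcop
  have hdvd : Q ∣ (X - C κ) ^ N * R := ⟨X - C κ, by rw [← hR]; ring⟩
  refine ⟨b * R, N, ?_, ?_, ?_⟩
  · have := congrArg (eval κ) hab
    rw [eval_add, eval_mul, eval_pow, eval_sub, eval_X, eval_C, sub_self, zero_pow hN1, mul_zero,
      zero_add, eval_one] at this
    exact this
  · refine hdvd.trans ⟨b, by ring⟩
  · have h1 : b * R * (b * R) - b * R = (X - C κ) ^ N * R * (-(a * b)) := by
      linear_combination (b * R) * hab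
    rw [h1]
    exact hdvd.trans (Dvd.intro _ rfl)

lemma aeval_G (h : TrAlg τ G) {c : M} (hc : c ∈ G 0) (q : K[X]) : aeval c q ∈ G 0 := by
  have hpow : ∀ n : ℕ, c ^ n ∈ G 0 := by
    intro n
    induction n with
    | zero => rw [pow_zero]; exact h.one
    | succ n ih => rw [pow_succ]; exact h.mulc ih hc (add_zero 0)
  induction q using Polynomial.induction_on' with
  | add a b ha hb => rw [map_add]; exact Submodule.add_mem _ ha hb
  | monomial r a =>
    rw [aeval_monomial, ← Algebra.smul_def]
    exact Submodule.smul_mem _ _ (hpow r)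

lemma commute_aeval {c x : M} (hx : Commute c x) (q : K[X]) : Commute (aeval c q) x := by
  induction q using Polynomial.induction_on' with
  | add a b ha hb => rw [map_add]; exact ha.add_left hb
  | monomial r a =>
    rw [aeval_monomial, ← Algebra.smul_def]
    exact (hx.pow_left r).smul_left _

theorem exists_g [CharZero K] [Module.Finite K M] (h : TrAlg τ G) {e c f : M} (t : Sl2 c e f)
    (he : e ∈ G 1) (hc : c ∈ G 0) (hf : f ∈ G (-1)) {m : ℕ} (hm : e ^ m = 0) (k : ℕ) :
    ∃ q : K[X], q.eval (k : K) = 1 ∧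
      ∃ g ∈ G 0, g * (e ^ k * f ^ k) * aeval c q = aeval c q := by
  have hQ0 : rootPoly K m m ≠ 0 := by
    rw [rootPoly]
    exact Finset.prod_ne_zero_iff.2 fun l _ => Finset.prod_ne_zero_iff.2 fun i _ =>
      X_sub_C_ne_zero _
  have hQ := rootPoly_alg (K := K) t.ef t.he hm
  obtain ⟨q, N, hq1, ⟨b, hb⟩, ⟨b', hb'⟩⟩ := exists_q hQ0 (k : K)
  refine ⟨q, hq1, ?_⟩
  set π := aeval c q with hπ
  have hππ : π * π = π := by
    have := congrArg (aeval c) hb'
    rw [map_sub, map_mul, map_mul, hQ, zero_mul, sub_eq_zero] at this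
    exact this
  have hπN : (c - (k : K) • 1) ^ N * π = 0 := by
    have := congrArg (aeval c) hb
    rw [map_mul, map_mul, hQ, zero_mul, map_pow, map_sub, aeval_X, aeval_C,
      Algebra.algebraMap_eq_smul_one] at this
    exact this
  have T : Sl2 (Algebra.lmul K M c) (Algebra.lmul K M e) (Algebra.lmul K M f) := by
    refine ⟨?_, ?_, ?_⟩
    · rw [← map_mul, ← map_mul, ← map_sub, t.ef]
    · rw [← map_mul, ← map_mul, ← map_sub, t.he, map_mul]
      congr 1
      exact map_ofNat (Algebra.lmul K M) 2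
    · rw [← map_mul, ← map_mul, ← map_sub, t.hf, map_neg, map_mul]
      congr 2
      exact map_ofNat (Algebra.lmul K M) 2
  have hpow0 : ∀ {y : M}, y ∈ G 0 → ∀ n : ℕ, y ^ n ∈ G 0 := by
    intro y hy n
    induction n with
    | zero => rw [pow_zero]; exact h.one
    | succ n ih => rw [pow_succ]; exact h.mulc ih hy (add_zero 0)
  have hep : ∀ n : ℕ, e ^ n ∈ G n := by
    intro n
    induction n with
    | zero => rw [pow_zero]; exact h.one
    | succ n ih => rw [pow_succ]; exact h.mulc ih he (by push_cast; ring)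
  have hfp : ∀ n : ℕ, f ^ n ∈ G (-n) := by
    intro n
    induction n with
    | zero => rw [pow_zero]; simpa using h.one
    | succ n ih => rw [pow_succ]; exact h.mulc ih hf (by push_cast; ring)
  have hπG : π ∈ G 0 := by
    rw [hπ]
    exact aeval_G h hc q
  have hcomm : Commute c (e ^ k * f ^ k) := by
    have a1 := e_pow_h' T k
    have a2 := f_pow_h T k
    apply Algebra.lmul_injective (R := K)
    simp only [map_mul, map_pow]
    have a3 : (Algebra.lmul K M e) ^ k * ((Algebra.lmul K M c + (2 * (k : K)) • 1)) =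
        Algebra.lmul K M c * (Algebra.lmul K M e) ^ k := by
      rw [mul_add, a1, mul_smul_comm, mul_one, sub_mul, smul_mul_assoc, one_mul, sub_add_cancel]
    rw [mul_assoc ((Algebra.lmul K M e) ^ k), a2, ← mul_assoc ((Algebra.lmul K M e) ^ k), a3,
      mul_assoc]
  have hcommπ : Commute π (e ^ k * f ^ k) := by
    rw [hπ]
    exact commute_aeval hcomm q
  obtain ⟨g, hg, hgx⟩ := exists_left_inv h (x := e ^ k * f ^ k * π + (1 - π)) (by
    refine Submodule.add_mem _ (h.mulc (h.mulc (hep k) (hfp k) (by ring)) hπG (add_zero 0))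
      (Submodule.sub_mem _ h.one hπG)) (by
    intro v hv
    have b1 : e ^ k * f ^ k * (π * v) = 0 := by
      have a1 : π * ((e ^ k * f ^ k * π + (1 - π)) * v) = 0 := by rw [hv, mul_zero]
      have a2 : π * ((e ^ k * f ^ k * π + (1 - π)) * v) =
          (π * (e ^ k * f ^ k)) * π * v + (π - π * π) * v := by noncomm_ring
      rw [a2, hππ, sub_self, zero_mul, add_zero, hcommπ.eq, mul_assoc (e ^ k * f ^ k), hππ,
        mul_assoc] at a1
      exact a1
    have b2 : (1 - π) * v = 0 := by
      rw [add_mul, mul_assoc, b1, zero_add] at hv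
      exact hv
    have b3 : π * v = v := by
      rw [sub_mul, one_mul, sub_eq_zero] at b2
      exact b2.symm
    rw [b3] at b1
    apply gen_ef_inj T N (x := v)
    · have : (Algebra.lmul K M c - (k : K) • 1) = Algebra.lmul K M (c - (k : K) • 1) := by
        rw [map_sub, map_smul, map_one]
      rw [this, ← map_pow]
      change (c - (k : K) • 1) ^ N * v = 0
      rw [← b3, ← mul_assoc, hπN, zero_mul]
    · rw [← map_pow, ← map_pow]
      change e ^ k * (f ^ k * v) = 0
      rw [← mul_assoc]
      exact b1)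
  refine ⟨g, hg, ?_⟩
  have a1 : (g * (e ^ k * f ^ k * π + (1 - π))) * π =
      g * (e ^ k * f ^ k) * (π * π) + g * (π - π * π) := by noncomm_ring
  rw [hgx, one_mul, hππ, sub_self, mul_zero, add_zero] at a1
  exact a1.symm

/-- Uniqueness of the lowering operator. -/
theorem unique_f [CharZero K] [Module.Finite K M] {e c f c' f' : M} (t : Sl2 c e f)
    (h1 : e * f' - f' * e = c') (h2 : c' * e - e * c' = 2 * e)
    (h3 : c * f' - f' * c = -(2 * f')) : f' = f := by
  have T : Sl2 (ad K c) (ad K e) (ad K f) := by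
    refine ⟨?_, ?_, ?_⟩
    · rw [ad_lie, t.ef]
    · rw [ad_lie, t.he, ad_two]
    · rw [ad_lie, t.hf, ad_neg, ad_two]
  have h4 : f' - f = 0 := by
    apply gen_f_inj T.neg_swap (k := 2) 1
    · rw [pow_one]
      have : (-ad K c - ((2 : ℕ) : K) • 1 : End K M) (f' - f) =
          -(c * f' - f' * c) + (c * f - f * c) - 2 * (f' - f) := by
        rw [LinearMap.sub_apply, LinearMap.neg_apply, ad_apply, LinearMap.smul_apply,
          Module.End.one_apply, Nat.cast_smul_eq_nsmul, two_nsmul, two_mul]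
        noncomm_ring
      rw [this, h3, t.hf]
      noncomm_ring
    · have h5 : ∀ x, ((-ad K e) ^ 2) x = ad K e (ad K e x) := fun x => by
        rw [pow_two, Module.End.mul_apply, LinearMap.neg_apply, LinearMap.neg_apply, map_neg,
          neg_neg]
      rw [h5, map_sub, map_sub]
      have h6 : ad K e f = c := t.ef
      have h7 : ad K e f' = c' := h1
      have h8 : ad K e c = -(2 * e) := by rw [← t.he, ad_apply]; abel
      have h9 : ad K e c' = -(2 * e) := by rw [← h2, ad_apply]; abel
      rw [h6, h7, h8, h9, sub_self]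
  exact sub_eq_zero.1 h4

end alg

end Pool.Agent.X310.Jm
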