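import Pool.Agent.X310.CenDefs
import Pool.Agent.H447R3.AoDefs

/-!
# Numerical lowering operators: definitions
-/

open CategoryTheory AlgebraicGeometry

universe u v

namespace Pool.Agent.X310.Jm

open Pool.Agent.H914 Pool.Agent.H447 VarClass Obj WeilCohomology

variable {k : Type u} [Field k] {𝒱 : VarClass k}

/-- The cycle `(X × D - D × X) · f` on `X × X`. The operator it induces in the cohomology is the
commutator `[L, f]`, where `L` is the multiplication by the class of `D`. -/
noncomputable def adCyc (ops : CycleOps 𝒱) {X : 𝒱.Obj} (D : X.Cycles) (f : (X.prod X).Cycles) :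
    (X.prod X).Cycles :=
  ops.mul (ops.pull (snd X X) D - ops.pull (fst X X) D) f

/-- `f` is a numerical lowering operator for the divisor `D`: a cycle of codimension `n - 1` on
`X × X`, where `n = dim X`, such that `(X × D - D × X) ^ 2 · f` is numerically equivalent to
`-2 Δ_*(D)` and such that, for `c = (X × D - D × X) · f`, the cycle `c ∘ f - f ∘ c` is numerically
equivalent to `-2 f`. In other words, `(D, c, f)` is an `sl(2)`-triple up to numerical
equivalence. -/
def IsNumLowering (ops : CycleOps 𝒱) (X : 𝒱.Obj) (D : X.Cycles) (f : (X.prod X).Cycles) : Prop :=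
  (X.prod X).IsCyc (X.dim - 1) f ∧
  NumEquiv ops (X.prod X) (X.dim + 1) (adCyc ops D (adCyc ops D f))
    ((-2 : ℚ) • ops.push (diag X) D) ∧
  NumEquiv ops (X.prod X) (X.dim - 1)
    (compCyc ops f (adCyc ops D f) - compCyc ops (adCyc ops D f) f) ((-2 : ℚ) • f)

/-- The powers of the correspondence `c`; the power zero is the diagonal. -/
noncomputable def powCyc (ops : CycleOps 𝒱) (X : 𝒱.Obj) (c : (X.prod X).Cycles) :
    ℕ → (X.prod X).Cycles
  | 0 => ops.push (diag X) X.V.fundCycle
  | r + 1 => compCyc ops (powCyc ops X c r) c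

/-- `s` gives the numerical eigenvalues of the correspondence `c` and their multiplicities: for all
`r ≥ 0` the intersection number of the power `c^r` with the diagonal is `∑_l s(l) l^r`. -/
def HasEigenvalues (ops : CycleOps 𝒱) (X : 𝒱.Obj) (c : (X.prod X).Cycles) (s : ℤ →₀ ℤ) : Prop :=
  ∀ r, interT ops X (powCyc ops X c r) (powCyc ops X c 0) = s.sum fun l m => (m : ℚ) * (l : ℚ) ^ r

/-- The number `∑_l l^2 |s(l)|`. -/
noncomputable def secondMoment (s : ℤ →₀ ℤ) : ℚ :=
  s.sum fun l m => (l : ℚ) ^ 2 * |(m : ℚ)|

end Pool.Agent.X310.Jm
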