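import Pool.Agent.X310.JmSpec

/-!
# Numerical triples: injectivity
-/

set_option autoImplicit false
set_option linter.unusedSectionVars false

open Polynomial LinearMap Module

namespace Pool.Agent.X310.Jm

open Pool.Agent.H914 Pool.Agent.X310.Sec

section

variable {K : Type*} [Field K] [CharZero K] {V : Type*} [AddCommGroup V] [Module K V]
  [Module.Finite K V] {gr : ℕ → Submodule K V} (h : DirectSum.IsInternal gr)
  {R : ℤ → Submodule K (End K V)}

lemma pow_R (hR : GrAlg gr R) {d : ℤ} {x : End K V} (hx : x ∈ R d) (n : ℕ) :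
    x ^ n ∈ R (n * d) := by
  induction n with
  | zero => rw [pow_zero]; exact cast_mem hR.one (by simp)
  | succ n ih => rw [pow_succ]; exact cast_mem (hR.mul ih hx) (by push_cast; ring)

lemma pow_R0 (hR : GrAlg gr R) {x : End K V} (hx : x ∈ R 0) (n : ℕ) : x ^ n ∈ R 0 :=
  cast_mem (pow_R hR hx n) (by simp)

lemma pow_sub_Nd (hR : GrAlg gr R) {x y : End K V} (hx : x ∈ R 0) (hy : y ∈ R 0)
    (hxy : x - y ∈ Nd h R 0) (n : ℕ) : x ^ n - y ^ n ∈ Nd h R 0 := by
  induction n with
  | zero => rw [pow_zero, pow_zero, sub_self]; exact Submodule.zero_mem _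
  | succ n ih =>
    have h1 : x ^ (n + 1) - y ^ (n + 1) = (x ^ n - y ^ n) * x + y ^ n * (x - y) := by
      rw [pow_succ, pow_succ]
      noncomm_ring
    rw [h1]
    exact Submodule.add_mem _ (Nd0_right hR ih hx) (Nd0_left hR (pow_R0 hR hy n) hxy)

/-- Injectivity on the weight spaces. -/
theorem inj_of_nil (hR : GrAlg gr R) {L F C : End K V} (hL : L ∈ R 1) (hF : F ∈ R (-1))
    (hC : C ∈ R 0) {m : ℕ} (hm : L ^ m = 0) (h1 : L * F - F * L - C ∈ Nd h R 0)
    (h2 : C * L - L * C - 2 * L ∈ Nd h R 1) (h3 : C * F - F * C + 2 * F ∈ Nd h R (-1))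
    (k j : ℕ) (hN : ∀ x ∈ Nd h R 0, IsNilpotent (x * proj h j))
    (hCn : IsNilpotent ((C - algebraMap K (End K V) (k : K)) * proj h j)) :
    ∃ x ∈ R (-k), ∀ v ∈ gr j, x v = 0 → v = 0 := by
  obtain ⟨q, hq, g, hg, hgq⟩ := lin_g h hR hL hC hF hm h1 h2 h3 k
  set ε := aeval C q with hε
  have hεR : ε ∈ R 0 := aeval_R hR hC q
  have hpj : ∀ (y : End K V), y ∈ R 0 → Commute (proj h j) y := fun y hy =>
    IsHom.proj_comm h (by simpa using hR.hom hy) j
  have hpp : proj h j * proj h j = proj h j := proj_mul_proj h j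
  refine ⟨F ^ k * ε, cast_mem (hR.mul (pow_R hR hF k) hεR) (by ring), fun v hv h0 => ?_⟩
  have hPv : proj h j v = v := proj_same h hv
  -- `ε - 1` is nilpotent on `gr j`
  have hδ : IsNilpotent ((ε - 1) * proj h j) := by
    have hroot : (X - Polynomial.C (k : K)) ∣ q - 1 := by
      rw [dvd_iff_isRoot, IsRoot.def, eval_sub, eval_one, hq, sub_self]
    obtain ⟨r, hr⟩ := hroot
    have e1 : ε - 1 = (C - algebraMap K (End K V) (k : K)) * aeval C r := by
      have := congrArg (aeval C) hr
      rw [map_sub, map_one, map_mul, map_sub, aeval_X, aeval_C] at this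
      exact this
    have hrR := aeval_R hR hC r
    have hCk : C - algebraMap K (End K V) (k : K) ∈ R 0 := by
      rw [Algebra.algebraMap_eq_smul_one]
      exact Submodule.sub_mem _ hC (Submodule.smul_mem _ _ hR.one)
    have e2 : (ε - 1) * proj h j =
        ((C - algebraMap K (End K V) (k : K)) * proj h j) * aeval C r := by
      rw [e1, mul_assoc, mul_assoc, (hpj _ hrR).eq]
    rw [e2]
    refine Commute.isNilpotent_mul_right ?_ hCn
    refine Commute.mul_left ?_ (hpj _ hrR)
    exact ((commute_aeval (Commute.refl C) r).symm).sub_left (Algebra.commute_algebraMap_left _ _)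
  set ν := g * (L ^ k * F ^ k) * ε - ε with hν
  have hνR : ν ∈ R 0 := Nd_le hgq
  set S := ε - 1 + ν with hS
  have hε1 : ε - 1 ∈ R 0 := Submodule.sub_mem _ hεR hR.one
  have hSR : S ∈ R 0 := Submodule.add_mem _ hε1 hνR
  have hSnil : IsNilpotent (S * proj h j) := by
    obtain ⟨N, hN0⟩ := hδ
    have e1 : (ε - 1) ^ (N + 1) * proj h j = 0 := by
      have e2 : ((ε - 1) * proj h j) ^ (N + 1) = 0 := by rw [pow_succ, hN0, zero_mul]
      rw [(hpj _ hε1).symm.mul_pow] at e2
      have e3 : ∀ N : ℕ, (proj h j) ^ (N + 1) = proj h j := by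
        intro N
        induction N with
        | zero => rw [zero_add, pow_one]
        | succ N ih => rw [pow_succ, ih, hpp]
      rwa [e3] at e2
    have e4 := pow_sub_Nd h hR hSR hε1 (by rw [hS, add_sub_cancel_left]; exact hgq) (N + 1)
    have e5 := hN _ e4
    rw [sub_mul, e1, sub_zero] at e5
    have e6 : IsNilpotent ((S * proj h j) ^ (N + 1)) := by
      have e3 : ∀ N : ℕ, (proj h j) ^ (N + 1) = proj h j := by
        intro N
        induction N with
        | zero => rw [zero_add, pow_one]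
        | succ N ih => rw [pow_succ, ih, hpp]
      rw [(hpj _ hSR).symm.mul_pow, e3]
      exact e5
    obtain ⟨M, hM⟩ := e6
    exact ⟨(N + 1) * M, by rw [pow_mul, hM]⟩
  have hSv : (S * proj h j) v = -v := by
    have e1 : (g * (L ^ k * F ^ k) * ε) v = 0 := by
      rw [mul_assoc, mul_assoc, Module.End.mul_apply, Module.End.mul_apply, h0, map_zero, map_zero]
    rw [Module.End.mul_apply, hPv, hS, LinearMap.add_apply, hν, LinearMap.sub_apply,
      LinearMap.sub_apply, e1, Module.End.one_apply]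
    abel
  obtain ⟨M, hM⟩ := hSnil
  have hpow : ∀ M : ℕ, ((S * proj h j) ^ M) v = (-1 : K) ^ M • v := by
    intro M
    induction M with
    | zero => simp
    | succ M ih => rw [pow_succ, Module.End.mul_apply, hSv, map_neg, ih, pow_succ, mul_neg_one,
        neg_smul]
  have e1 := hpow M
  rw [hM, LinearMap.zero_apply] at e1
  rcases smul_eq_zero.1 e1.symm with e2 | e2
  · exact absurd e2 (pow_ne_zero _ (neg_ne_zero.2 one_ne_zero))
  · exact e2

end

end Pool.Agent.X310.Jm
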