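import Pool.Agent.X310.JmQuot

/-!
# Numerical triples: linear algebra
-/

set_option autoImplicit false
set_option linter.unusedSectionVars false

open Polynomial Module LinearMap

namespace Pool.Agent.X310.Jm

open Pool.Agent.H914 Pool.Agent.X310.Sec

section

variable {K : Type*} [Field K] [CharZero K] {V : Type*} [AddCommGroup V] [Module K V]
  [Module.Finite K V] {gr : ℕ → Submodule K V} {R : ℤ → Submodule K (End K V)}
  (h : DirectSum.IsInternal gr) (hR : GrAlg gr R)

include hR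

variable {h} in
lemma nilp_cls {L : End K V} (hL : L ∈ R 1) {m : ℕ} (hm : L ^ m = 0) :
    (cls h hR hL) ^ m = 0 := by
  rw [cls, ← map_pow]
  have : (⟨L, mem_algA hL⟩ : algA hR) ^ m = 0 := Subtype.ext hm
  rw [this, map_zero]

/-- The first linear equation. -/
theorem lin_exists1 {L : End K V} (hL : L ∈ R 1) {m : ℕ} (hm : L ^ m = 0) :
    ∃ w ∈ R (-1), L * (L * w - w * L) - (L * w - w * L) * L - L ∈ Nd h R 1 := by
  obtain ⟨w, hw, hw1⟩ := exists_w (trAlg h hR) (cls_mem h hR hL) ⟨m, nilp_cls hR hL hm⟩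
  obtain ⟨y, hy, rfl⟩ := exists_cls h hR hw
  refine ⟨y, hy, ?_⟩
  have h1 : L * (L * y - y * L) - (L * y - y * L) * L - L ∈ R 1 := by
    have a1 : L * y - y * L ∈ R 0 := Submodule.sub_mem _ (cast_mem (hR.mul hL hy) (by ring))
      (cast_mem (hR.mul hy hL) (by ring))
    exact Submodule.sub_mem _ (Submodule.sub_mem _ (cast_mem (hR.mul hL a1) (by ring))
      (cast_mem (hR.mul a1 hL) (by ring))) hL
  rw [← cls_zero h hR h1]
  have h2 : cls h hR h1 = ad K (cls h hR hL) (ad K (cls h hR hL) (cls h hR hy)) - cls h hR hL := by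
    rw [ad_apply, ad_apply]
    simp only [cls, ← map_mul, ← map_sub]
    rfl
  rw [h2, hw1, sub_self]

/-- The second linear equation. -/
theorem lin_exists2 {L C F : End K V} (hL : L ∈ R 1) (hC : C ∈ R 0) (hF : F ∈ R (-1)) {m : ℕ}
    (hm : L ^ m = 0) (h1 : L * F - F * L - C ∈ Nd h R 0)
    (h2 : C * L - L * C - 2 * L ∈ Nd h R 1) :
    ∃ w ∈ R (-1), L * w - w * L ∈ Nd h R 0 ∧
      C * w - w * C + 2 * w - (C * F - F * C + 2 * F) ∈ Nd h R (-1) := by
  have e1 : cls h hR hL * cls h hR hF - cls h hR hF * cls h hR hL = cls h hR hC := by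
    have := (cls_zero h hR (Nd_le h1)).2 h1
    rw [← sub_eq_zero, ← this]
    simp only [cls, ← map_mul, ← map_sub]
    rfl
  have e2 : cls h hR hC * cls h hR hL - cls h hR hL * cls h hR hC = 2 * cls h hR hL := by
    have := (cls_zero h hR (Nd_le h2)).2 h2
    rw [← sub_eq_zero, ← this, two_mul]
    simp only [cls, ← map_mul, ← map_sub, ← map_add]
    congr 1
    apply Subtype.ext
    change C * L - L * C - (L + L) = C * L - L * C - 2 * L
    rw [two_mul]
  obtain ⟨w, hw, hw1, hw2⟩ := exists_w' (trAlg h hR) (cls_mem h hR hL) (cls_mem h hR hC)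
    (cls_mem h hR hF) ⟨m, nilp_cls hR hL hm⟩ e1 e2
  obtain ⟨y, hy, rfl⟩ := exists_cls h hR hw
  refine ⟨y, hy, ?_, ?_⟩
  · have h3 : L * y - y * L ∈ R 0 := Submodule.sub_mem _ (cast_mem (hR.mul hL hy) (by ring))
      (cast_mem (hR.mul hy hL) (by ring))
    rw [← cls_zero h hR h3, ← hw1]
    simp only [cls, ← map_mul, ← map_sub]
    rfl
  · have h3 : C * y - y * C + 2 * y - (C * F - F * C + 2 * F) ∈ R (-1) := by
      rw [two_mul, two_mul]
      refine Submodule.sub_mem _ (Submodule.add_mem _ (Submodule.sub_mem _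
        (cast_mem (hR.mul hC hy) (by ring)) (cast_mem (hR.mul hy hC) (by ring)))
        (Submodule.add_mem _ hy hy)) (Submodule.add_mem _ (Submodule.sub_mem _
        (cast_mem (hR.mul hC hF) (by ring)) (cast_mem (hR.mul hF hC) (by ring)))
        (Submodule.add_mem _ hF hF))
    rw [← cls_zero h hR h3]
    rw [two_mul, two_mul, ← sub_eq_zero] at hw2
    rw [← hw2]
    simp only [cls, ← map_mul, ← map_sub, ← map_add]
    congr 1
    apply Subtype.ext
    change C * y - y * C + 2 * y - (C * F - F * C + 2 * F) =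
      C * y - y * C + (y + y) - (C * F - F * C + (F + F))
    rw [two_mul, two_mul]

variable {h} in
lemma cls_triple {L C F : End K V} (hL : L ∈ R 1) (hC : C ∈ R 0) (hF : F ∈ R (-1))
    (h1 : L * F - F * L - C ∈ Nd h R 0) (h2 : C * L - L * C - 2 * L ∈ Nd h R 1)
    (h3 : C * F - F * C + 2 * F ∈ Nd h R (-1)) :
    Sl2 (cls h hR hC) (cls h hR hL) (cls h hR hF) := by
  refine ⟨?_, ?_, ?_⟩
  · have := (cls_zero h hR (Nd_le h1)).2 h1
    rw [← sub_eq_zero, ← this]
    simp only [cls, ← map_mul, ← map_sub]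
    rfl
  · have := (cls_zero h hR (Nd_le h2)).2 h2
    rw [← sub_eq_zero, ← this, two_mul]
    simp only [cls, ← map_mul, ← map_sub, ← map_add]
    congr 1
    apply Subtype.ext
    change C * L - L * C - (L + L) = C * L - L * C - 2 * L
    rw [two_mul]
  · have := (cls_zero h hR (Nd_le h3)).2 h3
    rw [← sub_eq_zero, ← this, two_mul, sub_neg_eq_add]
    simp only [cls, ← map_mul, ← map_sub, ← map_add]
    congr 1
    apply Subtype.ext
    change C * F - F * C + (F + F) = C * F - F * C + 2 * F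
    rw [two_mul]

lemma aeval_cls {C : End K V} (hC : C ∈ R 0) (q : K[X]) (hq : aeval C q ∈ R 0) :
    aeval (cls h hR hC) q = cls h hR hq := by
  rw [cls, Polynomial.aeval_algHom_apply, cls]
  congr 1
  apply Subtype.ext
  have := Polynomial.aeval_algHom_apply (algA hR).val (⟨C, mem_algA hC⟩ : algA hR) q
  exact this.symm

lemma aeval_R {C : End K V} (hC : C ∈ R 0) (q : K[X]) : aeval C q ∈ R 0 := by
  have hpow : ∀ n : ℕ, C ^ n ∈ R 0 := by
    intro n
    induction n with
    | zero => rw [pow_zero]; exact hR.one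
    | succ n ih => rw [pow_succ]; exact cast_mem (hR.mul ih hC) (by ring)
  induction q using Polynomial.induction_on' with
  | add a b ha hb => rw [map_add]; exact Submodule.add_mem _ ha hb
  | monomial r a =>
    rw [aeval_monomial, ← Algebra.smul_def]
    exact Submodule.smul_mem _ _ (hpow r)

/-- The polynomial with integral roots. -/
theorem lin_Q {L C F : End K V} (hL : L ∈ R 1) (hC : C ∈ R 0) (hF : F ∈ R (-1)) {m : ℕ}
    (hm : L ^ m = 0) (h1 : L * F - F * L - C ∈ Nd h R 0)
    (h2 : C * L - L * C - 2 * L ∈ Nd h R 1) : aeval C (rootPoly K m m) ∈ Nd h R 0 := by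
  have e1 : cls h hR hL * cls h hR hF - cls h hR hF * cls h hR hL = cls h hR hC := by
    have := (cls_zero h hR (Nd_le h1)).2 h1
    rw [← sub_eq_zero, ← this]
    simp only [cls, ← map_mul, ← map_sub]
    rfl
  have e2 : cls h hR hC * cls h hR hL - cls h hR hL * cls h hR hC = 2 * cls h hR hL := by
    have := (cls_zero h hR (Nd_le h2)).2 h2
    rw [← sub_eq_zero, ← this, two_mul]
    simp only [cls, ← map_mul, ← map_sub, ← map_add]
    congr 1
    apply Subtype.ext
    change C * L - L * C - (L + L) = C * L - L * C - 2 * L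
    rw [two_mul]
  have h3 := aeval_R hR hC (rootPoly K m m)
  rw [← cls_zero h hR h3, ← aeval_cls h hR hC]
  exact rootPoly_alg e1 e2 (nilp_cls hR hL hm)

/-- Inverting `L ^ k F ^ k` on the weight `k`. -/
theorem lin_g {L C F : End K V} (hL : L ∈ R 1) (hC : C ∈ R 0) (hF : F ∈ R (-1)) {m : ℕ}
    (hm : L ^ m = 0) (h1 : L * F - F * L - C ∈ Nd h R 0) (h2 : C * L - L * C - 2 * L ∈ Nd h R 1)
    (h3 : C * F - F * C + 2 * F ∈ Nd h R (-1)) (k : ℕ) :
    ∃ q : K[X], q.eval (k : K) = 1 ∧ ∃ g ∈ R 0,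
      g * (L ^ k * F ^ k) * aeval C q - aeval C q ∈ Nd h R 0 := by
  obtain ⟨q, hq, g, hg, hgq⟩ := exists_g (trAlg h hR) (cls_triple hR hL hC hF h1 h2 h3)
    (cls_mem h hR hL) (cls_mem h hR hC) (cls_mem h hR hF) (nilp_cls hR hL hm) k
  obtain ⟨y, hy, rfl⟩ := exists_cls h hR hg
  refine ⟨q, hq, y, hy, ?_⟩
  have hpL : ∀ n : ℕ, L ^ n ∈ R n := by
    intro n
    induction n with
    | zero => rw [pow_zero]; exact hR.one
    | succ n ih => rw [pow_succ]; exact cast_mem (hR.mul ih hL) (by push_cast; ring)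
  have hpF : ∀ n : ℕ, F ^ n ∈ R (-n) := by
    intro n
    induction n with
    | zero => rw [pow_zero]; exact cast_mem hR.one (by simp)
    | succ n ih => rw [pow_succ]; exact cast_mem (hR.mul ih hF) (by push_cast; ring)
  have hq' := aeval_R hR hC q
  have h4 : y * (L ^ k * F ^ k) * aeval C q - aeval C q ∈ R 0 :=
    Submodule.sub_mem _ (cast_mem (hR.mul (hR.mul hy (hR.mul (hpL k) (hpF k))) hq') (by ring)) hq'
  rw [← cls_zero h hR h4]
  rw [aeval_cls h hR hC q hq', ← sub_eq_zero] at hgq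
  rw [← hgq]
  simp only [cls, ← map_mul, ← map_sub, ← map_pow]
  rfl

/-- Uniqueness. -/
theorem lin_unique {L C F C' F' : End K V} (hL : L ∈ R 1) (hC : C ∈ R 0) (hF : F ∈ R (-1))
    (hC' : C' ∈ R 0) (hF' : F' ∈ R (-1))
    (h1 : L * F - F * L - C ∈ Nd h R 0) (h2 : C * L - L * C - 2 * L ∈ Nd h R 1)
    (h3 : C * F - F * C + 2 * F ∈ Nd h R (-1))
    (h1' : L * F' - F' * L - C' ∈ Nd h R 0) (h2' : C' * L - L * C' - 2 * L ∈ Nd h R 1)
    (h3' : C * F' - F' * C + 2 * F' ∈ Nd h R (-1)) : C' - C ∈ Nd h R 0 := by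
  have t := cls_triple hR hL hC hF h1 h2 h3
  have e1 : cls h hR hL * cls h hR hF' - cls h hR hF' * cls h hR hL = cls h hR hC' := by
    have := (cls_zero h hR (Nd_le h1')).2 h1'
    rw [← sub_eq_zero, ← this]
    simp only [cls, ← map_mul, ← map_sub]
    rfl
  have e2 : cls h hR hC' * cls h hR hL - cls h hR hL * cls h hR hC' = 2 * cls h hR hL := by
    have := (cls_zero h hR (Nd_le h2')).2 h2'
    rw [← sub_eq_zero, ← this, two_mul]
    simp only [cls, ← map_mul, ← map_sub, ← map_add]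
    congr 1
    apply Subtype.ext
    change C' * L - L * C' - (L + L) = C' * L - L * C' - 2 * L
    rw [two_mul]
  have e3 : cls h hR hC * cls h hR hF' - cls h hR hF' * cls h hR hC = -(2 * cls h hR hF') := by
    have := (cls_zero h hR (Nd_le h3')).2 h3'
    rw [← sub_eq_zero, ← this, two_mul, sub_neg_eq_add]
    simp only [cls, ← map_mul, ← map_sub, ← map_add]
    congr 1
    apply Subtype.ext
    change C * F' - F' * C + (F' + F') = C * F' - F' * C + 2 * F'
    rw [two_mul]
  have h4 := unique_f (K := K) t e1 e2 e3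
  have h5 : C' - C ∈ R 0 := Submodule.sub_mem _ hC' hC
  rw [← cls_zero h hR h5]
  have h6 : cls h hR h5 = cls h hR hC' - cls h hR hC := by
    simp only [cls, ← map_sub]
    rfl
  rw [h6, ← e1, h4, t.ef, sub_self]

/-- Uniqueness. -/
theorem lin_unique_f {L C F C' F' : End K V} (hL : L ∈ R 1) (hC : C ∈ R 0) (hF : F ∈ R (-1))
    (hC' : C' ∈ R 0) (hF' : F' ∈ R (-1))
    (h1 : L * F - F * L - C ∈ Nd h R 0) (h2 : C * L - L * C - 2 * L ∈ Nd h R 1)
    (h3 : C * F - F * C + 2 * F ∈ Nd h R (-1))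
    (h1' : L * F' - F' * L - C' ∈ Nd h R 0) (h2' : C' * L - L * C' - 2 * L ∈ Nd h R 1)
    (h3' : C * F' - F' * C + 2 * F' ∈ Nd h R (-1)) : F' - F ∈ Nd h R (-1) := by
  have t := cls_triple hR hL hC hF h1 h2 h3
  have e1 : cls h hR hL * cls h hR hF' - cls h hR hF' * cls h hR hL = cls h hR hC' := by
    have := (cls_zero h hR (Nd_le h1')).2 h1'
    rw [← sub_eq_zero, ← this]
    simp only [cls, ← map_mul, ← map_sub]
    rfl
  have e2 : cls h hR hC' * cls h hR hL - cls h hR hL * cls h hR hC' = 2 * cls h hR hL := by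
    have := (cls_zero h hR (Nd_le h2')).2 h2'
    rw [← sub_eq_zero, ← this, two_mul]
    simp only [cls, ← map_mul, ← map_sub, ← map_add]
    congr 1
    apply Subtype.ext
    change C' * L - L * C' - (L + L) = C' * L - L * C' - 2 * L
    rw [two_mul]
  have e3 : cls h hR hC * cls h hR hF' - cls h hR hF' * cls h hR hC = -(2 * cls h hR hF') := by
    have := (cls_zero h hR (Nd_le h3')).2 h3'
    rw [← sub_eq_zero, ← this, two_mul, sub_neg_eq_add]
    simp only [cls, ← map_mul, ← map_sub, ← map_add]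
    congr 1
    apply Subtype.ext
    change C * F' - F' * C + (F' + F') = C * F' - F' * C + 2 * F'
    rw [two_mul]
  have h4 := unique_f (K := K) t e1 e2 e3
  have h5 : F' - F ∈ R (-1) := Submodule.sub_mem _ hF' hF
  rw [← cls_zero h hR h5]
  have h6 : cls h hR h5 = cls h hR hF' - cls h hR hF := by
    simp only [cls, ← map_sub]
    rfl
  rw [h6, h4, sub_self]

end

end Pool.Agent.X310.Jm
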