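import Pool.Agent.X310.SecSpec
import Pool.Agent.X310.Mom5
import Pool.Agent.X310.CenDefs

/-!
# The conjecture B and the second moments of the Betti numbers
-/

set_option autoImplicit false
set_option linter.unusedSectionVars false

open CategoryTheory AlgebraicGeometry Polynomial

universe u v

namespace Pool.Agent.X310.Sec

open Pool.Agent.H914 Pool.Agent.H447 Pool.Agent.W534 Pool.Agent.X310.Gap VarClass Obj
  WeilCohomology

lemma ev_wt_apply {K : Type*} [Field K] [CharZero K] {V : Type*} [AddCommGroup V] [Module K V]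
    {gr : ℕ → Submodule K V} (h : DirectSum.IsInternal gr) (n : ℕ) {j : ℕ} {a : V} (ha : a ∈ gr j)
    (f : ℚ[X]) : ev (wt h n) f a = ((f.eval (node n j) : ℚ) : K) • a := by
  induction f using Polynomial.induction_on' with
  | add p q hp hq =>
    rw [map_add, LinearMap.add_apply, hp, hq, eval_add, ← add_smul]
    congr 1
    push_cast
    rfl
  | monomial r c =>
    rw [← C_mul_X_pow_eq_monomial, map_mul, map_pow, ev_C, ev_X, smul_mul_assoc, one_mul,
      LinearMap.smul_apply, wt, scal_pow, scal_apply h _ ha, smul_smul]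
    congr 1
    simp

variable {k : Type u} [Field k] {𝒱 : VarClass k} {ops : CycleOps 𝒱}
  {W W' : WeilCohomology.{u, v} ops} {X : 𝒱.Obj} {D : X.Cycles}

lemma grAlg (W : WeilCohomology.{u, v} ops) (X : 𝒱.Obj) :
    GrAlg (W.gr X) (fun d => KOp W X X d) where
  one := KOp.id X
  mul := fun hx hy => kop_cast (KOp.comp hx hy) (by ring)
  hom := fun hy => KOp.isHom hy

lemma realized_of_cyc {p : ℕ} {d : ℤ} (hp : (p : ℤ) = X.dim + d) {z : (X.prod X).Cycles}
    (hz : (X.prod X).IsCyc p z) :
    Realized.{u, v} ops X d (fun W => W.corr (W.cl _ z)) :=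
  Or.inl ⟨p, hp, z, hz, fun _ => rfl⟩

lemma kop_of_realized {d : ℤ} {Y : ∀ W : WeilCohomology.{u, v} ops, Module.End W.K (W.H X)}
    (hY : Realized ops X d Y) (W : WeilCohomology.{u, v} ops) : Y W ∈ KOp W X X d :=
  KOp.ofRop ⟨Y, hY, rfl⟩

/-- A correspondence which vanishes in one theory is in the radical in the other theories. -/
lemma nd_of_zero {d : ℤ} {Y : ∀ W : WeilCohomology.{u, v} ops, Module.End W.K (W.H X)}
    (hY : Realized ops X d Y) (h0 : Y W = 0) :
    Y W' ∈ Nd (W'.isInternal X) (fun d => KOp W' X X d) d := by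
  refine ⟨kop_of_realized hY W', fun b hb => ?_⟩
  induction hb using Submodule.span_induction with
  | mem b hb =>
    obtain ⟨p, hp, z, hz, rfl⟩ := hb
    have h1 : Realized.{u, v} ops X 0 (fun W => Y W * W.corr (W.cl _ z)) :=
      (hY.mul (realized_of_cyc hp hz)).cast (by ring)
    obtain ⟨q, hq, hq'⟩ := (relOp_pairRel X W W').tr ⟨_, h1, rfl, rfl⟩
    beta_reduce at hq hq'
    rw [h0, zero_mul, mul_zero, map_zero] at hq
    rw [hq', show q = 0 by exact_mod_cast hq.symm, Rat.cast_zero]
  | zero => rw [mul_zero, mul_zero, map_zero]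
  | add x y _ _ hx hy => rw [mul_add, mul_add, map_add, hx, hy, add_zero]
  | smul c x _ hx => rw [mul_smul_comm, mul_smul_comm, map_smul, hx, smul_zero]

/-- **The conjecture B and the second moments of the Betti numbers.** -/
theorem second (hD : X.IsCyc 1 D) (hX : HardLefschetz W X D) (hB : LefschetzB W X D)
    (W' : WeilCohomology.{u, v} ops) :
    totalWeight W X ≤ totalWeight W' X ∧
      (totalWeight W X = totalWeight W' X → ∀ i, W'.betti X i = W.betti X i) := by
  have h := W.isInternal X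
  have h' := W'.isInternal X
  have hLh : IsHom (W.gr X) 2 (LinearMap.mulLeft W.K (W.cl X D)) := isHom_mulLeft W hD
  obtain ⟨f, t, -, hfv⟩ := exists_sl2 h hLh W_hbd hX
  obtain ⟨Yf, hYf, hYf0⟩ := rop_lower hD hX hB hfv
  have hYL : Realized.{u, v} ops X 1 (fun W => LinearMap.mulLeft W.K (W.cl X D)) := by
    simpa using Realized.mulLeft (ops := ops) hD
  set YL : ∀ W : WeilCohomology.{u, v} ops, Module.End W.K (W.H X) :=
    fun W => LinearMap.mulLeft W.K (W.cl X D) with hYLdef
  have hYC : Realized.{u, v} ops X 0 (fun W => YL W * Yf W - Yf W * YL W) :=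
    ((hYL.mul hYf).cast (by ring)).sub ((hYf.mul hYL).cast (by ring))
  set YC : ∀ W : WeilCohomology.{u, v} ops, Module.End W.K (W.H X) :=
    fun W => YL W * Yf W - Yf W * YL W with hYCdef
  have hC0 : YC W = wt h X.dim := by
    rw [hYCdef]
    beta_reduce
    rw [hYf0]
    exact t.ef
  have n1 : YL W' * Yf W' - Yf W' * YL W' - YC W' ∈
      Nd h' (fun d => KOp W' X X d) 0 := by
    rw [hYCdef]
    beta_reduce
    rw [sub_self]
    exact Submodule.zero_mem _
  have n2 : YC W' * YL W' - YL W' * YC W' - 2 * YL W' ∈ Nd h' (fun d => KOp W' X X d) 1 := by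
    have h1 : Realized.{u, v} ops X 1
        (fun W => YC W * YL W - YL W * YC W - (YL W + YL W)) :=
      (((hYC.mul hYL).cast (by ring)).sub ((hYL.mul hYC).cast (by ring))).sub (hYL.add hYL)
    have h2 := nd_of_zero (W := W) (W' := W') h1 (by
      beta_reduce
      rw [hC0, ← two_mul, sub_eq_zero]
      exact t.he)
    rw [two_mul]
    exact h2
  have nQ : ev (YC W') (∏ i : Fin (2 * X.dim + 1), (Polynomial.X - C (ww X.dim i) : ℚ[X])) ∈
      Nd h' (fun d => KOp W' X X d) 0 := by
    refine nd_of_zero (W := W) (hYC.ev _) ?_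
    rw [hC0]
    apply gr_ext h
    intro j a ha
    rw [ev_wt_apply h X.dim ha, LinearMap.zero_apply]
    by_cases hj : j < 2 * X.dim + 1
    · rw [eval_prod, Finset.prod_eq_zero (Finset.mem_univ (⟨j, hj⟩ : Fin (2 * X.dim + 1))),
        Rat.cast_zero, zero_smul]
      rw [eval_sub, eval_X, eval_C, sub_eq_zero]
      rfl
    · rw [W_hbd j (by omega)] at ha
      rw [(Submodule.mem_bot _).1 ha, smul_zero]
  have hstr : ∀ r : ℕ, LinearMap.trace W'.K (W'.H X) (par h' * YC W' ^ r) =
      ∑ i : Fin (2 * X.dim + 1), (-1 : W'.K) ^ (i : ℕ) * (W.betti X i : W'.K) *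
        (ww X.dim i : W'.K) ^ r := by
    intro r
    obtain ⟨q, hq, hq'⟩ := (relOp_pairRel X W W').tr ⟨_, hYC.pow0 r, rfl, rfl⟩
    rw [hq']
    beta_reduce at hq
    rw [hC0, wt, scal_pow, par, scal_mul, trace_scal h W_hbd,
      Finset.sum_range fun i => (-1 : W.K) ^ i * ((node X.dim i : ℚ) : W.K) ^ r *
        (Module.finrank W.K (W.gr X i) : W.K)] at hq
    have e1 : q = ∑ i : Fin (2 * X.dim + 1), (-1 : ℚ) ^ (i : ℕ) * (W.betti X i : ℚ) *
        (ww X.dim i) ^ r := by
      have e2 : (q : W.K) = ((∑ i : Fin (2 * X.dim + 1), (-1 : ℚ) ^ (i : ℕ) *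
          (W.betti X i : ℚ) * (ww X.dim i) ^ r : ℚ) : W.K) := by
        rw [← hq]
        push_cast
        refine Finset.sum_congr rfl fun i _ => ?_
        rw [mul_right_comm]
        rfl
      exact_mod_cast e2
    rw [e1]
    push_cast
    rfl
  have key := second_moment h' W_hbd (grAlg W' X) (kop_of_realized hYL W')
    (kop_of_realized hYf W') (kop_of_realized hYC W') n1 n2 nQ (fun i => W.betti X i) hstr
  have eW : ∀ W : WeilCohomology.{u, v} ops, totalWeight W X =
      ∑ i : Fin (2 * X.dim + 1), ww X.dim i ^ 2 * (W.betti X i : ℚ) := by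
    intro W
    rw [totalWeight, Finset.sum_range fun j => ((j : ℚ) - X.dim) ^ 2 * (W.betti X j : ℚ)]
    rfl
  rw [eW W, eW W']
  refine ⟨key.1, fun heq => ?_⟩
  have hne := key.2 heq
  have e1 := hstr 0
  rw [pow_zero, mul_one, par, trace_scal h' W_hbd,
    Finset.sum_range fun i => (-1 : W'.K) ^ i * (Module.finrank W'.K (W'.gr X i) : W'.K)] at e1
  simp only [pow_zero, mul_one] at e1
  have hmid : W'.betti X X.dim = W.betti X X.dim := by
    have e2 : ∑ i : Fin (2 * X.dim + 1), (-1 : W'.K) ^ (i : ℕ) *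
        ((W'.betti X i : W'.K) - (W.betti X i : W'.K)) = 0 := by
      simp only [mul_sub, Finset.sum_sub_distrib]
      rw [← e1, sub_eq_zero]
      rfl
    rw [Finset.sum_eq_single (⟨X.dim, by omega⟩ : Fin (2 * X.dim + 1))] at e2
    · rcases mul_eq_zero.1 e2 with h3 | h3
      · exact absurd h3 (pow_ne_zero _ (neg_ne_zero.2 one_ne_zero))
      · exact_mod_cast sub_eq_zero.1 h3
    · intro i _ hi
      have h4 : ww X.dim i ≠ 0 := by
        rw [ww, node]
        intro h5
        apply hi
        apply Fin.ext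
        have : ((i : ℕ) : ℚ) = X.dim := by linarith
        exact_mod_cast this
      have h6 : W'.betti X i = W.betti X i := hne i h4
      rw [h6, sub_self, mul_zero]
    · exact fun h => absurd (Finset.mem_univ _) h
  intro i
  by_cases hi : i < 2 * X.dim + 1
  · by_cases hin : i = X.dim
    · rw [hin, hmid]
    · exact hne ⟨i, hi⟩ (by
        rw [ww, node]
        intro h5
        apply hin
        have : (i : ℚ) = X.dim := by
          have : ((⟨i, hi⟩ : Fin (2 * X.dim + 1)) : ℕ) = i := rfl
          linarith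
        exact_mod_cast this)
  · rw [WeilCohomology.betti, WeilCohomology.betti, W_hbd i (by omega), W_hbd i (by omega),
      finrank_bot, finrank_bot]

/-- **The conjecture B and the second moments of the Betti numbers.** -/
theorem second_tfae (hn : 1 ≤ X.dim) (hD : X.IsCyc 1 D) (hX : HardLefschetz W X D)
    (hB : LefschetzB W X D) :
    ∃ Z, (X.prod X).IsCyc (X.dim - 1) Z ∧ ∀ W' : WeilCohomology.{u, v} ops,
      totalWeight W X ≤ totalWeight W' X ∧ List.TFAE [
        totalWeight W' X = totalWeight W X,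
        ∀ i, W'.betti X i = W.betti X i,
        HardLefschetz W' X D ∧ InducesLambda W' X D Z,
        HardLefschetz W' X D ∧ LefschetzB W' X D] := by
  obtain ⟨Z, hZ, hZW⟩ := indep_weil hn D hD W hX hB
  refine ⟨Z, hZ, fun W' => ⟨(second hD hX hB W').1, ?_⟩⟩
  have hT := hZW W'
  tfae_have 1 → 2 := fun h => (second hD hX hB W').2 h.symm
  tfae_have 2 → 3 := (hT.out 2 1).1
  tfae_have 3 → 4 := fun h => ⟨h.1, Z, hZ, h.2⟩
  tfae_have 4 → 1 := fun h =>
    le_antisymm (second hD h.1 h.2 W).1 (second hD hX hB W').1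
  tfae_finish

end Pool.Agent.X310.Sec
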