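import Pool.Agent.X310.JmDefs
import Pool.Agent.X310.JmInj
import Pool.Agent.X310.Sec
import Pool.Agent.X310.Cen
import Pool.Agent.H447R3.AoC

/-!
# Numerical lowering operators
-/

set_option autoImplicit false
set_option linter.unusedSectionVars false

open CategoryTheory AlgebraicGeometry Polynomial

universe u v

namespace Pool.Agent.X310.Jm

open Pool.Agent.H914 Pool.Agent.H447 Pool.Agent.W534 Pool.Agent.X310.Gap Pool.Agent.X310.Sec
  VarClass Obj WeilCohomology

variable {k : Type u} [Field k] {𝒱 : VarClass k} {ops : CycleOps 𝒱}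
  {W : WeilCohomology.{u, v} ops} {X : 𝒱.Obj} {D : X.Cycles}

/-- The algebraic correspondences. -/
abbrev RR (W : WeilCohomology.{u, v} ops) (X : 𝒱.Obj) : ℤ → Submodule W.K (Module.End W.K (W.H X)) :=
  fun d => KOp W X X d

lemma nd_of_rop {d : ℤ} {x : Module.End W.K (W.H X)} (hx : x ∈ KOp W X X d)
    (h0 : ∀ b, ROp W X (-d) b →
      LinearMap.trace W.K (W.H X) (par (W.isInternal X) * (x * b)) = 0) :
    x ∈ Nd (W.isInternal X) (RR W X) d := by
  refine ⟨hx, fun b hb => ?_⟩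
  induction hb using Submodule.span_induction with
  | mem b hb =>
    obtain ⟨p, hp, z, hz, rfl⟩ := hb
    exact h0 _ (rop_corr hp hz)
  | zero => rw [mul_zero, mul_zero, map_zero]
  | add x y _ _ hx hy => rw [mul_add, mul_add, map_add, hx, hy, add_zero]
  | smul c x _ hx => rw [mul_smul_comm, mul_smul_comm, map_smul, hx, smul_zero]

lemma nd_iff {p : ℕ} {d : ℤ} (hp : (p : ℤ) = X.dim + d) (hp2 : p ≤ 2 * X.dim)
    {z z' : (X.prod X).Cycles} (hz : (X.prod X).IsCyc p z) (hz' : (X.prod X).IsCyc p z') :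
    NumEquiv ops (X.prod X) p z z' ↔
      W.corr (W.cl _ z) - W.corr (W.cl _ z') ∈ Nd (W.isInternal X) (RR W X) d := by
  constructor
  · intro hn
    refine nd_of_rop (Submodule.sub_mem _ (KOp.gen hp hz) (KOp.gen hp hz')) fun b hb => ?_
    obtain ⟨w, hw, rfl⟩ := exists_of_rop (p := 2 * X.dim - p) (by omega) hb
    have h1 := hn (ops.pull (swap X X) w) (by
      rw [dim_prod, show X.dim + X.dim - p = 2 * X.dim - p by omega]
      exact ops.pull_mem _ hw)
    rw [sub_mul, mul_sub, map_sub, str_eq_deg (by omega) hz hw, str_eq_deg (by omega) hz' hw, h1,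
      sub_self]
  · intro hn y hy
    rw [dim_prod, show X.dim + X.dim - p = 2 * X.dim - p by omega] at hy
    have h1 := hn.2 _ (KOp.gen (p := 2 * X.dim - p) (by omega) (ops.pull_mem (swap X X) hy))
    rw [sub_mul, mul_sub, map_sub, ← deg_eq_str (by omega) hz hy, ← deg_eq_str (by omega) hz' hy,
      sub_eq_zero] at h1
    exact_mod_cast h1

/-- Descent to rational coefficients. -/
lemma descend (φ : W.K →ₗ[ℚ] ℚ) (hφ : φ 1 = 1) {d : ℤ} {x : Module.End W.K (W.H X)}
    (hx : x ∈ KOp W X X d) : ∃ x', ROp W X d x' ∧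
      ∀ ψ : Module.End W.K (W.H X) →ₗ[W.K] W.K, (∀ s, ROp W X d s → ∃ q : ℚ, ψ s = q) →
        ψ x' = ((φ (ψ x) : ℚ) : W.K) := by
  have hφq : ∀ (c : W.K) (q : ℚ), φ (c * q) = φ c * q := by
    intro c q
    have h1 : c * (q : W.K) = q • c := by rw [Rat.smul_def, mul_comm]
    rw [h1, map_smul, smul_eq_mul, mul_comm]
  have hOA := rop_opAlg (W := W) (X := X)
  suffices h : ∀ c : W.K, ∃ x', ROp W X d x' ∧
      ∀ ψ : Module.End W.K (W.H X) →ₗ[W.K] W.K, (∀ s, ROp W X d s → ∃ q : ℚ, ψ s = q) →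
        ψ x' = ((φ (c * ψ x) : ℚ) : W.K) by
    obtain ⟨x', hx', h1⟩ := h 1
    exact ⟨x', hx', fun ψ hψ => by rw [h1 ψ hψ, one_mul]⟩
  induction hx using Submodule.span_induction with
  | mem b hb =>
    intro c
    obtain ⟨p, hp, z, hz, rfl⟩ := hb
    refine ⟨((φ c : ℚ) : W.K) • W.corr (W.cl _ z), hOA.smul _ (rop_corr hp hz), fun ψ hψ => ?_⟩
    obtain ⟨q, hq⟩ := hψ _ (rop_corr hp hz)
    rw [map_smul, hq, hφq, smul_eq_mul, Rat.cast_mul]
  | zero => intro c; exact ⟨0, hOA.zero _, fun ψ hψ => by simp⟩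
  | add x y _ _ hx hy =>
    intro c
    obtain ⟨x', hx', h1⟩ := hx c
    obtain ⟨y', hy', h2⟩ := hy c
    refine ⟨x' + y', hOA.add hx' hy', fun ψ hψ => ?_⟩
    rw [map_add, h1 ψ hψ, h2 ψ hψ, map_add, mul_add, map_add, Rat.cast_add]
  | smul a x _ hx =>
    intro c
    obtain ⟨x', hx', h1⟩ := hx (c * a)
    refine ⟨x', hx', fun ψ hψ => ?_⟩
    rw [h1 ψ hψ, map_smul, smul_eq_mul, mul_assoc]

lemma exists_retraction (K : Type*) [Field K] [CharZero K] : ∃ φ : K →ₗ[ℚ] ℚ, φ 1 = 1 := by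
  obtain ⟨φ, hφ⟩ := (Algebra.linearMap ℚ K).exists_leftInverse_of_injective
    (LinearMap.ker_eq_bot.2 (algebraMap ℚ K).injective)
  refine ⟨φ, ?_⟩
  have := congrArg (fun f => f 1) hφ
  simpa using this

/-- The linear form `x ↦ str(T(x) b)`. -/
noncomputable def strForm (W : WeilCohomology.{u, v} ops) (X : 𝒱.Obj)
    (T : Module.End W.K (W.H X) →ₗ[W.K] Module.End W.K (W.H X)) (b : Module.End W.K (W.H X)) :
    Module.End W.K (W.H X) →ₗ[W.K] W.K :=
  (LinearMap.trace W.K (W.H X)) ∘ₗ (LinearMap.mulLeft W.K (par (W.isInternal X))) ∘ₗ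
    (LinearMap.mulRight W.K b) ∘ₗ T

lemma strForm_apply (T : Module.End W.K (W.H X) →ₗ[W.K] Module.End W.K (W.H X))
    (b x : Module.End W.K (W.H X)) : strForm W X T b x =
      LinearMap.trace W.K (W.H X) (par (W.isInternal X) * (T x * b)) := rfl

lemma strForm_rat {T : Module.End W.K (W.H X) →ₗ[W.K] Module.End W.K (W.H X)} {d e : ℤ}
    (hT : ∀ s, ROp W X d s → ROp W X (-e) (T s)) {b : Module.End W.K (W.H X)}
    (hb : ROp W X e b) : ∀ s, ROp W X d s → ∃ q : ℚ, strForm W X T b s = q := by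
  intro s hs
  rw [strForm_apply]
  exact rop_str _ (rop_opAlg.cast (rop_opAlg.mul (hT s hs) hb) (by ring))

lemma mulLeft_pow_zero (hD : X.IsCyc 1 D) :
    LinearMap.mulLeft W.K (W.cl X D) ^ (X.dim + 1) = 0 := by
  have hL : IsHom (W.gr X) 2 (LinearMap.mulLeft W.K (W.cl X D)) := isHom_mulLeft W hD
  apply gr_ext (W.isInternal X)
  intro i a ha
  have h1 := pow_L_mem hL ha (X.dim + 1)
  rw [W_hbd _ (by omega)] at h1
  rw [(Submodule.mem_bot _).1 h1, LinearMap.zero_apply]

lemma ad_rop {d e : ℤ} {a x : Module.End W.K (W.H X)} (ha : ROp W X e a) (hx : ROp W X d x) :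
    ROp W X (e + d) (ad W.K a x) := by
  rw [ad_apply]
  exact rop_opAlg.sub (rop_opAlg.mul ha hx) (rop_opAlg.cast (rop_opAlg.mul hx ha) (by ring))

section ring

variable {A : Type*} [Ring A]

lemma id1 (L F w : A) : (L * (F - w) - (F - w) * L) * L - L * (L * (F - w) - (F - w) * L) - 2 * L =
    ((L * F - F * L) * L - L * (L * F - F * L) - 2 * L) -
      ((L * w - w * L) * L - L * (L * w - w * L)) := by
  noncomm_ring

lemma id2 (L F w : A) : (L * (F - w) - (F - w) * L) * (F - w) -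
    (F - w) * (L * (F - w) - (F - w) * L) + 2 * (F - w) =
      -((L * F - F * L) * w - w * (L * F - F * L) + 2 * w -
          ((L * F - F * L) * F - F * (L * F - F * L) + 2 * F)) -
        ((L * w - w * L) * (F - w) - (F - w) * (L * w - w * L)) := by
  noncomm_ring

lemma id3 {K : Type*} [Field K] [Algebra K A] (L w : A) (c : K) (hc : c = -2) :
    (L * (c • w) - (c • w) * L) * L - L * (L * (c • w) - (c • w) * L) - 2 * L =
      (2 : K) • (L * (L * w - w * L) - (L * w - w * L) * L - L) := by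
  have h1 : c • w = -(2 * w) := by
    rw [hc, neg_smul, ofNat_smul_eq_nsmul, nsmul_eq_mul]
    rfl
  have h2 : ∀ x : A, (2 : K) • x = 2 * x := fun x => by
    rw [ofNat_smul_eq_nsmul, nsmul_eq_mul]
    rfl
  rw [h1, h2]
  noncomm_ring

end ring

/-- The existence of a rational numerical lowering operator. -/
theorem exists_rat (hD : X.IsCyc 1 D) : ∃ F C, ROp W X (-1) F ∧ ROp W X 0 C ∧
    LinearMap.mulLeft W.K (W.cl X D) * F - F * LinearMap.mulLeft W.K (W.cl X D) = C ∧
    C * LinearMap.mulLeft W.K (W.cl X D) - LinearMap.mulLeft W.K (W.cl X D) * C -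
      2 * LinearMap.mulLeft W.K (W.cl X D) ∈ Nd (W.isInternal X) (RR W X) 1 ∧
    C * F - F * C + 2 * F ∈ Nd (W.isInternal X) (RR W X) (-1) := by
  have h := W.isInternal X
  have hR := grAlg W X
  have hOA := rop_opAlg (W := W) (X := X)
  set L : Module.End W.K (W.H X) := LinearMap.mulLeft W.K (W.cl X D) with hLdef
  have hLr : ROp W X 1 L := rop_mulLeft hD
  have hL : L ∈ RR W X 1 := KOp.ofRop hLr
  have hm : L ^ (X.dim + 1) = 0 := mulLeft_pow_zero hD
  obtain ⟨φ, hφ⟩ := exists_retraction W.K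
  have hφr : ∀ q : ℚ, φ (q : W.K) = q := by
    intro q
    have h1 : (q : W.K) = q • (1 : W.K) := by rw [Rat.smul_def, mul_one]
    rw [h1, map_smul, hφ, smul_eq_mul, mul_one]
  -- first step
  obtain ⟨w₀, hw₀, hw₀1⟩ := lin_exists1 h hR hL hm
  obtain ⟨w, hw, hwψ⟩ := descend φ hφ hw₀
  have hTr : ∀ s, ROp W X (-1) s → ROp W X (- -1) ((ad W.K L ∘ₗ ad W.K L) s) := fun s hs =>
    hOA.cast (ad_rop hLr (ad_rop hLr hs)) (by ring)
  have hw1 : L * (L * w - w * L) - (L * w - w * L) * L - L ∈ Nd h (RR W X) 1 := by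
    refine nd_of_rop (Submodule.sub_mem _ (KOp.ofRop (hOA.cast (hTr w hw) (by ring))) hL)
      fun b hb => ?_
    have h1 := hwψ _ (strForm_rat hTr hb)
    have h2 := hw₀1.2 b (KOp.ofRop hb)
    rw [sub_mul, mul_sub, map_sub, sub_eq_zero] at h2
    have h3 : strForm W X (ad W.K L ∘ₗ ad W.K L) b w₀ =
        LinearMap.trace W.K (W.H X) (par (W.isInternal X) * (L * b)) := h2
    obtain ⟨q, hq⟩ := rop_str (L * b) (hOA.cast (hOA.mul hLr hb) (by ring))
    rw [h3, hq, hφr, ← hq] at h1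
    rw [sub_mul, mul_sub, map_sub, sub_eq_zero]
    exact h1
  -- the first approximation
  set F₀ : Module.End W.K (W.H X) := ((-2 : ℚ) : W.K) • w with hF₀
  have hF₀r : ROp W X (-1) F₀ := hOA.smul _ hw
  set C₀ := L * F₀ - F₀ * L with hC₀
  have hC₀r : ROp W X 0 C₀ := hOA.cast (ad_rop hLr hF₀r) (by ring)
  have hC₀L : C₀ * L - L * C₀ - 2 * L ∈ Nd h (RR W X) 1 := by
    have h1 : C₀ * L - L * C₀ - 2 * L =
        (2 : W.K) • (L * (L * w - w * L) - (L * w - w * L) * L - L) :=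
      id3 L w ((-2 : ℚ) : W.K) (by push_cast; rfl)
    rw [h1]
    exact Submodule.smul_mem _ _ hw1
  -- second step
  obtain ⟨w₁, hw₁, hw₁1, hw₁2⟩ := lin_exists2 h hR hL (KOp.ofRop hC₀r) (KOp.ofRop hF₀r) hm
    (by rw [hC₀, sub_self]; exact Submodule.zero_mem _) hC₀L
  obtain ⟨w', hw', hwψ'⟩ := descend φ hφ hw₁
  have hw'1 : L * w' - w' * L ∈ Nd h (RR W X) 0 := by
    have hT1 : ∀ s, ROp W X (-1) s → ROp W X (-0) ((ad W.K L) s) := fun s hs =>
      hOA.cast (ad_rop hLr hs) (by ring)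
    refine nd_of_rop (KOp.ofRop (hOA.cast (ad_rop hLr hw') (by ring))) fun b hb => ?_
    rw [neg_zero] at hb
    have h1 := hwψ' _ (strForm_rat hT1 hb)
    have h2 : strForm W X (ad W.K L) b w₁ = 0 := hw₁1.2 b (by simpa using KOp.ofRop hb)
    rw [h2, map_zero, Rat.cast_zero] at h1
    exact h1
  set u := C₀ * F₀ - F₀ * C₀ + 2 * F₀ with hu
  have h2r : ∀ s, ROp W X (-1) s → ROp W X (-1) (2 * s) := fun s hs => by
    rw [two_mul]
    exact hOA.add hs hs
  have hur : ROp W X (-1) u := hOA.add (hOA.cast (ad_rop hC₀r hF₀r) (by ring)) (h2r _ hF₀r)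
  have hw'2 : C₀ * w' - w' * C₀ + 2 * w' - u ∈ Nd h (RR W X) (-1) := by
    set T₂ : Module.End W.K (W.H X) →ₗ[W.K] Module.End W.K (W.H X) :=
      ad W.K C₀ + LinearMap.mulLeft W.K (2 : Module.End W.K (W.H X)) with hT₂
    have hT1 : ∀ s, ROp W X (-1) s → ROp W X (-1) (T₂ s) := fun s hs =>
      hOA.add (hOA.cast (ad_rop hC₀r hs) (by ring)) (h2r s hs)
    refine nd_of_rop (Submodule.sub_mem _ (KOp.ofRop (hT1 w' hw')) (KOp.ofRop hur))
      fun b hb => ?_
    rw [neg_neg] at hb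
    have h1 := hwψ' _ (strForm_rat hT1 hb)
    have h2 := hw₁2.2 b (by simpa using KOp.ofRop hb)
    rw [sub_mul, mul_sub, map_sub, sub_eq_zero] at h2
    have h3 : strForm W X T₂ b w₁ =
        LinearMap.trace W.K (W.H X) (par (W.isInternal X) * (u * b)) := h2
    obtain ⟨q, hq⟩ := rop_str (u * b) (hOA.cast (hOA.mul hur hb) (by ring))
    rw [h3, hq, hφr, ← hq] at h1
    rw [sub_mul, mul_sub, map_sub, sub_eq_zero]
    exact h1
  -- the lowering operator
  have hFr : ROp W X (-1) (F₀ - w') := hOA.sub hF₀r hw'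
  have hCr : ROp W X 0 (L * (F₀ - w') - (F₀ - w') * L) := hOA.cast (ad_rop hLr hFr) (by ring)
  refine ⟨F₀ - w', L * (F₀ - w') - (F₀ - w') * L, hFr, hCr, rfl, ?_, ?_⟩
  · have h1 : (L * (F₀ - w') - (F₀ - w') * L) * L - L * (L * (F₀ - w') - (F₀ - w') * L) - 2 * L =
        (C₀ * L - L * C₀ - 2 * L) - ((L * w' - w' * L) * L - L * (L * w' - w' * L)) :=
      id1 L F₀ w'
    rw [h1]
    refine Submodule.sub_mem _ hC₀L (Submodule.sub_mem _ ?_ ?_)
    · exact Nd_cast (Nd_right hR hw'1 hL) (by ring)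
    · exact Nd_cast (Nd_left hR hL hw'1) (by ring)
  · have h1 : (L * (F₀ - w') - (F₀ - w') * L) * (F₀ - w') -
        (F₀ - w') * (L * (F₀ - w') - (F₀ - w') * L) + 2 * (F₀ - w') =
        -(C₀ * w' - w' * C₀ + 2 * w' - u) -
          ((L * w' - w' * L) * (F₀ - w') - (F₀ - w') * (L * w' - w' * L)) :=
      id2 L F₀ w'
    rw [h1]
    refine Submodule.sub_mem _ (Submodule.neg_mem _ hw'2) (Submodule.sub_mem _ ?_ ?_)
    · exact Nd_cast (Nd_right hR hw'1 (KOp.ofRop hFr)) (by ring)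
    · exact Nd_cast (Nd_left hR (KOp.ofRop hFr) hw'1) (by ring)

lemma cyc_sub {Y : 𝒱.Obj} {p : ℕ} {z w : Y.Cycles} (hz : Y.IsCyc p z) (hw : Y.IsCyc p w) :
    Y.IsCyc p (z - w) := by
  have h1 : z - w = z + (-1 : ℚ) • w := by rw [neg_one_smul, sub_eq_add_neg]
  rw [h1]
  exact hz.add (hw.smul _)

lemma adCyc_mem (hD : X.IsCyc 1 D) {p : ℕ} {f : (X.prod X).Cycles} (hf : (X.prod X).IsCyc p f) :
    (X.prod X).IsCyc (1 + p) (adCyc ops D f) :=
  ops.mul_mem (cyc_sub (ops.pull_mem _ hD) (ops.pull_mem _ hD)) hf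

lemma corr_adCyc (hD : X.IsCyc 1 D) (f : (X.prod X).Cycles) {L : Module.End W.K (W.H X)}
    (hL : LinearMap.mulLeft W.K (W.cl X D) = L) :
    W.corr (W.cl _ (adCyc ops D f)) = L * W.corr (W.cl _ f) - W.corr (W.cl _ f) * L := by
  subst hL
  rw [adCyc, W.cl_mul, map_sub, W.cl_pull, W.cl_pull, sub_mul, corr_sub', corr_fst _ _ (W.cl_mem hD),
    corr_snd _ _ (W.cl_mem hD)]

lemma corr_push_diag (Z : X.Cycles) :
    W.corr (W.cl _ (ops.push (diag X) Z)) = LinearMap.mulLeft W.K (W.cl X Z) := by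
  apply LinearMap.ext
  intro a
  rw [W.cl_push, corr_diag, LinearMap.mulLeft_apply]

section ring

variable {A : Type*} [Ring A]

lemma id4 {K : Type*} [Field K] [Algebra K A] (L F : A) (c : K) (hc : c = -2) :
    L * (L * F - F * L) - (L * F - F * L) * L - c • L =
      -((L * F - F * L) * L - L * (L * F - F * L) - 2 * L) := by
  have h1 : c • L = -(2 * L) := by
    rw [hc, neg_smul, ofNat_smul_eq_nsmul, nsmul_eq_mul]
    rfl
  rw [h1]
  noncomm_ring

lemma id5 {K : Type*} [Field K] [Algebra K A] (C F : A) (c : K) (hc : c = -2) :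
    C * F - F * C - c • F = C * F - F * C + 2 * F := by
  have h1 : c • F = -(2 * F) := by
    rw [hc, neg_smul, ofNat_smul_eq_nsmul, nsmul_eq_mul]
    rfl
  rw [h1, sub_neg_eq_add]

lemma id6 {K : Type*} [Field K] [Algebra K A] (w F : A) (c : K) (hc : c = -2)
    (h : w * F = F * w + c • F) : w * F - F * w + 2 * F = 0 := by
  have h1 : c • F = -(2 * F) := by
    rw [hc, neg_smul, ofNat_smul_eq_nsmul, nsmul_eq_mul]
    rfl
  rw [h, h1]
  noncomm_ring

end ring

/-- Numerical lowering operators in terms of operators. -/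
lemma isNumLowering_iff (hn : 1 ≤ X.dim) (hD : X.IsCyc 1 D) {f : (X.prod X).Cycles}
    (hf : (X.prod X).IsCyc (X.dim - 1) f) {L F C : Module.End W.K (W.H X)}
    (hL : LinearMap.mulLeft W.K (W.cl X D) = L) (hF : W.corr (W.cl _ f) = F)
    (hC : L * F - F * L = C) : IsNumLowering ops X D f ↔
      C * L - L * C - 2 * L ∈ Nd (W.isInternal X) (RR W X) 1 ∧
      C * F - F * C + 2 * F ∈ Nd (W.isInternal X) (RR W X) (-1) := by
  have hc := adCyc_mem (ops := ops) hD hf
  rw [show 1 + (X.dim - 1) = X.dim by omega] at hc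
  have hcc := adCyc_mem (ops := ops) hD hc
  rw [add_comm] at hcc
  have hC' : W.corr (W.cl _ (adCyc ops D f)) = C := by rw [corr_adCyc hD f hL, hF, hC]
  have e1 : W.corr (W.cl _ (adCyc ops D (adCyc ops D f))) -
      W.corr (W.cl _ ((-2 : ℚ) • ops.push (diag X) D)) = -(C * L - L * C - 2 * L) := by
    rw [corr_adCyc hD _ hL, hC', W.cl_smul, corr_smul, corr_push_diag, hL, ← hC]
    exact id4 L F ((-2 : ℚ) : W.K) (by push_cast; rfl)
  have e2 : W.corr (W.cl _ (compCyc ops f (adCyc ops D f) - compCyc ops (adCyc ops D f) f)) -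
      W.corr (W.cl _ ((-2 : ℚ) • f)) = C * F - F * C + 2 * F := by
    rw [map_sub, corr_sub', corr_compCyc W hc, corr_compCyc W hf, hC', hF, W.cl_smul, corr_smul,
      hF]
    exact id5 C F ((-2 : ℚ) : W.K) (by push_cast; rfl)
  have h1 := nd_iff (W := W) (p := X.dim + 1) (d := 1) (by push_cast; ring) (by omega) hcc
    ((ops.push_mem (diag X) (q := X.dim + 1) hD (by rw [dim_prod]; omega)).smul (-2 : ℚ))
  have h2 := nd_iff (W := W) (p := X.dim - 1) (d := -1) (by omega) (by omega)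
    (cyc_sub (compCyc_mem (ops := ops) (r := X.dim - 1) hf hc (by omega))
      (compCyc_mem (ops := ops) (r := X.dim - 1) hc hf (by omega))) (hf.smul (-2 : ℚ))
  rw [e1] at h1
  rw [e2] at h2
  rw [IsNumLowering, h1, h2, neg_mem_iff]
  exact ⟨fun h => h.2, fun h => ⟨hf, h⟩⟩

/-- **Numerical lowering operators exist.** -/
theorem exists_numLowering (W : WeilCohomology.{u, v} ops) (hn : 1 ≤ X.dim) (hD : X.IsCyc 1 D) :
    ∃ f, IsNumLowering ops X D f := by
  obtain ⟨F, C, hF, -, hC, h1, h2⟩ := exists_rat (W := W) hD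
  obtain ⟨f, hf, rfl⟩ := exists_of_rop (p := X.dim - 1) (by omega) hF
  exact ⟨f, (isNumLowering_iff hn hD hf rfl rfl hC).2 ⟨h1, h2⟩⟩

lemma powCyc_mem {c : (X.prod X).Cycles} (hc : (X.prod X).IsCyc X.dim c) (r : ℕ) :
    (X.prod X).IsCyc X.dim (powCyc ops X c r) := by
  induction r with
  | zero => exact ops.push_mem _ X.V.fundCycle_mem (by rw [dim_prod]; omega)
  | succ r ih => exact compCyc_mem ih hc rfl

lemma corr_powCyc {c : (X.prod X).Cycles} (hc : (X.prod X).IsCyc X.dim c) (r : ℕ) :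
    W.corr (W.cl _ (powCyc ops X c r)) = W.corr (W.cl _ c) ^ r := by
  induction r with
  | zero =>
    rw [powCyc, corr_push_diag, W.cl_fund, pow_zero]
    apply LinearMap.ext
    intro a
    rw [LinearMap.mulLeft_apply, one_mul, Module.End.one_apply]
  | succ r ih => rw [powCyc, corr_compCyc W hc, ih, pow_succ']; rfl

lemma interT_powCyc {c : (X.prod X).Cycles} (hc : (X.prod X).IsCyc X.dim c) (r : ℕ) :
    (interT ops X (powCyc ops X c r) (powCyc ops X c 0) : W.K) =
      LinearMap.trace W.K (W.H X) (par (W.isInternal X) * W.corr (W.cl _ c) ^ r) := by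
  rw [interT_eq (powCyc_mem hc r) (powCyc_mem hc 0), corr_powCyc hc, corr_powCyc hc, pow_zero,
    mul_one]

/-- The possible weights. -/
noncomputable def wts (m : ℕ) : Finset ℤ := Finset.Icc (-(2 * m : ℤ)) (2 * m)

lemma rootPoly_dvd (m : ℕ) : rootPoly ℚ m m ∣
    (∏ l ∈ wts m, (Polynomial.X - Polynomial.C (l : ℚ) : ℚ[X])) ^ m := by
  have h1 : (∏ l ∈ wts m, (Polynomial.X - Polynomial.C (l : ℚ) : ℚ[X])) ^ m =
      ∏ _i ∈ Finset.range m, ∏ l ∈ wts m, (Polynomial.X - Polynomial.C (l : ℚ) : ℚ[X]) := by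
    rw [Finset.prod_const, Finset.card_range]
  rw [h1, rootPoly]
  refine Finset.prod_dvd_prod_of_dvd _ _ fun l hl => ?_
  have h2 : ∏ i ∈ Finset.range m, (Polynomial.X - Polynomial.C ((i : ℚ) - 2 * l) : ℚ[X]) =
      ∏ t ∈ (Finset.range m).image (fun i : ℕ => (i : ℤ) - 2 * l),
        (Polynomial.X - Polynomial.C (t : ℚ) : ℚ[X]) := by
    rw [Finset.prod_image (fun i _ j _ hij => by
      have : (i : ℤ) - 2 * l = (j : ℤ) - 2 * l := hij
      omega)]
    refine Finset.prod_congr rfl fun i _ => ?_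
    congr 2
    push_cast
    rfl
  rw [h2]
  apply Finset.prod_dvd_prod_of_subset
  intro t ht
  obtain ⟨i, hi, rfl⟩ := Finset.mem_image.1 ht
  rw [Finset.mem_range] at hi hl
  rw [wts, Finset.mem_Icc]
  omega

lemma ev_rootPoly {K : Type*} [Field K] [CharZero K] {V : Type*} [AddCommGroup V] [Module K V]
    (C : Module.End K V) (m : ℕ) : ev C (rootPoly ℚ m m) = aeval C (rootPoly K m m) := by
  rw [ev_apply]
  congr 1
  rw [rootPoly, rootPoly, Polynomial.map_prod]
  refine Finset.prod_congr rfl fun l _ => ?_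
  rw [Polynomial.map_prod]
  refine Finset.prod_congr rfl fun i _ => ?_
  simp

/-- The sum over the weights, as a sum over the degrees. -/
lemma sum_wts {n m : ℕ} (hnm : n < m) (g : ℤ → ℚ) (hg : ∀ l : ℤ, ¬ (-(n : ℤ) ≤ l ∧ l ≤ n) → g l = 0) :
    ∑ l ∈ wts m, g l = ∑ j : Fin (2 * n + 1), g ((j : ℕ) - (n : ℤ)) := by
  classical
  have h1 : ∑ j : Fin (2 * n + 1), g ((j : ℕ) - (n : ℤ)) =
      ∑ l ∈ Finset.univ.image (fun j : Fin (2 * n + 1) => ((j : ℕ) : ℤ) - n), g l := by
    rw [Finset.sum_image (fun i _ j _ hij => by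
      have : ((i : ℕ) : ℤ) - n = ((j : ℕ) : ℤ) - n := hij
      exact Fin.ext (by omega))]
  rw [h1]
  symm
  apply Finset.sum_subset
  · intro l hl
    obtain ⟨j, -, rfl⟩ := Finset.mem_image.1 hl
    have := j.2
    rw [wts, Finset.mem_Icc]
    omega
  · intro l _ hl
    apply hg
    rintro ⟨h2, h3⟩
    apply hl
    refine Finset.mem_image.2 ⟨⟨(l + n).toNat, by omega⟩, Finset.mem_univ _, ?_⟩
    simp only
    omega

lemma eq_of_int_sums (Λ : Finset ℤ) (a b : ℤ → ℤ)
    (h : ∀ r : ℕ, ∑ l ∈ Λ, a l * l ^ r = ∑ l ∈ Λ, b l * l ^ r) : ∀ l ∈ Λ, a l = b l := by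
  classical
  intro l hl
  have hinj : Function.Injective (fun l : ℤ => (l : ℚ)) := Int.cast_injective
  have key := eq_of_power_sums (Λ.image (fun l : ℤ => (l : ℚ)))
    (fun q => (a ⌊q⌋ : ℚ)) (fun q => (b ⌊q⌋ : ℚ)) (fun r => by
      rw [Finset.sum_image (fun i _ j _ hij => hinj hij),
        Finset.sum_image (fun i _ j _ hij => hinj hij)]
      simp only [Int.floor_intCast]
      have := h r
      have h2 : ((∑ l ∈ Λ, a l * l ^ r : ℤ) : ℚ) = ((∑ l ∈ Λ, b l * l ^ r : ℤ) : ℚ) := by rw [this]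
      push_cast at h2
      simp only [mul_comm ((_ : ℚ) ^ r)]
      exact h2) (l : ℚ) (Finset.mem_image_of_mem _ hl)
  simp only [Int.floor_intCast] at key
  exact_mod_cast key

lemma totalWeight_eq (W : WeilCohomology.{u, v} ops) : totalWeight W X =
    ∑ j : Fin (2 * X.dim + 1), ww X.dim j ^ 2 * (Module.finrank W.K (W.gr X j) : ℚ) := by
  rw [totalWeight, Finset.sum_range fun j => ((j : ℚ) - X.dim) ^ 2 * (W.betti X j : ℚ)]
  rfl

/-- **Numerical lowering operators and the conjecture B.** -/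
theorem numLowering (hn : 1 ≤ X.dim) (hD : X.IsCyc 1 D)
    {f : (X.prod X).Cycles} (hf : IsNumLowering ops X D f) :
    ∃ s : ℤ →₀ ℤ, HasEigenvalues ops X (adCyc ops D f) s ∧ secondMoment s ≤ totalWeight W X ∧
      (HardLefschetz W X D → (secondMoment s = totalWeight W X ↔ LefschetzB W X D)) := by
  classical
  have h := W.isInternal X
  have hR := grAlg W X
  have hOA := rop_opAlg (W := W) (X := X)
  have hf1 := hf.1
  have hc := adCyc_mem (ops := ops) hD hf1
  rw [show 1 + (X.dim - 1) = X.dim by omega] at hc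
  set L : Module.End W.K (W.H X) := LinearMap.mulLeft W.K (W.cl X D) with hLdef
  set F := W.corr (W.cl _ f) with hFdef
  set C := W.corr (W.cl _ (adCyc ops D f)) with hCdef
  have hC : L * F - F * L = C := (corr_adCyc hD f rfl).symm
  obtain ⟨n2, n3⟩ := (isNumLowering_iff hn hD hf1 rfl rfl hC).1 hf
  have hLr : ROp W X 1 L := rop_mulLeft hD
  have hFr : ROp W X (-1) F := rop_corr (by omega) hf1
  have hCr : ROp W X 0 C := rop_corr (by omega) hc
  have hL : L ∈ RR W X 1 := KOp.ofRop hLr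
  have hF : F ∈ RR W X (-1) := KOp.ofRop hFr
  have hC0 : C ∈ RR W X 0 := KOp.ofRop hCr
  have hm : L ^ (X.dim + 1) = 0 := mulLeft_pow_zero hD
  have n1 : L * F - F * L - C ∈ Nd h (RR W X) 0 := by
    rw [hC, sub_self]
    exact Submodule.zero_mem _
  have hQ0 := lin_Q h hR hL hC0 hF hm n1 n2
  have hQ : ev C ((∏ l ∈ wts (X.dim + 1), (Polynomial.X - Polynomial.C (l : ℚ) : ℚ[X])) ^
      (X.dim + 1)) ∈ Nd h (RR W X) 0 := by
    obtain ⟨g, hg⟩ := rootPoly_dvd (X.dim + 1)
    rw [hg, map_mul, ev_rootPoly]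
    exact Nd0_right hR hQ0 (by rw [ev_apply]; exact aeval_R hR hC0 _)
  obtain ⟨sg, hsg1, hsg2, hsg3⟩ := second_gen h W_hbd hR hL hF hC0 n1 n2 (wts (X.dim + 1))
    (X.dim + 1) hQ
  set s : ℤ →₀ ℤ := Finsupp.onFinset (wts (X.dim + 1))
    (fun l => if l ∈ wts (X.dim + 1) then sg l else 0) (fun l hl => by
      by_contra hne
      exact hl (if_neg hne)) with hs
  have hsum : ∀ g : ℤ → ℤ → ℚ, (∀ l, g l 0 = 0) → s.sum g = ∑ l ∈ wts (X.dim + 1), g l (sg l) := by
    intro g hg
    rw [hs, Finsupp.onFinset_sum _ hg]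
    exact Finset.sum_congr rfl fun l hl => by rw [if_pos hl]
  have hmom : secondMoment s = ∑ l ∈ wts (X.dim + 1), (l : ℚ) ^ 2 * ((|sg l| : ℤ) : ℚ) := by
    rw [secondMoment, hsum _ (fun l => by simp)]
    refine Finset.sum_congr rfl fun l _ => ?_
    push_cast
    rfl
  refine ⟨s, fun r => ?_, ?_, ?_⟩
  · have h1 := interT_powCyc (W := W) hc r
    rw [hsg1 r] at h1
    rw [hsum _ (fun l => by simp)]
    have h2 : (interT ops X (powCyc ops X (adCyc ops D f) r) (powCyc ops X (adCyc ops D f) 0)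
        : ℚ) = ((∑ l ∈ wts (X.dim + 1), sg l * l ^ r : ℤ) : ℚ) := by
      have h3 : ((∑ l ∈ wts (X.dim + 1), sg l * l ^ r : ℤ) : W.K) =
        (((∑ l ∈ wts (X.dim + 1), sg l * l ^ r : ℤ) : ℚ) : W.K) := by push_cast; rfl
      rw [h3] at h1
      exact_mod_cast h1
    rw [h2]
    push_cast
    rfl
  · rw [hmom, totalWeight_eq]
    exact hsg2
  · intro hX
    rw [hmom, totalWeight_eq]
    constructor
    · intro heq
      have h3 := hsg3 heq
      apply lefschetzB_of_inj hD hX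
      intro c hcn
      by_cases hc0 : c = 0
      · subst hc0
        refine ⟨1, ?_, fun a _ h0 => by simpa using h0⟩
        rw [Nat.cast_zero, neg_zero]
        exact KOp.id X
      · have hlt : X.dim + c < 2 * X.dim + 1 := by omega
        have hww : ww X.dim ⟨X.dim + c, hlt⟩ = c := by
          rw [ww, node]
          push_cast
          ring
        obtain ⟨h4, h5⟩ := h3 ⟨X.dim + c, hlt⟩ (by
          rw [hww]
          exact_mod_cast hc0)
        rw [hww, Rat.cast_natCast] at h5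
        obtain ⟨x, hx, hx2⟩ := inj_of_nil h hR hL hF hC0 hm n1 n2 n3 c (X.dim + c) h4 h5
        exact ⟨x, hx, hx2⟩
    · intro hB
      have hLh : IsHom (W.gr X) 2 L := isHom_mulLeft W hD
      obtain ⟨fB, t, hfBh, hfv⟩ := exists_sl2 h hLh W_hbd hX
      have hfB : ROp W X (-1) fB := rop_lower hD hX hB hfv
      have hwt : ROp W X 0 (wt h X.dim) := by
        rw [← t.ef]
        exact hOA.sub (hOA.cast (hOA.mul hLr hfB) (by ring)) (hOA.cast (hOA.mul hfB hLr) (by ring))
      have hFh : wt h X.dim * F - F * wt h X.dim + 2 * F = 0 := by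
        have h1 := (hOA.hom hFr).wt_comm h X.dim
        refine id6 (K := W.K) (wt h X.dim) F (((2 * (-1) : ℤ) : W.K)) (by push_cast; norm_num) h1
      have hun := lin_unique h hR hL (KOp.ofRop hwt) (KOp.ofRop hfB) hC0 hF
        (by rw [t.ef, sub_self]; exact Submodule.zero_mem _)
        (by rw [t.he, sub_self]; exact Submodule.zero_mem _)
        (by rw [t.hf, neg_add_cancel]; exact Submodule.zero_mem _) n1 n2
        (by rw [hFh]; exact Submodule.zero_mem _)
      have hstr : ∀ r : ℕ, ∑ l ∈ wts (X.dim + 1), sg l * l ^ r =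
          ∑ l ∈ wts (X.dim + 1), (if -(X.dim : ℤ) ≤ l ∧ l ≤ X.dim then
            (-1) ^ (l + X.dim).toNat * (W.betti X (l + X.dim).toNat : ℤ) else 0) * l ^ r := by
        intro r
        have h1 := pow_sub_Nd h hR hC0 (KOp.ofRop hwt) hun r
        have h2 := str_Nd hR h1
        rw [mul_sub, map_sub, hsg1 r, sub_eq_zero, wt, scal_pow, par, scal_mul,
          trace_scal h W_hbd] at h2
        have h3 : ((∑ l ∈ wts (X.dim + 1), sg l * l ^ r : ℤ) : W.K) =
          ((((∑ l ∈ wts (X.dim + 1), sg l * l ^ r : ℤ) : ℚ)) : W.K) := by push_cast; rfl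
        have h4 : ((∑ l ∈ wts (X.dim + 1), sg l * l ^ r : ℤ) : ℚ) =
            ∑ l ∈ wts (X.dim + 1), (if -(X.dim : ℤ) ≤ l ∧ l ≤ X.dim then
            (-1 : ℚ) ^ (l + X.dim).toNat * (W.betti X (l + X.dim).toNat : ℚ) else 0) *
              (l : ℚ) ^ r := by
          rw [sum_wts (n := X.dim) (by omega) _ (fun l hl => by rw [if_neg hl, zero_mul])]
          have h5 : ∀ j : Fin (2 * X.dim + 1), (if -(X.dim : ℤ) ≤ ((j : ℕ) : ℤ) - X.dim ∧
              ((j : ℕ) : ℤ) - X.dim ≤ X.dim then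
              (-1 : ℚ) ^ (((j : ℕ) : ℤ) - X.dim + X.dim).toNat *
                (W.betti X (((j : ℕ) : ℤ) - X.dim + X.dim).toNat : ℚ) else 0) *
              ((((j : ℕ) : ℤ) - X.dim : ℤ) : ℚ) ^ r =
              (-1 : ℚ) ^ (j : ℕ) * (W.betti X (j : ℕ) : ℚ) * (((j : ℕ) : ℚ) - X.dim) ^ r := by
            intro j
            have := j.2
            rw [if_pos (by omega), show (((j : ℕ) : ℤ) - X.dim + X.dim).toNat = (j : ℕ) by omega]
            push_cast
            rfl
          rw [Finset.sum_congr rfl fun j _ => h5 j]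
          rw [h3] at h2
          have h6 : ((((∑ l ∈ wts (X.dim + 1), sg l * l ^ r : ℤ) : ℚ)) : W.K) =
              ((∑ j : Fin (2 * X.dim + 1), (-1 : ℚ) ^ (j : ℕ) * (W.betti X (j : ℕ) : ℚ) *
                (((j : ℕ) : ℚ) - X.dim) ^ r : ℚ) : W.K) := by
            rw [h2, Finset.sum_range fun i => (-1 : W.K) ^ i * ((node X.dim i : ℚ) : W.K) ^ r *
              (Module.finrank W.K (W.gr X i) : W.K)]
            push_cast
            refine Finset.sum_congr rfl fun j _ => ?_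
            rw [mul_right_comm, node]
            push_cast
            rfl
          exact_mod_cast h6
        have h7 : ((∑ l ∈ wts (X.dim + 1), sg l * l ^ r : ℤ) : ℚ) =
            ((∑ l ∈ wts (X.dim + 1), (if -(X.dim : ℤ) ≤ l ∧ l ≤ X.dim then
            (-1) ^ (l + X.dim).toNat * (W.betti X (l + X.dim).toNat : ℤ) else 0) * l ^ r : ℤ)
              : ℚ) := by
          rw [h4]
          push_cast
          rfl
        exact_mod_cast h7
      have hval := eq_of_int_sums _ _ _ hstr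
      rw [Finset.sum_congr rfl fun l hl => by rw [hval l hl]]
      rw [sum_wts (n := X.dim) (by omega) _ (fun l hl => by rw [if_neg hl]; simp)]
      refine Finset.sum_congr rfl fun j _ => ?_
      have := j.2
      rw [if_pos (by omega), show (((j : ℕ) : ℤ) - X.dim + X.dim).toNat = (j : ℕ) by omega,
        abs_mul, abs_neg_one_pow, one_mul, Nat.abs_cast, ww, node]
      push_cast
      rfl

lemma eigenvalues_unique {c : (X.prod X).Cycles} {s s' : ℤ →₀ ℤ} (h : HasEigenvalues ops X c s)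
    (h' : HasEigenvalues ops X c s') : s = s' := by
  classical
  have key := eq_of_int_sums (s.support ∪ s'.support) s s' (fun r => by
    have h1 := (h r).symm.trans (h' r)
    rw [Finsupp.sum_of_support_subset s Finset.subset_union_left _ (fun l _ => by simp),
      Finsupp.sum_of_support_subset s' Finset.subset_union_right _ (fun l _ => by simp)] at h1
    exact_mod_cast h1)
  ext l
  by_cases hl : l ∈ s.support ∪ s'.support
  · exact key l hl
  · rw [Finset.mem_union, not_or] at hl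
    rw [Finsupp.notMem_support_iff.1 hl.1, Finsupp.notMem_support_iff.1 hl.2]

/-- The lowering operator, up to numerical equivalence, under the conjecture B. -/
lemma lowering_unique (hn : 1 ≤ X.dim) (hD : X.IsCyc 1 D) (hX : HardLefschetz W X D)
    (hB : LefschetzB W X D) {f f' : (X.prod X).Cycles} (hf : IsNumLowering ops X D f)
    (hf' : IsNumLowering ops X D f') : NumEquiv ops (X.prod X) (X.dim - 1) f f' := by
  have h := W.isInternal X
  have hR := grAlg W X
  have hOA := rop_opAlg (W := W) (X := X)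
  have hLr : ROp W X 1 (LinearMap.mulLeft W.K (W.cl X D)) := rop_mulLeft hD
  obtain ⟨fB, t, hfBh, hfv⟩ := exists_sl2 h (isHom_mulLeft W hD) W_hbd hX
  have hfB : ROp W X (-1) fB := rop_lower hD hX hB hfv
  have hwt : ROp W X 0 (wt h X.dim) := by
    rw [← t.ef]
    exact hOA.sub (hOA.cast (hOA.mul hLr hfB) (by ring)) (hOA.cast (hOA.mul hfB hLr) (by ring))
  have key : ∀ f, IsNumLowering ops X D f →
      W.corr (W.cl _ f) - fB ∈ Nd (W.isInternal X) (RR W X) (-1) := by
    intro f hf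
    have hf1 := hf.1
    have hc := adCyc_mem (ops := ops) hD hf1
    rw [show 1 + (X.dim - 1) = X.dim by omega] at hc
    have hFr : ROp W X (-1) (W.corr (W.cl _ f)) := rop_corr (by omega) hf1
    have hCr : ROp W X 0 (W.corr (W.cl _ (adCyc ops D f))) := rop_corr (by omega) hc
    obtain ⟨n2, n3⟩ := (isNumLowering_iff hn hD hf1 rfl rfl (corr_adCyc hD f rfl).symm).1 hf
    have hFh : wt h X.dim * W.corr (W.cl _ f) - W.corr (W.cl _ f) * wt h X.dim +
        2 * W.corr (W.cl _ f) = 0 := by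
      have h1 := (hOA.hom hFr).wt_comm h X.dim
      refine id6 (K := W.K) (wt h X.dim) (W.corr (W.cl _ f)) (((2 * (-1) : ℤ) : W.K))
        (by push_cast; norm_num) h1
    exact lin_unique_f h hR (KOp.ofRop hLr) (KOp.ofRop hwt) (KOp.ofRop hfB) (KOp.ofRop hCr)
      (KOp.ofRop hFr)
      (by rw [t.ef, sub_self]; exact Submodule.zero_mem _)
      (by rw [t.he, sub_self]; exact Submodule.zero_mem _)
      (by rw [t.hf, neg_add_cancel]; exact Submodule.zero_mem _)
      (by rw [corr_adCyc hD f rfl, sub_self]; exact Submodule.zero_mem _) n2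
      (by rw [hFh]; exact Submodule.zero_mem _)
  rw [nd_iff (W := W) (d := -1) (by omega) (by omega) hf.1 hf'.1]
  have h1 := Submodule.sub_mem _ (key f hf) (key f' hf')
  rwa [sub_sub_sub_cancel_right] at h1

/-- **Numerical lowering operators and the conjecture B.** -/
theorem main (W₀ : WeilCohomology.{u, v} ops) (hn : 1 ≤ X.dim) (hD : X.IsCyc 1 D) :
    (∃ f, IsNumLowering ops X D f) ∧
    (∀ f, IsNumLowering ops X D f → ∃ s : ℤ →₀ ℤ, HasEigenvalues ops X (adCyc ops D f) s ∧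
      ∀ W : WeilCohomology.{u, v} ops, secondMoment s ≤ totalWeight W X ∧
        (HardLefschetz W X D → (secondMoment s = totalWeight W X ↔ LefschetzB W X D))) ∧
    ∀ W : WeilCohomology.{u, v} ops, HardLefschetz W X D → LefschetzB W X D →
      ∀ f f', IsNumLowering ops X D f → IsNumLowering ops X D f' →
        NumEquiv ops (X.prod X) (X.dim - 1) f f' := by
  refine ⟨exists_numLowering W₀ hn hD, fun f hf => ?_, fun W hX hB f f' hf hf' =>
    lowering_unique hn hD hX hB hf hf'⟩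
  obtain ⟨s, hs, -⟩ := numLowering (W := W₀) hn hD hf
  refine ⟨s, hs, fun W => ?_⟩
  obtain ⟨s', hs', h1, h2⟩ := numLowering (W := W) hn hD hf
  rw [eigenvalues_unique hs hs']
  exact ⟨h1, h2⟩

end Pool.Agent.X310.Jm
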