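import Pool.Agent.H914R2.Core0

/-!
# Direct summands from nondegenerate trace forms

`M` is spanned by the images of operators `p` from the spaces `N t`, the operators `q` from `M` to
the `N t` have no common kernel, and the trace form on the operators between the `N t` is
nondegenerate. Then the identity of `M` is a sum of products `p q`.
-/

set_option autoImplicit false

open Polynomial LinearMap Module

namespace Pool.Agent.X310

open Pool.Agent.H914

section Max

variable {K : Type*} [Field K] [CharZero K] {M : Type*} [AddCommGroup M] [Module K M]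
  [Module.Finite K M]

/-- A subspace of operators closed under multiplication contains an idempotent of maximal rank. -/
lemma exists_max_idem (I : Submodule K (Module.End K M)) :
    ∃ e ∈ I, e * e = e ∧ ∀ f ∈ I, f * f = f →
      finrank K (LinearMap.range f) ≤ finrank K (LinearMap.range e) := by
  classical
  have hP : ∃ r, ∃ f ∈ I, f * f = f ∧ finrank K (LinearMap.range f) = r :=
    ⟨_, 0, I.zero_mem, by rw [zero_mul], rfl⟩
  have hb : ∀ r, (∃ f ∈ I, f * f = f ∧ finrank K (LinearMap.range f) = r) → r ≤ finrank K M := by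
    rintro r ⟨f, -, -, rfl⟩
    exact Submodule.finrank_le _
  set r := Nat.findGreatest (fun r => ∃ f ∈ I, f * f = f ∧ finrank K (LinearMap.range f) = r)
    (finrank K M) with hr
  obtain ⟨r₀, hr₀⟩ := hP
  obtain ⟨e, he, hee, her⟩ : ∃ f ∈ I, f * f = f ∧ finrank K (LinearMap.range f) = r :=
    Nat.findGreatest_spec (P := fun r => ∃ f ∈ I, f * f = f ∧ finrank K (LinearMap.range f) = r)
      (hb r₀ hr₀) hr₀
  refine ⟨e, he, hee, fun f hf hff => ?_⟩
  rw [her]
  exact Nat.le_findGreatest (hb _ ⟨f, hf, hff, rfl⟩) ⟨f, hf, hff, rfl⟩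

/-- The complement of an idempotent of maximal rank is nil. -/
lemma nil_of_max {I : Submodule K (Module.End K M)} (hI : ∀ x ∈ I, ∀ y ∈ I, x * y ∈ I)
    {e : Module.End K M} (he : e ∈ I) (hee : e * e = e)
    (hmax : ∀ f ∈ I, f * f = f → finrank K (LinearMap.range f) ≤ finrank K (LinearMap.range e))
    {x : Module.End K M} (hx : x ∈ I) : IsNilpotent ((1 - e) * x * (1 - e)) := by
  set y := (1 - e) * x * (1 - e) with hy
  have hyI : y ∈ I := by
    have : y = x - e * x - x * e + e * x * e := by rw [hy]; noncomm_ring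
    rw [this]
    exact I.add_mem (I.sub_mem (I.sub_mem hx (hI _ he _ hx)) (hI _ hx _ he))
      (hI _ (hI _ he _ hx) _ he)
  have hey : e * y = 0 := by
    have h1 : e * (1 - e) = 0 := by rw [mul_sub, mul_one, hee, sub_self]
    rw [hy, ← mul_assoc, ← mul_assoc, h1, zero_mul, zero_mul]
  have hye : y * e = 0 := by
    have h1 : (1 - e) * e = 0 := by rw [sub_mul, one_mul, hee, sub_self]
    rw [hy, mul_assoc, h1, mul_zero]
  obtain ⟨w, k, -, hw, hk, g, hg⟩ := exists_fitting y
  set f := aeval y (1 - w) with hf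
  have hpow : ∀ n : ℕ, y ^ (n + 1) ∈ I := by
    intro n
    induction n with
    | zero => rwa [zero_add, pow_one]
    | succ n ih => rw [pow_succ]; exact hI _ ih _ hyI
  have hyg : ∀ g : K[X], y * aeval y g ∈ I := by
    intro g
    induction g using Polynomial.induction_on' with
    | add a b ha hb => rw [map_add, mul_add]; exact I.add_mem ha hb
    | monomial n c =>
      rw [aeval_monomial, Algebra.algebraMap_eq_smul_one, smul_mul_assoc, one_mul,
        mul_smul_comm, ← pow_succ']
      exact I.smul_mem _ (hpow n)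
  have hf' : f = y * aeval y g := by rw [hf, hg, map_mul, aeval_X]
  have hf'' : f = aeval y g * y := by
    rw [hf, hg, mul_comm, map_mul, aeval_X]
  have hff : f * f = f := by
    rw [hf, map_sub, map_one]
    have h1 : (1 - aeval y w) * (1 - aeval y w) =
        1 - aeval y w - aeval y w + aeval y w * aeval y w := by noncomm_ring
    rw [h1, hw]
    abel
  have hef : e * f = 0 := by rw [hf', ← mul_assoc, hey, zero_mul]
  have hfe : f * e = 0 := by rw [hf'', mul_assoc, hye, mul_zero]
  have h2 := hmax (e + f) (I.add_mem he (hf' ▸ hyg g)) (by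
    rw [mul_add, add_mul, add_mul, hee, hef, hfe, hff]
    abel)
  have h3 : (finrank K (LinearMap.range (e + f)) : K) =
      (finrank K (LinearMap.range e) : K) + (finrank K (LinearMap.range f) : K) := by
    rw [← trace_idem hee, ← trace_idem hff, ← map_add, trace_idem]
    rw [mul_add, add_mul, add_mul, hee, hef, hfe, hff]
    abel
  have h4 : finrank K (LinearMap.range (e + f)) =
      finrank K (LinearMap.range e) + finrank K (LinearMap.range f) := by exact_mod_cast h3
  have h5 : finrank K (LinearMap.range f) = 0 := by omega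
  have h6 : f = 0 := by
    apply eq_zero_of_idem_of_trace_eq_zero hff
    rw [trace_idem hff, h5, Nat.cast_zero]
  refine ⟨k, ?_⟩
  have h7 : aeval y w = 1 := by
    rw [hf, map_sub, map_one, sub_eq_zero] at h6
    exact h6.symm
  rwa [h7, mul_one] at hk

end Max

section Main

variable {K : Type*} [Field K] [CharZero K] {M : Type*} [AddCommGroup M] [Module K M]
  [Module.Finite K M] {ι : Type*} {N : ι → Type*} [∀ t, AddCommGroup (N t)]
  [∀ t, Module K (N t)] [∀ t, Module.Finite K (N t)]

/-- **The identity factors through the spaces `N t`.** Here `π` is a projector on `M`; the operators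
in `P t` go from `N t` to the image of `π` and span this image; those in `Q t` go from `M` to `N t`,
and a vector killed by all of them is killed by `π`; and the trace form on the operators in `R s t`
from `N s` to `N t` is nondegenerate. Then `π` is a sum of products `p q`. -/
theorem mem_span_products (π : Module.End K M) (P : ∀ t, Submodule K (N t →ₗ[K] M))
    (Q : ∀ t, Submodule K (M →ₗ[K] N t)) (R : ∀ s t, Submodule K (N s →ₗ[K] N t))
    (hP : ∀ t, ∀ p ∈ P t, π ∘ₗ p = p) (hQ : ∀ t, ∀ q ∈ Q t, q ∘ₗ π = q)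
    (hQP : ∀ s t, ∀ p ∈ P s, ∀ q ∈ Q t, q ∘ₗ p ∈ R s t)
    (hPR : ∀ s t, ∀ r ∈ R s t, ∀ p ∈ P t, p ∘ₗ r ∈ P s)
    (hspan : ∀ m, π m ∈ Submodule.span K {x | ∃ t, ∃ p ∈ P t, ∃ n, p n = x})
    (hker : ∀ m, (∀ t, ∀ q ∈ Q t, q m = 0) → π m = 0)
    (hnd : ∀ s t, ∀ u ∈ R s t,
      (∀ b ∈ R t s, LinearMap.trace K (N s) (b ∘ₗ u) = 0) → u = 0) :
    π ∈ Submodule.span K {x : Module.End K M | ∃ t, ∃ p ∈ P t, ∃ q ∈ Q t, p ∘ₗ q = x} := by
  set I := Submodule.span K {x : Module.End K M | ∃ t, ∃ p ∈ P t, ∃ q ∈ Q t, p ∘ₗ q = x} with hIdef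
  have hgen : ∀ {t p q}, p ∈ P t → q ∈ Q t → p ∘ₗ q ∈ I := fun {t p q} hp hq =>
    Submodule.subset_span ⟨t, p, hp, q, hq, rfl⟩
  have hI : ∀ x ∈ I, ∀ y ∈ I, x * y ∈ I := by
    intro x hx y hy
    induction hx using Submodule.span_induction with
    | mem x hx =>
      obtain ⟨t, p, hp, q, hq, rfl⟩ := hx
      induction hy using Submodule.span_induction with
      | mem y hy =>
        obtain ⟨s, p', hp', q', hq', rfl⟩ := hy
        have h1 : (p ∘ₗ q : Module.End K M) * (p' ∘ₗ q') = (p ∘ₗ (q ∘ₗ p')) ∘ₗ q' := rfl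
        rw [h1]
        exact hgen (hPR s t _ (hQP s t p' hp' q hq) p hp) hq'
      | zero => rw [mul_zero]; exact I.zero_mem
      | add a b _ _ ha hb => rw [mul_add]; exact I.add_mem ha hb
      | smul c a _ ha => rw [mul_smul_comm]; exact I.smul_mem _ ha
    | zero => rw [zero_mul]; exact I.zero_mem
    | add a b _ _ ha hb => rw [add_mul]; exact I.add_mem ha hb
    | smul c a _ ha => rw [smul_mul_assoc]; exact I.smul_mem _ ha
  have hπI : ∀ x ∈ I, π * x = x ∧ x * π = x := by
    intro x hx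
    induction hx using Submodule.span_induction with
    | mem x hx =>
      obtain ⟨t, p, hp, q, hq, rfl⟩ := hx
      refine ⟨?_, ?_⟩
      · change π ∘ₗ (p ∘ₗ q) = p ∘ₗ q
        rw [← LinearMap.comp_assoc, hP t p hp]
      · change (p ∘ₗ q) ∘ₗ π = p ∘ₗ q
        rw [LinearMap.comp_assoc, hQ t q hq]
    | zero => exact ⟨mul_zero _, zero_mul _⟩
    | add a b _ _ ha hb => exact ⟨by rw [mul_add, ha.1, hb.1], by rw [add_mul, ha.2, hb.2]⟩
    | smul c a _ ha => exact ⟨by rw [mul_smul_comm, ha.1], by rw [smul_mul_assoc, ha.2]⟩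
  obtain ⟨e, he, hee, hmax⟩ := exists_max_idem I
  -- products in the ideal again
  have hIP : ∀ x ∈ I, ∀ s, ∀ p ∈ P s, ∀ t, ∀ q ∈ Q t, q ∘ₗ (x ∘ₗ p) ∈ R s t := by
    intro x hx s p hp t q hq
    induction hx using Submodule.span_induction with
    | mem x hx =>
      obtain ⟨t', p', hp', q', hq', rfl⟩ := hx
      have h1 : q ∘ₗ ((p' ∘ₗ q') ∘ₗ p) = q ∘ₗ (p' ∘ₗ (q' ∘ₗ p)) := rfl
      rw [h1]
      exact hQP s t _ (hPR s t' _ (hQP s t' p hp q' hq') p' hp') q hq
    | zero => rw [LinearMap.zero_comp, LinearMap.comp_zero]; exact (R s t).zero_mem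
    | add a b _ _ ha hb =>
      rw [LinearMap.add_comp, LinearMap.comp_add]; exact (R s t).add_mem ha hb
    | smul c a _ ha =>
      rw [LinearMap.smul_comp, LinearMap.comp_smul]; exact (R s t).smul_mem _ ha
  have hzero : ∀ s, ∀ p ∈ P s, ∀ t, ∀ q ∈ Q t, q ∘ₗ ((1 - e) ∘ₗ p) = 0 := by
    intro s p hp t q hq
    have hu : q ∘ₗ ((1 - e) ∘ₗ p) ∈ R s t := by
      have h1 : q ∘ₗ ((1 - e) ∘ₗ p) = q ∘ₗ p - q ∘ₗ (e ∘ₗ p) := by
        rw [LinearMap.sub_comp, LinearMap.comp_sub]
        rfl
      rw [h1]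
      exact (R s t).sub_mem (hQP s t p hp q hq) (hIP e he s p hp t q hq)
    apply hnd s t _ hu
    intro b hb
    have hx : p ∘ₗ (b ∘ₗ q) ∈ I := by
      have h1 := hgen (hPR t s b hb p hp) hq
      rwa [LinearMap.comp_assoc] at h1
    have h2 : LinearMap.trace K (N s) (b ∘ₗ (q ∘ₗ ((1 - e) ∘ₗ p))) =
        LinearMap.trace K M ((1 - e) * (p ∘ₗ (b ∘ₗ q))) := by
      have h3 := LinearMap.trace_comp_comm' (R := K) p (b ∘ₗ (q ∘ₗ (1 - e)))
      have h4 : (b ∘ₗ (q ∘ₗ (1 - e))) ∘ₗ p = b ∘ₗ (q ∘ₗ ((1 - e) ∘ₗ p)) := rfl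
      rw [← h4, h3]
      have h5 : p ∘ₗ (b ∘ₗ (q ∘ₗ (1 - e))) = (p ∘ₗ (b ∘ₗ q)) * (1 - e) := rfl
      rw [h5, LinearMap.trace_mul_comm]
    rw [h2]
    have h6 : (1 - e) * (1 - e) = 1 - e := by
      rw [mul_sub, sub_mul, sub_mul, hee]; simp
    have h7 : LinearMap.trace K M ((1 - e) * (p ∘ₗ (b ∘ₗ q))) =
        LinearMap.trace K M ((1 - e) * (p ∘ₗ (b ∘ₗ q)) * (1 - e)) := by
      rw [LinearMap.trace_mul_comm, LinearMap.trace_mul_comm K ((1 - e) * _), ← mul_assoc, h6,
        LinearMap.trace_mul_comm]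
    rw [h7]
    exact (LinearMap.isNilpotent_trace_of_isNilpotent
      (nil_of_max hI he hee hmax hx)).eq_zero
  have hfinal : π = e := by
    ext m
    have h1 : ∀ t, ∀ q ∈ Q t, q (((1 - e) * π) m) = 0 := by
      intro t q hq
      have h2 : ∀ x ∈ Submodule.span K {x | ∃ t, ∃ p ∈ P t, ∃ n, p n = x}, q ((1 - e) x) = 0 := by
        intro x hx
        induction hx using Submodule.span_induction with
        | mem x hx =>
          obtain ⟨s, p, hp, n, rfl⟩ := hx
          exact congrArg (fun f : N s →ₗ[K] N t => f n) (hzero s p hp t q hq)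
        | zero => rw [map_zero, map_zero]
        | add a b _ _ ha hb => rw [map_add, map_add, ha, hb, add_zero]
        | smul c a _ ha => rw [map_smul, map_smul, ha, smul_zero]
      exact h2 _ (hspan m)
    have h3 := hker _ h1
    have h4 : π * ((1 - e) * π) = π * π - e := by
      rw [sub_mul, one_mul, (hπI e he).2, mul_sub, (hπI e he).1]
    have h5 : (π * ((1 - e) * π)) m = 0 := h3
    rw [h4, LinearMap.sub_apply, sub_eq_zero] at h5
    -- π * π = π on the span
    have h6 : ∀ x ∈ Submodule.span K {x | ∃ t, ∃ p ∈ P t, ∃ n, p n = x}, π x = x := by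
      intro x hx
      induction hx using Submodule.span_induction with
      | mem x hx =>
        obtain ⟨s, p, hp, n, rfl⟩ := hx
        exact congrArg (fun f : N s →ₗ[K] M => f n) (hP s p hp)
      | zero => rw [map_zero]
      | add a b _ _ ha hb => rw [map_add, ha, hb]
      | smul c a _ ha => rw [map_smul, ha]
    rw [← h5]
    exact (h6 _ (hspan m)).symm
  rw [hfinal]
  exact he

end Main

end Pool.Agent.X310
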