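import Pool.Agent.X310.SecComb
import Pool.Agent.X310.Sum
import Pool.Agent.H914R2.Core4

/-!
# The second moment: linear algebra
-/

set_option autoImplicit false
set_option linter.unusedSectionVars false

open Polynomial LinearMap Module

namespace Pool.Agent.X310.Sec

open Pool.Agent.H914

section

variable {K : Type*} [Field K] [CharZero K] {V : Type*} [AddCommGroup V] [Module K V]
  [Module.Finite K V] {gr : ℕ → Submodule K V}

/-- A graded algebra of operators. -/
structure GrAlg (gr : ℕ → Submodule K V) (R : ℤ → Submodule K (End K V)) : Prop where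
  one : 1 ∈ R 0
  mul : ∀ {a b x y}, x ∈ R a → y ∈ R b → x * y ∈ R (a + b)
  hom : ∀ {d y}, y ∈ R d → IsHom gr (2 * d) y

variable (h : DirectSum.IsInternal gr) {R : ℤ → Submodule K (End K V)}

/-- The operators of degree `d` in the radical of the supertrace form. -/
noncomputable def Nd (R : ℤ → Submodule K (End K V)) (d : ℤ) : Submodule K (End K V) where
  carrier := {a | a ∈ R d ∧ ∀ b ∈ R (-d), trace K V (par h * (a * b)) = 0}
  add_mem' := by
    rintro a b ⟨ha, ha'⟩ ⟨hb, hb'⟩
    exact ⟨Submodule.add_mem _ ha hb, fun c hc => by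
      rw [add_mul, mul_add, map_add, ha' c hc, hb' c hc, add_zero]⟩
  zero_mem' := ⟨Submodule.zero_mem _, fun c _ => by rw [zero_mul, mul_zero, map_zero]⟩
  smul_mem' := by
    rintro r a ⟨ha, ha'⟩
    exact ⟨Submodule.smul_mem _ _ ha, fun c hc => by
      rw [smul_mul_assoc, mul_smul_comm, map_smul, ha' c hc, smul_zero]⟩

variable {h}

lemma cast_mem {a b : ℤ} {x : End K V} (hx : x ∈ R a) (hab : a = b) : x ∈ R b := hab ▸ hx

lemma Nd_le {d : ℤ} {x : End K V} (hx : x ∈ Nd h R d) : x ∈ R d := hx.1

lemma Nd_cast {a b : ℤ} {x : End K V} (hx : x ∈ Nd h R a) (hab : a = b) : x ∈ Nd h R b :=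
  hab ▸ hx

variable (hR : GrAlg gr R)

include hR

lemma str_comm {a b : ℤ} {x y : End K V} (hx : x ∈ R a) (hy : y ∈ R b) :
    trace K V (par h * (x * y)) = trace K V (par h * (y * x)) := by
  rw [← mul_assoc, (hR.hom hx).par_comm h, mul_assoc, LinearMap.trace_mul_comm, mul_assoc]

lemma Nd_right {d a : ℤ} {x y : End K V} (hx : x ∈ Nd h R d) (hy : y ∈ R a) :
    x * y ∈ Nd h R (d + a) := by
  refine ⟨hR.mul hx.1 hy, fun b hb => ?_⟩
  rw [mul_assoc]
  exact hx.2 _ (cast_mem (hR.mul hy hb) (by ring))

lemma Nd_left {d a : ℤ} {x y : End K V} (hx : x ∈ R a) (hy : y ∈ Nd h R d) :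
    x * y ∈ Nd h R (a + d) := by
  refine ⟨hR.mul hx hy.1, fun b hb => ?_⟩
  rw [mul_assoc, str_comm hR hx (hR.mul hy.1 hb), mul_assoc]
  exact hy.2 _ (cast_mem (hR.mul hb hx) (by ring))

lemma Nd0_right {x y : End K V} (hx : x ∈ Nd h R 0) (hy : y ∈ R 0) : x * y ∈ Nd h R 0 :=
  Nd_cast (Nd_right hR hx hy) (by ring)

lemma Nd0_left {x y : End K V} (hx : x ∈ R 0) (hy : y ∈ Nd h R 0) : x * y ∈ Nd h R 0 :=
  Nd_cast (Nd_left hR hx hy) (by ring)

lemma mul0 {x y : End K V} (hx : x ∈ R 0) (hy : y ∈ R 0) : x * y ∈ R 0 :=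
  cast_mem (hR.mul hx hy) (by ring)

lemma str_Nd {x : End K V} (hx : x ∈ Nd h R 0) : trace K V (par h * x) = 0 := by
  have := hx.2 1 (cast_mem hR.one (by ring))
  rwa [mul_one] at this

omit hR in
lemma nil_trace {x : End K V} (hx : IsNilpotent x) : trace K V x = 0 :=
  (LinearMap.isNilpotent_trace_of_isNilpotent hx).eq_zero

omit hR in
lemma tr_corner {p y : End K V} (hp : p * p = p) : trace K V (p * y) = trace K V (p * y * p) := by
  conv_lhs => rw [← hp, mul_assoc, LinearMap.trace_mul_comm]

section corner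

variable {n : ℕ} {e p L F C : End K V} (he : e ∈ Nd h R 0) (hpe : p = 1 - e) (hp : p * p = p)
  (hnil : ∀ x ∈ Nd h R 0, IsNilpotent (p * x * p))

include he hpe hp hnil

omit hp hnil in
lemma p_mem : p ∈ R 0 := by
  rw [hpe]
  exact Submodule.sub_mem _ hR.one he.1

omit he hpe hR in
lemma tr0 {x : End K V} (hx : x ∈ Nd h R 0) : trace K V (p * x) = 0 := by
  rw [tr_corner hp]
  exact nil_trace (hnil x hx)

lemma tr1 {x : End K V} (hx : x ∈ Nd h R 0) : trace K V (wt h n * p * x) = 0 := by
  have hpR := p_mem hR he hpe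
  have hcomm : ∀ y ∈ R 0, wt h n * y = y * wt h n := by
    intro y hy
    have := (hR.hom hy).wt_comm h n
    simpa using this
  have h1 : trace K V (wt h n * p * x) = trace K V (p * x * p * wt h n) := by
    have e1 : wt h n * p * x = (wt h n * p) * (p * x) := by
      rw [mul_assoc (wt h n) p (p * x), ← mul_assoc p p x, hp, mul_assoc]
    have e2 : (p * x) * (wt h n * p) = p * x * p * wt h n := by
      rw [hcomm p hpR]
      noncomm_ring
    rw [e1, LinearMap.trace_mul_comm, e2]
  rw [h1]
  apply nil_trace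
  refine Commute.isNilpotent_mul_right ?_ (hnil x hx)
  have h2 : p * x * p ∈ R 0 := mul0 hR (mul0 hR hpR (Nd_le hx)) hpR
  exact (hcomm _ h2).symm

lemma trX {C x : End K V} (hC : C ∈ R 0) (hx : x ∈ Nd h R 0) :
    trace K V ((wt h n * p - p * C * p) * x) = 0 := by
  rw [sub_mul, map_sub, tr1 hR he hpe hp hnil hx, zero_sub, neg_eq_zero]
  have h1 : p * C * p * x = p * (C * p * x) := by noncomm_ring
  rw [h1]
  exact tr0 hp hnil (Nd0_left hR (mul0 hR hC (p_mem hR he hpe)) hx)

/-- The correlation of the two weight operators. -/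
theorem tr_wt (hL : L ∈ R 1) (hF : F ∈ R (-1)) (hC : C ∈ R 0)
    (h1 : L * F - F * L - C ∈ Nd h R 0) (h2 : C * L - L * C - 2 * L ∈ Nd h R 1) :
    trace K V (wt h n * p * C) = trace K V (p * C * p * C) := by
  have hpR := p_mem hR he hpe
  have hep : 1 = p + e := by rw [hpe]; abel
  set X := wt h n * p - p * C * p with hX
  have hwp : wt h n * p = p * wt h n := by
    have := (hR.hom hpR).wt_comm h n
    simpa using this
  have hwL : wt h n * L = L * wt h n + 2 * L := by
    have := (hR.hom hL).wt_comm h n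
    rw [this]
    congr 1
    push_cast
    rw [two_smul, two_mul]
  have hXN : ∀ x ∈ Nd h R 0, trace K V (X * x) = 0 := fun x hx => trX hR he hpe hp hnil hC hx
  clear_value X
  have t1 : trace K V (X * (L * F - F * L - C)) = 0 := hXN _ h1
  have t2 : trace K V (X * (L * e * F)) = 0 := hXN _
    (Nd_cast (Nd_right hR (Nd_left hR hL he) hF) (by ring))
  have t3 : trace K V (X * (F * e * L)) = 0 := hXN _
    (Nd_cast (Nd_right hR (Nd_left hR hF he) hL) (by ring))
  have e1 : X * (L * F - F * L - C) = X * L * p * F + X * (L * e * F) -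
      (X * F * p * L + X * (F * e * L)) - X * C := by
    have a1 : L * F = L * p * F + L * e * F := by
      conv_lhs => rw [← mul_one L, hep]
      noncomm_ring
    have a2 : F * L = F * p * L + F * e * L := by
      conv_lhs => rw [← mul_one F, hep]
      noncomm_ring
    rw [a1, a2]
    noncomm_ring
  have t4 : trace K V (X * F * p * L) = trace K V (p * L * X * F) := by
    have : X * F * p * L = (X * F) * (p * L) := by noncomm_ring
    rw [this, LinearMap.trace_mul_comm]
    exact congrArg _ (by noncomm_ring)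
  have t5 : trace K V (X * C) = trace K V ((X * L * p - p * L * X) * F) := by
    rw [e1] at t1
    simp only [map_sub, map_add] at t1
    rw [t2, t3, t4, add_zero, add_zero, sub_eq_zero] at t1
    rw [← t1, sub_mul, map_sub]
  have e2 : X * L * p - p * L * X = p * (C * e * L) * p - p * (L * e * C) * p -
      p * (C * L - L * C - 2 * L) * p := by
    have a1 : X * L * p = p * L * wt h n * p + 2 * (p * L * p) - p * C * p * L * p := by
      rw [hX, sub_mul, sub_mul, hwp]
      congr 1
      have : p * wt h n * L * p = p * (wt h n * L) * p := by noncomm_ring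
      rw [this, hwL]
      noncomm_ring
    have a2 : p * L * X = p * L * wt h n * p - p * L * p * C * p := by
      rw [hX]
      noncomm_ring
    have a3 : p * C * p * L * p = p * C * L * p - p * C * e * L * p := by
      have : p * C * p * L * p = p * C * (1 - e) * L * p := by rw [← hpe]
      rw [this]
      noncomm_ring
    have a4 : p * L * p * C * p = p * L * C * p - p * L * e * C * p := by
      have : p * L * p * C * p = p * L * (1 - e) * C * p := by rw [← hpe]
      rw [this]
      noncomm_ring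
    rw [a1, a2, a3, a4]
    noncomm_ring
  have t6 : trace K V ((X * L * p - p * L * X) * F) = 0 := by
    rw [e2, sub_mul, sub_mul, map_sub, map_sub]
    have b1 : trace K V (p * (C * e * L) * p * F) = 0 := by
      have : p * (C * e * L) * p * F = p * (C * e * (L * (p * F))) := by noncomm_ring
      rw [this]
      exact tr0 hp hnil (Nd0_right hR (Nd0_left hR hC he)
        (cast_mem (hR.mul hL (hR.mul hpR hF)) (by ring)))
    have b2 : trace K V (p * (L * e * C) * p * F) = 0 := by
      have : p * (L * e * C) * p * F = p * (L * e * (C * (p * F))) := by noncomm_ring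
      rw [this]
      exact tr0 hp hnil (Nd_cast (Nd_right hR (Nd_left hR hL he)
        (hR.mul hC (hR.mul hpR hF))) (by ring))
    have b3 : trace K V (p * (C * L - L * C - 2 * L) * p * F) = 0 := by
      have : p * (C * L - L * C - 2 * L) * p * F =
        p * ((C * L - L * C - 2 * L) * (p * F)) := by noncomm_ring
      rw [this]
      exact tr0 hp hnil (Nd_cast (Nd_right hR h2 (hR.mul hpR hF)) (by ring))
    rw [b1, b2, b3, sub_zero, sub_zero]
  rw [t6, hX, sub_mul, map_sub, sub_eq_zero] at t5
  exact t5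

/-- The powers of the compression. -/
lemma corner_ev (hC : C ∈ R 0) (g : ℚ[X]) :
    ∃ Y ∈ R 0, Y - ev C g ∈ Nd h R 0 ∧ p * ev (p * C * p) g = p * Y * p := by
  have hpR := p_mem hR he hpe
  have hpow : ∀ r : ℕ, ∃ Y ∈ R 0, Y - C ^ r ∈ Nd h R 0 ∧ p * (p * C * p) ^ r = p * Y * p := by
    intro r
    induction r with
    | zero => exact ⟨1, hR.one, by simp, by rw [pow_zero, mul_one, hp]⟩
    | succ r ih =>
      obtain ⟨Y, hY, hY1, hY2⟩ := ih
      refine ⟨Y * p * C, mul0 hR (mul0 hR hY hpR) hC, ?_, ?_⟩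
      · have e1 : Y * p * C - C ^ (r + 1) = (Y - C ^ r) * C - Y * e * C := by
          rw [pow_succ, hpe]
          noncomm_ring
        rw [e1]
        exact Submodule.sub_mem _ (Nd0_right hR hY1 hC)
          (Nd0_right hR (Nd0_left hR hY he) hC)
      · rw [pow_succ, ← mul_assoc, hY2]
        have : p * Y * p * (p * C * p) = p * Y * (p * p) * C * p := by noncomm_ring
        rw [this, hp]
        noncomm_ring
  induction g using Polynomial.induction_on' with
  | add a b ha hb =>
    obtain ⟨Y, hY, hY1, hY2⟩ := ha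
    obtain ⟨Z, hZ, hZ1, hZ2⟩ := hb
    refine ⟨Y + Z, Submodule.add_mem _ hY hZ, ?_, ?_⟩
    · rw [map_add, add_sub_add_comm]
      exact Submodule.add_mem _ hY1 hZ1
    · rw [map_add, mul_add, hY2, hZ2, mul_add, add_mul]
  | monomial r c =>
    obtain ⟨Y, hY, hY1, hY2⟩ := hpow r
    have hm : ∀ T : End K V, ev T (monomial r c) = (c : K) • T ^ r := by
      intro T
      rw [← C_mul_X_pow_eq_monomial, map_mul, map_pow, ev_C, ev_X, smul_mul_assoc, one_mul]
    refine ⟨(c : K) • Y, Submodule.smul_mem _ _ hY, ?_, ?_⟩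
    · rw [hm, ← smul_sub]
      exact Submodule.smul_mem _ _ hY1
    · rw [hm, mul_smul_comm, hY2, mul_smul_comm, smul_mul_assoc]

end corner

end

end Pool.Agent.X310.Sec
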