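import Pool.Agent.X310.Jm
import Pool.Agent.X310.SecLin

/-!
# The quotient of a graded algebra of operators by the radical of the supertrace form
-/

set_option autoImplicit false
set_option linter.unusedSectionVars false

open Polynomial Module LinearMap

namespace Pool.Agent.X310.Jm

open Pool.Agent.H914 Pool.Agent.X310.Sec

section

variable {K : Type*} [Field K] [CharZero K] {V : Type*} [AddCommGroup V] [Module K V]
  [Module.Finite K V] {gr : ℕ → Submodule K V} {R : ℤ → Submodule K (End K V)}

/-- The algebra of operators. -/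
def algA (hR : GrAlg gr R) : Subalgebra K (End K V) where
  carrier := (⨆ d, R d : Submodule K (End K V))
  mul_mem' := by
    intro a b ha hb
    refine Submodule.iSup_induction R (motive := fun a => a * b ∈ (⨆ d, R d : Submodule K (End K V)))
      ha (fun i x hx => ?_) (by rw [zero_mul]; exact Submodule.zero_mem _)
      (fun x y hx hy => by rw [add_mul]; exact Submodule.add_mem _ hx hy)
    refine Submodule.iSup_induction R (motive := fun b => x * b ∈ (⨆ d, R d : Submodule K (End K V)))
      hb (fun j y hy => ?_) (by rw [mul_zero]; exact Submodule.zero_mem _)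
      (fun y z hy hz => by rw [mul_add]; exact Submodule.add_mem _ hy hz)
    exact Submodule.mem_iSup_of_mem (i + j) (hR.mul hx hy)
  one_mem' := Submodule.mem_iSup_of_mem 0 hR.one
  add_mem' := fun ha hb => Submodule.add_mem _ ha hb
  zero_mem' := Submodule.zero_mem _
  algebraMap_mem' := fun r => by
    rw [Algebra.algebraMap_eq_smul_one]
    exact Submodule.smul_mem _ _ (Submodule.mem_iSup_of_mem 0 hR.one)

lemma mem_algA {hR : GrAlg gr R} {d : ℤ} {x : End K V} (hx : x ∈ R d) : x ∈ algA hR :=
  Submodule.mem_iSup_of_mem d hx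

lemma algA_ind {hR : GrAlg gr R} {P : End K V → Prop} {x : End K V} (hx : x ∈ algA hR)
    (h1 : ∀ d, ∀ y ∈ R d, P y) (h0 : P 0) (h2 : ∀ y z, P y → P z → P (y + z)) : P x :=
  Submodule.iSup_induction R (motive := P) hx h1 h0 h2

variable (h : DirectSum.IsInternal gr)

/-- The supertrace. -/
noncomputable def strA (hR : GrAlg gr R) : algA hR →ₗ[K] K :=
  (trace K V) ∘ₗ (LinearMap.mulLeft K (par h)) ∘ₗ (algA hR).val.toLinearMap

lemma strA_apply (hR : GrAlg gr R) (x : algA hR) :
    strA h hR x = trace K V (par h * (x : End K V)) := rfl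

lemma par_comm' (hR : GrAlg gr R) {x : End K V} (hx : x ∈ algA hR) :
    par h * x = x * par h :=
  algA_ind (P := fun x => par h * x = x * par h) hx (fun d y hy => (hR.hom hy).par_comm h)
    (by rw [mul_zero, zero_mul]) (fun y z hy hz => by rw [mul_add, add_mul, hy, hz])

lemma strA_comm (hR : GrAlg gr R) (x y : algA hR) : strA h hR (x * y) = strA h hR (y * x) := by
  rw [strA_apply, strA_apply]
  change trace K V (par h * ((x : End K V) * (y : End K V))) =
    trace K V (par h * ((y : End K V) * (x : End K V)))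
  rw [← mul_assoc, par_comm' h hR x.2, mul_assoc, LinearMap.trace_mul_comm, mul_assoc]

/-- The radical of the supertrace form. -/
noncomputable def radN (hR : GrAlg gr R) : Ideal (algA hR) where
  carrier := {a | ∀ b, strA h hR (a * b) = 0}
  add_mem' := fun ha hb c => by rw [add_mul, map_add, ha, hb, add_zero]
  zero_mem' := fun c => by rw [zero_mul, map_zero]
  smul_mem' := fun c a ha b => by
    rw [smul_eq_mul, mul_assoc, strA_comm, mul_assoc]
    exact ha _

instance (hR : GrAlg gr R) : (radN h hR).IsTwoSided where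
  mul_mem_of_left := fun {a} b ha c => by
    rw [mul_assoc]
    exact ha _

/-- The quotient algebra. -/
abbrev MM (hR : GrAlg gr R) := algA hR ⧸ radN h hR

/-- The quotient map. -/
noncomputable def mkM (hR : GrAlg gr R) : algA hR →ₐ[K] MM h hR :=
  Ideal.Quotient.mkₐ K (radN h hR)

lemma mkM_surj (hR : GrAlg gr R) : Function.Surjective (mkM h hR) :=
  Ideal.Quotient.mkₐ_surjective K _

lemma mkM_zero (hR : GrAlg gr R) {x : algA hR} :
    mkM h hR x = 0 ↔ ∀ b, strA h hR (x * b) = 0 := by
  change Ideal.Quotient.mk (radN h hR) x = 0 ↔ _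
  rw [Ideal.Quotient.eq_zero_iff_mem]
  rfl

instance (hR : GrAlg gr R) : Module.Finite K (MM h hR) :=
  Module.Finite.of_surjective (mkM h hR).toLinearMap (mkM_surj h hR)

/-- The trace form on the quotient. -/
noncomputable def tauM (hR : GrAlg gr R) : MM h hR →ₗ[K] K :=
  (Submodule.liftQ (ker (mkM h hR).toLinearMap) (strA h hR) (fun x hx => by
    rw [LinearMap.mem_ker] at hx ⊢
    have h1 := (mkM_zero h hR).1 hx 1
    rwa [mul_one] at h1)) ∘ₗ
  (LinearMap.quotKerEquivOfSurjective (mkM h hR).toLinearMap (mkM_surj h hR)).symm.toLinearMap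

lemma tauM_mk (hR : GrAlg gr R) (x : algA hR) : tauM h hR (mkM h hR x) = strA h hR x := by
  have h1 : (LinearMap.quotKerEquivOfSurjective (mkM h hR).toLinearMap (mkM_surj h hR)).symm
      (mkM h hR x) = Submodule.Quotient.mk x := by
    rw [LinearEquiv.symm_apply_eq]
    rfl
  rw [tauM, LinearMap.comp_apply, LinearEquiv.coe_coe, h1, Submodule.liftQ_apply]

/-- The grading of the quotient. -/
noncomputable def grM (hR : GrAlg gr R) (d : ℤ) : Submodule K (MM h hR) :=
  ((R d).comap (algA hR).val.toLinearMap).map (mkM h hR).toLinearMap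

lemma mem_grM (hR : GrAlg gr R) {d : ℤ} {x : MM h hR} :
    x ∈ grM h hR d ↔ ∃ y : algA hR, (y : End K V) ∈ R d ∧ mkM h hR y = x := by
  rw [grM, Submodule.mem_map]
  rfl

lemma mk_grM (hR : GrAlg gr R) {d : ℤ} {y : algA hR} (hy : (y : End K V) ∈ R d) :
    mkM h hR y ∈ grM h hR d := (mem_grM h hR).2 ⟨y, hy, rfl⟩

lemma tr_hom {gr : ℕ → Submodule K V} (h : DirectSum.IsInternal gr) {d : ℤ} (hd : d ≠ 0)
    {y : End K V} (hy : IsHom gr d y) : trace K V y = 0 := by
  have h1 := congrArg (LinearMap.trace K V) (hy.wt_comm h 0)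
  rw [map_add, LinearMap.trace_mul_comm, map_smul] at h1
  have h2 : (d : K) • LinearMap.trace K V y = 0 := by
    simpa using h1.symm
  rcases smul_eq_zero.1 h2 with h3 | h3
  · exact absurd (by exact_mod_cast h3) hd
  · exact h3

lemma str_deg (hR : GrAlg gr R) {d : ℤ} (hd : d ≠ 0) {y : End K V} (hy : y ∈ R d) :
    trace K V (par h * y) = 0 := by
  apply tr_hom h (d := 2 * d) (by omega)
  have h1 : IsHom gr 0 (par h) := by
    rw [par]
    exact isHom_scal h _
  have := h1.mul (hR.hom hy)
  rwa [zero_add] at this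

/-- The supertrace of an operator vanishes if the supertraces of its high powers do. -/
lemma str_of_high (hR : GrAlg gr R) {a : End K V} (ha : a ∈ algA hR) {k : ℕ}
    (h0 : ∀ r, k ≤ r → trace K V (par h * a ^ r) = 0) : trace K V (par h * a) = 0 := by
  obtain ⟨w, N, hw0, hw, hkw, g, hg⟩ := exists_fitting a
  have hgen : ∀ g : K[X], trace K V (par h * (a ^ k * aeval a g)) = 0 := by
    intro g
    induction g using Polynomial.induction_on' with
    | add p q hp hq => rw [map_add, mul_add, mul_add, map_add, hp, hq, add_zero]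
    | monomial r c =>
      rw [aeval_monomial, Algebra.algebraMap_eq_smul_one, smul_mul_assoc, one_mul, mul_smul_comm,
        ← pow_add, mul_smul_comm, map_smul, h0 _ (Nat.le_add_right k r), smul_zero]
  have hid : ∀ n : ℕ, aeval a (1 - w) ^ (n + 1) = aeval a (1 - w) := by
    have h1 : aeval a (1 - w) * aeval a (1 - w) = aeval a (1 - w) := by
      rw [map_sub, map_one, mul_sub, sub_mul, sub_mul, hw]
      simp
    intro n
    induction n with
    | zero => rw [zero_add, pow_one]
    | succ n ih => rw [pow_succ, ih, h1]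
  have h1 : a = a * aeval a w + a ^ k * aeval a (X * X * g ^ (k + 1)) := by
    have e1 : a * aeval a (1 - w) = a ^ k * aeval a (X * X * g ^ (k + 1)) := by
      rw [← hid k, hg, ← map_pow]
      have e2 : a * aeval a ((X * g) ^ (k + 1)) = aeval a (X * (X * g) ^ (k + 1)) := by
        rw [map_mul (aeval a) X, aeval_X]
      have e3 : a ^ k * aeval a (X * X * g ^ (k + 1)) = aeval a (X ^ k * (X * X * g ^ (k + 1))) := by
        rw [map_mul (aeval a) (X ^ k), map_pow, aeval_X]
      rw [e2, e3]
      congr 1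
      ring
    rw [← e1, ← mul_add, ← map_add]
    simp
  have hca : Commute a (aeval a w) := (commute_aeval (Commute.refl a) w).symm
  have hnil : IsNilpotent (a * aeval a w) := by
    refine ⟨N + 1, ?_⟩
    rw [hca.mul_pow, pow_succ a, pow_succ' (aeval a w), mul_assoc, ← mul_assoc a, hca.eq,
      mul_assoc (aeval a w), ← mul_assoc, hkw, zero_mul]
  have hmem : a * aeval a w ∈ algA hR := by
    refine (algA hR).mul_mem ha ?_
    have : aeval a w = ((aeval (⟨a, ha⟩ : algA hR) w : algA hR) : End K V) := by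
      have := Polynomial.aeval_algHom_apply (algA hR).val (⟨a, ha⟩ : algA hR) w
      exact this
    rw [this]
    exact Subtype.property _
  have h2 : trace K V (par h * (a * aeval a w)) = 0 :=
    nil_trace (Commute.isNilpotent_mul_left (par_comm' h hR hmem) hnil)
  rw [h1, mul_add, map_add, h2, hgen, add_zero]

theorem trAlg (hR : GrAlg gr R) : TrAlg (tauM h hR) (grM h hR) where
  one := by
    rw [← map_one (mkM h hR)]
    exact mk_grM h hR hR.one
  mul := by
    intro a b x y hx hy
    obtain ⟨x, hx', rfl⟩ := (mem_grM h hR).1 hx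
    obtain ⟨y, hy', rfl⟩ := (mem_grM h hR).1 hy
    rw [← map_mul]
    exact mk_grM h hR (hR.mul hx' hy')
  top := by
    rw [eq_top_iff]
    rintro x -
    obtain ⟨⟨a, ha⟩, rfl⟩ := mkM_surj h hR x
    have key : ∀ a : End K V, ∀ ha : a ∈ (⨆ d, R d : Submodule K (End K V)),
        mkM h hR ⟨a, ha⟩ ∈ ⨆ d, grM h hR d := by
      intro a ha
      refine Submodule.iSup_induction' R
        (motive := fun a ha => mkM h hR ⟨a, ha⟩ ∈ ⨆ d, grM h hR d) (fun d x hx => ?_) ?_
        (fun x y hx hy h1 h2 => ?_) ha
      · exact Submodule.mem_iSup_of_mem d (mk_grM h hR hx)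
      · have : mkM h hR ⟨0, Submodule.zero_mem _⟩ = 0 := map_zero (mkM h hR)
        rw [this]
        exact Submodule.zero_mem _
      · have := Submodule.add_mem _ h1 h2
        rw [← map_add] at this
        exact this
    exact key a ha
  comm := by
    intro x y
    obtain ⟨x, rfl⟩ := mkM_surj h hR x
    obtain ⟨y, rfl⟩ := mkM_surj h hR y
    rw [← map_mul, ← map_mul, tauM_mk, tauM_mk, strA_comm]
  nondeg := by
    intro x hx
    obtain ⟨x, rfl⟩ := mkM_surj h hR x
    rw [mkM_zero]
    intro b
    have := hx (mkM h hR b)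
    rwa [← map_mul, tauM_mk] at this
  nil := by
    rintro x ⟨k, hk⟩
    obtain ⟨x, rfl⟩ := mkM_surj h hR x
    rw [← map_pow, mkM_zero] at hk
    rw [tauM_mk, strA_apply]
    apply str_of_high h hR x.2 (k := k)
    intro r hr
    obtain ⟨s, rfl⟩ := Nat.exists_eq_add_of_le hr
    have := hk (x ^ s)
    rw [← pow_add, strA_apply] at this
    exact this
  deg := by
    intro d hd x hx
    obtain ⟨x, hx', rfl⟩ := (mem_grM h hR).1 hx
    rw [tauM_mk, strA_apply]
    exact str_deg h hR hd hx'

lemma mkM_zero_iff (hR : GrAlg gr R) {d : ℤ} {x : algA hR} (hx : (x : End K V) ∈ R d) :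
    mkM h hR x = 0 ↔ (x : End K V) ∈ Nd h R d := by
  rw [mkM_zero]
  constructor
  · intro h0
    refine ⟨hx, fun b hb => ?_⟩
    have := h0 ⟨b, mem_algA hb⟩
    exact this
  · rintro ⟨-, h0⟩ ⟨b, hb⟩
    rw [strA_apply]
    change trace K V (par h * ((x : End K V) * b)) = 0
    refine algA_ind (P := fun b => trace K V (par h * ((x : End K V) * b)) = 0) hb
      (fun e y hy => ?_) (by rw [mul_zero, mul_zero, map_zero])
      (fun y z hy hz => by rw [mul_add, mul_add, map_add, hy, hz, add_zero])
    by_cases he : e = -d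
    · subst he
      exact h0 y hy
    · exact str_deg h hR (d := d + e) (by omega) (hR.mul hx hy)

/-- The class of an operator of degree `d`. -/
noncomputable def cls (hR : GrAlg gr R) {d : ℤ} {x : End K V} (hx : x ∈ R d) : MM h hR :=
  mkM h hR ⟨x, mem_algA hx⟩

lemma cls_mem (hR : GrAlg gr R) {d : ℤ} {x : End K V} (hx : x ∈ R d) :
    cls h hR hx ∈ grM h hR d := mk_grM h hR hx

lemma cls_zero (hR : GrAlg gr R) {d : ℤ} {x : End K V} (hx : x ∈ R d) :
    cls h hR hx = 0 ↔ x ∈ Nd h R d := mkM_zero_iff h hR hx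

lemma exists_cls (hR : GrAlg gr R) {d : ℤ} {x : MM h hR} (hx : x ∈ grM h hR d) :
    ∃ (y : End K V) (hy : y ∈ R d), cls h hR hy = x := by
  obtain ⟨y, hy, rfl⟩ := (mem_grM h hR).1 hx
  exact ⟨y, hy, rfl⟩

end

end Pool.Agent.X310.Jm
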