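import Pool.Agent.X310.SecSpec
import Pool.Agent.X310.JmLin

/-!
# Numerical triples: the inequality
-/

set_option autoImplicit false
set_option linter.unusedSectionVars false

open Polynomial LinearMap Module

namespace Pool.Agent.X310.Jm

open Pool.Agent.H914 Pool.Agent.X310.Sec

/-- The combinatorial part of the inequality. -/
lemma comb_gen {ι : Type*} [Fintype ι] (Λ : Finset ℤ) (d : ι → ℤ → ℕ) (e : ι → ℕ) (w : ι → ℚ)
    (ε : ι → ℤ) (hε : ∀ i, ε i = 1 ∨ ε i = -1)
    (h1 : ∑ j, ∑ l ∈ Λ, w j * l * (d j l : ℚ) = ∑ j, ∑ l ∈ Λ, (l : ℚ) ^ 2 * (d j l : ℚ))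
    (s : ℤ → ℤ) (h2 : ∀ l ∈ Λ, ∑ j, ε j * (d j l : ℤ) = s l) :
    ∑ l ∈ Λ, (l : ℚ) ^ 2 * ((|s l| : ℤ) : ℚ) ≤
        ∑ j, w j ^ 2 * ((∑ l ∈ Λ, d j l : ℕ) + (e j : ℚ)) ∧
      (∑ l ∈ Λ, (l : ℚ) ^ 2 * ((|s l| : ℤ) : ℚ) =
          ∑ j, w j ^ 2 * ((∑ l ∈ Λ, d j l : ℕ) + (e j : ℚ)) →
        ∀ j, (w j ≠ 0 → e j = 0) ∧ ∀ l ∈ Λ, d j l ≠ 0 → (l : ℚ) = w j) := by
  have h3 : ∀ l ∈ Λ, |s l| ≤ ∑ j, (d j l : ℤ) := by
    intro l hl
    rw [← h2 l hl]
    refine (Finset.abs_sum_le_sum_abs _ _).trans (Finset.sum_le_sum fun j _ => ?_)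
    rw [abs_mul]
    have : |ε j| = 1 := by rcases hε j with h | h <;> rw [h] <;> simp
    rw [this, one_mul, abs_of_nonneg (Int.natCast_nonneg _)]
  have h3' : ∀ l ∈ Λ, ((|s l| : ℤ) : ℚ) ≤ ∑ j, (d j l : ℚ) := fun l hl => by
    exact_mod_cast h3 l hl
  have h5 : ∑ j, w j ^ 2 * ((∑ l ∈ Λ, d j l : ℕ) + (e j : ℚ)) -
      ∑ l ∈ Λ, (l : ℚ) ^ 2 * ((|s l| : ℤ) : ℚ) =
      ∑ j, ∑ l ∈ Λ, (w j - l) ^ 2 * (d j l : ℚ) + ∑ j, w j ^ 2 * (e j : ℚ) +
        ∑ l ∈ Λ, (l : ℚ) ^ 2 * (∑ j, (d j l : ℚ) - ((|s l| : ℤ) : ℚ)) := by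
    have e1 : ∑ j, ∑ l ∈ Λ, (w j - l) ^ 2 * (d j l : ℚ) =
        ∑ j, ∑ l ∈ Λ, w j ^ 2 * (d j l : ℚ) - 2 * ∑ j, ∑ l ∈ Λ, w j * l * (d j l : ℚ) +
          ∑ j, ∑ l ∈ Λ, (l : ℚ) ^ 2 * (d j l : ℚ) := by
      rw [Finset.mul_sum, ← Finset.sum_sub_distrib, ← Finset.sum_add_distrib]
      refine Finset.sum_congr rfl fun j _ => ?_
      rw [Finset.mul_sum, ← Finset.sum_sub_distrib, ← Finset.sum_add_distrib]
      exact Finset.sum_congr rfl fun i _ => by ring
    have e2 : ∑ l ∈ Λ, (l : ℚ) ^ 2 * (∑ j, (d j l : ℚ) - ((|s l| : ℤ) : ℚ)) =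
        ∑ j, ∑ l ∈ Λ, (l : ℚ) ^ 2 * (d j l : ℚ) - ∑ l ∈ Λ, (l : ℚ) ^ 2 * ((|s l| : ℤ) : ℚ) := by
      rw [Finset.sum_comm, ← Finset.sum_sub_distrib]
      refine Finset.sum_congr rfl fun i _ => ?_
      rw [mul_sub, Finset.mul_sum]
    have e3 : ∑ j, w j ^ 2 * ((∑ l ∈ Λ, d j l : ℕ) + (e j : ℚ)) =
        ∑ j, ∑ l ∈ Λ, w j ^ 2 * (d j l : ℚ) + ∑ j, w j ^ 2 * (e j : ℚ) := by
      rw [← Finset.sum_add_distrib]
      refine Finset.sum_congr rfl fun j _ => ?_
      push_cast
      rw [mul_add, Finset.mul_sum]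
    rw [e1, e2, e3, h1]
    ring
  have n1 : 0 ≤ ∑ j, ∑ l ∈ Λ, (w j - l) ^ 2 * (d j l : ℚ) :=
    Finset.sum_nonneg fun j _ => Finset.sum_nonneg fun i _ => by positivity
  have n2 : 0 ≤ ∑ j, w j ^ 2 * (e j : ℚ) := Finset.sum_nonneg fun j _ => by positivity
  have n3 : ∀ l ∈ Λ, 0 ≤ (l : ℚ) ^ 2 * (∑ j, (d j l : ℚ) - ((|s l| : ℤ) : ℚ)) :=
    fun l hl => mul_nonneg (by positivity) (sub_nonneg.2 (h3' l hl))
  have n3' := Finset.sum_nonneg n3
  refine ⟨by linarith, fun heq j => ?_⟩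
  rw [heq, sub_self] at h5
  have z1 : ∑ j, ∑ l ∈ Λ, (w j - l) ^ 2 * (d j l : ℚ) = 0 := by linarith
  have z2 : ∑ j, w j ^ 2 * (e j : ℚ) = 0 := by linarith
  refine ⟨fun hj => ?_, fun l hl hne => ?_⟩
  · have a2 := (Finset.sum_eq_zero_iff_of_nonneg (fun i _ => by positivity)).1 z2 j
      (Finset.mem_univ j)
    rcases mul_eq_zero.1 a2 with h | h
    · exact absurd (pow_eq_zero_iff (two_ne_zero) |>.1 h) hj
    · exact_mod_cast h
  · have a1 := (Finset.sum_eq_zero_iff_of_nonneg (fun j _ =>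
      Finset.sum_nonneg fun i _ => by positivity)).1 z1 j (Finset.mem_univ j)
    have a2 := (Finset.sum_eq_zero_iff_of_nonneg (fun i _ => by positivity)).1 a1 l hl
    rcases mul_eq_zero.1 a2 with h | h
    · have := pow_eq_zero_iff (two_ne_zero) |>.1 h
      linarith
    · exact absurd (by exact_mod_cast h) hne

section

variable {K : Type*} [Field K] [CharZero K] {V : Type*} [AddCommGroup V] [Module K V]
  [Module.Finite K V] {gr : ℕ → Submodule K V} (h : DirectSum.IsInternal gr)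
  {R : ℤ → Submodule K (End K V)} {n : ℕ}

/-- **The inequality**: linear algebra. -/
theorem second_gen (hbd : ∀ i, 2 * n + 1 ≤ i → gr i = ⊥) (hR : GrAlg gr R) {L F C : End K V}
    (hL : L ∈ R 1) (hF : F ∈ R (-1)) (hC : C ∈ R 0)
    (h1 : L * F - F * L - C ∈ Nd h R 0) (h2 : C * L - L * C - 2 * L ∈ Nd h R 1)
    (Λ : Finset ℤ) (k₀ : ℕ)
    (hQ : ev C ((∏ l ∈ Λ, (X - Polynomial.C (l : ℚ) : ℚ[X])) ^ k₀) ∈ Nd h R 0) :
    ∃ sg : ℤ → ℤ, (∀ r : ℕ, trace K V (par h * C ^ r) =
        ((∑ l ∈ Λ, sg l * l ^ r : ℤ) : K)) ∧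
      ∑ l ∈ Λ, (l : ℚ) ^ 2 * ((|sg l| : ℤ) : ℚ) ≤
        ∑ j : Fin (2 * n + 1), ww n j ^ 2 * (finrank K (gr j) : ℚ) ∧
      (∑ l ∈ Λ, (l : ℚ) ^ 2 * ((|sg l| : ℤ) : ℚ) =
          ∑ j : Fin (2 * n + 1), ww n j ^ 2 * (finrank K (gr j) : ℚ) →
        ∀ j : Fin (2 * n + 1), ww n j ≠ 0 →
          (∀ x ∈ Nd h R 0, IsNilpotent (x * proj h (j : ℕ))) ∧
          IsNilpotent ((C - algebraMap K (End K V) (ww n j : K)) * proj h (j : ℕ))) := by
  classical
  obtain ⟨e, he, hee, hmax⟩ := exists_max_idem (Nd h R 0)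
  set p : End K V := 1 - e with hpe
  have hp : p * p = p := by
    rw [hpe]
    have : (1 - e) * (1 - e) = 1 - e - e + e * e := by noncomm_ring
    rw [this, hee]
    abel
  have hnil : ∀ x ∈ Nd h R 0, IsNilpotent (p * x * p) := fun x hx =>
    nil_of_max (fun a ha b hb => Nd0_right hR ha (Nd_le hb)) he hee hmax hx
  have hpR : p ∈ R 0 := p_mem hR he hpe
  set c : End K V := p * C * p with hc
  have hcR : c ∈ R 0 := mul0 hR (mul0 hR hpR hC) hpR
  have hpc : p * c = c := by rw [hc, ← mul_assoc, ← mul_assoc, hp]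
  have hcp : c * p = c := by rw [hc, mul_assoc, hp]
  have hpe0 : p * e = 0 := by rw [hpe, sub_mul, one_mul, hee, sub_self]
  have hep0 : e * p = 0 := by rw [hpe, mul_sub, mul_one, hee, sub_self]
  have hce : c * e = 0 := by rw [← hcp, mul_assoc, hpe0, mul_zero]
  have hec : e * c = 0 := by rw [← hpc, ← mul_assoc, hep0, zero_mul]
  have hpj : ∀ (y : End K V), y ∈ R 0 → ∀ j, proj h j * y = y * proj h j := fun y hy j =>
    IsHom.proj_comm h (by simpa using hR.hom hy) j
  set P : Option (Fin (2 * n + 1)) → End K V := fun o =>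
    match o with
    | none => e
    | some j => proj h (j : ℕ) * p with hP
  have hsumproj : ∑ j : Fin (2 * n + 1), proj h (j : ℕ) = 1 := by
    rw [← sum_proj h hbd, Finset.sum_range fun i => proj h i]
  obtain ⟨s, d, hd1, -, hd3⟩ := exists_spectral' c P (by
      rintro (_ | j)
      · change c * e = e * c
        rw [hce, hec]
      · change c * (proj h (j : ℕ) * p) = proj h (j : ℕ) * p * c
        rw [← mul_assoc, ← hpj c hcR, mul_assoc, hcp, mul_assoc, hpc])
    (by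
      rintro (_ | j)
      · exact hee
      · change proj h (j : ℕ) * p * (proj h (j : ℕ) * p) = proj h (j : ℕ) * p
        rw [mul_assoc, ← mul_assoc p, ← hpj p hpR, mul_assoc, hp, ← mul_assoc, proj_mul_proj])
    (by
      rw [Fintype.sum_option]
      change e + ∑ j : Fin (2 * n + 1), proj h (j : ℕ) * p = 1
      rw [← Finset.sum_mul, hsumproj, one_mul, hpe, add_sub_cancel])
  set κ := algebraMap K (AlgebraicClosure K) with hκ
  have hκq : ∀ q : ℚ, κ (q : K) = (q : AlgebraicClosure K) := fun q => map_ratCast κ q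
  have hd : ∀ (j : Fin (2 * n + 1)) (r : ℕ), κ (trace K V (proj h (j : ℕ) * p * c ^ r)) =
      ∑ α ∈ s, α ^ r * (d (some j) α : AlgebraicClosure K) := fun j r => hd1 (some j) r
  -- polynomials
  have hdg : ∀ (j : Fin (2 * n + 1)) (g : ℚ[X]), κ (trace K V (proj h (j : ℕ) * p * ev c g)) =
      ∑ α ∈ s, aeval α g * (d (some j) α : AlgebraicClosure K) := by
    intro j g
    induction g using Polynomial.induction_on' with
    | add a b ha hb =>
      rw [map_add, mul_add, map_add, map_add, ha, hb, ← Finset.sum_add_distrib]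
      exact Finset.sum_congr rfl fun α _ => by rw [map_add, add_mul]
    | monomial r q =>
      have hm : ev c (monomial r q) = (q : K) • c ^ r := by
        rw [← C_mul_X_pow_eq_monomial, map_mul, map_pow, ev_C, ev_X, smul_mul_assoc, one_mul]
      rw [hm, mul_smul_comm, map_smul, smul_eq_mul, map_mul, hd, Finset.mul_sum, hκq]
      refine Finset.sum_congr rfl fun α _ => ?_
      rw [aeval_monomial, ← mul_assoc]
      congr 2
  set Q : ℚ[X] := ∏ l ∈ Λ, (X - Polynomial.C (l : ℚ)) with hQdef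
  have hQnil : ∃ k, (p * ev c (Q ^ k₀)) ^ k = 0 := by
    obtain ⟨Y, hY, hY1, hY2⟩ := corner_ev hR he hpe hp hnil hC (Q ^ k₀)
    have h3 : Y ∈ Nd h R 0 := by
      have := Submodule.add_mem _ hY1 hQ
      rwa [sub_add_cancel] at this
    obtain ⟨k, hk⟩ := hnil Y h3
    exact ⟨k, by rw [hY2, hk]⟩
  obtain ⟨k, hk⟩ := hQnil
  have hcomm : Commute p (ev c (Q ^ k₀)) := by
    have : ∀ g : ℚ[X], Commute p (ev c g) := by
      intro g
      induction g using Polynomial.induction_on' with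
      | add a b ha hb => rw [map_add]; exact ha.add_right hb
      | monomial r q =>
        have hm : ev c (monomial r q) = (q : K) • c ^ r := by
          rw [← C_mul_X_pow_eq_monomial, map_mul, map_pow, ev_C, ev_X, smul_mul_assoc, one_mul]
        rw [hm]
        exact (Commute.pow_right (show p * c = c * p by rw [hpc, hcp]) r).smul_right _
    exact this _
  have hk' : p * ev c ((Q ^ k₀) ^ (k + 1)) = 0 := by
    have e1 : (p * ev c (Q ^ k₀)) ^ (k + 1) = 0 := by rw [pow_succ, hk, zero_mul]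
    rw [hcomm.mul_pow] at e1
    have e2 : ∀ m : ℕ, p ^ (m + 1) = p := by
      intro m
      induction m with
      | zero => rw [zero_add, pow_one]
      | succ m ih => rw [pow_succ, ih, hp]
    rw [e2] at e1
    rw [map_pow (ev c) (Q ^ k₀)]
    exact e1
  have hsupp : ∀ (j : Fin (2 * n + 1)), ∀ α ∈ s, d (some j) α ≠ 0 →
      ∃ l ∈ Λ, α = ((l : ℚ) : AlgebraicClosure K) := by
    intro j α hα hdα
    have e1 := eq_of_power_sums s (fun α => aeval α ((Q ^ k₀) ^ (k + 1)) *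
      (d (some j) α : AlgebraicClosure K)) (fun _ => 0) (fun r => by
        have e2 := hdg j (X ^ r * (Q ^ k₀) ^ (k + 1))
        have e2' : ev c (X ^ r * (Q ^ k₀) ^ (k + 1)) = c ^ r * ev c ((Q ^ k₀) ^ (k + 1)) := by
          rw [map_mul, map_pow (ev c) X, ev_X]
        rw [e2'] at e2
        have e3 : proj h (j : ℕ) * p * (c ^ r * ev c ((Q ^ k₀) ^ (k + 1))) =
            proj h (j : ℕ) * c ^ r * (p * ev c ((Q ^ k₀) ^ (k + 1))) := by
          have : p * c ^ r = c ^ r * p :=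
            Commute.pow_right (show p * c = c * p by rw [hpc, hcp]) r
          rw [mul_assoc, ← mul_assoc p, this]
          noncomm_ring
        rw [e3, hk', mul_zero, map_zero, map_zero] at e2
        simp only [mul_zero, Finset.sum_const_zero]
        rw [e2]
        refine Finset.sum_congr rfl fun α _ => ?_
        simp only [map_mul, map_pow, aeval_X]
        ring) α hα
    beta_reduce at e1
    rcases mul_eq_zero.1 e1 with e4 | e4
    · have e6 : aeval α Q = 0 := by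
        by_contra hne
        rw [map_pow, map_pow] at e4
        exact pow_ne_zero _ (pow_ne_zero _ hne) e4
      rw [hQdef, map_prod] at e6
      obtain ⟨i, hi', hi⟩ := Finset.prod_eq_zero_iff.1 e6
      refine ⟨i, hi', ?_⟩
      rw [map_sub, aeval_X, aeval_C, sub_eq_zero] at hi
      rw [hi]
      exact eq_ratCast (algebraMap ℚ (AlgebraicClosure K)) _
    · exact absurd (by exact_mod_cast e4) hdα
  -- the multiplicities
  set D : Fin (2 * n + 1) → ℤ → ℕ := fun j l =>
    if ((l : ℚ) : AlgebraicClosure K) ∈ s then d (some j) ((l : ℚ) : AlgebraicClosure K) else 0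
    with hD
  have hwinj : Function.Injective fun l : ℤ => ((l : ℚ) : AlgebraicClosure K) := fun i j hij => by
    have : ((i : ℚ) : AlgebraicClosure K) = ((j : ℚ) : AlgebraicClosure K) := hij
    exact_mod_cast this
  have hDsum : ∀ (j : Fin (2 * n + 1)) (f : AlgebraicClosure K → AlgebraicClosure K),
      ∑ α ∈ s, f α * (d (some j) α : AlgebraicClosure K) =
        ∑ l ∈ Λ, f ((l : ℚ) : AlgebraicClosure K) * (D j l : AlgebraicClosure K) := by
    intro j f
    have e1 : ∑ l ∈ Λ, f ((l : ℚ) : AlgebraicClosure K) * (D j l : AlgebraicClosure K) =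
        ∑ l ∈ Λ.filter (fun l : ℤ => ((l : ℚ) : AlgebraicClosure K) ∈ s),
          f ((l : ℚ) : AlgebraicClosure K) *
            (d (some j) ((l : ℚ) : AlgebraicClosure K) : AlgebraicClosure K) := by
      rw [Finset.sum_filter]
      refine Finset.sum_congr rfl fun i _ => ?_
      rw [hD]
      beta_reduce
      split_ifs
      · rfl
      · rw [Nat.cast_zero, mul_zero]
    rw [e1, ← Finset.sum_image (f := fun α => f α * (d (some j) α : AlgebraicClosure K))
      (g := fun l : ℤ => ((l : ℚ) : AlgebraicClosure K)) (fun i _ j _ hij => hwinj hij)]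
    symm
    apply Finset.sum_subset
    · intro α hα
      obtain ⟨i, hi, rfl⟩ := Finset.mem_image.1 hα
      exact (Finset.mem_filter.1 hi).2
    · intro α hα hα'
      by_cases h0 : d (some j) α = 0
      · rw [h0, Nat.cast_zero, mul_zero]
      · obtain ⟨i, hi, rfl⟩ := hsupp j α hα h0
        exact absurd (Finset.mem_image.2 ⟨i, Finset.mem_filter.2 ⟨hi, hα⟩, rfl⟩) hα'
  have hDr : ∀ (j : Fin (2 * n + 1)) (r : ℕ), κ (trace K V (proj h (j : ℕ) * p * c ^ r)) =
      ((∑ l ∈ Λ, (l : ℚ) ^ r * (D j l : ℚ) : ℚ) : AlgebraicClosure K) := by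
    intro j r
    rw [hd, hDsum j fun α => α ^ r]
    push_cast
    rfl
  have hDr' : ∀ (j : Fin (2 * n + 1)) (r : ℕ), trace K V (proj h (j : ℕ) * p * c ^ r) =
      ((∑ l ∈ Λ, (l : ℚ) ^ r * (D j l : ℚ) : ℚ) : K) := by
    intro j r
    apply κ.injective
    rw [hDr, hκq]
  -- the ranks
  set E : Fin (2 * n + 1) → ℕ := fun j => finrank K (LinearMap.range (proj h (j : ℕ) * e)) with hE
  have hEtr : ∀ j : Fin (2 * n + 1), trace K V (proj h (j : ℕ) * e) = (E j : K) := by
    intro j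
    rw [hE]
    apply trace_idem
    rw [mul_assoc, ← mul_assoc e, ← hpj e (Nd_le he), mul_assoc, hee, ← mul_assoc, proj_mul_proj]
  have hbetti : ∀ j : Fin (2 * n + 1), finrank K (gr j) = (∑ l ∈ Λ, D j l) + E j := by
    intro j
    have e1 := trace_proj h (j : ℕ)
    have e2 : proj h (j : ℕ) = proj h (j : ℕ) * p + proj h (j : ℕ) * e := by
      rw [← mul_add, hpe, sub_add_cancel, mul_one]
    have e3 := hDr' j 0
    simp only [pow_zero, mul_one, one_mul] at e3
    rw [e2, map_add, e3, hEtr] at e1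
    have e4 : (((∑ l ∈ Λ, D j l) + E j : ℕ) : K) = (finrank K (gr j) : K) := by
      rw [← e1]
      push_cast
      rfl
    exact_mod_cast e4.symm
  -- the correlation
  have hwt : wt h n = ∑ j : Fin (2 * n + 1), (ww n j : K) • proj h (j : ℕ) := by
    rw [wt, scal_eq_sum h hbd, Finset.sum_range fun i => ((node n i : ℚ) : K) • proj h i]
    rfl
  have hcor : ∑ j, ∑ l ∈ Λ, ww n j * l * (D j l : ℚ) = ∑ j, ∑ l ∈ Λ, (l : ℚ) ^ 2 * (D j l : ℚ) := by
    have e1 := tr_wt (n := n) hR he hpe hp hnil hL hF hC h1 h2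
    have e2 : trace K V (wt h n * p * C) =
        ((∑ j, ∑ l ∈ Λ, ww n j * l * (D j l : ℚ) : ℚ) : K) := by
      rw [hwt, Finset.sum_mul, Finset.sum_mul, map_sum]
      push_cast
      refine Finset.sum_congr rfl fun j _ => ?_
      have e3 : trace K V (proj h (j : ℕ) * p * C) = trace K V (proj h (j : ℕ) * p * c ^ 1) := by
        have e4 : proj h (j : ℕ) * p * c ^ 1 = proj h (j : ℕ) * p * C * p := by
          rw [pow_one, hc]
          have : proj h (j : ℕ) * p * (p * C * p) = proj h (j : ℕ) * (p * p) * C * p := by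
            noncomm_ring
          rw [this, hp]
        have e5 : trace K V (proj h (j : ℕ) * p * C * p) =
          trace K V (p * (proj h (j : ℕ) * p * C)) := LinearMap.trace_mul_comm K _ _
        have : p * (proj h (j : ℕ) * p * C) = (p * proj h (j : ℕ)) * p * C := by noncomm_ring
        rw [e4, e5, this, ← hpj p hpR, mul_assoc (proj h (j : ℕ)) p p, hp]
      rw [smul_mul_assoc, smul_mul_assoc, map_smul, smul_eq_mul, e3, hDr' j 1, Rat.cast_sum,
        Finset.mul_sum]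
      refine Finset.sum_congr rfl fun i _ => ?_
      push_cast
      ring
    have e5 : trace K V (p * C * p * C) = ((∑ j, ∑ l ∈ Λ, (l : ℚ) ^ 2 * (D j l : ℚ) : ℚ) : K) := by
      have e6 : trace K V (p * C * p * C) = trace K V (c ^ 2) := by
        have : p * C * p * C = p * (C * p * C) := by noncomm_ring
        rw [this, tr_corner hp, pow_two, hc]
        have : p * C * p * (p * C * p) = p * (C * (p * p) * C) * p := by noncomm_ring
        rw [this, hp]
      have e7 : c ^ 2 = ∑ j : Fin (2 * n + 1), proj h (j : ℕ) * p * c ^ 2 := by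
        have e8 : p * c ^ 2 = c ^ 2 := by rw [pow_two, ← mul_assoc, hpc]
        rw [← Finset.sum_mul, ← Finset.sum_mul, hsumproj, one_mul, e8]
      rw [e6, e7, map_sum]
      push_cast
      refine Finset.sum_congr rfl fun j _ => ?_
      rw [hDr' j 2]
      push_cast
      rfl
    rw [e2, e5] at e1
    exact_mod_cast e1
  -- the supertraces
  have hstr : ∀ r : ℕ, trace K V (par h * (p * c ^ r)) = trace K V (par h * C ^ r) := by
    intro r
    obtain ⟨Y, hY, hY1, hY2⟩ := corner_ev hR he hpe hp hnil hC (X ^ r)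
    rw [map_pow, ev_X] at hY1 hY2
    rw [hY2, str_comm hR (mul0 hR hpR hY) hpR, ← mul_assoc p, hp]
    have e1 : p * Y = C ^ r + (Y - C ^ r) - e * Y := by
      rw [hpe]
      noncomm_ring
    rw [e1, mul_sub, mul_add, map_sub, map_add, str_Nd hR hY1, he.2 Y (by simpa using hY)]
    simp
  have hpar : par h = ∑ j : Fin (2 * n + 1), ((-1 : K) ^ (j : ℕ)) • proj h (j : ℕ) := by
    rw [par, scal_eq_sum h hbd, Finset.sum_range fun i => ((-1 : K) ^ i) • proj h i]
  have hsup : ∀ r : ℕ, trace K V (par h * C ^ r) =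
      ((∑ l ∈ Λ, (∑ j : Fin (2 * n + 1), (-1) ^ (j : ℕ) * (D j l : ℤ)) * l ^ r : ℤ) : K) := by
    intro r
    rw [← hstr r, hpar, Finset.sum_mul, map_sum]
    have e3 : ∀ j : Fin (2 * n + 1), trace K V ((((-1 : K) ^ (j : ℕ)) • proj h (j : ℕ)) *
        (p * c ^ r)) = (-1 : K) ^ (j : ℕ) * ((∑ l ∈ Λ, (l : ℚ) ^ r * (D j l : ℚ) : ℚ) : K) := by
      intro j
      rw [smul_mul_assoc, map_smul, smul_eq_mul, ← mul_assoc, hDr']
    rw [Finset.sum_congr rfl fun j _ => e3 j]
    push_cast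
    simp only [Finset.mul_sum, Finset.sum_mul]
    rw [Finset.sum_comm]
    exact Finset.sum_congr rfl fun i _ => Finset.sum_congr rfl fun j _ => by ring
  have hfin := comb_gen Λ D E (ww n) (fun i => (-1) ^ (i : ℕ)) (fun i => neg_one_pow_eq_or ℤ i)
    hcor (fun l => ∑ j : Fin (2 * n + 1), (-1) ^ (j : ℕ) * (D j l : ℤ)) (fun l _ => rfl)
  have e1 : ∑ j : Fin (2 * n + 1), ww n j ^ 2 * (finrank K (gr j) : ℚ) =
      ∑ j, ww n j ^ 2 * ((∑ l ∈ Λ, D j l : ℕ) + (E j : ℚ)) := by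
    refine Finset.sum_congr rfl fun j _ => ?_
    rw [hbetti j]
    push_cast
    ring
  refine ⟨_, hsup, ?_, ?_⟩
  · rw [e1]
    exact hfin.1
  · intro heq j hj
    rw [e1] at heq
    obtain ⟨f1, f2⟩ := hfin.2 heq j
    have hEj : proj h (j : ℕ) * e = 0 := by
      have := f1 hj
      rw [hE] at this
      exact LinearMap.range_eq_bot.1 (Submodule.finrank_eq_zero.1 this)
    have hPj : proj h (j : ℕ) * p = proj h (j : ℕ) := by
      rw [hpe, mul_sub, mul_one, hEj, sub_zero]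
    have hPj' : p * proj h (j : ℕ) = proj h (j : ℕ) := by rw [← hpj p hpR, hPj]
    refine ⟨fun x hx => ?_, ?_⟩
    · have e2 : x * proj h (j : ℕ) = p * x * p * proj h (j : ℕ) := by
        rw [mul_assoc (p * x), hPj', ← hpj _ (mul0 hR hpR (Nd_le hx)), ← mul_assoc, hPj,
          hpj x (Nd_le hx)]
      rw [e2]
      refine Commute.isNilpotent_mul_right ?_ (hnil x hx)
      exact (hpj _ (mul0 hR (mul0 hR hpR (Nd_le hx)) hpR) j).symm
    · have f3 := hd3 (some j) (ww n j : K) (by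
        intro α hα hne
        obtain ⟨l, hl, rfl⟩ := hsupp j α hα hne
        have f4 : D j l ≠ 0 := by
          rw [hD]
          beta_reduce
          rw [if_pos hα]
          exact hne
        rw [f2 l hl f4]
        exact (hκq _).symm)
      have f5 : (C - algebraMap K (End K V) (ww n j : K)) * proj h (j : ℕ) =
          (c - algebraMap K (End K V) (ww n j : K)) * P (some j) := by
        change _ = (c - algebraMap K (End K V) (ww n j : K)) * (proj h (j : ℕ) * p)
        rw [hPj, sub_mul, sub_mul]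
        congr 1
        rw [hc, mul_assoc (p * C), hPj', ← hpj _ (mul0 hR hpR hC), ← mul_assoc, hPj, hpj C hC]
      rw [f5]
      exact f3

end

end Pool.Agent.X310.Jm
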