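import Pool.Agent.H914R2.Core0

/-!
# Nondegenerate trace forms from joint semisimplicity
-/

set_option autoImplicit false

open Polynomial LinearMap Module

namespace Pool.Agent.X310

open Pool.Agent.H914

variable {K : Type*} [Field K] [CharZero K] {ι : Type*} {N : ι → Type*}
  [∀ t, AddCommGroup (N t)] [∀ t, Module K (N t)] [∀ t, Module.Finite K (N t)]

/-- A family of subspaces stable under the operators in the `R s t`. -/
def StableFam (R : ∀ s t, Submodule K (N s →ₗ[K] N t)) (S : ∀ t, Submodule K (N t)) : Prop :=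
  ∀ s t, ∀ r ∈ R s t, ∀ x ∈ S s, r x ∈ S t

lemma exists_killed [Fintype ι] {R A : ∀ s t, Submodule K (N s →ₗ[K] N t)}
    (hAR : ∀ s t, A s t ≤ R s t)
    (hRA : ∀ s t t', ∀ r ∈ R t t', ∀ x ∈ A s t, r ∘ₗ x ∈ A s t')
    (hnil : ∀ t, ∀ x ∈ A t t, IsNilpotent (x : Module.End K (N t))) (n : ℕ) :
    ∀ C : ∀ t, Submodule K (N t), StableFam R C → ∑ t, finrank K (C t) ≤ n →
      (∃ t, C t ≠ ⊥) → ∃ t, ∃ v ∈ C t, v ≠ 0 ∧ ∀ s, ∀ x ∈ A t s, x v = 0 := by
  classical
  induction n with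
  | zero =>
    rintro C - hC ⟨t, ht⟩
    have h1 : finrank K (C t) = 0 := by
      have := Finset.single_le_sum (f := fun t => finrank K (C t)) (fun _ _ => Nat.zero_le _)
        (Finset.mem_univ t)
      omega
    exact absurd (Submodule.finrank_eq_zero.1 h1) ht
  | succ n ih =>
    rintro C hCs hC ⟨t, ht⟩
    obtain ⟨v, hv, hv0⟩ := Submodule.exists_mem_ne_zero_of_ne_bot ht
    by_cases hcase : ∀ s, ∀ x ∈ A t s, x v = 0
    · exact ⟨t, v, hv, hv0, hcase⟩
    · push Not at hcase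
      obtain ⟨s₀, x₀, hx₀, hxv⟩ := hcase
      set C' : ∀ s, Submodule K (N s) := fun s =>
        (A t s).map (LinearMap.applyₗ (R := K) v) with hC'
      have hmem : ∀ s y, y ∈ C' s ↔ ∃ x ∈ A t s, x v = y := by
        intro s y
        simp only [hC', Submodule.mem_map, LinearMap.applyₗ_apply_apply]
      have hle : ∀ s, C' s ≤ C s := by
        intro s y hy
        obtain ⟨x, hx, rfl⟩ := (hmem s y).1 hy
        exact hCs t s x (hAR _ _ hx) v hv
      have hlt : C' t < C t := by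
        refine lt_of_le_of_ne (hle t) fun he => ?_
        have h1 : v ∈ C' t := he ▸ hv
        obtain ⟨x, hx, hxv'⟩ := (hmem t v).1 h1
        obtain ⟨m, hm⟩ := hnil t x hx
        have h2 : ∀ m : ℕ, ((x : Module.End K (N t)) ^ m) v = v := by
          intro m
          induction m with
          | zero => rfl
          | succ m ih' => rw [pow_succ, Module.End.mul_apply, hxv', ih']
        apply hv0
        rw [← h2 m, hm, LinearMap.zero_apply]
      have hsum : ∑ s, finrank K (C' s) < ∑ s, finrank K (C s) :=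
        Finset.sum_lt_sum (fun s _ => Submodule.finrank_mono (hle s))
          ⟨t, Finset.mem_univ t, Submodule.finrank_lt_finrank_of_lt hlt⟩
      obtain ⟨t', v', hv', h0, hk⟩ := ih C' (by
        intro s s' r hr y hy
        obtain ⟨x, hx, rfl⟩ := (hmem s y).1 hy
        exact (hmem s' _).2 ⟨r ∘ₗ x, hRA t s s' r hr x hx, rfl⟩) (by omega)
        ⟨s₀, fun he => hxv ((Submodule.eq_bot_iff _).1 he _ ((hmem s₀ _).2 ⟨x₀, hx₀, rfl⟩))⟩
      exact ⟨t', v', hle t' hv', h0, hk⟩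

/-- **Joint semisimplicity gives a nondegenerate trace form.** The operators in `R s t` from `N s` to
`N t` are supported on the subspaces given by the projectors `π t`; if every family of subspaces
stable under them and under commuting operators `g` has a stable complement, then the trace form on
the `R s t` is nondegenerate. -/
theorem nondeg_of_joint [Fintype ι] {Γ : Type*} (π : ∀ t, Module.End K (N t))
    (hπ : ∀ t, π t ∘ₗ π t = π t) (R : ∀ s t, Submodule K (N s →ₗ[K] N t))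
    (hπR : ∀ t, π t ∈ R t t) (hl : ∀ s t, ∀ r ∈ R s t, π t ∘ₗ r = r)
    (hr : ∀ s t, ∀ r ∈ R s t, r ∘ₗ π s = r)
    (hcomp : ∀ s t t', ∀ r ∈ R s t, ∀ r' ∈ R t t', r' ∘ₗ r ∈ R s t')
    (g : Γ → ∀ t, Module.End K (N t))
    (hg : ∀ γ s t, ∀ r ∈ R s t, g γ t ∘ₗ r = r ∘ₗ g γ s)
    (hgπ : ∀ γ t, ∀ x ∈ LinearMap.range (π t), g γ t x ∈ LinearMap.range (π t))
    (hss : ∀ S : ∀ t, Submodule K (N t), (∀ t, S t ≤ LinearMap.range (π t)) → StableFam R S →
      (∀ γ t, ∀ x ∈ S t, g γ t x ∈ S t) → ∃ C : ∀ t, Submodule K (N t),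
        (∀ t, C t ≤ LinearMap.range (π t)) ∧ StableFam R C ∧
          ∀ t, S t ⊓ C t = ⊥ ∧ S t ⊔ C t = LinearMap.range (π t))
    (s t : ι) (u : N s →ₗ[K] N t) (hu : u ∈ R s t)
    (hu0 : ∀ b ∈ R t s, LinearMap.trace K (N s) (b ∘ₗ u) = 0) : u = 0 := by
  classical
  set A : ∀ s t, Submodule K (N s →ₗ[K] N t) := fun s t =>
    { carrier := {u | u ∈ R s t ∧ ∀ b ∈ R t s, LinearMap.trace K (N s) (b ∘ₗ u) = 0}
      zero_mem' := ⟨(R s t).zero_mem, fun b _ => by rw [LinearMap.comp_zero, map_zero]⟩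
      add_mem' := fun {a b} ha hb => ⟨(R s t).add_mem ha.1 hb.1, fun c hc => by
        rw [LinearMap.comp_add, map_add, ha.2 c hc, hb.2 c hc, add_zero]⟩
      smul_mem' := fun c x hx => ⟨(R s t).smul_mem c hx.1, fun b hb => by
        rw [LinearMap.comp_smul, map_smul, hx.2 b hb, smul_zero]⟩ } with hA
  have hAmem : ∀ s t x, x ∈ A s t ↔
      x ∈ R s t ∧ ∀ b ∈ R t s, LinearMap.trace K (N s) (b ∘ₗ x) = 0 := fun _ _ _ => Iff.rfl
  have hRA : ∀ s t t', ∀ r ∈ R t t', ∀ x ∈ A s t, r ∘ₗ x ∈ A s t' := by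
    intro s t t' r hr' x hx
    refine (hAmem _ _ _).2 ⟨hcomp s t t' x hx.1 r hr', fun b hb => ?_⟩
    have := hx.2 (b ∘ₗ r) (hcomp t t' s r hr' b hb)
    rwa [LinearMap.comp_assoc] at this
  have hAR : ∀ s t t', ∀ r ∈ R s t, ∀ x ∈ A t t', x ∘ₗ r ∈ A s t' := by
    intro s t t' r hr' x hx
    refine (hAmem _ _ _).2 ⟨hcomp s t t' r hr' x hx.1, fun b hb => ?_⟩
    have h1 := hx.2 (r ∘ₗ b) (hcomp t' s t b hb r hr')
    rw [← LinearMap.comp_assoc, LinearMap.trace_comp_comm']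
    rwa [LinearMap.comp_assoc] at h1
  have hnil : ∀ t, ∀ x ∈ A t t, IsNilpotent (x : Module.End K (N t)) := by
    intro t x hx
    apply isNilpotent_of_trace_pow
    have hpow : ∀ m : ℕ, ((x : Module.End K (N t)) ^ (m + 1)) ∈ R t t := by
      intro m
      induction m with
      | zero => rw [zero_add, pow_one]; exact hx.1
      | succ m ih => rw [pow_succ']; exact hcomp t t t _ ih x hx.1
    intro m
    rcases m with _ | m
    · have h1 := hx.2 (π t) (hπR t)
      rw [hl t t x hx.1] at h1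
      rwa [zero_add, pow_one]
    · have h1 := hx.2 _ (hpow m)
      rw [pow_succ]
      exact h1
  set Z : ∀ t, Submodule K (N t) := fun t =>
    { carrier := {v | v ∈ LinearMap.range (π t) ∧ ∀ s, ∀ x ∈ A t s, x v = 0}
      zero_mem' := ⟨Submodule.zero_mem _, fun s x _ => map_zero x⟩
      add_mem' := fun {a b} ha hb => ⟨Submodule.add_mem _ ha.1 hb.1, fun s x hx => by
        rw [map_add, ha.2 s x hx, hb.2 s x hx, add_zero]⟩
      smul_mem' := fun c a ha => ⟨Submodule.smul_mem _ c ha.1, fun s x hx => by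
        rw [map_smul, ha.2 s x hx, smul_zero]⟩ } with hZ
  have hZmem : ∀ t v, v ∈ Z t ↔ v ∈ LinearMap.range (π t) ∧ ∀ s, ∀ x ∈ A t s, x v = 0 :=
    fun _ _ => Iff.rfl
  obtain ⟨C, hC1, hC2, hC3⟩ := hss Z (fun t v hv => hv.1) (by
      intro s t r hr' v hv
      refine (hZmem _ _).2 ⟨⟨r v, congrArg (fun f => f v) (hl s t r hr')⟩, fun t' x hx => ?_⟩
      exact hv.2 t' (x ∘ₗ r) (hAR s t t' r hr' x hx)) (by
      intro γ t v hv
      refine (hZmem _ _).2 ⟨hgπ γ t v hv.1, fun t' x hx => ?_⟩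
      have h1 := congrArg (fun f => f v) (hg γ t t' x hx.1)
      have h2 : x (g γ t v) = g γ t' (x v) := h1.symm
      rw [h2, hv.2 t' x hx, map_zero])
  have hCbot : ∀ t, C t = ⊥ := by
    by_contra hcon
    push Not at hcon
    obtain ⟨t, v, hv, hv0, hk⟩ := exists_killed (fun s t x hx => ((hAmem s t x).1 hx).1) hRA hnil _ C hC2 le_rfl hcon
    have h1 : v ∈ Z t ⊓ C t := ⟨(hZmem _ _).2 ⟨hC1 t hv, hk⟩, hv⟩
    rw [(hC3 t).1] at h1
    exact hv0 ((Submodule.mem_bot K).1 h1)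
  have hZtop : ∀ t, Z t = LinearMap.range (π t) := by
    intro t
    rw [← (hC3 t).2, hCbot t, sup_bot_eq]
  have huA : u ∈ A s t := ⟨hu, hu0⟩
  rw [← hr s t u hu]
  ext x
  have h1 : π s x ∈ Z s := by
    rw [hZtop]
    exact ⟨x, rfl⟩
  exact h1.2 t u huA

end Pool.Agent.X310
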