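import Mathlib

/-!
# First moments and idempotents: linear algebra
-/

set_option autoImplicit false

open Finset Function

namespace Pool.Agent.X310.Mom

/-- the first moment of a sequence around `N / 2` -/
noncomputable def mom (N : ℤ) (f : ℤ → ℤ) : ℤ := ∑ᶠ p : ℤ, (2 * p - N) * f p

lemma supp_mul {f : ℤ → ℤ} (g : ℤ → ℤ) (hf : (support f).Finite) :
    (support fun p => g p * f p).Finite :=
  hf.subset (support_mul_subset_right _ _)

lemma mom_add (N : ℤ) {f g : ℤ → ℤ} (hf : (support f).Finite) (hg : (support g).Finite) :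
    mom N (fun p => f p + g p) = mom N f + mom N g := by
  rw [mom, mom, mom, ← finsum_add_distrib (supp_mul _ hf) (supp_mul _ hg)]
  exact finsum_congr fun p => by ring

lemma supp_sum {ι : Type*} (s : Finset ι) {f : ι → ℤ → ℤ}
    (hf : ∀ i ∈ s, (support (f i)).Finite) : (support fun p => ∑ i ∈ s, f i p).Finite := by
  classical
  refine (Set.Finite.biUnion s.finite_toSet hf).subset ?_
  intro p hp
  rw [mem_support] at hp
  obtain ⟨i, hi, h0⟩ := Finset.exists_ne_zero_of_sum_ne_zero hp
  exact Set.mem_biUnion hi h0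

lemma mom_sum (N : ℤ) {ι : Type*} (s : Finset ι) {f : ι → ℤ → ℤ}
    (hf : ∀ i ∈ s, (support (f i)).Finite) :
    mom N (fun p => ∑ i ∈ s, f i p) = ∑ i ∈ s, mom N (f i) := by
  classical
  induction s using Finset.induction_on with
  | empty => simp [mom]
  | insert a s ha ih =>
    have h1 : (fun p => ∑ i ∈ insert a s, f i p) = fun p => f a p + ∑ i ∈ s, f i p := by
      funext p
      rw [Finset.sum_insert ha]
    rw [h1, Finset.sum_insert ha, mom_add N (hf a (by simp))
      (supp_sum s fun i hi => hf i (by simp [hi])), ih fun i hi => hf i (by simp [hi])]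

lemma supp_shift {f : ℤ → ℤ} (hf : (support f).Finite) (c : ℤ) :
    (support fun p => f (p + c)).Finite := by
  have : (support fun p => f (p + c)) = (fun p => p + c) ⁻¹' support f := rfl
  rw [this]
  exact hf.preimage (Set.injOn_of_injective (add_left_injective c))

/-- the moment of a shifted sequence -/
lemma mom_shift (N v : ℤ) {f : ℤ → ℤ} (hf : (support f).Finite) (c : ℤ) :
    mom N (fun p => f (p + c)) = mom v f + (v - 2 * c - N) * ∑ᶠ p, f p := by
  have h1 : mom N (fun p => f (p + c)) = ∑ᶠ s : ℤ, (2 * s - 2 * c - N) * f s := by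
    rw [mom, ← finsum_comp_equiv (Equiv.addRight c) (f := fun s => (2 * s - 2 * c - N) * f s)]
    refine finsum_congr fun p => ?_
    simp only [Equiv.coe_addRight]
    ring
  rw [h1, mom, mul_finsum, ← finsum_add_distrib (supp_mul _ hf) (supp_mul _ hf)]
  exact finsum_congr fun p => by ring

/-- the sum over a balanced family of shifts -/
lemma mom_shifts (N v : ℤ) {ι : Type*} [Fintype ι] (c : ι → ℤ)
    (hc : ∑ i, (v - 2 * c i - N) = 0) {f : ℤ → ℤ} (hf : (support f).Finite) :
    mom N (fun p => ∑ i, f (p + c i)) = Fintype.card ι * mom v f := by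
  rw [mom_sum N _ fun i _ => supp_shift hf (c i)]
  simp only [mom_shift N v hf]
  rw [Finset.sum_add_distrib, ← Finset.sum_mul, hc, zero_mul, add_zero, Finset.sum_const,
    nsmul_eq_mul, Finset.card_univ]

/-- the moment of a sequence which is larger in the upper half -/
lemma mom_nonneg (N : ℤ) {f : ℤ → ℤ} (hf : (support f).Finite)
    (h : ∀ p, 2 * p ≤ N → f p ≤ f (N - p)) : 0 ≤ mom N f := by
  have h1 : mom N f = ∑ᶠ p : ℤ, (N - 2 * p) * f (N - p) := by
    rw [mom, ← finsum_comp_equiv (Equiv.subLeft N) (f := fun p => (2 * p - N) * f p)]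
    refine finsum_congr fun p => ?_
    simp only [Equiv.subLeft_apply]
    ring
  have hf' : (support fun p => f (N - p)).Finite := by
    have : (support fun p => f (N - p)) = (fun p => N - p) ⁻¹' support f := rfl
    rw [this]
    exact hf.preimage (Set.injOn_of_injective (sub_right_injective))
  have h2 : 0 ≤ mom N f + mom N f := by
    nth_rewrite 2 [h1]
    rw [mom, ← finsum_add_distrib (supp_mul _ hf) (supp_mul _ hf')]
    refine finsum_nonneg fun p => ?_
    have e : (2 * p - N) * f p + (N - 2 * p) * f (N - p) = (N - 2 * p) * (f (N - p) - f p) := by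
      ring
    rw [e]
    rcases le_total (2 * p) N with hp | hp
    · exact mul_nonneg (by omega) (by linarith [h p hp])
    · have := h (N - p) (by omega)
      rw [sub_sub_cancel] at this
      exact mul_nonneg_of_nonpos_of_nonpos (by omega) (by linarith)
  omega

/-- The moment vanishes only if the sequence is symmetric. -/
lemma symm_of_mom (N : ℤ) {f : ℤ → ℤ} (hf : (support f).Finite)
    (h : ∀ p, 2 * p ≤ N → f p ≤ f (N - p)) (h0 : mom N f ≤ 0) (p : ℤ) : f p = f (N - p) := by
  have h1 : mom N f = ∑ᶠ p : ℤ, (N - 2 * p) * f (N - p) := by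
    rw [mom, ← finsum_comp_equiv (Equiv.subLeft N) (f := fun p => (2 * p - N) * f p)]
    refine finsum_congr fun p => ?_
    simp only [Equiv.subLeft_apply]
    ring
  have hf' : (support fun p => f (N - p)).Finite := by
    have : (support fun p => f (N - p)) = (fun p => N - p) ⁻¹' support f := rfl
    rw [this]
    exact hf.preimage (Set.injOn_of_injective (sub_right_injective))
  have hnn : ∀ p, 0 ≤ (N - 2 * p) * (f (N - p) - f p) := by
    intro p
    rcases le_total (2 * p) N with hp | hp
    · exact mul_nonneg (by omega) (by linarith [h p hp])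
    · have := h (N - p) (by omega)
      rw [sub_sub_cancel] at this
      exact mul_nonneg_of_nonpos_of_nonpos (by omega) (by linarith)
  have h2 : mom N f + mom N f = ∑ᶠ p : ℤ, (N - 2 * p) * (f (N - p) - f p) := by
    nth_rewrite 2 [h1]
    rw [mom, ← finsum_add_distrib (supp_mul _ hf) (supp_mul _ hf')]
    exact finsum_congr fun p => by ring
  have hfin : (support fun p : ℤ => (N - 2 * p) * (f (N - p) - f p)).Finite :=
    supp_mul _ ((hf'.union hf).subset (by
      intro p hp
      rw [mem_support] at hp
      by_contra hc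
      rw [Set.mem_union, not_or, notMem_support, notMem_support] at hc
      exact hp (by rw [hc.1, hc.2, sub_zero])))
  by_cases hpN : 2 * p = N
  · rw [show N - p = p by omega]
  · have h3 : (N - 2 * p) * (f (N - p) - f p) ≤ ∑ᶠ p : ℤ, (N - 2 * p) * (f (N - p) - f p) :=
      single_le_finsum p hfin hnn
    have h4 : (N - 2 * p) * (f (N - p) - f p) = 0 := le_antisymm (by omega) (hnn p)
    rcases mul_eq_zero.1 h4 with h5 | h5
    · omega
    · omega

section Lin

variable {K V V' : Type*} [Field K] [AddCommGroup V] [Module K V] [AddCommGroup V'] [Module K V']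

/-- An idempotent splits the dimension of a stable subspace. -/
lemma finrank_split [Module.Finite K V] {A : Submodule K V} {P : Module.End K V}
    (hP : ∀ x, P (P x) = P x) (hA : ∀ x ∈ A, P x ∈ A) :
    Module.finrank K A = Module.finrank K (A.map P) + Module.finrank K (A.map (1 - P)) := by
  have h1 : A.map P ⊔ A.map (1 - P) = A := by
    apply le_antisymm
    · apply sup_le
      · rintro _ ⟨x, hx, rfl⟩
        exact hA x hx
      · rintro _ ⟨x, hx, rfl⟩
        rw [LinearMap.sub_apply, Module.End.one_apply]
        exact Submodule.sub_mem _ hx (hA x hx)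
    · intro x hx
      rw [show x = P x + (1 - P) x by simp]
      exact Submodule.add_mem_sup ⟨x, hx, rfl⟩ ⟨x, hx, rfl⟩
  have h2 : A.map P ⊓ A.map (1 - P) = ⊥ := by
    rw [eq_bot_iff]
    rintro y ⟨⟨a, -, ha⟩, ⟨b, -, hb⟩⟩
    have e1 : P y = y := by rw [← ha, hP]
    have e2 : P y = 0 := by
      rw [← hb, LinearMap.sub_apply, Module.End.one_apply, map_sub, hP, sub_self]
    rw [Submodule.mem_bot, ← e1, e2]
  have h3 := Submodule.finrank_sup_add_finrank_inf_eq (A.map P) (A.map (1 - P))
  rw [h1, h2, finrank_bot, add_zero] at h3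
  exact h3

lemma finrank_le_of_inj [Module.Finite K V'] {A : Submodule K V} {B : Submodule K V'}
    {T : V →ₗ[K] V'} (hT : ∀ x ∈ A, T x ∈ B) (hinj : ∀ x ∈ A, T x = 0 → x = 0) :
    Module.finrank K A ≤ Module.finrank K B := by
  apply LinearMap.finrank_le_finrank_of_injective (f := T.restrict hT)
  rw [injective_iff_map_eq_zero]
  rintro ⟨a, ha⟩ h0
  exact Subtype.ext (hinj a ha (congrArg Subtype.val h0))

end Lin

end Pool.Agent.X310.Mom
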