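import Pool.Agent.X310.Odd
import Pool.Agent.X310.MomLin
import Pool.Agent.H914R2.CPart

/-!
# Algebraic blocks and the first moment of the ranks of the groups of cycles on a product
-/

set_option autoImplicit false

open CategoryTheory AlgebraicGeometry Finset

universe u v

namespace Pool.Agent.X310.Mom

open Pool.Agent.H914 Pool.Agent.H447 Pool.Agent.W534 Pool.Agent.W537 Pool.Agent.TH720.LB VarClass
  Obj WeilCohomology Pool.Agent.X310.Gap

variable {k : Type u} [Field k] {𝒱 : VarClass k} {ops : CycleOps 𝒱}
  {W : WeilCohomology.{u, v} ops} {X V Y : 𝒱.Obj}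

/-- The operator `x ↦ tr (b x) a`. -/
noncomputable def outer (b : W.H X) (a : W.H V) : W.H X →ₗ[W.K] W.H V :=
  (W.tr X ∘ₗ LinearMap.mulLeft W.K b).smulRight a

lemma outer_apply (b : W.H X) (a : W.H V) (x : W.H X) : outer b a x = W.tr X (b * x) • a := rfl

lemma kop_outer {s t : ℤ} {b : W.H X} {a : W.H V} (hb : b ∈ spanCycles W X t)
    (ha : a ∈ spanCycles W V s) : outer b a ∈ KOp W X V (s + t - X.dim) := by
  induction ha using Submodule.span_induction with
  | mem a ha =>
    obtain ⟨i, hi, z, hz, rfl⟩ := ha
    induction hb using Submodule.span_induction with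
    | mem b hb =>
      obtain ⟨j, hj, w, hw, rfl⟩ := hb
      rw [outer, ← corr_swap_tmul (W.cl_mem hz) (W.cl_mem hw), ← W.cl_pull, ← W.cl_pull,
        ← W.cl_mul, ← W.cl_pull]
      exact KOp.gen (p := i + j) (by push_cast; omega)
        (ops.pull_mem _ (ops.mul_mem (ops.pull_mem _ hz) (ops.pull_mem _ hw)))
    | zero =>
      have : outer (0 : W.H X) (W.cl V z) = 0 := by
        apply LinearMap.ext; intro x; simp [outer_apply]
      rw [this]; exact Submodule.zero_mem _
    | add x y _ _ hx hy =>
      have : outer (x + y) (W.cl V z) = outer x (W.cl V z) + outer y (W.cl V z) := by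
        apply LinearMap.ext; intro x; simp [outer_apply, add_mul, add_smul]
      rw [this]; exact Submodule.add_mem _ hx hy
    | smul q x _ hx =>
      have : outer (q • x) (W.cl V z) = q • outer x (W.cl V z) := by
        apply LinearMap.ext; intro x; simp [outer_apply, mul_smul]
      rw [this]; exact Submodule.smul_mem _ _ hx
  | zero =>
    have : outer b (0 : W.H V) = 0 := by
      apply LinearMap.ext; intro x; simp [outer_apply]
    rw [this]; exact Submodule.zero_mem _
  | add x y _ _ hx hy =>
    have : outer b (x + y) = outer b x + outer b y := by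
      apply LinearMap.ext; intro x; simp [outer_apply]
    rw [this]; exact Submodule.add_mem _ hx hy
  | smul q x _ hx =>
    have : outer b (q • x) = q • outer b x := by
      apply LinearMap.ext; intro y
      rw [LinearMap.smul_apply, outer_apply, outer_apply, smul_comm]
    rw [this]; exact Submodule.smul_mem _ _ hx

lemma span_even {q : ℤ} {a : W.H X} (ha : a ∈ spanCycles W X q) (b : W.H X) : a * b = b * a := by
  induction ha using Submodule.span_induction with
  | mem a ha =>
    obtain ⟨i, hi, z, hz, rfl⟩ := ha
    exact W.even_comm (W.cl_mem hz) b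
  | zero => rw [zero_mul, mul_zero]
  | add x y _ _ hx hy => rw [add_mul, mul_add, hx, hy]
  | smul q x _ hx => rw [smul_mul_assoc, mul_smul_comm, hx]

lemma spanCycles_neg {q : ℤ} (hq : q < 0) : spanCycles W X q = ⊥ := by
  rw [eq_bot_iff]
  intro a ha
  have := spanCycles_deg ha
  rwa [grZ_of_neg (by omega)] at this

lemma spanCycles_large {q : ℤ} (hq : (X.dim : ℤ) < q) : spanCycles W X q = ⊥ := by
  rw [eq_bot_iff]
  intro a ha
  have := spanCycles_deg ha
  lift q to ℕ using by omega
  rwa [show (2 * (q : ℤ)) = ((2 * q : ℕ) : ℤ) by push_cast; ring, grZ_natCast,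
    W.gr_eq_bot X _ (by omega)] at this

lemma tr_span {s t : ℤ} {a b : W.H X} (ha : a ∈ spanCycles W X s) (hb : b ∈ spanCycles W X t)
    (hst : s + t ≠ X.dim) : W.tr X (a * b) = 0 := by
  by_cases h : s < 0
  · rw [spanCycles_neg h] at ha
    rw [(Submodule.mem_bot _).1 ha, zero_mul, map_zero]
  by_cases h' : t < 0
  · rw [spanCycles_neg h'] at hb
    rw [(Submodule.mem_bot _).1 hb, mul_zero, map_zero]
  lift s to ℕ using by omega
  lift t to ℕ using by omega
  have h1 := H914.span_gr ha
  have h2 := H914.span_gr hb
  exact W.tr_eq_zero (W.mul_mem h1 h2) (by omega)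

/-- A block of algebraic classes on `X`: the classes `al j` and the dual classes `be j` are
algebraic, and the projector `x ↦ ∑ tr (be j x) al j` commutes with the Lefschetz operator. -/
structure Block (W : WeilCohomology.{u, v} ops) (X : 𝒱.Obj) (D : X.Cycles) (ι : Type)
    [Fintype ι] [DecidableEq ι] where
  q : ι → ℤ
  al : ι → W.H X
  be : ι → W.H X
  hal : ∀ j, al j ∈ spanCycles W X (q j)
  hbe : ∀ j, be j ∈ spanCycles W X (X.dim - q j)
  dual : ∀ i j, W.tr X (be i * al j) = if i = j then 1 else 0
  comm : ∀ x, ∑ j, W.tr X (be j * (W.cl X D * x)) • al j =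
    W.cl X D * ∑ j, W.tr X (be j * x) • al j
  sym : ∑ j, (2 * q j - X.dim) = 0

namespace Block

variable {D : X.Cycles} {E : V.Cycles} {ι κ : Type} [Fintype ι] [DecidableEq ι] [Fintype κ]
  [DecidableEq κ]

/-- the projector -/
noncomputable def e (B : Block W X D ι) : Module.End W.K (W.H X) := ∑ j, outer (B.be j) (B.al j)

lemma e_apply (B : Block W X D ι) (x : W.H X) :
    B.e x = ∑ j, W.tr X (B.be j * x) • B.al j := by
  rw [e, LinearMap.sum_apply]
  rfl

lemma e_al (B : Block W X D ι) (i : ι) : B.e (B.al i) = B.al i := by
  rw [e_apply]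
  simp [B.dual]

lemma e_e (B : Block W X D ι) (x : W.H X) : B.e (B.e x) = B.e x := by
  conv_lhs => rw [B.e_apply x]
  rw [map_sum, B.e_apply x]
  exact Finset.sum_congr rfl fun j _ => by rw [map_smul, B.e_al]

lemma tr_be_e (B : Block W X D ι) (i : ι) (x : W.H X) :
    W.tr X (B.be i * B.e x) = W.tr X (B.be i * x) := by
  rw [e_apply, Finset.mul_sum, map_sum]
  simp [B.dual]

lemma e_L (B : Block W X D ι) (x : W.H X) : B.e (W.cl X D * x) = W.cl X D * B.e x := by
  rw [e_apply, e_apply, B.comm]

lemma e_kop (B : Block W X D ι) : B.e ∈ KOp W X X 0 :=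
  Submodule.sum_mem _ fun j _ => kop_cast (kop_outer (B.hbe j) (B.hal j)) (by ring)

/-- the part of the correspondences given by the block on the source -/
lemma finrank_left (B : Block W X D ι) {π : Module.End W.K (W.H V)} (d : ℤ) :
    Module.finrank W.K ((KOp W X V d).map
      (LinearMap.compRight W.K π ∘ₗ LinearMap.lcomp W.K (W.H V) B.e)) =
      ∑ j, Module.finrank W.K ((spanCycles W V (B.q j + d)).map π) := by
  classical
  set Ψ : ((j : ι) → ((spanCycles W V (B.q j + d)).map π)) →ₗ[W.K] (W.H X →ₗ[W.K] W.H V) :=
    { toFun := fun w => ∑ j, outer (B.be j) ((w j : W.H V))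
      map_add' := by
        intro a b
        rw [← Finset.sum_add_distrib]
        refine Finset.sum_congr rfl fun j _ => ?_
        apply LinearMap.ext
        intro x
        rw [LinearMap.add_apply, outer_apply, outer_apply, outer_apply, Pi.add_apply,
          Submodule.coe_add, smul_add]
      map_smul' := by
        intro c a
        rw [RingHom.id_apply, Finset.smul_sum]
        refine Finset.sum_congr rfl fun j _ => ?_
        apply LinearMap.ext
        intro x
        rw [LinearMap.smul_apply, outer_apply, outer_apply, Pi.smul_apply,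
          Submodule.coe_smul, smul_comm] } with hΨ
  have hval : ∀ w x, Ψ w x = ∑ j, W.tr X (B.be j * x) • (w j : W.H V) := by
    intro w x
    change (∑ j, outer (B.be j) ((w j : W.H V))) x = _
    rw [LinearMap.sum_apply]
    rfl
  have hinj : Function.Injective Ψ := by
    rw [injective_iff_map_eq_zero]
    intro w h0
    funext i
    apply Subtype.ext
    have h1 := congrArg (fun F => F (B.al i)) h0
    beta_reduce at h1
    rw [hval] at h1
    simpa [B.dual] using h1
  have hr : LinearMap.range Ψ = (KOp W X V d).map
      (LinearMap.compRight W.K π ∘ₗ LinearMap.lcomp W.K (W.H V) B.e) := by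
    ext φ
    constructor
    · rintro ⟨w, rfl⟩
      choose u hu using fun j => (w j).2
      refine ⟨∑ j, outer (B.be j) (u j), ?_, ?_⟩
      · exact Submodule.sum_mem _ fun j _ =>
          kop_cast (kop_outer (B.hbe j) (hu j).1) (by ring)
      · apply LinearMap.ext
        intro x
        change π ((∑ j, outer (B.be j) (u j)) (B.e x)) = _
        rw [hval, LinearMap.sum_apply, map_sum]
        refine Finset.sum_congr rfl fun j _ => ?_
        rw [outer_apply, map_smul, (hu j).2, B.tr_be_e]
    · rintro ⟨ψ, hψ, rfl⟩
      refine ⟨fun j => ⟨π (ψ (B.al j)), ψ (B.al j), KOp.map_span hψ (B.hal j), rfl⟩, ?_⟩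
      apply LinearMap.ext
      intro x
      rw [hval]
      change _ = π (ψ (B.e x))
      rw [B.e_apply, map_sum, map_sum]
      exact Finset.sum_congr rfl fun j _ => by rw [map_smul, map_smul]
  rw [← hr, LinearMap.finrank_range_of_inj hinj, Module.finrank_pi_fintype]

/-- the part of the correspondences given by the block on the target -/
lemma finrank_right (B : Block W V E κ) (d : ℤ) :
    Module.finrank W.K ((KOp W X V d).map (LinearMap.compRight W.K B.e)) =
      ∑ i, Module.finrank W.K (spanCycles W X (X.dim + d - B.q i)) := by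
  classical
  set Ψ : ((i : κ) → (spanCycles W X (X.dim + d - B.q i))) →ₗ[W.K] (W.H X →ₗ[W.K] W.H V) :=
    { toFun := fun w => ∑ i, outer ((w i : W.H X)) (B.al i)
      map_add' := by
        intro a b
        rw [← Finset.sum_add_distrib]
        refine Finset.sum_congr rfl fun j _ => ?_
        apply LinearMap.ext
        intro x
        rw [LinearMap.add_apply, outer_apply, outer_apply, outer_apply, Pi.add_apply,
          Submodule.coe_add, add_mul, map_add, add_smul]
      map_smul' := by
        intro c a
        rw [RingHom.id_apply, Finset.smul_sum]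
        refine Finset.sum_congr rfl fun j _ => ?_
        apply LinearMap.ext
        intro x
        rw [LinearMap.smul_apply, outer_apply, outer_apply, Pi.smul_apply,
          Submodule.coe_smul, smul_mul_assoc, map_smul, smul_eq_mul, mul_smul] } with hΨ
  have hval : ∀ w x, Ψ w x = ∑ i, W.tr X ((w i : W.H X) * x) • B.al i := by
    intro w x
    change (∑ i, outer ((w i : W.H X)) (B.al i)) x = _
    rw [LinearMap.sum_apply]
    rfl
  have hinj : Function.Injective Ψ := by
    rw [injective_iff_map_eq_zero]
    intro w h0
    funext i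
    apply Subtype.ext
    apply W.nondeg
    intro x
    have h1 := congrArg (fun F => W.tr V (B.be i * F x)) h0
    beta_reduce at h1
    rw [hval, Finset.mul_sum, map_sum] at h1
    simpa [B.dual] using h1
  have hr : LinearMap.range Ψ = (KOp W X V d).map (LinearMap.compRight W.K B.e) := by
    ext φ
    constructor
    · rintro ⟨w, rfl⟩
      refine ⟨Ψ w, ?_, ?_⟩
      · exact Submodule.sum_mem _ fun i _ =>
          kop_cast (kop_outer (w i).2 (B.hal i)) (by ring)
      · apply LinearMap.ext
        intro x
        change B.e (Ψ w x) = _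
        rw [hval, map_sum]
        exact Finset.sum_congr rfl fun i _ => by rw [map_smul, B.e_al]
    · rintro ⟨φ, hφ, rfl⟩
      obtain ⟨ψ, hψ, had⟩ := KOp.exists_adjoint hφ
      have hmem : ∀ i, ψ (B.be i) ∈ spanCycles W X (X.dim + d - B.q i) := by
        intro i
        have := KOp.map_span hψ (B.hbe i)
        rwa [show (V.dim : ℤ) - B.q i + (d + X.dim - V.dim) = X.dim + d - B.q i by ring] at this
      refine ⟨fun i => ⟨ψ (B.be i), hmem i⟩, ?_⟩
      apply LinearMap.ext
      intro x
      rw [hval]
      change _ = B.e (φ x)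
      rw [B.e_apply]
      refine Finset.sum_congr rfl fun i _ => ?_
      change W.tr X (ψ (B.be i) * x) • _ = _
      rw [span_even (hmem i), ← had, ← span_even (B.hbe i)]
  rw [← hr, LinearMap.finrank_range_of_inj hinj, Module.finrank_pi_fintype]

/-- the algebraic classes in the block -/
lemma finrank_block (B : Block W V E κ) (s : ℤ) :
    Module.finrank W.K ((spanCycles W V s).map B.e) = (univ.filter fun i => B.q i = s).card := by
  classical
  have hli : LinearIndependent W.K (fun i : {i // B.q i = s} => B.al i.1) := by
    rw [Fintype.linearIndependent_iff]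
    intro g hg i
    have h1 := congrArg (fun x => W.tr V (B.be i.1 * x)) hg
    beta_reduce at h1
    rw [Finset.mul_sum, map_sum, mul_zero, map_zero, Finset.sum_eq_single i] at h1
    · simpa [B.dual] using h1
    · intro j _ hj
      rw [mul_smul_comm, map_smul, B.dual, if_neg (fun h => hj (Subtype.ext h.symm)), smul_zero]
    · exact fun h => absurd (Finset.mem_univ _) h
  have hsp : (spanCycles W V s).map B.e =
      Submodule.span W.K (Set.range fun i : {i // B.q i = s} => B.al i.1) := by
    apply le_antisymm
    · rintro _ ⟨w, hw, rfl⟩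
      rw [B.e_apply]
      refine Submodule.sum_mem _ fun i _ => ?_
      by_cases hi : B.q i = s
      · exact Submodule.smul_mem _ _ (Submodule.subset_span ⟨⟨i, hi⟩, rfl⟩)
      · rw [tr_span (B.hbe i) hw (by omega), zero_smul]
        exact Submodule.zero_mem _
    · rw [Submodule.span_le]
      rintro _ ⟨i, rfl⟩
      refine ⟨B.al i.1, ?_, B.e_al _⟩
      have := B.hal i.1
      rwa [i.2] at this
  rw [hsp, finrank_span_eq_card hli, Fintype.card_subtype]

end Block

end Pool.Agent.X310.Mom
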