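import Pool.Agent.X310.Mom

/-!
# The first moment of the ranks of the groups of cycles on a product
-/

set_option autoImplicit false

open CategoryTheory AlgebraicGeometry Finset

universe u v

namespace Pool.Agent.X310.Mom

open Pool.Agent.H914 Pool.Agent.H447 Pool.Agent.W534 Pool.Agent.W537 Pool.Agent.TH720.LB VarClass
  Obj WeilCohomology Pool.Agent.X310.Gap

variable {k : Type u} [Field k] {𝒱 : VarClass k} {ops : CycleOps 𝒱}
  {W : WeilCohomology.{u, v} ops} {X V Y : 𝒱.Obj} {D : X.Cycles} {E : V.Cycles}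
  {ι κ : Type} [Fintype ι] [DecidableEq ι] [Fintype κ] [DecidableEq κ]

/-- the Lefschetz operator of the product on the correspondences -/
noncomputable def Top (W : WeilCohomology.{u, v} ops) (X V : 𝒱.Obj) (D : X.Cycles) (E : V.Cycles) :
    Module.End W.K (W.H X →ₗ[W.K] W.H V) :=
  LinearMap.compRight W.K (LinearMap.mulLeft W.K (W.cl V E)) +
    LinearMap.lcomp W.K (W.H V) (LinearMap.mulLeft W.K (W.cl X D))

lemma corr_sumDiv (hD : X.IsCyc 1 D) (hE : V.IsCyc 1 E) (c : W.H (X.prod V)) :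
    W.corr (W.cl _ (sumDiv ops D E) * c) = Top W X V D E (W.corr c) := by
  have hξ : W.cl X D ∈ W.gr X (2 * 1) := W.cl_mem hD
  have hη : W.cl V E ∈ W.gr V (2 * 1) := W.cl_mem hE
  rw [sumDiv, map_add, W.cl_pull, W.cl_pull, add_mul, corr_add, corr_fst' _ _ hξ,
    corr_snd' _ _ hη, Top, LinearMap.add_apply, add_comm]
  rfl

lemma corr_sumDiv_pow (hD : X.IsCyc 1 D) (hE : V.IsCyc 1 E) (r : ℕ) (c : W.H (X.prod V)) :
    W.corr ((LinearMap.mulLeft W.K (W.cl _ (sumDiv ops D E)) ^ r) c) =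
      (Top W X V D E ^ r) (W.corr c) := by
  induction r with
  | zero => rfl
  | succ r ih =>
    rw [pow_succ', Module.End.mul_apply, LinearMap.mulLeft_apply, corr_sumDiv hD hE, ih, pow_succ',
      Module.End.mul_apply]

lemma top_mem (hD : X.IsCyc 1 D) (hE : V.IsCyc 1 E) {d : ℤ} {φ : W.H X →ₗ[W.K] W.H V}
    (hφ : φ ∈ KOp W X V d) : Top W X V D E φ ∈ KOp W X V (d + 1) := by
  rw [Top, LinearMap.add_apply]
  refine Submodule.add_mem _ ?_ ?_
  · exact KOp.comp (qop_mul hE).kop hφ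
  · exact kop_cast (KOp.comp hφ (qop_mul hD).kop) (by ring)

lemma top_pow_mem (hD : X.IsCyc 1 D) (hE : V.IsCyc 1 E) {d : ℤ} {φ : W.H X →ₗ[W.K] W.H V}
    (hφ : φ ∈ KOp W X V d) (r : ℕ) : (Top W X V D E ^ r) φ ∈ KOp W X V (d + r) := by
  induction r with
  | zero => simpa using hφ
  | succ r ih =>
    rw [pow_succ', Module.End.mul_apply]
    exact kop_cast (top_mem hD hE ih) (by push_cast; ring)

/-- Hard Lefschetz on the correspondences. -/
lemma top_inj (hD : X.IsCyc 1 D) (hE : V.IsCyc 1 E)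
    (hHL : HardLefschetz W (X.prod V) (sumDiv ops D E)) {d : ℤ} {r : ℕ}
    (hr : 2 * (X.dim + d) + r = X.dim + V.dim) {φ : W.H X →ₗ[W.K] W.H V}
    (hφ : φ ∈ KOp W X V d) (h0 : (Top W X V D E ^ r) φ = 0) : φ = 0 := by
  obtain ⟨c, hc, rfl⟩ := mem_KOp_iff.1 hφ
  rw [← corr_sumDiv_pow hD hE] at h0
  have h1 := corr_inj h0
  by_cases hneg : (X.dim : ℤ) + d < 0
  · rw [spanCycles_neg hneg] at hc
    rw [(Submodule.mem_bot _).1 hc, corr_zero]
  · obtain ⟨p, hp⟩ := Int.eq_ofNat_of_zero_le (not_lt.1 hneg)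
    rw [hp] at hc
    have h2 := H914.span_gr hc
    have h3 := (hHL (2 * p) (by rw [dim_prod]; omega)).1 c h2 (by
      rwa [dim_prod, show X.dim + V.dim - 2 * p = r by omega])
    rw [h3, corr_zero]

/-- the complement of the blocks in the correspondences -/
noncomputable def rest (B : Block W X D ι) (C : Block W V E κ) (d : ℤ) :
    Submodule W.K (W.H X →ₗ[W.K] W.H V) :=
  ((KOp W X V d).map (1 - LinearMap.lcomp W.K (W.H V) B.e)).map (1 - LinearMap.compRight W.K C.e)

lemma rest_le (B : Block W X D ι) (C : Block W V E κ) (d : ℤ) :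
    rest B C d ≤ KOp W X V d := by
  rintro _ ⟨_, ⟨φ, hφ, rfl⟩, rfl⟩
  have h1 : (1 - LinearMap.lcomp W.K (W.H V) B.e) φ ∈ KOp W X V d := by
    rw [LinearMap.sub_apply]
    exact Submodule.sub_mem _ hφ (kop_cast (KOp.comp hφ B.e_kop) (by ring))
  rw [LinearMap.sub_apply]
  exact Submodule.sub_mem _ h1 (kop_cast (KOp.comp C.e_kop h1) (by ring))

lemma comm_left (B : Block W X D ι) (φ : W.H X →ₗ[W.K] W.H V) :
    Top W X V D E (LinearMap.lcomp W.K (W.H V) B.e φ) =
      LinearMap.lcomp W.K (W.H V) B.e (Top W X V D E φ) := by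
  apply LinearMap.ext
  intro x
  change W.cl V E * φ (B.e x) + φ (B.e (W.cl X D * x)) =
    W.cl V E * φ (B.e x) + φ (W.cl X D * B.e x)
  rw [B.e_L]

lemma comm_right (C : Block W V E κ) (φ : W.H X →ₗ[W.K] W.H V) :
    Top W X V D E (LinearMap.compRight W.K C.e φ) =
      LinearMap.compRight W.K C.e (Top W X V D E φ) := by
  apply LinearMap.ext
  intro x
  change W.cl V E * C.e (φ x) + C.e (φ (W.cl X D * x)) =
    C.e (W.cl V E * φ x + φ (W.cl X D * x))
  rw [map_add, C.e_L]

lemma top_rest (hD : X.IsCyc 1 D) (hE : V.IsCyc 1 E) (B : Block W X D ι) (C : Block W V E κ)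
    {d : ℤ} {φ : W.H X →ₗ[W.K] W.H V} (hφ : φ ∈ rest B C d) :
    Top W X V D E φ ∈ rest B C (d + 1) := by
  obtain ⟨_, ⟨φ, hφ, rfl⟩, rfl⟩ := hφ
  refine ⟨_, ⟨Top W X V D E φ, top_mem hD hE hφ, rfl⟩, ?_⟩
  simp only [LinearMap.sub_apply, Module.End.one_apply, map_sub]
  rw [comm_right, comm_right, comm_left]

lemma top_rest_pow (hD : X.IsCyc 1 D) (hE : V.IsCyc 1 E) (B : Block W X D ι) (C : Block W V E κ)
    {d : ℤ} {φ : W.H X →ₗ[W.K] W.H V} (hφ : φ ∈ rest B C d) (r : ℕ) :
    (Top W X V D E ^ r) φ ∈ rest B C (d + r) := by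
  induction r with
  | zero => simpa using hφ
  | succ r ih =>
    rw [pow_succ', Module.End.mul_apply, Nat.cast_succ, ← add_assoc]
    exact top_rest hD hE B C ih

lemma rest_mono (hD : X.IsCyc 1 D) (hE : V.IsCyc 1 E)
    (hHL : HardLefschetz W (X.prod V) (sumDiv ops D E)) (B : Block W X D ι) (C : Block W V E κ)
    {d : ℤ} {r : ℕ} (hr : 2 * (X.dim + d) + r = X.dim + V.dim) :
    Module.finrank W.K (rest B C d) ≤ Module.finrank W.K (rest B C (d + r)) :=
  finrank_le_of_inj (T := Top W X V D E ^ r) (fun _ hφ => top_rest_pow hD hE B C hφ r)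
    fun _ hφ h0 => top_inj hD hE hHL hr (rest_le B C d hφ) h0

/-- **the rank of the group of cycles on a product** -/
lemma rank_prod (B : Block W X D ι) (C : Block W V E κ) (d : ℤ) :
    cycleRank W (X.prod V) (X.dim + d) + ∑ j, (univ.filter fun i => C.q i = B.q j + d).card =
      ∑ j, cycleRank W V (B.q j + d) + ∑ i, cycleRank W X (X.dim + d - C.q i) +
        Module.finrank W.K (rest B C d) := by
  set A := KOp W X V d with hA
  set P1 : Module.End W.K (W.H X →ₗ[W.K] W.H V) := LinearMap.lcomp W.K (W.H V) B.e with hP1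
  set P2 : Module.End W.K (W.H X →ₗ[W.K] W.H V) := LinearMap.compRight W.K C.e with hP2
  have i1 : ∀ φ, P1 (P1 φ) = P1 φ := fun φ => LinearMap.ext fun x => by
    change φ (B.e (B.e x)) = φ (B.e x)
    rw [B.e_e]
  have i2 : ∀ φ, P2 (P2 φ) = P2 φ := fun φ => LinearMap.ext fun x => by
    change C.e (C.e (φ x)) = C.e (φ x)
    rw [C.e_e]
  have m1 : ∀ φ ∈ A, P1 φ ∈ A := fun φ hφ => kop_cast (KOp.comp hφ B.e_kop) (by ring)
  have m2 : ∀ φ ∈ A, P2 φ ∈ A := fun φ hφ => kop_cast (KOp.comp C.e_kop hφ) (by ring)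
  have h1 := finrank_split i1 m1
  have h2 := finrank_split (A := A.map (1 - P1)) i2 (by
    rintro _ ⟨φ, hφ, rfl⟩
    refine ⟨P2 φ, m2 φ hφ, ?_⟩
    simp only [LinearMap.sub_apply, Module.End.one_apply, map_sub]
    rfl)
  have h3 := finrank_split (A := A.map P2) i1 (by
    rintro _ ⟨φ, hφ, rfl⟩
    exact ⟨P1 φ, m1 φ hφ, rfl⟩)
  have e1 : (A.map (1 - P1)).map P2 = (A.map P2).map (1 - P1) := by
    rw [← Submodule.map_comp, ← Submodule.map_comp]
    congr 1
    apply LinearMap.ext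
    intro φ
    simp only [LinearMap.comp_apply, LinearMap.sub_apply, Module.End.one_apply, map_sub]
    rfl
  have f1 : Module.finrank W.K (A.map P1) = ∑ j, cycleRank W V (B.q j + d) := by
    have := B.finrank_left (V := V) (π := 1) d
    have e2 : LinearMap.compRight W.K (1 : Module.End W.K (W.H V)) ∘ₗ
        LinearMap.lcomp W.K (W.H V) B.e = P1 := by
      apply LinearMap.ext
      intro φ
      rfl
    rw [e2] at this
    rw [this]
    refine Finset.sum_congr rfl fun j _ => ?_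
    rw [cycleRank, show (1 : Module.End W.K (W.H V)) = LinearMap.id from rfl, Submodule.map_id]
  have f2 : Module.finrank W.K ((A.map P2).map P1) =
      ∑ j, (univ.filter fun i => C.q i = B.q j + d).card := by
    have := B.finrank_left (V := V) (π := C.e) d
    have e2 : (A.map P2).map P1 = A.map (LinearMap.compRight W.K C.e ∘ₗ
        LinearMap.lcomp W.K (W.H V) B.e) := by
      rw [← Submodule.map_comp]
      congr 1
    rw [e2, this]
    exact Finset.sum_congr rfl fun j _ => C.finrank_block _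
  have f3 : Module.finrank W.K (A.map P2) = ∑ i, cycleRank W X (X.dim + d - C.q i) :=
    C.finrank_right d
  have f4 : Module.finrank W.K (((A.map (1 - P1))).map (1 - P2)) =
      Module.finrank W.K (rest B C d) := rfl
  have f0 : Module.finrank W.K A = cycleRank W (X.prod V) (X.dim + d) := finrank_KOp d
  rw [e1] at h2
  omega

end Pool.Agent.X310.Mom
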