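import Pool.Agent.W534.UDefs

/-!
# The defect of the conjecture A: definitions
-/

set_option autoImplicit false

open CategoryTheory AlgebraicGeometry

universe u v

namespace Pool.Agent.X310

open Pool.Agent.H914 Pool.Agent.W534 VarClass Obj WeilCohomology

variable {k : Type u} [Field k] {𝒱 : VarClass k} {ops : CycleOps 𝒱}

/-- The defect of the conjecture A for `V`: the sum over the codimensions `p` of
`(2 p - dim V) r(V, p)`, where `r(V, p)` is the dimension of the `K`-span of the classes of the
cycles of codimension `p`; in other words, the sum over `p < dim V / 2` of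
`(dim V - 2 p) (r(V, dim V - p) - r(V, p))`. -/
noncomputable def defect (W : WeilCohomology.{u, v} ops) (V : 𝒱.Obj) : ℤ :=
  ∑ p ∈ Finset.range (V.dim + 1), (2 * (p : ℤ) - V.dim) * cycleRank W V p

/-- The powers of `X`: `pw X m` is the product `X × (X × (⋯ × X))` with `m + 1` factors. -/
noncomputable def pw (X : 𝒱.Obj) : ℕ → 𝒱.Obj
  | 0 => X
  | m + 1 => X.prod (pw X m)

end Pool.Agent.X310
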