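import Pool.Agent.X310.Mom2
import Pool.Agent.X310.MomDefs

/-!
# The defect of the conjecture A on products
-/

set_option autoImplicit false

open CategoryTheory AlgebraicGeometry Finset

universe u v

namespace Pool.Agent.X310.Mom

open Pool.Agent.H914 Pool.Agent.H447 Pool.Agent.W534 Pool.Agent.W537 Pool.Agent.TH720.LB VarClass
  Obj WeilCohomology Pool.Agent.X310.Gap

variable {k : Type u} [Field k] {𝒱 : VarClass k} {ops : CycleOps 𝒱}
  {W : WeilCohomology.{u, v} ops} {X V Y : 𝒱.Obj} {D : X.Cycles} {E : V.Cycles}
  {ι κ : Type} [Fintype ι] [DecidableEq ι] [Fintype κ] [DecidableEq κ]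

/-- the ranks as a sequence -/
noncomputable def rk (W : WeilCohomology.{u, v} ops) (V : 𝒱.Obj) (p : ℤ) : ℤ := cycleRank W V p

lemma rk_supp (V : 𝒱.Obj) : Function.support (rk W V) ⊆
    ↑((Finset.range (V.dim + 1)).map Nat.castEmbedding : Finset ℤ) := by
  intro p hp
  rw [Function.mem_support] at hp
  have h1 : 0 ≤ p := by
    by_contra h
    apply hp
    rw [rk, cycleRank, spanCycles_neg (by omega), finrank_bot, Nat.cast_zero]
  have h2 : p ≤ V.dim := by
    by_contra h
    apply hp
    rw [rk, cycleRank, spanCycles_large (by omega), finrank_bot, Nat.cast_zero]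
  rw [Finset.coe_map]
  exact ⟨p.toNat, by simp; omega, by simp; omega⟩

lemma rk_fin (V : 𝒱.Obj) : (Function.support (rk W V)).Finite :=
  (Finset.finite_toSet _).subset (rk_supp V)

lemma mom_rk (V : 𝒱.Obj) : mom V.dim (rk W V) = defect W V := by
  rw [mom, finsum_eq_sum_of_support_subset _
    ((Function.support_mul_subset_right _ _).trans (rk_supp V)), Finset.sum_map]
  rfl

lemma mom_card (B : Block W V E κ) :
    mom V.dim (fun s => ((univ.filter fun i => B.q i = s).card : ℤ)) = 0 := by
  classical
  have h1 : (fun s => ((univ.filter fun i => B.q i = s).card : ℤ)) =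
      fun s => ∑ i, if B.q i = s then 1 else 0 := by
    funext s
    rw [Finset.card_filter, Nat.cast_sum]
    exact Finset.sum_congr rfl fun i _ => by split_ifs <;> simp
  have hf : ∀ i, (Function.support fun s : ℤ => if B.q i = s then (1 : ℤ) else 0).Finite := by
    intro i
    refine (Set.finite_singleton (B.q i)).subset fun s hs => ?_
    rw [Function.mem_support] at hs
    by_contra h
    exact hs (if_neg fun h' => h h'.symm)
  rw [h1, mom_sum _ _ fun i _ => hf i]
  refine Eq.trans (Finset.sum_congr rfl fun i _ => ?_) B.sym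
  rw [mom, finsum_eq_single _ (B.q i) (fun s hs => by rw [if_neg hs.symm, mul_zero]), if_pos rfl,
    mul_one]

lemma card_fin (B : Block W V E κ) :
    (Function.support fun s => ((univ.filter fun i => B.q i = s).card : ℤ)).Finite := by
  refine (Set.finite_range B.q).subset fun s hs => ?_
  rw [Function.mem_support] at hs
  by_contra h
  apply hs
  rw [Nat.cast_eq_zero, Finset.card_eq_zero, Finset.filter_eq_empty_iff]
  intro i _ h'
  exact h ⟨i, h'⟩

/-- **The defect of a product.** -/
theorem defect_prod (hD : X.IsCyc 1 D) (hE : V.IsCyc 1 E)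
    (hHL : HardLefschetz W (X.prod V) (sumDiv ops D E)) (B : Block W X D ι) (C : Block W V E κ) :
    Fintype.card ι * defect W V + Fintype.card κ * defect W X ≤ defect W (X.prod V) := by
  classical
  set g : ℤ → ℤ := fun s => ((univ.filter fun i => C.q i = s).card : ℤ) with hg
  set z : ℤ → ℤ := fun p => Module.finrank W.K (rest B C (p - X.dim)) with hz
  have key : ∀ p, rk W (X.prod V) p + ∑ j, g (p + (B.q j - X.dim)) =
      (∑ j, rk W V (p + (B.q j - X.dim)) + ∑ i, rk W X (p + (- C.q i))) + z p := by
    intro p
    have h1 := rank_prod B C (p - X.dim)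
    simp only [hg, hz, rk]
    have e1 : (X.dim : ℤ) + (p - X.dim) = p := by ring
    have e2 : ∀ j, B.q j + (p - X.dim) = p + (B.q j - X.dim) := fun j => by ring
    have e3 : ∀ i, p - C.q i = p + - C.q i := fun i => by ring
    simp only [e1, e2, e3] at h1
    exact_mod_cast h1
  have hdim : ((X.prod V).dim : ℤ) = X.dim + V.dim := by rw [dim_prod]; push_cast; ring
  have zle : ∀ p, z p ≤ rk W (X.prod V) p := by
    intro p
    have h1 := Submodule.finrank_mono (rest_le B C (p - X.dim))
    rw [finrank_KOp, show (X.dim : ℤ) + (p - X.dim) = p by ring] at h1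
    simp only [hz, rk, cycleRank]
    exact_mod_cast h1
  have znn : ∀ p, 0 ≤ z p := fun p => Int.natCast_nonneg _
  have zfin : (Function.support z).Finite := by
    refine (rk_fin (W := W) (X.prod V)).subset fun p hp => ?_
    rw [Function.mem_support] at hp ⊢
    have := zle p
    have := znn p
    omega
  have gfin : (Function.support g).Finite := card_fin C
  have s1 : (Function.support fun p => ∑ j, g (p + (B.q j - X.dim))).Finite :=
    supp_sum _ fun j _ => supp_shift gfin _
  have s2 : (Function.support fun p => ∑ j, rk W V (p + (B.q j - X.dim))).Finite :=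
    supp_sum _ fun j _ => supp_shift (rk_fin V) _
  have s3 : (Function.support fun p => ∑ i, rk W X (p + (- C.q i))).Finite :=
    supp_sum _ fun j _ => supp_shift (rk_fin X) _
  have s23 : (Function.support fun p => ∑ j, rk W V (p + (B.q j - X.dim)) +
      ∑ i, rk W X (p + (- C.q i))).Finite := by
    refine (s2.union s3).subset fun p hp => ?_
    rw [Function.mem_support] at hp
    by_contra hc
    rw [Set.mem_union, not_or, Function.notMem_support, Function.notMem_support] at hc
    exact hp (by rw [hc.1, hc.2, add_zero])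
  have hmom := congrArg (mom (X.prod V).dim) (funext key)
  rw [mom_add _ (rk_fin _) s1, mom_add _ s23 zfin, mom_add _ s2 s3,
    mom_shifts _ V.dim _ ?_ gfin, mom_shifts _ V.dim _ ?_ (rk_fin V),
    mom_shifts _ X.dim _ ?_ (rk_fin X), mom_card C, mom_rk, mom_rk, mom_rk] at hmom
  · have hz0 : 0 ≤ mom (X.prod V).dim z := by
      refine mom_nonneg _ zfin fun p hp => ?_
      obtain ⟨r, hr⟩ := Int.eq_ofNat_of_zero_le (show 0 ≤ ((X.prod V).dim : ℤ) - 2 * p by omega)
      have h1 := rest_mono hD hE hHL B C (d := p - X.dim) (r := r) (by omega)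
      rw [show p - (X.dim : ℤ) + r = ((X.prod V).dim : ℤ) - p - X.dim by omega] at h1
      simp only [hz]
      exact_mod_cast h1
    linarith
  · have : ∀ i, (X.dim : ℤ) - 2 * -C.q i - (X.prod V).dim = 2 * C.q i - V.dim := fun i => by
      rw [hdim]; ring
    simp only [this]
    exact C.sym
  · have : ∀ i, (V.dim : ℤ) - 2 * (B.q i - X.dim) - (X.prod V).dim = -(2 * B.q i - X.dim) :=
      fun i => by rw [hdim]; ring
    simp only [this]
    rw [Finset.sum_neg_distrib, B.sym, neg_zero]
  · have : ∀ i, (V.dim : ℤ) - 2 * (B.q i - X.dim) - (X.prod V).dim = -(2 * B.q i - X.dim) :=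
      fun i => by rw [hdim]; ring
    simp only [this]
    rw [Finset.sum_neg_distrib, B.sym, neg_zero]

end Pool.Agent.X310.Mom
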