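import Pool.Agent.X310.Mom3

/-!
# The block of the powers of a divisor, and the defect of the powers of a variety
-/

set_option autoImplicit false

open CategoryTheory AlgebraicGeometry Finset

universe u v

namespace Pool.Agent.X310.Mom

open Pool.Agent.H914 Pool.Agent.H447 Pool.Agent.W534 Pool.Agent.W537 Pool.Agent.TH720.LB VarClass
  Obj WeilCohomology Pool.Agent.X310.Gap

variable {k : Type u} [Field k] {𝒱 : VarClass k} {ops : CycleOps 𝒱}
  {W : WeilCohomology.{u, v} ops} {X V Y : 𝒱.Obj} {D : X.Cycles} {E : V.Cycles}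

lemma pow_mem_span (hD : X.IsCyc 1 D) (j : ℕ) : W.cl X D ^ j ∈ spanCycles W X j := by
  have h1 : X.IsCyc (0 + j) (divPow ops D j X.V.fundCycle) := divPow_mem hD j X.V.fundCycle_mem
  rw [zero_add] at h1
  have h2 := mem_span_cl (W := W) h1
  rwa [cl_divPow, W.cl_fund, LinearMap.pow_mulLeft, LinearMap.mulLeft_apply, mul_one] at h2

lemma tr_pow_ne (hD : X.IsCyc 1 D) (hHL : HardLefschetz W X D) (h1 : (1 : W.H X) ≠ 0) :
    W.tr X (W.cl X D ^ X.dim) ≠ 0 := by
  intro h0
  have h2 : W.cl X D ^ X.dim ∈ W.gr X (2 * X.dim) := H914.span_gr (pow_mem_span hD X.dim)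
  have h3 := tr_top_inj h2 h0
  apply h1
  refine (hHL 0 (Nat.zero_le _)).1 1 (W.one_mem X) ?_
  rw [Nat.sub_zero, LinearMap.pow_mulLeft, LinearMap.mulLeft_apply, mul_one, h3]

lemma sum_fin (n : ℕ) : ∑ j : Fin (n + 1), (2 * ((j : ℕ) : ℤ) - n) = 0 := by
  have h1 : ∑ j : Fin (n + 1), (2 * ((j : ℕ) : ℤ) - n) =
      ∑ j : Fin (n + 1), (2 * (((Fin.revPerm j : Fin (n + 1)) : ℕ) : ℤ) - n) :=
    (Equiv.sum_comp Fin.revPerm fun j : Fin (n + 1) => (2 * ((j : ℕ) : ℤ) - n)).symm
  have h2 : ∑ j : Fin (n + 1), (2 * (((Fin.revPerm j : Fin (n + 1)) : ℕ) : ℤ) - n) =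
      -∑ j : Fin (n + 1), (2 * ((j : ℕ) : ℤ) - n) := by
    rw [← Finset.sum_neg_distrib]
    refine Finset.sum_congr rfl fun j _ => ?_
    rw [Fin.revPerm_apply, Fin.val_rev]
    have := j.2
    omega
  omega

/-- the block of the powers of a divisor -/
noncomputable def powBlock (hD : X.IsCyc 1 D) (hHL : HardLefschetz W X D)
    (h1 : (1 : W.H X) ≠ 0) : Block W X D (Fin (X.dim + 1)) where
  q j := ((j : ℕ) : ℤ)
  al j := W.cl X D ^ (j : ℕ)
  be j := (W.tr X (W.cl X D ^ X.dim))⁻¹ • W.cl X D ^ (X.dim - (j : ℕ))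
  hal j := pow_mem_span hD _
  hbe j := by
    refine Submodule.smul_mem _ _ ?_
    have := pow_mem_span (W := W) hD (X.dim - (j : ℕ))
    rwa [Nat.cast_sub (by have := j.2; omega)] at this
  dual i j := by
    rw [smul_mul_assoc, map_smul, ← pow_add, smul_eq_mul]
    split_ifs with h
    · subst h
      rw [Nat.sub_add_cancel (by have := i.2; omega),
        inv_mul_cancel₀ (tr_pow_ne hD hHL h1)]
    · have h2 : W.cl X D ^ (X.dim - (i : ℕ) + j) ∈ W.gr X (2 * (X.dim - (i : ℕ) + j)) :=
        H914.span_gr (pow_mem_span hD _)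
      rw [W.tr_eq_zero h2 ?_, mul_zero]
      have := i.2
      have := j.2
      intro h3
      apply h
      apply Fin.ext
      omega
  comm x := by
    set c := (W.tr X (W.cl X D ^ X.dim))⁻¹
    have hz : W.cl X D ^ (X.dim + 1) = 0 := by
      have h2 := pow_mem_span (W := W) hD (X.dim + 1)
      rwa [spanCycles_large (by push_cast; omega), Submodule.mem_bot] at h2
    rw [Fin.sum_univ_succ, Fin.sum_univ_castSucc]
    have e0 : W.tr X (c • W.cl X D ^ (X.dim - ((0 : Fin (X.dim + 1)) : ℕ)) * (W.cl X D * x)) = 0 := by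
      rw [Fin.val_zero, Nat.sub_zero, smul_mul_assoc, ← mul_assoc, ← pow_succ, hz, zero_mul,
        smul_zero, map_zero]
    rw [e0, zero_smul, zero_add, mul_add, Fin.val_last, mul_smul_comm, ← pow_succ', hz, smul_zero,
      add_zero, Finset.mul_sum]
    refine Finset.sum_congr rfl fun j _ => ?_
    have hj := j.2
    rw [Fin.val_succ, Fin.val_castSucc, mul_smul_comm, ← pow_succ', smul_mul_assoc,
      smul_mul_assoc, ← mul_assoc, ← pow_succ, show X.dim - ((j : ℕ) + 1) + 1 = X.dim - (j : ℕ) by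
        omega]
  sym := sum_fin X.dim

/-- **The defect of a product.** -/
theorem defect_prod' (hne : ∀ X : 𝒱.Obj, (1 : W.H X) ≠ 0) (hD : X.IsCyc 1 D) (hE : V.IsCyc 1 E)
    (hX : HardLefschetz W X D) (hV : HardLefschetz W V E) :
    (X.dim + 1) * defect W V + (V.dim + 1) * defect W X ≤ defect W (X.prod V) := by
  have h := defect_prod hD hE (TH125.Gal.hardLefschetz_prod hD hE hX hV)
    (powBlock hD hX (hne X)) (powBlock hE hV (hne V))
  simpa using h

/-- ranks under hard Lefschetz -/
lemma rk_le (hE : V.IsCyc 1 E) (hV : HardLefschetz W V E) {p : ℤ} (hp : 2 * p ≤ V.dim) :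
    rk W V p ≤ rk W V (V.dim - p) := by
  simp only [rk, cycleRank]
  by_cases hneg : p < 0
  · rw [spanCycles_neg hneg, finrank_bot]
    positivity
  lift p to ℕ using by omega
  obtain ⟨r, hr⟩ : ∃ r : ℕ, V.dim = 2 * p + r := ⟨V.dim - 2 * p, by omega⟩
  have h1 : Module.finrank W.K (spanCycles W V p) ≤
      Module.finrank W.K (spanCycles W V ((V.dim : ℤ) - p)) := by
    refine finrank_le_of_inj (T := LinearMap.mulLeft W.K (W.cl V E) ^ r) (fun x hx => ?_)
      fun x hx h0 => ?_
    · have := KOp.map_span (qop_mul_pow (W := W) hE r).kop hx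
      rw [LinearMap.pow_mulLeft]
      rwa [show (p : ℤ) + r = (V.dim : ℤ) - p by omega] at this
    · refine (hV (2 * p) (by omega)).1 x (H914.span_gr hx) ?_
      rwa [show V.dim - 2 * p = r by omega]
  exact_mod_cast h1

/-- the defect is not negative -/
lemma defect_nonneg (hE : V.IsCyc 1 E) (hV : HardLefschetz W V E) : 0 ≤ defect W V := by
  rw [← mom_rk]
  exact mom_nonneg _ (rk_fin V) fun p hp => rk_le hE hV hp

/-- the defect vanishes exactly when the ranks are symmetric -/
lemma defect_eq_zero_iff (hE : V.IsCyc 1 E) (hV : HardLefschetz W V E) :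
    defect W V = 0 ↔ ∀ p q : ℕ, p + q = V.dim → cycleRank W V p = cycleRank W V q := by
  constructor
  · intro h0 p q hpq
    have h1 := symm_of_mom _ (rk_fin (W := W) V) (fun p hp => rk_le hE hV hp)
      (by rw [mom_rk, h0]) p
    rw [show (V.dim : ℤ) - p = q by omega] at h1
    simp only [rk] at h1
    exact_mod_cast h1
  · intro h
    have h1 : mom V.dim (rk W V) = -mom V.dim (rk W V) := by
      nth_rewrite 1 [mom]
      rw [← finsum_comp_equiv (Equiv.subLeft (V.dim : ℤ))
        (f := fun p => (2 * p - (V.dim : ℤ)) * rk W V p), mom, ← finsum_neg_distrib]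
      refine finsum_congr fun p => ?_
      simp only [Equiv.subLeft_apply]
      have h2 : rk W V (V.dim - p) = rk W V p := by
        simp only [rk]
        by_cases h3 : p < 0
        · rw [cycleRank, cycleRank, spanCycles_neg h3, spanCycles_large (by omega)]
        by_cases h4 : (V.dim : ℤ) < p
        · rw [cycleRank, cycleRank, spanCycles_large h4, spanCycles_neg (by omega)]
        lift p to ℕ using by omega
        have := h (V.dim - p) p (by omega)
        rw [Nat.cast_sub (by omega)] at this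
        rw [this]
      rw [h2]
      ring
    rw [← mom_rk]
    omega

/-- the conjecture A implies that the defect vanishes -/
lemma defect_of_A (hE : V.IsCyc 1 E) (hV : HardLefschetz W V E) (hA : LefschetzA W V E) :
    defect W V = 0 :=
  (defect_eq_zero_iff hE hV).2 fun _ _ hpq => rank_of_A hE hV hA hpq

/-- the defect of the square -/
lemma lefschetzB_iff_defect (hD : X.IsCyc 1 D) (hX : HardLefschetz W X D) :
    LefschetzB W X D ↔ defect W (X.prod X) = 0 := by
  have hD2 : (X.prod X).IsCyc 1 (sumDiv ops D D) := isCyc_sumDiv hD hD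
  have hHL2 := TH125.Gal.hardLefschetz_prod hD hD hX hX
  constructor
  · intro hB
    rcases Nat.eq_zero_or_pos X.dim with h0 | hn
    · rw [defect, dim_prod, h0]
      simp
    · refine defect_of_A hD2 hHL2 ?_
      intro j hj z hz
      obtain ⟨z', hz', h'⟩ := uniform_square hn hD hX hB j hj z hz
      exact ⟨z', hz', h' W (fun _ => rfl)⟩
  · intro h0
    rcases Nat.eq_zero_or_pos X.dim with h1 | hn
    · exact lefschetzB_zero hD hX h1
    · refine lefschetzB_of_rank hD hX ?_
      have := (defect_eq_zero_iff hD2 hHL2).1 h0 (X.dim - 1) (X.dim + 1) (by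
        rw [dim_prod]; omega)
      rw [Nat.cast_sub hn] at this
      exact_mod_cast this

end Pool.Agent.X310.Mom
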