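import Pool.Agent.X310.MuDefs

set_option autoImplicit false

namespace Pool.Agent.X310.Mu

open Classical in
/-- The product of the conjugates. -/
noncomputable def nm {G M : Type} [Group G] [Finite G] [CommGroup M] (a : G →* MulAut M) (D : Subgroup G)
    (x : M) : M :=
  letI : Fintype D := Fintype.ofFinite D
  ∏ σ : D, a σ.1 x

section
variable {G M : Type} [Group G] [Finite G] [CommGroup M] (a : G →* MulAut M)

theorem nm_eq (D : Subgroup G) [inst : Fintype D] (x : M) : nm a D x = ∏ σ : D, a σ.1 x := by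
  have h : Fintype.ofFinite D = inst := Subsingleton.elim _ _
  change @Finset.prod _ _ _ (@Finset.univ _ (Fintype.ofFinite D)) _ = _
  rw [h]

theorem nm_fix (D : Subgroup G) (x : M) (h : G) (hh : h ∈ D) : a h (nm a D x) = nm a D x := by
  classical
  haveI : Fintype D := Fintype.ofFinite D
  rw [nm_eq, map_prod]
  refine Fintype.prod_equiv (Equiv.mulLeft (⟨h, hh⟩ : D)) _ _ fun σ => ?_
  simp only [Equiv.coe_mulLeft, Subgroup.coe_mul, map_mul, MulAut.mul_apply]

theorem nm_pow (D : Subgroup G) (x : M) (k : ℕ) : nm a D (x ^ k) = nm a D x ^ k := by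
  classical
  haveI : Fintype D := Fintype.ofFinite D
  rw [nm_eq, nm_eq, ← Finset.prod_pow]
  exact Finset.prod_congr rfl fun σ _ => map_pow _ _ _

theorem nm_of_fix (D : Subgroup G) (x : M) (h : ∀ g ∈ D, a g x = x) : nm a D x = x ^ Nat.card D := by
  classical
  haveI : Fintype D := Fintype.ofFinite D
  rw [nm_eq, Finset.prod_congr rfl fun σ _ => h σ.1 σ.2, Finset.prod_const, Finset.card_univ,
    Nat.card_eq_fintype_card]

theorem nm_comm (D : Subgroup G) (x : M) (h : G) (hc : ∀ g ∈ D, h * g = g * h) :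
    a h (nm a D x) = nm a D (a h x) := by
  classical
  haveI : Fintype D := Fintype.ofFinite D
  rw [nm_eq, nm_eq, map_prod]
  refine Finset.prod_congr rfl fun σ _ => ?_
  rw [← MulAut.mul_apply, ← map_mul, hc σ.1 σ.2, map_mul, MulAut.mul_apply]

end

/-- An element of order dividing `p` and a number prime to `p` is trivial. -/
theorem eq_one_of_cop {p n : ℕ} (hp : p.Prime) (hn : ¬ p ∣ n) {M : Type} [Group M] {v : M} (h1 : v ^ p = 1)
    (h2 : v ^ n = 1) : v = 1 := by
  have h3 : orderOf v ∣ Nat.gcd p n := Nat.dvd_gcd (orderOf_dvd_of_pow_eq_one h1) (orderOf_dvd_of_pow_eq_one h2)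
  rw [(Nat.Prime.coprime_iff_not_dvd hp).2 hn] at h3
  exact orderOf_eq_one_iff.1 (Nat.dvd_one.1 h3)

section
variable {p : ℕ} {G Γ P : Type} [Group G] [Finite G] [Group Γ] [Group P] (π : G →* Γ) (ρ : G →* P)

/-- The elements acting as an element of `D` on `F` and trivially on `E`. -/
def hat (D : Subgroup Γ) : Subgroup G := D.comap π ⊓ ρ.ker

theorem mem_hat {D : Subgroup Γ} {g : G} : g ∈ hat π ρ D ↔ π g ∈ D ∧ ρ g = 1 := Iff.rfl

variable (hinj : ∀ g, π g = 1 → ρ g = 1 → g = 1)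
include hinj

theorem card_hat (hp : p.Prime) (D : Subgroup Γ) (hD : ¬ p ∣ Nat.card D) : ¬ p ∣ Nat.card (hat π ρ D) := by
  intro h
  haveI : Fact p.Prime := ⟨hp⟩
  obtain ⟨g, hg⟩ := exists_prime_orderOf_dvd_card' p h
  apply hD
  have h1 : orderOf (⟨π g.1, g.2.1⟩ : D) = p := by
    apply orderOf_eq_prime
    · apply Subtype.ext
      change (π g.1) ^ p = 1
      rw [← map_pow]
      have : g.1 ^ p = 1 := by
        have := pow_orderOf_eq_one g
        rw [hg] at this
        exact congrArg Subtype.val this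
      rw [this, map_one]
    · intro h2
      have h3 : π g.1 = 1 := congrArg Subtype.val h2
      have h4 := hinj g.1 h3 g.2.2
      have h5 : g = 1 := Subtype.ext h4
      rw [h5, orderOf_one] at hg
      exact hp.one_lt.ne hg
  rw [← h1]
  exact orderOf_dvd_natCard _

theorem ker_comm {h g : G} (hh : π h = 1) (hg : ρ g = 1) : h * g = g * h := by
  have h1 := hinj (h * g * h⁻¹ * g⁻¹) (by simp [hh]) (by simp [hg])
  rw [mul_inv_eq_one, mul_inv_eq_iff_eq_mul] at h1
  exact h1

omit hinj in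
theorem exists_hat (hp : p.Prime) (hπ : Function.Surjective π) (hP : ∀ x : P, ∃ k, x ^ p ^ k = 1)
    (D : Subgroup Γ) (hD : ¬ p ∣ Nat.card D) (d : Γ) (hd : d ∈ D) : ∃ g ∈ hat π ρ D, π g = d := by
  obtain ⟨g, rfl⟩ := hπ d
  obtain ⟨k, hk⟩ := hP (ρ g)
  have hc : Nat.Coprime (Nat.card D) (p ^ k) :=
    Nat.Coprime.pow_right k (((Nat.Prime.coprime_iff_not_dvd hp).2 hD).symm)
  obtain ⟨n, hn1, hn2⟩ := Nat.chineseRemainder hc 1 0
  have h1 : π g ^ n = π g := by
    have h2 : (⟨π g, hd⟩ : D) ^ n = (⟨π g, hd⟩ : D) ^ 1 := by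
      rw [pow_eq_pow_iff_modEq]
      exact hn1.of_dvd (orderOf_dvd_natCard _)
    have h3 := congrArg Subtype.val h2
    simpa using h3
  refine ⟨g ^ n, ⟨?_, ?_⟩, ?_⟩
  · change π (g ^ n) ∈ D
    rw [map_pow, h1]
    exact hd
  · change ρ (g ^ n) = 1
    rw [map_pow]
    obtain ⟨j, rfl⟩ := (Nat.modEq_zero_iff_dvd).1 hn2
    rw [pow_mul, hk, one_pow]
  · rw [map_pow, h1]

end

end Pool.Agent.X310.Mu
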