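import Pool.Agent.X310.MuKey

set_option autoImplicit false
set_option linter.style.haveILetI false

namespace Pool.Agent.X310.Mu

/-- A bound for the `p`-part. -/
theorem val_le {p : ℕ} [hp : Fact p.Prime] {A M : Type} [CommGroup A] [Finite A] [CommGroup M] [Finite M]
    (f : A →* M) (hk : ∀ x, f x = 1 → ∃ n, ¬ p ∣ n ∧ x ^ n = 1) (W : Subgroup M)
    (h : ∀ x, ∃ n, ¬ p ∣ n ∧ f x ^ n ∈ W) : padicValNat p (Nat.card A) ≤ padicValNat p (Nat.card W) := by
  classical
  have e : ∀ n, padicValNat p n = n.factorization p := fun n => (Nat.factorization_def n hp.out).symm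
  let A0 : Subgroup A := W.comap f
  have h1 : ¬ p ∣ A0.index := by
    intro hd
    have hd' : p ∣ Nat.card (A ⧸ A0) := hd
    obtain ⟨x, hx⟩ := exists_prime_orderOf_dvd_card' p hd'
    obtain ⟨x, rfl⟩ := QuotientGroup.mk'_surjective _ x
    obtain ⟨n, hn, hnW⟩ := h x
    apply hn
    rw [← hx]
    apply orderOf_dvd_of_pow_eq_one
    rw [← map_pow]
    refine (QuotientGroup.eq_one_iff _).2 ?_
    change f (x ^ n) ∈ W
    rw [map_pow]
    exact hnW
  have h2 : padicValNat p (Nat.card A) = padicValNat p (Nat.card A0) := by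
    rw [← A0.card_mul_index, padicValNat.mul Nat.card_pos.ne' Subgroup.index_ne_zero_of_finite,
      padicValNat.eq_zero_of_not_dvd h1, add_zero]
  let g : A0 →* W := (f.comp A0.subtype).codRestrict W (fun x => x.2)
  have h3 : ¬ p ∣ Nat.card g.ker := by
    intro hd
    obtain ⟨x, hx⟩ := exists_prime_orderOf_dvd_card' p hd
    obtain ⟨n, hn, hn1⟩ := hk x.1.1 (congrArg Subtype.val x.2)
    apply hn
    rw [← hx]
    apply orderOf_dvd_of_pow_eq_one
    apply Subtype.ext
    exact Subtype.ext hn1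
  have h4 : Nat.card A0 = Nat.card g.ker * Nat.card g.range := by
    rw [mul_comm]
    have := Subgroup.card_eq_card_quotient_mul_card_subgroup g.ker
    rw [this, Nat.card_congr (QuotientGroup.quotientKerEquivRange g).toEquiv]
  rw [h2, h4, padicValNat.mul Nat.card_pos.ne' Nat.card_pos.ne', padicValNat.eq_zero_of_not_dvd h3, zero_add]
  simp only [e]
  exact (Nat.factorization_le_iff_dvd Nat.card_pos.ne' Nat.card_pos.ne').2
    (Subgroup.card_subgroup_dvd_card g.range) p


theorem val_dom {p : ℕ} [hp : Fact p.Prime] {G Γ P M A : Type} [Group G] [Finite G] [Group Γ] [Finite Γ]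
    [Group P] [CommGroup M] [Finite M] [CommGroup A] [Finite A] (a : G →* MulAut M) (π : G →* Γ) (ρ : G →* P)
    (hπ : Function.Surjective π) (hinj : ∀ g, π g = 1 → ρ g = 1 → g = 1) (hP : ∀ x : P, ∃ k, x ^ p ^ k = 1)
    {ι : Type} [Fintype ι] (H : Subgroup Γ) (D : ι → Subgroup Γ) (hH : ¬ p ∣ Nat.card H)
    (hD : ∀ i, ¬ p ∣ Nat.card (D i)) (hdom : Dominates p H D)
    (R : ι → Subgroup M) (hR : ∀ i x, nm a (hat π ρ (D i)) x ∈ R i)
    (f : A →* M) (hk : ∀ x, f x = 1 → ∃ n, ¬ p ∣ n ∧ x ^ n = 1) (hf : ∀ g ∈ hat π ρ H, ∀ x, a g (f x) = f x) :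
    padicValNat p (Nat.card A) ≤ Nat.card Γ * ∑ i, padicValNat p (Nat.card (R i)) := by
  classical
  haveI : Fintype Γ := Fintype.ofFinite _
  let W : Subgroup M := Subgroup.closure {c | ∃ g i x, c = a g (nm a (hat π ρ (D i)) x)}
  have hWst : ∀ g, ∀ w ∈ W, a g w ∈ W := by
    intro g w hw
    refine Subgroup.closure_induction (p := fun w _ => a g w ∈ W) ?_ ?_ ?_ ?_ hw
    · rintro _ ⟨g', i, x, rfl⟩
      apply Subgroup.subset_closure
      refine ⟨g * g', i, x, ?_⟩
      rw [map_mul, MulAut.mul_apply]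
    · rw [map_one]
      exact one_mem _
    · intro x y _ _ hx hy
      rw [map_mul]
      exact mul_mem hx hy
    · intro x _ hx
      rw [map_inv]
      exact inv_mem hx
  have hWN : ∀ i x, nm a (hat π ρ (D i)) x ∈ W := by
    intro i x
    apply Subgroup.subset_closure
    refine ⟨1, i, x, ?_⟩
    rw [map_one, MulAut.one_apply]
  -- the upper bound
  choose s hs using hπ
  let B := ((j : ι × Γ) → R j.1)
  let ψ : B →* M :=
    { toFun := fun c => ∏ j, a (s j.2) (c j : M)
      map_one' := Finset.prod_eq_one fun j _ => map_one (a (s j.2))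
      map_mul' := fun c d => (Finset.prod_congr rfl fun j _ =>
        map_mul (a (s j.2)) (c j : M) (d j : M)).trans Finset.prod_mul_distrib }
  have hWψ : W ≤ ψ.range := by
    rw [Subgroup.closure_le]
    rintro _ ⟨g, i, x, rfl⟩
    have h1 : a g (nm a (hat π ρ (D i)) x) =
        a (s (π g)) (nm a (hat π ρ (D i)) (a ((s (π g))⁻¹ * g) x)) := by
      rw [← nm_comm]
      · rw [← MulAut.mul_apply, ← map_mul, mul_inv_cancel_left]
      · intro σ hσ
        exact ker_comm _ _ hinj (by rw [map_mul, map_inv, hs, inv_mul_cancel]) hσ.2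
    rw [h1]
    refine ⟨Pi.mulSingle (i, π g) ⟨_, hR i (a ((s (π g))⁻¹ * g) x)⟩, ?_⟩
    change ∏ j, a (s j.2) ((Pi.mulSingle (i, π g) ⟨_, hR i (a ((s (π g))⁻¹ * g) x)⟩ : B) j : M) = _
    rw [Finset.prod_eq_single (i, π g)]
    · rw [Pi.mulSingle_eq_same]
    · intro j _ hj
      rw [Pi.mulSingle_eq_of_ne hj, Subgroup.coe_one, map_one]
    · intro hj
      exact absurd (Finset.mem_univ _) hj
  have e : ∀ n, padicValNat p n = n.factorization p := fun n => (Nat.factorization_def n hp.out).symm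
  have hW : padicValNat p (Nat.card W) ≤ Nat.card Γ * ∑ i, padicValNat p (Nat.card (R i)) := by
    have h1 : Nat.card W ∣ ∏ j : ι × Γ, Nat.card (R j.1) := by
      refine (Subgroup.card_dvd_of_le hWψ).trans ?_
      rw [← Nat.card_pi]
      exact Subgroup.card_range_dvd ψ
    have hne : ∀ j : ι × Γ, Nat.card (R j.1) ≠ 0 := fun j => Nat.card_pos.ne'
    simp only [e]
    have h5 := (Nat.factorization_le_iff_dvd Nat.card_pos.ne'
      (Finset.prod_ne_zero_iff.2 fun i _ => hne i)).2 h1 p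
    rw [Nat.factorization_prod_apply fun i _ => hne i] at h5
    refine h5.trans (le_of_eq ?_)
    rw [Fintype.sum_prod_type, Finset.mul_sum]
    refine Finset.sum_congr rfl fun i _ => ?_
    change ∑ _y : Γ, (Nat.card (R i)).factorization p = _
    rw [Finset.sum_const, Finset.card_univ, smul_eq_mul, ← Nat.card_eq_fintype_card]
  refine (val_le f hk W ?_).trans hW
  intro x
  obtain ⟨n, hn, hnW⟩ := key hp.out a π ρ (fun γ => ⟨s γ, hs γ⟩) hinj hP H D hH hD hdom W hWst hWN (f x)
  refine ⟨Nat.card (hat π ρ H) * n, ?_, ?_⟩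
  · rw [hp.out.dvd_mul, not_or]
    exact ⟨card_hat _ _ hinj hp.out H hH, hn⟩
  · rw [pow_mul, ← nm_of_fix a (hat π ρ H)]
    · exact hnW
    · intro g hg
      exact hf g hg x

end Pool.Agent.X310.Mu
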