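import Pool.Agent.X310.MuField
import Pool.Agent.X310.MuVal

set_option autoImplicit false
set_option linter.unusedSectionVars false
set_option linter.style.haveILetI false

namespace Pool.Agent.X310.Mu

open NumberField Ideal Pool.Agent.H471R2 IntermediateField Pool.Agent.X27.Cln

section
variable {p : ℕ} [hp : Fact p.Prime]
variable {F L : Type} [Field F] [NumberField F] [Field L] [NumberField L] [Algebra F L]
variable (E : IntermediateField ℚ L) [Normal ℚ E]

theorem card_range_le (K : IntermediateField ℚ L) :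
    padicValNat p (Nat.card (ClassGroup.extendedHom (𝓞 K) (𝓞 L)).range) ≤
      padicValNat p (Nat.card (ClassGroup (𝓞 K))) := by
  have e : ∀ n, padicValNat p n = n.factorization p := fun n => (Nat.factorization_def n hp.out).symm
  simp only [e]
  exact (Nat.factorization_le_iff_dvd Nat.card_pos.ne' Nat.card_pos.ne').2
    (Subgroup.card_range_dvd _) p

theorem padic_dom {ι : Type} [Fintype ι] (H : Subgroup (F ≃ₐ[ℚ] F)) (D : ι → Subgroup (F ≃ₐ[ℚ] F))
    (h : (emb F L).fieldRange ⊔ E = ⊤)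
    (hlift : ∀ γ : F ≃ₐ[ℚ] F, ∃ g : L ≃ₐ[ℚ] L, ∀ x : F, g (algebraMap F L x) = algebraMap F L (γ x))
    (hE : ∀ x : E ≃ₐ[ℚ] E, ∃ k, x ^ p ^ k = 1) (hH : ¬ p ∣ Nat.card H) (hD : ∀ i, ¬ p ∣ Nat.card (D i))
    (hdom : Dominates p H D) :
    padicValNat p (Nat.card (ClassGroup (𝓞 (comp H E)))) ≤
      Nat.card (F ≃ₐ[ℚ] F) * ∑ i, padicValNat p (Nat.card (ClassGroup (𝓞 (comp (D i) E)))) := by
  have hπ : Function.Surjective (resF F L) := by
    intro γ
    obtain ⟨g, hg⟩ := hlift γ
    exact ⟨⟨g, γ, hg⟩, resF_eq _ γ hg⟩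
  have h1 := val_dom (p := p) (act F) (resF F L) (resE F E) hπ (res_inj F E h) hE H D hH hD hdom
    (fun i => (ClassGroup.extendedHom (𝓞 (comp (D i) E)) (𝓞 L)).range)
    (fun i x => img_comp F E (D i) h _ (nm_mem_img F E (D i) x))
    (ClassGroup.extendedHom (𝓞 (comp H E)) (𝓞 L))
    (fun x hx => ⟨_, not_dvd_comp H E h hH, ker_pow _ x hx⟩) (by
      intro g hg x
      rw [act_apply]
      apply ca_ext
      have h1 : g.1 ∈ (comp H E).fixingSubgroup := by
        rw [← hat_map F E H]
        exact ⟨g, hg, rfl⟩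
      exact (IntermediateField.mem_fixingSubgroup_iff _ _).1 h1)
  refine h1.trans (Nat.mul_le_mul_left _ (Finset.sum_le_sum fun i _ => ?_))
  exact card_range_le _

end

end Pool.Agent.X310.Mu
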