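import Pool.Agent.X310.MuCl
import Pool.Agent.X27.Cln.Rank

set_option autoImplicit false
set_option linter.unusedSectionVars false
set_option linter.style.haveILetI false

namespace Pool.Agent.X310.Mu

open NumberField Ideal Pool.Agent.H471R2 IntermediateField Pool.Agent.X27.Cln

theorem abelian_of_le (N : ℕ) (hN : 0 < N) (E : IntermediateField ℚ ℂ)
    (hE : E ≤ adjoin ℚ {z : ℂ | z ^ N = 1}) : IsGalois ℚ E := by
  haveI : NeZero N := ⟨hN.ne'⟩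
  have h1 : adjoin ℚ {z : ℂ | z ^ N = 1} ≤ adjoin ℚ {b : ℂ | ∃ n ∈ ({N} : Set ℕ), n ≠ 0 ∧ b ^ n = 1} := by
    apply adjoin.mono
    intro z hz
    exact ⟨N, rfl, hN.ne', hz⟩
  have h0 := isCyclotomicExtension_adjoin_of_exists_isPrimitiveRoot {N} ℚ ℂ (by
    intro n hn hn0
    exact ⟨_, Complex.isPrimitiveRoot_exp n hn0⟩)
  have h2 := @IsCyclotomicExtension.isAbelianGalois {N} ℚ
    (adjoin ℚ {b : ℂ | ∃ n ∈ ({N} : Set ℕ), n ≠ 0 ∧ b ^ n = 1}) _ _ _ h0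
  have h3 := @IsAbelianGalois.of_algHom ℚ E (adjoin ℚ {b : ℂ | ∃ n ∈ ({N} : Set ℕ), n ≠ 0 ∧ b ^ n = 1})
    _ _ _ _ _ (inclusion (hE.trans h1)) h2
  exact h3.toIsGalois

theorem exists_lift (F E : IntermediateField ℚ ℂ) [FiniteDimensional ℚ F] [FiniteDimensional ℚ E] [hE : Normal ℚ E]
    (γ : F ≃ₐ[ℚ] F) : ∃ g : ↥(F ⊔ E) ≃ₐ[ℚ] ↥(F ⊔ E), ∀ x : F,
      ((g ⟨x.1, (le_sup_left : F ≤ F ⊔ E) x.2⟩ : ↥(F ⊔ E)) : ℂ) = γ x := by
  set S : Set ℂ := (F : Set ℂ) ∪ E with hS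
  have hK : ∀ s ∈ S, IsIntegral ℚ s ∧ ((minpoly ℚ s).map (algebraMap ℚ ℂ)).Splits := by
    intro s hs
    refine ⟨?_, IsAlgClosed.splits _⟩
    rcases hs with hs | hs
    · have h1 : IsIntegral ℚ (⟨s, hs⟩ : F) := Algebra.IsIntegral.isIntegral _
      exact h1.map F.val
    · have h1 : IsIntegral ℚ (⟨s, hs⟩ : E) := Algebra.IsIntegral.isIntegral _
      exact h1.map E.val
  have hF : F ≤ adjoin ℚ S := fun x hx => subset_adjoin ℚ S (Or.inl hx)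
  have hES : E ≤ adjoin ℚ S := fun x hx => subset_adjoin ℚ S (Or.inr hx)
  have hle : F ⊔ E ≤ adjoin ℚ S := sup_le hF hES
  obtain ⟨φ, hφ⟩ := exists_algHom_adjoin_of_splits hK (F.val.comp γ.toAlgHom) hF
  have hφF : ∀ (x : ℂ) (hx : x ∈ F), φ ⟨x, hF hx⟩ = (γ ⟨x, hx⟩ : ℂ) := fun x hx =>
    DFunLike.congr_fun hφ ⟨x, hx⟩
  let φ' : ↥(F ⊔ E) →ₐ[ℚ] ℂ := φ.comp (inclusion hle)
  have hr : ∀ x : ↥(F ⊔ E), φ' x ∈ F ⊔ E := by
    have h1 : F ⊔ E ≤ lift ((F ⊔ E).comap φ') := by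
      refine sup_le ?_ ?_
      · intro x hx
        refine ⟨⟨x, (le_sup_left : F ≤ F ⊔ E) hx⟩, ?_, rfl⟩
        change φ ⟨x, hF hx⟩ ∈ F ⊔ E
        rw [hφF x hx]
        exact (le_sup_left : F ≤ F ⊔ E) (γ ⟨x, hx⟩).2
      · intro x hx
        refine ⟨⟨x, (le_sup_right : E ≤ F ⊔ E) hx⟩, ?_, rfl⟩
        have h2 : (φ.comp (inclusion hES)).fieldRange = E := @AlgHom.fieldRange_of_normal ℚ ℂ _ _ _ E hE _
        have h3 : φ ⟨x, hES hx⟩ ∈ (φ.comp (inclusion hES)).fieldRange := ⟨⟨x, hx⟩, rfl⟩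
        rw [h2] at h3
        exact (le_sup_right : E ≤ F ⊔ E) h3
    intro x
    obtain ⟨y, hy, hyx⟩ := h1 x.2
    have : y = x := Subtype.ext hyx
    rw [← this]
    exact hy
  let ψ : ↥(F ⊔ E) →ₐ[ℚ] ↥(F ⊔ E) := φ'.codRestrict (F ⊔ E).toSubalgebra hr
  have hb : Function.Bijective ψ := Algebra.IsAlgebraic.algHom_bijective ψ
  exact ⟨AlgEquiv.ofBijective ψ hb, fun x => hφF x.1 x.2⟩

/-- The embedding of `F` in `F ⊔ E`. -/
theorem exists_setup' (F E : IntermediateField ℚ ℂ) [NumberField F] [NumberField ↥(F ⊔ E)]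
    [FiniteDimensional ℚ E] [hE : IsGalois ℚ E] :
    ∃ (_ : Algebra F ↥(F ⊔ E)) (E' : IntermediateField ℚ ↥(F ⊔ E)) (_ : Normal ℚ E'),
      (emb F ↥(F ⊔ E)).fieldRange ⊔ E' = ⊤ ∧
      (∀ (D : Subgroup (F ≃ₐ[ℚ] F)) (x : ℂ), x ∈ fx F D ⊔ E ↔
        ∃ y : ↥(F ⊔ E), y ∈ comp D E' ∧ (y : ℂ) = x) ∧
      (∀ γ : F ≃ₐ[ℚ] F, ∃ g : ↥(F ⊔ E) ≃ₐ[ℚ] ↥(F ⊔ E), ∀ x : F,
        g (algebraMap F ↥(F ⊔ E) x) = algebraMap F ↥(F ⊔ E) (γ x)) ∧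
      ∀ x : E' ≃ₐ[ℚ] E', x ^ Module.finrank ℚ E = 1 := by
  let : Algebra F ↥(F ⊔ E) := (inclusion (le_sup_left : F ≤ F ⊔ E)).toRingHom.toAlgebra
  have e := restrictAlgEquiv (le_sup_right : E ≤ F ⊔ E)
  have hn : IsGalois ℚ (restrict (le_sup_right : E ≤ F ⊔ E)) :=
    @IsGalois.of_algEquiv ℚ E _ _ _ _ _ _ hE e
  haveI hfd : FiniteDimensional ℚ F := inferInstance
  refine ⟨this, restrict (le_sup_right : E ≤ F ⊔ E), hn.to_normal, ?_, ?_, ?_, ?_⟩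
  · have h1 : lift (emb F ↥(F ⊔ E)).fieldRange = F := by
      apply le_antisymm
      · rintro _ ⟨_, ⟨x, rfl⟩, rfl⟩
        exact x.2
      · intro x hx
        exact ⟨_, ⟨⟨x, hx⟩, rfl⟩, rfl⟩
    apply lift_injective (F ⊔ E)
    refine (IntermediateField.map_sup _ _ (F ⊔ E).val).trans ?_
    refine (congrArg₂ (· ⊔ ·) h1 (lift_restrict (le_sup_right : E ≤ F ⊔ E))).trans ?_
    exact (lift_top ℚ (F ⊔ E)).symm
  · intro D x
    have h4 : ((fixedField D).map (emb F ↥(F ⊔ E))).map (F ⊔ E).val = fx F D := by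
      apply le_antisymm
      · rintro _ ⟨_, ⟨x, hx, rfl⟩, rfl⟩
        exact ⟨x, hx, rfl⟩
      · rintro _ ⟨x, hx, rfl⟩
        exact ⟨_, ⟨x, hx, rfl⟩, rfl⟩
    have h3 : (comp D (restrict (le_sup_right : E ≤ F ⊔ E))).map (F ⊔ E).val = fx F D ⊔ E := by
      refine (IntermediateField.map_sup _ _ (F ⊔ E).val).trans ?_
      exact congrArg₂ (· ⊔ ·) h4 (lift_restrict (le_sup_right : E ≤ F ⊔ E))
    rw [← h3]
    constructor
    · rintro ⟨y, hy, rfl⟩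
      exact ⟨y, hy, rfl⟩
    · rintro ⟨y, hy, rfl⟩
      exact ⟨y, hy, rfl⟩
  · intro γ
    obtain ⟨g, hg⟩ := exists_lift F E γ
    exact ⟨g, fun x => Subtype.ext (hg x)⟩
  · intro x
    have h1 : Nat.card (restrict (le_sup_right : E ≤ F ⊔ E) ≃ₐ[ℚ] restrict (le_sup_right : E ≤ F ⊔ E)) =
        Module.finrank ℚ E := by
      rw [IsGalois.card_aut_eq_finrank, e.toLinearEquiv.finrank_eq]
    rw [← h1]
    exact pow_card_eq_one'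

theorem padic_dom_cx {p : ℕ} [hp : Fact p.Prime] (F E : IntermediateField ℚ ℂ) [FiniteDimensional ℚ F]
    [FiniteDimensional ℚ E] [IsGalois ℚ E] (m : ℕ) (hm : Module.finrank ℚ E = p ^ m)
    {ι : Type} [Fintype ι] (H : Subgroup (F ≃ₐ[ℚ] F)) (D : ι → Subgroup (F ≃ₐ[ℚ] F))
    (hH : ¬ p ∣ Nat.card H) (hD : ∀ i, ¬ p ∣ Nat.card (D i)) (hdom : Dominates p H D) :
    padicValNat p (Nat.card (ClassGroup (𝓞 ↥(fx F H ⊔ E)))) ≤
      Nat.card (F ≃ₐ[ℚ] F) * ∑ i, padicValNat p (Nat.card (ClassGroup (𝓞 ↥(fx F (D i) ⊔ E)))) := by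
  have nF : NumberField F := ⟨⟩
  have nE : NumberField E := ⟨⟩
  have nL : NumberField ↥(F ⊔ E) := ⟨⟩
  obtain ⟨i1, E', i2, h1, h2, h3, h4⟩ := exists_setup' F E
  have h5 := padic_dom (p := p) E' H D h1 h3 (fun x => ⟨m, by rw [← hm]; exact h4 x⟩) hH hD hdom
  have hfd : ∀ D : Subgroup (F ≃ₐ[ℚ] F), FiniteDimensional ℚ ↥(fx F D ⊔ E) := fun D => by
    have := fx_fd F D
    infer_instance
  have h6 : ∀ D : Subgroup (F ≃ₐ[ℚ] F), Nat.card (ClassGroup (𝓞 (comp D E'))) =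
      Nat.card (ClassGroup (𝓞 ↥(fx F D ⊔ E))) := fun D => by
    have := hfd D
    exact card_congr_set (h2 D)
  simp only [h6] at h5
  exact h5

end Pool.Agent.X310.Mu
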