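import Mathlib

/-!
# Irreducible modules and fixed vectors
-/

set_option autoImplicit false

namespace Pool.Agent.X310.Mu

/-- Every irreducible (finite) `𝔽_p[Γ]`-module `V`, written multiplicatively, with a nontrivial vector fixed by
`H` has for some `i` a nontrivial vector fixed by `D i`. -/
def Dominates (p : ℕ) {Γ ι : Type} [Group Γ] (H : Subgroup Γ) (D : ι → Subgroup Γ) : Prop :=
  ∀ (V : Type) [CommGroup V] [Finite V] (b : Γ →* MulAut V), (∀ v : V, v ^ p = 1) →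
    (∀ U : Subgroup V, (∀ g, ∀ u ∈ U, b g u ∈ U) → U = ⊥ ∨ U = ⊤) →
    (∃ v : V, v ≠ 1 ∧ ∀ h ∈ H, b h v = v) → ∃ i, ∃ v : V, v ≠ 1 ∧ ∀ d ∈ D i, b d v = v

/-- The subgroup generated by the commutators `g c g⁻¹ c⁻¹`. -/
def comms {Γ : Type} [Group Γ] (c : Γ) : Subgroup Γ :=
  Subgroup.closure {x | ∃ g : Γ, x = g * c * g⁻¹ * c⁻¹}

end Pool.Agent.X310.Mu
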