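import Pool.Agent.X310.MuKey
import Pool.Agent.X27.Cln.Low

set_option autoImplicit false
set_option linter.unusedSectionVars false
set_option linter.style.haveILetI false

namespace Pool.Agent.X310.Mu

open NumberField Ideal Pool.Agent.H471R2 IntermediateField Pool.Agent.X27.Cln

section
variable (F L : Type) [Field F] [NumberField F] [Field L] [NumberField L] [Algebra F L]

/-- The automorphisms of `L` that preserve `F`. -/
def stab : Subgroup (L ≃ₐ[ℚ] L) where
  carrier := {g | ∃ γ : F ≃ₐ[ℚ] F, ∀ x : F, g (algebraMap F L x) = algebraMap F L (γ x)}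
  mul_mem' := by
    rintro g h ⟨γ, hγ⟩ ⟨δ, hδ⟩
    refine ⟨γ * δ, fun x => ?_⟩
    change g (h (algebraMap F L x)) = _
    rw [hδ, hγ]
    rfl
  one_mem' := ⟨1, fun x => rfl⟩
  inv_mem' := by
    rintro g ⟨γ, hγ⟩
    refine ⟨γ⁻¹, fun x => ?_⟩
    apply g.injective
    rw [hγ]
    have h1 : g (g⁻¹ (algebraMap F L x)) = algebraMap F L x := g.apply_symm_apply _
    have h2 : γ (γ⁻¹ x) = x := γ.apply_symm_apply _
    rw [h1, h2]

/-- The restriction to `F`. -/
noncomputable def resF : stab F L →* (F ≃ₐ[ℚ] F) :=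
  MonoidHom.mk' (fun g => Classical.choose g.2) (by
    intro g h
    ext x
    apply (algebraMap F L).injective
    have h1 := Classical.choose_spec g.2
    have h2 := Classical.choose_spec h.2
    have h3 := Classical.choose_spec (g * h).2
    rw [← h3 x]
    change g.1 (h.1 (algebraMap F L x)) = _
    rw [h2, h1]
    rfl)

variable {F L}

theorem resF_spec (g : stab F L) (x : F) : g.1 (algebraMap F L x) = algebraMap F L (resF F L g x) :=
  Classical.choose_spec g.2 x

theorem resF_eq (g : stab F L) (γ : F ≃ₐ[ℚ] F) (h : ∀ x : F, g.1 (algebraMap F L x) = algebraMap F L (γ x)) :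
    resF F L g = γ := by
  ext x
  apply (algebraMap F L).injective
  rw [← resF_spec, h]

variable (F) (E : IntermediateField ℚ L) [Normal ℚ E]

/-- The restriction to `E`. -/
noncomputable def resE : stab F L →* (E ≃ₐ[ℚ] E) := (AlgEquiv.restrictNormalHom E).comp (stab F L).subtype

theorem resE_spec (g : stab F L) (x : E) : ((resE F E g x : E) : L) = g.1 (x : L) :=
  AlgEquiv.restrictNormal_commutes g.1 E x

theorem resE_eq_one (g : stab F L) : resE F E g = 1 ↔ ∀ x ∈ E, g.1 x = x := by
  constructor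
  · intro h x hx
    have h1 := resE_spec F E g ⟨x, hx⟩
    rw [h] at h1
    exact h1.symm
  · intro h
    ext x
    rw [resE_spec]
    exact h x.1 x.2

theorem fix_sup {g : L ≃ₐ[ℚ] L} {A B : IntermediateField ℚ L} (hA : ∀ x ∈ A, g x = x) (hB : ∀ x ∈ B, g x = x)
    (x : L) (hx : x ∈ A ⊔ B) : g x = x := by
  have h1 : A ⊔ B ≤ fixedField (Subgroup.zpowers g) := by
    refine sup_le ?_ ?_
    · intro x hx
      rw [mem_fixedField_iff]
      intro f hf
      have h2 : Subgroup.zpowers g ≤ A.fixingSubgroup := by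
        rw [Subgroup.zpowers_le, IntermediateField.mem_fixingSubgroup_iff]
        exact hA
      exact (IntermediateField.mem_fixingSubgroup_iff _ f).1 (h2 hf) _ hx
    · intro x hx
      rw [mem_fixedField_iff]
      intro f hf
      have h2 : Subgroup.zpowers g ≤ B.fixingSubgroup := by
        rw [Subgroup.zpowers_le, IntermediateField.mem_fixingSubgroup_iff]
        exact hB
      exact (IntermediateField.mem_fixingSubgroup_iff _ f).1 (h2 hf) _ hx
  exact (mem_fixedField_iff _ _).1 (h1 hx) g (Subgroup.mem_zpowers g)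

theorem res_inj (h : (emb F L).fieldRange ⊔ E = ⊤) (g : stab F L) (h1 : resF F L g = 1)
    (h2 : resE F E g = 1) : g = 1 := by
  apply Subtype.ext
  ext x
  have hx : x ∈ (emb F L).fieldRange ⊔ E := by rw [h]; trivial
  refine fix_sup ?_ ((resE_eq_one F E g).1 h2) x hx
  rintro _ ⟨y, rfl⟩
  change g.1 (algebraMap F L y) = algebraMap F L y
  rw [resF_spec, h1]
  rfl

theorem hat_map (D : Subgroup (F ≃ₐ[ℚ] F)) :
    (hat (resF F L) (resE F E) D).map (stab F L).subtype = (comp D E).fixingSubgroup := by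
  ext g
  constructor
  · rintro ⟨g, ⟨hg1, hg2⟩, rfl⟩
    rw [IntermediateField.mem_fixingSubgroup_iff]
    refine fix_sup ?_ ((resE_eq_one F E g).1 hg2)
    rintro _ ⟨y, hy, rfl⟩
    change g.1 (algebraMap F L y) = algebraMap F L y
    rw [resF_spec]
    congr 1
    exact (mem_fixedField_iff _ _).1 hy _ hg1
  · intro hg
    obtain ⟨γ, hγ, hγg⟩ := restrict_exists D E g hg
    let g' : stab F L := ⟨g, γ, hγg⟩
    refine ⟨g', ⟨?_, ?_⟩, rfl⟩
    · change resF F L g' ∈ D
      rw [resF_eq g' γ hγg]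
      exact hγ
    · change resE F E g' = 1
      rw [resE_eq_one]
      intro x hx
      rw [IntermediateField.mem_fixingSubgroup_iff] at hg
      exact hg x ((le_sup_right : E ≤ comp D E) hx)

/-- The action on the class group. -/
noncomputable def act : stab F L →* MulAut (ClassGroup (𝓞 L)) :=
  MonoidHom.mk' (fun g => ca g.1) (by
    intro g h
    ext c
    obtain ⟨I, hI, rfl⟩ := cl_surj c
    change ca (g.1 * h.1) (cl I hI) = ca g.1 (ca h.1 (cl I hI))
    rw [ca_cl, ca_cl, ca_cl]
    exact cl_congr' (ia_ia _ _ _).symm _ _)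

theorem act_apply (g : stab F L) (c : ClassGroup (𝓞 L)) : act F g c = ca g.1 c := rfl

theorem nm_mem_img (D : Subgroup (F ≃ₐ[ℚ] F)) (c : ClassGroup (𝓞 L)) :
    nm (act F) (hat (resF F L) (resE F E) D) c ∈ img (comp D E).fixingSubgroup := by
  classical
  rw [← hat_map F E D]
  haveI : Fintype (hat (resF F L) (resE F E) D) := Fintype.ofFinite _
  haveI : Fintype ((hat (resF F L) (resE F E) D).map (stab F L).subtype) := Fintype.ofFinite _
  rw [nm_eq]
  have h1 : ∏ σ : hat (resF F L) (resE F E) D, act F σ.1 c =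
      ∏ σ : (hat (resF F L) (resE F E) D).map (stab F L).subtype, ca σ.1 c := by
    refine Fintype.prod_equiv
      ((hat (resF F L) (resE F E) D).equivMapOfInjective _ (stab F L).subtype_injective).toEquiv _ _ fun σ => rfl
  rw [h1]
  exact norm_mem_img _ c

theorem ca_ext (K : IntermediateField ℚ L) (g : L ≃ₐ[ℚ] L) (hg : ∀ x ∈ K, g x = x) (c : ClassGroup (𝓞 K)) :
    ca g (ClassGroup.extendedHom (𝓞 K) (𝓞 L) c) = ClassGroup.extendedHom (𝓞 K) (𝓞 L) c := by
  obtain ⟨J, hJ, rfl⟩ := cl_surj c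
  have hinj : Function.Injective (algebraMap (𝓞 K) (𝓞 L)) := FaithfulSMul.algebraMap_injective _ _
  have hJm : J.map (algebraMap (𝓞 K) (𝓞 L)) ≠ ⊥ := by
    rwa [Ne, Ideal.map_eq_bot_iff_of_injective hinj]
  have h1 : ClassGroup.extendedHom (𝓞 K) (𝓞 L) (cl J hJ) = cl (J.map (algebraMap (𝓞 K) (𝓞 L))) hJm := by
    unfold cl
    rw [ClassGroup.extendedHom_mk0]
  rw [h1, ca_cl]
  apply cl_congr'
  unfold ia
  rw [Ideal.map_map]
  congr 1
  ext x
  exact hg _ x.1.2

theorem img_comp (D : Subgroup (F ≃ₐ[ℚ] F)) (h : (emb F L).fieldRange ⊔ E = ⊤) (c : ClassGroup (𝓞 L))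
    (hc : c ∈ img (comp D E).fixingSubgroup) :
    c ∈ (ClassGroup.extendedHom (𝓞 (comp D E)) (𝓞 L)).range := by
  have h1 : ∀ (M N : IntermediateField ℚ L), M = N → (ClassGroup.extendedHom (𝓞 M) (𝓞 L)).range =
      (ClassGroup.extendedHom (𝓞 N) (𝓞 L)).range := by
    rintro M _ rfl
    rfl
  rw [← h1 _ _ (fixed_comp D E h)]
  exact hc

end

end Pool.Agent.X310.Mu
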