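import Pool.Agent.X310.MuKey

set_option autoImplicit false
set_option linter.style.haveILetI false

namespace Pool.Agent.X310.Mu

section
variable {G M : Type} [Group G] [CommGroup M] (a : G →* MulAut M) (B : Subgroup M)
  (hB : ∀ g, ∀ w ∈ B, a g w ∈ B)

/-- The action on a stable subgroup. -/
def sact : G →* MulAut B where
  toFun g :=
    { toFun := fun v => ⟨a g v.1, hB _ _ v.2⟩
      invFun := fun v => ⟨a g⁻¹ v.1, hB _ _ v.2⟩
      left_inv := fun v => Subtype.ext (by
        change a g⁻¹ (a g v.1) = v.1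
        rw [← MulAut.mul_apply, ← map_mul, inv_mul_cancel, map_one]; rfl)
      right_inv := fun v => Subtype.ext (by
        change a g (a g⁻¹ v.1) = v.1
        rw [← MulAut.mul_apply, ← map_mul, mul_inv_cancel, map_one]; rfl)
      map_mul' := fun v w => Subtype.ext (map_mul (a g) v.1 w.1) }
  map_one' := by
    ext v
    change a 1 v.1 = v.1
    rw [map_one]
    rfl
  map_mul' g h := by
    ext v
    change a (g * h) v.1 = a g (a h v.1)
    rw [map_mul, MulAut.mul_apply]

theorem nm_sact [Finite G] (D : Subgroup G) (x : B) : ((nm (sact a B hB) D x : B) : M) = nm a D x := by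
  classical
  haveI : Fintype D := Fintype.ofFinite D
  rw [nm_eq, nm_eq]
  exact map_prod B.subtype _ _

end

theorem key_inf {p : ℕ} (hp : p.Prime) {G Γ P M : Type} [Group G] [Finite G] [Group Γ] [Group P]
    [CommGroup M] (hM : ∀ x : M, x ^ p = 1) (a : G →* MulAut M) (π : G →* Γ) (ρ : G →* P)
    (hπ : Function.Surjective π)
    (hinj : ∀ g, π g = 1 → ρ g = 1 → g = 1) (hP : ∀ x : P, ∃ k, x ^ p ^ k = 1)
    {ι : Type} (H : Subgroup Γ) (D : ι → Subgroup Γ) (hH : ¬ p ∣ Nat.card H)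
    (hD : ∀ i, ¬ p ∣ Nat.card (D i)) (hdom : Dominates p H D)
    (W : Subgroup M) (hW : ∀ g, ∀ w ∈ W, a g w ∈ W)
    (hN : ∀ i x, nm a (hat π ρ (D i)) x ∈ W) (y : M) :
    ∃ n, ¬ p ∣ n ∧ (nm a (hat π ρ H) y) ^ n ∈ W := by
  classical
  let B : Subgroup M := Subgroup.closure (Set.range fun g => a g y)
  have hB : ∀ g, ∀ w ∈ B, a g w ∈ B := by
    intro g w hw
    refine Subgroup.closure_induction (p := fun w _ => a g w ∈ B) ?_ ?_ ?_ ?_ hw
    · rintro _ ⟨h, rfl⟩
      apply Subgroup.subset_closure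
      refine ⟨g * h, ?_⟩
      change a (g * h) y = a g (a h y)
      rw [map_mul, MulAut.mul_apply]
    · rw [map_one]
      exact one_mem _
    · intro x y _ _ hx hy
      rw [map_mul]
      exact mul_mem hx hy
    · intro x _ hx
      rw [map_inv]
      exact inv_mem hx
  have hy : y ∈ B := Subgroup.subset_closure ⟨1, by
    change a 1 y = y
    rw [map_one]; rfl⟩
  haveI : Group.FG B := by
    rw [Group.fg_iff_subgroup_fg]
    exact ⟨(Set.toFinite (Set.range fun g => a g y)).toFinset, by rw [Set.Finite.coe_toFinset]⟩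
  haveI : Finite B := CommGroup.finite_of_fg_isMulTorsion B (fun x => isOfFinOrder_iff_pow_eq_one.2
    ⟨p, hp.pos, Subtype.ext (hM x.1)⟩)
  obtain ⟨n, hn, hnW⟩ := key hp (sact a B hB) π ρ hπ hinj hP H D hH hD hdom (W.comap B.subtype)
    (fun g w hw => hW g _ hw) (fun i x => by
      change ((nm (sact a B hB) (hat π ρ (D i)) x : B) : M) ∈ W
      rw [nm_sact]
      exact hN i _) ⟨y, hy⟩
  refine ⟨n, hn, ?_⟩
  change (((nm (sact a B hB) (hat π ρ H) ⟨y, hy⟩) ^ n : B) : M) ∈ W at hnW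
  rwa [Subgroup.coe_pow, nm_sact] at hnW

theorem dom_inf {p : ℕ} (hp : p.Prime) {G Γ P M A : Type} [Group G] [Finite G] [Group Γ] [Fintype Γ]
    [Group P] [CommGroup M] [CommGroup A] (hM : ∀ x : M, x ^ p = 1)
    (a : G →* MulAut M) (π : G →* Γ) (ρ : G →* P)
    (hπ : Function.Surjective π) (hinj : ∀ g, π g = 1 → ρ g = 1 → g = 1) (hP : ∀ x : P, ∃ k, x ^ p ^ k = 1)
    {ι : Type} [Fintype ι] (H : Subgroup Γ) (D : ι → Subgroup Γ) (hH : ¬ p ∣ Nat.card H)
    (hD : ∀ i, ¬ p ∣ Nat.card (D i)) (hdom : Dominates p H D)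
    (R : ι → Type) [∀ i, CommGroup (R i)] (r : ∀ i, R i →* M)
    (hR : ∀ i x, nm a (hat π ρ (D i)) x ∈ (r i).range)
    (f : A →* M) (hf : ∀ g ∈ hat π ρ H, ∀ x, a g (f x) = f x) :
    ∃ ψ : ((j : ι × Γ) → R j.1) →* M, ∀ x : A, f x ∈ ψ.range := by
  classical
  let W : Subgroup M := Subgroup.closure {c | ∃ g i x, c = a g (nm a (hat π ρ (D i)) x)}
  have hWst : ∀ g, ∀ w ∈ W, a g w ∈ W := by
    intro g w hw
    refine Subgroup.closure_induction (p := fun w _ => a g w ∈ W) ?_ ?_ ?_ ?_ hw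
    · rintro _ ⟨g', i, x, rfl⟩
      apply Subgroup.subset_closure
      refine ⟨g * g', i, x, ?_⟩
      rw [map_mul, MulAut.mul_apply]
    · rw [map_one]
      exact one_mem _
    · intro x y _ _ hx hy
      rw [map_mul]
      exact mul_mem hx hy
    · intro x _ hx
      rw [map_inv]
      exact inv_mem hx
  have hWN : ∀ i x, nm a (hat π ρ (D i)) x ∈ W := by
    intro i x
    apply Subgroup.subset_closure
    refine ⟨1, i, x, ?_⟩
    rw [map_one, MulAut.one_apply]
  choose s hs using hπ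
  let B := ((j : ι × Γ) → R j.1)
  let ψ : B →* M :=
    { toFun := fun c => ∏ j, a (s j.2) (r j.1 (c j))
      map_one' := Finset.prod_eq_one fun j _ => by
        change a (s j.2) (r j.1 1) = 1
        rw [map_one, map_one]
      map_mul' := fun c d => (Finset.prod_congr rfl fun j _ => by
        change a (s j.2) (r j.1 (c j * d j)) = _
        rw [map_mul, map_mul]).trans Finset.prod_mul_distrib }
  have hWψ : W ≤ ψ.range := by
    rw [Subgroup.closure_le]
    rintro _ ⟨g, i, x, rfl⟩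
    have h1 : a g (nm a (hat π ρ (D i)) x) =
        a (s (π g)) (nm a (hat π ρ (D i)) (a ((s (π g))⁻¹ * g) x)) := by
      rw [← nm_comm]
      · rw [← MulAut.mul_apply, ← map_mul, mul_inv_cancel_left]
      · intro σ hσ
        exact ker_comm _ _ hinj (by rw [map_mul, map_inv, hs, inv_mul_cancel]) hσ.2
    rw [h1]
    obtain ⟨c, hc⟩ := hR i (a ((s (π g))⁻¹ * g) x)
    rw [← hc]
    refine ⟨Pi.mulSingle (i, π g) c, ?_⟩
    change ∏ j, a (s j.2) (r j.1 ((Pi.mulSingle (i, π g) c : B) j)) = _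
    rw [Finset.prod_eq_single (i, π g)]
    · rw [Pi.mulSingle_eq_same]
    · intro j _ hj
      rw [Pi.mulSingle_eq_of_ne hj, map_one, map_one]
    · intro hj
      exact absurd (Finset.mem_univ _) hj
  refine ⟨ψ, fun x => ?_⟩
  obtain ⟨n, hn, hnW⟩ := key_inf hp hM a π ρ (fun γ => ⟨s γ, hs γ⟩) hinj hP H D hH hD hdom W hWst hWN (f x)
  have h1 : f x ^ (Nat.card (hat π ρ H) * n) ∈ ψ.range := by
    apply hWψ
    rw [pow_mul, ← nm_of_fix a (hat π ρ H)]
    · exact hnW
    · intro g hg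
      exact hf g hg x
  have h2 : ¬ p ∣ Nat.card (hat π ρ H) * n := by
    rw [hp.dvd_mul, not_or]
    exact ⟨card_hat _ _ hinj hp H hH, hn⟩
  set N := Nat.card (hat π ρ H) * n
  have hcop : IsCoprime (N : ℤ) (p : ℤ) := by
    rw [Nat.isCoprime_iff_coprime]
    exact ((Nat.Prime.coprime_iff_not_dvd hp).2 h2).symm
  obtain ⟨u, v, huv⟩ := hcop
  have h3 : f x = (f x ^ N) ^ u := by
    calc f x = f x ^ (u * N + v * p : ℤ) := by rw [huv, zpow_one]
      _ = (f x ^ N) ^ u := by
        rw [zpow_add, mul_comm u, mul_comm v, zpow_mul, zpow_mul, zpow_natCast, zpow_natCast, hM, one_zpow,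
          mul_one]
  rw [h3]
  exact zpow_mem h1 u

end Pool.Agent.X310.Mu
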