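import Pool.Agent.X310.MuCx
import Pool.Agent.X310.MuInf
import Pool.Agent.X27.Cln.Ray

set_option autoImplicit false
set_option linter.unusedSectionVars false
set_option linter.style.haveILetI false

namespace Pool.Agent.X310.Mu

open NumberField Ideal Pool.Agent.H471R2 IntermediateField Pool.Agent.X27.Cln

section group
variable (p m : ℕ) [hp : Fact p.Prime] (L : Type) [Field L] [NumberField L]

/-- The ideals prime to `p`. -/
def copM : Submonoid (Ideal (𝓞 L)) where
  carrier := {I | Cop p I}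
  mul_mem' := fun ha hb => (cop_mul hp.out).2 ⟨ha, hb⟩
  one_mem' := cop_one hp.out

/-- The relation. -/
def rcon : Con (copM p L) where
  r I J := RayEq p m I.1 J.1
  iseqv := ⟨fun I => RayEq.refl hp.out _, fun h => h.symm, fun h h' => h.trans hp.out h'⟩
  mul' := fun h h' => h.mul hp.out h'

/-- The ray class group modulo `p`-th powers. -/
abbrev RM : Type := (rcon p m L).Quotient

variable {p m L}

/-- The class of an ideal. -/
def rcl (I : Ideal (𝓞 L)) (h : Cop p I) : RM p m L := ((⟨I, h⟩ : copM p L) : (rcon p m L).Quotient)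

theorem rcl_mul {I J : Ideal (𝓞 L)} (hI : Cop p I) (hJ : Cop p J) :
    (rcl I hI * rcl J hJ : RM p m L) = rcl (I * J) ((cop_mul hp.out).2 ⟨hI, hJ⟩) := rfl

theorem rcl_one : (1 : RM p m L) = rcl 1 (cop_one hp.out) := rfl

theorem rcl_eq {I J : Ideal (𝓞 L)} (hI : Cop p I) (hJ : Cop p J) :
    (rcl I hI : RM p m L) = rcl J hJ ↔ RayEq p m I J := (rcon p m L).eq

theorem rcl_surj (x : RM p m L) : ∃ (I : Ideal (𝓞 L)) (h : Cop p I), x = rcl I h := by
  induction x using Con.induction_on with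
  | H x => exact ⟨x.1, x.2, rfl⟩

theorem rcl_pow {I : Ideal (𝓞 L)} (hI : Cop p I) (n : ℕ) :
    (rcl I hI : RM p m L) ^ n = rcl (I ^ n) (cop_pow hp.out hI n) := rfl

theorem rcl_pow_p (x : RM p m L) : x ^ p = 1 := by
  obtain ⟨I, hI, rfl⟩ := rcl_surj x
  rw [rcl_pow, rcl_one, rcl_eq]
  exact (rayEq_of hp.out hI (by rw [one_mul])).symm

noncomputable instance : CommGroup (RM p m L) :=
  { (inferInstance : CommMonoid (RM p m L)) with
    inv := fun x => x ^ (p - 1)
    inv_mul_cancel := fun x => by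
      change x ^ (p - 1) * x = 1
      rw [← pow_succ, Nat.sub_add_cancel hp.out.one_lt.le]
      exact rcl_pow_p x }

end group

section ext
variable {p m : ℕ} [hp : Fact p.Prime] (K L : Type) [Field K] [NumberField K] [Field L] [NumberField L]
  [Algebra K L]

/-- The extension of ideals. -/
noncomputable def rextF (x : RM p m K) : RM p m L :=
  Con.liftOn x (fun I => (rcl (I.1.map (algebraMap (𝓞 K) (𝓞 L))) ((cop_ext hp.out I.1).2 I.2) : RM p m L))
    fun _ _ h => (rcl_eq _ _).2 (RayEq.ext hp.out h)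

theorem rextF_rcl {I : Ideal (𝓞 K)} (hI : Cop p I) :
    rextF K L (rcl I hI : RM p m K) = rcl (I.map (algebraMap (𝓞 K) (𝓞 L))) ((cop_ext hp.out I).2 hI) := rfl

theorem rcl_congr {I J : Ideal (𝓞 L)} (h : I = J) (hI : Cop p I) (hJ : Cop p J) :
    (rcl I hI : RM p m L) = rcl J hJ := by
  subst h; rfl

/-- The extension of ideals. -/
noncomputable def rext : RM p m K →* RM p m L :=
  MonoidHom.mk' (rextF K L) (by
    intro x y
    obtain ⟨I, hI, rfl⟩ := rcl_surj x
    obtain ⟨J, hJ, rfl⟩ := rcl_surj y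
    rw [rcl_mul, rextF_rcl, rextF_rcl, rextF_rcl, rcl_mul]
    exact rcl_congr L (Ideal.map_mul _ _ _) _ _)

theorem rext_rcl {I : Ideal (𝓞 K)} (hI : Cop p I) :
    rext K L (rcl I hI : RM p m K) = rcl (I.map (algebraMap (𝓞 K) (𝓞 L))) ((cop_ext hp.out I).2 hI) := rfl

end ext

section act
variable {p m : ℕ} [hp : Fact p.Prime] {L : Type} [Field L] [NumberField L]

theorem rayEq_ia (σ : L ≃ₐ[ℚ] L) {I J : Ideal (𝓞 L)} (h : RayEq p m I J) : RayEq p m (ia σ I) (ia σ J) := by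
  obtain ⟨x, y, A, B, hx, hy, hx1, hy1, hA, hB, h⟩ := h
  have hd : ∀ x : 𝓞 L, (p : 𝓞 L) ^ m ∣ x - 1 → (p : 𝓞 L) ^ m ∣ ra σ x - 1 := by
    intro x hx
    have := map_dvd (ra σ) hx
    rwa [map_pow, map_natCast, map_sub, map_one] at this
  refine ⟨ra σ x, ra σ y, ia σ A, ia σ B, ?_, ?_, hd x hx1, hd y hy1, cop_ia.2 hA, cop_ia.2 hB, ?_⟩
  · rw [Ne, map_eq_zero_iff _ (ra σ).injective]; exact hx
  · rw [Ne, map_eq_zero_iff _ (ra σ).injective]; exact hy
  · rw [← ia_span, ← ia_span, ← ia_pow, ← ia_pow, ← ia_mul, ← ia_mul, ← ia_mul, ← ia_mul, h]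

/-- The action of an automorphism. -/
noncomputable def rmap (σ : L ≃ₐ[ℚ] L) (x : RM p m L) : RM p m L :=
  Con.liftOn x (fun I => (rcl (ia σ I.1) (cop_ia.2 I.2) : RM p m L))
    fun _ _ h => (rcl_eq _ _).2 (rayEq_ia σ h)

theorem rmap_rcl (σ : L ≃ₐ[ℚ] L) {I : Ideal (𝓞 L)} (hI : Cop p I) :
    rmap σ (rcl I hI : RM p m L) = rcl (ia σ I) (cop_ia.2 hI) := rfl

theorem rmap_rmap (σ τ : L ≃ₐ[ℚ] L) (x : RM p m L) : rmap σ (rmap τ x) = rmap (σ * τ) x := by
  obtain ⟨I, hI, rfl⟩ := rcl_surj x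
  rw [rmap_rcl, rmap_rcl, rmap_rcl]
  exact rcl_congr L (ia_ia σ τ I) _ _

theorem rmap_one (x : RM p m L) : rmap (1 : L ≃ₐ[ℚ] L) x = x := by
  obtain ⟨I, hI, rfl⟩ := rcl_surj x
  rw [rmap_rcl]
  exact rcl_congr L (ia_one I) _ _

theorem rmap_mul (σ : L ≃ₐ[ℚ] L) (x y : RM p m L) : rmap σ (x * y) = rmap σ x * rmap σ y := by
  obtain ⟨I, hI, rfl⟩ := rcl_surj x
  obtain ⟨J, hJ, rfl⟩ := rcl_surj y
  rw [rcl_mul, rmap_rcl, rmap_rcl, rmap_rcl, rcl_mul]
  exact rcl_congr L (ia_mul σ I J) _ _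

variable (p m) (F : Type) [Field F] [NumberField F] [Algebra F L]

/-- The action on the ray class group modulo `p`-th powers. -/
noncomputable def ract : stab F L →* MulAut (RM p m L) where
  toFun g :=
    { toFun := rmap g.1
      invFun := rmap g.1⁻¹
      left_inv := fun x => by rw [rmap_rmap, inv_mul_cancel, rmap_one]
      right_inv := fun x => by rw [rmap_rmap, mul_inv_cancel, rmap_one]
      map_mul' := rmap_mul g.1 }
  map_one' := by
    ext x
    exact rmap_one x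
  map_mul' g h := by
    ext x
    exact (rmap_rmap g.1 h.1 x).symm

variable {p m}

theorem ract_rcl (g : stab F L) {I : Ideal (𝓞 L)} (hI : Cop p I) :
    ract p m F g (rcl I hI) = rcl (ia g.1 I) (cop_ia.2 hI) := rfl

theorem rcl_prod {ι : Type} (s : Finset ι) (f : ι → Ideal (𝓞 L)) (h : ∀ i, Cop p (f i)) :
    ∏ i ∈ s, (rcl (f i) (h i) : RM p m L) = rcl (∏ i ∈ s, f i) (cop_prod hp.out s f fun i _ => h i) := by
  classical
  induction s using Finset.induction_on with
  | empty =>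
    rw [Finset.prod_empty, rcl_one]
    exact rcl_congr L (Finset.prod_empty).symm _ _
  | insert a s ha ih =>
    rw [Finset.prod_insert ha, ih, rcl_mul]
    exact rcl_congr L (Finset.prod_insert ha).symm _ _

variable (E : IntermediateField ℚ L) [Normal ℚ E]

theorem rnm_mem (D : Subgroup (F ≃ₐ[ℚ] F)) (x : RM p m L) :
    nm (ract p m F) (hat (resF F L) (resE F E) D) x ∈
      (rext (p := p) (m := m) (Kf (comp D E).fixingSubgroup) L).range := by
  classical
  rw [← hat_map F E D]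
  haveI : Fintype (hat (resF F L) (resE F E) D) := Fintype.ofFinite _
  haveI : Fintype ((hat (resF F L) (resE F E) D).map (stab F L).subtype) := Fintype.ofFinite _
  obtain ⟨I, hI, rfl⟩ := rcl_surj x
  rw [nm_eq]
  have h1 : ∏ σ : hat (resF F L) (resE F E) D, ract p m F σ.1 (rcl I hI) =
      ∏ σ : (hat (resF F L) (resE F E) D).map (stab F L).subtype,
        (rcl (ia σ.1 I) (cop_ia.2 hI) : RM p m L) := by
    refine Fintype.prod_equiv
      ((hat (resF F L) (resE F E) D).equivMapOfInjective _ (stab F L).subtype_injective).toEquiv _ _ fun σ => rfl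
  rw [h1, rcl_prod]
  refine ⟨rcl (relNorm _ I) ((cop_norm (K := Kf ((hat (resF F L) (resE F E) D).map (stab F L).subtype)) I).2 hI), ?_⟩
  rw [rext_rcl]
  exact rcl_congr L (prod_ia_sub _ I).symm _ _

theorem ract_ext (K : IntermediateField ℚ L) (g : stab F L) (hg : ∀ x ∈ K, g.1 x = x) (x : RM p m K) :
    ract p m F g (rext K L x) = rext K L x := by
  obtain ⟨J, hJ, rfl⟩ := rcl_surj x
  rw [rext_rcl, ract_rcl]
  apply rcl_congr
  unfold ia
  rw [Ideal.map_map]
  congr 1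
  ext x
  exact hg _ x.1.2

end act

section bound
variable {p m : ℕ} [hp : Fact p.Prime] {L : Type} [Field L] [NumberField L]

/-- Bounds for the number of classes. -/
theorem rayBd_iff (C : ℕ) : RayBd p m C L ↔ Finite (RM p m L) ∧ Nat.card (RM p m L) ≤ C := by
  classical
  constructor
  · rintro ⟨T, hT, hT'⟩
    have h1 : ∀ x : RM p m L, ∃ J ∈ T, ∀ (I : Ideal (𝓞 L)) (hI : Cop p I), x = rcl I hI → RayEq p m I J := by
      intro x
      obtain ⟨I, hI, rfl⟩ := rcl_surj x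
      obtain ⟨J, hJ, hIJ⟩ := hT' I hI
      refine ⟨J, hJ, fun I' hI' h => ?_⟩
      exact ((rcl_eq _ _).1 h.symm).trans hp.out hIJ
    choose f hf hf' using h1
    have hinj : Function.Injective (fun x => (⟨f x, hf x⟩ : T)) := by
      intro x y hxy
      have h2 : f x = f y := congrArg Subtype.val hxy
      obtain ⟨I, hI, rfl⟩ := rcl_surj x
      obtain ⟨J, hJ, rfl⟩ := rcl_surj y
      rw [rcl_eq]
      have h3 := hf' _ I hI rfl
      have h4 := hf' _ J hJ rfl
      rw [h2] at h3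
      exact h3.trans hp.out h4.symm
    refine ⟨Finite.of_injective _ hinj, (Nat.card_le_card_of_injective _ hinj).trans ?_⟩
    rw [Nat.card_eq_fintype_card, Fintype.card_coe]
    exact hT
  · rintro ⟨h1, h2⟩
    haveI := Fintype.ofFinite (RM p m L)
    choose f hf hf' using fun x : RM p m L => rcl_surj x
    refine ⟨Finset.univ.image f, Finset.card_image_le.trans ?_, fun I hI => ?_⟩
    · rw [Finset.card_univ, ← Nat.card_eq_fintype_card]
      exact h2
    · refine ⟨f (rcl I hI), Finset.mem_image_of_mem _ (Finset.mem_univ _), ?_⟩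
      rw [← rcl_eq (m := m) hI (hf _)]
      exact hf' _

variable {F : Type} [Field F] [NumberField F] [Algebra F L] (E : IntermediateField ℚ L) [Normal ℚ E]

theorem rext_inj (D' : Subgroup (L ≃ₐ[ℚ] L)) (hd : ¬ p ∣ Module.finrank (Kf D') L) :
    Function.Injective (rext (p := p) (m := m) (Kf D') L) := by
  rw [injective_iff_map_eq_one]
  intro x hx
  obtain ⟨I, hI, rfl⟩ := rcl_surj x
  rw [rext_rcl, rcl_one, rcl_eq] at hx
  have h1 := hx.norm D' hp.out
  rw [relNorm_algebraMap, finrank_oo, map_one] at h1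
  have h2 : (rcl I hI : RM p m (Kf D')) ^ Module.finrank (Kf D') L = 1 := by
    rw [rcl_pow, rcl_one, rcl_eq]
    exact h1
  exact eq_one_of_cop hp.out hd (rcl_pow_p _) h2

theorem rayBd_dom {ι : Type} [Fintype ι] (H : Subgroup (F ≃ₐ[ℚ] F)) (D : ι → Subgroup (F ≃ₐ[ℚ] F))
    (h : (emb F L).fieldRange ⊔ E = ⊤)
    (hlift : ∀ γ : F ≃ₐ[ℚ] F, ∃ g : L ≃ₐ[ℚ] L, ∀ x : F, g (algebraMap F L x) = algebraMap F L (γ x))
    (hE : ∀ x : E ≃ₐ[ℚ] E, ∃ k, x ^ p ^ k = 1) (hH : ¬ p ∣ Nat.card H) (hD : ∀ i, ¬ p ∣ Nat.card (D i))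
    (hdom : Dominates p H D) (C : ι → ℕ) (hC : ∀ i, RayBd p m (C i) (comp (D i) E)) :
    RayBd p m ((∏ i, C i) ^ Nat.card (F ≃ₐ[ℚ] F)) (comp H E) := by
  classical
  haveI : Fintype (F ≃ₐ[ℚ] F) := Fintype.ofFinite _
  have hπ : Function.Surjective (resF F L) := by
    intro γ
    obtain ⟨g, hg⟩ := hlift γ
    exact ⟨⟨g, γ, hg⟩, resF_eq _ γ hg⟩
  have hfix : ∀ D : Subgroup (F ≃ₐ[ℚ] F), Kf (comp D E).fixingSubgroup = comp D E := fun D =>
    fixed_comp D E h
  have hC' : ∀ i, RayBd p m (C i) (Kf (comp (D i) E).fixingSubgroup) := fun i =>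
    rayBd_congr hp.out (equivOfEq (hfix (D i))).symm.toRingEquiv (hC i)
  refine rayBd_congr hp.out (equivOfEq (hfix H)).toRingEquiv ?_
  obtain ⟨ψ, hψ⟩ := dom_inf hp.out rcl_pow_p (ract p m F) (resF F L) (resE F E) hπ (res_inj F E h) hE H D hH hD
    hdom (fun i => RM p m (Kf (comp (D i) E).fixingSubgroup)) (fun i => rext _ L) (fun i x => rnm_mem F E (D i) x)
    (rext (Kf (comp H E).fixingSubgroup) L) (by
      intro g hg x
      apply ract_ext
      have h1 : g.1 ∈ (comp H E).fixingSubgroup := by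
        rw [← hat_map F E H]
        exact ⟨g, hg, rfl⟩
      rw [hfix H]
      exact (IntermediateField.mem_fixingSubgroup_iff _ _).1 h1)
  have hd : ¬ p ∣ Module.finrank (Kf (comp H E).fixingSubgroup) L := by
    have key : ∀ M N : IntermediateField ℚ L, M = N → Module.finrank M L = Module.finrank N L := by
      rintro M _ rfl; rfl
    rw [key _ _ (hfix H)]
    exact not_dvd_comp H E h hH
  have hfin : ∀ i, Finite (RM p m (Kf (comp (D i) E).fixingSubgroup)) := fun i => ((rayBd_iff _).1 (hC' i)).1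
  haveI : Finite ((j : ι × (F ≃ₐ[ℚ] F)) → RM p m (Kf (comp (D j.1) E).fixingSubgroup)) := inferInstance
  haveI : Finite ψ.range := Finite.of_surjective ψ.rangeRestrict ψ.rangeRestrict_surjective
  let f : RM p m (Kf (comp H E).fixingSubgroup) → ψ.range := fun x => ⟨rext _ L x, hψ x⟩
  have hf : Function.Injective f := fun x y hxy => rext_inj _ hd (congrArg Subtype.val hxy)
  rw [rayBd_iff]
  refine ⟨Finite.of_injective f hf, (Nat.card_le_card_of_injective f hf).trans ?_⟩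
  refine (Nat.card_le_card_of_surjective ψ.rangeRestrict ψ.rangeRestrict_surjective).trans ?_
  rw [Nat.card_pi, Fintype.prod_prod_type, ← Finset.prod_pow]
  refine Finset.prod_le_prod' fun i _ => ?_
  change ∏ _y : (F ≃ₐ[ℚ] F), Nat.card (RM p m (Kf (comp (D i) E).fixingSubgroup)) ≤ _
  rw [Finset.prod_const, Finset.card_univ, ← Nat.card_eq_fintype_card]
  exact Nat.pow_le_pow_left ((rayBd_iff _).1 (hC' i)).2 _

end bound

theorem rayBd_dom_cx {p m : ℕ} [hp : Fact p.Prime] (F E : IntermediateField ℚ ℂ) [NumberField F]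
    [NumberField ↥(F ⊔ E)] [FiniteDimensional ℚ E] [IsGalois ℚ E] (n : ℕ) (hn : Module.finrank ℚ E = p ^ n)
    {ι : Type} [Fintype ι] (H : Subgroup (F ≃ₐ[ℚ] F)) (D : ι → Subgroup (F ≃ₐ[ℚ] F))
    [NumberField ↥(fx F H ⊔ E)] [∀ i, NumberField ↥(fx F (D i) ⊔ E)]
    (hH : ¬ p ∣ Nat.card H) (hD : ∀ i, ¬ p ∣ Nat.card (D i)) (hdom : Dominates p H D) (C : ι → ℕ)
    (hC : ∀ i, RayBd p m (C i) ↥(fx F (D i) ⊔ E)) :
    RayBd p m ((∏ i, C i) ^ Nat.card (F ≃ₐ[ℚ] F)) ↥(fx F H ⊔ E) := by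
  obtain ⟨i1, E', i2, h1, h2, h3, h4⟩ := exists_setup' F E
  exact (rayBd_congr_set hp.out (h2 H)).1 (rayBd_dom (p := p) E' H D h1 h3
    (fun x => ⟨n, by rw [← hn]; exact h4 x⟩) hH hD hdom C fun i => (rayBd_congr_set hp.out (h2 (D i))).2 (hC i))

end Pool.Agent.X310.Mu
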