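import Pool.Agent.X310.MuKey

set_option autoImplicit false
set_option linter.style.haveILetI false

namespace Pool.Agent.X310.Mu

theorem dom_core {p : ℕ} (hp : p.Prime) {G Γ P M A : Type} [Group G] [Finite G] [Group Γ] [Fintype Γ]
    [Group P] [CommGroup M] [Finite M] [CommGroup A] (a : G →* MulAut M) (π : G →* Γ) (ρ : G →* P)
    (hπ : Function.Surjective π) (hinj : ∀ g, π g = 1 → ρ g = 1 → g = 1) (hP : ∀ x : P, ∃ k, x ^ p ^ k = 1)
    {ι : Type} [Fintype ι] (H : Subgroup Γ) (D : ι → Subgroup Γ) (hH : ¬ p ∣ Nat.card H)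
    (hD : ∀ i, ¬ p ∣ Nat.card (D i)) (hdom : Dominates p H D)
    (R : ι → Type) [∀ i, CommGroup (R i)] (r : ∀ i, R i →* M)
    (hR : ∀ i x, nm a (hat π ρ (D i)) x ∈ (r i).range)
    (f : A →* M) (hf : ∀ g ∈ hat π ρ H, ∀ x, a g (f x) = f x) :
    ∃ ψ : ((j : ι × Γ) → R j.1) →* M, ∀ x : A, ∃ n, ¬ p ∣ n ∧ f x ^ n ∈ ψ.range := by
  classical
  let W : Subgroup M := Subgroup.closure {c | ∃ g i x, c = a g (nm a (hat π ρ (D i)) x)}
  have hWst : ∀ g, ∀ w ∈ W, a g w ∈ W := by
    intro g w hw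
    refine Subgroup.closure_induction (p := fun w _ => a g w ∈ W) ?_ ?_ ?_ ?_ hw
    · rintro _ ⟨g', i, x, rfl⟩
      apply Subgroup.subset_closure
      refine ⟨g * g', i, x, ?_⟩
      rw [map_mul, MulAut.mul_apply]
    · rw [map_one]
      exact one_mem _
    · intro x y _ _ hx hy
      rw [map_mul]
      exact mul_mem hx hy
    · intro x _ hx
      rw [map_inv]
      exact inv_mem hx
  have hWN : ∀ i x, nm a (hat π ρ (D i)) x ∈ W := by
    intro i x
    apply Subgroup.subset_closure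
    refine ⟨1, i, x, ?_⟩
    rw [map_one, MulAut.one_apply]
  choose s hs using hπ
  let B := ((j : ι × Γ) → R j.1)
  let ψ : B →* M :=
    { toFun := fun c => ∏ j, a (s j.2) (r j.1 (c j))
      map_one' := Finset.prod_eq_one fun j _ => by
        change a (s j.2) (r j.1 1) = 1
        rw [map_one, map_one]
      map_mul' := fun c d => (Finset.prod_congr rfl fun j _ => by
        change a (s j.2) (r j.1 (c j * d j)) = _
        rw [map_mul, map_mul]).trans Finset.prod_mul_distrib }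
  have hWψ : W ≤ ψ.range := by
    rw [Subgroup.closure_le]
    rintro _ ⟨g, i, x, rfl⟩
    have h1 : a g (nm a (hat π ρ (D i)) x) =
        a (s (π g)) (nm a (hat π ρ (D i)) (a ((s (π g))⁻¹ * g) x)) := by
      rw [← nm_comm]
      · rw [← MulAut.mul_apply, ← map_mul, mul_inv_cancel_left]
      · intro σ hσ
        exact ker_comm _ _ hinj (by rw [map_mul, map_inv, hs, inv_mul_cancel]) hσ.2
    rw [h1]
    obtain ⟨c, hc⟩ := hR i (a ((s (π g))⁻¹ * g) x)
    rw [← hc]
    refine ⟨Pi.mulSingle (i, π g) c, ?_⟩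
    change ∏ j, a (s j.2) (r j.1 ((Pi.mulSingle (i, π g) c : B) j)) = _
    rw [Finset.prod_eq_single (i, π g)]
    · rw [Pi.mulSingle_eq_same]
    · intro j _ hj
      rw [Pi.mulSingle_eq_of_ne hj, map_one, map_one]
    · intro hj
      exact absurd (Finset.mem_univ _) hj
  refine ⟨ψ, fun x => ?_⟩
  obtain ⟨n, hn, hnW⟩ := key hp a π ρ (fun γ => ⟨s γ, hs γ⟩) hinj hP H D hH hD hdom W hWst hWN (f x)
  refine ⟨Nat.card (hat π ρ H) * n, ?_, ?_⟩
  · rw [hp.dvd_mul, not_or]
    exact ⟨card_hat _ _ hinj hp H hH, hn⟩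
  · apply hWψ
    rw [pow_mul, ← nm_of_fix a (hat π ρ H)]
    · exact hnW
    · intro g hg
      exact hf g hg x

/-- The number of elements of order dividing `p`. -/
noncomputable def tor (p : ℕ) (X : Type) [CommGroup X] : ℕ := Nat.card {x : X // x ^ p = 1}

section
variable {p : ℕ} {X B : Type} [CommGroup X] [Finite X] [CommGroup B] [Finite B]

theorem tor_eq_index : tor p X = (powMonoidHom p : X →* X).range.index := by
  have h1 := Subgroup.card_mul_index (powMonoidHom p : X →* X).ker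
  have h2 := Subgroup.card_mul_index (powMonoidHom p : X →* X).range
  rw [Subgroup.index_ker] at h1
  have h3 : tor p X = Nat.card (powMonoidHom p : X →* X).ker := rfl
  rw [h3]
  have hpos : 0 < Nat.card (powMonoidHom p : X →* X).range := Nat.card_pos
  apply Nat.eq_of_mul_eq_mul_left hpos
  rw [h2, ← h1, mul_comm]

theorem tor_le_of_surj (g : B →* X) (hg : Function.Surjective g) : tor p X ≤ tor p B := by
  rw [tor_eq_index, tor_eq_index]
  let q : X →* X ⧸ (powMonoidHom p : X →* X).range := QuotientGroup.mk' _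
  have hs : Function.Surjective (q.comp g) := (QuotientGroup.mk'_surjective _).comp hg
  have h1 : (powMonoidHom p : X →* X).range.index = (q.comp g).ker.index := by
    rw [Subgroup.index_ker]
    have : (q.comp g).range = ⊤ := MonoidHom.range_eq_top.2 hs
    rw [this, Subgroup.card_top]
    rfl
  rw [h1]
  have h2 : (powMonoidHom p : B →* B).range ≤ (q.comp g).ker := by
    rintro _ ⟨b, rfl⟩
    rw [MonoidHom.mem_ker]
    change q (g (b ^ p)) = 1
    rw [map_pow]
    exact (QuotientGroup.eq_one_iff _).2 ⟨g b, rfl⟩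
  exact Nat.le_of_dvd (Nat.pos_of_ne_zero Subgroup.index_ne_zero_of_finite) (Subgroup.index_dvd_of_le h2)

theorem tor_pi {ι : Type} [Fintype ι] (R : ι → Type) [∀ i, CommGroup (R i)] :
    tor p ((i : ι) → R i) = ∏ i, tor p (R i) := by
  unfold tor
  rw [← Nat.card_pi]
  refine Nat.card_congr ?_
  exact
    { toFun := fun g i => ⟨g.1 i, congrFun g.2 i⟩
      invFun := fun f => ⟨fun i => (f i).1, funext fun i => (f i).2⟩
      left_inv := fun g => rfl
      right_inv := fun f => rfl }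

theorem tor_le_map (hp : p.Prime) {M : Type} [CommGroup M] (f : X →* M)
    (hk : ∀ x, f x = 1 → ∃ n, ¬ p ∣ n ∧ x ^ n = 1) (ψ : B →* M)
    (h : ∀ x, ∃ n, ¬ p ∣ n ∧ f x ^ n ∈ ψ.range) : tor p X ≤ tor p B := by
  have h1 : ∀ x : X, x ^ p = 1 → f x ∈ ψ.range := by
    intro x hx
    obtain ⟨n, hn, hnR⟩ := h x
    have hcop : IsCoprime (n : ℤ) (p : ℤ) := by
      rw [Nat.isCoprime_iff_coprime]
      exact ((Nat.Prime.coprime_iff_not_dvd hp).2 hn).symm
    obtain ⟨u, v, huv⟩ := hcop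
    have h2 : f x = (f x ^ n) ^ u := by
      have h3 : f x ^ p = 1 := by rw [← map_pow, hx, map_one]
      calc f x = f x ^ (u * n + v * p : ℤ) := by rw [huv, zpow_one]
        _ = (f x ^ n) ^ u := by
          rw [zpow_add, mul_comm u, mul_comm v, zpow_mul, zpow_mul, zpow_natCast, zpow_natCast, h3, one_zpow,
            mul_one]
    rw [h2]
    exact zpow_mem hnR u
  haveI : Finite ψ.range := Finite.of_surjective ψ.rangeRestrict ψ.rangeRestrict_surjective
  refine le_trans ?_ (tor_le_of_surj ψ.rangeRestrict ψ.rangeRestrict_surjective)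
  let F : {x : X // x ^ p = 1} → {y : ψ.range // y ^ p = 1} := fun x =>
    ⟨⟨f x.1, h1 x.1 x.2⟩, Subtype.ext (by
      change f x.1 ^ p = 1
      rw [← map_pow, x.2, map_one])⟩
  refine Nat.card_le_card_of_injective F ?_
  intro x y hxy
  have h2 : f x.1 = f y.1 := congrArg (fun z => ((z.1 : ψ.range) : M)) hxy
  apply Subtype.ext
  rw [← mul_inv_eq_one]
  obtain ⟨n, hn, hn1⟩ := hk (x.1 * y.1⁻¹) (by rw [map_mul, map_inv, h2, mul_inv_cancel])
  exact eq_one_of_cop hp hn (by rw [mul_pow, inv_pow, x.2, y.2, inv_one, mul_one]) hn1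

end

theorem tor_dom {p : ℕ} (hp : p.Prime) {G Γ P M A : Type} [Group G] [Finite G] [Group Γ] [Finite Γ]
    [Group P] [CommGroup M] [Finite M] [CommGroup A] [Finite A] (a : G →* MulAut M) (π : G →* Γ) (ρ : G →* P)
    (hπ : Function.Surjective π) (hinj : ∀ g, π g = 1 → ρ g = 1 → g = 1) (hP : ∀ x : P, ∃ k, x ^ p ^ k = 1)
    {ι : Type} [Fintype ι] (H : Subgroup Γ) (D : ι → Subgroup Γ) (hH : ¬ p ∣ Nat.card H)
    (hD : ∀ i, ¬ p ∣ Nat.card (D i)) (hdom : Dominates p H D)
    (R : ι → Type) [∀ i, CommGroup (R i)] [∀ i, Finite (R i)] (r : ∀ i, R i →* M)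
    (hR : ∀ i x, nm a (hat π ρ (D i)) x ∈ (r i).range)
    (f : A →* M) (hf : ∀ g ∈ hat π ρ H, ∀ x, a g (f x) = f x)
    (hk : ∀ x, f x = 1 → ∃ n, ¬ p ∣ n ∧ x ^ n = 1) :
    tor p A ≤ (∏ i, tor p (R i)) ^ Nat.card Γ := by
  haveI : Fintype Γ := Fintype.ofFinite _
  obtain ⟨ψ, hψ⟩ := dom_core hp a π ρ hπ hinj hP H D hH hD hdom R r hR f hf
  refine (tor_le_map hp f hk ψ hψ).trans (le_of_eq ?_)
  rw [tor_pi, Fintype.prod_prod_type, ← Finset.prod_pow]
  refine Finset.prod_congr rfl fun i _ => ?_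
  change ∏ _y : Γ, tor p (R i) = _
  rw [Finset.prod_const, Finset.card_univ, ← Nat.card_eq_fintype_card]

end Pool.Agent.X310.Mu
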