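import Pool.Agent.X310.MuCx
import Pool.Agent.X310.MuTor

set_option autoImplicit false
set_option linter.unusedSectionVars false
set_option linter.style.haveILetI false

namespace Pool.Agent.X310.Mu

open NumberField Ideal Pool.Agent.H471R2 IntermediateField Pool.Agent.X27.Cln

section
variable {p : ℕ} [hp : Fact p.Prime]
variable {F L : Type} [Field F] [NumberField F] [Field L] [NumberField L] [Algebra F L]
variable (E : IntermediateField ℚ L) [Normal ℚ E]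

theorem act_Sp (g : stab F L) (c : ClassGroup (𝓞 L)) (hc : c ∈ Sp p L) : act F g c ∈ Sp p L := by
  rw [mem_Sp_iff] at hc ⊢
  obtain ⟨n, J, h, hd, rfl⟩ := hc
  refine ⟨n, ia g.1 J, ia_ne_bot g.1 h, ?_, ?_⟩
  · obtain ⟨I, hI⟩ := hd
    refine ⟨ia g.1 I, ?_⟩
    rw [← ia_mul, ← hI, ia_pow, ia_span, map_natCast]
  · rw [act_apply, ca_cl]

theorem nm_qact {G M : Type} [Group G] [Finite G] [CommGroup M] (a : G →* MulAut M) (A : Subgroup M)
    (hA : ∀ g, ∀ w ∈ A, a g w ∈ A) (D : Subgroup G) (x : M) :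
    nm (qact a A hA) D (QuotientGroup.mk' A x) = QuotientGroup.mk' A (nm a D x) := by
  classical
  haveI : Fintype D := Fintype.ofFinite D
  rw [nm_eq, nm_eq, map_prod]
  rfl

theorem rk_dom {ι : Type} [Fintype ι] (H : Subgroup (F ≃ₐ[ℚ] F)) (D : ι → Subgroup (F ≃ₐ[ℚ] F))
    (h : (emb F L).fieldRange ⊔ E = ⊤)
    (hlift : ∀ γ : F ≃ₐ[ℚ] F, ∃ g : L ≃ₐ[ℚ] L, ∀ x : F, g (algebraMap F L x) = algebraMap F L (γ x))
    (hE : ∀ x : E ≃ₐ[ℚ] E, ∃ k, x ^ p ^ k = 1) (hH : ¬ p ∣ Nat.card H) (hD : ∀ i, ¬ p ∣ Nat.card (D i))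
    (hdom : Dominates p H D) :
    rk p (comp H E) ≤ (∏ i, rk p (comp (D i) E)) ^ Nat.card (F ≃ₐ[ℚ] F) := by
  have hπ : Function.Surjective (resF F L) := by
    intro γ
    obtain ⟨g, hg⟩ := hlift γ
    exact ⟨⟨g, γ, hg⟩, resF_eq _ γ hg⟩
  have h1 := tor_dom hp.out (qact (act F) (Sp p L) act_Sp) (resF F L) (resE F E) hπ (res_inj F E h) hE H D hH hD
    hdom (fun i => ClassGroup (𝓞 (comp (D i) E)) ⧸ Sp p (comp (D i) E)) (fun i => extq (comp (D i) E)) ?_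
    (extq (comp H E)) ?_ ?_
  · exact h1
  · intro i x
    obtain ⟨c, rfl⟩ := QuotientGroup.mk'_surjective _ x
    rw [nm_qact]
    obtain ⟨c', hc'⟩ := img_comp F E (D i) h _ (nm_mem_img F E (D i) c)
    rw [← hc']
    exact ⟨QuotientGroup.mk' _ c', rfl⟩
  · intro g hg x
    obtain ⟨c, rfl⟩ := QuotientGroup.mk'_surjective _ x
    have h1 : g.1 ∈ (comp H E).fixingSubgroup := by
      rw [← hat_map F E H]
      exact ⟨g, hg, rfl⟩
    change QuotientGroup.mk' (Sp p L) (act F g (ClassGroup.extendedHom (𝓞 (comp H E)) (𝓞 L) c)) =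
      QuotientGroup.mk' (Sp p L) (ClassGroup.extendedHom (𝓞 (comp H E)) (𝓞 L) c)
    rw [act_apply, ca_ext _ _ ((IntermediateField.mem_fixingSubgroup_iff _ _).1 h1)]
  · intro x hx
    refine ⟨_, not_dvd_comp H E h hH, ?_⟩
    obtain ⟨c, rfl⟩ := QuotientGroup.mk'_surjective _ x
    rw [← map_pow, QuotientGroup.mk'_apply, QuotientGroup.eq_one_iff]
    apply norm_back (L := L)
    have h5 : ((ClassGroup.extendedHom (𝓞 (comp H E)) (𝓞 L) c : ClassGroup (𝓞 L)) :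
      ClassGroup (𝓞 L) ⧸ Sp p L) = 1 := hx
    rwa [QuotientGroup.eq_one_iff] at h5

end

theorem rk_dom_cx {p : ℕ} [hp : Fact p.Prime] (F E : IntermediateField ℚ ℂ) [NumberField F]
    [NumberField ↥(F ⊔ E)] [FiniteDimensional ℚ E] [IsGalois ℚ E] (m : ℕ) (hm : Module.finrank ℚ E = p ^ m)
    {ι : Type} [Fintype ι] (H : Subgroup (F ≃ₐ[ℚ] F)) (D : ι → Subgroup (F ≃ₐ[ℚ] F))
    [NumberField ↥(fx F H ⊔ E)] [∀ i, NumberField ↥(fx F (D i) ⊔ E)]
    (hH : ¬ p ∣ Nat.card H) (hD : ∀ i, ¬ p ∣ Nat.card (D i)) (hdom : Dominates p H D) :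
    rk p ↥(fx F H ⊔ E) ≤ (∏ i, rk p ↥(fx F (D i) ⊔ E)) ^ Nat.card (F ≃ₐ[ℚ] F) := by
  obtain ⟨i1, E', i2, h1, h2, h3, h4⟩ := exists_setup' F E
  have h5 := rk_dom (p := p) E' H D h1 h3 (fun x => ⟨m, by rw [← hm]; exact h4 x⟩) hH hD hdom
  have h6 : ∏ i, rk p (comp (D i) E') = ∏ i, rk p ↥(fx F (D i) ⊔ E) :=
    Finset.prod_congr rfl fun i _ => rk_congr_set (h2 (D i))
  rw [rk_congr_set (h2 H), h6] at h5
  exact h5

end Pool.Agent.X310.Mu
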