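import Pool.Agent.X310.MzDefs

namespace Pool.Agent.X310.Mz

open Polynomial

section domain

variable {R : Type*} [CommRing R] [IsDomain R]

theorem eval_one_reverse (H : R[X]) : H.reverse.eval 1 = H.eval 1 := by
  letI : Invertible (1 : R) := invertibleOne
  have h := eval₂_reverse_mul_pow (RingHom.id R) (1 : R) H
  simpa [eval₂_id, invOf_one] using h

theorem reverse_X_sub_one : (X - 1 : R[X]).reverse = -(X - 1) := by
  have h0 : (X - 1 : R[X]) = X - C 1 := by rw [C_1]
  have hd : (X - 1 : R[X]).natDegree = 1 := by rw [h0, natDegree_X_sub_C]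
  ext n
  rw [coeff_reverse, hd]
  rcases n with _ | _ | n
  · rw [revAt_le (by norm_num)]
    simp [coeff_X, coeff_one]
  · rw [revAt_le (by norm_num)]
    simp [coeff_X, coeff_one]
  · rw [revAt_eq_self_of_lt (by omega)]
    simp [coeff_X, coeff_one]

theorem sign_eq {F : R[X]} (hF : F ≠ 0) {c : R} (h : F.reverse = C c * F) :
    c = (-1) ^ (F.rootMultiplicity 1) := by
  obtain ⟨H, hH, hnd⟩ := exists_eq_pow_rootMultiplicity_mul_and_not_dvd F hF 1
  set r := F.rootMultiplicity 1
  have hH1 : H.eval 1 ≠ 0 := by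
    intro h1
    exact hnd (dvd_iff_isRoot.2 h1)
  rw [C_1] at hH
  have e1 : F.reverse = (-1) ^ r * ((X - 1) ^ r * H.reverse) := by
    rw [hH, reverse_mul_of_domain]
    have e2 : ((X - 1 : R[X]) ^ r).reverse = (-1) ^ r * (X - 1) ^ r := by
      have : ∀ m : ℕ, ((X - 1 : R[X]) ^ m).reverse = (-1) ^ m * (X - 1) ^ m := by
        intro m
        induction m with
        | zero => rw [pow_zero, pow_zero, one_mul, ← C_1, reverse_C]
        | succ m ih => rw [pow_succ, reverse_mul_of_domain, ih, reverse_X_sub_one]; ring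
      exact this r
    rw [e2]
    ring
  rw [e1] at h
  have hX : (X - 1 : R[X]) ^ r ≠ 0 := by
    apply pow_ne_zero
    have h0 : (X - 1 : R[X]) = X - C 1 := by rw [C_1]
    rw [h0]
    exact X_sub_C_ne_zero 1
  have h2 : (X - 1 : R[X]) ^ r * ((-1) ^ r * H.reverse) = (X - 1) ^ r * (C c * H) := by
    have : C c * F = (X - 1) ^ r * (C c * H) := by rw [hH]; ring
    rw [← this, ← h]
    ring
  have h3 := mul_left_cancel₀ hX h2
  have h4 := congrArg (eval 1) h3
  rw [eval_mul, eval_mul, eval_C, eval_one_reverse] at h4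
  have h5 : eval 1 ((-1 : R[X]) ^ r) = (-1) ^ r := by simp
  rw [h5] at h4
  exact (mul_right_cancel₀ hH1 h4).symm

end domain

variable {p : ℕ} [hpf : Fact p.Prime]

theorem toZMod_eq_zero (a : ℤ_[p]) : PadicInt.toZMod a = 0 ↔ (p : ℤ_[p]) ∣ a := by
  rw [← RingHom.mem_ker, PadicInt.ker_toZMod, PadicInt.maximalIdeal_eq_span_p,
    Ideal.mem_span_singleton]

theorem map_eq {f : ℤ_[p][X]} (hf : Distinguished f) :
    f.map PadicInt.toZMod = X ^ f.natDegree := by
  ext i
  rw [coeff_map, coeff_X_pow]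
  rcases lt_trichotomy i f.natDegree with h | h | h
  · rw [if_neg h.ne, toZMod_eq_zero]
    exact hf.2 i h
  · rw [if_pos h, h, hf.1.coeff_natDegree, map_one]
  · rw [if_neg h.ne', coeff_eq_zero_of_natDegree_lt h, map_zero]

theorem dist_of_map {f : ℤ_[p][X]} (hm : f.Monic) {n : ℕ}
    (h : f.map PadicInt.toZMod = X ^ n) : Distinguished f := by
  refine ⟨hm, fun i hi => ?_⟩
  have hn : f.natDegree = n := by
    have := hm.natDegree_map PadicInt.toZMod
    rw [← this, h, natDegree_X_pow]
  rw [← toZMod_eq_zero, ← coeff_map, h, coeff_X_pow, if_neg]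
  rw [← hn]
  exact hi.ne

theorem natDegree_shift (f : ℤ_[p][X]) : (f.comp (X - 1)).natDegree = f.natDegree := by
  rw [natDegree_comp]
  have h0 : (X - 1 : ℤ_[p][X]) = X - C 1 := by rw [C_1]
  rw [h0, natDegree_X_sub_C, mul_one]

theorem monic_shift {f : ℤ_[p][X]} (hf : f.Monic) : (f.comp (X - 1)).Monic := by
  have h0 : (X - 1 : ℤ_[p][X]) = X - C 1 := by rw [C_1]
  rw [h0]
  exact hf.comp (monic_X_sub_C 1) (by rw [natDegree_X_sub_C]; exact one_ne_zero)

theorem rootMult_shift (f : ℤ_[p][X]) :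
    (f.comp (X - 1)).rootMultiplicity 1 = f.rootMultiplicity 0 := by
  rw [rootMultiplicity_eq_rootMultiplicity (p := f.comp (X - 1)) (t := 1), comp_assoc]
  simp

/-- the constant in the functional equation. -/
theorem const_eq (hp : p ≠ 2) {f : ℤ_[p][X]} (hf : Distinguished f) {c : ℤ_[p]}
    (h : (f.comp (X - 1)).reverse = C c * f.comp (X - 1)) :
    c = (-1) ^ (f.rootMultiplicity 0) ∧ Even (f.natDegree + f.rootMultiplicity 0) := by
  have hF := monic_shift hf.1
  have h1 := sign_eq hF.ne_zero h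
  rw [rootMult_shift] at h1
  refine ⟨h1, ?_⟩
  -- compare constant coefficients
  have h2 : (f.comp (X - 1)).reverse.coeff 0 = 1 := by
    rw [coeff_zero_reverse]
    exact hF
  have h3 : (1 : ℤ_[p]) = c * f.eval (-1) := by
    conv_lhs => rw [← h2, h, coeff_C_mul, coeff_zero_eq_eval_zero, eval_comp]
    simp
  have h4 : PadicInt.toZMod (f.eval (-1)) = (-1) ^ f.natDegree := by
    have : PadicInt.toZMod (f.eval (-1)) = (f.map PadicInt.toZMod).eval (-1) := by
      rw [eval_map, ← eval₂_hom]
      simp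
    rw [this, map_eq hf]
    simp
  have h5 := congrArg PadicInt.toZMod h3
  rw [map_one, map_mul, h4, h1, map_pow, map_neg, map_one, ← pow_add] at h5
  rcases Nat.even_or_odd (f.rootMultiplicity 0 + f.natDegree) with he | ho
  · rwa [add_comm] at he
  · exfalso
    rw [ho.neg_one_pow] at h5
    have h6 : ((2 : ℕ) : ZMod p) = 0 := by
      push_cast
      linear_combination h5
    rw [ZMod.natCast_eq_zero_iff] at h6
    exact hp ((Nat.prime_dvd_prime_iff_eq hpf.out Nat.prime_two).1 h6)

theorem struct_aux (hp : p ≠ 2) (k : ℕ) : ∀ u : ℤ_[p][X], Distinguished u →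
    FunctionalEquation u → u.natDegree = 2 * k →
    ∃ b : ℕ → ℤ_[p], (∀ j, (p : ℤ_[p]) ∣ b j) ∧
      u = X ^ (2 * k) + ∑ j ∈ Finset.range k, C (b j) * (X ^ (2 * j) * (X + 1) ^ (k - j)) := by
  induction k with
  | zero =>
    intro u hu _ hd
    refine ⟨fun _ => 0, fun _ => dvd_zero _, ?_⟩
    simp only [mul_zero, pow_zero, Finset.range_zero, Finset.sum_empty, add_zero]
    exact hu.1.natDegree_eq_zero.1 (by simpa using hd)
  | succ k ih =>
    intro u hu hfe hd
    obtain ⟨c, hc⟩ := hfe
    obtain ⟨hc1, hev⟩ := const_eq hp hu hc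
    have hc2 : c = 1 := by
      rw [hc1]
      have : Even (u.rootMultiplicity 0) := by
        rw [hd] at hev
        have h2 : Even (2 * (k + 1)) := even_two_mul _
        exact (Nat.even_add.1 hev).1 h2
      exact this.neg_one_pow
    have hrev : (u.comp (X - 1)).reverse = u.comp (X - 1) := by rw [hc, hc2, C_1, one_mul]
    set b0 := u.coeff 0 with hb0
    have hb0p : (p : ℤ_[p]) ∣ b0 := hu.2 0 (by rw [hd]; omega)
    obtain ⟨w, hw⟩ : ∃ w : ℤ_[p][X], w = u - C b0 * (X + 1) ^ (k + 1) := ⟨_, rfl⟩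
    have hX1 : (X + 1 : ℤ_[p][X]) = X + C 1 := by rw [C_1]
    have hdeg1 : ((X + 1 : ℤ_[p][X]) ^ (k + 1)).natDegree = k + 1 := by
      rw [hX1, natDegree_pow, natDegree_X_add_C, mul_one]
    have hlt : (C b0 * (X + 1 : ℤ_[p][X]) ^ (k + 1)).natDegree < u.natDegree := by
      refine lt_of_le_of_lt (natDegree_C_mul_le _ _) ?_
      rw [hdeg1, hd]; omega
    have hwd : w.natDegree = 2 * (k + 1) := by
      rw [hw, natDegree_sub_eq_left_of_natDegree_lt hlt, hd]
    have hwm : w.Monic := by
      rw [hw]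
      exact hu.1.sub_of_left (by
        rw [degree_eq_natDegree hu.1.ne_zero]
        by_cases h0 : (C b0 * (X + 1 : ℤ_[p][X]) ^ (k + 1)) = 0
        · rw [h0, degree_zero]; exact WithBot.bot_lt_coe _
        · rw [degree_eq_natDegree h0]; exact_mod_cast hlt)
    have hwc : w.comp (X - 1) = u.comp (X - 1) - C b0 * X ^ (k + 1) := by
      rw [hw]
      simp
    have hWd : (w.comp (X - 1)).natDegree = 2 * (k + 1) := by rw [natDegree_shift, hwd]
    have hwrev : (w.comp (X - 1)).reverse = w.comp (X - 1) := by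
      have h1 : (w.comp (X - 1)).reverse = reflect (2 * (k + 1)) (w.comp (X - 1)) := by
        rw [reverse, hWd]
      have h2 : reflect (2 * (k + 1)) (u.comp (X - 1)) = u.comp (X - 1) := by
        have : (u.comp (X - 1)).reverse = reflect (2 * (k + 1)) (u.comp (X - 1)) := by
          rw [reverse, natDegree_shift, hd]
        rw [← this, hrev]
      have h3 : reflect (2 * (k + 1)) (C b0 * X ^ (k + 1)) = C b0 * (X : ℤ_[p][X]) ^ (k + 1) := by
        rw [reflect_C_mul_X_pow, revAt_le (by omega)]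
        congr 2
        omega
      rw [h1, hwc, reflect_sub, h2, h3]
    have hw0 : w.coeff 0 = 0 := by
      rw [hw, coeff_sub, coeff_C_mul, coeff_zero_eq_eval_zero ((X + 1) ^ (k + 1))]
      simp [hb0]
    have hroot : 2 ≤ w.rootMultiplicity 0 := by
      have h1 : 0 < w.rootMultiplicity 0 := by
        rw [rootMultiplicity_pos hwm.ne_zero, IsRoot.def, ← coeff_zero_eq_eval_zero, hw0]
      have h2 := sign_eq (monic_shift hwm).ne_zero (c := 1) (by rw [hwrev, C_1, one_mul])
      rw [rootMult_shift] at h2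
      have h3 : Even (w.rootMultiplicity 0) := by
        by_contra h
        rw [Nat.not_even_iff_odd] at h
        rw [h.neg_one_pow] at h2
        have : (2 : ℤ_[p]) = 0 := by linear_combination h2
        exact two_ne_zero this
      obtain ⟨m, hm⟩ := h3
      omega
    have hdvd : (X : ℤ_[p][X]) ^ 2 ∣ w := by
      have h1 := (le_rootMultiplicity_iff hwm.ne_zero).1 hroot
      simpa using h1
    obtain ⟨u', hu'⟩ := hdvd
    have hu'm : u'.Monic := by
      have : ((X : ℤ_[p][X]) ^ 2 * u').Monic := hu' ▸ hwm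
      exact (monic_X_pow 2).of_mul_monic_left this
    have hu'd : u'.natDegree = 2 * k := by
      have h1 : w.natDegree = 2 + u'.natDegree := by
        rw [hu', (monic_X_pow 2).natDegree_mul hu'm, natDegree_X_pow]
      omega
    have hu'dist : Distinguished u' := by
      refine ⟨hu'm, fun i hi => ?_⟩
      have h1 : u'.coeff i = w.coeff (i + 2) := by
        rw [hu', mul_comm, coeff_mul_X_pow]
      rw [h1, hw, coeff_sub, coeff_C_mul]
      exact dvd_sub (hu.2 _ (by rw [hd]; omega)) (hb0p.mul_right _)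
    have hu'fe : (u'.comp (X - 1)).reverse = C 1 * u'.comp (X - 1) := by
      have h1 : w.comp (X - 1) = (X - 1) ^ 2 * u'.comp (X - 1) := by
        rw [hu', mul_comp, X_pow_comp]
      have h2 := hwrev
      rw [h1, reverse_mul_of_domain, pow_two, reverse_mul_of_domain, reverse_X_sub_one,
        neg_mul_neg] at h2
      have h0 : (X - 1 : ℤ_[p][X]) = X - C 1 := by rw [C_1]
      have hne : ((X - 1 : ℤ_[p][X]) * (X - 1)) ≠ 0 := by
        rw [h0]
        exact mul_ne_zero (X_sub_C_ne_zero 1) (X_sub_C_ne_zero 1)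
      rw [C_1, one_mul]
      exact mul_left_cancel₀ hne h2
    obtain ⟨b', hb', hsum⟩ := ih u' hu'dist ⟨1, hu'fe⟩ hu'd
    refine ⟨fun j => if j = 0 then b0 else b' (j - 1), ?_, ?_⟩
    · intro j
      by_cases hj : j = 0
      · simp only [hj, if_true]; exact hb0p
      · simp only [hj, if_false]; exact hb' _
    · have h1 : u = C b0 * (X + 1) ^ (k + 1) + X ^ 2 * u' := by
        rw [← hu', hw]; ring
      rw [Finset.sum_range_succ']
      simp only [Nat.add_eq_zero_iff, one_ne_zero, and_false, if_false, Nat.add_sub_cancel,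
        if_true, mul_zero, pow_zero, one_mul, Nat.sub_zero]
      rw [h1, hsum, mul_add, Finset.mul_sum]
      have h2 : ∀ j ∈ Finset.range k, X ^ 2 * (C (b' j) * (X ^ (2 * j) * (X + 1) ^ (k - j)))
          = C (b' j) * ((X : ℤ_[p][X]) ^ (2 * (j + 1)) * (X + 1) ^ (k + 1 - (j + 1))) := by
        intro j _
        rw [Nat.add_sub_add_right]
        ring
      rw [Finset.sum_congr rfl h2]
      ring

end Pool.Agent.X310.Mz
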