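import Pool.Agent.X310.Mz

namespace Pool.Agent.X310.Mz

open Polynomial

variable {p : ℕ} [hpf : Fact p.Prime]

/-- the quotient of distinguished polynomials is distinguished -/
theorem dist_quot {f u : ℤ_[p][X]} (hf : Distinguished f) (hg : Distinguished (f * u)) :
    Distinguished u := by
  have hum : u.Monic := hf.1.of_mul_monic_left hg.1
  have h1 := map_eq hg
  rw [Polynomial.map_mul, map_eq hf, hf.1.natDegree_mul hum, pow_add] at h1
  have h2 := mul_left_cancel₀ (pow_ne_zero _ X_ne_zero) h1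
  exact dist_of_map hum h2

theorem fe_quot {f u : ℤ_[p][X]} (hf : f.Monic) (hu : u.Monic)
    (hff : FunctionalEquation f) (hfg : FunctionalEquation (f * u)) (hp : p ≠ 2)
    (hfd : Distinguished f) : FunctionalEquation u := by
  obtain ⟨c, hc⟩ := hff
  obtain ⟨d, hd⟩ := hfg
  rw [mul_comp, reverse_mul_of_domain, hc] at hd
  have hc1 := (const_eq hp hfd hc).1
  have hcc : c * c = 1 := by
    rw [hc1, ← pow_add, ← two_mul, pow_mul]
    simp
  refine ⟨c * d, ?_⟩
  have hne : f.comp (X - 1) ≠ 0 := (monic_shift hf).ne_zero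
  apply mul_left_cancel₀ hne
  have h1 : C c * (C c * f.comp (X - 1) * (u.comp (X - 1)).reverse)
      = C c * (C d * (f.comp (X - 1) * u.comp (X - 1))) := by rw [hd]
  have h2 : C c * C c = (1 : ℤ_[p][X]) := by rw [← C_mul, hcc, C_1]
  calc f.comp (X - 1) * (u.comp (X - 1)).reverse
      = (C c * C c) * (f.comp (X - 1) * (u.comp (X - 1)).reverse) := by rw [h2, one_mul]
    _ = C c * (C c * f.comp (X - 1) * (u.comp (X - 1)).reverse) := by ring
    _ = C c * (C d * (f.comp (X - 1) * u.comp (X - 1))) := h1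
    _ = f.comp (X - 1) * (C (c * d) * u.comp (X - 1)) := by rw [C_mul]; ring

theorem structure_main (hp : p ≠ 2) {f g : ℤ_[p][X]} (hf : Distinguished f)
    (hg : Distinguished g) (hff : FunctionalEquation f) (hgg : FunctionalEquation g)
    (hdvd : f ∣ g) (hpar : Even (f.rootMultiplicity 0 + g.rootMultiplicity 0)) :
    ∃ k : ℕ, g.natDegree = f.natDegree + 2 * k ∧
      ∃ b : ℕ → ℤ_[p], (∀ j, (p : ℤ_[p]) ∣ b j) ∧
        g = f * (X ^ (2 * k) +
          ∑ j ∈ Finset.range k, C (b j) * (X ^ (2 * j) * (X + 1) ^ (k - j))) := by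
  obtain ⟨u, rfl⟩ := hdvd
  have hum : u.Monic := hf.1.of_mul_monic_left hg.1
  have hud := dist_quot hf hg
  have hufe := fe_quot hf.1 hum hff hgg hp hf
  obtain ⟨c, hc⟩ := hufe
  have h1 := (const_eq hp hud hc).2
  have h2 : (f * u).rootMultiplicity 0 = f.rootMultiplicity 0 + u.rootMultiplicity 0 :=
    rootMultiplicity_mul (mul_ne_zero hf.1.ne_zero hum.ne_zero)
  rw [h2] at hpar
  have h3 : Even (u.rootMultiplicity 0) := by
    have : f.rootMultiplicity 0 + (f.rootMultiplicity 0 + u.rootMultiplicity 0)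
        = 2 * f.rootMultiplicity 0 + u.rootMultiplicity 0 := by ring
    rw [this] at hpar
    exact (Nat.even_add.1 hpar).1 (even_two_mul _)
  have h4 : Even u.natDegree := (Nat.even_add.1 h1).2 h3
  obtain ⟨k, hk⟩ := h4
  have hk' : u.natDegree = 2 * k := by omega
  obtain ⟨b, hb, hu⟩ := struct_aux hp k u hud ⟨c, hc⟩ hk'
  refine ⟨k, ?_, b, hb, ?_⟩
  · rw [hf.1.natDegree_mul hum, hk']
  · rw [← hu]

theorem eq_of_small (hp : p ≠ 2) {f g : ℤ_[p][X]} (hf : Distinguished f)
    (hg : Distinguished g) (hff : FunctionalEquation f) (hgg : FunctionalEquation g)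
    (hdvd : f ∣ g) (hpar : Even (f.rootMultiplicity 0 + g.rootMultiplicity 0))
    (hdeg : g.natDegree ≤ f.natDegree + 1) : f = g := by
  obtain ⟨k, hk, b, _, h⟩ := structure_main hp hf hg hff hgg hdvd hpar
  have : k = 0 := by omega
  subst this
  simpa using h.symm

theorem cyc_eisenstein (m : ℕ) :
    Irreducible ((cyclotomic (p ^ (m + 1)) ℤ_[p]).comp (X + 1)) := by
  have hX : (X + 1 : ℤ_[p][X]) = X + C 1 := by rw [C_1]
  have hmonic : ((cyclotomic (p ^ (m + 1)) ℤ_[p]).comp (X + 1)).Monic := by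
    rw [hX]
    exact (cyclotomic.monic _ _).comp (monic_X_add_C 1) (by
      rw [natDegree_X_add_C]; exact one_ne_zero)
  have hmap : (cyclotomic (p ^ (m + 1)) ℤ_[p]).comp (X + 1)
      = ((cyclotomic (p ^ (m + 1)) ℤ).comp (X + 1)).map (Int.castRingHom ℤ_[p]) := by
    rw [Polynomial.map_comp, map_cyclotomic]
    simp
  have hE := cyclotomic_prime_pow_comp_X_add_one_isEisensteinAt p m
  have hdeg : ((cyclotomic (p ^ (m + 1)) ℤ_[p]).comp (X + 1)).natDegree
      = ((cyclotomic (p ^ (m + 1)) ℤ).comp (X + 1)).natDegree := by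
    rw [hmap]
    apply Monic.natDegree_map
    have hX' : (X + 1 : ℤ[X]) = X + C 1 := by rw [C_1]
    rw [hX']
    exact (cyclotomic.monic _ _).comp (monic_X_add_C 1) (by
      rw [natDegree_X_add_C]; exact one_ne_zero)
  have hpprime : Prime (p : ℤ_[p]) := PadicInt.prime_p
  have hEis : ((cyclotomic (p ^ (m + 1)) ℤ_[p]).comp (X + 1)).IsEisensteinAt
      (Ideal.span {(p : ℤ_[p])}) := by
    refine ⟨?_, ?_, ?_⟩
    · rw [hmonic.leadingCoeff, ← Ideal.eq_top_iff_one, Ideal.span_singleton_eq_top]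
      exact hpprime.not_unit
    · intro n hn
      rw [hdeg] at hn
      have h1 := hE.mem hn
      rw [hmap, coeff_map, Ideal.mem_span_singleton]
      have h2 : (p : ℤ) ∣ ((cyclotomic (p ^ (m + 1)) ℤ).comp (X + 1)).coeff n := by
        rwa [← Ideal.mem_span_singleton]
      obtain ⟨t, ht⟩ := h2
      rw [ht]
      exact ⟨(t : ℤ_[p]), by simp⟩
    · rw [coeff_zero_eq_eval_zero, eval_comp]
      have h1 : eval (eval 0 (X + 1)) (cyclotomic (p ^ (m + 1)) ℤ_[p]) = (p : ℤ_[p]) := by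
        have : eval (0 : ℤ_[p]) (X + 1) = 1 := by simp
        rw [this, eval_one_cyclotomic_prime_pow]
      rw [h1, Ideal.span_singleton_pow, Ideal.mem_span_singleton]
      intro h
      have h2 : (p : ℤ_[p]) * p ∣ p * 1 := by rwa [mul_one, ← pow_two]
      have h3 := (mul_dvd_mul_iff_left hpprime.ne_zero).1 h2
      exact hpprime.not_unit (isUnit_of_dvd_one h3)
  refine hEis.irreducible ?_ hmonic.isPrimitive ?_
  · exact (Ideal.span_singleton_prime hpprime.ne_zero).2 hpprime
  · rw [hX, natDegree_comp, natDegree_X_add_C, mul_one, natDegree_cyclotomic]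
    exact Nat.totient_pos.2 (pow_pos hpf.out.pos _)

theorem cyc_order (hp : p ≠ 2) {f g : ℤ_[p][X]} (hf : Distinguished f)
    (hg : Distinguished g) (hdvd : f ∣ g) (m n : ℕ)
    (hdeg : g.natDegree < f.natDegree + p ^ m * (p - 1)) :
    CyclotomicOrder f m n ↔ CyclotomicOrder g m n := by
  obtain ⟨u, rfl⟩ := hdvd
  have hum : u.Monic := hf.1.of_mul_monic_left hg.1
  have hirr := cyc_eisenstein (p := p) m
  have hprime : Prime ((cyclotomic (p ^ (m + 1)) ℤ_[p]).comp (X + 1)) := hirr.prime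
  have hX : (X + 1 : ℤ_[p][X]) = X + C 1 := by rw [C_1]
  have hdq : ((cyclotomic (p ^ (m + 1)) ℤ_[p]).comp (X + 1)).natDegree = p ^ m * (p - 1) := by
    rw [hX, natDegree_comp, natDegree_X_add_C, mul_one, natDegree_cyclotomic,
      Nat.totient_prime_pow_succ hpf.out]
  have hndvd : ¬ ((cyclotomic (p ^ (m + 1)) ℤ_[p]).comp (X + 1)) ∣ u := by
    intro h
    have h1 := natDegree_le_of_dvd h hum.ne_zero
    rw [hf.1.natDegree_mul hum] at hdeg
    omega
  have key : ∀ j : ℕ, ((cyclotomic (p ^ (m + 1)) ℤ_[p]).comp (X + 1)) ^ j ∣ f * u ↔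
      ((cyclotomic (p ^ (m + 1)) ℤ_[p]).comp (X + 1)) ^ j ∣ f := by
    intro j
    constructor
    · intro h
      exact hprime.pow_dvd_of_dvd_mul_right j hndvd h
    · intro h
      exact h.mul_right u
  unfold CyclotomicOrder
  rw [key, key]

end Pool.Agent.X310.Mz
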