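import Mathlib

/-! Definitions: distinguished polynomials and the functional equation `T ↦ (1+T)⁻¹ - 1`. -/

namespace Pool.Agent.X310.Mz

open Polynomial

variable {p : ℕ} [Fact p.Prime]

/-- `f` is distinguished: monic with lower coefficients divisible by `p`. -/
def Distinguished (f : ℤ_[p][X]) : Prop :=
  f.Monic ∧ ∀ i < f.natDegree, (p : ℤ_[p]) ∣ f.coeff i

/-- The functional equation: the ideal of `ℤ_p[[T]]` generated by `f` is stable under
`T ↦ (1+T)⁻¹ - 1`; for the polynomial `F(X) = f(X-1)`, `X = 1+T`, it says that the reversed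
polynomial `X^n F(1/X)` is a constant times `F`. -/
def FunctionalEquation (f : ℤ_[p][X]) : Prop :=
  ∃ c : ℤ_[p], (f.comp (X - 1)).reverse = C c * f.comp (X - 1)

/-- `n` is the order of vanishing at the characters of order `p ^ (m+1)`: the multiplicity of the
cyclotomic factor `Φ_{p^(m+1)}(1+T)`. -/
def CyclotomicOrder (f : ℤ_[p][X]) (m n : ℕ) : Prop :=
  ((cyclotomic (p ^ (m + 1)) ℤ_[p]).comp (X + 1)) ^ n ∣ f ∧
    ¬ ((cyclotomic (p ^ (m + 1)) ℤ_[p]).comp (X + 1)) ^ (n + 1) ∣ f

end Pool.Agent.X310.Mz
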