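import Pool.Agent.X310.NdgDefs
import Pool.Agent.X310.Col3

set_option autoImplicit false

open Finset

namespace Pool.Agent.X310.Ndg

open Pool.Agent.X208.BR.Pk Pool.Agent.X208.CZ
open Pool.Agent.X310.Col (act_comm act_inj act_act_inv)

variable {c : GalQ} {J : Type} {E : J → Fld}

/-- the permutation of the embeddings -/
noncomputable def permOf (σ : GalQ) : Equiv.Perm (Σ j, Emb (E j)) where
  toFun := act' σ
  invFun := act' σ⁻¹
  left_inv x := by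
    unfold act'
    rw [act_inv_act]
  right_inv x := by
    unfold act'
    rw [act_act_inv]

theorem act'_mul (σ τ : GalQ) (x : Σ j, Emb (E j)) : act' (σ * τ) x = act' σ (act' τ x) := rfl

theorem act'_comm (hE : ∀ j, IsCM c (E j)) (τ : GalQ) (x : Σ j, Emb (E j)) :
    act' c (act' τ x) = act' τ (act' c x) := by
  unfold act'
  simp only
  rw [act_comm (hE x.1)]

/-- the sign -/
noncomputable def sgn (Φ : ∀ j, Set (Emb (E j))) (x : Σ j, Emb (E j)) : ℤ := by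
  classical exact if x.2 ∈ Φ x.1 then 1 else -1

theorem sgn_c (Φ : ∀ j, Set (Emb (E j))) (hΦ : ∀ j, IsType c (Φ j)) (x : Σ j, Emb (E j)) :
    sgn Φ (act' c x) = - sgn Φ x := by
  classical
  unfold sgn act'
  have h1 := hΦ x.1 x.2
  by_cases h2 : x.2 ∈ Φ x.1
  · rw [if_neg (h1.1 h2), if_pos h2]
  · have h3 : act c x.2 ∈ Φ x.1 := by
      by_contra h4
      exact h2 (h1.2 h4)
    rw [if_pos h3, if_neg h2, neg_neg]

theorem sgn_sq (Φ : ∀ j, Set (Emb (E j))) (x : Σ j, Emb (E j)) : sgn Φ x * sgn Φ x = 1 := by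
  classical
  unfold sgn
  split_ifs <;> rfl

/-- the equations -/
theorem tate_eq [Fintype (Σ j, Emb (E j))] (Φ : ∀ j, Set (Emb (E j))) {i : ℕ}
    {f : (Σ j, Emb (E j)) → ℕ} (h : TateWeight Φ i f) (σ : GalQ) :
    ∑ x, sgn Φ (act' σ x) * (f x : ℤ) = 0 := by
  classical
  have h1 := h.1
  have h2 := h.2 σ
  rw [finsum_eq_sum_of_fintype] at h1 h2
  rw [← Finset.sum_subtype (univ.filter fun x : Σ j, Emb (E j) => act σ x.2 ∈ Φ x.1)
    (by intro x; simp) (fun x => f x)] at h2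
  rw [sum_filter] at h2
  have h3 : ∀ x : Σ j, Emb (E j), sgn Φ (act' σ x) * (f x : ℤ) =
      2 * ((if act σ x.2 ∈ Φ x.1 then f x else 0 : ℕ) : ℤ) - (f x : ℤ) := by
    intro x
    unfold sgn act'
    simp only
    by_cases h4 : act σ x.2 ∈ Φ x.1
    · rw [if_pos h4, if_pos h4]
      ring
    · rw [if_neg h4, if_neg h4]
      push_cast
      ring
  rw [sum_congr rfl fun x _ => h3 x, sum_sub_distrib, ← mul_sum, ← Nat.cast_sum, ← Nat.cast_sum,
    h1, h2]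
  push_cast
  ring

/-- the permutations from elements of the Galois group which fix `x₀` -/
noncomputable def stab [Fintype (Σ j, Emb (E j))] (x₀ : Σ j, Emb (E j)) :
    Finset (Equiv.Perm (Σ j, Emb (E j))) := by
  classical exact univ.filter fun π => ∃ σ : GalQ, act' σ x₀ = x₀ ∧ π = permOf σ

theorem mem_stab [Fintype (Σ j, Emb (E j))] (x₀ : Σ j, Emb (E j))
    (π : Equiv.Perm (Σ j, Emb (E j))) :
    π ∈ stab x₀ ↔ ∃ σ : GalQ, act' σ x₀ = x₀ ∧ π = permOf σ := by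
  classical
  unfold stab
  simp

theorem stab_mul [Fintype (Σ j, Emb (E j))] (x₀ : Σ j, Emb (E j)) {σ : GalQ}
    (hσ : act' σ x₀ = x₀) (F : (Σ j, Emb (E j)) → ℤ) (x : Σ j, Emb (E j)) :
    ∑ π ∈ stab x₀, F (π (act' σ x)) = ∑ π ∈ stab x₀, F (π x) := by
  classical
  refine Finset.sum_bij (fun π _ => π * permOf σ) ?_ ?_ ?_ ?_
  · intro π hπ
    rw [mem_stab] at hπ ⊢
    obtain ⟨τ, h1, rfl⟩ := hπ
    exact ⟨τ * σ, by rw [act'_mul, hσ, h1], rfl⟩
  · intro π _ π' _ h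
    exact mul_right_cancel h
  · intro π hπ
    refine ⟨π * (permOf σ)⁻¹, ?_, by rw [inv_mul_cancel_right]⟩
    rw [mem_stab] at hπ ⊢
    obtain ⟨τ, h1, rfl⟩ := hπ
    refine ⟨τ * σ⁻¹, ?_, rfl⟩
    rw [act'_mul]
    have h2 : act' σ⁻¹ x₀ = x₀ := by
      nth_rewrite 1 [← hσ]
      exact (permOf σ).left_inv x₀
    rw [h2, h1]
  · intro π _
    rfl

theorem stab_self [Fintype (Σ j, Emb (E j))] {x₀ : Σ j, Emb (E j)}
    {π : Equiv.Perm (Σ j, Emb (E j))} (h : π ∈ stab x₀) : π x₀ = x₀ := by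
  obtain ⟨σ, h1, rfl⟩ := (mem_stab _ _).1 h
  exact h1

theorem stab_c [Fintype (Σ j, Emb (E j))] (hE : ∀ j, IsCM c (E j)) {x₀ : Σ j, Emb (E j)}
    {π : Equiv.Perm (Σ j, Emb (E j))} (h : π ∈ stab x₀) (x : Σ j, Emb (E j)) :
    π (act' c x) = act' c (π x) := by
  obtain ⟨σ, h1, rfl⟩ := (mem_stab _ _).1 h
  exact (act'_comm hE σ x).symm

theorem stab_eq [Fintype (Σ j, Emb (E j))] (Φ : ∀ j, Set (Emb (E j))) {i : ℕ}
    {f : (Σ j, Emb (E j)) → ℕ} (h : TateWeight Φ i f) (x₀ : Σ j, Emb (E j)) :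
    ∑ x, (∑ π ∈ stab x₀, sgn Φ (π x)) * (f x : ℤ) = 0 := by
  simp only [sum_mul]
  rw [sum_comm]
  refine sum_eq_zero fun π hπ => ?_
  obtain ⟨σ, h1, rfl⟩ := (mem_stab _ _).1 hπ
  exact tate_eq Φ h σ

theorem stab_pos [Fintype (Σ j, Emb (E j))] (x₀ : Σ j, Emb (E j)) : 0 < (stab x₀).card := by
  refine card_pos.2 ⟨permOf 1, (mem_stab _ _).2 ⟨1, rfl, rfl⟩⟩

theorem act'_ne (hE : ∀ j, IsCM c (E j)) (x : Σ j, Emb (E j)) : act' c x ≠ x := by
  intro h
  unfold act' at h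
  have h1 := eq_of_heq (Sigma.mk.inj_iff.1 (h.trans (Sigma.eta x).symm)).2
  exact act_ne (hE x.1) x.2 h1

/-- **separated fields**: all Tate weights are Lefschetz weights. -/
theorem separated_main [Finite J] (hc : IsConj c) (hE : ∀ j, IsCM c (E j))
    (hsep : Separated c E) (Φ : ∀ j, Set (Emb (E j))) (hΦ : ∀ j, IsType c (Φ j)) (i : ℕ)
    (f : (Σ j, Emb (E j)) → ℕ) (h : TateWeight Φ i f) : LefschetzWeight c f := by
  classical
  have hfin : ∀ j, Finite (Emb (E j)) := fun j => finite_emb (hE j).1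
  haveI : Fintype (Σ j, Emb (E j)) := Fintype.ofFinite _
  intro x₀
  have h1 := stab_eq Φ h x₀
  have hne := act'_ne hE x₀
  have h2 : ∀ x, x ≠ x₀ → x ≠ act' c x₀ → ∑ π ∈ stab x₀, sgn Φ (π x) = 0 := by
    intro x hx hx'
    obtain ⟨σ, hσ, hσ'⟩ := hsep x₀ x hx hx'
    have h3 := stab_mul x₀ hσ (sgn Φ) x
    rw [hσ'] at h3
    have h4 : ∑ π ∈ stab x₀, sgn Φ (π (act' c x)) = - ∑ π ∈ stab x₀, sgn Φ (π x) := by
      rw [← sum_neg_distrib]
      refine sum_congr rfl fun π hπ => ?_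
      rw [stab_c hE hπ, sgn_c Φ hΦ]
    rw [h4] at h3
    omega
  have h5 : ∑ π ∈ stab x₀, sgn Φ (π x₀) = (stab x₀).card * sgn Φ x₀ := by
    rw [sum_congr rfl fun π hπ => by rw [stab_self hπ], sum_const, nsmul_eq_mul]
  have h6 : ∑ π ∈ stab x₀, sgn Φ (π (act' c x₀)) = - ((stab x₀).card * sgn Φ x₀) := by
    rw [sum_congr rfl fun π hπ => by rw [stab_c hE hπ, stab_self hπ, sgn_c Φ hΦ], sum_const,
      nsmul_eq_mul]
    ring
  rw [← Finset.add_sum_erase _ _ (mem_univ x₀),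
    ← Finset.add_sum_erase _ _ (mem_erase.2 ⟨hne, mem_univ (act' c x₀)⟩), h5, h6,
    sum_eq_zero (s := (univ.erase x₀).erase (act' c x₀)) (fun x hx => by
      rw [mem_erase, mem_erase] at hx
      rw [h2 x hx.2.1 hx.1, zero_mul]), add_zero] at h1
  have h7 : ((stab x₀).card : ℤ) ≠ 0 := by exact_mod_cast (stab_pos x₀).ne'
  have h8 : ((stab x₀).card : ℤ) * (sgn Φ x₀ * ((f x₀ : ℤ) - f (act' c x₀))) = 0 := by
    rw [← h1]
    ring
  have h9 := (mul_eq_zero.1 h8).resolve_left h7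
  have h10 : sgn Φ x₀ * (sgn Φ x₀ * ((f x₀ : ℤ) - f (act' c x₀))) = 0 := by rw [h9, mul_zero]
  rw [← mul_assoc, sgn_sq, one_mul] at h10
  have h11 : (f (act' c x₀) : ℤ) = f x₀ := by linarith
  exact_mod_cast h11

end Pool.Agent.X310.Ndg
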