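import Pool.Agent.X208.CZ.Law

/-! Definitions: weights of Tate classes on products of abelian varieties with complex
multiplication (Pohlmann). -/

set_option autoImplicit false

namespace Pool.Agent.X310.Ndg

open Pool.Agent.X208.BR.Pk Pool.Agent.X208.CZ

/-- The action of the Galois group of `ℚ` on the disjoint union of the sets of embeddings of the
fields `E j`. -/
noncomputable def act' {J : Type} {E : J → Fld} (σ : GalQ) (x : Σ j, Emb (E j)) :
    Σ j, Emb (E j) := ⟨x.1, act σ x.2⟩

/-- `f` is the weight of a Tate class of codimension `i` on a product of powers of the abelian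
varieties `A j` with complex multiplication of type `(E j, Φ j)`: `∑ f = 2 i`, and for every `σ` the
sum of `f` over the embeddings in `σ⁻¹ Φ` is `i` (Pohlmann). -/
def TateWeight {J : Type} {E : J → Fld} (Φ : ∀ j, Set (Emb (E j))) (i : ℕ)
    (f : (Σ j, Emb (E j)) → ℕ) : Prop :=
  ∑ᶠ x, f x = 2 * i ∧
    ∀ σ : GalQ, ∑ᶠ x : {x : Σ j, Emb (E j) // act σ x.2 ∈ Φ x.1}, f x.1 = i

/-- `f` is a weight of products of divisor classes: `f` is invariant under complex conjugation. -/
def LefschetzWeight (c : GalQ) {J : Type} {E : J → Fld} (f : (Σ j, Emb (E j)) → ℕ) : Prop :=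
  ∀ x, f (act' c x) = f x

/-- The fields `E j` are separated: for all embeddings `x`, `y` of some of the fields with
`y ≠ x, cx` there is `σ` with `σ x = x` and `σ y = c y`. -/
def Separated (c : GalQ) {J : Type} (E : J → Fld) : Prop :=
  ∀ x y : Σ j, Emb (E j), y ≠ x → y ≠ act' c x → ∃ σ : GalQ, act' σ x = x ∧ act' σ y = act' c y

end Pool.Agent.X310.Ndg
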