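import Pool.Agent.X310.Gap
import Pool.Agent.TH125.Gal.Lef
import Pool.Agent.W534.Hyp3
import Pool.Agent.W534.Uni

/-!
# The conjecture A for all varieties and the ranks next to the middle
-/

set_option autoImplicit false

open CategoryTheory AlgebraicGeometry Finset

universe u v

namespace Pool.Agent.X310

open Pool.Agent.H914 Pool.Agent.H447 Pool.Agent.W534 Pool.Agent.W537 Pool.Agent.TH720.LB VarClass
  Obj WeilCohomology Pool.Agent.X310.Gap

variable {k : Type u} [Field k] {𝒱 : VarClass k} {ops : CycleOps 𝒱}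

/-- There are a divisor `E` on `X` which satisfies the hard Lefschetz theorem and a morphism
`i : Y ⟶ X` from a variety of dimension `dim X - 1` with `i_* [Y] = [E]` which satisfies the weak
Lefschetz theorem (for example the inclusion of a smooth hyperplane section of `X`). -/
def HasSection (W : WeilCohomology.{u, v} ops) (X : 𝒱.Obj) : Prop :=
  ∃ (E : X.Cycles) (Y : 𝒱.Obj) (i : Y ⟶ X), X.IsCyc 1 E ∧ HardLefschetz W X E ∧
    X.dim = Y.dim + 1 ∧ W.cl X (ops.push i Y.V.fundCycle) = W.cl X E ∧ WeakLefschetz W i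

/-- `P` with the divisor `h` looks like the projective line with a point: `dim P = 1`, the powers
of the class of `h` span the cohomology, and `h` has degree `1`. -/
structure IsLine (W : WeilCohomology.{u, v} ops) (P : 𝒱.Obj) (h : P.Cycles) : Prop where
  dim : P.dim = 1
  proj : ProjLike W P h

variable {W : WeilCohomology.{u, v} ops} {X Y P : 𝒱.Obj} {D : X.Cycles} {h : P.Cycles}

/-- The conjecture B in terms of the inverses in all degrees. -/
lemma lefschetzB_iff_kinv (hD : X.IsCyc 1 D) (hHL : HardLefschetz W X D) :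
    LefschetzB W X D ↔ ∀ c ≤ X.dim, KInv W X D c := by
  have key : LefschetzB W X D ↔ ∀ c ≤ X.dim, SpanInjective W X c :=
    (lefschetzB_tfae hD hHL).out 0 2
  rw [key]
  exact ⟨fun hB c hc => kinv_of_inj hD hHL hc (hB c hc),
    fun h c hc => inj_of_kinv hHL hc (h c hc)⟩

lemma tr_top_inj {a : W.H Y} (ha : a ∈ W.gr Y (2 * Y.dim)) (h0 : W.tr Y a = 0) : a = 0 := by
  apply (W.isPoincareAlgebra Y).nondeg
  intro b
  refine gr_induction (W.isInternal Y) (p := fun b => W.tr Y (a * b) = 0) ?_ ?_ b
  · intro i b hb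
    rcases Nat.eq_zero_or_pos i with rfl | hi
    · rw [W.gr_zero Y, Submodule.mem_span_singleton] at hb
      obtain ⟨c, rfl⟩ := hb
      rw [mul_smul_comm, mul_one, map_smul, h0, smul_zero]
    · exact W.tr_eq_zero (W.mul_mem ha hb) (by omega)
  · intro b c hb hc
    rw [mul_add, map_add, hb, hc, add_zero]

/-- Hard Lefschetz for the line. -/
lemma IsLine.hard (hP : IsLine W P h) : HardLefschetz W P h := by
  have hPd := hP.proj.to.div
  intro i hi
  rw [hP.dim] at hi ⊢
  rcases Nat.le_one_iff_eq_zero_or_eq_one.1 hi with rfl | rfl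
  · constructor
    · intro a ha h0
      rw [W.gr_zero P, Submodule.mem_span_singleton] at ha
      obtain ⟨c, rfl⟩ := ha
      have h1 := hP.proj.to.deg
      rw [hP.dim, pow_one] at h1
      simp only [Nat.sub_zero, pow_one, LinearMap.mulLeft_apply, mul_smul_comm, mul_one] at h0
      rcases smul_eq_zero.1 h0 with rfl | h2
      · rw [zero_smul]
      · rw [h2, map_zero] at h1
        exact absurd h1 zero_ne_one
    · intro b hb
      have h1 := hP.proj.to.deg
      rw [hP.dim, pow_one] at h1
      refine ⟨W.tr P b • 1, Submodule.smul_mem _ _ (W.one_mem P), ?_⟩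
      simp only [Nat.sub_zero, pow_one, LinearMap.mulLeft_apply, mul_smul_comm, mul_one]
      rw [← sub_eq_zero]
      refine tr_top_inj ?_ ?_
      · rw [hP.dim]
        refine Submodule.sub_mem _ (Submodule.smul_mem _ _ ?_) hb
        simpa using W.cl_mem hPd
      · rw [map_sub, map_smul, h1, smul_eq_mul, mul_one, sub_self]
  · simp only [Nat.sub_self, pow_zero]
    exact ⟨fun a _ h => h, fun b hb => ⟨b, by simpa using hb, rfl⟩⟩

/-- Hard Lefschetz for the product with the line. -/
lemma IsLine.hard_prod (hP : IsLine W P h) (hD : X.IsCyc 1 D) (hHL : HardLefschetz W X D) :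
    HardLefschetz W (X.prod P) (sumDiv ops D h) :=
  TH125.Gal.hardLefschetz_prod hD hP.proj.to.div hHL hP.hard

/-- The conjecture B for the product with a line implies the conjecture B. -/
lemma lefschetzB_of_line (hP : IsLine W P h) (hD : X.IsCyc 1 D) (hHL : HardLefschetz W X D)
    (hB : LefschetzB W (X.prod P) (sumDiv ops D h)) : LefschetzB W X D := by
  have hPd := hP.proj.to.div
  have hcyc : (X.prod P).IsCyc 1 (sumDiv ops D h) := isCyc_sumDiv hD hPd
  have hHL' := hP.hard_prod hD hHL
  have hall := (lefschetzB_iff_kinv hcyc hHL').1 hB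
  have hdim : (X.prod P).dim = X.dim + 1 := by rw [dim_prod X P, hP.dim]
  refine (lefschetzB_iff_kinv hD hHL).2 ?_
  have key : ∀ r c, c ≤ X.dim → X.dim - c ≤ r → KInv W X D c := by
    intro r
    induction r with
    | zero =>
      intro c hc hr
      exact down hP.proj.to hP.dim hD hHL hc (hall (c + 1) (by omega)) (by intro h; omega)
    | succ r ih =>
      intro c hc hr
      exact down hP.proj.to hP.dim hD hHL hc (hall (c + 1) (by omega))
        (fun h2 => ih (c + 2) h2 (by omega))
  exact fun c hc => key _ c hc le_rfl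


lemma lefschetzB_zero (hD : X.IsCyc 1 D) (hHL : HardLefschetz W X D) (h0 : X.dim = 0) :
    LefschetzB W X D := by
  refine (lefschetzB_iff_kinv hD hHL).2 fun c hc => ?_
  obtain rfl : c = 0 := by omega
  exact kinv_zero

/-- The conjecture B implies the conjecture A. -/
lemma lefschetzA_of_B (hD : X.IsCyc 1 D) (hHL : HardLefschetz W X D) (hB : LefschetzB W X D) :
    LefschetzA W X D := by
  rcases Nat.eq_zero_or_pos X.dim with h0 | hn
  · intro j hj z hz
    obtain rfl : j = 0 := by omega
    refine ⟨z, by rwa [h0] at hz, ?_⟩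
    rw [cl_divPow, h0]
    simp
  · intro j hj z hz
    obtain ⟨z', hz', h'⟩ := uniform_self hn hD hHL hB j hj z hz
    exact ⟨z', hz', h' W (fun _ => rfl)⟩

/-- The conjecture A implies the symmetry of the ranks. -/
lemma rank_of_A (hD : X.IsCyc 1 D) (hHL : HardLefschetz W X D) (hA : LefschetzA W X D) {p q : ℕ}
    (hpq : p + q = X.dim) : cycleRank W X p = cycleRank W X q := by
  wlog hle : p ≤ q generalizing p q with H
  · exact (H (by omega) (by omega)).symm
  obtain ⟨c, rfl⟩ := Nat.exists_eq_add_of_le hle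
  have hLp : ∀ (c : ℕ), ∀ x ∈ spanCycles W X p,
      (LinearMap.mulLeft W.K (W.cl X D) ^ c) x ∈ spanCycles W X ((p + c : ℕ) : ℤ) := by
    intro c x hx
    induction hx using Submodule.span_induction with
    | mem x hx =>
      obtain ⟨p', hp', z, hz, rfl⟩ := hx
      obtain rfl : p' = p := by exact_mod_cast hp'
      rw [← cl_divPow]
      exact Submodule.subset_span ⟨p' + c, rfl, _, divPow_mem hD c hz, rfl⟩
    | zero => rw [map_zero]; exact Submodule.zero_mem _
    | add x y _ _ hx hy => rw [map_add]; exact Submodule.add_mem _ hx hy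
    | smul a x _ hx => rw [map_smul]; exact Submodule.smul_mem _ _ hx
  refine finrank_eq_of_surj (T := LinearMap.mulLeft W.K (W.cl X D) ^ c) (hLp c) ?_ ?_
  · intro x hx h0
    have h1 : x ∈ W.gr X (2 * p) := H914.span_gr hx
    refine (hHL (2 * p) (by omega)).1 x h1 ?_
    rwa [show X.dim - 2 * p = c by omega]
  · intro y hy
    induction hy using Submodule.span_induction with
    | mem y hy =>
      obtain ⟨p', hp', z, hz, rfl⟩ := hy
      obtain rfl : p' = p + c := by exact_mod_cast hp'
      obtain ⟨z', hz', h2⟩ := hA p (by omega) z (by rwa [show X.dim - p = p + c by omega])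
      refine ⟨W.cl X z', Submodule.subset_span ⟨p, rfl, z', hz', rfl⟩, ?_⟩
      rw [← h2, cl_divPow, show X.dim - 2 * p = c by omega]
    | zero => exact ⟨0, Submodule.zero_mem _, map_zero _⟩
    | add x y _ _ hx hy =>
      obtain ⟨a, ha, rfl⟩ := hx
      obtain ⟨b, hb, rfl⟩ := hy
      exact ⟨a + b, Submodule.add_mem _ ha hb, map_add _ _ _⟩
    | smul c x _ hx =>
      obtain ⟨a, ha, rfl⟩ := hx
      exact ⟨c • a, Submodule.smul_mem _ _ ha, map_smul _ _ _⟩

/-- From one dimension to all smaller dimensions. -/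
lemma lefschetzB_down {N : ℕ} (hP : IsLine W P h)
    (hN : ∀ (X : 𝒱.Obj) (D : X.Cycles), X.IsCyc 1 D → HardLefschetz W X D → X.dim = N →
      LefschetzB W X D) (r : ℕ) : ∀ (X : 𝒱.Obj) (D : X.Cycles), X.IsCyc 1 D →
      HardLefschetz W X D → X.dim + r = N → LefschetzB W X D := by
  induction r with
  | zero => exact fun X D hD hHL h => hN X D hD hHL h
  | succ r ih =>
    intro X D hD hHL hr
    refine lefschetzB_of_line hP hD hHL (ih (X.prod P) _ ?_ (hP.hard_prod hD hHL) ?_)
    · exact isCyc_sumDiv hD hP.proj.to.div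
    · rw [dim_prod, hP.dim]
      omega

/-- The `K`-spans of the classes of cycles of codimension `p` and `q` on `V` have the same
dimension, for all varieties `V` of dimension `d`. -/
def SameRanks (W : WeilCohomology.{u, v} ops) (d p q : ℕ) : Prop :=
  ∀ V : 𝒱.Obj, V.dim = d → cycleRank W V p = cycleRank W V q

/-- **The conjecture A for all varieties and the ranks next to the middle.** -/
theorem ranks_tfae (W : WeilCohomology.{u, v} ops) {P : 𝒱.Obj} {h : P.Cycles}
    (hP : IsLine W P h) (hsec : ∀ X : 𝒱.Obj, 1 ≤ X.dim → HasSection W X) {S : Set ℕ}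
    (hS : S.Infinite) :
    List.TFAE [
      ∀ (V : 𝒱.Obj) (D : V.Cycles), V.IsCyc 1 D → HardLefschetz W V D → LefschetzA W V D,
      ∀ d p q, p + q = d → SameRanks W d p q,
      ∀ m ∈ S, SameRanks W (2 * m + 1) m (m + 1),
      ∀ m ∈ S, SameRanks W (2 * m + 2) m (m + 2),
      ∀ (V : 𝒱.Obj) (D : V.Cycles), V.IsCyc 1 D → HardLefschetz W V D → LefschetzB W V D] := by
  have hbig : ∀ n : ℕ, ∃ m ∈ S, n ≤ m + 1 := by
    intro n
    obtain ⟨m, hm, hnm⟩ := hS.exists_gt n
    exact ⟨m, hm, by omega⟩
  tfae_have 1 → 2 := by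
    intro hA d p q hpq V hV
    rcases Nat.eq_zero_or_pos V.dim with h0 | h1
    · obtain rfl : p = 0 := by omega
      obtain rfl : q = 0 := by omega
      rfl
    · obtain ⟨E, -, -, hE, hHL, -⟩ := hsec V h1
      exact rank_of_A hE hHL (hA V E hE hHL) (by omega)
  tfae_have 2 → 3 := fun h m _ => h _ _ _ (by omega)
  tfae_have 2 → 4 := fun h m _ => h _ _ _ (by omega)
  tfae_have 3 → 5 := by
    intro h3 X D hD hHL
    obtain ⟨m, hm, hnm⟩ := hbig X.dim
    obtain ⟨r, hr⟩ := Nat.exists_eq_add_of_le hnm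
    refine lefschetzB_down hP (N := m + 1) (fun X D hD hHL hX => ?_) r X D hD hHL hr.symm
    obtain ⟨E, Y, i, hE, hHLE, hdim, hY, hWL⟩ := hsec X (by omega)
    have key := ((hyperplane_tfae hdim hE hY hHLE hWL).out 3 0).1
    have hr := h3 m hm (X.prod Y) (by rw [dim_prod]; omega)
    rw [show m = Y.dim by omega, ← hdim] at hr
    exact lefschetzB_indep hE hHLE hD hHL (key hr)
  tfae_have 4 → 5 := by
    intro h4 X D hD hHL
    obtain ⟨m, hm, hnm⟩ := hbig X.dim
    obtain ⟨r, hr⟩ := Nat.exists_eq_add_of_le hnm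
    refine lefschetzB_down hP (N := m + 1) (fun X D hD hHL hX => ?_) r X D hD hHL hr.symm
    refine lefschetzB_of_rank hD hHL ?_
    have hr := h4 m hm (X.prod X) (by rw [dim_prod]; omega)
    rw [show (X.dim : ℤ) - 1 = m by omega, show (X.dim : ℤ) + 1 = ((m + 2 : ℕ) : ℤ) by omega]
    exact hr
  tfae_have 5 → 1 := fun h V D hD hHL => lefschetzA_of_B hD hHL (h V D hD hHL)
  tfae_finish

end Pool.Agent.X310
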