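import Pool.Agent.X310.SchDefs

namespace Pool.Agent.X310.Sch

open Module

variable {K V : Type} [Field K] [AddCommGroup V] [Module K V]

/-- the rank of a skew-symmetric form is even -/
theorem rank_even [FiniteDimensional K V] (h2 : (2 : K) ≠ 0) (A : V →ₗ[K] V →ₗ[K] K)
    (hA : ∀ x y, A x y = - A y x) :
    ∃ m : ℕ, finrank K V = finrank K (LinearMap.ker A) + 2 * m := by
  classical
  obtain ⟨W, hW⟩ := Submodule.exists_isCompl (LinearMap.ker A)
  have hdim := Submodule.finrank_add_eq_of_isCompl hW
  set n := finrank K W with hn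
  let b := Module.finBasis K W
  let S : Matrix (Fin n) (Fin n) K := fun i j => A (b i) (b j)
  have hST : S.transpose = -S := by
    ext i j
    exact hA (b j) (b i)
  have hdet : S.det ≠ 0 := by
    intro h0
    obtain ⟨v, hv, hv0⟩ := Matrix.exists_mulVec_eq_zero_iff.2 h0
    apply hv
    set y : W := ∑ j, v j • b j with hy
    have h1 : ∀ i, A (b i) y = 0 := by
      intro i
      have := congrFun hv0 i
      rw [hy]
      push_cast
      rw [map_sum]
      simp only [map_smul, smul_eq_mul]
      simp only [Matrix.mulVec, dotProduct, S, Pi.zero_apply] at this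
      rw [← this]
      exact Finset.sum_congr rfl fun j _ => mul_comm _ _
    have h2' : ∀ w : W, A w y = 0 := by
      intro w
      rw [← b.sum_repr w]
      push_cast
      rw [map_sum, LinearMap.sum_apply]
      refine Finset.sum_eq_zero fun i _ => ?_
      rw [map_smul, LinearMap.smul_apply, h1, smul_zero]
    have h3 : (y : V) ∈ LinearMap.ker A := by
      rw [LinearMap.mem_ker]
      ext x
      have hx : x ∈ LinearMap.ker A ⊔ W := by rw [hW.sup_eq_top]; trivial
      obtain ⟨k, hk, w, hw, rfl⟩ := Submodule.mem_sup.1 hx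
      rw [LinearMap.mem_ker] at hk
      rw [hA, map_add, LinearMap.add_apply, hk, LinearMap.zero_apply, h2' ⟨w, hw⟩, zero_add,
        neg_zero]
      rfl
    have h4 : (y : V) = 0 := by
      have := hW.disjoint.le_bot ⟨h3, y.2⟩
      simpa using this
    have h5 : y = 0 := Subtype.ext h4
    ext j
    have h6 := congrArg (fun z => b.repr z j) h5
    rw [hy] at h6
    simpa [Finsupp.single_apply] using h6
  have heven : Even n := by
    by_contra ho
    rw [Nat.not_even_iff_odd] at ho
    have h1 : S.det = - S.det := by
      conv_lhs => rw [← Matrix.det_transpose, hST, Matrix.det_neg, Fintype.card_fin,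
        ho.neg_one_pow, neg_one_mul]
    apply hdet
    have : (2 : K) * S.det = 0 := by linear_combination h1
    exact (mul_eq_zero.1 this).resolve_left h2
  obtain ⟨m, hm⟩ := heven
  exact ⟨m, by omega⟩

variable (D : SkewData K V)

theorem exists_parity [FiniteDimensional K V] (h2 : (2 : K) ≠ 0) :
    ∃ m : ℕ, finrank K V = finrank K (LinearMap.ker D.N) + 2 * m := by
  let A : V →ₗ[K] V →ₗ[K] K := D.B ∘ₗ D.N
  have hA : ∀ x y, A x y = D.B (D.N x) y := fun _ _ => rfl
  obtain ⟨m, hm⟩ := rank_even h2 A (fun x y => by
    rw [hA, hA, D.skew, D.symm x])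
  have hker : LinearMap.ker A = LinearMap.ker D.N := by
    ext x
    rw [LinearMap.mem_ker, LinearMap.mem_ker]
    constructor
    · intro h
      apply D.nondeg
      intro y
      rw [← hA, h]
      rfl
    · intro h
      ext y
      rw [hA, h, map_zero]
  rw [hker] at hm
  exact ⟨m, hm⟩

theorem range_le_orth (z y : V) (hy : D.N y = 0) : D.B (D.N z) y = 0 := by
  rw [D.skew, hy, map_zero, neg_zero]

/-- the radical is `ker N ⊓ range N` -/
theorem mem_range_of_orth [FiniteDimensional K V] {x : V}
    (hx : ∀ y, D.N y = 0 → D.B x y = 0) : x ∈ LinearMap.range D.N := by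
  -- `B : V ≃ V*`
  have hBinj : Function.Injective D.B := by
    rw [← LinearMap.ker_eq_bot, LinearMap.ker_eq_bot']
    intro m hm
    exact D.nondeg m fun y => by rw [hm]; rfl
  -- the annihilator of `ker N`
  let Φ : V →ₗ[K] (LinearMap.ker D.N →ₗ[K] K) :=
    { toFun := fun v => (D.B v).comp (LinearMap.ker D.N).subtype
      map_add' := fun a b => by ext; simp
      map_smul' := fun c a => by ext; simp }
  have hΦ : ∀ v (y : LinearMap.ker D.N), Φ v y = D.B v y := fun _ _ => rfl
  have hle : LinearMap.range D.N ≤ LinearMap.ker Φ := by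
    rintro _ ⟨z, rfl⟩
    rw [LinearMap.mem_ker]
    ext y
    rw [hΦ]
    exact range_le_orth D z y y.2
  -- `Φ` is surjective
  have hBsurj : Function.Surjective D.B := by
    have : finrank K V = finrank K (V →ₗ[K] K) := (Subspace.dual_finrank_eq (K := K) (V := V)).symm
    exact (LinearMap.injective_iff_surjective_of_finrank_eq_finrank this).1 hBinj
  have hsurj : Function.Surjective Φ := by
    intro φ
    obtain ⟨ψ, hψ⟩ := LinearMap.exists_extend φ
    obtain ⟨v, hv⟩ := hBsurj ψ
    refine ⟨v, ?_⟩
    ext y
    rw [hΦ, hv, ← hψ]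
    rfl
  have hdim : finrank K (LinearMap.ker Φ) = finrank K (LinearMap.range D.N) := by
    have h1 := LinearMap.finrank_range_add_finrank_ker Φ
    have h2 := LinearMap.finrank_range_add_finrank_ker D.N
    have h3 : finrank K (LinearMap.range Φ) = finrank K (LinearMap.ker D.N) := by
      rw [LinearMap.range_eq_top.2 hsurj, finrank_top]
      exact Subspace.dual_finrank_eq
    omega
  have heq : LinearMap.range D.N = LinearMap.ker Φ :=
    Submodule.eq_of_le_of_finrank_eq hle hdim.symm
  rw [heq, LinearMap.mem_ker]
  ext y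
  rw [hΦ]
  exact hx y y.2

theorem radical_eq [FiniteDimensional K V] :
    D.radical = LinearMap.ker D.N ⊓ LinearMap.range D.N := by
  ext x
  constructor
  · rintro ⟨h1, h2⟩
    exact ⟨h1, mem_range_of_orth D h2⟩
  · rintro ⟨h1, z, rfl⟩
    exact ⟨h1, fun y hy => range_le_orth D z y hy⟩

theorem rank_add_radical_le [FiniteDimensional K V] :
    finrank K (LinearMap.ker D.N) + finrank K D.radical ≤ finrank K V := by
  have h1 := LinearMap.finrank_range_add_finrank_ker D.N
  have h2 : finrank K D.radical ≤ finrank K (LinearMap.range D.N) := by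
    rw [radical_eq]
    exact Submodule.finrank_mono inf_le_right
  omega

theorem nondeg_iff [FiniteDimensional K V] :
    D.HeightNondegenerate ↔ finrank K V = finrank K (LinearMap.ker D.N) := by
  constructor
  · intro h
    -- the radical is zero, hence N = 0
    have hN : D.N = 0 := by
      by_contra hN
      obtain ⟨k, hk⟩ := D.nilp
      classical
      have hex : ∃ k : ℕ, D.N ^ k = 0 := ⟨k, hk⟩
      set k₀ := Nat.find hex with hk₀
      have h0 : D.N ^ k₀ = 0 := Nat.find_spec hex
      have hmin : ∀ j < k₀, D.N ^ j ≠ 0 := fun j hj => Nat.find_min hex hj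
      have hk2 : 2 ≤ k₀ := by
        by_contra hlt
        have : k₀ = 0 ∨ k₀ = 1 := by omega
        rcases this with h | h
        · rw [h, pow_zero] at h0
          apply hN
          ext x
          have := congrArg (fun f : V →ₗ[K] V => f (D.N x)) h0
          simpa using this
        · rw [h, pow_one] at h0
          exact hN h0
      apply hmin (k₀ - 1) (by omega)
      ext x
      rw [LinearMap.zero_apply]
      have hx1 : D.N ((D.N ^ (k₀ - 1)) x) = 0 := by
        have : D.N ^ k₀ = D.N * D.N ^ (k₀ - 1) := by
          rw [← pow_succ']; congr 1; omega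
        rw [this] at h0
        have := congrArg (fun f : V →ₗ[K] V => f x) h0
        simpa using this
      have hx2 : (D.N ^ (k₀ - 1)) x = D.N ((D.N ^ (k₀ - 2)) x) := by
        have : D.N ^ (k₀ - 1) = D.N * D.N ^ (k₀ - 2) := by
          rw [← pow_succ']; congr 1; omega
        rw [this]
        rfl
      apply h _ hx1
      intro y hy
      rw [hx2]
      exact range_le_orth D _ y hy
    rw [hN, LinearMap.ker_zero, finrank_top]
  · intro h x hx hy
    have htop : LinearMap.ker D.N = ⊤ := Submodule.eq_top_of_finrank_eq h.symm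
    apply D.nondeg
    intro y
    apply hy
    have : y ∈ LinearMap.ker D.N := by rw [htop]; trivial
    exact this

theorem nondeg_of_le [FiniteDimensional K V] (h2 : (2 : K) ≠ 0)
    (h : finrank K V ≤ finrank K (LinearMap.ker D.N) + 1) : D.HeightNondegenerate := by
  obtain ⟨m, hm⟩ := exists_parity D h2
  rw [nondeg_iff]
  omega

end Pool.Agent.X310.Sch
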