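import Pool.Agent.X310.OrtDefs
import Pool.Agent.X310.Sch

namespace Pool.Agent.X310.Ort

open Module

variable {K V : Type} [Field K] [AddCommGroup V] [Module K V] (D : FrobeniusData K V)

/-- orthogonal decomposition with respect to a nondegenerate subspace -/
theorem exists_decomp [FiniteDimensional K V] (A : Submodule K V)
    (hA : ∀ x ∈ A, (∀ y ∈ A, D.B x y = 0) → x = 0) (x : V) :
    ∃ a ∈ A, ∀ y ∈ A, D.B (x - a) y = 0 := by
  let Φ : A →ₗ[K] (A →ₗ[K] K) :=
    { toFun := fun v => (D.B v).comp A.subtype
      map_add' := fun a b => by ext; simp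
      map_smul' := fun c a => by ext; simp }
  have hΦ : ∀ v y, Φ v y = D.B v y := fun _ _ => rfl
  have hinj : Function.Injective Φ := by
    rw [← LinearMap.ker_eq_bot, LinearMap.ker_eq_bot']
    intro m hm
    apply Subtype.ext
    apply hA m m.2
    intro y hy
    rw [← hΦ m ⟨y, hy⟩, hm]
    rfl
  have hsurj : Function.Surjective Φ :=
    (LinearMap.injective_iff_surjective_of_finrank_eq_finrank
      (Subspace.dual_finrank_eq (K := K) (V := A)).symm).1 hinj
  obtain ⟨a, ha⟩ := hsurj ((D.B x).comp A.subtype)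
  refine ⟨a, a.2, fun y hy => ?_⟩
  have := congrArg (fun f : A →ₗ[K] K => f ⟨y, hy⟩) ha
  rw [map_sub, LinearMap.sub_apply, sub_eq_zero]
  exact this.symm

/-- a Jordan block of size two inside a space of dimension at most two is isotropic -/
theorem isotropic (h2 : (2 : K) ≠ 0) (α : K) (w e : V) (hw : D.F w = α • w + e)
    (he : D.F e = α • e) (hF : α ≠ 0) : D.B e e = 0 ∧ D.B w e = 0 := by
  have h1 := D.isom e e
  have h2' := D.isom w e
  have h3 := D.isom w w
  rw [he] at h1
  rw [hw, he] at h2'
  rw [hw] at h3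
  simp only [map_add, map_smul, LinearMap.add_apply, LinearMap.smul_apply, smul_eq_mul] at h1 h2' h3
  have hs := D.symm e w
  rw [hs] at h3
  have hee : D.B e e = 0 := by
    by_cases hα : α * α = 1
    · -- from h2'
      have : α * D.B e e = 0 := by linear_combination h2' - (D.B w e) * hα
      exact (mul_eq_zero.1 this).resolve_left hF
    · have : (α * α - 1) * D.B e e = 0 := by linear_combination h1
      exact (mul_eq_zero.1 this).resolve_left (sub_ne_zero.2 hα)
  refine ⟨hee, ?_⟩
  rw [hee] at h2' h3
  by_cases hα : α * α = 1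
  · have : 2 * α * D.B w e = 0 := by linear_combination h3 - (D.B w w) * hα
    exact (mul_eq_zero.1 this).resolve_left (mul_ne_zero h2 hF)
  · have : (α * α - 1) * D.B w e = 0 := by linear_combination h2'
    exact (mul_eq_zero.1 this).resolve_left (sub_ne_zero.2 hα)

theorem F_inj {x : V} (h : D.F x = 0) : x = 0 := by
  apply D.nondeg
  intro y
  rw [← D.isom, h, map_zero]
  rfl

theorem linIndep_pair {α : K} {w e : V} (hw : D.F w = α • w + e) (he : D.F e = α • e)
    (hne : e ≠ 0) : LinearIndependent K ![w, e] := by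
  rw [LinearIndependent.pair_iff]
  intro s t h
  have hs : s = 0 := by
    have h1 := congrArg D.F h
    rw [map_add, map_smul, map_smul, hw, he, map_zero] at h1
    have h3 : s • e = 0 := by
      have : s • (α • w + e) + t • α • e = α • (s • w + t • e) + s • e := by
        module
      rw [this, h, smul_zero, zero_add] at h1
      exact h1
    exact (smul_eq_zero.1 h3).resolve_right hne
  rw [hs, zero_smul, zero_add] at h
  exact ⟨hs, (smul_eq_zero.1 h).resolve_right hne⟩

/-- the key lemma: a subspace `U`, with `A ≤ U`, `dim U ≤ dim A + 2`. -/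
theorem key [FiniteDimensional K V] (h2 : (2 : K) ≠ 0) (U A : Submodule K V) (hAU : A ≤ U)
    (hA : ∀ x ∈ A, (∀ y ∈ A, D.B x y = 0) → x = 0)
    (hdim : finrank K U ≤ finrank K A + 2) {α : K} {w e : V} (hwU : w ∈ U) (heU : e ∈ U)
    (hwA : ∀ y ∈ A, D.B w y = 0) (heA : ∀ y ∈ A, D.B e y = 0)
    (hw : D.F w = α • w + e) (he : D.F e = α • e) : ∀ y ∈ U, D.B e y = 0 := by
  by_cases hne : e = 0
  · intro y _
    rw [hne, map_zero]; rfl
  have hα : α ≠ 0 := by
    intro h
    rw [h, zero_smul] at he
    exact hne (F_inj D he)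
  obtain ⟨hee, hwe⟩ := isotropic D h2 α w e hw he hα
  -- W = U ∩ A^⊥ has dimension ≤ 2 and contains w, e
  have hind := linIndep_pair D hw he hne
  let W : Submodule K V := Submodule.span K (Set.range ![w, e])
  have hWdim : finrank K W = 2 := by
    have := finrank_span_eq_card hind
    simpa using this
  have hWA : Disjoint W A := by
    rw [Submodule.disjoint_def]
    intro x hx hxA
    apply hA x hxA
    intro y hy
    have : ∀ z ∈ W, D.B z y = 0 := by
      intro z hz
      induction hz using Submodule.span_induction with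
      | mem z hz =>
        obtain ⟨i, rfl⟩ := hz
        fin_cases i
        · exact hwA y hy
        · exact heA y hy
      | zero => rw [map_zero]; rfl
      | add a b _ _ ha hb => rw [map_add, LinearMap.add_apply, ha, hb, add_zero]
      | smul c a _ ha => rw [map_smul, LinearMap.smul_apply, ha, smul_zero]
    exact this x hx
  have hWU : W ≤ U := by
    rw [Submodule.span_le]
    rintro _ ⟨i, rfl⟩
    fin_cases i
    · exact hwU
    · exact heU
  have hsum : finrank K (W ⊔ A : Submodule K V) = 2 + finrank K A := by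
    have h1 := Submodule.finrank_sup_add_finrank_inf_eq W A
    rw [hWA.eq_bot, finrank_bot, add_zero, hWdim] at h1
    exact h1
  have hle : W ⊔ A ≤ U := sup_le hWU hAU
  have heq : W ⊔ A = U := Submodule.eq_of_le_of_finrank_le hle (by rw [hsum]; omega)
  have hWe : ∀ z ∈ W, D.B e z = 0 := by
    intro z hz
    induction hz using Submodule.span_induction with
    | mem z hz =>
      obtain ⟨i, rfl⟩ := hz
      fin_cases i
      · change D.B e w = 0
        rw [D.symm]; exact hwe
      · exact hee
    | zero => rw [map_zero]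
    | add a b _ _ ha hb => rw [map_add, ha, hb, add_zero]
    | smul c a _ ha => rw [map_smul, ha, smul_zero]
  intro y hy
  rw [← heq] at hy
  obtain ⟨z, hz, a, ha, rfl⟩ := Submodule.mem_sup.1 hy
  rw [map_add, heA a ha, add_zero]
  exact hWe z hz

/-- semisimplicity at the eigenvalue `1` -/
theorem semisimple_one [FiniteDimensional K V] (h2 : (2 : K) ≠ 0) (A : Submodule K V)
    (hfix : ∀ x ∈ A, D.F x = x) (hA : ∀ x ∈ A, (∀ y ∈ A, D.B x y = 0) → x = 0)
    (hdim : finrank K (Module.End.maxGenEigenspace D.F 1) ≤ finrank K A + 2) :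
    D.SemisimpleAt 1 := by
  intro x hx
  rw [one_smul, one_smul] at hx
  rw [one_smul]
  obtain ⟨e, he⟩ : ∃ e, e = D.F x - x := ⟨_, rfl⟩
  rw [← he] at hx
  have hxe : D.F x = x + e := by rw [he]; abel
  suffices h : e = 0 by rw [hxe, h, add_zero]
  -- adjust x by A
  obtain ⟨a, haA, ha⟩ := exists_decomp D A hA x
  obtain ⟨w, hw⟩ : ∃ w, w = x - a := ⟨_, rfl⟩
  rw [← hw] at ha
  have hwe : D.F w = (1 : K) • w + e := by
    rw [hw, map_sub, hfix a haA, hxe, one_smul]; abel
  have hee : D.F e = (1 : K) • e := by rw [one_smul, hx]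
  set U := Module.End.maxGenEigenspace D.F 1 with hU
  have hsub : ∀ z : V, (D.F - (1 : K) • (1 : Module.End K V)) z = D.F z - z := by
    intro z
    rw [one_smul, LinearMap.sub_apply]
    rfl
  have hAU : A ≤ U := by
    intro z hz
    rw [hU, Module.End.mem_maxGenEigenspace]
    exact ⟨1, by rw [pow_one, hsub, hfix z hz, sub_self]⟩
  have heU : e ∈ U := by
    rw [hU, Module.End.mem_maxGenEigenspace]
    exact ⟨1, by rw [pow_one, hsub, hx, sub_self]⟩
  have hwU : w ∈ U := by
    rw [hU, Module.End.mem_maxGenEigenspace]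
    refine ⟨2, ?_⟩
    rw [pow_two]
    change (D.F - (1 : K) • (1 : Module.End K V)) ((D.F - (1 : K) • (1 : Module.End K V)) w) = 0
    rw [hsub, hsub, hwe, one_smul, add_sub_cancel_left, hx, sub_self]
  have heA : ∀ y ∈ A, D.B e y = 0 := by
    intro y hy
    have h1 := D.isom w y
    rw [hwe, hfix y hy, one_smul, map_add, LinearMap.add_apply] at h1
    linear_combination h1
  have hEU := key D h2 U A hAU hA hdim hwU heU ha heA hwe hee
  -- e is orthogonal to range (F - 1)
  have hrange : ∀ z, D.B e (D.F z - z) = 0 := by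
    intro z
    have h1 := D.isom e z
    rw [hx] at h1
    rw [map_sub, h1, sub_self]
  apply D.nondeg
  intro y
  obtain ⟨n, hn, hn1⟩ := ((LinearMap.eventually_isCompl_ker_pow_range_pow
    (D.F - (1 : K) • (1 : Module.End K V))).and (Filter.eventually_ge_atTop 1)).exists
  have hy : y ∈ LinearMap.ker ((D.F - (1 : K) • (1 : Module.End K V)) ^ n) ⊔
      LinearMap.range ((D.F - (1 : K) • (1 : Module.End K V)) ^ n) := by
    rw [hn.sup_eq_top]; trivial
  obtain ⟨u, hu, _, ⟨z, rfl⟩, rfl⟩ := Submodule.mem_sup.1 hy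
  rw [map_add, hEU u (by
    rw [hU, Module.End.mem_maxGenEigenspace]
    exact ⟨n, hu⟩), zero_add]
  obtain ⟨m, rfl⟩ : ∃ m, n = m + 1 := ⟨n - 1, by omega⟩
  rw [pow_succ']
  change D.B e ((D.F - (1 : K) • (1 : Module.End K V))
    (((D.F - (1 : K) • (1 : Module.End K V)) ^ m) z)) = 0
  rw [hsub]
  exact hrange _

theorem semisimple_all [FiniteDimensional K V] (h2 : (2 : K) ≠ 0) (A : Submodule K V)
    (hA : D.AlgebraicClasses A) (hdim : finrank K V ≤ finrank K A + 2) (α : K) :
    D.SemisimpleAt α := by
  obtain ⟨hst, hnd, hss⟩ := hA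
  intro x hx
  -- F is surjective on A
  have horth : ∀ z : V, (∀ y ∈ A, D.B z y = 0) → ∀ y ∈ A, D.B (D.F z) y = 0 := by
    intro z hz y hy
    let FA : A →ₗ[K] A := D.F.restrict hst
    have hinj : Function.Injective FA := by
      rw [← LinearMap.ker_eq_bot, LinearMap.ker_eq_bot']
      intro m hm
      have : D.F m = 0 := congrArg Subtype.val hm
      exact Subtype.ext (F_inj D this)
    have hsurj := LinearMap.injective_iff_surjective.1 hinj
    obtain ⟨y', hy'⟩ := hsurj ⟨y, hy⟩
    have : D.F y' = y := congrArg Subtype.val hy'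
    rw [← this, D.isom]
    exact hz y' y'.2
  obtain ⟨a, haA, ha⟩ := exists_decomp D A hnd x
  obtain ⟨w, hw⟩ : ∃ w, w = x - a := ⟨_, rfl⟩
  rw [← hw] at ha
  have hxa : x = a + w := by rw [hw]; abel
  -- split the condition
  obtain ⟨ea, hea⟩ : ∃ ea, ea = D.F a - α • a := ⟨_, rfl⟩
  obtain ⟨e, he⟩ : ∃ e, e = D.F w - α • w := ⟨_, rfl⟩
  have heaA : ea ∈ A := hea ▸ A.sub_mem (hst a haA) (A.smul_mem _ haA)
  have hperp : ∀ z : V, (∀ y ∈ A, D.B z y = 0) → ∀ y ∈ A, D.B (D.F z - α • z) y = 0 := by
    intro z hz y hy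
    rw [map_sub, map_smul, LinearMap.sub_apply, LinearMap.smul_apply, hz y hy,
      horth z hz y hy, smul_zero, sub_zero]
  have heperp : ∀ y ∈ A, D.B e y = 0 := by rw [he]; exact hperp w ha
  have hsum : (D.F ea - α • ea) + (D.F e - α • e) = 0 := by
    have h1 : D.F x - α • x = ea + e := by
      rw [hea, he, hxa, map_add]; module
    rw [h1, map_add] at hx
    have : (D.F ea - α • ea) + (D.F e - α • e) = (D.F ea + D.F e) - α • (ea + e) := by module
    rw [this, hx, sub_self]
  have hfa : D.F ea - α • ea = 0 := by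
    apply hnd _ (A.sub_mem (hst ea heaA) (A.smul_mem _ heaA))
    intro y hy
    have h1 : D.F ea - α • ea = -(D.F e - α • e) := eq_neg_of_add_eq_zero_left hsum
    rw [h1, map_neg, LinearMap.neg_apply, hperp e heperp y hy, neg_zero]
  have hfe : D.F e - α • e = 0 := by rwa [hfa, zero_add] at hsum
  have h1 : D.F a = α • a := hss α a haA (by rw [← hea]; exact sub_eq_zero.1 hfa)
  have hwe : D.F w = α • w + e := by rw [he]; abel
  have h3 := key D h2 ⊤ A le_top hnd (by rw [finrank_top]; exact hdim) (Submodule.mem_top)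
    (Submodule.mem_top) ha heperp hwe (sub_eq_zero.1 hfe)
  have he0 : e = 0 := D.nondeg e fun y => h3 y Submodule.mem_top
  rw [hxa, map_add, h1, hwe, he0]
  module

theorem parity [FiniteDimensional K V] (h2 : (2 : K) ≠ 0) :
    ∃ m : ℕ, finrank K V = finrank K (LinearMap.ker (D.F - LinearMap.id))
      + finrank K (LinearMap.ker (D.F + LinearMap.id)) + 2 * m := by
  let S : V →ₗ[K] V →ₗ[K] K :=
    (D.B ∘ₗ (D.F - LinearMap.id)).compl₂ (D.F + LinearMap.id)
  have hS : ∀ x y, S x y = D.B (D.F x - x) (D.F y + y) := fun _ _ => rfl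
  obtain ⟨m, hm⟩ := Pool.Agent.X310.Sch.rank_even h2 S (fun x y => by
    rw [hS, hS]
    simp only [map_sub, map_add, LinearMap.sub_apply]
    rw [D.isom, D.isom, D.symm (D.F y) x, D.symm y (D.F x), D.symm y x]
    ring)
  have hker : LinearMap.ker S = LinearMap.ker (D.F - LinearMap.id) ⊔
      LinearMap.ker (D.F + LinearMap.id) := by
    ext x
    constructor
    · intro hx
      rw [LinearMap.mem_ker] at hx
      -- F (F x) = x
      have h1 : D.F (D.F x) = x := by
        have h3 : D.F (D.F x) - x = 0 := by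
          apply D.nondeg
          intro y
          -- write y = F y'
          have hFinj : Function.Injective D.F := by
            rw [← LinearMap.ker_eq_bot, LinearMap.ker_eq_bot']
            exact fun m hm => F_inj D hm
          obtain ⟨y', rfl⟩ := LinearMap.injective_iff_surjective.1 hFinj y
          have h4 : S x y' = 0 := by rw [hx]; rfl
          rw [hS] at h4
          simp only [map_sub, map_add, LinearMap.sub_apply] at h4 ⊢
          rw [D.isom] at h4
          rw [D.isom]
          linear_combination h4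
        exact sub_eq_zero.1 h3
      rw [Submodule.mem_sup]
      refine ⟨(2 : K)⁻¹ • (x + D.F x), ?_, (2 : K)⁻¹ • (x - D.F x), ?_, ?_⟩
      · rw [LinearMap.mem_ker, LinearMap.sub_apply, LinearMap.id_apply, map_smul, map_add, h1]
        module
      · rw [LinearMap.mem_ker, LinearMap.add_apply, LinearMap.id_apply, map_smul, map_sub, h1]
        module
      · rw [← smul_add]
        have : x + D.F x + (x - D.F x) = (2 : K) • x := by module
        rw [this, smul_smul, inv_mul_cancel₀ h2, one_smul]
    · intro hx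
      obtain ⟨u, hu, v, hv, rfl⟩ := Submodule.mem_sup.1 hx
      rw [LinearMap.mem_ker, LinearMap.sub_apply, LinearMap.id_apply, sub_eq_zero] at hu
      rw [LinearMap.mem_ker, LinearMap.add_apply, LinearMap.id_apply] at hv
      have hv' : D.F v = -v := eq_neg_of_add_eq_zero_left hv
      rw [LinearMap.mem_ker]
      ext y
      have e1 : D.F (u + v) - (u + v) = (-2 : K) • v := by
        rw [map_add, hu, hv']; module
      have e2 : D.B v y = - D.B v (D.F y) := by
        have := D.isom v y
        rw [hv', map_neg, LinearMap.neg_apply] at this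
        exact this.symm
      rw [hS, e1, map_smul, LinearMap.smul_apply, map_add, e2]
      simp
  have hdisj : LinearMap.ker (D.F - LinearMap.id) ⊓ LinearMap.ker (D.F + LinearMap.id) = ⊥ := by
    rw [eq_bot_iff]
    rintro x ⟨h1, h3⟩
    have h1' : D.F x = x := by
      have : (D.F - (LinearMap.id : V →ₗ[K] V)) x = 0 := h1
      rw [LinearMap.sub_apply, LinearMap.id_apply, sub_eq_zero] at this
      exact this
    have h3' : D.F x + x = 0 := h3
    rw [h1'] at h3'
    have : (2 : K) • x = 0 := by rw [← h3']; module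
    exact (smul_eq_zero.1 this).resolve_left h2
  have hfin := Submodule.finrank_sup_add_finrank_inf_eq (LinearMap.ker (D.F - LinearMap.id))
    (LinearMap.ker (D.F + LinearMap.id))
  rw [hdisj, finrank_bot, add_zero, ← hker] at hfin
  exact ⟨m, by rw [hm, hfin]⟩

end Pool.Agent.X310.Ort
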