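import Mathlib

/-! Definitions: an isometry of a nondegenerate symmetric form (Frobenius on `H²(1)`). -/

namespace Pool.Agent.X310.Ort

open Module

/-- The data: a finite-dimensional space with a nondegenerate symmetric form `B` (cup product)
and an endomorphism `F` preserving it (the Frobenius divided by `q`). -/
structure FrobeniusData (K V : Type) [Field K] [AddCommGroup V] [Module K V] where
  /-- the normalised Frobenius -/
  F : V →ₗ[K] V
  /-- the cup product -/
  B : V →ₗ[K] V →ₗ[K] K
  symm : ∀ x y, B x y = B y x
  nondeg : ∀ x, (∀ y, B x y = 0) → x = 0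
  isom : ∀ x y, B (F x) (F y) = B x y

variable {K V : Type} [Field K] [AddCommGroup V] [Module K V]

/-- `F` is semisimple at `α`: the generalised eigenspace is the eigenspace. -/
def FrobeniusData.SemisimpleAt (D : FrobeniusData K V) (α : K) : Prop :=
  ∀ x, (D.F (D.F x - α • x) = α • (D.F x - α • x)) → D.F x = α • x

/-- A subspace (the algebraic classes) which is `F`-stable, on which `B` is nondegenerate and `F`
is semisimple. -/
def FrobeniusData.AlgebraicClasses (D : FrobeniusData K V) (A : Submodule K V) : Prop :=
  (∀ x ∈ A, D.F x ∈ A) ∧ (∀ x ∈ A, (∀ y ∈ A, D.B x y = 0) → x = 0) ∧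
    ∀ α : K, ∀ x ∈ A, (D.F (D.F x - α • x) = α • (D.F x - α • x)) → D.F x = α • x

end Pool.Agent.X310.Ort
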