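import Mathlib

/-! Odd rational class functions on a finite group with a central involution are spanned by functions
induced from cyclic subgroups. -/

set_option autoImplicit false

namespace Pool.Agent.X310.RatF

open Finset

variable {Γ : Type} [Group Γ] [Fintype Γ]

/-- Odd rational class functions. -/
structure IsRat (z : Γ) (f : Γ → ℚ) : Prop where
  odd : ∀ x, f (z * x) = - f x
  cls : ∀ x y, f (y⁻¹ * x * y) = f x
  pow : ∀ k : ℕ, k.Coprime (Nat.card Γ) → ∀ x, f (x ^ k) = f x

/-- The space of odd rational class functions. -/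
def W (z : Γ) : Submodule ℚ (Γ → ℚ) where
  carrier := {f | IsRat z f}
  add_mem' := by
    intro a b ha hb
    refine ⟨fun x => ?_, fun x y => ?_, fun k hk x => ?_⟩
    · simp only [Pi.add_apply, ha.odd, hb.odd]; ring
    · simp only [Pi.add_apply, ha.cls, hb.cls]
    · simp only [Pi.add_apply, ha.pow k hk, hb.pow k hk]
  zero_mem' := ⟨fun x => by simp, fun x y => rfl, fun k hk x => rfl⟩
  smul_mem' := by
    intro r a ha
    refine ⟨fun x => ?_, fun x y => ?_, fun k hk x => ?_⟩
    · simp only [Pi.smul_apply, ha.odd, smul_neg]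
    · simp only [Pi.smul_apply, ha.cls]
    · simp only [Pi.smul_apply, ha.pow k hk]

theorem pow_coprime {f : Γ → ℚ} (hpow : ∀ k : ℕ, k.Coprime (Nat.card Γ) → ∀ x, f (x ^ k) = f x)
    (g : Γ) (i : ℕ) (hi : i.Coprime (orderOf g)) : f (g ^ i) = f g := by
  have hN : orderOf g ∣ Nat.card Γ := orderOf_dvd_natCard g
  haveI : NeZero (Nat.card Γ) := ⟨Nat.card_pos.ne'⟩
  haveI : NeZero (orderOf g) := ⟨(orderOf_pos g).ne'⟩
  obtain ⟨u, hu⟩ := ZMod.unitsMap_surjective hN (ZMod.unitOfCoprime i hi)
  have h1 : ((u : ZMod (Nat.card Γ)).val : ZMod (orderOf g)) = (i : ZMod (orderOf g)) := by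
    have h2 := congrArg (fun v : (ZMod (orderOf g))ˣ => (v : ZMod (orderOf g))) hu
    simp only [ZMod.unitsMap_val, ZMod.coe_unitOfCoprime] at h2
    rw [ZMod.natCast_val]
    exact h2
  rw [ZMod.natCast_eq_natCast_iff] at h1
  have h3 : g ^ (u : ZMod (Nat.card Γ)).val = g ^ i := pow_eq_pow_iff_modEq.2 h1
  rw [← h3]
  exact hpow _ (ZMod.val_coe_unit_coprime u) g

theorem vanish_aux (z : Γ) {f : Γ → ℚ}
    (hpow : ∀ k : ℕ, k.Coprime (Nat.card Γ) → ∀ x, f (x ^ k) = f x)
    (h0 : ∀ g, z ∉ Subgroup.zpowers g → ∑ i ∈ range (orderOf g), f (g ^ i) = 0) :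
    ∀ n, ∀ g, orderOf g = n → z ∉ Subgroup.zpowers g → f g = 0 := by
  intro n
  induction n using Nat.strong_induction_on with
  | _ n ih =>
    intro g hg hz
    have h1 := h0 g hz
    rw [hg, ← Finset.sum_filter_add_sum_filter_not (range n) (fun i => n.Coprime i)] at h1
    have h2 : ∑ i ∈ (range n).filter (fun i => n.Coprime i), f (g ^ i) = (Nat.totient n : ℚ) * f g := by
      rw [Nat.totient, ← nsmul_eq_mul, ← Finset.sum_const]
      refine Finset.sum_congr rfl fun i hi => ?_
      have h3 := (Finset.mem_filter.1 hi).2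
      exact pow_coprime hpow g i (by rw [hg]; exact h3.symm)
    have h4 : ∑ i ∈ (range n).filter (fun i => ¬ n.Coprime i), f (g ^ i) = 0 := by
      refine Finset.sum_eq_zero fun i hi => ?_
      have h5 := (Finset.mem_filter.1 hi).2
      have h6 : orderOf (g ^ i) < n := by
        rw [orderOf_pow, hg]
        have hn : 0 < n := by rw [← hg]; exact orderOf_pos g
        refine Nat.div_lt_self hn ?_
        have h7 : 0 < Nat.gcd n i := Nat.gcd_pos_of_pos_left _ hn
        have h8 : Nat.gcd n i ≠ 1 := h5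
        omega
      refine ih _ h6 (g ^ i) rfl fun h9 => hz ?_
      exact Subgroup.zpowers_le.2 (Subgroup.npow_mem_zpowers g i) h9
    rw [h2, h4, add_zero] at h1
    rcases mul_eq_zero.1 h1 with h5 | h5
    · exfalso
      have h6 : Nat.totient n = 0 := by exact_mod_cast h5
      rw [Nat.totient_eq_zero] at h6
      have h7 := orderOf_pos g
      omega
    · exact h5

theorem vanish {z : Γ} (hz2 : z * z = 1) {f : Γ → ℚ} (hodd : ∀ x, f (z * x) = - f x)
    (hpow : ∀ k : ℕ, k.Coprime (Nat.card Γ) → ∀ x, f (x ^ k) = f x)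
    (h0 : ∀ g, z ∉ Subgroup.zpowers g → ∑ i ∈ range (orderOf g), f (g ^ i) = 0) : f = 0 := by
  funext g
  rw [Pi.zero_apply]
  by_cases h1 : z ∈ Subgroup.zpowers g
  · by_cases h2 : z ∈ Subgroup.zpowers (z * g)
    · have h3 : g ∈ Subgroup.zpowers (z * g) := by
        have h4 := (Subgroup.zpowers (z * g)).mul_mem h2 (Subgroup.mem_zpowers (z * g))
        rwa [← mul_assoc, hz2, one_mul] at h4
      obtain ⟨a, ha⟩ := (mem_powers_iff_mem_zpowers.2 h1 : z ∈ Submonoid.powers g)
      have h5 : z * g = g ^ (a + 1) := by rw [pow_succ, ← ha]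
      rw [h5] at h3
      have h6 : (a + 1).Coprime (orderOf g) := by
        have h7 := mem_zpowers_pow_iff.1 h3
        first
          | exact h7
          | exact h7.symm
      have h7 := pow_coprime hpow g (a + 1) h6
      rw [← h5, hodd] at h7
      linarith
    · have h3 := vanish_aux z hpow h0 _ (z * g) rfl h2
      rw [hodd] at h3
      linarith
  · exact vanish_aux z hpow h0 _ g rfl h1

open Classical in
/-- The function induced from the sign character of `⟨g⟩ × ⟨z⟩` (not normalised). -/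
noncomputable def v (z g : Γ) : Γ → ℚ := fun x =>
  ∑ y : Γ, ((if y⁻¹ * x * y ∈ Subgroup.zpowers g then 1 else 0) -
    if z * (y⁻¹ * x * y) ∈ Subgroup.zpowers g then 1 else 0)

theorem pow_mem_iff (t g : Γ) (k : ℕ) (hk : k.Coprime (Nat.card Γ)) :
    t ^ k ∈ Subgroup.zpowers g ↔ t ∈ Subgroup.zpowers g := by
  constructor
  · intro h
    have h1 : t ∈ Subgroup.zpowers (t ^ k) := by
      rw [mem_zpowers_pow_iff]
      have h2 : k.Coprime (orderOf t) := Nat.Coprime.coprime_dvd_right (orderOf_dvd_natCard t) hk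
      first
        | exact h2
        | exact h2.symm
    exact Subgroup.zpowers_le.2 h h1
  · intro h
    exact Subgroup.pow_mem _ h k

theorem z_pow {z : Γ} (hz2 : z * z = 1) (k : ℕ) (hk : k.Coprime (Nat.card Γ)) : z ^ k = z := by
  by_cases h : z = 1
  · rw [h, one_pow]
  · have h1 : orderOf z = 2 := by
      rw [orderOf_eq_prime_iff]
      exact ⟨by rw [pow_two, hz2], h⟩
    have h2 : 2 ∣ Nat.card Γ := by rw [← h1]; exact orderOf_dvd_natCard z
    have h3 : k.Coprime 2 := Nat.Coprime.coprime_dvd_right h2 hk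
    have h4 : Odd k := Nat.coprime_two_right.1 h3
    obtain ⟨m, rfl⟩ := h4
    rw [pow_succ, pow_mul, pow_two, hz2, one_pow, one_mul]

theorem v_mem {z : Γ} (hz : ∀ x, z * x = x * z) (hz2 : z * z = 1) (g : Γ) : v z g ∈ W z := by
  classical
  refine ⟨fun x => ?_, fun x y => ?_, fun k hk x => ?_⟩
  · unfold v
    rw [← Finset.sum_neg_distrib]
    refine Finset.sum_congr rfl fun y _ => ?_
    have h1 : y⁻¹ * (z * x) * y = z * (y⁻¹ * x * y) := by
      rw [← mul_assoc y⁻¹ z x, ← hz y⁻¹]
      group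
    rw [h1, ← mul_assoc z z, hz2, one_mul]
    ring
  · unfold v
    refine (Fintype.sum_equiv (Equiv.mulLeft y⁻¹) _ _ fun w => ?_).symm
    have h1 : ((Equiv.mulLeft y⁻¹) w)⁻¹ * (y⁻¹ * x * y) * ((Equiv.mulLeft y⁻¹) w) =
        w⁻¹ * x * w := by
      simp only [Equiv.coe_mulLeft]
      group
    rw [h1]
  · unfold v
    refine Finset.sum_congr rfl fun y _ => ?_
    have h1 : y⁻¹ * x ^ k * y = (y⁻¹ * x * y) ^ k := by
      have h3 := conj_pow (i := k) (a := y⁻¹) (b := x)
      rw [inv_inv] at h3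
      exact h3.symm
    have h2 : z * (y⁻¹ * x ^ k * y) = (z * (y⁻¹ * x * y)) ^ k := by
      have hcm : Commute z (y⁻¹ * x * y) := hz _
      rw [h1, hcm.mul_pow, z_pow hz2 k hk]
    rw [h2, h1]
    congr 1
    · exact if_congr (pow_mem_iff _ _ k hk) rfl rfl
    · exact if_congr (pow_mem_iff _ _ k hk) rfl rfl

open Classical in
theorem pairing {z : Γ} (hz2 : z * z = 1) {f : Γ → ℚ} (hf : IsRat z f) (g : Γ) :
    ∑ x, f x * v z g x = 2 * (Fintype.card Γ : ℚ) * ∑ i ∈ range (orderOf g), f (g ^ i) := by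
  have h1 : ∑ i ∈ range (orderOf g), f (g ^ i) =
      ∑ x, if x ∈ Subgroup.zpowers g then f x else 0 := by
    rw [← Finset.sum_filter, ← Finset.sum_image (f := f) (g := fun i => g ^ i)
      (s := range (orderOf g)) ?_]
    · refine Finset.sum_congr ?_ fun _ _ => rfl
      ext x
      rw [Finset.mem_filter, mem_zpowers_iff_mem_range_orderOf]
      simp
    · intro i hi j hj hij
      exact pow_injOn_Iio_orderOf (by simpa using hi) (by simpa using hj) hij
  have h2 : ∑ x, f x * v z g x = ∑ y : Γ, ∑ x : Γ,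
      (f x * (if y⁻¹ * x * y ∈ Subgroup.zpowers g then 1 else 0) -
        f x * if z * (y⁻¹ * x * y) ∈ Subgroup.zpowers g then 1 else 0) := by
    rw [Finset.sum_comm]
    refine Finset.sum_congr rfl fun x _ => ?_
    unfold v
    rw [Finset.mul_sum]
    refine Finset.sum_congr rfl fun y _ => ?_
    rw [mul_sub]
  rw [h2]
  have h3 : ∀ y : Γ, ∑ x : Γ,
      (f x * (if y⁻¹ * x * y ∈ Subgroup.zpowers g then 1 else 0) -
        f x * if z * (y⁻¹ * x * y) ∈ Subgroup.zpowers g then 1 else 0) =
      2 * ∑ x, if x ∈ Subgroup.zpowers g then f x else 0 := by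
    intro y
    rw [Finset.sum_sub_distrib]
    have h4 : ∑ x : Γ, f x * (if y⁻¹ * x * y ∈ Subgroup.zpowers g then 1 else 0) =
        ∑ x, if x ∈ Subgroup.zpowers g then f x else 0 := by
      refine Fintype.sum_equiv (MulAut.conj y⁻¹).toEquiv _ _ fun x => ?_
      have h5 : (MulAut.conj y⁻¹).toEquiv x = y⁻¹ * x * y := by
        simp [MulAut.conj_apply]
      rw [h5, hf.cls]
      by_cases h6 : y⁻¹ * x * y ∈ Subgroup.zpowers g
      · rw [if_pos h6, if_pos h6, mul_one]
      · rw [if_neg h6, if_neg h6, mul_zero]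
    have h7 : ∑ x : Γ, f x * (if z * (y⁻¹ * x * y) ∈ Subgroup.zpowers g then 1 else 0) =
        - ∑ x, if x ∈ Subgroup.zpowers g then f x else 0 := by
      rw [← Finset.sum_neg_distrib]
      refine Fintype.sum_equiv ((MulAut.conj y⁻¹).toEquiv.trans (Equiv.mulLeft z)) _ _ fun x => ?_
      have h5 : ((MulAut.conj y⁻¹).toEquiv.trans (Equiv.mulLeft z)) x = z * (y⁻¹ * x * y) := by
        simp [MulAut.conj_apply]
      rw [h5, hf.odd, hf.cls]
      by_cases h6 : z * (y⁻¹ * x * y) ∈ Subgroup.zpowers g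
      · rw [if_pos h6, if_pos h6, mul_one, neg_neg]
      · rw [if_neg h6, if_neg h6, mul_zero, neg_zero]
    rw [h4, h7]
    ring
  rw [Finset.sum_congr rfl fun y _ => h3 y, Finset.sum_const, Finset.card_univ, nsmul_eq_mul, h1]
  ring

/-- The span of the functions `v z g`, `z ∉ ⟨g⟩`. -/
noncomputable def V (z : Γ) : Submodule ℚ (Γ → ℚ) :=
  Submodule.span ℚ {f | ∃ g, z ∉ Subgroup.zpowers g ∧ f = v z g}

/-- **The span.** -/
theorem mem_span {z : Γ} (hz : ∀ x, z * x = x * z) (hz2 : z * z = 1) {f : Γ → ℚ}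
    (hf : IsRat z f) : f ∈ V z := by
  classical
  have hVW : V z ≤ W z := by
    refine Submodule.span_le.2 ?_
    rintro _ ⟨g, -, rfl⟩
    exact v_mem hz hz2 g
  -- the standard form
  let B : LinearMap.BilinForm ℚ (Γ → ℚ) := LinearMap.mk₂ ℚ (fun f h => ∑ x, f x * h x)
    (fun a b c => by simp only [Pi.add_apply, add_mul, Finset.sum_add_distrib])
    (fun r a b => by simp only [Pi.smul_apply, smul_eq_mul, mul_assoc, Finset.mul_sum])
    (fun a b c => by simp only [Pi.add_apply, mul_add, Finset.sum_add_distrib])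
    (fun r a b => by
      simp only [Pi.smul_apply, smul_eq_mul, Finset.mul_sum]
      exact Finset.sum_congr rfl fun x _ => by ring)
  have hB : ∀ a b, B a b = ∑ x, a x * b x := fun a b => rfl
  have hrefl : B.IsRefl := by
    intro a b h
    rw [hB] at h ⊢
    rw [← h]
    exact Finset.sum_congr rfl fun x _ => mul_comm _ _
  have hpos : ∀ a, B a a = 0 → a = 0 := by
    intro a h
    rw [hB] at h
    funext x
    have h1 := (Finset.sum_eq_zero_iff_of_nonneg fun i _ => mul_self_nonneg (a i)).1 h x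
      (Finset.mem_univ x)
    exact mul_self_eq_zero.1 h1
  have hnd : (B.restrict (V z)).Nondegenerate := by
    have h1 : ∀ m : V z, (∀ n, B.restrict (V z) m n = 0) → m = 0 := by
      intro m hm
      exact Subtype.ext (hpos m.1 (hm m))
    have h2 : ∀ m : V z, (∀ n, B.restrict (V z) n m = 0) → m = 0 := by
      intro m hm
      exact Subtype.ext (hpos m.1 (hm m))
    first
      | exact ⟨h1, h2⟩
      | exact h1
  have hc := LinearMap.BilinForm.isCompl_orthogonal_of_restrict_nondegenerate hrefl hnd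
  obtain ⟨a, ha, b, hb, hab⟩ := Submodule.mem_sup.1 (by
    rw [hc.sup_eq_top]; trivial : f ∈ V z ⊔ B.orthogonal (V z))
  have hb' : IsRat z b := by
    have h1 : b = f - a := by rw [← hab]; abel
    rw [h1]
    exact (W z).sub_mem hf (hVW ha)
  have hb0 : b = 0 := by
    refine vanish hz2 hb'.odd hb'.pow fun g hg => ?_
    have h1 : B (v z g) b = 0 := hb _ (Submodule.subset_span ⟨g, hg, rfl⟩)
    rw [hB] at h1
    have h2 := pairing hz2 hb' g
    rw [Finset.sum_congr rfl fun x _ => mul_comm (b x) (v z g x), h1] at h2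
    have h3 : (Fintype.card Γ : ℚ) ≠ 0 := by
      exact_mod_cast Fintype.card_ne_zero
    rcases mul_eq_zero.1 h2.symm with h4 | h4
    · exfalso
      rcases mul_eq_zero.1 h4 with h5 | h5
      · norm_num at h5
      · exact h3 h5
    · exact h4
  rw [hb0, add_zero] at hab
  rw [← hab]
  exact ha

end Pool.Agent.X310.RatF
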