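import Pool.Agent.X310.ColDefs

/-! Conjugacy in the Galois group of `K`. -/

set_option autoImplicit false

namespace Pool.Agent.X310.RatF

open Pool.Agent.X208.BR.Pk Pool.Agent.X208.CZ

/-- The restrictions of `g` and `h` to the Galois extension `K` of `ℚ` are conjugate in the Galois
group of `K`. -/
def ConjOn (K : Fld) (g h : GalQ) : Prop := ∃ x : GalQ, x * g * x⁻¹ * h⁻¹ ∈ G K

end Pool.Agent.X310.RatF
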