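import Pool.Agent.X310.Col3
import Pool.Agent.X310.RatA
import Pool.Agent.X310.RatDefs

set_option autoImplicit false

open Module

namespace Pool.Agent.X310.RatF

open Pool.Agent.X208.BR (Qb GK)
open Pool.Agent.X208.BR.Pk Pool.Agent.X208.CZ Pool.Agent.X310.Col

variable {c : GalQ} {K E : Fld}

/-- The inclusion. -/
noncomputable def incl (E : Fld) : Emb E :=
  algebraMap (show IntermediateField ℚ (AlgebraicClosure ℚ) from E) (AlgebraicClosure ℚ)

theorem act_incl (σ τ : GalQ) : act σ (incl E) = act τ (incl E) ↔ τ⁻¹ * σ ∈ G E := by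
  have h0 : ∀ ρ : GalQ, ρ ∈ G E ↔ act ρ (incl E) = incl E := by
    intro ρ
    have h1 : ρ ∈ G E ↔ ∀ x ∈ (show IntermediateField ℚ (AlgebraicClosure ℚ) from E),
        (show Gal(AlgebraicClosure ℚ/ℚ) from ρ) x = x :=
      IntermediateField.mem_fixingSubgroup_iff _ _
    rw [h1]
    constructor
    · intro h
      exact emb_ext fun x => h x.1 x.2
    · intro h x hx
      exact congrArg (fun f : Emb E => (show _ →+* AlgebraicClosure ℚ from f) ⟨x, hx⟩) h
  rw [h0, act_mul]
  constructor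
  · intro h
    rw [h, act_inv_act]
  · intro h
    have h1 := congrArg (act τ) h
    rw [act_act_inv] at h1
    exact h1

theorem mem_GK_of_le (h : E ≤ K) {σ : GalQ} (hσ : σ ∈ G K) : σ ∈ G E := G_anti h hσ

/-- The complex conjugation is central modulo `G K`. -/
theorem c_comm (hK : IsCM c K) (σ : GalQ) : (c * σ)⁻¹ * (σ * c) ∈ G K := by
  rw [← act_incl, act_mul, act_mul]
  exact (act_comm hK σ (incl K)).symm

/-- The fixed field. -/
noncomputable def fld (H : Subgroup GalQ) : Fld :=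
  IntermediateField.fixedField (show Subgroup Gal(AlgebraicClosure ℚ/ℚ) from H)

theorem G_fld_aux {K : IntermediateField ℚ Qb} (hK : FiniteDimensional ℚ K)
    {H : Subgroup Gal(Qb/ℚ)} (h : GK K ≤ H) :
    (IntermediateField.fixedField H).fixingSubgroup = H := by
  have hM : IsOpen ((GK K : Subgroup Gal(Qb/ℚ)) : Set Gal(Qb/ℚ)) :=
    (InfiniteGalois.isOpen_iff_finite _).2 hK
  have h1 : IsOpen ((H : Subgroup Gal(Qb/ℚ)) : Set Gal(Qb/ℚ)) :=
    Subgroup.isOpen_mono h hM
  have h2 : IsClosed ((H : Subgroup Gal(Qb/ℚ)) : Set Gal(Qb/ℚ)) :=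
    Subgroup.isClosed_of_isOpen _ h1
  exact InfiniteGalois.fixingSubgroup_fixedField ⟨H, h2⟩

theorem G_fld (hK : IsNF K) {H : Subgroup GalQ} (h : G K ≤ H) : G (fld H) = H :=
  G_fld_aux (K := (show IntermediateField ℚ Qb from K)) hK h

theorem fld_le (hK : IsNF K) {H : Subgroup GalQ} (h : G K ≤ H) : fld H ≤ K := by
  apply Pool.Agent.X208.BR.Model.le_of_GK
  have h1 : G (fld H) = H := G_fld hK h
  exact h.trans h1.ge

theorem mem_fld {H : Subgroup GalQ} (x : AlgebraicClosure ℚ) :
    x ∈ (show IntermediateField ℚ (AlgebraicClosure ℚ) from fld H) ↔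
      ∀ σ ∈ H, (show Gal(AlgebraicClosure ℚ/ℚ) from σ) x = x := by
  exact IntermediateField.mem_fixedField_iff _ _

theorem nf_of_le (hK : IsNF K) (h : E ≤ K) : IsNF E := Pool.Agent.X208.BR.fin_of_le h hK

theorem fld_isCM (hK : IsCM c K) {H : Subgroup GalQ} (h : G K ≤ H) (hcH : c ∉ H) :
    IsCM c (fld H) := by
  have hle := fld_le hK.1 h
  have hnf : IsNF (fld H) := nf_of_le hK.1 hle
  -- commutation on the field
  have hcm : ∀ σ : GalQ, ∀ x ∈ (show IntermediateField ℚ (AlgebraicClosure ℚ) from fld H),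
      (show Gal(AlgebraicClosure ℚ/ℚ) from σ) ((show Gal(AlgebraicClosure ℚ/ℚ) from c) x) =
      (show Gal(AlgebraicClosure ℚ/ℚ) from c) ((show Gal(AlgebraicClosure ℚ/ℚ) from σ) x) := by
    intro σ x hx
    have h1 : act (σ * c) (incl K) = act (c * σ) (incl K) :=
      (act_incl _ _).2 (c_comm hK σ)
    exact congrArg (fun f : Emb K => (show _ →+* AlgebraicClosure ℚ from f) ⟨x, hle hx⟩) h1
  have hst : ∀ x ∈ (show IntermediateField ℚ (AlgebraicClosure ℚ) from fld H),
      (show Gal(AlgebraicClosure ℚ/ℚ) from c) x ∈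
        (show IntermediateField ℚ (AlgebraicClosure ℚ) from fld H) := by
    intro x hx
    rw [mem_fld]
    intro σ hσ
    rw [hcm σ x hx, (mem_fld x).1 hx σ hσ]
  let ρ : (show IntermediateField ℚ (AlgebraicClosure ℚ) from fld H) →+*
      (show IntermediateField ℚ (AlgebraicClosure ℚ) from fld H) :=
    { toFun := fun x => ⟨(show Gal(AlgebraicClosure ℚ/ℚ) from c) x.1, hst x.1 x.2⟩
      map_one' := Subtype.ext (map_one (show Gal(AlgebraicClosure ℚ/ℚ) from c))
      map_mul' := fun x y => Subtype.ext (map_mul (show Gal(AlgebraicClosure ℚ/ℚ) from c) x.1 y.1)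
      map_zero' := Subtype.ext (map_zero (show Gal(AlgebraicClosure ℚ/ℚ) from c))
      map_add' := fun x y => Subtype.ext (map_add (show Gal(AlgebraicClosure ℚ/ℚ) from c) x.1 y.1) }
  refine ⟨hnf, ρ, ?_, ?_⟩
  · intro h1
    apply hcH
    rw [← G_fld hK.1 h]
    have h2 : c ∈ G (fld H) ↔ ∀ x ∈ (show IntermediateField ℚ (AlgebraicClosure ℚ) from fld H),
        (show Gal(AlgebraicClosure ℚ/ℚ) from c) x = x :=
      IntermediateField.mem_fixingSubgroup_iff _ _
    rw [h2]
    intro x hx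
    have h3 := congrArg (fun f : _ →+* _ => (f ⟨x, hx⟩ :
      (show IntermediateField ℚ (AlgebraicClosure ℚ) from fld H))) h1
    exact congrArg Subtype.val h3
  · intro ψ
    obtain ⟨σ, rfl⟩ := trans_act hnf (incl (fld H)) ψ
    refine emb_ext fun x => ?_
    exact (hcm σ x.1 x.2).symm

/-- The quotient group. -/
theorem nrmK (hn : IsNormal K) : (G K).Normal := fs_normal K hn

theorem cQ_sq (hc : IsConj c) [(G K).Normal] :
    (QuotientGroup.mk c : GalQ ⧸ G K) * QuotientGroup.mk c = 1 := by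
  rw [← QuotientGroup.mk_mul, conj_sq hc]
  rfl

theorem cQ_comm (hK : IsCM c K) [(G K).Normal] (x : GalQ ⧸ G K) :
    (QuotientGroup.mk c : GalQ ⧸ G K) * x = x * QuotientGroup.mk c := by
  induction x using QuotientGroup.induction_on with
  | H σ =>
    rw [← QuotientGroup.mk_mul, ← QuotientGroup.mk_mul, QuotientGroup.eq]
    exact c_comm hK σ

theorem c_not_mem (hK : IsCM c K) : c ∉ G K := by
  intro h
  have h1 : act c (incl K) = act 1 (incl K) := (act_incl _ _).2 (by simpa using h)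
  exact act_ne hK (incl K) h1

theorem cQ_ne (hK : IsCM c K) [(G K).Normal] : (QuotientGroup.mk c : GalQ ⧸ G K) ≠ 1 := by
  intro h
  exact c_not_mem hK ((QuotientGroup.eq_one_iff c).1 h)

theorem finQ (hK : IsNF K) : Finite (GalQ ⧸ G K) :=
  Nat.finite_of_card_ne_zero (Pool.Agent.X208.BR.index_ne_zero hK)

theorem cardQ (K : Fld) : Nat.card (GalQ ⧸ G K) = deg K := by
  have h1 : deg K = (G K).index :=
    IntermediateField.finrank_eq_fixingSubgroup_index (F := ℚ) (E' := Qb)
      (L := (show IntermediateField ℚ (AlgebraicClosure ℚ) from K))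
  rw [h1, Subgroup.index]

/-- The induced function as a difference of class functions. -/
theorem v_eq (hc : IsConj c) (hK : IsCM c K) [hN : (G K).Normal] [Fintype (GalQ ⧸ G K)]
    (g : GalQ ⧸ G K) (t : GalQ) :
    v (QuotientGroup.mk c : GalQ ⧸ G K) g (QuotientGroup.mk t) =
    (deg K : ℚ) * (a0 K (incl (fld ((Subgroup.zpowers g).comap (QuotientGroup.mk' (G K)))))
        {incl (fld ((Subgroup.zpowers g).comap (QuotientGroup.mk' (G K))))} t -
      a0 K (incl (fld ((Subgroup.zpowers g).comap (QuotientGroup.mk' (G K)))))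
        {act c (incl (fld ((Subgroup.zpowers g).comap (QuotientGroup.mk' (G K)))))} t) := by
  classical
  set H := (Subgroup.zpowers g).comap (QuotientGroup.mk' (G K)) with hH
  have hle : G K ≤ H := by
    intro x hx
    rw [hH, Subgroup.mem_comap]
    have h1 : QuotientGroup.mk' (G K) x = 1 := (QuotientGroup.eq_one_iff x).2 hx
    rw [h1]
    exact Subgroup.one_mem _
  have hGH : G (fld H) = H := G_fld hK.1 hle
  have hd : (deg K : ℚ) ≠ 0 := by
    rw [← cardQ K]
    exact_mod_cast Nat.card_pos.ne'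
  have hmem : ∀ s : GalQ, s ∈ H ↔ (QuotientGroup.mk s : GalQ ⧸ G K) ∈ Subgroup.zpowers g :=
    fun s => Iff.rfl
  have hcnt : ∀ (P : GalQ ⧸ G K → Prop) [DecidablePred P],
      (Nat.card {x : GalQ ⧸ G K // P x} : ℚ) = ∑ x, if P x then (1 : ℚ) else 0 := by
    intro P _
    rw [Nat.card_eq_fintype_card, Fintype.card_subtype, Finset.card_filter]
    push_cast
    rfl
  have hA : ∀ x : GalQ ⧸ G K, (act (x.out⁻¹ * t * x.out) (incl (fld H)) ∈
      ({incl (fld H)} : Set (Emb (fld H)))) ↔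
      x⁻¹ * (QuotientGroup.mk t : GalQ ⧸ G K) * x ∈ Subgroup.zpowers g := by
    intro x
    rw [Set.mem_singleton_iff]
    have h1 : act (x.out⁻¹ * t * x.out) (incl (fld H)) = incl (fld H) ↔
        act (x.out⁻¹ * t * x.out) (incl (fld H)) = act 1 (incl (fld H)) := Iff.rfl
    rw [h1, act_incl, hGH, inv_one, one_mul, hmem]
    rw [QuotientGroup.mk_mul, QuotientGroup.mk_mul, QuotientGroup.mk_inv, QuotientGroup.out_eq']
  have hB : ∀ x : GalQ ⧸ G K, (act (x.out⁻¹ * t * x.out) (incl (fld H)) ∈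
      ({act c (incl (fld H))} : Set (Emb (fld H)))) ↔
      (QuotientGroup.mk c : GalQ ⧸ G K) * (x⁻¹ * (QuotientGroup.mk t : GalQ ⧸ G K) * x) ∈
        Subgroup.zpowers g := by
    intro x
    rw [Set.mem_singleton_iff, act_incl, hGH, hmem]
    rw [QuotientGroup.mk_mul, QuotientGroup.mk_mul, QuotientGroup.mk_mul, QuotientGroup.mk_inv,
      QuotientGroup.mk_inv, QuotientGroup.out_eq']
    have h2 : (QuotientGroup.mk c : GalQ ⧸ G K)⁻¹ = QuotientGroup.mk c :=
      inv_eq_of_mul_eq_one_left (cQ_sq hc)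
    rw [h2]
  unfold a0 v
  rw [hcnt, hcnt, ← sub_div, mul_div_cancel₀ _ hd, ← Finset.sum_sub_distrib]
  refine Finset.sum_congr rfl fun x _ => ?_
  rw [if_congr (hA x) rfl rfl, if_congr (hB x) rfl rfl]

/-- **The law for odd rational class functions.** -/
theorem rat_law (T : ColmezData c) (hT : Known T) (hc : IsConj c) (hK : IsCM c K)
    (hn : IsNormal K) [hN : (G K).Normal] [Fintype (GalQ ⧸ G K)] {f : GalQ ⧸ G K → ℚ}
    (hf : IsRat (QuotientGroup.mk c : GalQ ⧸ G K) f) :
    T.h (fun t => f (QuotientGroup.mk t)) - T.Z (fun t => f (QuotientGroup.mk t)) = 0 := by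
  classical
  let L : (GalQ ⧸ G K → ℚ) →ₗ[ℚ] ℝ :=
    (T.h - T.Z) ∘ₗ (LinearMap.funLeft ℚ ℚ (fun t : GalQ => (QuotientGroup.mk t : GalQ ⧸ G K)))
  have hL : ∀ f, L f = T.h (fun t => f (QuotientGroup.mk t)) -
      T.Z (fun t => f (QuotientGroup.mk t)) := fun f => rfl
  rw [← hL]
  have h1 : V (QuotientGroup.mk c : GalQ ⧸ G K) ≤ LinearMap.ker L := by
    refine Submodule.span_le.2 ?_
    rintro _ ⟨g, hg, rfl⟩
    rw [SetLike.mem_coe, LinearMap.mem_ker, hL]
    have hv := funext fun t => v_eq hc hK g t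
    set H := (Subgroup.zpowers g).comap (QuotientGroup.mk' (G K)) with hH
    have hle : G K ≤ H := by
      intro x hx
      rw [hH, Subgroup.mem_comap]
      have h1 : QuotientGroup.mk' (G K) x = 1 := (QuotientGroup.eq_one_iff x).2 hx
      rw [h1]
      exact Subgroup.one_mem _
    have hcH : c ∉ H := hg
    have hCM := fld_isCM hK hle hcH
    have hov : Over K (fld H) := ⟨fld_le hK.1 hle, hK.1, hn⟩
    have hw := wgt_self T hT hc hCM hov (incl (fld H))
    have hv' : (fun t : GalQ => v (QuotientGroup.mk c : GalQ ⧸ G K) g (QuotientGroup.mk t)) =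
        (deg K : ℚ) • (a0 K (incl (fld H)) {incl (fld H)} -
          a0 K (incl (fld H)) {act c (incl (fld H))}) := hv
    rw [hv', map_smul, map_smul, map_sub, map_sub, ← smul_sub]
    have h2 : T.h (a0 K (incl (fld H)) {incl (fld H)}) -
        T.h (a0 K (incl (fld H)) {act c (incl (fld H))}) -
        (T.Z (a0 K (incl (fld H)) {incl (fld H)}) -
        T.Z (a0 K (incl (fld H)) {act c (incl (fld H))})) = 0 := by
      unfold wgt at hw
      linarith
    rw [h2, smul_zero]
  exact LinearMap.mem_ker.1 (h1 (mem_span (cQ_comm hK) (cQ_sq hc) hf))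

end Pool.Agent.X310.RatF
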