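import Pool.Agent.X310.RatB

set_option autoImplicit false

open Module

namespace Pool.Agent.X310.RatF

open Pool.Agent.X208.BR (Qb GK)
open Pool.Agent.X208.BR.Pk Pool.Agent.X208.CZ Pool.Agent.X310.Col

variable {c : GalQ} {K E : Fld}

/-- The condition in `a⁰` on the quotient group. -/
def PP (K : Fld) (ψ : Emb E) (Φ : Set (Emb E)) (t : GalQ ⧸ G K) : Prop := act t.out ψ ∈ Φ

theorem PP_mk (hov : Over K E) (ψ : Emb E) (Φ : Set (Emb E)) (s : GalQ) :
    PP K ψ Φ (QuotientGroup.mk s) ↔ act s ψ ∈ Φ := by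
  unfold PP
  have h1 : s⁻¹ * (QuotientGroup.mk s : GalQ ⧸ G K).out ∈ G K :=
    QuotientGroup.eq.1 (QuotientGroup.out_eq' _).symm
  have h2 : act (QuotientGroup.mk s : GalQ ⧸ G K).out ψ = act s ψ := by
    have h3 : (QuotientGroup.mk s : GalQ ⧸ G K).out =
        s * (s⁻¹ * (QuotientGroup.mk s : GalQ ⧸ G K).out) := by group
    rw [h3, act_mul, act_trivial hov h1]
  rw [h2]

open Classical in
/-- `a⁰` on the quotient group. -/
noncomputable def FF (K : Fld) [(G K).Normal] [Fintype (GalQ ⧸ G K)] (ψ : Emb E)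
    (Φ : Set (Emb E)) (t : GalQ ⧸ G K) : ℚ :=
  (∑ x : GalQ ⧸ G K, if PP K ψ Φ (x⁻¹ * t * x) then (1 : ℚ) else 0) / deg K

theorem a0_eq_FF (hov : Over K E) [(G K).Normal] [Fintype (GalQ ⧸ G K)] (ψ : Emb E)
    (Φ : Set (Emb E)) (g : GalQ) : a0 K ψ Φ g = FF K ψ Φ (QuotientGroup.mk g) := by
  classical
  unfold a0 FF
  congr 1
  rw [Nat.card_eq_fintype_card, Fintype.card_subtype, Finset.card_filter]
  push_cast
  refine Finset.sum_congr rfl fun x _ => ?_
  refine if_congr ?_ rfl rfl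
  rw [← PP_mk hov ψ Φ]
  rw [QuotientGroup.mk_mul, QuotientGroup.mk_mul, QuotientGroup.mk_inv, QuotientGroup.out_eq']

theorem FF_cls [(G K).Normal] [Fintype (GalQ ⧸ G K)] (ψ : Emb E)
    (Φ : Set (Emb E)) (t y : GalQ ⧸ G K) : FF K ψ Φ (y⁻¹ * t * y) = FF K ψ Φ t := by
  classical
  unfold FF
  congr 1
  refine Fintype.sum_equiv (Equiv.mulLeft y) _ _ fun x => ?_
  have h1 : x⁻¹ * (y⁻¹ * t * y) * x =
      ((Equiv.mulLeft y) x)⁻¹ * t * ((Equiv.mulLeft y) x) := by
    simp only [Equiv.coe_mulLeft]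
    group
  rw [h1]

theorem FF_odd (hov : Over K E) (hK : IsCM c K) [(G K).Normal] [Fintype (GalQ ⧸ G K)] (ψ : Emb E)
    {Φ : Set (Emb E)} (hΦ : IsType c Φ) (t : GalQ ⧸ G K) :
    FF K ψ Φ (QuotientGroup.mk c * t) = 1 - FF K ψ Φ t := by
  classical
  have hd : (deg K : ℚ) ≠ 0 := by
    rw [← cardQ K]
    exact_mod_cast Nat.card_pos.ne'
  unfold FF
  rw [eq_sub_iff_add_eq, ← add_div, div_eq_one_iff_eq hd, ← Finset.sum_add_distrib]
  have h1 : ∀ x : GalQ ⧸ G K, ((if PP K ψ Φ (x⁻¹ * (QuotientGroup.mk c * t) * x) then (1 : ℚ) else 0)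
      + if PP K ψ Φ (x⁻¹ * t * x) then (1 : ℚ) else 0) = 1 := by
    intro x
    have h2 : x⁻¹ * (QuotientGroup.mk c * t) * x = QuotientGroup.mk c * (x⁻¹ * t * x) := by
      rw [← mul_assoc x⁻¹, ← cQ_comm hK x⁻¹]
      group
    obtain ⟨s, hs⟩ := QuotientGroup.mk_surjective (x⁻¹ * t * x)
    rw [h2, ← hs, ← QuotientGroup.mk_mul]
    have h3 := PP_mk hov ψ Φ (c * s)
    have h4 := PP_mk hov ψ Φ s
    have h5 := hΦ (act s ψ)
    rw [act_mul] at h3
    by_cases h6 : act s ψ ∈ Φ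
    · rw [if_neg (fun h => (h5.1 h6) (h3.1 h)), if_pos (h4.2 h6), zero_add]
    · have h7 : act c (act s ψ) ∈ Φ := by
        by_contra h8
        exact h6 (h5.2 h8)
      rw [if_pos (h3.2 h7), if_neg (fun h => h6 (h4.1 h)), add_zero]
  rw [Finset.sum_congr rfl fun x _ => h1 x, Finset.sum_const, Finset.card_univ, nsmul_eq_mul,
    mul_one, ← Nat.card_eq_fintype_card, cardQ]

theorem const_law (T : ColmezData c) (hT : Known T) (hc : IsConj c) (hK : IsCM c K)
    (hn : IsNormal K) : T.h (fun _ => 1) - T.Z (fun _ => 1) = 0 := by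
  classical
  have : Finite (Emb K) := finite_emb hK.1
  haveI : Fintype (Emb K) := Fintype.ofFinite _
  have hov : Over K K := ⟨le_refl K, hK.1, hn⟩
  obtain ⟨Φ, hΦ⟩ := exists_type hc hK
  have h1 := hT.conj hK (incl K) Φ hΦ
  rw [T.colmez K (incl K) Φ hK hΦ hov, T.colmez K (act c (incl K)) Φ hK hΦ hov,
    a0_conj hc hK (incl K) Φ hΦ, ← map_add, a0_compl hov, a0_univ hov (incl K)] at h1
  rw [h1, sub_self]

/-- Multiplication by a unit permutes the exponents prime to `N`. -/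
theorem reindex (N : ℕ) (k0 : ℕ) (hk0 : k0.Coprime N) (F : ℕ → ℚ) (hF : ∀ k, F (k % N) = F k) :
    ∑ k ∈ (Finset.range N).filter (fun k => k.Coprime N), F (k0 * k) =
      ∑ k ∈ (Finset.range N).filter (fun k => k.Coprime N), F k := by
  set S := (Finset.range N).filter (fun k => k.Coprime N) with hS
  have hmem : ∀ k ∈ S, (k0 * k) % N ∈ S := by
    intro k hk
    rw [hS, Finset.mem_filter, Finset.mem_range] at hk ⊢
    refine ⟨Nat.mod_lt _ (by omega), ?_⟩
    have h1 : (k0 * k).Coprime N := Nat.Coprime.mul_left hk0 hk.2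
    rw [Nat.Coprime, ← Nat.gcd_rec, Nat.gcd_comm]
    exact h1
  have hinj : Set.InjOn (fun k => (k0 * k) % N) (S : Set ℕ) := by
    intro a ha b hb hab
    rw [Finset.mem_coe, hS, Finset.mem_filter, Finset.mem_range] at ha hb
    have h1 : k0 * a ≡ k0 * b [MOD N] := hab
    have h2 : a ≡ b [MOD N] := Nat.ModEq.cancel_left_of_coprime hk0.symm h1
    have h3 : a % N = b % N := h2
    rwa [Nat.mod_eq_of_lt ha.1, Nat.mod_eq_of_lt hb.1] at h3
  have himg : S.image (fun k => (k0 * k) % N) = S := by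
    refine Finset.eq_of_subset_of_card_le ?_ ?_
    · intro x hx
      rw [Finset.mem_image] at hx
      obtain ⟨k, hk, rfl⟩ := hx
      exact hmem k hk
    · rw [Finset.card_image_of_injOn hinj]
  conv_rhs => rw [← himg]
  rw [Finset.sum_image hinj]
  refine Finset.sum_congr rfl fun k _ => ?_
  rw [hF]

/-- **The trace law.** -/
theorem trace_law (T : ColmezData c) (hT : Known T) (hc : IsConj c) (hK : IsCM c K)
    (hn : IsNormal K) (hEK : E ≤ K) (ψ : Emb E) {Φ : Set (Emb E)} (hΦ : IsType c Φ) :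
    ∑ k ∈ (Finset.range (deg K)).filter (fun k => k.Coprime (deg K)),
      (T.h (fun g => a0 K ψ Φ (g ^ k)) - T.Z (fun g => a0 K ψ Φ (g ^ k))) = 0 := by
  classical
  haveI := nrmK hn
  haveI : Finite (GalQ ⧸ G K) := finQ hK.1
  haveI : Fintype (GalQ ⧸ G K) := Fintype.ofFinite _
  have hov : Over K E := ⟨hEK, hK.1, hn⟩
  set S := (Finset.range (deg K)).filter (fun k => k.Coprime (deg K)) with hS
  let f : GalQ ⧸ G K → ℚ := fun t => ∑ k ∈ S, (FF K ψ Φ (t ^ k) - 1 / 2)
  have hf : IsRat (QuotientGroup.mk c : GalQ ⧸ G K) f := by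
    refine ⟨fun x => ?_, fun x y => ?_, fun k hk x => ?_⟩
    · change ∑ k ∈ S, (FF K ψ Φ ((QuotientGroup.mk c * x) ^ k) - 1 / 2) =
        - ∑ k ∈ S, (FF K ψ Φ (x ^ k) - 1 / 2)
      rw [← Finset.sum_neg_distrib]
      refine Finset.sum_congr rfl fun k hk => ?_
      have hcm : Commute (QuotientGroup.mk c : GalQ ⧸ G K) x := cQ_comm hK x
      have hk' : k.Coprime (Nat.card (GalQ ⧸ G K)) := by
        rw [cardQ]
        exact (Finset.mem_filter.1 hk).2
      rw [hcm.mul_pow, z_pow (cQ_sq hc) k hk', FF_odd hov hK ψ hΦ]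
      ring
    · change ∑ k ∈ S, (FF K ψ Φ ((y⁻¹ * x * y) ^ k) - 1 / 2) =
        ∑ k ∈ S, (FF K ψ Φ (x ^ k) - 1 / 2)
      refine Finset.sum_congr rfl fun k hk => ?_
      have h3 := conj_pow (i := k) (a := y⁻¹) (b := x)
      rw [inv_inv] at h3
      rw [h3, FF_cls]
    · change ∑ j ∈ S, (FF K ψ Φ ((x ^ k) ^ j) - 1 / 2) = ∑ j ∈ S, (FF K ψ Φ (x ^ j) - 1 / 2)
      rw [cardQ] at hk
      rw [← reindex (deg K) k hk (fun j => FF K ψ Φ (x ^ j) - 1 / 2) (fun j => by
        rw [← cardQ K, pow_mod_natCard])]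
      refine Finset.sum_congr rfl fun j _ => ?_
      rw [pow_mul]
  have h1 := rat_law T hT hc hK hn hf
  have h2 := const_law T hT hc hK hn
  have h3 : (fun t : GalQ => f (QuotientGroup.mk t)) =
      ∑ k ∈ S, ((fun g => a0 K ψ Φ (g ^ k)) - (1 / 2 : ℚ) • (fun _ : GalQ => (1 : ℚ))) := by
    funext t
    rw [Finset.sum_apply]
    refine Finset.sum_congr rfl fun k _ => ?_
    rw [Pi.sub_apply, Pi.smul_apply, a0_eq_FF hov, QuotientGroup.mk_pow]
    simp
  rw [h3, map_sum, map_sum, ← Finset.sum_sub_distrib] at h1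
  rw [← h1]
  refine Finset.sum_congr rfl fun k _ => ?_
  rw [map_sub, map_sub, map_smul, map_smul]
  have h4 : T.h (fun _ => 1) = T.Z (fun _ => 1) := sub_eq_zero.1 h2
  rw [h4]
  ring

open Classical in
/-- If the formula holds for all CM types then the weights are even. -/
theorem wgt_even (T : ColmezData c) (hc : IsConj c) {K' : Fld} (hK' : IsCM c K')
    (hov : Over K K') (ψ : Emb K') (h : ∀ Φ : Set (Emb K'), IsType c Φ → T.Holds ψ Φ)
    (φ : Emb K') : wgt T ψ K (act c φ) = wgt T ψ K φ := by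
  have : Finite (Emb K') := finite_emb hK'.1
  haveI : Fintype (Emb K') := Fintype.ofFinite _
  have h1 : ∀ φ : Emb K', ∀ Φ : Set (Emb K'), IsType c Φ → φ ∈ Φ →
      wgt T ψ K (act c φ) = wgt T ψ K φ := by
    intro φ Φ hΦ hφ
    have h2 := h _ (swap_isType hc hK' φ hΦ)
    have h3 := h _ hΦ
    rw [holds_iff T hK' ψ hov (swap_isType hc hK' φ hΦ), wt_swap hc hK' _ φ hΦ, if_pos hφ] at h2
    rw [holds_iff T hK' ψ hov hΦ] at h3
    rw [h3, zero_add] at h2
    exact sub_eq_zero.1 h2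
  obtain ⟨Φ, hΦ⟩ := exists_type hc hK'
  by_cases hφ : φ ∈ Φ
  · exact h1 φ Φ hΦ hφ
  · have h3 : act c φ ∈ Φ := by
      by_contra h4
      exact hφ ((hΦ φ).2 h4)
    have h4 := h1 _ Φ hΦ h3
    rw [act_act hc] at h4
    exact h4.symm

/-- The law for odd class functions which depend only on the restriction to `K'`. -/
theorem sub_law (T : ColmezData c) (hc : IsConj c) {K' : Fld} (hK' : IsCM c K')
    (hov : Over K K') (h : ∀ (ψ : Emb K') (Φ : Set (Emb K')), IsType c Φ → T.Holds ψ Φ)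
    (D : GalQ → ℚ) (hD : ∀ g h, g⁻¹ * h ∈ G K' → D g = D h) (hcls : ∀ g x, D (x⁻¹ * g * x) = D g)
    (hodd : ∀ g, D (c * g) = - D g) : T.h D - T.Z D = 0 := by
  classical
  have : Finite (Emb K') := finite_emb hK'.1
  haveI : Fintype (Emb K') := Fintype.ofFinite _
  haveI : Finite (GalQ ⧸ G K) := finQ hov.fin
  haveI : Fintype (GalQ ⧸ G K) := Fintype.ofFinite _
  have hd : (deg K : ℚ) ≠ 0 := by
    rw [← cardQ K]
    exact_mod_cast Nat.card_pos.ne'
  choose s hs using fun φ : Emb K' => trans_act hK'.1 (incl K') φ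
  have hDs : ∀ t : GalQ, D (s (act t (incl K'))) = D t := by
    intro t
    refine (hD _ _ ?_).symm
    rw [← act_incl]
    exact hs _
  have h1 : D = ∑ φ : Emb K', D (s φ) • a0 K (incl K') {φ} := by
    funext g
    rw [Finset.sum_apply]
    have h2 : ∀ φ : Emb K', (D (s φ) • a0 K (incl K') {φ}) g =
        (∑ x : GalQ ⧸ G K, if act (x.out⁻¹ * g * x.out) (incl K') = φ then D (s φ) else 0) /
          deg K := by
      intro φ
      rw [Pi.smul_apply, smul_eq_mul]
      unfold a0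
      rw [Nat.card_eq_fintype_card, Fintype.card_subtype, Finset.card_filter, mul_div_assoc']
      congr 1
      push_cast
      rw [Finset.mul_sum]
      refine Finset.sum_congr rfl fun x _ => ?_
      rw [mul_ite, mul_one, mul_zero]
      exact if_congr Iff.rfl rfl rfl
    rw [Finset.sum_congr rfl fun φ _ => h2 φ, ← Finset.sum_div, Finset.sum_comm]
    have h3 : ∀ x : GalQ ⧸ G K, (∑ φ : Emb K',
        if act (x.out⁻¹ * g * x.out) (incl K') = φ then D (s φ) else 0) = D g := by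
      intro x
      rw [Finset.sum_ite_eq, if_pos (Finset.mem_univ _), hDs, hcls]
    rw [Finset.sum_congr rfl fun x _ => h3 x, Finset.sum_const, Finset.card_univ, nsmul_eq_mul,
      ← Nat.card_eq_fintype_card, cardQ, mul_div_cancel_left₀ _ hd]
  have h2 : T.h D - T.Z D = ∑ φ : Emb K', (D (s φ) : ℝ) * wgt T (incl K') K φ := by
    conv_lhs => rw [h1]
    rw [map_sum, map_sum, ← Finset.sum_sub_distrib]
    refine Finset.sum_congr rfl fun φ _ => ?_
    rw [map_smul, map_smul, ← smul_sub, Rat.smul_def]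
    rfl
  have h3 : ∑ φ : Emb K', (D (s φ) : ℝ) * wgt T (incl K') K φ =
      ∑ φ : Emb K', - ((D (s φ) : ℝ) * wgt T (incl K') K φ) := by
    refine Fintype.sum_equiv ⟨fun φ => act c φ, fun φ => act c φ, act_act hc, act_act hc⟩ _ _
      fun φ => ?_
    change _ = - ((D (s (act c φ)) : ℝ) * wgt T (incl K') K (act c φ))
    have h4 : D (s (act c φ)) = - D (s φ) := by
      have h5 : act c φ = act (c * s φ) (incl K') := by rw [act_mul, hs]
      rw [h5, hDs, hodd]
    rw [h4, wgt_even T hc hK' hov (incl K') (h (incl K')) φ]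
    push_cast
    ring
  rw [h2]
  rw [Finset.sum_neg_distrib] at h3
  linarith

end Pool.Agent.X310.RatF
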