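import Pool.Agent.X310.RatC

set_option autoImplicit false

open Module

namespace Pool.Agent.X310.RatF

open Pool.Agent.X208.BR (Qb GK)
open Pool.Agent.X208.BR.Pk Pool.Agent.X208.CZ Pool.Agent.X310.Col

variable {c : GalQ} {K E : Fld}

theorem deg_pos' (hK : IsNF K) : 0 < deg K := by
  haveI := finQ hK
  rw [← cardQ K]
  exact Nat.card_pos

theorem two_dvd (hK : IsCM c K) (hc : IsConj c) (hn : IsNormal K) : 2 ∣ deg K := by
  haveI := nrmK hn
  haveI : Finite (GalQ ⧸ G K) := finQ hK.1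
  have h1 : orderOf (QuotientGroup.mk c : GalQ ⧸ G K) = 2 := by
    rw [orderOf_eq_prime_iff]
    exact ⟨by rw [pow_two, cQ_sq hc], cQ_ne hK⟩
  rw [← cardQ K, ← h1]
  exact orderOf_dvd_natCard _

theorem odd_of_coprime (hK : IsCM c K) (hc : IsConj c) (hn : IsNormal K) {k : ℕ}
    (hk : k.Coprime (deg K)) : Odd k :=
  Nat.coprime_two_right.1 (Nat.Coprime.coprime_dvd_right (two_dvd hK hc hn) hk)

theorem a0_cls (hov : Over K E) (ψ : Emb E) (Φ : Set (Emb E)) (g x : GalQ) :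
    a0 K ψ Φ (x⁻¹ * g * x) = a0 K ψ Φ g := by
  haveI := nrmK hov.normal
  haveI : Finite (GalQ ⧸ G K) := finQ hov.fin
  haveI : Fintype (GalQ ⧸ G K) := Fintype.ofFinite _
  rw [a0_eq_FF hov, a0_eq_FF hov, QuotientGroup.mk_mul, QuotientGroup.mk_mul,
    QuotientGroup.mk_inv, FF_cls]

theorem a0_conjOn (hov : Over K E) (ψ : Emb E) (Φ : Set (Emb E)) {g h : GalQ}
    (hgh : ConjOn K g h) : a0 K ψ Φ g = a0 K ψ Φ h := by
  haveI := nrmK hov.normal
  haveI : Finite (GalQ ⧸ G K) := finQ hov.fin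
  haveI : Fintype (GalQ ⧸ G K) := Fintype.ofFinite _
  obtain ⟨x, hx⟩ := hgh
  have h1 : (QuotientGroup.mk h : GalQ ⧸ G K) = QuotientGroup.mk (x * g * x⁻¹) := by
    rw [QuotientGroup.eq]
    exact (Subgroup.Normal.mem_comm_iff inferInstance).1 hx
  have h2 := a0_cls hov ψ Φ g x⁻¹
  rw [inv_inv] at h2
  rw [← h2, a0_eq_FF hov, a0_eq_FF hov, h1]

theorem a0_c_pow (hov : Over K E) (hK : IsCM c K) (hc : IsConj c) (ψ : Emb E) {Φ : Set (Emb E)}
    (hΦ : IsType c Φ) (g : GalQ) {k : ℕ} (hk : k.Coprime (deg K)) :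
    a0 K ψ Φ ((c * g) ^ k) = 1 - a0 K ψ Φ (g ^ k) := by
  haveI := nrmK hov.normal
  haveI : Finite (GalQ ⧸ G K) := finQ hov.fin
  haveI : Fintype (GalQ ⧸ G K) := Fintype.ofFinite _
  rw [a0_eq_FF hov, a0_eq_FF hov, QuotientGroup.mk_pow, QuotientGroup.mk_mul,
    QuotientGroup.mk_pow]
  have hcm : Commute (QuotientGroup.mk c : GalQ ⧸ G K) (QuotientGroup.mk g) := cQ_comm hK _
  rw [hcm.mul_pow, z_pow (cQ_sq hc) k (by rw [cardQ]; exact hk), FF_odd hov hK ψ hΦ]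

theorem a0_c (hov : Over K E) (hK : IsCM c K) (hc : IsConj c) (ψ : Emb E) {Φ : Set (Emb E)}
    (hΦ : IsType c Φ) (g : GalQ) : a0 K ψ Φ (c * g) = 1 - a0 K ψ Φ g := by
  have h1 := a0_c_pow hov hK hc ψ hΦ g (k := 1) (Nat.coprime_one_left _)
  rwa [pow_one, pow_one] at h1

/-- From equal defects of the powers to the formula. -/
theorem holds_of_defects (T : ColmezData c) (hT : Known T) (hc : IsConj c) (hK : IsCM c K)
    (hn : IsNormal K) (hEK : E ≤ K) (hE : IsCM c E) (ψ : Emb E) {Φ : Set (Emb E)}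
    (hΦ : IsType c Φ) (h : ∀ k : ℕ, k.Coprime (deg K) →
      T.h (fun g => a0 K ψ Φ (g ^ k)) - T.Z (fun g => a0 K ψ Φ (g ^ k)) =
        T.h (a0 K ψ Φ) - T.Z (a0 K ψ Φ)) : T.Holds ψ Φ := by
  have hov : Over K E := ⟨hEK, hK.1, hn⟩
  have h1 := trace_law T hT hc hK hn hEK ψ hΦ
  rw [Finset.sum_congr rfl fun k hk => h k (Finset.mem_filter.1 hk).2, Finset.sum_const,
    nsmul_eq_mul] at h1
  rw [holds_iff' T hE hov ψ hΦ]
  rcases mul_eq_zero.1 h1 with h2 | h2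
  · exfalso
    have h3 : ((Finset.range (deg K)).filter (fun k => k.Coprime (deg K))).card = 0 := by
      exact_mod_cast h2
    rw [Finset.card_eq_zero] at h3
    have h4 : 2 ≤ deg K := Nat.le_of_dvd (deg_pos' hK.1) (two_dvd hK hc hn)
    have h5 : 1 ∈ (Finset.range (deg K)).filter (fun k => k.Coprime (deg K)) := by
      rw [Finset.mem_filter, Finset.mem_range]
      exact ⟨by omega, Nat.coprime_one_left _⟩
    rw [h3] at h5
    exact absurd h5 (Finset.notMem_empty _)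
  · exact h2

/-- (2) -/
theorem holds_of_rational (T : ColmezData c) (hT : Known T) (hc : IsConj c) (hK : IsCM c K)
    (hn : IsNormal K) (hEK : E ≤ K) (hE : IsCM c E) (ψ : Emb E) {Φ : Set (Emb E)}
    (hΦ : IsType c Φ) (h : ∀ k : ℕ, k.Coprime (deg K) → ∀ g, a0 K ψ Φ (g ^ k) = a0 K ψ Φ g) :
    T.Holds ψ Φ := by
  refine holds_of_defects T hT hc hK hn hEK hE ψ hΦ fun k hk => ?_
  have h1 : (fun g => a0 K ψ Φ (g ^ k)) = a0 K ψ Φ := funext fun g => h k hk g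
  rw [h1]

theorem half_of_conj (hov : Over K E) (hK : IsCM c K) (hc : IsConj c)
    (ψ : Emb E) {Φ : Set (Emb E)} (hΦ : IsType c Φ) {g : GalQ} {k : ℕ} (hk : k.Coprime (deg K))
    (h : ConjOn K g (c * g)) : a0 K ψ Φ (g ^ k) = a0 K ψ Φ g := by
  haveI := nrmK hov.normal
  have h1 := a0_conjOn hov ψ Φ h
  rw [a0_c hov hK hc ψ hΦ] at h1
  have h2 : ConjOn K (g ^ k) ((c * g) ^ k) := by
    obtain ⟨x, hx⟩ := h
    refine ⟨x, ?_⟩
    have h3 : (QuotientGroup.mk (x * g * x⁻¹) : GalQ ⧸ G K) = QuotientGroup.mk (c * g) := by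
      symm
      rw [QuotientGroup.eq]
      exact (Subgroup.Normal.mem_comm_iff inferInstance).1 hx
    have h4 : (QuotientGroup.mk (x * g ^ k * x⁻¹) : GalQ ⧸ G K) =
        QuotientGroup.mk ((c * g) ^ k) := by
      have h5 := conj_pow (i := k) (a := x) (b := g)
      rw [← h5, QuotientGroup.mk_pow, h3, ← QuotientGroup.mk_pow]
    have h6 := QuotientGroup.eq.1 h4.symm
    exact (Subgroup.Normal.mem_comm_iff inferInstance).1 h6
  have h7 := a0_conjOn hov ψ Φ h2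
  rw [a0_c_pow hov hK hc ψ hΦ g hk] at h7
  linarith

/-- (3) -/
theorem holds_of_group (T : ColmezData c) (hT : Known T) (hc : IsConj c) (hK : IsCM c K)
    (hn : IsNormal K) (hEK : E ≤ K) (hE : IsCM c E) (ψ : Emb E) {Φ : Set (Emb E)}
    (hΦ : IsType c Φ)
    (h : ∀ k : ℕ, k.Coprime (deg K) → ∀ g, ConjOn K g (g ^ k) ∨ ConjOn K g (c * g)) :
    T.Holds ψ Φ := by
  have hov : Over K E := ⟨hEK, hK.1, hn⟩
  refine holds_of_rational T hT hc hK hn hEK hE ψ hΦ fun k hk g => ?_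
  rcases h k hk g with h1 | h1
  · exact (a0_conjOn hov ψ Φ h1).symm
  · exact half_of_conj hov hK hc ψ hΦ hk h1

/-- (4) -/
theorem holds_of_sub (T : ColmezData c) (hT : Known T) (hc : IsConj c) (hK : IsCM c K)
    (hn : IsNormal K) (hEK : E ≤ K) (hE : IsCM c E) (ψ : Emb E) {Φ : Set (Emb E)}
    (hΦ : IsType c Φ) {K' : Fld} (hK'K : K' ≤ K) (hK' : IsCM c K')
    (hh : ∀ (ψ' : Emb K') (Φ' : Set (Emb K')), IsType c Φ' → T.Holds ψ' Φ')
    (h : ∀ k : ℕ, k.Coprime (deg K) → ∀ g g' : GalQ, g⁻¹ * g' ∈ G K' →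
      a0 K ψ Φ (g ^ k) - a0 K ψ Φ g = a0 K ψ Φ (g' ^ k) - a0 K ψ Φ g') : T.Holds ψ Φ := by
  have hov : Over K E := ⟨hEK, hK.1, hn⟩
  have hov' : Over K K' := ⟨hK'K, hK.1, hn⟩
  refine holds_of_defects T hT hc hK hn hEK hE ψ hΦ fun k hk => ?_
  have h1 := sub_law T hc hK' hov' hh (fun g => a0 K ψ Φ (g ^ k) - a0 K ψ Φ g) (h k hk) (by
    intro g x
    have h3 := conj_pow (i := k) (a := x⁻¹) (b := g)
    rw [inv_inv] at h3
    change a0 K ψ Φ ((x⁻¹ * g * x) ^ k) - a0 K ψ Φ (x⁻¹ * g * x) = a0 K ψ Φ (g ^ k) - a0 K ψ Φ g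
    rw [h3, a0_cls hov, a0_cls hov]) (by
    intro g
    change a0 K ψ Φ ((c * g) ^ k) - a0 K ψ Φ (c * g) = - (a0 K ψ Φ (g ^ k) - a0 K ψ Φ g)
    rw [a0_c_pow hov hK hc ψ hΦ g hk, a0_c hov hK hc ψ hΦ g]
    ring)
  have h2 : (fun g => a0 K ψ Φ (g ^ k) - a0 K ψ Φ g) =
      (fun g => a0 K ψ Φ (g ^ k)) - a0 K ψ Φ := rfl
  rw [h2, map_sub, map_sub] at h1
  linarith

/-- (5) -/
theorem holds_of_group_sub (T : ColmezData c) (hT : Known T) (hc : IsConj c) (hK : IsCM c K)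
    (hn : IsNormal K) (hEK : E ≤ K) (hE : IsCM c E) (ψ : Emb E) {Φ : Set (Emb E)}
    (hΦ : IsType c Φ) {K' : Fld} (hK'K : K' ≤ K) (hK' : IsCM c K')
    (hh : ∀ (ψ' : Emb K') (Φ' : Set (Emb K')), IsType c Φ' → T.Holds ψ' Φ')
    (h : ∀ k : ℕ, k.Coprime (deg K) → ∀ g, ConjOn K g (g ^ k) ∨ ConjOn K g (c * g) ∨
      ∀ g', g⁻¹ * g' ∈ G K' → ConjOn K g g') : T.Holds ψ Φ := by
  haveI := nrmK hn
  have hov : Over K E := ⟨hEK, hK.1, hn⟩
  have hpow : ∀ k : ℕ, ∀ g g' : GalQ, ConjOn K g g' → ConjOn K (g ^ k) (g' ^ k) := by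
    rintro k g g' ⟨x, hx⟩
    refine ⟨x, ?_⟩
    have h3 : (QuotientGroup.mk (x * g * x⁻¹) : GalQ ⧸ G K) = QuotientGroup.mk g' := by
      symm
      rw [QuotientGroup.eq]
      exact (Subgroup.Normal.mem_comm_iff inferInstance).1 hx
    have h4 : (QuotientGroup.mk (x * g ^ k * x⁻¹) : GalQ ⧸ G K) =
        QuotientGroup.mk (g' ^ k) := by
      have h5 := conj_pow (i := k) (a := x) (b := g)
      rw [← h5, QuotientGroup.mk_pow, h3, ← QuotientGroup.mk_pow]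
    exact (Subgroup.Normal.mem_comm_iff inferInstance).1 (QuotientGroup.eq.1 h4.symm)
  have hzero : ∀ k : ℕ, k.Coprime (deg K) → ∀ g : GalQ,
      (a0 K ψ Φ (g ^ k) - a0 K ψ Φ g = 0) ∨ (∀ g', g⁻¹ * g' ∈ G K' → ConjOn K g g') := by
    intro k hk g
    rcases h k hk g with h1 | h1 | h1
    · exact Or.inl (sub_eq_zero.2 (a0_conjOn hov ψ Φ h1).symm)
    · exact Or.inl (sub_eq_zero.2 (half_of_conj hov hK hc ψ hΦ hk h1))
    · exact Or.inr h1
  refine holds_of_sub T hT hc hK hn hEK hE ψ hΦ hK'K hK' hh fun k hk g g' hg => ?_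
  rcases hzero k hk g with h1 | h1
  · rcases hzero k hk g' with h2 | h2
    · rw [h1, h2]
    · have h3 : g'⁻¹ * g ∈ G K' := by
        have h4 := (G K').inv_mem hg
        rwa [mul_inv_rev, inv_inv] at h4
      have h5 := h2 g h3
      rw [a0_conjOn hov ψ Φ h5, a0_conjOn hov ψ Φ (hpow k g' g h5)]
  · have h5 := h1 g' hg
    rw [a0_conjOn hov ψ Φ h5, a0_conjOn hov ψ Φ (hpow k g g' h5)]

end Pool.Agent.X310.RatF
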