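import Pool.Agent.X310.RcDefs

set_option autoImplicit false
set_option linter.unusedSectionVars false

namespace Pool.Agent.X310.Rc

open Pool.Agent.X307.MU Pool.Agent.X310.Mu NumberField NumberField.ComplexEmbedding

variable {k : Type} [Field k]

theorem exists_conj (ψ : k →+* ℂ) (hψ : ∀ x, starRingEnd ℂ (ψ x) = ψ x) : ∃ c : Aut k, IsConjugation c := by
  letI : Algebra k ℂ := ψ.toAlgebra
  let φ : AlgebraicClosure k →ₐ[k] ℂ := IsAlgClosed.lift
  letI : Algebra (AlgebraicClosure k) ℂ := φ.toRingHom.toAlgebra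
  haveI : IsScalarTower k (AlgebraicClosure k) ℂ := IsScalarTower.of_algebraMap_eq (fun x => (φ.commutes x).symm)
  let cj : ℂ →ₐ[k] ℂ := { starRingEnd ℂ with commutes' := hψ }
  let r : AlgebraicClosure k →ₐ[k] AlgebraicClosure k := cj.restrictNormal (AlgebraicClosure k)
  have hr : ∀ x, φ (r x) = starRingEnd ℂ (φ x) := fun x => cj.restrictNormal_commutes (AlgebraicClosure k) x
  have hb : Function.Bijective r := Algebra.IsAlgebraic.algHom_bijective r
  exact ⟨AlgEquiv.ofBijective r hb, φ.toRingHom, hr⟩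

theorem exists_ext (φ : AlgebraicClosure k →+* ℂ) (K : Fld k) (φ' : K →+* ℂ)
    (h : ∀ x : k, φ' (algebraMap k K x) = φ (algebraMap k (AlgebraicClosure k) x)) :
    ∃ g : Aut k, ∀ x : K, φ' x = φ (g x) := by
  letI i1 : Algebra k ℂ := (φ.comp (algebraMap k (AlgebraicClosure k))).toAlgebra
  letI i2 : Algebra K ℂ := φ'.toAlgebra
  haveI : IsScalarTower k K ℂ := IsScalarTower.of_algebraMap_eq (fun x => (h x).symm)
  let ψ : AlgebraicClosure k →ₐ[K] ℂ := IsAlgClosed.lift
  let ψ' : AlgebraicClosure k →ₐ[k] ℂ := ψ.restrictScalars k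
  letI i3 : Algebra (AlgebraicClosure k) ℂ := φ.toAlgebra
  haveI : IsScalarTower k (AlgebraicClosure k) ℂ := IsScalarTower.of_algebraMap_eq (fun x => rfl)
  let r : AlgebraicClosure k →ₐ[k] AlgebraicClosure k := ψ'.restrictNormal (AlgebraicClosure k)
  have hr : ∀ x, φ (r x) = ψ' x := fun x => ψ'.restrictNormal_commutes (AlgebraicClosure k) x
  have hb : Function.Bijective r := Algebra.IsAlgebraic.algHom_bijective r
  refine ⟨AlgEquiv.ofBijective r hb, fun x => ?_⟩
  change φ' x = φ (r x)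
  rw [hr]
  exact (ψ.commutes x).symm

theorem conj_sq {c : Aut k} (hc : IsConjugation c) : c * c = 1 := by
  obtain ⟨φ, hφ⟩ := hc
  ext x
  apply φ.injective
  change φ (c (c x)) = φ x
  rw [hφ, hφ, Complex.conj_conj]

theorem real_of_fixed {c : Aut k} (hc : IsConjugation c) (K : Fld k) (h : ∀ x ∈ K, c x = x) : HasRealPlace K := by
  obtain ⟨φ, hφ⟩ := hc
  let ψ : K →+* ℂ := φ.comp K.val.toRingHom
  have h1 : ∀ x : K, (ψ x).im = 0 := by
    intro x
    have h2 : starRingEnd ℂ (ψ x) = ψ x := by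
      change starRingEnd ℂ (φ x) = φ x
      rw [← hφ, h x x.2]
    exact Complex.conj_eq_iff_im.1 h2
  have h3 : ∀ x : K, ((ψ x).re : ℂ) = ψ x := fun x => by
    apply Complex.ext
    · simp
    · simp [h1 x]
  refine ⟨{ toFun := fun x => (ψ x).re, map_one' := ?_, map_mul' := ?_, map_zero' := ?_, map_add' := ?_ }⟩
  · simp
  · intro x y
    apply Complex.ofReal_injective
    rw [h3, Complex.ofReal_mul, h3, h3, map_mul]
  · simp
  · intro x y
    simp

theorem isCM_of (K : Type) [Field K] [NumberField K] [IsTotallyComplex K] {σ : K ≃ₐ[ℚ] K}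
    (hσ : ∀ φ : K →+* ℂ, IsConj φ σ) : IsCMField K := by
  let φ : K →+* ℂ := Classical.choice (inferInstance : Nonempty _)
  have hσ' : Nat.card (Subgroup.zpowers σ) = 2 := by
    rw [Nat.card_zpowers, orderOf_isConj_two_of_ne_one (hσ φ)]
    exact (isConj_ne_one_iff (hσ φ)).mpr <| IsTotallyComplex.complexEmbedding_not_isReal φ
  have : Finite (Subgroup.zpowers σ) := Nat.finite_of_card_ne_zero (by positivity)
  let L : Subfield K := FixedPoints.subfield (Subgroup.zpowers σ) K
  have : IsTotallyReal L := ⟨fun w ↦ by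
    obtain ⟨W, rfl⟩ := w.comap_surjective (K := K)
    dsimp only
    rw [← InfinitePlace.mk_embedding W, InfinitePlace.comap_mk, InfinitePlace.isReal_mk_iff]
    exact ComplexEmbedding.IsConj.isReal_comp
     (σ := IsGaloisGroup.mulEquivAlgEquiv (Subgroup.zpowers σ) L K ⟨σ, Subgroup.mem_zpowers σ⟩)
      (hσ W.embedding)⟩
  have : Algebra.IsQuadraticExtension L K := ⟨by
    rw [← IsGaloisGroup.card_eq_finrank (Subgroup.zpowers σ) L K, hσ']⟩
  exact IsCMField.ofCMExtension L K

end Pool.Agent.X310.Rc
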