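import Pool.Agent.X310.RcDefs

/-!
# Fixed fields of groups of automorphisms
-/

set_option autoImplicit false

namespace Pool.Agent.X310.Rc

open Pool.Agent.X307.MU

/-- The field of the elements of `M` fixed by `D`. -/
noncomputable def fixOf {k : Type} [Field k] (M : Fld k) (D : Subgroup (AutOf M)) : Fld k :=
  IntermediateField.lift (IntermediateField.fixedField D)

/-- For the fields with the property `P`, the property `mu` is given by a class `V` of finite Galois modules: `mu K` holds
if and only if `𝔽_p` is in the class over `K`. -/
def IsCohomologicalOn (p : ℕ) [Fact p.Prime] (P mu : Fld ℚ → Prop) : Prop :=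
  ∃ V : (K : Fld ℚ) → GMod p (Gal K) → Prop, IsGaloisClass p V ∧
    ∀ K : Fld ℚ, FiniteDimensional ℚ K → P K → (mu K ↔ V K (trivialMod p (Gal K)))

/-- Each irreducible finite `𝔽_p`-representation of `A` has a nonzero vector fixed by one of the subgroups `D i`. -/
def IsRichFamily (p : ℕ) [Fact p.Prime] {A : Type} [Group A] {ι : Type} (D : ι → Subgroup A) : Prop :=
  ∀ X : GMod p A, Pool.Agent.X307.MU.IsIrreducible X → ∃ i, HasFixed X (D i)

end Pool.Agent.X310.Rc
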