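import Pool.Agent.X310.RcA

set_option autoImplicit false
set_option linter.unusedSectionVars false

namespace Pool.Agent.X310.Rc

open Pool.Agent.X307.MU Pool.Agent.X310.Mu NumberField NumberField.ComplexEmbedding

variable {k : Type} [Field k] [CharZero k]

theorem mem_of_fixed (K : Fld k) (y : AlgebraicClosure k) (h : ∀ u ∈ K.fixingSubgroup, u y = y) : y ∈ K := by
  rw [← InfiniteGalois.fixedField_fixingSubgroup K]
  exact fun u => h u.1 u.2

theorem comm_apply {c : Aut k} (hc : c * c = 1) (K : Fld k)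
    (hcomm : ∀ g : Aut k, g * c * g⁻¹ * c⁻¹ ∈ K.fixingSubgroup) (g : Aut k) (x : AlgebraicClosure k) (hx : x ∈ K) :
    g (c x) = c (g x) := by
  have hcinv : c⁻¹ = c := inv_eq_of_mul_eq_one_right hc
  have h1 := hcomm g⁻¹
  rw [hcinv, inv_inv] at h1
  have h2 : (g⁻¹ * c * g * c) x = x := h1 ⟨x, hx⟩
  have h3 : (c * g) * (g⁻¹ * c * g * c) = g * c := by
    have : (c * g) * (g⁻¹ * c * g * c) = c * c * g * c := by group
    rw [this, hc, one_mul]
  calc g (c x) = (g * c) x := rfl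
    _ = ((c * g) * (g⁻¹ * c * g * c)) x := by rw [h3]
    _ = (c * g) ((g⁻¹ * c * g * c) x) := rfl
    _ = c (g x) := by rw [h2]; rfl

theorem conj_mem {c : Aut k} (hc : c * c = 1) (K : Fld k)
    (hcomm : ∀ g : Aut k, g * c * g⁻¹ * c⁻¹ ∈ K.fixingSubgroup) (x : AlgebraicClosure k) (hx : x ∈ K) :
    c x ∈ K := by
  apply mem_of_fixed
  intro u hu
  rw [comm_apply hc K hcomm u x hx]
  exact congrArg c (hu ⟨x, hx⟩)

theorem cm_field [NumberField k] [Subsingleton (k →+* ℂ)] {c : Aut k} (hc : IsConjugation c) (K : Fld k)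
    [FiniteDimensional k K] (hcomm : ∀ g : Aut k, g * c * g⁻¹ * c⁻¹ ∈ K.fixingSubgroup)
    (hne : ∃ x ∈ K, c x ≠ x) : IsCMField K := by
  have hc2 := conj_sq hc
  haveI : NumberField K := NumberField.of_module_finite k K
  have hcc : ∀ x, c (c x) = x := fun x => DFunLike.congr_fun hc2 x
  let σ : K ≃+* K :=
    { toFun := fun x => ⟨c x, conj_mem hc2 K hcomm x x.2⟩
      invFun := fun x => ⟨c x, conj_mem hc2 K hcomm x x.2⟩
      left_inv := fun x => Subtype.ext (hcc x)
      right_inv := fun x => Subtype.ext (hcc x)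
      map_mul' := fun x y => Subtype.ext (map_mul c (x : AlgebraicClosure k) y)
      map_add' := fun x y => Subtype.ext (map_add c (x : AlgebraicClosure k) y) }
  obtain ⟨φ, hφ⟩ := hc
  have h1 : ∀ (ψ : K →+* ℂ) (x : K), starRingEnd ℂ (ψ x) = ψ (σ x) := by
    intro ψ x
    obtain ⟨g, hg⟩ := exists_ext φ K ψ (fun x => DFunLike.congr_fun (Subsingleton.elim (ψ.comp (algebraMap k K))
      (φ.comp (algebraMap k (AlgebraicClosure k)))) x)
    rw [hg x, hg (σ x), ← hφ]
    exact congrArg φ (comm_apply hc2 K hcomm g x x.2).symm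
  let σ' : K ≃ₐ[ℚ] K := AlgEquiv.ofRingEquiv (f := σ) (fun r => by
    rw [eq_ratCast, map_ratCast])
  have h2 : ∀ ψ : K →+* ℂ, IsConj ψ σ' := fun ψ => RingHom.ext (h1 ψ)
  haveI : IsTotallyComplex K := ⟨fun v => by
    rw [InfinitePlace.isComplex_iff]
    intro hr
    obtain ⟨x, hx, hne⟩ := hne
    apply hne
    have h3 : starRingEnd ℂ (v.embedding ⟨x, hx⟩) = v.embedding ⟨x, hx⟩ :=
      DFunLike.congr_fun (ComplexEmbedding.isReal_iff.1 hr) ⟨x, hx⟩
    rw [h1] at h3
    exact congrArg Subtype.val (v.embedding.injective h3)⟩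
  exact isCM_of K h2

variable {p : ℕ} [hp : Fact p.Prime]

theorem eq_zero_of_double (hp2 : p ≠ 2) {M : Type} [AddCommGroup M] [Module (ZMod p) M] {v : M} (h : v = -v) :
    v = 0 := by
  have h1 : (2 : ZMod p) • v = 0 := by
    rw [two_smul]
    nth_rewrite 2 [h]
    exact add_neg_cancel v
  have h2 : (2 : ZMod p) ≠ 0 := by
    intro h3
    have h4 : ((2 : ℕ) : ZMod p) = 0 := by exact_mod_cast h3
    rw [ZMod.natCast_eq_zero_iff] at h4
    exact hp2 ((Nat.prime_dvd_prime_iff_eq hp.out Nat.prime_two).1 h4)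
  exact (smul_eq_zero.1 h1).resolve_left h2

/-- The elements of the group which fix `v`. -/
def fixer {G : Type} [Group G] (X : GMod p G) (v : X.M) : Subgroup G where
  carrier := {g | X.ρ g v = v}
  mul_mem' := by
    intro a b ha hb
    change X.ρ (a * b) v = v
    rw [map_mul, Module.End.mul_apply, hb, ha]
  one_mem' := by
    change X.ρ 1 v = v
    rw [map_one, Module.End.one_apply]
  inv_mem' := by
    intro a ha
    change X.ρ a⁻¹ v = v
    have h1 : X.ρ a v = v := ha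
    conv_lhs => rw [← h1]
    rw [← Module.End.mul_apply, ← map_mul, inv_mul_cancel, map_one, Module.End.one_apply]

/-- Either a nonzero vector is fixed, or the involution acts as `-1`. -/
theorem dich {G : Type} [Group G] (X : GMod p G) {c : G} (hc : c * c = 1) :
    (∃ v : X.M, v ≠ 0 ∧ X.ρ c v = v) ∨ ∀ v : X.M, X.ρ c v = -v := by
  by_cases h : ∃ v : X.M, v ≠ 0 ∧ X.ρ c v = v
  · exact Or.inl h
  · right
    push Not at h
    intro v
    have h1 : X.ρ c (v + X.ρ c v) = v + X.ρ c v := by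
      rw [map_add, ← Module.End.mul_apply, ← map_mul, hc, map_one, Module.End.one_apply, add_comm]
    by_contra h2
    exact h (v + X.ρ c v) (fun h3 => h2 (eq_neg_of_add_eq_zero_right h3)) h1

theorem comms_le {G : Type} [Group G] (X : GMod p G) {c : G} (h : ∀ v : X.M, X.ρ c v = -v) (g : G) :
    X.ρ (g * c * g⁻¹ * c⁻¹) = 1 := by
  have h1 : X.ρ (g * c) = X.ρ (c * g) := by
    ext v
    rw [map_mul, map_mul, Module.End.mul_apply, Module.End.mul_apply, h, h, map_neg]
  have h2 : g * c * g⁻¹ * c⁻¹ = (g * c) * (c * g)⁻¹ := by group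
  rw [h2, map_mul, h1, ← map_mul, mul_inv_cancel, map_one]

/-- The commutators with `c` act trivially on `K`. -/
def Commutes (c : Aut k) (K : Fld k) : Prop := ∀ g : Aut k, g * c * g⁻¹ * c⁻¹ ∈ K.fixingSubgroup

theorem rich' (hp2 : p ≠ 2) [NumberField k] [Subsingleton (k →+* ℂ)] {c : Aut k} (hc : IsConjugation c) :
    IsRich p {K : Fld k | FiniteDimensional k K ∧
      (HasRealPlace K ∨ ((Commutes c K ∧ IsCMField K) ∧ ¬ p ∣ Module.finrank k K))} := by
  intro X hX hirr
  haveI := hirr.1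
  have htop : (⊥ : Fld k).fixingSubgroup = ⊤ := IntermediateField.fixingSubgroup_bot
  have hmem : ∀ g : Aut k, g ∈ (⊥ : Fld k).fixingSubgroup := fun g => by rw [htop]; trivial
  let c0 : Gal (⊥ : Fld k) := ⟨c, hmem c⟩
  have hc0 : c0 * c0 = 1 := Subtype.ext (conj_sq hc)
  rcases dich X hc0 with ⟨v, hv, hcv⟩ | hneg
  · obtain ⟨U, hU, hUX⟩ := id hX
    obtain ⟨K, hK, -, hKU, hKU'⟩ := exists_field ⊥ (U ⊔ Subgroup.zpowers c0) (Subgroup.isOpen_mono le_sup_left hU)
    refine ⟨K, ⟨hK, Or.inl (real_of_fixed hc K fun x hx => ?_)⟩, v, hv, ?_⟩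
    · have h1 : c ∈ K.fixingSubgroup := by
        rw [hKU']
        exact ⟨c0, (le_sup_right : _ ≤ U ⊔ Subgroup.zpowers c0) (Subgroup.mem_zpowers c0), rfl⟩
      exact h1 ⟨x, hx⟩
    · rw [hKU]
      have h2 : U ⊔ Subgroup.zpowers c0 ≤ fixer X v := by
        refine sup_le (fun u hu => hUX u hu v) ?_
        rw [Subgroup.zpowers_le]
        exact hcv
      exact fun u hu => h2 hu
  · have hcpt : CompactSpace (Gal (⊥ : Fld k)) :=
      isCompact_iff_compactSpace.mp (InfiniteGalois.fixingSubgroup_isClosed (⊥ : Fld k)).isCompact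
    have htd : TotallyDisconnectedSpace (AlgebraicClosure k ≃ₐ[k] AlgebraicClosure k) := inferInstance
    obtain ⟨U, -, hU, hUp, v, hv, hvU⟩ := exists_hasFixed X hX (⊤ : Subgroup (Gal (⊥ : Fld k))) isOpen_univ
      (by rw [Subgroup.index_top]; exact Nat.Prime.not_dvd_one hp.out)
    let U₁ := U ⊔ X.ρ.ker
    obtain ⟨K, hK, -, hKU, hKU'⟩ := exists_field ⊥ U₁ (Subgroup.isOpen_mono le_sup_left hU)
    have h2 : U₁ ≤ fixer X v := by
      refine sup_le (fun u hu => hvU u hu) (fun u hu => ?_)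
      change X.ρ u v = v
      rw [MonoidHom.mem_ker.1 hu, Module.End.one_apply]
    have hcomm : ∀ g : Aut k, g * c * g⁻¹ * c⁻¹ ∈ K.fixingSubgroup := by
      intro g
      rw [hKU']
      have h6 : (⟨g, hmem g⟩ : Gal (⊥ : Fld k)) * c0 * (⟨g, hmem g⟩ : Gal (⊥ : Fld k))⁻¹ * c0⁻¹ ∈ X.ρ.ker :=
        MonoidHom.mem_ker.2 (comms_le X hneg _)
      have h7 : X.ρ.ker ≤ U₁ := le_sup_right
      refine Subgroup.mem_map.2 ⟨_, h7 h6, ?_⟩
      rw [map_mul, map_mul, map_mul, map_inv, map_inv]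
      rfl
    refine ⟨K, ⟨hK, Or.inr ⟨⟨hcomm, cm_field hc K hcomm ?_⟩, ?_⟩⟩, v, hv, ?_⟩
    · by_contra hne
      push Not at hne
      have h3 : c ∈ K.fixingSubgroup := fun x => hne x x.2
      rw [hKU'] at h3
      obtain ⟨w, hw, hwc⟩ := h3
      have h4 : w = c0 := Subtype.ext hwc
      have h5 : X.ρ w v = v := h2 hw
      rw [h4, hneg v] at h5
      exact hv (eq_zero_of_double hp2 h5.symm)
    · have hone : (⊥ : Fld k).fixingSubgroup.index = 1 := by rw [htop, Subgroup.index_top]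
      rw [IntermediateField.finrank_eq_fixingSubgroup_index, hKU', Subgroup.index_map_subtype, hone, mul_one]
      intro hd
      exact hUp (hd.trans (Subgroup.index_dvd_of_le le_sup_left))
    · rw [hKU]
      exact fun u hu => h2 hu

theorem rich (hp2 : p ≠ 2) [NumberField k] [Subsingleton (k →+* ℂ)] {c : Aut k} (hc : IsConjugation c) :
    IsRich p {K : Fld k | FiniteDimensional k K ∧
      (HasRealPlace K ∨ (IsCMField K ∧ ¬ p ∣ Module.finrank k K))} := by
  intro X hX hirr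
  obtain ⟨K, hK, hf⟩ := rich' hp2 hc X hX hirr
  exact ⟨K, ⟨hK.1, hK.2.imp id fun h => ⟨h.1.2, h.2⟩⟩, hf⟩

end Pool.Agent.X310.Rc
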