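import Pool.Agent.X310.RcB

set_option autoImplicit false
set_option linter.unusedSectionVars false

namespace Pool.Agent.X310.Rc

open Pool.Agent.X307.MU Pool.Agent.X310.Mu NumberField IntermediateField

variable {k : Type} [Field k] [CharZero k] {p : ℕ} [hp : Fact p.Prime]

theorem fixing_inf (N : Fld k) [FiniteDimensional k N] (S : Subgroup (Aut k)) :
    (N ⊓ fixedField S).fixingSubgroup = N.fixingSubgroup ⊔ S := by
  let W : Subgroup (Aut k) := N.fixingSubgroup ⊔ S
  have hW : IsOpen (W : Set (Aut k)) := Subgroup.isOpen_mono le_sup_left (isOpen_fixing N)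
  let C : ClosedSubgroup (Aut k) := { W with isClosed' := Subgroup.isClosed_of_isOpen W hW }
  have hL : (fixedField W).fixingSubgroup = W := InfiniteGalois.fixingSubgroup_fixedField C
  have h1 : fixedField W = N ⊓ fixedField S := by
    apply le_antisymm
    · refine le_inf ?_ ?_
      · conv_rhs => rw [← InfiniteGalois.fixedField_fixingSubgroup N]
        rw [IntermediateField.le_iff_le, hL]
        exact le_sup_left
      · rw [IntermediateField.le_iff_le, hL]
        exact le_sup_right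
    · rw [IntermediateField.le_iff_le]
      refine sup_le ?_ ?_
      · rw [← IntermediateField.le_iff_le, InfiniteGalois.fixedField_fixingSubgroup]
        exact inf_le_left
      · rw [← IntermediateField.le_iff_le]
        exact inf_le_right
  rw [← h1, hL]

theorem galSub_normal (K N : Fld k) [hn : N.fixingSubgroup.Normal] : (galSub K N).Normal :=
  hn.subgroupOf _

theorem perm_trivial' (K L N : Fld k) (hLN : L ≤ N) (hn : (galSub K N).Normal) [(galSub K L).FiniteIndex] :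
    TrivialOn N (permMod p (galSub K L)) := by
  intro u hu φ
  change (fun x : Gal K ⧸ galSub K L => φ (u⁻¹ • x)) = φ
  funext x
  congr 1
  induction x using QuotientGroup.induction_on with
  | H a =>
    change ((u⁻¹ * a : Gal K) : Gal K ⧸ galSub K L) = a
    rw [QuotientGroup.eq]
    have h1 : a⁻¹ * u * (a⁻¹)⁻¹ ∈ galSub K N := hn.conj_mem _ hu _
    have h3 : galSub K N ≤ galSub K L := fun w hw => by
      rw [Subgroup.mem_subgroupOf] at hw ⊢
      exact (IntermediateField.fixingSubgroup_le hLN) hw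
    have h2 := h3 h1
    simpa [mul_assoc] using h2

variable {V : (K : Fld k) → GMod p (Gal K) → Prop}

theorem perm_trivial (K L N : Fld k) (hLN : L ≤ N) [hn : N.fixingSubgroup.Normal] [(galSub K L).FiniteIndex] :
    TrivialOn N (permMod p (galSub K L)) :=
  perm_trivial' K L N hLN (galSub_normal K N)

/-- The topology of the sets which are unions of cosets of `H`. -/
def cosetTop {G : Type} [Group G] (H : Subgroup G) : TopologicalSpace G where
  IsOpen s := ∀ g ∈ s, ∀ h ∈ H, g * h ∈ s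
  isOpen_univ := fun _ _ _ _ => trivial
  isOpen_inter := fun _ _ hs ht g hg h hh => ⟨hs g hg.1 h hh, ht g hg.2 h hh⟩
  isOpen_sUnion := fun S hS g ⟨s, hs, hg⟩ h hh => ⟨s, hs, hS s hs g hg h hh⟩

theorem smooth_coset {G : Type} [Group G] (H : Subgroup G) (X : GMod p G) :
    @IsSmooth p G _ (cosetTop H) X ↔ ∀ u ∈ H, ∀ x : X.M, X.ρ u x = x := by
  constructor
  · rintro ⟨U, hU, hUX⟩ u hu x
    apply hUX
    have h1 := hU 1 U.one_mem u hu
    rw [one_mul] at h1
    exact h1
  · intro hX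
    exact ⟨H, fun g hg h hh => H.mul_mem hg hh, hX⟩

theorem dev_triv {G : Type} [Group G] (H : Subgroup G) (𝒱 : GMod p G → Prop)
    (hq : ∀ X Y : GMod p G, (∀ u ∈ H, ∀ x : X.M, X.ρ u x = x) → (∀ u ∈ H, ∀ x : Y.M, Y.ρ u x = x) →
      IsQuotient X Y → 𝒱 X → 𝒱 Y)
    (he : ∀ X Y Z : GMod p G, (∀ u ∈ H, ∀ x : X.M, X.ρ u x = x) → (∀ u ∈ H, ∀ x : Y.M, Y.ρ u x = x) →
      (∀ u ∈ H, ∀ x : Z.M, Z.ρ u x = x) → IsExtension X Y Z → 𝒱 X → 𝒱 Z → 𝒱 Y)
    (𝒦 : Subgroup G → Prop)
    (hfin : ∀ U, 𝒦 U → ∃ _ : U.FiniteIndex, (∀ u ∈ H, ∀ x : (permMod p U).M, (permMod p U).ρ u x = x) ∧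
      𝒱 (permMod p U))
    (hrich : ∀ X : GMod p G, (∀ u ∈ H, ∀ x : X.M, X.ρ u x = x) → IsIrreducible X → ∃ U, 𝒦 U ∧ HasFixed X U)
    (h0 : ∀ X : GMod p G, Subsingleton X.M → 𝒱 X) (X : GMod p G) (hX : ∀ u ∈ H, ∀ x : X.M, X.ρ u x = x) :
    𝒱 X := by
  letI τ : TopologicalSpace G := cosetTop H
  refine devissage 𝒱 (fun X Y hX hY => hq X Y ((smooth_coset H X).1 hX) ((smooth_coset H Y).1 hY))
    (fun X Y Z hX hY hZ => he X Y Z ((smooth_coset H X).1 hX) ((smooth_coset H Y).1 hY)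
      ((smooth_coset H Z).1 hZ)) 𝒦 ?_ ?_ h0 X ((smooth_coset H X).2 hX)
  · intro U hU
    obtain ⟨hf, h1, h2⟩ := hfin U hU
    exact ⟨hf, (smooth_coset H _).2 h1, h2⟩
  · intro X hX hirr
    exact hrich X ((smooth_coset H X).1 hX) hirr

theorem fd_of_le {L N : Fld k} [FiniteDimensional k N] (h : L ≤ N) : FiniteDimensional k L :=
  FiniteDimensional.of_injective (IntermediateField.inclusion h).toLinearMap
      (IntermediateField.inclusion h).injective

theorem rel_dev' (hV : IsGaloisClass p V) (K N : Fld k) [FiniteDimensional k N] [FiniteDimensional k K]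
    (hn : (galSub K N).Normal) (𝒦 : Set (Fld k)) (h𝒦 : ∀ L ∈ 𝒦, K ≤ L ∧ L ≤ N ∧ V L (trivialMod p (Gal L)))
    (hirr : ∀ X : GMod p (Gal K), TrivialOn N X → IsIrreducible X → ∃ L ∈ 𝒦, HasFixed X (galSub K L))
    (X : GMod p (Gal K)) (hX : TrivialOn N X) : V K X := by
  have h3 : ∀ X : GMod p (Gal K), TrivialOn N X → IsSmooth X := fun X hX =>
    ⟨galSub K N, isOpen_galSub K N, hX⟩
  refine dev_triv (galSub K N) (V K) (fun X Y hX hY => hV.quotient K inferInstance X Y (h3 X hX) (h3 Y hY))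
    (fun X Y Z hX hY hZ => hV.extension K inferInstance X Y Z (h3 X hX) (h3 Y hY) (h3 Z hZ))
    (fun U => ∃ L ∈ 𝒦, galSub K L = U) ?_ ?_ (hV.zero K inferInstance) X hX
  · rintro _ ⟨L, hL, rfl⟩
    obtain ⟨hKL, hLN, hVL⟩ := h𝒦 L hL
    have hfd : FiniteDimensional k L := fd_of_le hLN
    have hf := finiteIndex_galSub K L
    exact ⟨hf, perm_trivial' K L N hLN hn, (hV.shapiro K L hfd hKL hf).2 hVL⟩
  · intro X hX hX'
    obtain ⟨L, hL, hfix⟩ := hirr X hX hX'
    exact ⟨_, ⟨L, hL, rfl⟩, hfix⟩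

theorem rel_dev (hV : IsGaloisClass p V) (K N : Fld k) [FiniteDimensional k N] [FiniteDimensional k K]
    [hn : N.fixingSubgroup.Normal] (𝒦 : Set (Fld k)) (h𝒦 : ∀ L ∈ 𝒦, K ≤ L ∧ L ≤ N ∧ V L (trivialMod p (Gal L)))
    (hirr : ∀ X : GMod p (Gal K), TrivialOn N X → IsIrreducible X → ∃ L ∈ 𝒦, HasFixed X (galSub K L))
    (X : GMod p (Gal K)) (hX : TrivialOn N X) : V K X :=
  rel_dev' hV K N (galSub_normal K N) 𝒦 h𝒦 hirr X hX

/-- All modules over `K` which are trivial over `N`. -/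
theorem rel_top (hV : IsGaloisClass p V) (K N : Fld k) [FiniteDimensional k N]
    [hn : N.fixingSubgroup.Normal] (hKN : K ≤ N) (h : V N (trivialMod p (Gal N))) (X : GMod p (Gal K))
    (hX : TrivialOn N X) : V K X := by
  have := fd_of_le hKN
  refine rel_dev hV K N {N} (fun L hL => ?_) (fun X hX hirr => ?_) X hX
  · obtain rfl : L = N := hL
    exact ⟨hKN, le_rfl, h⟩
  · have := hirr.1
    obtain ⟨v, hv⟩ := exists_ne (0 : X.M)
    exact ⟨N, rfl, v, hv, fun u hu => hX u hu v⟩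

theorem down (hV : IsGaloisClass p V) (N L : Fld k) [FiniteDimensional k N]
    [hn : N.fixingSubgroup.Normal] (hLN : L ≤ N) (h : V N (trivialMod p (Gal N))) : V L (trivialMod p (Gal L)) := by
  have := fd_of_le hLN
  have hf := finiteIndex_galSub (⊥ : Fld k) L
  rw [← hV.shapiro ⊥ L inferInstance bot_le hf]
  exact rel_top hV ⊥ N bot_le h _ (perm_trivial _ _ _ hLN)

theorem fix_of {X : GMod p (Gal (⊥ : Fld k))} {v : X.M} (S : Subgroup (Aut k)) (N : Fld k) [FiniteDimensional k N]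
    (hX : TrivialOn N X) (hS : ∀ s ∈ S, ∀ u : Gal (⊥ : Fld k), (u : Aut k) = s → X.ρ u v = v) :
    ∀ u ∈ galSub (⊥ : Fld k) (N ⊓ fixedField S), X.ρ u v = v := by
  have htop : (⊥ : Fld k).fixingSubgroup = ⊤ := IntermediateField.fixingSubgroup_bot
  have hmem : ∀ g : Aut k, g ∈ (⊥ : Fld k).fixingSubgroup := fun g => by rw [htop]; trivial
  intro u hu
  rw [Subgroup.mem_subgroupOf, fixing_inf N S] at hu
  have h1 : N.fixingSubgroup ⊔ S ≤ (fixer X v).map (⊥ : Fld k).fixingSubgroup.subtype := by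
    refine sup_le (fun w hw => ?_) (fun w hw => ?_)
    · exact ⟨⟨w, hmem w⟩, hX _ (Subgroup.mem_subgroupOf.2 hw) v, rfl⟩
    · exact ⟨⟨w, hmem w⟩, hS w hw _ rfl, rfl⟩
  obtain ⟨w, hw, hwu⟩ := h1 hu
  obtain rfl : w = u := Subtype.ext hwu
  exact hw

theorem hasFixed_pair {c : Aut k} (hc : c * c = 1) (N : Fld k) [FiniteDimensional k N]
    (X : GMod p (Gal (⊥ : Fld k))) (hX : TrivialOn N X) (hirr : IsIrreducible X) :
    HasFixed X (galSub ⊥ (realPart N c)) ∨ HasFixed X (galSub ⊥ (cmPart N c)) := by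
  have htop : (⊥ : Fld k).fixingSubgroup = ⊤ := IntermediateField.fixingSubgroup_bot
  have hmem : ∀ g : Aut k, g ∈ (⊥ : Fld k).fixingSubgroup := fun g => by rw [htop]; trivial
  let c0 : Gal (⊥ : Fld k) := ⟨c, hmem c⟩
  have hc0 : c0 * c0 = 1 := Subtype.ext hc
  rcases dich X hc0 with ⟨v, hv, hcv⟩ | hneg
  · left
    refine ⟨v, hv, fix_of _ N hX ?_⟩
    intro s hs u hus
    have h1 : Subgroup.zpowers c ≤ (fixer X v).map (⊥ : Fld k).fixingSubgroup.subtype := by
      rw [Subgroup.zpowers_le]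
      exact ⟨c0, hcv, rfl⟩
    obtain ⟨w, hw, hws⟩ := h1 hs
    obtain rfl : w = u := Subtype.ext (hws.trans hus.symm)
    exact hw
  · right
    have := hirr.1
    obtain ⟨v, hv⟩ := exists_ne (0 : X.M)
    refine ⟨v, hv, fix_of _ N hX ?_⟩
    intro s hs u hus
    have h1 : comms c ≤ (fixer X v).map (⊥ : Fld k).fixingSubgroup.subtype := by
      unfold comms
      rw [Subgroup.closure_le]
      rintro _ ⟨g, rfl⟩
      refine ⟨(⟨g, hmem g⟩ : Gal (⊥ : Fld k)) * c0 * (⟨g, hmem g⟩ : Gal (⊥ : Fld k))⁻¹ * c0⁻¹, ?_, ?_⟩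
      · change X.ρ _ v = v
        rw [comms_le X hneg, Module.End.one_apply]
      · rw [map_mul, map_mul, map_mul, map_inv, map_inv]
        rfl
    obtain ⟨w, hw, hws⟩ := h1 hs
    obtain rfl : w = u := Subtype.ext (hws.trans hus.symm)
    exact hw

theorem real_le (N : Fld k) (c : Aut k) : realPart N c ≤ N := inf_le_left

theorem cm_le (N : Fld k) (c : Aut k) : cmPart N c ≤ N := inf_le_left

/-- `N` is obtained from the real part and the CM part. -/
theorem rel_pair (hV : IsGaloisClass p V) {c : Aut k} (hc : c * c = 1) (N : Fld k) [FiniteDimensional k N]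
    [hn : N.fixingSubgroup.Normal] (h1 : V (realPart N c) (trivialMod p (Gal (realPart N c))))
    (h2 : V (cmPart N c) (trivialMod p (Gal (cmPart N c)))) : V N (trivialMod p (Gal N)) := by
  have hf := finiteIndex_galSub (⊥ : Fld k) N
  rw [← hV.shapiro ⊥ N inferInstance bot_le hf]
  refine rel_dev hV ⊥ N {L | L = realPart N c ∨ L = cmPart N c} ?_ ?_ _ (perm_trivial _ _ _ le_rfl)
  · rintro _ (rfl | rfl)
    · exact ⟨bot_le, real_le N c, h1⟩
    · exact ⟨bot_le, cm_le N c, h2⟩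
  · intro X hX hirr
    rcases hasFixed_pair hc N X hX hirr with h | h
    · exact ⟨_, Or.inl rfl, h⟩
    · exact ⟨_, Or.inr rfl, h⟩

theorem galSub_anti {K L L' : Fld k} (h : L ≤ L') : galSub K L' ≤ galSub K L := fun w hw => by
  rw [Subgroup.mem_subgroupOf] at hw ⊢
  exact (IntermediateField.fixingSubgroup_le h) hw

/-- The real part is enough if the CM part is real. -/
theorem rel_single (hV : IsGaloisClass p V) {c : Aut k} (hc : c * c = 1) (N : Fld k) [FiniteDimensional k N]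
    [hn : N.fixingSubgroup.Normal] (hle : cmPart N c ≤ realPart N c)
    (h1 : V (realPart N c) (trivialMod p (Gal (realPart N c)))) : V N (trivialMod p (Gal N)) := by
  have hf := finiteIndex_galSub (⊥ : Fld k) N
  rw [← hV.shapiro ⊥ N inferInstance bot_le hf]
  refine rel_dev hV ⊥ N {realPart N c} ?_ ?_ _ (perm_trivial _ _ _ le_rfl)
  · rintro _ rfl
    exact ⟨bot_le, real_le N c, h1⟩
  · intro X hX hirr
    rcases hasFixed_pair hc N X hX hirr with h | ⟨v, hv, h⟩
    · exact ⟨_, rfl, h⟩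
    · exact ⟨_, rfl, v, hv, fun u hu => h u (galSub_anti hle hu)⟩

theorem real_part_real {c : Aut k} (hc : IsConjugation c) (N : Fld k) : HasRealPlace (realPart N c) :=
  real_of_fixed hc _ fun x hx => hx.2 ⟨c, Subgroup.mem_zpowers c⟩

theorem cm_part_cm [NumberField k] [Subsingleton (k →+* ℂ)] {c : Aut k} (hc : IsConjugation c) (N : Fld k)
    [FiniteDimensional k N] : HasRealPlace (cmPart N c) ∨ IsCMField (cmPart N c) := by
  have := fd_of_le (cm_le N c)
  by_cases hne : ∃ x ∈ cmPart N c, c x ≠ x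
  · right
    refine cm_field hc _ (fun g => ?_) hne
    intro x
    exact x.2.2 ⟨g * c * g⁻¹ * c⁻¹, Subgroup.subset_closure ⟨g, rfl⟩⟩
  · left
    push Not at hne
    exact real_of_fixed hc _ hne

theorem normal_fix (N : Fld k) [hN : Normal k N] : N.fixingSubgroup.Normal := by
  haveI : IsGalois k N := { to_normal := hN }
  infer_instance

theorem single (hV : IsGaloisClass p V) {c : Aut k} (N K : Fld k) [FiniteDimensional k N]
    (hK : K = ⊥) (X : GMod p (Gal K)) (hX : TrivialOn N X) (hirr : IsIrreducible X) (hfix : HasFixedVector X c)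
    [hn : N.fixingSubgroup.Normal] (h : V (realPart N c) (trivialMod p (Gal (realPart N c)))) : V K X := by
  subst hK
  obtain ⟨u, hu, v, hv, huv⟩ := hfix
  have := fd_of_le (real_le N c)
  have hf := finiteIndex_galSub (⊥ : Fld k) (realPart N c)
  have h1 := (hV.shapiro ⊥ (realPart N c) inferInstance bot_le hf).2 h
  refine hV.quotient ⊥ inferInstance _ X (permMod_smooth _ (isOpen_galSub ⊥ _))
    ⟨galSub ⊥ N, isOpen_galSub ⊥ N, hX⟩ (isQuotient_perm hirr _ ?_) h1
  refine ⟨v, hv, fix_of _ N hX ?_⟩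
  intro s hs w hws
  have h2 : Subgroup.zpowers c ≤ (fixer X v).map (⊥ : Fld k).fixingSubgroup.subtype := by
    rw [Subgroup.zpowers_le]
    exact ⟨u, huv, hu⟩
  obtain ⟨w', hw, hws'⟩ := h2 hs
  obtain rfl : w' = w := Subtype.ext (hws'.trans hws.symm)
  exact hw

end Pool.Agent.X310.Rc
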