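import Pool.Agent.X310.RcC

set_option autoImplicit false
set_option linter.unusedSectionVars false

namespace Pool.Agent.X310.Rc

open Pool.Agent.X307.MU Pool.Agent.X310.Mu NumberField IntermediateField

variable {k : Type} [Field k] [CharZero k]

/-- The fixed field of the normalizer. -/
noncomputable def base (M : Fld k) : Fld k := fixedField (Subgroup.normalizer (M.fixingSubgroup : Set (Aut k)))

theorem base_fixing (M : Fld k) [FiniteDimensional k M] :
    (base M).fixingSubgroup = Subgroup.normalizer (M.fixingSubgroup : Set (Aut k)) := by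
  let W : Subgroup (Aut k) := Subgroup.normalizer (M.fixingSubgroup : Set (Aut k))
  have hW : IsOpen (W : Set (Aut k)) := Subgroup.isOpen_mono Subgroup.le_normalizer (isOpen_fixing M)
  let C : ClosedSubgroup (Aut k) := { W with isClosed' := Subgroup.isClosed_of_isOpen W hW }
  exact InfiniteGalois.fixingSubgroup_fixedField C

theorem base_le (M : Fld k) [FiniteDimensional k M] : base M ≤ M := by
  conv_rhs => rw [← InfiniteGalois.fixedField_fixingSubgroup M]
  rw [IntermediateField.le_iff_le, base_fixing]
  exact Subgroup.le_normalizer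

theorem base_normal (M : Fld k) [FiniteDimensional k M] : (galSub (base M) M).Normal := by
  constructor
  intro n hn g
  rw [Subgroup.mem_subgroupOf] at hn ⊢
  have h1 : (g : Aut k) ∈ Subgroup.normalizer (M.fixingSubgroup : Set (Aut k)) := by
    rw [← base_fixing]
    exact g.2
  exact (Subgroup.mem_normalizer_iff.1 h1 _).1 hn

theorem norm_mem (M : Fld k) {g : Aut k} (hg : g ∈ Subgroup.normalizer (M.fixingSubgroup : Set (Aut k)))
    {x : AlgebraicClosure k} (hx : x ∈ M) : g x ∈ M := by
  apply mem_of_fixed
  intro u hu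
  have h1 : g⁻¹ * u * g ∈ M.fixingSubgroup := by
    have h2 := (Subgroup.mem_normalizer_iff.1 (inv_mem hg) u).1 hu
    rwa [inv_inv] at h2
  have h3 : (g⁻¹ * u * g) x = x := h1 ⟨x, hx⟩
  have h4 : g * (g⁻¹ * u * g) = u * g := by group
  calc u (g x) = (u * g) x := rfl
    _ = (g * (g⁻¹ * u * g)) x := by rw [h4]
    _ = g ((g⁻¹ * u * g) x) := rfl
    _ = g x := by rw [h3]

/-- The restriction to `M`. -/
noncomputable def res (M : Fld k) [FiniteDimensional k M] : Gal (base M) →* (M ≃ₐ[k] M) where
  toFun g :=
    { toFun := fun x => ⟨(g : Aut k) x, norm_mem M (base_fixing M ▸ g.2) x.2⟩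
      invFun := fun x => ⟨(g : Aut k)⁻¹ x, norm_mem M (inv_mem (base_fixing M ▸ g.2)) x.2⟩
      left_inv := fun x => Subtype.ext ((g : Aut k).symm_apply_apply (x : AlgebraicClosure k))
      right_inv := fun x => Subtype.ext ((g : Aut k).apply_symm_apply (x : AlgebraicClosure k))
      map_mul' := fun x y => Subtype.ext (map_mul (g : Aut k) (x : AlgebraicClosure k) y)
      map_add' := fun x y => Subtype.ext (map_add (g : Aut k) (x : AlgebraicClosure k) y)
      commutes' := fun r => Subtype.ext ((g : Aut k).commutes r) }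
  map_one' := rfl
  map_mul' _ _ := rfl

theorem res_ker (M : Fld k) [FiniteDimensional k M] (g : Gal (base M)) : res M g = 1 ↔ g ∈ galSub (base M) M := by
  rw [Subgroup.mem_subgroupOf]
  constructor
  · intro h x
    exact congrArg Subtype.val (DFunLike.congr_fun h x)
  · intro h
    ext x
    exact h x

theorem res_surj (M : Fld k) [FiniteDimensional k M] : Function.Surjective (res M) := by
  intro a
  let g : Aut k := a.liftNormal (AlgebraicClosure k)
  have hg : ∀ x : M, g (x : AlgebraicClosure k) = (a x : AlgebraicClosure k) := fun x => a.liftNormal_commutes _ x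
  have hg' : ∀ x : M, g⁻¹ (x : AlgebraicClosure k) = (a.symm x : AlgebraicClosure k) := fun x => by
    have h1 := hg (a.symm x)
    rw [AlgEquiv.apply_symm_apply] at h1
    rw [← h1]
    exact g.symm_apply_apply _
  have h1 : g ∈ (base M).fixingSubgroup := by
    rw [base_fixing, Subgroup.mem_normalizer_iff]
    intro u
    constructor
    · intro hu x
      change g (u (g⁻¹ (x : AlgebraicClosure k))) = x
      rw [hg' x]
      have h2 : u (a.symm x : AlgebraicClosure k) = (a.symm x : AlgebraicClosure k) := hu (a.symm x)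
      rw [h2, hg, AlgEquiv.apply_symm_apply]
    · intro hu x
      have h2 : (g * u * g⁻¹) (a x : AlgebraicClosure k) = a x := hu (a x)
      have h3 : g⁻¹ (a x : AlgebraicClosure k) = x := by rw [hg' (a x), AlgEquiv.symm_apply_apply]
      have h4 : (g * u * g⁻¹) (a x : AlgebraicClosure k) = g (u (g⁻¹ (a x : AlgebraicClosure k))) := rfl
      rw [h4, h3, ← hg x] at h2
      exact g.injective h2
  exact ⟨⟨g, h1⟩, AlgEquiv.ext fun x => Subtype.ext (hg x)⟩

variable {p : ℕ} [hp : Fact p.Prime]

/-- The representation of the automorphism group of `M`. -/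
theorem exists_descend (M : Fld k) [FiniteDimensional k M] (X : GMod p (Gal (base M))) (hX : TrivialOn M X) :
    ∃ ρ : (M ≃ₐ[k] M) →* Module.End (ZMod p) X.M, ∀ g, ρ (res M g) = X.ρ g := by
  have hk : (res M).ker ≤ X.ρ.ker := by
    intro g hg
    rw [MonoidHom.mem_ker]
    ext v
    exact hX g ((res_ker M g).1 hg) v
  let e := QuotientGroup.quotientKerEquivOfSurjective (res M) (res_surj M)
  refine ⟨(QuotientGroup.lift (res M).ker X.ρ hk).comp e.symm.toMonoidHom, fun g => ?_⟩
  have h1 : e.symm (res M g) = (QuotientGroup.mk g : Gal (base M) ⧸ (res M).ker) := by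
    rw [MulEquiv.symm_apply_eq]
    rfl
  change QuotientGroup.lift (res M).ker X.ρ hk (e.symm (res M g)) = X.ρ g
  rw [h1]
  rfl

variable {V : (K : Fld k) → GMod p (Gal K) → Prop}

/-- If the automorphism group has no fixed point free module, it is enough to know the smaller fields. -/
theorem step (hV : IsGaloisClass p V) (M : Fld k) [FiniteDimensional k M] (hfree : ¬ HasFreeModule p (M ≃ₐ[k] M))
    (h : ∀ L : Fld k, L < M → V L (trivialMod p (Gal L))) : V M (trivialMod p (Gal M)) := by
  have hfd : FiniteDimensional k (base M) := fd_of_le (base_le M)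
  have hf := finiteIndex_galSub (base M) M
  rw [← hV.shapiro (base M) M inferInstance (base_le M) hf]
  refine rel_dev' hV (base M) M (base_normal M) {L | base M ≤ L ∧ L < M} (fun L hL => ⟨hL.1, hL.2.le, h L hL.2⟩)
    ?_ _ (perm_trivial' _ _ _ le_rfl (base_normal M))
  intro X hX hirr
  obtain ⟨ρ, hρ⟩ := exists_descend M X hX
  let X' : GMod p (M ≃ₐ[k] M) := { M := X.M, ρ := ρ }
  have hirr' : Pool.Agent.X307.MU.IsIrreducible X' := by
    refine ⟨hirr.1, fun N hN => hirr.2 N fun g x hx => ?_⟩
    rw [← hρ g]
    exact hN (res M g) x hx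
  have h1 : ∃ a : M ≃ₐ[k] M, a ≠ 1 ∧ ∃ v : X.M, ρ a v = v ∧ v ≠ 0 := by
    by_contra hno
    push Not at hno
    exact hfree ⟨X', hirr', fun a ha v hv => hno a ha v hv⟩
  obtain ⟨a, ha, v, hav, hv⟩ := h1
  obtain ⟨g, rfl⟩ := res_surj M a
  rw [hρ] at hav
  have hgU : (g : Aut k) ∉ M.fixingSubgroup := fun hg => ha ((res_ker M g).2 (Subgroup.mem_subgroupOf.2 hg))
  have h2 : (M ⊓ fixedField (Subgroup.zpowers (g : Aut k))).fixingSubgroup =
      M.fixingSubgroup ⊔ Subgroup.zpowers (g : Aut k) := fixing_inf M _
  refine ⟨M ⊓ fixedField (Subgroup.zpowers (g : Aut k)), ⟨?_, lt_of_le_of_ne inf_le_left ?_⟩, v, hv, ?_⟩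
  · refine le_inf (base_le M) ?_
    rw [IntermediateField.le_iff_le, Subgroup.zpowers_le]
    exact g.2
  · intro he
    rw [he] at h2
    apply hgU
    rw [h2]
    exact (le_sup_right : _ ≤ M.fixingSubgroup ⊔ Subgroup.zpowers (g : Aut k)) (Subgroup.mem_zpowers _)
  · intro u hu
    rw [Subgroup.mem_subgroupOf, h2] at hu
    have h3 : M.fixingSubgroup ⊔ Subgroup.zpowers (g : Aut k) ≤
        (fixer X v).map (base M).fixingSubgroup.subtype := by
      refine sup_le (fun w hw => ?_) ?_
      · exact ⟨⟨w, IntermediateField.fixingSubgroup_le (base_le M) hw⟩, hX _ (Subgroup.mem_subgroupOf.2 hw) v, rfl⟩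
      · rw [Subgroup.zpowers_le]
        exact ⟨g, hav, rfl⟩
    obtain ⟨w, hw, hwu⟩ := h3 hu
    obtain rfl : w = u := Subtype.ext hwu
    exact hw

/-- Reduction to the fields whose automorphism group has a fixed point free module, in a class `P` closed under
subfields. -/
theorem reduce (hV : IsGaloisClass p V) (P : Fld k → Prop) (hP : ∀ L M : Fld k, L ≤ M → P M → P L)
    (h : ∀ M : Fld k, FiniteDimensional k M → P M → HasFreeModule p (M ≃ₐ[k] M) → V M (trivialMod p (Gal M)))
    (M : Fld k) (hM : FiniteDimensional k M) (hPM : P M) : V M (trivialMod p (Gal M)) := by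
  obtain ⟨n, hn⟩ : ∃ n, Module.finrank k M = n := ⟨_, rfl⟩
  induction n using Nat.strong_induction_on generalizing M with
  | _ n ih =>
    by_cases hfree : HasFreeModule p (M ≃ₐ[k] M)
    · exact h M hM hPM hfree
    · refine step hV M hfree fun L hL => ?_
      have hfd : FiniteDimensional k L := fd_of_le hL.le
      refine ih (Module.finrank k L) ?_ L hfd (hP L M hL.le hPM) rfl
      rw [← hn]
      have h1 : Module.finrank k L ≤ Module.finrank k M :=
        LinearMap.finrank_le_finrank_of_injective (f := (IntermediateField.inclusion hL.le).toLinearMap)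
          (IntermediateField.inclusion hL.le).injective
      refine lt_of_le_of_ne h1 fun he => hL.ne ?_
      exact IntermediateField.eq_of_le_of_finrank_eq hL.le he

end Pool.Agent.X310.Rc
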