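import Pool.Agent.X307.MU.Main
import Pool.Agent.X310.MuGrp

/-!
# Real and CM subfields
-/

set_option autoImplicit false

universe u

namespace Pool.Agent.X310.Rc

open Pool.Agent.X307.MU Pool.Agent.X310.Mu

/-- The automorphisms of the algebraic closure of `k`. -/
abbrev Aut (k : Type) [Field k] : Type := AlgebraicClosure k ≃ₐ[k] AlgebraicClosure k

variable {k : Type} [Field k]

/-- The automorphisms of `K`. -/
abbrev AutOf (K : Fld k) : Type := K ≃ₐ[k] K

/-- `c` is the complex conjugation for some embedding of the algebraic closure of `k` in `ℂ`. -/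
def IsConjugation (c : Aut k) : Prop :=
  ∃ φ : AlgebraicClosure k →+* ℂ, ∀ x, φ (c x) = starRingEnd ℂ (φ x)

/-- `K` has a real embedding. -/
def HasRealPlace (K : Fld k) : Prop := Nonempty (K →+* ℝ)

/-- The elements of `N` which are fixed by `c`. -/
noncomputable def realPart (N : Fld k) (c : Aut k) : Fld k :=
  N ⊓ IntermediateField.fixedField (Subgroup.zpowers c)

/-- The elements of `N` which are fixed by all `g c g⁻¹ c⁻¹`. -/
noncomputable def cmPart (N : Fld k) (c : Aut k) : Fld k :=
  N ⊓ IntermediateField.fixedField (comms c)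

/-- The elements of the group over `K` which fix `N` act trivially on `X`. -/
def TrivialOn {p : ℕ} {K : Fld k} (N : Fld k) (X : GMod p (Gal K)) : Prop :=
  ∀ u ∈ galSub K N, ∀ x : X.M, X.ρ u x = x

/-- The data `d` of the problem: the field `L d`, the residual representation of the Galois group over
`L d`, and the statement of Q1 for `d`. -/
structure IwasawaData (p : ℕ) where
  D : Type u
  L : D → Fld ℚ
  res : (d : D) → GMod p (Gal (L d))
  Holds : D → Prop

/-- `L d` is finite over `ℚ`, the residual representation is smooth, and the known criterion: Q1 for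
`d` is equivalent to `V (L d) (res d)`. -/
structure IsIwasawaData {p : ℕ} (V : (K : Fld ℚ) → GMod p (Gal K) → Prop) (I : IwasawaData.{u} p) :
    Prop where
  finite : ∀ d, FiniteDimensional ℚ (I.L d)
  smooth : ∀ d, IsSmooth (I.res d)
  criterion : ∀ d, I.Holds d ↔ V (I.L d) (I.res d)

/-- `d₀ K` is a datum (for example `T = ℤ_p`, `L = K`) with trivial residual representation `𝔽_p` over
`K`, for all number fields `K`. -/
def IsTrivialDatum {p : ℕ} [Fact p.Prime] (V : (K : Fld ℚ) → GMod p (Gal K) → Prop)
    (I : IwasawaData.{u} p) (d₀ : Fld ℚ → I.D) : Prop :=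
  ∀ K : Fld ℚ, FiniteDimensional ℚ K → (I.Holds (d₀ K) ↔ V K (trivialMod p (Gal K)))

/-- `c` fixes a nonzero vector of `X`. -/
def HasFixedVector {p : ℕ} {K : Fld k} (X : GMod p (Gal K)) (c : Aut k) : Prop :=
  ∃ u : Gal K, (u : Aut k) = c ∧ ∃ v : X.M, v ≠ 0 ∧ X.ρ u v = v

end Pool.Agent.X310.Rc

namespace Pool.Agent.X310.Rc

open Pool.Agent.X307.MU

/-- The group `A` has an irreducible finite `𝔽_p`-representation in which no element except `1` fixes a nonzero vector. -/
def HasFreeModule (p : ℕ) [Fact p.Prime] (A : Type) [Group A] : Prop :=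
  ∃ X : GMod p A, Pool.Agent.X307.MU.IsIrreducible X ∧ ∀ a : A, a ≠ 1 → ∀ v : X.M, X.ρ a v = v → v = 0

end Pool.Agent.X310.Rc
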