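import Pool.Agent.X310.RcD

set_option autoImplicit false
set_option linter.unusedSectionVars false

namespace Pool.Agent.X310.Rc

open Pool.Agent.X307.MU Pool.Agent.X310.Mu NumberField IntermediateField

variable {k : Type} [Field k] [CharZero k] {p : ℕ} [hp : Fact p.Prime]

theorem real_sub {L M : Fld k} (h : L ≤ M) (hM : HasRealPlace M) : HasRealPlace L := by
  obtain ⟨φ⟩ := hM
  exact ⟨φ.comp (IntermediateField.inclusion h).toRingHom⟩

theorem finrank_dvd {L M : Fld k} (h : L ≤ M) : Module.finrank k L ∣ Module.finrank k M := by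
  rw [IntermediateField.finrank_eq_fixingSubgroup_index, IntermediateField.finrank_eq_fixingSubgroup_index]
  exact Subgroup.index_dvd_of_le (IntermediateField.fixingSubgroup_le h)

variable {V : (K : Fld k) → GMod p (Gal K) → Prop}

/-- Everything follows from the real fields and the CM fields of degree prime to `p` whose automorphism groups have
fixed point free modules. -/
theorem all_of (hp2 : p ≠ 2) [NumberField k] [Subsingleton (k →+* ℂ)] {c : Aut k} (hc : IsConjugation c)
    (hV : IsGaloisClass p V)
    (h : ∀ K : Fld k, FiniteDimensional k K → (HasRealPlace K ∨ (IsCMField K ∧ ¬ p ∣ Module.finrank k K)) →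
      HasFreeModule p (AutOf K) → V K (trivialMod p (Gal K))) (K : Fld k) (hK : FiniteDimensional k K)
    (X : GMod p (Gal K)) (hX : IsSmooth X) : V K X := by
  let P : Fld k → Prop := fun M => HasRealPlace M ∨ (Commutes c M ∧ ¬ p ∣ Module.finrank k M)
  refine hV.all _ (fun K hK => hK.1) (rich' (p := p) hp2 hc) (fun K hK => ?_) K hK X hX
  refine reduce hV P ?_ ?_ K hK.1 (hK.2.imp id fun h => ⟨h.1.1, h.2⟩)
  · rintro L M hLM (hM | ⟨hM, hM'⟩)
    · exact Or.inl (real_sub hLM hM)
    · exact Or.inr ⟨fun g => IntermediateField.fixingSubgroup_le hLM (hM g), fun hd => hM' (hd.trans (finrank_dvd hLM))⟩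
  · rintro M hM hPM hfree
    refine h M hM ?_ hfree
    rcases hPM with hM' | ⟨hM', hpM⟩
    · exact Or.inl hM'
    · by_cases hne : ∃ x ∈ M, c x ≠ x
      · exact Or.inr ⟨cm_field hc M hM' hne, hpM⟩
      · push Not at hne
        exact Or.inl (real_of_fixed hc M hne)

end Pool.Agent.X310.Rc
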