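import Pool.Agent.X310.RcE
import Pool.Agent.X310.RcAutDefs

set_option autoImplicit false
set_option linter.unusedSectionVars false

namespace Pool.Agent.X310.Rc

open Pool.Agent.X307.MU Pool.Agent.X310.Mu NumberField IntermediateField

variable {k : Type} [Field k] [CharZero k] {p : ℕ} [hp : Fact p.Prime]

theorem fixOf_le (M : Fld k) (D : Subgroup (AutOf M)) : fixOf M D ≤ M := IntermediateField.lift_le _

theorem mem_fixOf (M : Fld k) (D : Subgroup (AutOf M)) (x : AlgebraicClosure k) :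
    x ∈ fixOf M D ↔ ∃ hx : x ∈ M, ∀ a ∈ D, a ⟨x, hx⟩ = ⟨x, hx⟩ := by
  constructor
  · rintro ⟨y, hy, rfl⟩
    exact ⟨y.2, fun a ha => (IntermediateField.mem_fixedField_iff D y).1 hy a ha⟩
  · rintro ⟨hx, h⟩
    exact ⟨⟨x, hx⟩, (IntermediateField.mem_fixedField_iff D _).2 fun a ha => h a ha, rfl⟩

/-- The automorphisms of the algebraic closure which induce elements of `D`. -/
noncomputable def liftD (M : Fld k) [FiniteDimensional k M] (D : Subgroup (AutOf M)) : Subgroup (Aut k) :=
  (D.comap (res M)).map (base M).fixingSubgroup.subtype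

theorem fixOf_eq (M : Fld k) [FiniteDimensional k M] (D : Subgroup (AutOf M)) :
    fixOf M D = M ⊓ fixedField (liftD M D) := by
  ext x
  rw [mem_fixOf]
  constructor
  · rintro ⟨hx, h⟩
    refine ⟨hx, ?_⟩
    rintro ⟨_, g, hg, rfl⟩
    exact congrArg Subtype.val (h (res M g) hg)
  · rintro ⟨hx, h⟩
    refine ⟨hx, fun a ha => ?_⟩
    obtain ⟨g, rfl⟩ := res_surj M a
    exact Subtype.ext (h ⟨g, g, ha, rfl⟩)

variable {V : (K : Fld k) → GMod p (Gal K) → Prop}

theorem rich_aut (hV : IsGaloisClass p V) (M : Fld k) [FiniteDimensional k M] {ι : Type}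
    (D : ι → Subgroup (AutOf M)) (hrich : IsRichFamily p D)
    (h : ∀ i, V (fixOf M (D i)) (trivialMod p (Gal (fixOf M (D i))))) : V M (trivialMod p (Gal M)) := by
  have hfd : FiniteDimensional k (base M) := fd_of_le (base_le M)
  have hf := finiteIndex_galSub (base M) M
  rw [← hV.shapiro (base M) M inferInstance (base_le M) hf]
  have hfix : ∀ i, (fixOf M (D i)).fixingSubgroup = M.fixingSubgroup ⊔ liftD M (D i) := fun i => by
    rw [fixOf_eq, fixing_inf]
  have hle : ∀ i, base M ≤ fixOf M (D i) := by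
    intro i
    rw [fixOf_eq]
    refine le_inf (base_le M) ?_
    rw [IntermediateField.le_iff_le]
    rintro _ ⟨g, -, rfl⟩
    exact g.2
  refine rel_dev' hV (base M) M (base_normal M) {L | ∃ i, L = fixOf M (D i)} ?_ ?_ _
    (perm_trivial' _ _ _ le_rfl (base_normal M))
  · rintro _ ⟨i, rfl⟩
    exact ⟨hle i, fixOf_le M (D i), h i⟩
  intro X hX hirr
  obtain ⟨ρ, hρ⟩ := exists_descend M X hX
  let X' : GMod p (M ≃ₐ[k] M) := { M := X.M, ρ := ρ }
  have hirr' : Pool.Agent.X307.MU.IsIrreducible X' := by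
    refine ⟨hirr.1, fun N hN => hirr.2 N fun g x hx => ?_⟩
    rw [← hρ g]
    exact hN (res M g) x hx
  obtain ⟨i, v, hv, hDv⟩ := hrich X' hirr'
  refine ⟨fixOf M (D i), ⟨i, rfl⟩, v, hv, ?_⟩
  intro u hu
  rw [Subgroup.mem_subgroupOf, hfix i] at hu
  have h3 : M.fixingSubgroup ⊔ liftD M (D i) ≤ (fixer X v).map (base M).fixingSubgroup.subtype := by
    refine sup_le (fun w hw => ?_) ?_
    · exact ⟨⟨w, IntermediateField.fixingSubgroup_le (base_le M) hw⟩, hX _ (Subgroup.mem_subgroupOf.2 hw) v, rfl⟩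
    · rintro _ ⟨g, hg, rfl⟩
      refine ⟨g, ?_, rfl⟩
      change X.ρ g v = v
      rw [← hρ]
      exact hDv (res M g) hg
  obtain ⟨w, hw, hwu⟩ := h3 hu
  obtain rfl : w = u := Subtype.ext hwu
  exact hw

theorem trivial_irr {G : Type} [Group G] : Pool.Agent.X307.MU.IsIrreducible (trivialMod p G) := by
  refine ⟨(inferInstance : Nontrivial (ZMod p)), fun N _ => ?_⟩
  exact eq_bot_or_eq_top (α := Submodule (ZMod p) (ZMod p)) N

theorem down' (hV : IsGaloisClass p V) (L M : Fld k) [FiniteDimensional k M] (hLM : L ≤ M)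
    (h : V M (trivialMod p (Gal M))) : V L (trivialMod p (Gal L)) := by
  have := fd_of_le hLM
  have hf := finiteIndex_galSub L M
  have h1 := (hV.shapiro L M inferInstance hLM hf).2 h
  exact hV.quotient L inferInstance _ _ (permMod_smooth _ (isOpen_galSub L M)) ⟨⊤, isOpen_univ, fun u _ x => rfl⟩
    (isQuotient_perm trivial_irr _ ⟨(1 : ZMod p), (one_ne_zero : (1 : ZMod p) ≠ 0), fun u _ => rfl⟩) h1

theorem rich_pair {A : Type} [Group A] {τ : A} (hτ : τ * τ = 1) : IsRichFamily p (pair τ) := by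
  intro X hirr
  rcases dich X hτ with ⟨v, hv, hcv⟩ | hneg
  · refine ⟨true, v, hv, ?_⟩
    have h1 : Subgroup.zpowers τ ≤ fixer X v := by
      rw [Subgroup.zpowers_le]
      exact hcv
    exact fun u hu => h1 hu
  · have := hirr.1
    obtain ⟨v, hv⟩ := exists_ne (0 : X.M)
    refine ⟨false, v, hv, ?_⟩
    have h1 : comms τ ≤ fixer X v := by
      unfold comms
      rw [Subgroup.closure_le]
      rintro _ ⟨g, rfl⟩
      change X.ρ _ v = v
      rw [comms_le X hneg, Module.End.one_apply]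
    exact fun u hu => h1 hu

theorem rich_single (hp2 : p ≠ 2) {A : Type} [Group A] {τ : A} (hτ : τ * τ = 1) (hm : τ ∈ comms τ) :
    IsRichFamily p (fun _ : Unit => Subgroup.zpowers τ) := by
  intro X hirr
  rcases dich X hτ with ⟨v, hv, hcv⟩ | hneg
  · refine ⟨(), v, hv, ?_⟩
    have h1 : Subgroup.zpowers τ ≤ fixer X v := by
      rw [Subgroup.zpowers_le]
      exact hcv
    exact fun u hu => h1 hu
  · exfalso
    have := hirr.1
    obtain ⟨v, hv⟩ := exists_ne (0 : X.M)
    have h1 : comms τ ≤ fixer X v := by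
      unfold comms
      rw [Subgroup.closure_le]
      rintro _ ⟨g, rfl⟩
      change X.ρ _ v = v
      rw [comms_le X hneg, Module.End.one_apply]
    have h2 : X.ρ τ v = v := h1 hm
    rw [hneg] at h2
    exact hv (eq_zero_of_double hp2 h2.symm)

end Pool.Agent.X310.Rc
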