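import Pool.Agent.X310.RcF

set_option autoImplicit false
set_option linter.unusedSectionVars false

namespace Pool.Agent.X310.Rc

open Pool.Agent.X307.MU Pool.Agent.X310.Mu NumberField IntermediateField

theorem real_closed (L M : Fld ℚ) (hLM : L ≤ M) (hM : FiniteDimensional ℚ M) (hR : IsTotallyReal M) :
    IsTotallyReal L := by
  have nM : NumberField M := NumberField.of_module_finite ℚ M
  have hL : FiniteDimensional ℚ L := fd_of_le hLM
  have nL : NumberField L := NumberField.of_module_finite ℚ L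
  let : Algebra L M := (IntermediateField.inclusion hLM).toRingHom.toAlgebra
  exact IsTotallyReal.of_algebra L M

theorem mu_aut {p : ℕ} [Fact p.Prime] (hp : p ≠ 2) (mu : Fld ℚ → Prop)
    (hmu : IsCohomologicalOn p (fun K => IsTotallyReal K) mu) :
    ((∀ K : Fld ℚ, FiniteDimensional ℚ K → IsTotallyReal K → mu K) ↔
      ∀ K : Fld ℚ, FiniteDimensional ℚ K → IsTotallyReal K → HasFreeModule p (AutOf K) → mu K) ∧
    ∀ M : Fld ℚ, FiniteDimensional ℚ M → IsTotallyReal M →
      (∀ L, L ≤ M → mu M → mu L) ∧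
      (∀ (ι : Type) (D : ι → Subgroup (AutOf M)), IsRichFamily p D → (∀ i, mu (fixOf M (D i))) → mu M) ∧
      (¬ HasFreeModule p (AutOf M) → (∀ L, L < M → mu L) → mu M) ∧
      ∀ τ : AutOf M, τ * τ = 1 →
        (mu M ↔ mu (fixOf M (Subgroup.zpowers τ)) ∧ mu (fixOf M (comms τ))) ∧
        (τ ∈ comms τ → (mu M ↔ mu (fixOf M (Subgroup.zpowers τ)))) ∧
        ((∀ K : Fld ℚ, FiniteDimensional ℚ K → IsTotallyReal K → IsAbelianGalois ℚ K → mu K) →
          IsAbelianGalois ℚ (fixOf M (comms τ)) → (mu M ↔ mu (fixOf M (Subgroup.zpowers τ)))) := by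
  obtain ⟨V, hV, h₀⟩ := hmu
  have hsub : ∀ M : Fld ℚ, FiniteDimensional ℚ M → IsTotallyReal M → ∀ L, L ≤ M → mu M → mu L := by
    intro M hM hR L hL h
    have h1 := fd_of_le hL
    exact (h₀ L h1 (real_closed L M hL hM hR)).2 (down' hV L M hL ((h₀ M hM hR).1 h))
  refine ⟨⟨fun h K hK hR _ => h K hK hR, fun h K hK hR => ?_⟩, fun M hM hR => ?_⟩
  · rw [h₀ K hK hR]
    refine reduce hV (fun K => FiniteDimensional ℚ K ∧ IsTotallyReal K) ?_ ?_ K hK ⟨hK, hR⟩
    · rintro L M hLM ⟨hM, hM'⟩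
      exact ⟨fd_of_le hLM, real_closed L M hLM hM hM'⟩
    · rintro M hM ⟨-, hM'⟩ hf
      exact (h₀ M hM hM').1 (h M hM hM' hf)
  · have hrich : ∀ (ι : Type) (D : ι → Subgroup (AutOf M)), IsRichFamily p D → (∀ i, mu (fixOf M (D i))) →
        mu M := by
      intro ι D hD h
      rw [h₀ M hM hR]
      refine rich_aut hV M D hD fun i => ?_
      have h1 : FiniteDimensional ℚ (fixOf M (D i)) := fd_of_le (fixOf_le M (D i))
      exact (h₀ _ h1 (real_closed _ M (fixOf_le M _) hM hR)).1 (h i)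
    refine ⟨hsub M hM hR, hrich, fun hf h => ?_, fun τ hτ => ?_⟩
    · rw [h₀ M hM hR]
      refine step hV M hf fun L hL => ?_
      have h1 : FiniteDimensional ℚ L := fd_of_le hL.le
      exact (h₀ _ h1 (real_closed _ M hL.le hM hR)).1 (h L hL)
    · have key : mu M ↔ mu (fixOf M (Subgroup.zpowers τ)) ∧ mu (fixOf M (comms τ)) := by
        refine ⟨fun h => ⟨hsub M hM hR _ (fixOf_le M _) h, hsub M hM hR _ (fixOf_le M _) h⟩, fun h => ?_⟩
        refine hrich _ (pair τ) (rich_pair hτ) ?_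
        rintro (_ | _)
        exacts [h.2, h.1]
      refine ⟨key, fun hm => ⟨fun h => hsub M hM hR _ (fixOf_le M _) h, fun h => ?_⟩, fun hab hC => ?_⟩
      · exact hrich _ _ (rich_single hp hτ hm) fun _ => h
      · rw [key]
        exact ⟨fun h => h.1, fun h => ⟨h, hab _ (fd_of_le (fixOf_le M _)) (real_closed _ M (fixOf_le M _) hM hR) hC⟩⟩

end Pool.Agent.X310.Rc
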