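import Pool.Agent.X310.RcDefs

/-!
# The invariant `μ` and finite Galois modules
-/

set_option autoImplicit false

namespace Pool.Agent.X310.Rc

open Pool.Agent.X307.MU

/-- The property `mu` of number fields is given by a class `V` of finite Galois modules: `mu K` holds if and only if `𝔽_p`
is in the class over `K`. -/
def IsCohomological (p : ℕ) [Fact p.Prime] (mu : Fld ℚ → Prop) : Prop :=
  ∃ V : (K : Fld ℚ) → GMod p (Gal K) → Prop, IsGaloisClass p V ∧
    ∀ K : Fld ℚ, FiniteDimensional ℚ K → (mu K ↔ V K (trivialMod p (Gal K)))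

/-- Each irreducible `𝔽_p`-representation of the Galois group of `N` over `ℚ` has a nonzero vector which is fixed by the
automorphisms over `K` for some `K` in `𝒦`. -/
def IsRichIn (p : ℕ) [Fact p.Prime] (N : Fld ℚ) (𝒦 : Set (Fld ℚ)) : Prop :=
  ∀ X : GMod p (Gal (⊥ : Fld ℚ)), TrivialOn N X → IsIrreducible X → ∃ K ∈ 𝒦, HasFixed X (galSub ⊥ K)

/-- `mu` holds for all finite abelian extensions of `ℚ`. -/
def HoldsForAbelian (mu : Fld ℚ → Prop) : Prop :=
  ∀ K : Fld ℚ, FiniteDimensional ℚ K → IsAbelianGalois ℚ K → mu K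

end Pool.Agent.X310.Rc
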