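import Pool.Agent.X310.RcE
import Pool.Agent.X310.RcMuDefs

set_option autoImplicit false
set_option linter.unusedSectionVars false

namespace Pool.Agent.X310.Rc

open Pool.Agent.X307.MU Pool.Agent.X310.Mu NumberField

theorem mu_main {p : ℕ} [Fact p.Prime] (hp : p ≠ 2) (mu : Fld ℚ → Prop) (hmu : IsCohomological p mu) :
    ((∀ K : Fld ℚ, FiniteDimensional ℚ K → mu K) ↔ ∀ K : Fld ℚ, FiniteDimensional ℚ K →
      (HasRealPlace K ∨ (IsCMField K ∧ ¬ p ∣ Module.finrank ℚ K)) → HasFreeModule p (AutOf K) → mu K) ∧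
    (∀ M : Fld ℚ, FiniteDimensional ℚ M → ¬ HasFreeModule p (AutOf M) → (∀ L, L < M → mu L) → mu M) ∧
    ∀ N : Fld ℚ, FiniteDimensional ℚ N → Normal ℚ N →
      (∀ 𝒦 : Set (Fld ℚ), (∀ K ∈ 𝒦, K ≤ N) → IsRichIn p N 𝒦 → (mu N ↔ ∀ K ∈ 𝒦, mu K)) ∧
      ∀ c : Aut ℚ, IsConjugation c →
        (mu N ↔ mu (realPart N c) ∧ mu (cmPart N c)) ∧
        (cmPart N c ≤ realPart N c → (mu N ↔ mu (realPart N c))) ∧
        (HoldsForAbelian mu → IsAbelianGalois ℚ (cmPart N c) → (mu N ↔ mu (realPart N c))) ∧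
        HasRealPlace (realPart N c) ∧ (HasRealPlace (cmPart N c) ∨ IsCMField (cmPart N c)) := by
  obtain ⟨V, hV, h₀⟩ := hmu
  refine ⟨⟨fun h K hK _ _ => h K hK, fun h K hK => ?_⟩, fun M hM hfree h => (h₀ M hM).2 (step hV M hfree
    fun L hL => (h₀ L (fd_of_le hL.le)).1 (h L hL)), ?_⟩
  · obtain ⟨c, hc⟩ := exists_conj (k := ℚ) (algebraMap ℚ ℂ) (fun x => by simp)
    rw [h₀ K hK]
    exact all_of hp hc hV (fun K hK hK' hf => (h₀ K hK).1 (h K hK hK' hf)) K hK _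
      ⟨⊤, isOpen_univ, fun u _ x => rfl⟩
  · intro N hN hnor
    have hn : N.fixingSubgroup.Normal := normal_fix N (hN := hnor)
    refine ⟨fun 𝒦 h𝒦 hr => ⟨fun h K hK => ?_, fun h => ?_⟩, fun c hc => ?_⟩
    · rw [h₀ K (fd_of_le (h𝒦 K hK))]
      exact down hV N K (h𝒦 K hK) ((h₀ N hN).1 h)
    · rw [h₀ N hN]
      have hf := finiteIndex_galSub (⊥ : Fld ℚ) N
      rw [← hV.shapiro ⊥ N inferInstance bot_le hf]
      exact rel_dev hV ⊥ N 𝒦 (fun K hK => ⟨bot_le, h𝒦 K hK, (h₀ K (fd_of_le (h𝒦 K hK))).1 (h K hK)⟩) hr _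
        (perm_trivial _ _ _ le_rfl)
    · have h1 : FiniteDimensional ℚ (realPart N c) := fd_of_le (real_le N c)
      have h2 : FiniteDimensional ℚ (cmPart N c) := fd_of_le (cm_le N c)
      have hc2 := conj_sq hc
      have key : mu N ↔ mu (realPart N c) ∧ mu (cmPart N c) := by
        rw [h₀ _ hN, h₀ _ h1, h₀ _ h2]
        exact ⟨fun h => ⟨down hV N _ (real_le N c) h, down hV N _ (cm_le N c) h⟩,
          fun h => rel_pair hV hc2 N h.1 h.2⟩
      refine ⟨key, ?_, ?_, real_part_real hc N, cm_part_cm hc N⟩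
      · intro hle
        rw [h₀ _ hN, h₀ _ h1]
        exact ⟨fun h => down hV N _ (real_le N c) h, fun h => rel_single hV hc2 N hle h⟩
      · intro hab hC
        rw [key]
        exact ⟨fun h => h.1, fun h => ⟨h, hab _ h2 hC⟩⟩

end Pool.Agent.X310.Rc
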