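import Mathlib

/-!
# Finite groups acting on objects of ℚ-linear categories
-/

set_option autoImplicit false

universe v u

namespace Pool.Agent.X310.Rq

open CategoryTheory

/-- The family of subgroups `D i` is rich: each irreducible `ℚ`-representation of `G` has a nonzero vector fixed by one
of the groups `D i`. -/
def IsRich {G : Type} [Group G] {ι : Type} (D : ι → Subgroup G) : Prop :=
  ∀ (V : Type) [AddCommGroup V] [Module ℚ V] (ρ : Representation ℚ G V), Nontrivial V →
    (∀ N : Submodule ℚ V, (∀ g, ∀ x ∈ N, ρ g x ∈ N) → N = ⊥ ∨ N = ⊤) →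
    ∃ i, ∃ v : V, v ≠ 0 ∧ ∀ d ∈ D i, ρ d v = v

/-- `G` has an irreducible `ℚ`-representation in which no element except `1` fixes a nonzero vector. -/
def HasFreeRep (G : Type) [Group G] : Prop :=
  ∃ (V : Type) (_ : AddCommGroup V) (_ : Module ℚ V) (ρ : Representation ℚ G V), Nontrivial V ∧
    (∀ N : Submodule ℚ V, (∀ g, ∀ x ∈ N, ρ g x ∈ N) → N = ⊥ ∨ N = ⊤) ∧
    ∀ g : G, g ≠ 1 → ∀ v : V, ρ g v = v → v = 0

/-- The subgroup generated by the commutators `g c g⁻¹ c⁻¹`. -/
def comms {G : Type} [Group G] (c : G) : Subgroup G :=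
  Subgroup.closure {x | ∃ g : G, x = g * c * g⁻¹ * c⁻¹}

/-- The mean of the elements of `D`. -/
noncomputable def mean {G A : Type*} [Group G] [Ring A] [Module ℚ A] (ρ : G →* A) (D : Subgroup G) : A :=
  ((Nat.card D : ℚ)⁻¹) • ∑ᶠ d : D, ρ d

variable {C : Type u} [Category.{v} C] [Preadditive C] [Linear ℚ C]

/-- `Y` is the quotient of `X` by the group `D`: the direct summand of `X` cut out by the mean of the elements of
`D`. -/
def IsQuotientBy {G : Type} [Group G] {X : C} (ρ : G →* End X) (D : Subgroup G) (Y : C) : Prop :=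
  ∃ (p : X ⟶ Y) (i : Y ⟶ X), i ≫ p = 𝟙 Y ∧ p ≫ i = mean ρ D

/-- The class `P` of objects is closed under finite direct sums and direct summands: it contains `X` if the identity of
`X` is a finite sum of morphisms which factor through objects in `P`. -/
def IsThick (P : C → Prop) : Prop :=
  ∀ (X : C) (κ : Type) [Fintype κ] (Y : κ → C) (f : ∀ j, X ⟶ Y j) (g : ∀ j, Y j ⟶ X),
    ∑ j, f j ≫ g j = 𝟙 X → (∀ j, P (Y j)) → P X

end Pool.Agent.X310.Rq
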