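import Pool.Agent.X310.RcAutDefs
import Pool.Agent.X310.RqDefs

/-!
# Rational functors of fields with Galois descent
-/

set_option autoImplicit false

namespace Pool.Agent.X310.Rd

open Pool.Agent.X307.MU Pool.Agent.X310.Rc

/-- A covariant functor from the finite extensions `E` of `k` in its algebraic closure to the `ℚ`-vector spaces, given by
the spaces `M E` and the actions of the automorphism groups, with Galois descent and transfer: `M` vanishes on the field
`E^D` if and only if no nonzero element of `M E` is fixed by `D`; and `M` vanishes on the subfields of a field on which it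
vanishes. -/
structure DescentFunctor (k : Type) [Field k] where
  M : Fld k → Type
  [grp : ∀ E, AddCommGroup (M E)]
  [mod : ∀ E, Module ℚ (M E)]
  act : ∀ E : Fld k, Representation ℚ (AutOf E) (M E)
  descent : ∀ E : Fld k, FiniteDimensional k E → ∀ D : Subgroup (AutOf E),
    (Subsingleton (M (fixOf E D)) ↔ ∀ x : M E, (∀ d ∈ D, act E d x = x) → x = 0)
  transfer : ∀ E E' : Fld k, FiniteDimensional k E' → E ≤ E' → Subsingleton (M E') → Subsingleton (M E)

attribute [instance] DescentFunctor.grp DescentFunctor.mod

/-- `M(E) = 0`. -/
def DescentFunctor.Zero {k : Type} [Field k] (T : DescentFunctor k) (E : Fld k) : Prop :=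
  Subsingleton (T.M E)

/-- The automorphisms `g c g⁻¹ c⁻¹` of the algebraic closure are trivial on `E`. For a complex conjugation `c` this says
that `c` induces an automorphism of `E` which does not depend on the choice of the embedding. -/
def Central {k : Type} [Field k] (c : Aut k) (E : Fld k) : Prop :=
  ∀ g : Aut k, g * c * g⁻¹ * c⁻¹ ∈ E.fixingSubgroup

end Pool.Agent.X310.Rd
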