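import Pool.Agent.X310.RqDefs

set_option autoImplicit false
set_option linter.unusedSectionVars false

universe v u

namespace Pool.Agent.X310.Rq

open CategoryTheory

section alg

variable {G : Type} [Group G] [Finite G] {ι : Type}

/-- The group algebra. -/
abbrev R (G : Type) [Group G] := MonoidAlgebra ℚ G

theorem mean_sum {A : Type*} [Ring A] [Module ℚ A] (ρ : G →* A) (D : Subgroup G) [Fintype D] :
    mean ρ D = ((Nat.card D : ℚ)⁻¹) • ∑ d : D, ρ d := by
  rw [mean, finsum_eq_sum_of_fintype]

theorem mean_map {A B : Type*} [Ring A] [Algebra ℚ A] [Ring B] [Algebra ℚ B] (φ : A →ₐ[ℚ] B) (ρ : G →* A)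
    (ρ' : G →* B) (h : ∀ g, φ (ρ g) = ρ' g) (D : Subgroup G) : φ (mean ρ D) = mean ρ' D := by
  haveI : Fintype D := Fintype.ofFinite D
  rw [mean_sum, mean_sum, map_smul, map_sum]
  simp only [h]

/-- The elements of the ideal. -/
def InIdeal (D : ι → Subgroup G) (x : R G) : Prop :=
  ∃ (κ : Type) (_ : Fintype κ) (i : κ → ι) (a b : κ → R G),
    x = ∑ j, a j * (mean (MonoidAlgebra.of ℚ G) (D (i j)) * b j)

theorem inIdeal_span (D : ι → Subgroup G) (x : R G)
    (hx : x ∈ Submodule.span (R G) {y | ∃ i b, y = mean (MonoidAlgebra.of ℚ G) (D i) * b}) : InIdeal D x := by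
  induction hx using Submodule.span_induction with
  | mem y hy =>
    obtain ⟨i, b, rfl⟩ := hy
    exact ⟨Unit, inferInstance, fun _ => i, fun _ => 1, fun _ => b, by simp⟩
  | zero => exact ⟨Empty, inferInstance, Empty.elim, Empty.elim, Empty.elim, by simp⟩
  | add y z _ _ h1 h2 =>
    obtain ⟨κ, _, i, a, b, rfl⟩ := h1
    obtain ⟨κ', _, i', a', b', rfl⟩ := h2
    refine ⟨κ ⊕ κ', inferInstance, Sum.elim i i', Sum.elim a a', Sum.elim b b', ?_⟩
    rw [Fintype.sum_sum_type]
    rfl
  | smul r y _ h =>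
    obtain ⟨κ, _, i, a, b, rfl⟩ := h
    refine ⟨κ, inferInstance, i, fun j => r * a j, b, ?_⟩
    rw [smul_eq_mul, Finset.mul_sum]
    simp only [mul_assoc]

/-- A rich family generates the group algebra. -/
theorem one_inIdeal (D : ι → Subgroup G) (hD : IsRich D) : InIdeal D (1 : R G) := by
  apply inIdeal_span
  set J : Submodule (R G) (R G) :=
    Submodule.span (R G) {y | ∃ i b, y = mean (MonoidAlgebra.of ℚ G) (D i) * b} with hJ
  by_contra h1
  have hne : J ≠ ⊤ := fun h => h1 (by rw [h]; trivial)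
  obtain ⟨m, hm, hJm⟩ := Ideal.exists_le_maximal (α := R G) J hne
  let V := R G ⧸ m
  let ρ : Representation ℚ G V := (Algebra.lsmul ℚ ℚ V).toMonoidHom.comp (MonoidAlgebra.of ℚ G)
  have hρ : ∀ (g : G) (x : V), ρ g x = (MonoidAlgebra.of ℚ G g : R G) • x := fun g x => rfl
  have hnt : Nontrivial V := Submodule.Quotient.nontrivial_iff.2 hm.ne_top
  obtain ⟨i, v, hv, hfix⟩ := hD V ρ hnt (by
    intro N hN
    let N' : Submodule (R G) (R G) :=
      { carrier := {x | (Submodule.Quotient.mk x : V) ∈ N}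
        add_mem' := fun {x y} hx hy => by
          change (Submodule.Quotient.mk (x + y) : V) ∈ N
          rw [Submodule.Quotient.mk_add]
          exact N.add_mem hx hy
        zero_mem' := by
          change (Submodule.Quotient.mk 0 : V) ∈ N
          rw [Submodule.Quotient.mk_zero]
          exact N.zero_mem
        smul_mem' := fun r x hx => by
          change (Submodule.Quotient.mk (r • x) : V) ∈ N
          rw [Submodule.Quotient.mk_smul]
          induction r using MonoidAlgebra.induction_on with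
          | of g => exact hN g _ hx
          | add a b ha hb =>
            rw [add_smul]
            exact N.add_mem ha hb
          | smul q a ha =>
            rw [smul_assoc]
            exact N.smul_mem q ha }
    have hmN : m ≤ N' := by
      intro x hx
      change (Submodule.Quotient.mk x : V) ∈ N
      rw [(Submodule.Quotient.mk_eq_zero m).2 hx]
      exact N.zero_mem
    rcases eq_or_lt_of_le hmN with h | h
    · left
      rw [eq_bot_iff]
      intro x hx
      obtain ⟨y, rfl⟩ := Submodule.Quotient.mk_surjective m x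
      have : y ∈ N' := hx
      rw [← h] at this
      exact (Submodule.Quotient.mk_eq_zero m).2 this
    · right
      have h2 : N' = ⊤ := hm.out.2 N' h
      rw [eq_top_iff]
      intro x _
      obtain ⟨y, rfl⟩ := Submodule.Quotient.mk_surjective m x
      have : y ∈ N' := by rw [h2]; trivial
      exact this)
  apply hv
  haveI : Fintype (D i) := Fintype.ofFinite (D i)
  have h2 : (mean (MonoidAlgebra.of ℚ G) (D i) : R G) • v = v := by
    rw [mean_sum, smul_assoc, Finset.sum_smul]
    have h3 : ∀ d : D i, (MonoidAlgebra.of ℚ G (d : G) : R G) • v = v := fun d => hfix d d.2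
    rw [Finset.sum_congr rfl fun d _ => h3 d, Finset.sum_const, Finset.card_univ, ← Nat.card_eq_fintype_card,
      ← Nat.cast_smul_eq_nsmul ℚ, smul_smul, inv_mul_cancel₀ (by exact_mod_cast Nat.card_pos.ne'), one_smul]
  obtain ⟨y, rfl⟩ := Submodule.Quotient.mk_surjective m v
  rw [← h2, ← Submodule.Quotient.mk_smul, Submodule.Quotient.mk_eq_zero]
  exact hJm (Submodule.subset_span ⟨i, y, rfl⟩)

end alg

section cat

variable {C : Type u} [Category.{v} C] [Preadditive C] [Linear ℚ C]

theorem rich_mem {G : Type} [Group G] [Finite G] {ι : Type} (D : ι → Subgroup G) (hD : IsRich D) {X : C}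
    (ρ : G →* End X) (Y : ι → C) (hY : ∀ i, IsQuotientBy ρ (D i) (Y i)) (P : C → Prop) (hP : IsThick P)
    (h : ∀ i, P (Y i)) : P X := by
  choose p q hqp hpq using hY
  obtain ⟨κ, _, i, a, b, h1⟩ := one_inIdeal D hD
  let φ : R G →ₐ[ℚ] End X := MonoidAlgebra.lift ℚ (End X) G ρ
  have hφ : ∀ g, φ (MonoidAlgebra.of ℚ G g) = ρ g := fun g => MonoidAlgebra.lift_of ρ g
  have h2 := congrArg φ h1
  rw [map_one, map_sum] at h2
  refine hP X κ (fun j => Y (i j)) (fun j => φ (b j) ≫ p (i j)) (fun j => q (i j) ≫ φ (a j)) ?_ (fun j => h (i j))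
  have h3 : ∀ j, (φ (b j) ≫ p (i j)) ≫ q (i j) ≫ φ (a j) =
      φ (a j * (mean (MonoidAlgebra.of ℚ G) (D (i j)) * b j)) := by
    intro j
    rw [map_mul, map_mul, mean_map φ (MonoidAlgebra.of ℚ G) ρ hφ, ← hpq (i j)]
    simp only [End.mul_def, Category.assoc]
  simp only [h3]
  exact h2.symm

theorem quot_mem {G : Type} [Group G] {X : C} (ρ : G →* End X) (D : Subgroup G) (Y : C)
    (hY : IsQuotientBy ρ D Y) (P : C → Prop) (hP : IsThick P) (h : P X) : P Y := by
  obtain ⟨p, q, h1, -⟩ := hY
  exact hP Y Unit (fun _ => X) (fun _ => q) (fun _ => p) (by simpa using h1) (fun _ => h)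

end cat

section grp

variable {G : Type} [Group G]

theorem rich_of_not_free (h : ¬ HasFreeRep G) : IsRich (fun g : {g : G // g ≠ 1} => Subgroup.zpowers g.1) := by
  intro V _ _ ρ hnt hirr
  by_contra hno
  push Not at hno
  apply h
  refine ⟨V, inferInstance, inferInstance, ρ, hnt, hirr, fun g hg v hv => ?_⟩
  by_contra hv0
  obtain ⟨d, hd, hd'⟩ := hno ⟨g, hg⟩ v hv0
  apply hd'
  have h1 : ∀ n : ℤ, ρ (g ^ n) v = v := by
    intro n
    induction n using Int.induction_on with
    | zero => simp
    | succ i ih => rw [zpow_add_one, map_mul, Module.End.mul_apply, hv, ih]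
    | pred i ih =>
      have h2 : ρ g⁻¹ v = v := by
        conv_lhs => rw [← hv]
        rw [← Module.End.mul_apply, ← map_mul, inv_mul_cancel, map_one, Module.End.one_apply]
      rw [zpow_sub_one, map_mul, Module.End.mul_apply, h2, ih]
  obtain ⟨n, rfl⟩ := Subgroup.mem_zpowers_iff.1 hd
  exact h1 n

/-- The groups `⟨c⟩` and `comms c`. -/
def pairOf (c : G) : Bool → Subgroup G
  | true => Subgroup.zpowers c
  | false => comms c

theorem fix_closure {V : Type} [AddCommGroup V] [Module ℚ V] (ρ : Representation ℚ G V) (v : V) (S : Set G)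
    (h : ∀ g ∈ S, ρ g v = v) : ∀ g ∈ Subgroup.closure S, ρ g v = v := by
  intro g hg
  induction hg using Subgroup.closure_induction with
  | mem x hx => exact h x hx
  | one => rw [map_one, Module.End.one_apply]
  | mul x y _ _ hx hy => rw [map_mul, Module.End.mul_apply, hy, hx]
  | inv x _ hx =>
    conv_lhs => rw [← hx]
    rw [← Module.End.mul_apply, ← map_mul, inv_mul_cancel, map_one, Module.End.one_apply]

theorem dich {V : Type} [AddCommGroup V] [Module ℚ V] (ρ : Representation ℚ G V) {c : G} (hc : c * c = 1) :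
    (∃ v : V, v ≠ 0 ∧ ρ c v = v) ∨ ∀ v : V, ρ c v = -v := by
  by_cases h : ∃ v : V, v ≠ 0 ∧ ρ c v = v
  · exact Or.inl h
  · right
    push Not at h
    intro v
    have h1 : ρ c (v + ρ c v) = v + ρ c v := by
      rw [map_add, ← Module.End.mul_apply, ← map_mul, hc, map_one, Module.End.one_apply, add_comm]
    by_contra h2
    exact h (v + ρ c v) (fun h3 => h2 (eq_neg_of_add_eq_zero_right h3)) h1

theorem comms_fix {V : Type} [AddCommGroup V] [Module ℚ V] (ρ : Representation ℚ G V) {c : G}
    (h : ∀ v : V, ρ c v = -v) (v : V) : ∀ g ∈ comms c, ρ g v = v := by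
  refine fix_closure ρ v _ ?_
  rintro _ ⟨g, rfl⟩
  have h1 : ρ (g * c) = ρ (c * g) := by
    ext v
    rw [map_mul, map_mul, Module.End.mul_apply, Module.End.mul_apply, h, h, map_neg]
  have h2 : g * c * g⁻¹ * c⁻¹ = (g * c) * (c * g)⁻¹ := by group
  rw [h2, map_mul, h1, ← map_mul, mul_inv_cancel, map_one, Module.End.one_apply]

theorem zpowers_fix {V : Type} [AddCommGroup V] [Module ℚ V] (ρ : Representation ℚ G V) {c : G} {v : V}
    (h : ρ c v = v) : ∀ g ∈ Subgroup.zpowers c, ρ g v = v := by
  rw [Subgroup.zpowers_eq_closure]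
  exact fix_closure ρ v _ (by rintro _ rfl; exact h)

theorem rich_pair {c : G} (hc : c * c = 1) : IsRich (pairOf c) := by
  intro V _ _ ρ hnt hirr
  rcases dich ρ hc with ⟨v, hv, hcv⟩ | hneg
  · exact ⟨true, v, hv, zpowers_fix ρ hcv⟩
  · obtain ⟨v, hv⟩ := exists_ne (0 : V)
    exact ⟨false, v, hv, comms_fix ρ hneg v⟩

theorem rich_single {c : G} (hc : c * c = 1) (hm : c ∈ comms c) : IsRich (fun _ : Unit => Subgroup.zpowers c) := by
  intro V _ _ ρ hnt hirr
  rcases dich ρ hc with ⟨v, hv, hcv⟩ | hneg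
  · exact ⟨(), v, hv, zpowers_fix ρ hcv⟩
  · exfalso
    obtain ⟨v, hv⟩ := exists_ne (0 : V)
    have h1 := comms_fix ρ hneg v c hm
    rw [hneg v] at h1
    apply hv
    have h2 : (2 : ℚ) • v = 0 := by
      rw [two_smul]
      nth_rewrite 1 [← h1]
      exact neg_add_cancel v
    exact (smul_eq_zero.1 h2).resolve_left (by norm_num)

end grp

end Pool.Agent.X310.Rq
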