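import Pool.Agent.X310.RcF
import Pool.Agent.X310.RqA
import Pool.Agent.X310.RdDefs

set_option autoImplicit false
set_option linter.unusedSectionVars false

namespace Pool.Agent.X310.Rd

open Pool.Agent.X307.MU Pool.Agent.X310.Rc IntermediateField

section lin

variable {G : Type} [Group G] [Finite G] {W : Type} [AddCommGroup W] [Module ℚ W]

/-- The mean of `D` takes values in the invariants. -/
theorem mean_fixed (ρ : Representation ℚ G W) (D : Subgroup G) (x : W) (d : G) (hd : d ∈ D) :
    ρ d (Rq.mean ρ D x) = Rq.mean ρ D x := by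
  haveI : Fintype D := Fintype.ofFinite D
  rw [Rq.mean_sum, LinearMap.smul_apply, LinearMap.sum_apply, map_smul, map_sum]
  congr 1
  refine Fintype.sum_equiv (Equiv.mulLeft (⟨d, hd⟩ : D)) _ _ fun e => ?_
  rw [← Module.End.mul_apply, ← map_mul]
  rfl

/-- If no nonzero vector is fixed by some group of a rich family, the representation is zero. -/
theorem zero_of_rich {ι : Type} (D : ι → Subgroup G) (hD : Rq.IsRich D) (ρ : Representation ℚ G W)
    (h : ∀ i, ∀ x : W, (∀ d ∈ D i, ρ d x = x) → x = 0) (x : W) : x = 0 := by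
  obtain ⟨κ, _, i, a, b, h1⟩ := Rq.one_inIdeal D hD
  let φ : Rq.R G →ₐ[ℚ] Module.End ℚ W := MonoidAlgebra.lift ℚ (Module.End ℚ W) G ρ
  have hφ : ∀ g, φ (MonoidAlgebra.of ℚ G g) = ρ g := fun g => MonoidAlgebra.lift_of ρ g
  have h2 := congrArg (fun f : Rq.R G => φ f x) h1
  simp only [map_one, Module.End.one_apply, map_sum, LinearMap.sum_apply, map_mul, Module.End.mul_apply] at h2
  rw [h2]
  apply Finset.sum_eq_zero
  intro j _
  have h3 : φ (Rq.mean (MonoidAlgebra.of ℚ G) (D (i j))) (φ (b j) x) = 0 := by
    rw [Rq.mean_map φ (MonoidAlgebra.of ℚ G) ρ hφ]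
    exact h (i j) _ fun d hd => mean_fixed ρ (D (i j)) _ d hd
  rw [h3, map_zero]

end lin

variable {k : Type} [Field k] [CharZero k]

theorem zero_iff (T : DescentFunctor k) (E : Fld k) [FiniteDimensional k E] {ι : Type} (D : ι → Subgroup (AutOf E))
    (hD : Rq.IsRich D) : T.Zero E ↔ ∀ i, T.Zero (fixOf E (D i)) := by
  haveI : Finite (AutOf E) := inferInstance
  constructor
  · exact fun h i => T.transfer _ E inferInstance (fixOf_le E (D i)) h
  · intro h
    have h1 := zero_of_rich D hD (T.act E) fun i => (T.descent E inferInstance (D i)).1 (h i)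
    exact ⟨fun x y => by rw [h1 x, h1 y]⟩

/-- Reduction to fields with fixed point free automorphism groups, in a class `P` closed under subfields. -/
theorem zero_reduce (T : DescentFunctor k) (P : Fld k → Prop) (hP : ∀ L M : Fld k, L ≤ M → P M → P L)
    (h : ∀ M : Fld k, FiniteDimensional k M → P M → Rq.HasFreeRep (AutOf M) → T.Zero M)
    (M : Fld k) (hM : FiniteDimensional k M) (hPM : P M) : T.Zero M := by
  obtain ⟨n, hn⟩ : ∃ n, Module.finrank k M = n := ⟨_, rfl⟩
  induction n using Nat.strong_induction_on generalizing M with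
  | _ n ih =>
    by_cases hfree : Rq.HasFreeRep (AutOf M)
    · exact h M hM hPM hfree
    · rw [zero_iff T M _ (Rq.rich_of_not_free hfree)]
      rintro ⟨g, hg⟩
      have hle : fixOf M (Subgroup.zpowers g) ≤ M := fixOf_le M _
      have hfd : FiniteDimensional k (fixOf M (Subgroup.zpowers g)) := fd_of_le hle
      refine ih _ ?_ _ hfd (hP _ M hle hPM) rfl
      rw [← hn]
      have h1 : Module.finrank k (fixOf M (Subgroup.zpowers g)) ≤ Module.finrank k M :=
        LinearMap.finrank_le_finrank_of_injective (f := (IntermediateField.inclusion hle).toLinearMap)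
          (IntermediateField.inclusion hle).injective
      refine lt_of_le_of_ne h1 fun he => hg ?_
      have h2 : fixOf M (Subgroup.zpowers g) = M := IntermediateField.eq_of_le_of_finrank_eq hle he
      ext x
      have h3 : (x : AlgebraicClosure k) ∈ fixOf M (Subgroup.zpowers g) := by rw [h2]; exact x.2
      obtain ⟨_, h4⟩ := (mem_fixOf M _ _).1 h3
      exact congrArg Subtype.val (h4 g (Subgroup.mem_zpowers g))

theorem central_sub {c : Aut k} {L M : Fld k} (h : L ≤ M) (hM : Central c M) : Central c L := fun g =>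
  IntermediateField.fixingSubgroup_le h (hM g)

/-- The automorphism of the normal field `N` induced by an automorphism of the algebraic closure. -/
theorem exists_res (N : Fld k) [FiniteDimensional k N] [hn : N.fixingSubgroup.Normal] (g : Aut k) :
    ∃ γ : AutOf N, ∀ x : N, (γ x : AlgebraicClosure k) = g x := by
  have h1 : g ∈ (base N).fixingSubgroup := by
    rw [base_fixing, Subgroup.mem_normalizer_iff]
    intro u
    constructor
    · exact fun hu => hn.conj_mem u hu g
    · intro hu
      have := hn.conj_mem _ hu g⁻¹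
      simpa [mul_assoc] using this
  exact ⟨res N ⟨g, h1⟩, fun x => rfl⟩

/-- Reduction to the real fields and the fields on which complex conjugation is central. -/
theorem zero_all (T : DescentFunctor k) {c : Aut k} (hc : IsConjugation c)
    (h : ∀ E : Fld k, FiniteDimensional k E → (HasRealPlace E ∨ Central c E) → Rq.HasFreeRep (AutOf E) → T.Zero E)
    (E : Fld k) (hE : FiniteDimensional k E) : T.Zero E := by
  have hred : ∀ M : Fld k, FiniteDimensional k M → (HasRealPlace M ∨ Central c M) → T.Zero M :=
    zero_reduce T (fun M => HasRealPlace M ∨ Central c M)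
      (fun L M hLM hM => hM.imp (real_sub hLM) (central_sub hLM)) h
  let N : Fld k := IntermediateField.normalClosure k E (AlgebraicClosure k)
  have hEN : E ≤ N := IntermediateField.le_normalClosure E
  have hN : FiniteDimensional k N := normalClosure.is_finiteDimensional k E (AlgebraicClosure k)
  have hNn : Normal k N := normalClosure.normal k E (AlgebraicClosure k)
  have hn : N.fixingSubgroup.Normal := normal_fix N (hN := hNn)
  refine T.transfer E N hN hEN ?_
  have hc2 := conj_sq hc
  obtain ⟨τ, hτ⟩ := exists_res N c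
  have hτ2 : τ * τ = 1 := by
    ext x
    change (τ (τ x) : AlgebraicClosure k) = x
    rw [hτ, hτ]
    exact DFunLike.congr_fun hc2 (x : AlgebraicClosure k)
  change T.Zero N
  rw [zero_iff T N _ (Rq.rich_pair hτ2)]
  rintro (_ | _)
  · refine hred _ (fd_of_le (fixOf_le N _)) (Or.inr fun g x => ?_)
    obtain ⟨γ, hγ⟩ := exists_res N g
    obtain ⟨hx, h1⟩ := (mem_fixOf N _ _).1 x.2
    have h2 := congrArg Subtype.val (h1 (γ * τ * γ⁻¹ * τ⁻¹) (Subgroup.subset_closure ⟨γ, rfl⟩))
    have hτi : ∀ y : N, (τ⁻¹ y : AlgebraicClosure k) = c⁻¹ y := by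
      intro y
      have h3 := hτ (τ⁻¹ y)
      have h4 : τ (τ⁻¹ y) = y := τ.apply_symm_apply y
      rw [h4] at h3
      rw [h3]
      exact (c.symm_apply_apply _).symm
    have hγi : ∀ y : N, (γ⁻¹ y : AlgebraicClosure k) = g⁻¹ y := by
      intro y
      have h3 := hγ (γ⁻¹ y)
      have h4 : γ (γ⁻¹ y) = y := γ.apply_symm_apply y
      rw [h4] at h3
      rw [h3]
      exact (g.symm_apply_apply _).symm
    have h5 : ((γ * τ * γ⁻¹ * τ⁻¹) ⟨x, hx⟩ : N) = γ (τ (γ⁻¹ (τ⁻¹ ⟨x, hx⟩))) := rfl
    rw [h5, hγ, hτ, hγi, hτi] at h2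
    exact h2
  · refine hred _ (fd_of_le (fixOf_le N _)) (Or.inl (real_of_fixed hc _ fun x hx => ?_))
    obtain ⟨hx', h1⟩ := (mem_fixOf N _ _).1 hx
    have h2 := congrArg Subtype.val (h1 τ (Subgroup.mem_zpowers τ))
    rw [hτ] at h2
    exact h2

end Pool.Agent.X310.Rd
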