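import Pool.Agent.X310.RdA

set_option autoImplicit false
set_option linter.unusedSectionVars false

namespace Pool.Agent.X310.Rd

open Pool.Agent.X307.MU Pool.Agent.X310.Rc IntermediateField

variable {k : Type} [Field k] [CharZero k]

theorem zero_single (T : DescentFunctor k) (E : Fld k) [FiniteDimensional k E] (τ : AutOf E) (hτ : τ * τ = 1) :
    (T.Zero E ↔ T.Zero (fixOf E (Subgroup.zpowers τ)) ∧ T.Zero (fixOf E (Rq.comms τ))) ∧
    (τ ∈ Rq.comms τ → (T.Zero E ↔ T.Zero (fixOf E (Subgroup.zpowers τ)))) := by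
  constructor
  · rw [zero_iff T E _ (Rq.rich_pair hτ)]
    refine ⟨fun h => ⟨h true, h false⟩, ?_⟩
    rintro ⟨h1, h2⟩ (_ | _)
    exacts [h2, h1]
  · intro hm
    rw [zero_iff T E _ (Rq.rich_single hτ hm)]
    exact ⟨fun h => h (), fun h _ => h⟩

theorem zero_free (T : DescentFunctor k) (E : Fld k) [FiniteDimensional k E] (hE : ¬ Rq.HasFreeRep (AutOf E)) :
    T.Zero E ↔ ∀ L, L < E → T.Zero L := by
  constructor
  · exact fun h L hL => T.transfer L E inferInstance hL.le h
  · intro h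
    rw [zero_iff T E _ (Rq.rich_of_not_free hE)]
    rintro ⟨g, hg⟩
    have hle : fixOf E (Subgroup.zpowers g) ≤ E := fixOf_le E _
    refine h _ (lt_of_le_of_ne hle fun h2 => hg ?_)
    ext x
    have h3 : (x : AlgebraicClosure k) ∈ fixOf E (Subgroup.zpowers g) := by rw [h2]; exact x.2
    obtain ⟨_, h4⟩ := (mem_fixOf E _ _).1 h3
    exact congrArg Subtype.val (h4 g (Subgroup.mem_zpowers g))

end Pool.Agent.X310.Rd
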