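import Pool.Agent.X310.RqDefs

/-!
# Vanishing conjectures on a category of motives
-/

set_option autoImplicit false

universe w v u

namespace Pool.Agent.X310.Rq

open CategoryTheory

variable {C : Type u} [Category.{v} C] [Preadditive C]

/-- The functors of the family `F` vanish on `M`. -/
def Vanish {σ : Type} (F : σ → (C ⥤ ModuleCat.{w} ℚ)) (M : C) : Prop :=
  ∀ s, Subsingleton ((F s).obj M)

end Pool.Agent.X310.Rq
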