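import Pool.Agent.X310.RqA
import Pool.Agent.X310.RqBDefs

set_option autoImplicit false
set_option linter.unusedSectionVars false

universe w v u

namespace Pool.Agent.X310.Rq

open CategoryTheory

variable {C : Type u} [Category.{v} C] [Preadditive C]

theorem thick_vanish {σ : Type} (F : σ → (C ⥤ ModuleCat.{w} ℚ)) (hF : ∀ s, (F s).Additive) :
    IsThick (Vanish F) := by
  intro X κ _ Y f g h1 hY s
  have := hF s
  refine ⟨fun x y => ?_⟩
  have key : ∀ x : (F s).obj X, x = 0 := by
    intro x
    have h2 : (F s).map (∑ j, f j ≫ g j) = 𝟙 _ := by rw [h1, (F s).map_id]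
    rw [Functor.map_sum] at h2
    have h3 := congrArg (fun φ : (F s).obj X ⟶ (F s).obj X => φ.hom x) h2
    simp only [ModuleCat.hom_sum, LinearMap.sum_apply, Functor.map_comp, ModuleCat.hom_comp,
      LinearMap.comp_apply, ModuleCat.hom_id, LinearMap.id_apply] at h3
    rw [← h3]
    apply Finset.sum_eq_zero
    intro j _
    have h4 := hY j s
    have h5 : (ModuleCat.Hom.hom ((F s).map (f j))) x = 0 := Subsingleton.elim _ _
    rw [h5, map_zero]
  rw [key x, key y]

end Pool.Agent.X310.Rq
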