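import Mathlib

/-! Definitions: the height pairing as the restriction of a symmetric form to the kernel of a
skew-adjoint nilpotent operator. -/

namespace Pool.Agent.X310.Sch

open Module

/-- The data: `V` is a finite-dimensional space with a nilpotent operator `N` and a nondegenerate
symmetric bilinear form `B` for which `N` is skew-adjoint. -/
structure SkewData (K V : Type) [Field K] [AddCommGroup V] [Module K V] where
  /-- nilpotent operator -/
  N : V →ₗ[K] V
  /-- symmetric form -/
  B : V →ₗ[K] V →ₗ[K] K
  nilp : ∃ k : ℕ, N ^ k = 0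
  symm : ∀ x y, B x y = B y x
  nondeg : ∀ x, (∀ y, B x y = 0) → x = 0
  skew : ∀ x y, B (N x) y = - B x (N y)

variable {K V : Type} [Field K] [AddCommGroup V] [Module K V]

/-- the radical of the height pairing: elements of `ker N` orthogonal to `ker N`. -/
def SkewData.radical (D : SkewData K V) : Submodule K V where
  carrier := {x | D.N x = 0 ∧ ∀ y, D.N y = 0 → D.B x y = 0}
  zero_mem' := ⟨map_zero _, fun y _ => by rw [map_zero]; rfl⟩
  add_mem' := by
    rintro a b ⟨ha, ha'⟩ ⟨hb, hb'⟩
    exact ⟨by rw [map_add, ha, hb, add_zero], fun y hy => by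
      rw [map_add, LinearMap.add_apply, ha' y hy, hb' y hy, add_zero]⟩
  smul_mem' := by
    rintro c a ⟨ha, ha'⟩
    exact ⟨by rw [map_smul, ha, smul_zero], fun y hy => by
      rw [map_smul, LinearMap.smul_apply, ha' y hy, smul_zero]⟩

/-- The height pairing (the restriction of `B` to `ker N`) is nondegenerate. -/
def SkewData.HeightNondegenerate (D : SkewData K V) : Prop :=
  ∀ x, D.N x = 0 → (∀ y, D.N y = 0 → D.B x y = 0) → x = 0

end Pool.Agent.X310.Sch
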