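import Pool.Agent.X310.Spec

/-!
# The second moment: combinatorics
-/

set_option autoImplicit false

open Finset

namespace Pool.Agent.X310

/-- The combinatorial part of the inequality for the second moments. -/
lemma comb_second {m : ℕ} (d : Fin m → Fin m → ℕ) (e : Fin m → ℕ) (β : Fin m → ℕ)
    (w : Fin m → ℚ) (ε : Fin m → ℤ) (hε : ∀ i, ε i = 1 ∨ ε i = -1)
    (h1 : ∑ j, ∑ i, w j * w i * (d j i : ℚ) = ∑ j, ∑ i, w i ^ 2 * (d j i : ℚ))
    (h2 : ∀ i, ∑ j, ε j * (d j i : ℤ) = ε i * β i) :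
    ∑ i, w i ^ 2 * (β i : ℚ) ≤ ∑ j, w j ^ 2 * ((∑ i, d j i : ℕ) + (e j : ℚ)) ∧
      (∑ i, w i ^ 2 * (β i : ℚ) = ∑ j, w j ^ 2 * ((∑ i, d j i : ℕ) + (e j : ℚ)) →
        Function.Injective w → ∀ j, w j ≠ 0 → (∑ i, d j i) + e j = β j) := by
  have h3 : ∀ i, (β i : ℤ) ≤ ∑ j, (d j i : ℤ) := by
    intro i
    have h4 : (β i : ℤ) = ε i * (ε i * β i) := by
      rw [← mul_assoc]
      rcases hε i with h | h <;> rw [h] <;> ring
    rw [h4, ← h2, Finset.mul_sum]
    refine Finset.sum_le_sum fun j _ => ?_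
    have h0 : (0 : ℤ) ≤ d j i := Int.natCast_nonneg _
    rcases hε i with h | h <;> rcases hε j with h' | h' <;> rw [h, h'] <;> linarith
  have h3' : ∀ i, (β i : ℚ) ≤ ∑ j, (d j i : ℚ) := fun i => by exact_mod_cast h3 i
  have h5 : ∑ j, w j ^ 2 * ((∑ i, d j i : ℕ) + (e j : ℚ)) - ∑ i, w i ^ 2 * (β i : ℚ) =
      ∑ j, ∑ i, (w j - w i) ^ 2 * (d j i : ℚ) + ∑ j, w j ^ 2 * (e j : ℚ) +
        ∑ i, w i ^ 2 * (∑ j, (d j i : ℚ) - β i) := by
    have e1 : ∑ j, ∑ i, (w j - w i) ^ 2 * (d j i : ℚ) =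
        ∑ j, ∑ i, w j ^ 2 * (d j i : ℚ) - 2 * ∑ j, ∑ i, w j * w i * (d j i : ℚ) +
          ∑ j, ∑ i, w i ^ 2 * (d j i : ℚ) := by
      rw [Finset.mul_sum, ← Finset.sum_sub_distrib, ← Finset.sum_add_distrib]
      refine Finset.sum_congr rfl fun j _ => ?_
      rw [Finset.mul_sum, ← Finset.sum_sub_distrib, ← Finset.sum_add_distrib]
      exact Finset.sum_congr rfl fun i _ => by ring
    have e2 : ∑ i, w i ^ 2 * (∑ j, (d j i : ℚ) - β i) =
        ∑ j, ∑ i, w i ^ 2 * (d j i : ℚ) - ∑ i, w i ^ 2 * (β i : ℚ) := by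
      rw [Finset.sum_comm, ← Finset.sum_sub_distrib]
      refine Finset.sum_congr rfl fun i _ => ?_
      rw [mul_sub, Finset.mul_sum]
    have e3 : ∑ j, w j ^ 2 * ((∑ i, d j i : ℕ) + (e j : ℚ)) =
        ∑ j, ∑ i, w j ^ 2 * (d j i : ℚ) + ∑ j, w j ^ 2 * (e j : ℚ) := by
      rw [← Finset.sum_add_distrib]
      refine Finset.sum_congr rfl fun j _ => ?_
      push_cast
      rw [mul_add, Finset.mul_sum]
    rw [e1, e2, e3, h1]
    ring
  have n1 : 0 ≤ ∑ j, ∑ i, (w j - w i) ^ 2 * (d j i : ℚ) :=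
    Finset.sum_nonneg fun j _ => Finset.sum_nonneg fun i _ => by positivity
  have n2 : 0 ≤ ∑ j, w j ^ 2 * (e j : ℚ) := Finset.sum_nonneg fun j _ => by positivity
  have n3 : ∀ i ∈ (Finset.univ : Finset (Fin m)), 0 ≤ w i ^ 2 * (∑ j, (d j i : ℚ) - β i) :=
    fun i _ => mul_nonneg (by positivity) (sub_nonneg.2 (h3' i))
  have n3' := Finset.sum_nonneg n3
  refine ⟨by linarith, fun heq hw j hj => ?_⟩
  rw [heq, sub_self] at h5
  have z1 : ∑ j, ∑ i, (w j - w i) ^ 2 * (d j i : ℚ) = 0 := by linarith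
  have z2 : ∑ j, w j ^ 2 * (e j : ℚ) = 0 := by linarith
  have z3 : ∑ i, w i ^ 2 * (∑ j, (d j i : ℚ) - β i) = 0 := by linarith
  have y1 : ∀ j i, i ≠ j → d j i = 0 := by
    intro j i hij
    have a1 := (Finset.sum_eq_zero_iff_of_nonneg (fun j _ =>
      Finset.sum_nonneg fun i _ => by positivity)).1 z1 j (Finset.mem_univ j)
    have a2 := (Finset.sum_eq_zero_iff_of_nonneg (fun i _ => by positivity)).1 a1 i
      (Finset.mem_univ i)
    rcases mul_eq_zero.1 a2 with h | h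
    · exfalso
      apply hij
      apply hw
      have := pow_eq_zero_iff (two_ne_zero) |>.1 h
      linarith
    · exact_mod_cast h
  have y2 : e j = 0 := by
    have a2 := (Finset.sum_eq_zero_iff_of_nonneg (fun i _ => by positivity)).1 z2 j
      (Finset.mem_univ j)
    rcases mul_eq_zero.1 a2 with h | h
    · exact absurd (pow_eq_zero_iff (two_ne_zero) |>.1 h) hj
    · exact_mod_cast h
  have y3 : ∑ k, (d k j : ℚ) = β j := by
    have a2 := (Finset.sum_eq_zero_iff_of_nonneg n3).1 z3 j (Finset.mem_univ j)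
    rcases mul_eq_zero.1 a2 with h | h
    · exact absurd (pow_eq_zero_iff (two_ne_zero) |>.1 h) hj
    · linarith
  have y4 : ∑ k, d k j = β j := by exact_mod_cast y3
  rw [y2, add_zero, Finset.sum_eq_single j (fun i _ hi => y1 j i hi)
    (fun h => absurd (Finset.mem_univ j) h), ← y4, Finset.sum_eq_single j
    (fun k _ hk => y1 k j (Ne.symm hk)) (fun h => absurd (Finset.mem_univ j) h)]

end Pool.Agent.X310
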