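import Pool.Agent.X310.SrcOld
import Pool.Agent.X310.Sum
import Pool.Agent.X310.Joint

/-!
# The Lefschetz standard conjecture from semisimple sources
-/

set_option autoImplicit false

open CategoryTheory AlgebraicGeometry Finset

universe u v

namespace Pool.Agent.X310

open Pool.Agent.H914 Pool.Agent.H447 Pool.Agent.W537 Pool.Agent.TH122.Km
  VarClass Obj WeilCohomology

variable {k : Type u} [Field k] {𝒱 : VarClass k} {ops : CycleOps 𝒱}
  {W : WeilCohomology.{u, v} ops} {X Y Z V : 𝒱.Obj}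

lemma corrs_eq {i j : ℕ} {d : ℤ} (h : (j : ℤ) - i = 2 * d) : corrs W Y Z i j = KOp W Y Z d := by
  rw [corrs, KOp]
  congr 1
  ext φ
  constructor
  · rintro ⟨p, hp, z, hz, rfl⟩
    exact ⟨p, by omega, z, hz, rfl⟩
  · rintro ⟨p, hp, z, hz, rfl⟩
    exact ⟨p, by omega, z, hz, rfl⟩

lemma corrs_cases (W : WeilCohomology.{u, v} ops) (Y Z : 𝒱.Obj) (i j : ℕ) :
    (∃ d : ℤ, (j : ℤ) - i = 2 * d) ∨ corrs W Y Z i j = ⊥ := by
  by_cases h : ∃ d : ℤ, (j : ℤ) - i = 2 * d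
  · exact Or.inl h
  · right
    rw [corrs, Submodule.span_eq_bot]
    rintro φ ⟨p, hp, -⟩
    exact absurd ⟨(p : ℤ) - Y.dim, by omega⟩ h

lemma corrs_map {i j : ℕ} {φ : W.H Y →ₗ[W.K] W.H Z} (hφ : φ ∈ corrs W Y Z i j) {a : W.H Y}
    (ha : a ∈ W.gr Y i) : φ a ∈ W.gr Z j := by
  rcases corrs_cases W Y Z i j with ⟨d, hd⟩ | h
  · rw [corrs_eq hd] at hφ
    have h1 := KOp.isHom hφ i a (by rw [grZ_natCast]; exact ha)
    rwa [show (i : ℤ) + 2 * d = (j : ℤ) by omega, grZ_natCast] at h1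
  · rw [h] at hφ
    rw [(Submodule.mem_bot _).1 hφ]
    exact Submodule.zero_mem _

lemma corrs_comp {i j l : ℕ} {φ : W.H Y →ₗ[W.K] W.H Z} {ψ : W.H Z →ₗ[W.K] W.H V}
    (hψ : ψ ∈ corrs W Z V j l) (hφ : φ ∈ corrs W Y Z i j) : ψ ∘ₗ φ ∈ corrs W Y V i l := by
  rcases corrs_cases W Y Z i j with ⟨d, hd⟩ | h
  · rcases corrs_cases W Z V j l with ⟨e, he⟩ | h
    · rw [corrs_eq hd] at hφ
      rw [corrs_eq he] at hψ
      rw [corrs_eq (d := d + e) (by omega)]
      exact KOp.comp hψ hφ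
    · rw [h] at hψ
      rw [(Submodule.mem_bot _).1 hψ, LinearMap.zero_comp]
      exact Submodule.zero_mem _
  · rw [h] at hφ
    rw [(Submodule.mem_bot _).1 hφ, LinearMap.comp_zero]
    exact Submodule.zero_mem _

lemma corrs_id (i : ℕ) : LinearMap.id ∈ corrs W Y Y i i := by
  rw [corrs_eq (d := 0) (by omega)]
  exact KOp.id Y

lemma corrs_proj_comm {i j : ℕ} {φ : W.H Y →ₗ[W.K] W.H Z} (hφ : φ ∈ corrs W Y Z i j) :
    φ ∘ₗ proj (W.isInternal Y) i = proj (W.isInternal Z) j ∘ₗ φ := by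
  rcases corrs_cases W Y Z i j with ⟨d, hd⟩ | h
  · rw [corrs_eq hd] at hφ
    apply gr_ext (W.isInternal Y)
    intro l a ha
    have h1 := KOp.isHom hφ l a (by rw [grZ_natCast]; exact ha)
    rw [LinearMap.comp_apply, LinearMap.comp_apply]
    by_cases hl : l = i
    · subst hl
      rw [show (l : ℤ) + 2 * d = (j : ℤ) by omega, grZ_natCast] at h1
      rw [proj_same _ ha, proj_same _ h1]
    · rw [proj_ne _ ha hl, map_zero]
      by_cases hneg : (l : ℤ) + 2 * d < 0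
      · rw [grZ_of_neg hneg] at h1
        rw [(Submodule.mem_bot _).1 h1, map_zero]
      · obtain ⟨m, hm⟩ := Int.eq_ofNat_of_zero_le (not_lt.1 hneg)
        rw [hm, grZ_natCast] at h1
        rw [proj_ne _ h1 (by omega)]
  · rw [h] at hφ
    rw [(Submodule.mem_bot _).1 hφ, LinearMap.comp_zero, LinearMap.zero_comp]

lemma corrs_lef {D : X.Cycles} (hD : X.IsCyc 1 D) (i m : ℕ) :
    lefPow W X D m ∈ corrs W X X i (i + 2 * m) := by
  rw [corrs_eq (d := m) (by push_cast; ring), lefPow, ← LinearMap.pow_mulLeft]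
  have h1 : LinearMap.mulLeft W.K (W.cl X D) ^ m ∈ KS (ROp W X) (m * 1) :=
    Submodule.subset_span (rop_opAlg.pow (rop_mulLeft (W := W) hD) m)
  rwa [mem_KS_iff, mul_one] at h1

/-- The operators between the sources, restricted to the graded pieces. -/
noncomputable def rk (W : WeilCohomology.{u, v} ops) (Y Z : 𝒱.Obj) (i j : ℕ) :
    Submodule W.K (W.H Y →ₗ[W.K] W.H Z) :=
  (corrs W Y Z i j).map (LinearMap.lcomp W.K (W.H Z) (proj (W.isInternal Y) i))

lemma mem_rk {i j : ℕ} {f : W.H Y →ₗ[W.K] W.H Z} :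
    f ∈ rk W Y Z i j ↔ ∃ φ ∈ corrs W Y Z i j, φ ∘ₗ proj (W.isInternal Y) i = f := by
  rw [rk, Submodule.mem_map]
  rfl

lemma rk_comp {i j l : ℕ} {f : W.H Y →ₗ[W.K] W.H Z} {g : W.H Z →ₗ[W.K] W.H V}
    (hg : g ∈ rk W Z V j l) (hf : f ∈ rk W Y Z i j) : g ∘ₗ f ∈ rk W Y V i l := by
  obtain ⟨φ, hφ, rfl⟩ := mem_rk.1 hf
  obtain ⟨ψ, hψ, rfl⟩ := mem_rk.1 hg
  refine mem_rk.2 ⟨ψ ∘ₗ φ, corrs_comp hψ hφ, ?_⟩
  have h1 : (ψ ∘ₗ proj (W.isInternal Z) j) ∘ₗ (φ ∘ₗ proj (W.isInternal Y) i) =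
      ψ ∘ₗ (proj (W.isInternal Z) j ∘ₗ φ) ∘ₗ proj (W.isInternal Y) i := rfl
  have h2 : proj (W.isInternal Y) i ∘ₗ proj (W.isInternal Y) i = proj (W.isInternal Y) i :=
    proj_mul_proj (W.isInternal Y) i
  have h3 : (φ ∘ₗ proj (W.isInternal Y) i) ∘ₗ proj (W.isInternal Y) i =
      φ ∘ₗ proj (W.isInternal Y) i := by rw [LinearMap.comp_assoc, h2]
  rw [h1, ← corrs_proj_comm hφ, h3, LinearMap.comp_assoc]

lemma rk_left {i j : ℕ} {f : W.H Y →ₗ[W.K] W.H Z} (hf : f ∈ rk W Y Z i j) :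
    proj (W.isInternal Z) j ∘ₗ f = f := by
  obtain ⟨φ, hφ, rfl⟩ := mem_rk.1 hf
  have h2 : proj (W.isInternal Y) i ∘ₗ proj (W.isInternal Y) i = proj (W.isInternal Y) i :=
    proj_mul_proj (W.isInternal Y) i
  rw [← LinearMap.comp_assoc, ← corrs_proj_comm hφ, LinearMap.comp_assoc, h2]

lemma rk_right {i j : ℕ} {f : W.H Y →ₗ[W.K] W.H Z} (hf : f ∈ rk W Y Z i j) :
    f ∘ₗ proj (W.isInternal Y) i = f := by
  obtain ⟨φ, hφ, rfl⟩ := mem_rk.1 hf
  have h2 : proj (W.isInternal Y) i ∘ₗ proj (W.isInternal Y) i = proj (W.isInternal Y) i :=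
    proj_mul_proj (W.isInternal Y) i
  rw [LinearMap.comp_assoc, h2]

lemma proj_mem_rk (i : ℕ) : proj (W.isInternal Y) i ∈ rk W Y Y i i :=
  mem_rk.2 ⟨LinearMap.id, corrs_id i, LinearMap.id_comp _⟩

lemma isProjector_proj (i : ℕ) : IsProjector (W.gr Y) i (proj (W.isInternal Y) i) := by
  intro l a ha
  split_ifs with hl
  · subst hl; exact proj_same _ ha
  · exact proj_ne _ ha hl

lemma isProjector_unique {i : ℕ} {P : Module.End W.K (W.H Y)} (hP : IsProjector (W.gr Y) i P) :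
    P = proj (W.isInternal Y) i := by
  apply gr_ext (W.isInternal Y)
  intro l a ha
  rw [hP l a ha]
  split_ifs with hl
  · subst hl; rw [proj_same _ ha]
  · rw [proj_ne _ ha hl]

/-- The traces in terms of the restricted operators. -/
lemma traceOn_iff {i : ℕ} {T : Module.End W.K (W.H Y)} {t : W.K} :
    TraceOn (W.gr Y) i T t ↔ LinearMap.trace W.K (W.H Y) (T * proj (W.isInternal Y) i) = t :=
  ⟨fun h => h _ (isProjector_proj i), fun h P hP => by rw [isProjector_unique hP, h]⟩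

section Family

variable {ι : Type} {S : ι → 𝒱.Obj} {j : ι → ℕ}

/-- Nondegeneracy for the restricted operators. -/
lemma nondeg_rk (h : NondegTraces W S j) (s t : ι) (f : W.H (S s) →ₗ[W.K] W.H (S t))
    (hf : f ∈ rk W (S s) (S t) (j s) (j t))
    (h0 : ∀ b ∈ rk W (S t) (S s) (j t) (j s), LinearMap.trace W.K (W.H (S s)) (b ∘ₗ f) = 0) :
    f = 0 := by
  obtain ⟨φ, hφ, rfl⟩ := mem_rk.1 hf
  have h1 := h s t φ hφ (fun b hb => by
    rw [traceOn_iff]
    have h2 := h0 _ (mem_rk.2 ⟨b, hb, rfl⟩)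
    have h3 : (b ∘ₗ proj (W.isInternal (S t)) (j t)) ∘ₗ (φ ∘ₗ proj (W.isInternal (S s)) (j s)) =
        b ∘ₗ (proj (W.isInternal (S t)) (j t) ∘ₗ φ) ∘ₗ proj (W.isInternal (S s)) (j s) := rfl
    have h4 : proj (W.isInternal (S s)) (j s) ∘ₗ proj (W.isInternal (S s)) (j s) =
        proj (W.isInternal (S s)) (j s) := proj_mul_proj _ _
    rw [h3, ← corrs_proj_comm hφ, LinearMap.comp_assoc, h4] at h2
    exact h2)
  ext x
  exact h1 _ (proj_mem _ _ x)

/-- Joint semisimplicity gives nondegenerate traces. -/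
theorem nondegTraces_of_joint [Finite ι] (h : JointlySemisimple W S j) : NondegTraces W S j := by
  classical
  cases nonempty_fintype ι
  obtain ⟨G, hG, hss⟩ := h
  have hrange : ∀ t, LinearMap.range (proj (W.isInternal (S t)) (j t)) = W.gr (S t) (j t) :=
    fun t => range_proj _ _
  intro s t φ hφ h0 a ha
  have key := nondeg_of_joint (K := W.K) (N := fun t => W.H (S t)) (Γ := G)
    (fun t => proj (W.isInternal (S t)) (j t))
    (fun t => proj_mul_proj _ _) (fun s t => rk W (S s) (S t) (j s) (j t))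
    (fun t => proj_mem_rk (j t)) (fun s t r hr => rk_left hr) (fun s t r hr => rk_right hr)
    (fun s t t' r hr r' hr' => rk_comp hr' hr)
    (fun g t => (g : ∀ t, Module.End W.K (W.H (S t))) t * proj (W.isInternal (S t)) (j t))
    (fun g s t r hr => by
      obtain ⟨φ, hφ, rfl⟩ := mem_rk.1 hr
      ext x
      have h2 : φ (proj (W.isInternal (S s)) (j s) x) ∈ W.gr (S t) (j t) :=
        corrs_map hφ (proj_mem _ _ x)
      have h3 := (hG g g.2).1 s _ (proj_mem (W.isInternal (S s)) (j s) x)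
      simp only [LinearMap.comp_apply, Module.End.mul_apply]
      rw [proj_same _ h2, proj_same _ h3]
      exact (hG g g.2).2 s t φ hφ _ (proj_mem _ _ x))
    (fun g t x hx => by
      rw [hrange] at hx ⊢
      rw [Module.End.mul_apply, proj_same _ hx]
      exact (hG g g.2).1 t x hx)
    (fun T hT1 hT2 hT3 => by
      obtain ⟨C, hC, hC'⟩ := hss T ⟨fun t => (hT1 t).trans (hrange t).le, fun s t φ hφ x hx => by
          have h4 := hT2 s t _ (mem_rk.2 ⟨φ, hφ, rfl⟩) x hx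
          have h5 : x ∈ W.gr (S s) (j s) := (hT1 s).trans (hrange s).le hx
          rwa [LinearMap.comp_apply, proj_same _ h5] at h4, fun g hg t x hx => by
          have h4 := hT3 ⟨g, hg⟩ t x hx
          have h5 : x ∈ W.gr (S t) (j t) := (hT1 t).trans (hrange t).le hx
          rwa [Module.End.mul_apply, proj_same _ h5] at h4⟩
      refine ⟨C, fun t => (hC.1 t).trans (hrange t).ge, fun s t r hr x hx => ?_, fun t => ?_⟩
      · obtain ⟨φ, hφ, rfl⟩ := mem_rk.1 hr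
        rw [LinearMap.comp_apply, proj_same _ (hC.1 s hx)]
        exact hC.2.1 s t φ hφ x hx
      · rw [hrange]
        exact hC' t)
    s t (φ ∘ₗ proj (W.isInternal (S s)) (j s)) (mem_rk.2 ⟨φ, hφ, rfl⟩) (by
      intro b hb
      obtain ⟨ψ, hψ, rfl⟩ := mem_rk.1 hb
      have h2 := traceOn_iff.1 (h0 ψ hψ)
      have h3 : (ψ ∘ₗ proj (W.isInternal (S t)) (j t)) ∘ₗ (φ ∘ₗ proj (W.isInternal (S s)) (j s)) =
          ψ ∘ₗ (proj (W.isInternal (S t)) (j t) ∘ₗ φ) ∘ₗ proj (W.isInternal (S s)) (j s) := rfl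
      have h4 : proj (W.isInternal (S s)) (j s) ∘ₗ proj (W.isInternal (S s)) (j s) =
          proj (W.isInternal (S s)) (j s) := proj_mul_proj _ _
      rw [h3, ← corrs_proj_comm hφ, LinearMap.comp_assoc, h4]
      exact h2)
  have h5 := congrArg (fun f : W.H (S s) →ₗ[W.K] W.H (S t) => f a) key
  simp only [LinearMap.comp_apply, LinearMap.zero_apply] at h5
  rwa [proj_same _ ha] at h5

end Family

end Pool.Agent.X310
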