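import Pool.Agent.TH122.KmC

/-!
# Sources for the cohomology of a variety: definitions
-/

open CategoryTheory AlgebraicGeometry

universe u v

namespace Pool.Agent.X310

open Pool.Agent.H914 Pool.Agent.W537 Pool.Agent.TH122.Km VarClass Obj WeilCohomology

variable {k : Type u} [Field k] {𝒱 : VarClass k} {ops : CycleOps 𝒱}

/-- The linear combinations, with coefficients in the coefficient field `K`, of algebraic
correspondences from `Y` to `Z` which map `H^i(Y)` to `H^j(Z)`: those given by cycles of codimension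
`p` on `Y × Z` with `2 p + i = 2 dim Y + j`. -/
def corrs (W : WeilCohomology.{u, v} ops) (Y Z : 𝒱.Obj) (i j : ℕ) :
    Submodule W.K (W.H Y →ₗ[W.K] W.H Z) :=
  Submodule.span W.K {φ | ∃ p : ℕ, 2 * p + i = 2 * Y.dim + j ∧
    ∃ z, (Y.prod Z).IsCyc p z ∧ W.corr (W.cl _ z) = φ}

/-- `H^k(X)` is spanned by the images of the spaces `H^(j t)(Y t)` under combinations of algebraic
correspondences. -/
def SpannedBy (W : WeilCohomology.{u, v} ops) (X : 𝒱.Obj) (k : ℕ) {ι : Type} (Y : ι → 𝒱.Obj)
    (j : ι → ℕ) : Prop :=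
  ∀ a ∈ W.gr X k, a ∈ Submodule.span W.K
    {x | ∃ t, ∃ φ ∈ corrs W (Y t) X (j t) k, ∃ b ∈ W.gr (Y t) (j t), φ b = x}

/-- Homological and numerical equivalence agree for the combinations of algebraic correspondences
`u` from `H^(j s)(Y s)` to `H^(j t)(Y t)`: if the trace on `H^(j s)(Y s)` of `b ∘ u` is zero for all
combinations `b` of algebraic correspondences in the other direction, then `u` is zero on
`H^(j s)(Y s)`. -/
def NondegTraces (W : WeilCohomology.{u, v} ops) {ι : Type} (Y : ι → 𝒱.Obj) (j : ι → ℕ) : Prop :=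
  ∀ s t, ∀ φ ∈ corrs W (Y s) (Y t) (j s) (j t),
    (∀ b ∈ corrs W (Y t) (Y s) (j t) (j s), TraceOn (W.gr (Y s)) (j s) (b ∘ₗ φ) 0) →
      ∀ a ∈ W.gr (Y s) (j s), φ a = 0

/-- The subspaces `S t` of `H^(j t)(Y t)` are mapped to each other by all algebraic correspondences,
and to themselves by the members of all families of operators in `G`. -/
def StableUnder (W : WeilCohomology.{u, v} ops) {ι : Type} (Y : ι → 𝒱.Obj) (j : ι → ℕ)
    (G : Set (∀ t, Module.End W.K (W.H (Y t)))) (S : ∀ t, Submodule W.K (W.H (Y t))) : Prop :=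
  (∀ t, S t ≤ W.gr (Y t) (j t)) ∧
    (∀ s t, ∀ φ ∈ corrs W (Y s) (Y t) (j s) (j t), ∀ x ∈ S s, φ x ∈ S t) ∧
      ∀ g ∈ G, ∀ t, ∀ x ∈ S t, g t x ∈ S t

/-- The families of operators in `G` preserve the spaces `H^(j t)(Y t)` and commute with all
algebraic correspondences between them. -/
def CommutesWithCorrs (W : WeilCohomology.{u, v} ops) {ι : Type} (Y : ι → 𝒱.Obj) (j : ι → ℕ)
    (G : Set (∀ t, Module.End W.K (W.H (Y t)))) : Prop :=
  ∀ g ∈ G, (∀ t, ∀ x ∈ W.gr (Y t) (j t), g t x ∈ W.gr (Y t) (j t)) ∧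
    ∀ s t, ∀ φ ∈ corrs W (Y s) (Y t) (j s) (j t), ∀ x ∈ W.gr (Y s) (j s),
      g t (φ x) = φ (g s x)

/-- For some set `G` of operators commuting with all algebraic correspondences (for example a
monodromy group) the spaces `H^(j t)(Y t)` are semisimple under the joint action of `G` and of the
algebraic correspondences between them: each stable family of subspaces has a stable complement. -/
def JointlySemisimple (W : WeilCohomology.{u, v} ops) {ι : Type} (Y : ι → 𝒱.Obj) (j : ι → ℕ) :
    Prop :=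
  ∃ G : Set (∀ t, Module.End W.K (W.H (Y t))), CommutesWithCorrs W Y j G ∧
    ∀ S, StableUnder W Y j G S → ∃ C, StableUnder W Y j G C ∧
      ∀ t, S t ⊓ C t = ⊥ ∧ S t ⊔ C t = W.gr (Y t) (j t)

end Pool.Agent.X310
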