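import Pool.Agent.X310.StDefs
import Pool.Agent.X310.BeC

set_option autoImplicit false
set_option linter.unusedSectionVars false

namespace Pool.Agent.X310.St

open Pool.Agent.X208.BR.Pk Pool.Agent.X310.Be

variable {K₀ K M : Fld}

/-- The trivial characters and the abelian extensions of `ℚ`. -/
noncomputable def toBorel (T : KnownStark) : BorelSystem where
  toStarkSystem := T.toStarkSystem
  borel := fun K hK => T.rational K _ hK (one_artin hK) fun _ => ⟨1, by simp⟩
  beilinson := T.abelian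

theorem nf_imag (h : IsImagQuad K) : IsNF K := by
  have h1 : 0 < deg K := by rw [h.1]; norm_num
  exact FiniteDimensional.of_finrank_pos h1

theorem reach_prop (T : KnownStark) (hM : IsNF M) (h : Reach M K) : IsAb K M ∧ T.Abelian K M := by
  induction h with
  | base K₀ h hab =>
    refine ⟨hab, ?_⟩
    rcases h with rfl | h
    · exact fun χ hχ => T.abelian M χ hM hχ
    · exact fun χ hχ => T.imaginary K₀ M χ h hM hχ
  | step K₀ K _ hle hK hc ih =>
    obtain ⟨hab, hT⟩ := ih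
    refine ⟨fun g hg h hh => hab g (G_anti hle hg) h (G_anti hle hh), ?_⟩
    exact (equivariant_iff (toBorel T) hle hK hM hab (hc.elim id fun hF => frobenius hle hK hab hF)).2 hT

theorem elem_artin {χ : G QQ → ℂ} (h : Elem χ) : IsArtin QQ χ := by
  induction h with
  | zero => exact (artin_iff QQ _).2 Pool.Agent.X208.BR.IsArtinChar.zero
  | lin M χ hM hχ => exact lin_artin hM hχ
  | rat χ hχ _ => exact hχ
  | imag K M h χ hK hM hχ => exact ind_lin_artin hM (nf_imag hK) h hχ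
  | add χ ψ _ _ h1 h2 => exact artin_add h1 h2

theorem elem_dd (T : KnownStark) (σ : ℂ ≃+* ℂ) {χ : G QQ → ℂ} (h : Elem χ) :
    dd (toBorel T) σ QQ χ = 1 := by
  induction h with
  | zero => exact (T.toStarkSystem.conv.inv σ).d_zero QQ_nf
  | lin M χ hM hχ => exact (holds_iff (toBorel T) QQ_nf (lin_artin hM hχ)).1 (T.abelian M χ hM hχ) σ
  | rat χ hχ hr => exact (holds_iff (toBorel T) QQ_nf hχ).1 (T.rational QQ χ QQ_nf hχ hr) σ
  | imag K M h χ hK hM hχ =>
    rw [dd_ind (toBorel T) σ h (nf_imag hK) (lin_artin hM hχ) (ind_lin_artin hM (nf_imag hK) h hχ)]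
    exact (holds_iff (toBorel T) (nf_imag hK) (lin_artin hM hχ)).1 (T.imaginary K M χ hK hM hχ) σ
  | add χ ψ h1 h2 h3 h4 =>
    rw [dd_add (toBorel T) σ QQ_nf (elem_artin h1) (elem_artin h2), h3, h4, one_mul]

theorem dd_of_elem (T : KnownStark) (σ : ℂ ≃+* ℂ) (hK : IsNF K) (hM : IsNF M)
    {χ : G K → ℂ} (hχ : IsLin K M χ) (n : ℕ) {a b : G QQ → ℂ} (ha : Elem a)
    (hb : Elem b) (h : n • ind (QQ_le K) χ + a = b) : dd (toBorel T) σ K χ ^ n = 1 := by
  have hi := ind_lin_artin hM hK (QQ_le K) hχ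
  have h1 := congrArg (dd (toBorel T) σ QQ) h
  rw [dd_add (toBorel T) σ QQ_nf (artin_nsmul hi n) (elem_artin ha), elem_dd T σ ha,
    elem_dd T σ hb, mul_one, dd_nsmul (toBorel T) σ QQ_nf hi,
    dd_ind (toBorel T) σ (QQ_le K) hK (lin_artin hM hχ) hi] at h1
  exact h1

theorem holds_of_elem (T : KnownStark) (hK : IsNF K) (hM : IsNF M)
    {χ : G K → ℂ} (hχ : IsLin K M χ) {a b : G QQ → ℂ} (ha : Elem a)
    (hb : Elem b) (h : ind (QQ_le K) χ + a = b) : T.Holds K χ := by
  refine (holds_iff (toBorel T) hK (lin_artin hM hχ)).2 ?_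
  intro σ
  have h1 := dd_of_elem T σ hK hM hχ 1 ha hb (by rw [one_smul]; exact h)
  rwa [pow_one] at h1

theorem pow_of_elem (T : KnownStark) (hK : IsNF K) (hM : IsNF M)
    {χ : G K → ℂ} (hχ : IsLin K M χ) (n : ℕ) {a b : G QQ → ℂ} (ha : Elem a)
    (hb : Elem b) (h : n • ind (QQ_le K) χ + a = b) (L : Fld) (σ : ℂ ≃+* ℂ)
    (hL : Over L K) (hχL : IsCharOf L K χ) :
    (σ (T.A L K χ)) ^ n = (T.A L K fun g => σ (χ g) : ℂ) ^ n := by
  have h1 := dd_of_elem T σ hK hM hχ n ha hb h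
  have h2 : dd (toBorel T) σ K χ = T.toStarkSystem.conv.dL σ L K χ :=
    T.toStarkSystem.conv.defect_eq σ ((over_iff L K).1 hL) hχL
  rw [h2] at h1
  have h3 := congrArg Units.val h1
  rw [Units.val_pow_eq_pow_val, Pool.Agent.X208.BR.StarkSystem.dL_coe, div_pow, Units.val_one,
    div_eq_one_iff_eq (pow_ne_zero _ (Units.ne_zero _))] at h3
  exact h3

end Pool.Agent.X310.St
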