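import Pool.Agent.X310.BeDefs

/-! Definitions: Stark's conjecture and its known cases. -/

set_option autoImplicit false

namespace Pool.Agent.X310.St

open Pool.Agent.X208.BR.Pk Pool.Agent.X310.Be

/-- `K` is an imaginary quadratic field. -/
def IsImagQuad (K : Fld) : Prop :=
  deg K = 2 ∧ IsEmpty ((show IntermediateField ℚ (AlgebraicClosure ℚ) from K) →+* ℝ)

/-- **Stark's quotients and the known cases of Stark's conjecture.** A `StarkSystem` (the quotients `A(χ)` of Stark's
regulators by the leading terms of the Artin `L`-functions at `0`, with their formal properties) together with the known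
cases of the conjecture `A(χ)^σ = A(χ^σ)`: characters with rational values (Stark, Tate), characters of abelian extensions
of `ℚ`, and characters of abelian extensions of imaginary quadratic fields (Stark). -/
structure KnownStark extends StarkSystem where
  rational : ∀ (K : Fld) (χ : G K → ℂ), IsNF K → IsArtin K χ → (∀ g, ∃ q : ℚ, χ g = q) →
    toStarkSystem.Holds K χ
  abelian : ∀ (M : Fld) (χ : G QQ → ℂ), IsNF M → IsLin QQ M χ → toStarkSystem.Holds QQ χ
  imaginary : ∀ (K M : Fld) (χ : G K → ℂ), IsImagQuad K → IsNF M → IsLin K M χ →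
    toStarkSystem.Holds K χ

/-- Stark's conjecture for the abelian extension `KM/K`: it holds for all characters of the Galois group. -/
def KnownStark.Abelian (T : KnownStark) (K M : Fld) : Prop :=
  ∀ χ : G K → ℂ, IsLin K M χ → T.Holds K χ

/-- The number fields `K` which are reached from `ℚ` or from an imaginary quadratic field `K₀` with `K₀M/K₀` abelian by
steps `K/K₀` such that every element of the absolute Galois group of `K₀` which is not trivial on `M` fixes exactly one
`K₀`-embedding of `K`, or such that `KM/K₀` is a Frobenius extension with the complement `Gal(KM/K)`. -/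
inductive Reach (M : Fld) : Fld → Prop
  | base (K₀ : Fld) : (K₀ = QQ ∨ IsImagQuad K₀) → IsAb K₀ M → Reach M K₀
  | step (K₀ K : Fld) : Reach M K₀ → K₀ ≤ K → IsNF K →
      ((∀ g : G K₀, (g : GalQ) ∉ G M → FixesOne K₀ K g) ∨ IsFrob K₀ K M) → Reach M K

/-- Sums of characters of abelian extensions of `ℚ`, of characters with rational values, and of the characters of `ℚ`
induced from those of abelian extensions of imaginary quadratic fields. -/
inductive Elem : (G QQ → ℂ) → Prop
  | zero : Elem 0
  | lin (M : Fld) (χ : G QQ → ℂ) : IsNF M → IsLin QQ M χ → Elem χ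
  | rat (χ : G QQ → ℂ) : IsArtin QQ χ → (∀ g, ∃ q : ℚ, χ g = q) → Elem χ
  | imag (K M : Fld) (h : QQ ≤ K) (χ : G K → ℂ) : IsImagQuad K → IsNF M → IsLin K M χ → Elem (ind h χ)
  | add (χ ψ : G QQ → ℂ) : Elem χ → Elem ψ → Elem (χ + ψ)

end Pool.Agent.X310.St
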