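import Pool.Agent.X310.VoiDefs

namespace Pool.Agent.X310.Voi

open Equiv

variable {V : Type} [AddCommGroup V] [Module ℚ V] (C : CycleSystem V)

/-- the alternating map -/
noncomputable def alt (n : ℕ) : V [⋀^Fin n]→ₗ[ℚ] C.T n := MultilinearMap.alternatization (C.P n)

theorem alt_apply (n : ℕ) (a : Fin n → V) : alt C n a
    = ∑ σ : Perm (Fin n), ((Perm.sign σ : ℤ) : ℚ) • C.P n (fun i => a (σ i)) := by
  unfold alt
  rw [MultilinearMap.alternatization_apply]
  refine Finset.sum_congr rfl fun σ _ => ?_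
  rw [Units.smul_def, Int.cast_smul_eq_zsmul]
  rfl

theorem alt_zero_of_embedding {W : Submodule ℚ V} {m n : ℕ} (h : C.Alternates W m)
    (ι : Fin m ↪ Fin n) (a : Fin n → V) (ha : ∀ k, a (ι k) ∈ W) : alt C n a = 0 := by
  classical
  have hfac : ((Nat.factorial m : ℕ) : ℚ) • alt C n a = 0 := by
    have h1 : ∀ τ : Perm (Fin m), ((Perm.sign τ : ℤ) : ℚ) •
        alt C n (a ∘ (τ.viaFintypeEmbedding ι)) = alt C n a := by
      intro τ
      rw [AlternatingMap.map_perm, Perm.viaFintypeEmbedding_sign, Units.smul_def,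
        ← Int.cast_smul_eq_zsmul ℚ, smul_smul, ← Int.cast_mul]
      have : (Perm.sign τ : ℤ) * (Perm.sign τ : ℤ) = 1 := by
        rw [← Units.val_mul, Int.units_mul_self, Units.val_one]
      rw [this, Int.cast_one, one_smul]
    have h2 : ((Nat.factorial m : ℕ) : ℚ) • alt C n a
        = ∑ τ : Perm (Fin m), ((Perm.sign τ : ℤ) : ℚ) •
          alt C n (a ∘ (τ.viaFintypeEmbedding ι)) := by
      rw [Finset.sum_congr rfl fun τ _ => h1 τ, Finset.sum_const, Finset.card_univ,
        Fintype.card_perm, Fintype.card_fin, Nat.cast_smul_eq_nsmul]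
    rw [h2]
    have h3 : ∀ τ : Perm (Fin m), ((Perm.sign τ : ℤ) : ℚ) •
        alt C n (a ∘ (τ.viaFintypeEmbedding ι))
        = ∑ σ : Perm (Fin n), ((Perm.sign σ : ℤ) : ℚ) • (((Perm.sign τ : ℤ) : ℚ) •
          C.P n (fun i => a (τ.viaFintypeEmbedding ι (σ i)))) := by
      intro τ
      rw [alt_apply, Finset.smul_sum]
      exact Finset.sum_congr rfl fun σ _ => smul_comm _ _ _
    rw [Finset.sum_congr rfl fun τ _ => h3 τ, Finset.sum_comm]
    refine Finset.sum_eq_zero fun σ _ => ?_
    rw [← Finset.smul_sum]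
    have h4 := C.insert m n (ι.trans (σ⁻¹).toEmbedding) (Perm (Fin m))
      (fun τ => ((Perm.sign τ : ℤ) : ℚ)) (fun τ k => a (ι (τ k))) (fun i => a (σ i))
      (h (fun k => a (ι k)) ha)
    have h5 : ∀ τ : Perm (Fin m), (fun i => a (τ.viaFintypeEmbedding ι (σ i)))
        = Function.extend (ι.trans (σ⁻¹).toEmbedding) (fun k => a (ι (τ k)))
          (fun i => a (σ i)) := by
      intro τ
      funext i
      by_cases hi : ∃ k, (ι.trans (σ⁻¹).toEmbedding) k = i
      · obtain ⟨k, rfl⟩ := hi
        rw [Function.Injective.extend_apply (Function.Embedding.injective _)]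
        have : σ ((ι.trans (σ⁻¹).toEmbedding) k) = ι k := by
          change σ (σ.symm (ι k)) = ι k
          exact σ.apply_symm_apply _
        rw [this, Perm.viaFintypeEmbedding_apply_image]
      · rw [Function.extend_apply' _ _ _ hi]
        have : σ i ∉ Set.range ι := by
          rintro ⟨k, hk⟩
          apply hi
          refine ⟨k, ?_⟩
          change σ.symm (ι k) = i
          rw [hk]
          exact σ.symm_apply_apply i
        rw [Perm.viaFintypeEmbedding_apply_notMem_range _ _ this]
    rw [Finset.sum_congr rfl fun τ _ => by rw [h5 τ], h4, smul_zero]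
  have hne : ((Nat.factorial m : ℕ) : ℚ) ≠ 0 := by
    exact_mod_cast Nat.factorial_ne_zero m
  exact (smul_eq_zero.1 hfac).resolve_left hne

theorem main {r : ℕ} (W : Fin r → Submodule ℚ V) (hW : ⨆ k, W k = ⊤) (g : Fin r → ℕ)
    (h : ∀ k, C.Alternates (W k) (g k + 1)) {n : ℕ} (hn : ∑ k, g k < n) :
    C.Alternates ⊤ n := by
  classical
  intro a _
  rw [← alt_apply]
  -- decompose every a i
  have hdec : ∀ v : V, ∃ w : Fin r → V, (∀ k, w k ∈ W k) ∧ v = ∑ k, w k := by
    intro v
    have hv : v ∈ ⨆ k ∈ (Finset.univ : Finset (Fin r)), W k := by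
      simp only [Finset.mem_univ, iSup_pos, hW]
      trivial
    rw [Submodule.mem_iSup_finset_iff_exists_sum] at hv
    obtain ⟨μ, hμ⟩ := hv
    exact ⟨fun k => μ k, fun k => (μ k).2, hμ.symm⟩
  choose w hw hsum using hdec
  have h1 : a = fun i => ∑ k, w (a i) k := by
    funext i
    exact hsum (a i)
  have h2 : alt C n a = ∑ f : Fin n → Fin r, alt C n (fun i => w (a i) (f i)) := by
    conv_lhs => rw [h1]
    exact (alt C n).toMultilinearMap.map_sum (fun i k => w (a i) k)
  rw [h2]
  refine Finset.sum_eq_zero fun f _ => ?_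
  -- pigeonhole
  have h3 : ∃ k ∈ (Finset.univ : Finset (Fin r)),
      g k < (Finset.univ.filter (fun i => f i = k)).card := by
    apply Finset.exists_lt_of_sum_lt
    have h4 : ∑ k : Fin r, (Finset.univ.filter (fun i => f i = k)).card = n := by
      have := Finset.card_eq_sum_card_fiberwise (s := (Finset.univ : Finset (Fin n)))
        (t := (Finset.univ : Finset (Fin r))) (f := f) (fun _ _ => Finset.mem_coe.2 (Finset.mem_univ _))
      rw [← this, Finset.card_univ, Fintype.card_fin]
    rw [h4]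
    exact hn
  obtain ⟨k, _, hk⟩ := h3
  have h5 : Nonempty (Fin (g k + 1) ↪ {i : Fin n // f i = k}) := by
    apply Function.Embedding.nonempty_of_card_le
    rw [Fintype.card_fin, Fintype.card_subtype]
    exact hk
  obtain ⟨ι₀⟩ := h5
  refine alt_zero_of_embedding C (h k) (ι₀.trans (Function.Embedding.subtype _)) _ ?_
  intro j
  have h6 : f ((ι₀.trans (Function.Embedding.subtype _)) j) = k := (ι₀ j).2
  rw [h6]
  exact hw _ _

end Pool.Agent.X310.Voi
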