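import Mathlib

/-! Definitions: exterior products of zero-cycles on the powers of a surface. -/

namespace Pool.Agent.X310.Voi

open Equiv

/-- The data: `V` models the Albanese-trivial zero-cycles of `S` with rational coefficients, `T n`
the zero-cycles on `S^n`, and `P n` the exterior product `a_1 × ... × a_n`.  The property `insert`:
a linear relation between exterior products on `S^m` gives a relation on `S^n` after multiplying
with fixed cycles in the other factors, for every placement `ι` of the `m` factors. -/
structure CycleSystem (V : Type) [AddCommGroup V] [Module ℚ V] where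
  /-- zero-cycles on `S^n` -/
  T : ℕ → Type
  /-- group structure -/
  [grp : ∀ n, AddCommGroup (T n)]
  /-- rational coefficients -/
  [mod : ∀ n, Module ℚ (T n)]
  /-- exterior products -/
  P : ∀ n, MultilinearMap ℚ (fun _ : Fin n => V) (T n)
  insert : ∀ (m n : ℕ) (ι : Fin m ↪ Fin n) (J : Type) [Fintype J] (c : J → ℚ)
    (a : J → Fin m → V) (b : Fin n → V), ∑ j, c j • P m (a j) = 0 →
      ∑ j, c j • P n (Function.extend ι (a j) b) = 0

attribute [instance] CycleSystem.grp CycleSystem.mod

variable {V : Type} [AddCommGroup V] [Module ℚ V]

/-- Voisin's relation for `n` cycles in the subspace `W`. -/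
def CycleSystem.Alternates (C : CycleSystem V) (W : Submodule ℚ V) (n : ℕ) : Prop :=
  ∀ a : Fin n → V, (∀ i, a i ∈ W) →
    ∑ σ : Perm (Fin n), ((Perm.sign σ : ℤ) : ℚ) • C.P n (fun i => a (σ i)) = 0

end Pool.Agent.X310.Voi
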