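import Mathlib

set_option autoImplicit false

/-! # Weil–Deligne representations and their Euler factors -/

namespace Pool.Agent.X310.WD

open Multiplicative

/-- The data of the Weil group of a local field: a topological group `W` with the degree map
(geometric Frobenius has degree `1`), whose kernel, the inertia group, is open and compact; a
Frobenius element; the number `q` of elements of the residue field. -/
structure WeilData (W : Type) [Group W] [TopologicalSpace W] where
  /-- the degree -/
  deg : W →* Multiplicative ℤ
  /-- a Frobenius element -/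
  frob : W
  deg_frob : deg frob = ofAdd 1
  isOpen_inertia : IsOpen (deg.ker : Set W)
  isCompact_inertia : IsCompact (deg.ker : Set W)
  /-- the order of the residue field -/
  q : ℕ
  two_le_q : 2 ≤ q

section

variable {W : Type} [Group W] [TopologicalSpace W]

/-- the degree as an integer -/
def WeilData.d (G : WeilData W) (w : W) : ℤ := toAdd (G.deg w)

theorem WeilData.d_mul (G : WeilData W) (w w' : W) : G.d (w * w') = G.d w + G.d w' := by
  unfold WeilData.d; rw [map_mul, toAdd_mul]

theorem WeilData.d_one (G : WeilData W) : G.d 1 = 0 := by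
  unfold WeilData.d; rw [map_one, toAdd_one]

theorem WeilData.d_inv (G : WeilData W) (w : W) : G.d w⁻¹ = - G.d w := by
  unfold WeilData.d; rw [map_inv, toAdd_inv]

theorem WeilData.d_frob (G : WeilData W) : G.d G.frob = 1 := by
  unfold WeilData.d; rw [G.deg_frob, toAdd_ofAdd]

theorem WeilData.d_pow (G : WeilData W) (w : W) (n : ℕ) : G.d (w ^ n) = n * G.d w := by
  unfold WeilData.d; rw [map_pow, toAdd_pow, nsmul_eq_mul]

theorem WeilData.d_zpow (G : WeilData W) (w : W) (n : ℤ) : G.d (w ^ n) = n * G.d w := by
  unfold WeilData.d; rw [map_zpow, toAdd_zpow]; rfl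

theorem WeilData.mem_ker (G : WeilData W) (w : W) : w ∈ G.deg.ker ↔ G.d w = 0 := by
  rw [MonoidHom.mem_ker]; unfold WeilData.d
  constructor
  · intro h; rw [h, toAdd_one]
  · intro h; exact toAdd_eq_zero.mp h

/-- A Weil–Deligne representation over a field `K`: a finite-dimensional space with a smooth action
of the Weil group and a nilpotent operator `N` with `N ρ(w) = q ^ deg w ρ(w) N`. -/
structure WDRep (G : WeilData W) (K : Type) [Field K] where
  /-- the space -/
  V : ModuleCat.{0} K
  [fin : Module.Finite K V]
  /-- the action of the Weil group -/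
  ρ : W →* Module.End K V
  /-- the monodromy operator -/
  N : V →ₗ[K] V
  nilp : ∃ n : ℕ, (N ^ n : Module.End K V) = 0
  comm : ∀ w v, N (ρ w v) = (G.q : K) ^ (G.d w) • ρ w (N v)
  smooth : ∃ J : Subgroup W, IsOpen (J : Set W) ∧ ∀ w ∈ J, G.d w = 0 ∧ ρ w = 1

attribute [instance] WDRep.fin

end

end Pool.Agent.X310.WD
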