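import Pool.Agent.X310.WdA

set_option autoImplicit false

/-! # Operations on Weil–Deligne representations -/

namespace Pool.Agent.X310.WD

open Multiplicative

section

variable {W : Type} [Group W] [TopologicalSpace W] {G : WeilData W} {K : Type} [Field K]

/-- an isomorphism of Weil–Deligne representations -/
structure Iso (D D' : WDRep G K) where
  /-- the linear isomorphism -/
  e : D.V ≃ₗ[K] D'.V
  map_ρ : ∀ w v, e (D.ρ w v) = D'.ρ w (e v)
  map_N : ∀ v, e (D.N v) = D'.N (e v)

/-! ### direct sums -/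

/-- the action on a direct sum -/
def prodρ (D D' : WDRep G K) : W →* Module.End K (D.V × D'.V) where
  toFun w := (D.ρ w).prodMap (D'.ρ w)
  map_one' := by
    refine LinearMap.ext fun v => ?_
    simp
  map_mul' w w' := by
    refine LinearMap.ext fun v => ?_
    simp

theorem prod_nilp (D D' : WDRep G K) : ∃ n : ℕ, (D.N.prodMap D'.N : Module.End K (D.V × D'.V)) ^ n = 0 := by
  obtain ⟨n, hn⟩ := D.nilp
  obtain ⟨m, hm⟩ := D'.nilp
  refine ⟨n + m, ?_⟩
  have h : ∀ k : ℕ, (D.N.prodMap D'.N) ^ k = (D.N ^ k).prodMap (D'.N ^ k) := by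
    intro k
    induction k with
    | zero => refine LinearMap.ext fun v => ?_; simp
    | succ k ih => rw [pow_succ, ih, pow_succ, pow_succ]; rfl
  rw [h, pow_add, hn, zero_mul, pow_add D'.N, hm, mul_zero]
  refine LinearMap.ext fun v => ?_
  simp

theorem prod_comm' (D D' : WDRep G K) (w : W) (v : D.V × D'.V) :
    D.N.prodMap D'.N (prodρ D D' w v) = (G.q : K) ^ (G.d w) • prodρ D D' w (D.N.prodMap D'.N v) := by
  refine Prod.ext ?_ ?_
  · exact D.comm w v.1
  · exact D'.comm w v.2

theorem prod_smooth (D D' : WDRep G K) :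
    ∃ J : Subgroup W, IsOpen (J : Set W) ∧ ∀ w ∈ J, G.d w = 0 ∧ prodρ D D' w = 1 := by
  obtain ⟨J, hJ, h⟩ := D.smooth
  obtain ⟨J', hJ', h'⟩ := D'.smooth
  refine ⟨J ⊓ J', ?_, fun w hw => ⟨(h w hw.1).1, ?_⟩⟩
  · rw [Subgroup.coe_inf]; exact hJ.inter hJ'
  · show (D.ρ w).prodMap (D'.ρ w) = 1
    rw [(h w hw.1).2, (h' w hw.2).2]
    refine LinearMap.ext fun v => ?_
    simp

/-- the direct sum -/
def WDRep.prod (D D' : WDRep G K) : WDRep G K where
  V := ModuleCat.of K (D.V × D'.V)
  fin := inferInstanceAs (Module.Finite K (D.V × D'.V))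
  ρ := prodρ D D'
  N := D.N.prodMap D'.N
  nilp := prod_nilp D D'
  comm := prod_comm' D D'
  smooth := prod_smooth D D'

variable [CharZero K]

theorem q_ne_zero (G : WeilData W) : (G.q : K) ≠ 0 := by
  have := G.two_le_q
  exact_mod_cast (by omega : G.q ≠ 0)

/-! ### Tate twists -/

/-- the action on a Tate twist -/
def tateρ (D : WDRep G K) (r : ℤ) : W →* Module.End K D.V where
  toFun w := (G.q : K) ^ (r * G.d w) • D.ρ w
  map_one' := by rw [G.d_one, mul_zero, zpow_zero, one_smul, map_one]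
  map_mul' w w' := by
    rw [G.d_mul, mul_add, zpow_add₀ (q_ne_zero G), map_mul, smul_mul_smul_comm]

theorem tate_comm (D : WDRep G K) (r : ℤ) (w : W) (v : D.V) :
    D.N (tateρ D r w v) = (G.q : K) ^ (G.d w) • tateρ D r w (D.N v) := by
  show D.N ((G.q : K) ^ (r * G.d w) • D.ρ w v) =
    (G.q : K) ^ (G.d w) • ((G.q : K) ^ (r * G.d w) • D.ρ w (D.N v))
  rw [map_smul, D.comm, smul_comm]

theorem tate_smooth (D : WDRep G K) (r : ℤ) :
    ∃ J : Subgroup W, IsOpen (J : Set W) ∧ ∀ w ∈ J, G.d w = 0 ∧ tateρ D r w = 1 := by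
  obtain ⟨J, hJ, h⟩ := D.smooth
  refine ⟨J, hJ, fun w hw => ⟨(h w hw).1, ?_⟩⟩
  show (G.q : K) ^ (r * G.d w) • D.ρ w = 1
  rw [(h w hw).1, mul_zero, zpow_zero, one_smul, (h w hw).2]

/-- the Tate twist `D(-r)`: Frobenius is multiplied by `q ^ r` -/
def WDRep.tate (D : WDRep G K) (r : ℤ) : WDRep G K where
  V := D.V
  ρ := tateρ D r
  N := D.N
  nilp := D.nilp
  comm := tate_comm D r
  smooth := tate_smooth D r

/-! ### unramified twists -/

/-- the entry `(a, b)` of the power `C ^ deg w` -/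
def entry (K : Type) [Field K] (G : WeilData W) {m : ℕ} (C : GL (Fin m) ℚ) (w : W) (a b : Fin m) : K :=
  ((((C ^ (G.d w) : GL (Fin m) ℚ) : Matrix (Fin m) (Fin m) ℚ) a b : ℚ) : K)

theorem entry_of_d_zero {m : ℕ} (C : GL (Fin m) ℚ) (w : W) (hw : G.d w = 0) (a b : Fin m) :
    entry K G C w a b = if a = b then 1 else 0 := by
  unfold entry
  rw [hw, zpow_zero, Units.val_one, Matrix.one_apply]
  split_ifs <;> simp

theorem entry_mul {m : ℕ} (C : GL (Fin m) ℚ) (w w' : W) (a c : Fin m) :
    entry K G C (w * w') a c = ∑ b, entry K G C w a b * entry K G C w' b c := by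
  unfold entry
  rw [G.d_mul, zpow_add, Units.val_mul, Matrix.mul_apply]
  push_cast
  rfl

/-- the action of one element on an unramified twist -/
def unramAct (D : WDRep G K) {m : ℕ} (C : GL (Fin m) ℚ) (w : W) : Module.End K (Fin m → D.V) where
  toFun x a := ∑ b, entry K G C w a b • D.ρ w (x b)
  map_add' x y := by
    funext a
    simp only [Pi.add_apply, map_add, smul_add, Finset.sum_add_distrib]
  map_smul' c x := by
    funext a
    simp only [Pi.smul_apply, map_smul, RingHom.id_apply, Finset.smul_sum]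
    refine Finset.sum_congr rfl fun b _ => smul_comm _ _ _

/-- the action on an unramified twist -/
def unramρ (D : WDRep G K) {m : ℕ} (C : GL (Fin m) ℚ) : W →* Module.End K (Fin m → D.V) where
  toFun w := unramAct D C w
  map_one' := by
    refine LinearMap.ext fun x => ?_
    funext a
    show ∑ b, entry K G C 1 a b • D.ρ 1 (x b) = x a
    simp only [entry_of_d_zero C 1 G.d_one, map_one, Module.End.one_apply, ite_smul, one_smul,
      zero_smul, Finset.sum_ite_eq, Finset.mem_univ, if_true]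
  map_mul' w w' := by
    refine LinearMap.ext fun x => ?_
    funext a
    show ∑ b, entry K G C (w * w') a b • D.ρ (w * w') (x b) =
      ∑ b, entry K G C w a b • D.ρ w (∑ c, entry K G C w' b c • D.ρ w' (x c))
    simp only [entry_mul, map_mul, map_sum, map_smul, Finset.smul_sum,
      Finset.sum_smul, Module.End.mul_apply, mul_smul]
    rw [Finset.sum_comm]

/-- the monodromy operator applied to each coordinate -/
def coordN (D : WDRep G K) (X : Type) : Module.End K (X → D.V) :=
  LinearMap.pi fun a => D.N ∘ₗ LinearMap.proj a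

omit [CharZero K] in
theorem coordN_nilp (D : WDRep G K) (X : Type) : ∃ n : ℕ, coordN D X ^ n = 0 := by
  obtain ⟨n, hn⟩ := D.nilp
  refine ⟨n, ?_⟩
  have h : ∀ k : ℕ, ∀ (x : X → D.V) (a : X), ((coordN D X ^ k) x) a = (D.N ^ k) (x a) := by
    intro k
    induction k with
    | zero => intro x a; rfl
    | succ k ih =>
      intro x a
      rw [pow_succ, Module.End.mul_apply, ih, pow_succ, Module.End.mul_apply]
      rfl
  refine LinearMap.ext fun x => ?_
  funext a
  rw [h, hn]
  rfl

theorem unram_comm (D : WDRep G K) {m : ℕ} (C : GL (Fin m) ℚ) (w : W) (x : Fin m → D.V) :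
    coordN D (Fin m) (unramρ D C w x) = (G.q : K) ^ (G.d w) • unramρ D C w (coordN D (Fin m) x) := by
  funext a
  show D.N (∑ b, entry K G C w a b • D.ρ w (x b)) = (G.q : K) ^ (G.d w) •
      ∑ b, entry K G C w a b • D.ρ w (D.N (x b))
  simp only [map_sum, map_smul, D.comm, Finset.smul_sum]
  refine Finset.sum_congr rfl fun b _ => smul_comm _ _ _

theorem unram_smooth (D : WDRep G K) {m : ℕ} (C : GL (Fin m) ℚ) :
    ∃ J : Subgroup W, IsOpen (J : Set W) ∧ ∀ w ∈ J, G.d w = 0 ∧ unramρ D C w = 1 := by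
  obtain ⟨J, hJ, h⟩ := D.smooth
  refine ⟨J, hJ, fun w hw => ⟨(h w hw).1, ?_⟩⟩
  refine LinearMap.ext fun x => ?_
  funext a
  show ∑ b, entry K G C w a b • D.ρ w (x b) = x a
  simp only [entry_of_d_zero C w (h w hw).1, (h w hw).2, Module.End.one_apply, ite_smul, one_smul,
        zero_smul, Finset.sum_ite_eq, Finset.mem_univ, if_true]

/-- the tensor product with the unramified representation in which Frobenius acts by the rational
matrix `C`, and `N = 0` -/
def WDRep.unram (D : WDRep G K) {m : ℕ} (C : GL (Fin m) ℚ) : WDRep G K where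
  V := ModuleCat.of K (Fin m → D.V)
  fin := inferInstanceAs (Module.Finite K (Fin m → D.V))
  ρ := unramρ D C
  N := coordN D (Fin m)
  nilp := coordN_nilp D (Fin m)
  comm := unram_comm D C
  smooth := unram_smooth D C

/-! ### the Tate curve -/

/-- the action on the tensor product with `H ^ 1` of the Tate curve -/
def tateCurveρ (D : WDRep G K) : W →* Module.End K (D.V × D.V) where
  toFun w := (D.ρ w).prodMap ((G.q : K) ^ (G.d w) • D.ρ w)
  map_one' := by
    refine LinearMap.ext fun v => ?_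
    rw [G.d_one, zpow_zero, one_smul, map_one]
    simp
  map_mul' w w' := by
    refine LinearMap.ext fun v => ?_
    rw [G.d_mul, zpow_add₀ (q_ne_zero G), map_mul, ← smul_mul_smul_comm]
    simp

/-- the monodromy `(v₀, v₁) ↦ (N v₀ + v₁, N v₁)` -/
def tateCurveN (D : WDRep G K) : Module.End K (D.V × D.V) :=
  (D.N ∘ₗ LinearMap.fst K D.V D.V + LinearMap.snd K D.V D.V).prod (D.N ∘ₗ LinearMap.snd K D.V D.V)

omit [CharZero K] in
theorem tateCurve_nilp (D : WDRep G K) : ∃ n : ℕ, tateCurveN D ^ n = 0 := by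
  obtain ⟨n, hn⟩ := D.nilp
  refine ⟨n + 1, ?_⟩
  have h : ∀ k : ℕ, ∀ x : D.V × D.V, ((tateCurveN D ^ (k + 1)) x) =
        ((D.N ^ (k + 1)) x.1 + (k + 1 : K) • (D.N ^ k) x.2, (D.N ^ (k + 1)) x.2) := by
    intro k
    induction k with
    | zero =>
      intro x
      simp [tateCurveN]
    | succ k ih =>
      intro x
      rw [pow_succ, Module.End.mul_apply, ih]
      refine Prod.ext ?_ ?_
      · show (D.N ^ (k + 1)) (D.N x.1 + x.2) + (k + 1 : K) • (D.N ^ k) (D.N x.2) =
          (D.N ^ (k + 1 + 1)) x.1 + ((k + 1 : ℕ) + 1 : K) • (D.N ^ (k + 1)) x.2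
        rw [map_add, pow_succ D.N (k + 1), pow_succ D.N k]
        simp only [Module.End.mul_apply]
        push_cast
        module
      · show (D.N ^ (k + 1)) (D.N x.2) = (D.N ^ (k + 1 + 1)) x.2
        rw [pow_succ D.N (k + 1)]
        rfl
  refine LinearMap.ext fun x => ?_
  rw [h, hn, pow_succ, hn]
  simp

theorem tateCurve_comm (D : WDRep G K) (w : W) (v : D.V × D.V) :
    tateCurveN D (tateCurveρ D w v) = (G.q : K) ^ (G.d w) • tateCurveρ D w (tateCurveN D v) := by
  refine Prod.ext ?_ ?_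
  · show D.N (D.ρ w v.1) + (G.q : K) ^ (G.d w) • D.ρ w v.2 =
      (G.q : K) ^ (G.d w) • D.ρ w (D.N v.1 + v.2)
    rw [D.comm, map_add, smul_add]
  · show D.N ((G.q : K) ^ (G.d w) • D.ρ w v.2) =
      (G.q : K) ^ (G.d w) • ((G.q : K) ^ (G.d w) • D.ρ w (D.N v.2))
    rw [map_smul, D.comm]

theorem tateCurve_smooth (D : WDRep G K) :
    ∃ J : Subgroup W, IsOpen (J : Set W) ∧ ∀ w ∈ J, G.d w = 0 ∧ tateCurveρ D w = 1 := by
  obtain ⟨J, hJ, h⟩ := D.smooth
  refine ⟨J, hJ, fun w hw => ⟨(h w hw).1, ?_⟩⟩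
  show (D.ρ w).prodMap ((G.q : K) ^ (G.d w) • D.ρ w) = 1
  rw [(h w hw).1, (h w hw).2, zpow_zero, one_smul]
  refine LinearMap.ext fun v => ?_
  simp

/-- the tensor product with the representation `H ^ 1` of an elliptic curve with split
multiplicative reduction: the basis `e₀, e₁` has Frobenius eigenvalues `1, q` and `N e₁ = e₀`;
`(v₀, v₁)` stands for `v₀ ⊗ e₀ + v₁ ⊗ e₁` -/
def WDRep.tateCurve (D : WDRep G K) : WDRep G K where
  V := ModuleCat.of K (D.V × D.V)
  fin := inferInstanceAs (Module.Finite K (D.V × D.V))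
  ρ := tateCurveρ D
  N := tateCurveN D
  nilp := tateCurve_nilp D
  comm := tateCurve_comm D
  smooth := tateCurve_smooth D

/-! ### permutation representations -/

/-- the action of one element on the functions on `W ⧸ E` -/
def permAct (D : WDRep G K) (E : Subgroup W) (w : W) : Module.End K (W ⧸ E → D.V) where
  toFun F x := D.ρ w (F (w⁻¹ • x))
  map_add' x y := by
    funext a
    simp only [Pi.add_apply, map_add]
  map_smul' c x := by
    funext a
    simp only [Pi.smul_apply, map_smul, RingHom.id_apply]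

/-- the action on the functions on `W ⧸ E` -/
def permρ (D : WDRep G K) (E : Subgroup W) : W →* Module.End K (W ⧸ E → D.V) where
  toFun w := permAct D E w
  map_one' := by
    refine LinearMap.ext fun F => ?_
    funext x
    show D.ρ 1 (F (1⁻¹ • x)) = F x
    rw [map_one, inv_one, one_smul]
    rfl
  map_mul' w w' := by
    refine LinearMap.ext fun F => ?_
    funext x
    show D.ρ (w * w') (F ((w * w')⁻¹ • x)) = D.ρ w (D.ρ w' (F (w'⁻¹ • (w⁻¹ • x))))
    rw [map_mul, mul_inv_rev, mul_smul]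
    rfl

omit [CharZero K] in
theorem perm_fin (D : WDRep G K) (E : Subgroup W) (hf : Finite (W ⧸ E)) :
    Module.Finite K (W ⧸ E → D.V) := by
  have := Fintype.ofFinite (W ⧸ E)
  infer_instance

omit [CharZero K] in
theorem perm_comm (D : WDRep G K) (E : Subgroup W) (w : W) (x : W ⧸ E → D.V) :
    coordN D (W ⧸ E) (permρ D E w x) = (G.q : K) ^ (G.d w) • permρ D E w (coordN D (W ⧸ E) x) := by
  funext a
  exact D.comm w _

omit [CharZero K] in
theorem perm_smooth [IsTopologicalGroup W] (D : WDRep G K) (E : Subgroup W)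
    (hE : IsOpen (E : Set W)) (hf : Finite (W ⧸ E)) :
    ∃ J : Subgroup W, IsOpen (J : Set W) ∧ ∀ w ∈ J, G.d w = 0 ∧ permρ D E w = 1 := by
  obtain ⟨J, hJ, h⟩ := D.smooth
  have := Fintype.ofFinite (W ⧸ E)
  -- the open subgroup acting trivially on `W ⧸ E`
  let C : Subgroup W := (MulAction.toPermHom W (W ⧸ E)).ker
  have hC : IsOpen (C : Set W) := by
    have h1 : (C : Set W) = ⋂ x : W ⧸ E, {w : W | w • x = x} := by
      ext w
      rw [Set.mem_iInter, SetLike.mem_coe, MonoidHom.mem_ker]
      constructor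
      · intro hw x
        exact Equiv.congr_fun hw x
      · intro hw
        exact Equiv.ext fun x => hw x
    rw [h1]
    refine isOpen_iInter_of_finite fun x => ?_
    induction x using QuotientGroup.induction_on with
    | H g =>
      have h2 : {w : W | w • (g : W ⧸ E) = (g : W ⧸ E)} = (fun w => g⁻¹ * w⁻¹ * g) ⁻¹' (E : Set W) := by
        ext w
        show ((w * g : W) : W ⧸ E) = (g : W ⧸ E) ↔ g⁻¹ * w⁻¹ * g ∈ E
        rw [QuotientGroup.eq, mul_inv_rev]
      rw [h2]
      exact hE.preimage (by fun_prop)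
  refine ⟨J ⊓ C, ?_, fun w hw => ⟨(h w hw.1).1, ?_⟩⟩
  · rw [Subgroup.coe_inf]; exact hJ.inter hC
  · refine LinearMap.ext fun F => ?_
    funext x
    show D.ρ w (F (w⁻¹ • x)) = F x
    have h3 : w⁻¹ • x = x := by
      have := Equiv.congr_fun (C.inv_mem hw.2) x
      exact this
    rw [h3, (h w hw.1).2]
    rfl

/-- the tensor product with the permutation representation on `W ⧸ E`, `E` open of finite index:
the representation induced from the restriction to `E` -/
def WDRep.perm [IsTopologicalGroup W] (D : WDRep G K) (E : Subgroup W) (hE : IsOpen (E : Set W))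
    (hf : Finite (W ⧸ E)) : WDRep G K where
  V := ModuleCat.of K (W ⧸ E → D.V)
  fin := perm_fin D E hf
  ρ := permρ D E
  N := coordN D (W ⧸ E)
  nilp := coordN_nilp D (W ⧸ E)
  comm := perm_comm D E
  smooth := perm_smooth D E hE hf

end

end Pool.Agent.X310.WD
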