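import Pool.Agent.X310.WdB

set_option autoImplicit false
set_option linter.unusedSectionVars false

/-! # Inertia invariants, kernels of powers of the monodromy, traces -/

namespace Pool.Agent.X310.WD

open Multiplicative

section Gen

variable {K : Type} [Field K]

theorem trace_conj_of {U U' : Type} [AddCommGroup U] [Module K U] [AddCommGroup U'] [Module K U']
    (e : U ≃ₗ[K] U') (f : Module.End K U) (f' : Module.End K U') (h : ∀ x, e (f x) = f' (e x)) :
    LinearMap.trace K U f = LinearMap.trace K U' f' := by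
  have h1 : f' = e.conj f := by
    refine LinearMap.ext fun x => ?_
    rw [LinearEquiv.conj_apply_apply, h, LinearEquiv.apply_symm_apply]
  rw [h1, LinearMap.trace_conj']

/-- the equivalence of a submodule of a product given by conditions on the factors -/
def prodEquiv {V V' : Type} [AddCommGroup V] [Module K V] [AddCommGroup V'] [Module K V']
    (p : Submodule K V) (p' : Submodule K V') (P : Submodule K (V × V'))
    (hP : ∀ x, x ∈ P ↔ x.1 ∈ p ∧ x.2 ∈ p') : P ≃ₗ[K] p × p' where
  toFun x := (⟨x.1.1, ((hP _).1 x.2).1⟩, ⟨x.1.2, ((hP _).1 x.2).2⟩)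
  map_add' x y := rfl
  map_smul' c x := rfl
  invFun y := ⟨(y.1.1, y.2.1), (hP _).2 ⟨y.1.2, y.2.2⟩⟩
  left_inv x := rfl
  right_inv y := rfl

theorem trace_prod_restrict {V V' : Type} [AddCommGroup V] [Module K V] [Module.Finite K V]
    [AddCommGroup V'] [Module K V'] [Module.Finite K V']
    (p : Submodule K V) (p' : Submodule K V') (P : Submodule K (V × V'))
    (hP : ∀ x, x ∈ P ↔ x.1 ∈ p ∧ x.2 ∈ p') (f : Module.End K V) (f' : Module.End K V')
    (F : Module.End K (V × V')) (hF : ∀ x, F x = (f x.1, f' x.2))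
    (hf : ∀ x ∈ p, f x ∈ p) (hf' : ∀ x ∈ p', f' x ∈ p') (hFP : ∀ x ∈ P, F x ∈ P) :
    LinearMap.trace K P (F.restrict hFP) =
      LinearMap.trace K p (f.restrict hf) + LinearMap.trace K p' (f'.restrict hf') := by
  rw [← LinearMap.trace_prodMap']
  refine trace_conj_of (prodEquiv p p' P hP) _ _ fun x => ?_
  refine Prod.ext (Subtype.ext ?_) (Subtype.ext ?_)
  · exact congrArg Prod.fst (hF x.1)
  · exact congrArg Prod.snd (hF x.1)

/-- the trace of a block matrix of multiples of one endomorphism composed with a permutation -/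
theorem trace_pi {X U : Type} [Fintype X] [DecidableEq X] [AddCommGroup U] [Module K U]
    [Module.Finite K U] (c : X → X → K) (g : Module.End K U) (F : Module.End K (X → U))
    (hF : ∀ x a, F x a = ∑ b, c a b • g (x b)) :
    LinearMap.trace K (X → U) F = (∑ a, c a a) * LinearMap.trace K U g := by
  have h1 : F = ∑ a, ∑ b, c a b • ((LinearMap.single K (fun _ : X => U) a) ∘ₗ (g ∘ₗ LinearMap.proj b)) := by
    refine LinearMap.ext fun x => ?_
    funext a
    rw [hF]
    simp only [LinearMap.sum_apply, Finset.sum_apply, LinearMap.smul_apply, Pi.smul_apply,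
      LinearMap.comp_apply, LinearMap.proj_apply, LinearMap.coe_single, Pi.single_apply]
    rw [Finset.sum_comm]
    refine Finset.sum_congr rfl fun b _ => ?_
    simp
  rw [h1]
  simp only [map_sum, map_smul]
  rw [Finset.sum_mul]
  refine Finset.sum_congr rfl fun a _ => ?_
  rw [Finset.sum_eq_single a]
  · rw [LinearMap.trace_comp_comm', smul_eq_mul]
    congr 2
    refine LinearMap.ext fun x => ?_
    simp
  · intro b _ hb
    rw [LinearMap.trace_comp_comm']
    have : (g ∘ₗ LinearMap.proj b) ∘ₗ (LinearMap.single K (fun _ : X => U) a) = 0 := by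
      refine LinearMap.ext fun x => ?_
      simp [Pi.single_apply, hb]
    rw [this, map_zero, smul_zero]
  · intro h; exact absurd (Finset.mem_univ a) h

/-- the equivalence of a submodule of a power given by a condition on the coordinates -/
def piEquiv {X V : Type} [AddCommGroup V] [Module K V] (p : Submodule K V)
    (P : Submodule K (X → V)) (hP : ∀ x, x ∈ P ↔ ∀ a, x a ∈ p) : P ≃ₗ[K] (X → p) where
  toFun x := fun a => ⟨x.1 a, (hP _).1 x.2 a⟩
  map_add' x y := rfl
  map_smul' c x := rfl
  invFun y := ⟨fun a => (y a).1, (hP _).2 fun a => (y a).2⟩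
  left_inv x := rfl
  right_inv y := rfl

theorem trace_pi_restrict {X V : Type} [Fintype X] [DecidableEq X] [AddCommGroup V] [Module K V]
    [Module.Finite K V] (p : Submodule K V) (P : Submodule K (X → V))
    (hP : ∀ x, x ∈ P ↔ ∀ a, x a ∈ p) (c : X → X → K) (g : Module.End K V)
    (hg : ∀ x ∈ p, g x ∈ p) (F : Module.End K (X → V))
    (hF : ∀ x a, F x a = ∑ b, c a b • g (x b)) (hFP : ∀ x ∈ P, F x ∈ P) :
    LinearMap.trace K P (F.restrict hFP) =
      (∑ a, c a a) * LinearMap.trace K p (g.restrict hg) := by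
  let F' : Module.End K (X → p) :=
    { toFun := fun x a => ∑ b, c a b • (g.restrict hg) (x b)
      map_add' := fun x y => by
        funext a
        simp only [Pi.add_apply, map_add, smul_add, Finset.sum_add_distrib]
      map_smul' := fun c x => by
        funext a
        simp only [Pi.smul_apply, map_smul, RingHom.id_apply, Finset.smul_sum]
        refine Finset.sum_congr rfl fun b _ => smul_comm _ _ _ }
  rw [← trace_pi c (g.restrict hg) F' (fun x a => rfl)]
  refine trace_conj_of (piEquiv p P hP) _ _ fun x => ?_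
  funext a
  refine Subtype.ext ?_
  show F x.1 a = ((∑ b, c a b • (g.restrict hg) (piEquiv p P hP x b) : p) : V)
  rw [hF, Submodule.coe_sum]
  rfl

end Gen

section

variable {W : Type} [Group W] [TopologicalSpace W] {G : WeilData W} {K : Type} [Field K]

/-- the invariants of inertia in the kernel of `N` -/
def WDRep.inv (D : WDRep G K) : Submodule K D.V where
  carrier := {v | D.N v = 0 ∧ ∀ w, G.d w = 0 → D.ρ w v = v}
  add_mem' := fun {a b} ha hb => ⟨by rw [map_add, ha.1, hb.1, add_zero], fun w hw => by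
    rw [map_add, ha.2 w hw, hb.2 w hw]⟩
  zero_mem' := ⟨map_zero _, fun w _ => map_zero _⟩
  smul_mem' := fun c a ha => ⟨by rw [map_smul, ha.1, smul_zero], fun w hw => by
    rw [map_smul, ha.2 w hw]⟩

theorem WDRep.mem_inv (D : WDRep G K) (v : D.V) :
    v ∈ D.inv ↔ D.N v = 0 ∧ ∀ w, G.d w = 0 → D.ρ w v = v := Iff.rfl

theorem WDRep.inv_map (D : WDRep G K) (w : W) : ∀ v ∈ D.inv, D.ρ w v ∈ D.inv := by
  intro v hv
  refine ⟨?_, fun i hi => ?_⟩
  · rw [D.comm, hv.1, map_zero, smul_zero]
  · have h1 : D.ρ i (D.ρ w v) = D.ρ w (D.ρ (w⁻¹ * i * w) v) := by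
      rw [← Module.End.mul_apply, ← Module.End.mul_apply, ← map_mul, ← map_mul]
      congr 2
      group
    rw [h1, hv.2]
    rw [G.d_mul, G.d_mul, G.d_inv, hi]
    ring

/-- the action of an element of the Weil group on the inertia invariants -/
def WDRep.actInv (D : WDRep G K) (w : W) : Module.End K D.inv := (D.ρ w).restrict (D.inv_map w)

/-- the Euler polynomial `det (1 - T Frob | (ker N) ^ I)` -/
noncomputable def WDRep.euler (D : WDRep G K) : Polynomial K :=
  (LinearMap.charpoly (D.actInv G.frob)).reverse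

/-- the kernel of `N ^ m` -/
def WDRep.kerPow (D : WDRep G K) (m : ℕ) : Submodule K D.V := LinearMap.ker (D.N ^ m : Module.End K D.V)

theorem WDRep.mem_kerPow (D : WDRep G K) (m : ℕ) (v : D.V) :
    v ∈ D.kerPow m ↔ (D.N ^ m) v = 0 := LinearMap.mem_ker

theorem WDRep.comm_pow (D : WDRep G K) (m : ℕ) (w : W) (v : D.V) :
    (D.N ^ m) (D.ρ w v) = ((G.q : K) ^ (G.d w)) ^ m • D.ρ w ((D.N ^ m) v) := by
  induction m generalizing v with
  | zero => simp
  | succ m ih =>
    rw [pow_succ, Module.End.mul_apply, D.comm, map_smul, ih, smul_smul, ← pow_succ',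
      Module.End.mul_apply]

theorem WDRep.kerPow_map (D : WDRep G K) (m : ℕ) (w : W) :
    ∀ v ∈ D.kerPow m, D.ρ w v ∈ D.kerPow m := by
  intro v hv
  rw [D.mem_kerPow] at hv ⊢
  rw [D.comm_pow, hv, map_zero, smul_zero]

/-- the action of an element of the Weil group on the kernel of `N ^ m` -/
def WDRep.actKer (D : WDRep G K) (m : ℕ) (w : W) : Module.End K (D.kerPow m) :=
  (D.ρ w).restrict (D.kerPow_map m w)

/-- the trace of `w` on the kernel of `N ^ m` -/
noncomputable def WDRep.kap (D : WDRep G K) (m : ℕ) (w : W) : K :=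
  LinearMap.trace K (D.kerPow m) (D.actKer m w)

/-- the trace of `w` on the inertia invariants -/
noncomputable def WDRep.tau (D : WDRep G K) (w : W) : K :=
  LinearMap.trace K D.inv (D.actInv w)

theorem WDRep.actInv_mul (D : WDRep G K) (w w' : W) :
    D.actInv (w * w') = D.actInv w * D.actInv w' := by
  refine LinearMap.ext fun v => Subtype.ext ?_
  show D.ρ (w * w') v.1 = D.ρ w (D.ρ w' v.1)
  rw [map_mul]; rfl

theorem WDRep.actInv_one (D : WDRep G K) : D.actInv 1 = 1 := by
  refine LinearMap.ext fun v => Subtype.ext ?_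
  show D.ρ 1 v.1 = v.1
  rw [map_one]; rfl

theorem WDRep.actInv_pow (D : WDRep G K) (w : W) (n : ℕ) : D.actInv (w ^ n) = D.actInv w ^ n := by
  induction n with
  | zero => rw [pow_zero, pow_zero, D.actInv_one]
  | succ n ih => rw [pow_succ, pow_succ, D.actInv_mul, ih]

theorem WDRep.actKer_mul (D : WDRep G K) (m : ℕ) (w w' : W) :
    D.actKer m (w * w') = D.actKer m w * D.actKer m w' := by
  refine LinearMap.ext fun v => Subtype.ext ?_
  show D.ρ (w * w') v.1 = D.ρ w (D.ρ w' v.1)
  rw [map_mul]; rfl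

theorem WDRep.actKer_one (D : WDRep G K) (m : ℕ) : D.actKer m 1 = 1 := by
  refine LinearMap.ext fun v => Subtype.ext ?_
  show D.ρ 1 v.1 = v.1
  rw [map_one]; rfl

theorem WDRep.actKer_pow (D : WDRep G K) (m : ℕ) (w : W) (n : ℕ) :
    D.actKer m (w ^ n) = D.actKer m w ^ n := by
  induction n with
  | zero => rw [pow_zero, pow_zero, D.actKer_one]
  | succ n ih => rw [pow_succ, pow_succ, D.actKer_mul, ih]

/-- elements of the same degree act in the same way on the inertia invariants -/
theorem WDRep.actInv_congr (D : WDRep G K) (w w' : W) (h : G.d w = G.d w') :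
    D.actInv w = D.actInv w' := by
  refine LinearMap.ext fun v => Subtype.ext ?_
  show D.ρ w v.1 = D.ρ w' v.1
  have h1 : D.ρ w v.1 = D.ρ w' (D.ρ (w'⁻¹ * w) v.1) := by
    rw [← Module.End.mul_apply, ← map_mul]
    congr 2
    group
  rw [h1, v.2.2]
  rw [G.d_mul, G.d_inv, h]
  ring

theorem WDRep.tau_congr (D : WDRep G K) (w w' : W) (h : G.d w = G.d w') : D.tau w = D.tau w' := by
  unfold WDRep.tau; rw [D.actInv_congr w w' h]

theorem WDRep.kap_zero (D : WDRep G K) (w : W) : D.kap 0 w = 0 := by
  unfold WDRep.kap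
  have : D.actKer 0 w = 0 := by
    refine LinearMap.ext fun v => ?_
    have hv := (D.mem_kerPow 0 v.1).1 v.2
    rw [pow_zero, Module.End.one_apply] at hv
    have hv' : v = 0 := Subtype.ext hv
    rw [hv', map_zero, map_zero]
  rw [this, map_zero]

/-- conjugate elements have the same traces -/
theorem WDRep.kap_conj (D : WDRep G K) (m : ℕ) (w g : W) : D.kap m (g * w * g⁻¹) = D.kap m w := by
  unfold WDRep.kap
  rw [D.actKer_mul, LinearMap.trace_mul_comm, ← D.actKer_mul, ← mul_assoc, inv_mul_cancel, one_mul]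

theorem WDRep.kap_of_eq (D : WDRep G K) (m : ℕ) (w w' : W) (h : D.ρ w = D.ρ w') :
    D.kap m w = D.kap m w' := by
  unfold WDRep.kap
  congr 1
  refine LinearMap.ext fun v => Subtype.ext ?_
  show D.ρ w v.1 = D.ρ w' v.1
  rw [h]

/-! ### isomorphisms -/

theorem Iso.kap_eq {D D' : WDRep G K} (e : Iso D D') (m : ℕ) (w : W) : D.kap m w = D'.kap m w := by
  have hN : ∀ (n : ℕ) v, e.e ((D.N ^ n) v) = (D'.N ^ n) (e.e v) := by
    intro n
    induction n with
    | zero => intro v; rfl
    | succ n ih =>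
      intro v
      rw [pow_succ, Module.End.mul_apply, ih, e.map_N, pow_succ, Module.End.mul_apply]
  have hk : Submodule.map (e.e : D.V →ₗ[K] D'.V) (D.kerPow m) = D'.kerPow m := by
    ext x
    rw [Submodule.mem_map]
    constructor
    · rintro ⟨y, hy, rfl⟩
      rw [D'.mem_kerPow]
      show (D'.N ^ m) (e.e y) = 0
      rw [← hN, (D.mem_kerPow m y).1 hy, map_zero]
    · intro hx
      refine ⟨e.e.symm x, ?_, e.e.apply_symm_apply x⟩
      rw [D.mem_kerPow]
      apply e.e.injective
      rw [hN, e.e.apply_symm_apply, (D'.mem_kerPow m x).1 hx, map_zero]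
  let E : D.kerPow m ≃ₗ[K] D'.kerPow m := (e.e.submoduleMap (D.kerPow m)).trans (LinearEquiv.ofEq _ _ hk)
  refine trace_conj_of E _ _ fun x => Subtype.ext ?_
  exact e.map_ρ w x.1

theorem Iso.tau_eq {D D' : WDRep G K} (e : Iso D D') (w : W) : D.tau w = D'.tau w := by
  have hk : Submodule.map (e.e : D.V →ₗ[K] D'.V) D.inv = D'.inv := by
    ext x
    rw [Submodule.mem_map]
    constructor
    · rintro ⟨y, hy, rfl⟩
      rw [D.mem_inv] at hy
      rw [D'.mem_inv]
      refine ⟨?_, fun i hi => ?_⟩
      · show D'.N (e.e y) = 0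
        rw [← e.map_N, hy.1, map_zero]
      · show D'.ρ i (e.e y) = e.e y
        rw [← e.map_ρ, hy.2 i hi]
    · intro hx
      rw [D'.mem_inv] at hx
      refine ⟨e.e.symm x, ?_, e.e.apply_symm_apply x⟩
      rw [D.mem_inv]
      refine ⟨?_, fun i hi => ?_⟩
      · apply e.e.injective
        rw [e.map_N, e.e.apply_symm_apply, hx.1, map_zero]
      · apply e.e.injective
        rw [e.map_ρ, e.e.apply_symm_apply, hx.2 i hi]
  let E : D.inv ≃ₗ[K] D'.inv := (e.e.submoduleMap D.inv).trans (LinearEquiv.ofEq _ _ hk)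
  refine trace_conj_of E _ _ fun x => Subtype.ext ?_
  exact e.map_ρ w x.1

end

end Pool.Agent.X310.WD
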