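import Pool.Agent.X310.WdC

set_option autoImplicit false
set_option linter.unusedSectionVars false

/-! # Traces of the operations -/

namespace Pool.Agent.X310.WD

open Multiplicative

variable {W : Type} [Group W] [TopologicalSpace W] {G : WeilData W} {K : Type} [Field K] [CharZero K]

/-! ### direct sums -/

theorem prod_N_pow (D D' : WDRep G K) (m : ℕ) (x : D.V × D'.V) :
    ((D.prod D').N ^ m) x = ((D.N ^ m) x.1, (D'.N ^ m) x.2) := by
  induction m generalizing x with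
  | zero => rfl
  | succ m ih =>
    rw [pow_succ, Module.End.mul_apply, ih, pow_succ, pow_succ]
    rfl

theorem kap_prod (D D' : WDRep G K) (m : ℕ) (w : W) :
    (D.prod D').kap m w = D.kap m w + D'.kap m w := by
  refine trace_prod_restrict (D.kerPow m) (D'.kerPow m) ((D.prod D').kerPow m) ?_ (D.ρ w) (D'.ρ w)
    ((D.prod D').ρ w) (fun x => rfl) _ _ _
  intro x
  have h1 : x ∈ (D.prod D').kerPow m ↔ ((D.N ^ m) x.1, (D'.N ^ m) x.2) = (0 : D.V × D'.V) := by
    refine Iff.trans ((D.prod D').mem_kerPow m x) ?_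
    rw [prod_N_pow]
    exact Iff.rfl
  refine h1.trans (Prod.mk_eq_zero.trans ?_)
  exact and_congr (D.mem_kerPow m x.1).symm (D'.mem_kerPow m x.2).symm

theorem tau_prod (D D' : WDRep G K) (w : W) :
    (D.prod D').tau w = D.tau w + D'.tau w := by
  refine trace_prod_restrict D.inv D'.inv (D.prod D').inv ?_ (D.ρ w) (D'.ρ w)
    ((D.prod D').ρ w) (fun x => rfl) _ _ _
  intro x
  constructor
  · rintro ⟨h1, h2⟩
    refine ⟨⟨congrArg Prod.fst h1, fun i hi => congrArg Prod.fst (h2 i hi)⟩,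
      ⟨congrArg Prod.snd h1, fun i hi => congrArg Prod.snd (h2 i hi)⟩⟩
  · rintro ⟨⟨h1, h2⟩, ⟨h3, h4⟩⟩
    exact ⟨Prod.ext h1 h3, fun i hi => Prod.ext (h2 i hi) (h4 i hi)⟩

/-! ### Tate twists -/

theorem kap_tate (D : WDRep G K) (r : ℤ) (m : ℕ) (w : W) :
    (D.tate r).kap m w = (G.q : K) ^ (r * G.d w) * D.kap m w := by
  unfold WDRep.kap
  have h : (D.tate r).actKer m w = (G.q : K) ^ (r * G.d w) • D.actKer m w := rfl
  rw [h]
  exact map_smul _ _ _

theorem mem_tate_inv (D : WDRep G K) (r : ℤ) (v : D.V) : v ∈ (D.tate r).inv ↔ v ∈ D.inv := by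
  have key : ∀ i, G.d i = 0 → ((G.q : K) ^ (r * G.d i) • D.ρ i) v = D.ρ i v := by
    intro i hi
    rw [hi, mul_zero, zpow_zero, one_smul]
  constructor
  · rintro ⟨h1, h2⟩
    exact ⟨h1, fun i hi => (key i hi).symm.trans (h2 i hi)⟩
  · rintro ⟨h1, h2⟩
    exact ⟨h1, fun i hi => (key i hi).trans (h2 i hi)⟩

theorem tau_tate (D : WDRep G K) (r : ℤ) (w : W) :
    (D.tate r).tau w = (G.q : K) ^ (r * G.d w) * D.tau w := by
  unfold WDRep.tau
  have h : LinearMap.trace K D.inv ((G.q : K) ^ (r * G.d w) • D.actInv w) =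
      (G.q : K) ^ (r * G.d w) * LinearMap.trace K D.inv (D.actInv w) := by
    rw [map_smul, smul_eq_mul]
  rw [← h]
  let E : (D.tate r).inv ≃ₗ[K] D.inv :=
    { toFun := fun x => ⟨x.1, (mem_tate_inv D r x.1).1 x.2⟩
      map_add' := fun x y => rfl
      map_smul' := fun c x => rfl
      invFun := fun y => ⟨y.1, (mem_tate_inv D r y.1).2 y.2⟩
      left_inv := fun x => rfl
      right_inv := fun y => rfl }
  exact trace_conj_of E _ _ fun x => rfl

/-! ### unramified twists -/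

/-- the trace of `C ^ deg w` -/
def trC (G : WeilData W) {m : ℕ} (C : GL (Fin m) ℚ) (w : W) : ℚ :=
  ((C ^ (G.d w) : GL (Fin m) ℚ) : Matrix (Fin m) (Fin m) ℚ).trace

theorem sum_entry {m : ℕ} (C : GL (Fin m) ℚ) (w : W) :
    ∑ a, entry K G C w a a = (trC G C w : K) := by
  unfold entry trC Matrix.trace
  push_cast
  rfl

theorem unram_N_pow (D : WDRep G K) {n : ℕ} (C : GL (Fin n) ℚ) (m : ℕ) (x : Fin n → D.V) (a : Fin n) :
    (((D.unram C).N ^ m) x : Fin n → D.V) a = (D.N ^ m) (x a) := by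
  induction m generalizing x with
  | zero => rfl
  | succ m ih =>
    rw [pow_succ, Module.End.mul_apply, ih, pow_succ]
    rfl

theorem kap_unram (D : WDRep G K) {n : ℕ} (C : GL (Fin n) ℚ) (m : ℕ) (w : W) :
    (D.unram C).kap m w = (trC G C w : K) * D.kap m w := by
  rw [← sum_entry]
  refine trace_pi_restrict (D.kerPow m) ((D.unram C).kerPow m) ?_ (entry K G C w) (D.ρ w) _
    ((D.unram C).ρ w) (fun x a => rfl) _
  intro x
  constructor
  · intro h a
    have h' := ((D.unram C).mem_kerPow m x).1 h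
    rw [WDRep.mem_kerPow, ← unram_N_pow D C]
    exact congrFun h' a
  · intro h
    refine ((D.unram C).mem_kerPow m x).2 ?_
    funext a
    rw [unram_N_pow]
    exact (D.mem_kerPow m _).1 (h a)

theorem tau_unram (D : WDRep G K) {n : ℕ} (C : GL (Fin n) ℚ) (w : W) :
    (D.unram C).tau w = (trC G C w : K) * D.tau w := by
  rw [← sum_entry]
  refine trace_pi_restrict D.inv (D.unram C).inv ?_ (entry K G C w) (D.ρ w) _
    ((D.unram C).ρ w) (fun x a => rfl) _
  intro x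
  have key : ∀ i, G.d i = 0 → ∀ a, ((D.unram C).ρ i x : Fin n → D.V) a = D.ρ i (x a) := by
    intro i hi a
    show ∑ b, entry K G C i a b • D.ρ i (x b) = _
    simp only [entry_of_d_zero C i hi, ite_smul, one_smul, zero_smul, Finset.sum_ite_eq,
      Finset.mem_univ, if_true]
  constructor
  · rintro ⟨h1, h2⟩ a
    exact ⟨congrFun h1 a, fun i hi => by rw [← key i hi a]; exact congrFun (h2 i hi) a⟩
  · intro h
    refine ⟨funext fun a => (h a).1, fun i hi => funext fun a => ?_⟩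
    rw [key i hi a]
    exact (h a).2 i hi

/-! ### the Tate curve -/

theorem tateCurve_N_pow (D : WDRep G K) (k : ℕ) (x : D.V × D.V) :
    (D.tateCurve.N ^ (k + 1)) x =
      ((D.N ^ (k + 1)) x.1 + (k + 1 : K) • (D.N ^ k) x.2, (D.N ^ (k + 1)) x.2) := by
  induction k generalizing x with
  | zero =>
    refine Prod.ext ?_ ?_
    · show D.N x.1 + x.2 = (D.N ^ (0 + 1)) x.1 + ((0 : ℕ) + 1 : K) • (D.N ^ 0) x.2
      simp
    · show D.N x.2 = (D.N ^ (0 + 1)) x.2
      simp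
  | succ k ih =>
    rw [pow_succ, Module.End.mul_apply, ih]
    refine Prod.ext ?_ ?_
    · show (D.N ^ (k + 1)) (D.N x.1 + x.2) + (k + 1 : K) • (D.N ^ k) (D.N x.2) =
        (D.N ^ (k + 1 + 1)) x.1 + ((k + 1 : ℕ) + 1 : K) • (D.N ^ (k + 1)) x.2
      rw [map_add, pow_succ D.N (k + 1), pow_succ D.N k]
      simp only [Module.End.mul_apply]
      push_cast
      module
    · show (D.N ^ (k + 1)) (D.N x.2) = (D.N ^ (k + 1 + 1)) x.2
      rw [pow_succ D.N (k + 1)]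
      rfl

/-- the shear `(v₀, v₁) ↦ (v₀, v₁ + N v₀ / (k + 1))` -/
noncomputable def shear (D : WDRep G K) (k : ℕ) : (D.V × D.V) ≃ₗ[K] (D.V × D.V) where
  toFun x := (x.1, x.2 + (k + 1 : K)⁻¹ • D.N x.1)
  map_add' x y := by
    refine Prod.ext rfl ?_
    show x.2 + y.2 + (k + 1 : K)⁻¹ • D.N (x.1 + y.1) = _
    rw [map_add, smul_add]
    show _ = x.2 + (k + 1 : K)⁻¹ • D.N x.1 + (y.2 + (k + 1 : K)⁻¹ • D.N y.1)
    abel
  map_smul' c x := by
    refine Prod.ext rfl ?_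
    show c • x.2 + (k + 1 : K)⁻¹ • D.N (c • x.1) = c • (x.2 + (k + 1 : K)⁻¹ • D.N x.1)
    rw [map_smul, smul_add, smul_comm]
  invFun x := (x.1, x.2 - (k + 1 : K)⁻¹ • D.N x.1)
  left_inv x := by
    refine Prod.ext rfl ?_
    show x.2 + (k + 1 : K)⁻¹ • D.N x.1 - (k + 1 : K)⁻¹ • D.N x.1 = x.2
    abel
  right_inv x := by
    refine Prod.ext rfl ?_
    show x.2 - (k + 1 : K)⁻¹ • D.N x.1 + (k + 1 : K)⁻¹ • D.N x.1 = x.2
    abel

theorem tateCurve_ker (D : WDRep G K) (k : ℕ) (x : D.V × D.V) :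
    x ∈ D.tateCurve.kerPow (k + 1) ↔
      (shear D k x).1 ∈ D.kerPow (k + 2) ∧ (shear D k x).2 ∈ D.kerPow k := by
  have hk : (k + 1 : K) ≠ 0 := by exact_mod_cast Nat.succ_ne_zero k
  have h0 : x ∈ D.tateCurve.kerPow (k + 1) ↔
      ((D.N ^ (k + 1)) x.1 + (k + 1 : K) • (D.N ^ k) x.2, (D.N ^ (k + 1)) x.2) = (0 : D.V × D.V) := by
    refine Iff.trans (D.tateCurve.mem_kerPow (k + 1) x) ?_
    rw [tateCurve_N_pow]
    exact Iff.rfl
  refine h0.trans ?_
  show _ ↔ (x.1 ∈ D.kerPow (k + 2)) ∧ (x.2 + (k + 1 : K)⁻¹ • D.N x.1) ∈ D.kerPow k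
  rw [WDRep.mem_kerPow, WDRep.mem_kerPow]
  have h1 : (D.N ^ (k + 1)) x.1 = (D.N ^ k) (D.N x.1) := by rw [pow_succ]; rfl
  have h2 : (D.N ^ (k + 2)) x.1 = D.N ((D.N ^ (k + 1)) x.1) := by rw [pow_succ']; rfl
  have h3 : (D.N ^ (k + 1)) x.2 = D.N ((D.N ^ k) x.2) := by rw [pow_succ']; rfl
  rw [Prod.mk_eq_zero, map_add, map_smul, ← h1]
  constructor
  · rintro ⟨h4, h5⟩
    refine ⟨?_, ?_⟩
    · rw [h2, eq_neg_of_add_eq_zero_left h4, map_neg, map_smul, ← h3, h5, smul_zero, neg_zero]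
    · rw [eq_neg_of_add_eq_zero_left h4, smul_neg, smul_smul, inv_mul_cancel₀ hk, one_smul,
        add_neg_cancel]
  · rintro ⟨h4, h5⟩
    have h6 : (D.N ^ k) x.2 = - ((k + 1 : K)⁻¹ • (D.N ^ (k + 1)) x.1) := eq_neg_of_add_eq_zero_left h5
    refine ⟨?_, ?_⟩
    · rw [h6, smul_neg, smul_smul, mul_inv_cancel₀ hk, one_smul, add_neg_cancel]
    · rw [h3, h6, map_neg, map_smul, ← h2, h4, smul_zero, neg_zero]

theorem kap_tateCurve (D : WDRep G K) (k : ℕ) (w : W) :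
    D.tateCurve.kap (k + 1) w = D.kap (k + 2) w + (G.q : K) ^ (G.d w) * D.kap k w := by
  -- transport by the shear
  let P : Submodule K (D.V × D.V) := Submodule.comap ((shear D k).symm : (D.V × D.V) →ₗ[K] (D.V × D.V))
    (D.tateCurve.kerPow (k + 1))
  have hP : ∀ x, x ∈ P ↔ x.1 ∈ D.kerPow (k + 2) ∧ x.2 ∈ D.kerPow k := by
    intro x
    show (shear D k).symm x ∈ D.tateCurve.kerPow (k + 1) ↔ _
    rw [tateCurve_ker, LinearEquiv.apply_symm_apply]
  have hf' : ∀ x ∈ D.kerPow k, ((G.q : K) ^ (G.d w) • D.ρ w) x ∈ D.kerPow k := fun x hx =>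
    (D.kerPow k).smul_mem _ (D.kerPow_map k w x hx)
  have hFP : ∀ x ∈ P, (D.tateCurve.ρ w : Module.End K (D.V × D.V)) x ∈ P := by
    intro x hx
    have hx' := (hP x).1 hx
    exact (hP _).2 ⟨D.kerPow_map _ w _ hx'.1, hf' _ hx'.2⟩
  have h1 := trace_prod_restrict (D.kerPow (k + 2)) (D.kerPow k) P hP (D.ρ w)
    ((G.q : K) ^ (G.d w) • D.ρ w) (D.tateCurve.ρ w) (fun x => rfl) (D.kerPow_map _ w) hf' hFP
  have h2 : LinearMap.trace K (D.kerPow k) (((G.q : K) ^ (G.d w) • D.ρ w).restrict hf') =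
      (G.q : K) ^ (G.d w) * D.kap k w := by
    have h3 : ((G.q : K) ^ (G.d w) • D.ρ w).restrict hf' = (G.q : K) ^ (G.d w) • D.actKer k w := rfl
    rw [h3]
    exact map_smul _ _ _
  rw [h2] at h1
  unfold WDRep.kap at h1 ⊢
  refine Eq.trans ?_ h1
  let E : D.tateCurve.kerPow (k + 1) ≃ₗ[K] P :=
    { toFun := fun x => ⟨shear D k x.1, by
        show (shear D k).symm (shear D k x.1) ∈ D.tateCurve.kerPow (k + 1)
        rw [LinearEquiv.symm_apply_apply]; exact x.2⟩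
      map_add' := fun x y => Subtype.ext (map_add (shear D k) x.1 y.1)
      map_smul' := fun c x => Subtype.ext (map_smul (shear D k) c x.1)
      invFun := fun y => ⟨(shear D k).symm y.1, y.2⟩
      left_inv := fun x => Subtype.ext ((shear D k).symm_apply_apply x.1)
      right_inv := fun y => Subtype.ext ((shear D k).apply_symm_apply y.1) }
  refine trace_conj_of E _ _ fun x => Subtype.ext ?_
  show shear D k (D.ρ w x.1.1, (G.q : K) ^ (G.d w) • D.ρ w x.1.2) =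
    (D.ρ w x.1.1, (G.q : K) ^ (G.d w) • D.ρ w (x.1.2 + (k + 1 : K)⁻¹ • D.N x.1.1))
  refine Prod.ext rfl ?_
  show (G.q : K) ^ (G.d w) • D.ρ w x.1.2 + (k + 1 : K)⁻¹ • D.N (D.ρ w x.1.1) = _
  rw [D.comm, map_add, smul_add, map_smul, smul_comm]

end Pool.Agent.X310.WD
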