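import Pool.Agent.X310.WdD
import Pool.Agent.TH658.Eq.Newt

set_option autoImplicit false
set_option linter.unusedSectionVars false

/-! # Rational numbers common to two fields; Newton's identities -/

namespace Pool.Agent.X310.WD

open Polynomial

/-- two elements of two fields are the same rational number -/
def RatPair {K₁ K₂ : Type} [Field K₁] [Field K₂] (a : K₁) (b : K₂) : Prop := ∃ c : ℚ, a = c ∧ b = c

section

variable {K₁ K₂ : Type} [Field K₁] [Field K₂]

theorem RatPair.add [CharZero K₁] [CharZero K₂] {a a' : K₁} {b b' : K₂} (h : RatPair a b) (h' : RatPair a' b') :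
    RatPair (a + a') (b + b') := by
  obtain ⟨c, h1, h2⟩ := h
  obtain ⟨c', h3, h4⟩ := h'
  exact ⟨c + c', by rw [h1, h3]; push_cast; rfl, by rw [h2, h4]; push_cast; rfl⟩

theorem RatPair.neg {a : K₁} {b : K₂} (h : RatPair a b) : RatPair (-a) (-b) := by
  obtain ⟨c, h1, h2⟩ := h
  exact ⟨-c, by rw [h1]; push_cast; rfl, by rw [h2]; push_cast; rfl⟩

theorem RatPair.sub [CharZero K₁] [CharZero K₂] {a a' : K₁} {b b' : K₂} (h : RatPair a b) (h' : RatPair a' b') :
    RatPair (a - a') (b - b') := by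
  rw [sub_eq_add_neg, sub_eq_add_neg]; exact h.add h'.neg

theorem RatPair.mul [CharZero K₁] [CharZero K₂] {a a' : K₁} {b b' : K₂} (h : RatPair a b) (h' : RatPair a' b') :
    RatPair (a * a') (b * b') := by
  obtain ⟨c, h1, h2⟩ := h
  obtain ⟨c', h3, h4⟩ := h'
  exact ⟨c * c', by rw [h1, h3]; push_cast; rfl, by rw [h2, h4]; push_cast; rfl⟩

theorem ratPair_cast (c : ℚ) : RatPair (c : K₁) (c : K₂) := ⟨c, rfl, rfl⟩

theorem ratPair_zpow [CharZero K₁] [CharZero K₂] (q : ℕ) (n : ℤ) : RatPair ((q : K₁) ^ n) ((q : K₂) ^ n) :=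
  ⟨(q : ℚ) ^ n, by push_cast; rfl, by push_cast; rfl⟩

theorem ratPair_sum [CharZero K₁] [CharZero K₂] {ι : Type} (s : Finset ι) (a : ι → K₁) (b : ι → K₂)
    (h : ∀ i ∈ s, RatPair (a i) (b i)) : RatPair (∑ i ∈ s, a i) (∑ i ∈ s, b i) := by
  classical
  induction s using Finset.induction_on with
  | empty => exact ⟨0, by simp, by simp⟩
  | insert i s hi ih =>
    rw [Finset.sum_insert hi, Finset.sum_insert hi]
    exact (h i (Finset.mem_insert_self i s)).add (ih fun j hj => h j (Finset.mem_insert_of_mem hj))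

/-- cancelling a common nonzero rational factor -/
theorem RatPair.cancel [CharZero K₁] [CharZero K₂] {c : ℚ} (hc : c ≠ 0) {a : K₁} {b : K₂}
    (h : RatPair ((c : K₁) * a) ((c : K₂) * b)) : RatPair a b := by
  obtain ⟨c', h1, h2⟩ := h
  have hc1 : (c : K₁) ≠ 0 := by exact_mod_cast hc
  have hc2 : (c : K₂) ≠ 0 := by exact_mod_cast hc
  refine ⟨c' / c, ?_, ?_⟩
  · push_cast
    rw [eq_div_iff hc1, ← h1, mul_comm]
  · push_cast
    rw [eq_div_iff hc2, ← h2, mul_comm]

end

theorem ratInd_of_pairs {Λ : Type} {K : Λ → Type} [∀ l, Field (K l)] [∀ l, CharZero (K l)]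
    (a : ∀ l, K l) (h : ∀ l l', RatPair (a l) (a l')) : ∃ c : ℚ, ∀ l, a l = c := by
  by_cases hΛ : Nonempty Λ
  · obtain ⟨l⟩ := hΛ
    obtain ⟨c, h1, _⟩ := h l l
    refine ⟨c, fun l' => ?_⟩
    obtain ⟨c', h3, h4⟩ := h l l'
    have : c = c' := by
      have : (c : K l) = (c' : K l) := by rw [← h1, ← h3]
      exact_mod_cast this
    rw [h4, this]
  · exact ⟨0, fun l => absurd ⟨l⟩ hΛ⟩

theorem poly_of_pairs {Λ : Type} {K : Λ → Type} [∀ l, Field (K l)] [∀ l, CharZero (K l)]
    (p : ∀ l, (K l)[X]) (h : ∀ k l l', RatPair ((p l).coeff k) ((p l').coeff k)) :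
    ∃ P : ℚ[X], ∀ l, p l = P.map (algebraMap ℚ (K l)) := by
  by_cases hΛ : Nonempty Λ
  · obtain ⟨l⟩ := hΛ
    have h' : ∀ k, ∃ c : ℚ, ∀ l, (p l).coeff k = c := fun k =>
      ratInd_of_pairs (fun l => (p l).coeff k) (h k)
    choose c hc using h'
    refine ⟨∑ k ∈ Finset.range ((p l).natDegree + 1), monomial k (c k), fun l' => ?_⟩
    refine Polynomial.ext fun k => ?_
    rw [coeff_map, finset_sum_coeff, hc k l']
    simp only [coeff_monomial]
    rw [Finset.sum_ite_eq' (Finset.range ((p l).natDegree + 1)) k c]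
    by_cases hk : k ∈ Finset.range ((p l).natDegree + 1)
    · rw [if_pos hk]
      rfl
    · rw [if_neg hk, map_zero]
      have h1 : (p l).coeff k = 0 := coeff_eq_zero_of_natDegree_lt (by
        rw [Finset.mem_range] at hk; omega)
      rw [hc k l] at h1
      have h2 : c k = 0 := by exact_mod_cast h1
      rw [h2, Rat.cast_zero]
  · exact ⟨0, fun l => absurd ⟨l⟩ hΛ⟩

section Newton

variable {K : Type} [Field K] {U : Type} [AddCommGroup U] [Module K U] [Module.Finite K U]

/-- Newton's identities for the reversed characteristic polynomial of an endomorphism -/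
theorem newton_end (f : Module.End K U) (k : ℕ) :
    (f.charpoly.reverse.coeff (k + 1)) * ((k : K) + 1) =
      - ∑ p ∈ Finset.HasAntidiagonal.antidiagonal k,
        f.charpoly.reverse.coeff p.1 * LinearMap.trace K U (f ^ (p.2 + 1)) := by
  let b := Module.finBasis K U
  have h1 : f.charpoly.reverse = (LinearMap.toMatrix b b f).charpolyRev := by
    rw [← Matrix.reverse_charpoly, LinearMap.charpoly_toMatrix]
  have h2 : ∀ n : ℕ, LinearMap.trace K U (f ^ n) = ((LinearMap.toMatrix b b f) ^ n).trace := by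
    intro n
    rw [LinearMap.trace_eq_matrix_trace K b, LinearMap.toMatrix_pow]
  rw [h1, Pool.Agent.TH658.Eq.newton]
  simp only [h2]

theorem rev_coeff_zero (f : Module.End K U) : f.charpoly.reverse.coeff 0 = 1 := by
  rw [coeff_zero_reverse, (LinearMap.charpoly_monic f).leadingCoeff]

end Newton

section Pair

variable {K₁ K₂ : Type} [Field K₁] [Field K₂] [CharZero K₁] [CharZero K₂]
  {U₁ : Type} [AddCommGroup U₁] [Module K₁ U₁] [Module.Finite K₁ U₁]
  {U₂ : Type} [AddCommGroup U₂] [Module K₂ U₂] [Module.Finite K₂ U₂]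

theorem coeff_of_traces (f₁ : Module.End K₁ U₁) (f₂ : Module.End K₂ U₂)
    (h : ∀ k : ℕ, 1 ≤ k → RatPair (LinearMap.trace K₁ U₁ (f₁ ^ k)) (LinearMap.trace K₂ U₂ (f₂ ^ k)))
    (k : ℕ) : RatPair (f₁.charpoly.reverse.coeff k) (f₂.charpoly.reverse.coeff k) := by
  induction k using Nat.strong_induction_on with
  | _ k ih =>
    rcases k with _ | k
    · rw [rev_coeff_zero, rev_coeff_zero]; exact ⟨1, by simp, by simp⟩
    · have hk : ((k : ℚ) + 1) ≠ 0 := by exact_mod_cast Nat.succ_ne_zero k
      refine RatPair.cancel hk ?_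
      have h1 := newton_end f₁ k
      have h2 := newton_end f₂ k
      push_cast
      rw [mul_comm, h1, mul_comm, h2]
      refine RatPair.neg (ratPair_sum _ _ _ fun p hp => ?_)
      have h3 := (Finset.HasAntidiagonal.mem_antidiagonal.mp hp)
      exact (ih p.1 (by omega)).mul (h _ (by omega))

theorem traces_of_coeff (f₁ : Module.End K₁ U₁) (f₂ : Module.End K₂ U₂)
    (h : ∀ k : ℕ, RatPair (f₁.charpoly.reverse.coeff k) (f₂.charpoly.reverse.coeff k))
    (k : ℕ) (hk : 1 ≤ k) :
    RatPair (LinearMap.trace K₁ U₁ (f₁ ^ k)) (LinearMap.trace K₂ U₂ (f₂ ^ k)) := by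
  induction k using Nat.strong_induction_on with
  | _ k ih =>
    rcases k with _ | k
    · omega
    · have h1 := newton_end f₁ k
      have h2 := newton_end f₂ k
      have hmem : ((0, k) : ℕ × ℕ) ∈ Finset.HasAntidiagonal.antidiagonal k := by
        rw [Finset.HasAntidiagonal.mem_antidiagonal]; simp
      rw [← Finset.add_sum_erase _ _ hmem, rev_coeff_zero, one_mul] at h1 h2
      have e1 : LinearMap.trace K₁ U₁ (f₁ ^ (k + 1)) =
          - (f₁.charpoly.reverse.coeff (k + 1) * ((k : K₁) + 1)) -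
          ∑ p ∈ (Finset.HasAntidiagonal.antidiagonal k).erase (0, k),
            f₁.charpoly.reverse.coeff p.1 * LinearMap.trace K₁ U₁ (f₁ ^ (p.2 + 1)) := by
        rw [h1]; ring
      have e2 : LinearMap.trace K₂ U₂ (f₂ ^ (k + 1)) =
          - (f₂.charpoly.reverse.coeff (k + 1) * ((k : K₂) + 1)) -
          ∑ p ∈ (Finset.HasAntidiagonal.antidiagonal k).erase (0, k),
            f₂.charpoly.reverse.coeff p.1 * LinearMap.trace K₂ U₂ (f₂ ^ (p.2 + 1)) := by
        rw [h2]; ring
      rw [e1, e2]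
      refine RatPair.sub (RatPair.neg ((h _).mul ⟨(k : ℚ) + 1, by push_cast; rfl, by push_cast; rfl⟩))
        (ratPair_sum _ _ _ fun p hp => ?_)
      rw [Finset.mem_erase, Finset.HasAntidiagonal.mem_antidiagonal] at hp
      obtain ⟨hp1, hp2⟩ := hp
      have hp3 : p.1 ≠ 0 := by
        intro h0
        apply hp1
        refine Prod.ext h0 ?_
        show p.2 = k
        omega
      exact (h _).mul (ih _ (by omega) (by omega))

/-- If the traces of the positive powers of two automorphisms, and the traces of the products of two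
further endomorphisms with the positive powers, are common rational numbers, then so are the
traces of the latter. -/
theorem trace_extend (f₁ : Module.End K₁ U₁) (f₂ : Module.End K₂ U₂) (hf₁ : IsUnit f₁) (hf₂ : IsUnit f₂)
    (g₁ : Module.End K₁ U₁) (g₂ : Module.End K₂ U₂)
    (h : ∀ k : ℕ, 1 ≤ k → RatPair (LinearMap.trace K₁ U₁ (f₁ ^ k)) (LinearMap.trace K₂ U₂ (f₂ ^ k)))
    (h' : ∀ k : ℕ, 1 ≤ k → RatPair (LinearMap.trace K₁ U₁ (g₁ * f₁ ^ k))
      (LinearMap.trace K₂ U₂ (g₂ * f₂ ^ k))) :
    RatPair (LinearMap.trace K₁ U₁ g₁) (LinearMap.trace K₂ U₂ g₂) := by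
  have hc := coeff_of_traces f₁ f₂ h
  -- constant terms of the characteristic polynomials
  have key : ∀ {K : Type} [Field K] {U : Type} [AddCommGroup U] [Module K U] [Module.Finite K U]
      (f g : Module.End K U), IsUnit f → f.charpoly.coeff 0 ≠ 0 ∧
        f.charpoly.reverse.natDegree = f.charpoly.natDegree ∧
        f.charpoly.coeff 0 * LinearMap.trace K U g =
          - ∑ i ∈ Finset.range f.charpoly.natDegree, f.charpoly.coeff (i + 1) *
            LinearMap.trace K U (g * f ^ (i + 1)) := by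
    intro K _ U _ _ _ f g hf
    have h0 : f.charpoly.coeff 0 ≠ 0 := by
      have h1 := LinearMap.det_eq_sign_charpoly_coeff f
      have h2 : IsUnit (LinearMap.det f) := hf.map (LinearMap.det (M := U) (A := K))
      intro h3
      rw [h3, mul_zero] at h1
      rw [h1] at h2
      exact not_isUnit_zero h2
    refine ⟨h0, ?_, ?_⟩
    · rw [reverse_natDegree, natTrailingDegree_eq_zero.mpr (Or.inr h0), Nat.sub_zero]
    · have h1 := LinearMap.aeval_self_charpoly f
      rw [aeval_eq_sum_range, Finset.sum_range_succ'] at h1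
      have h2 := congrArg (fun u => LinearMap.trace K U (g * u)) h1
      simp only [mul_add, Finset.mul_sum, map_add, map_sum, mul_zero, map_zero, pow_zero,
        mul_smul_comm, map_smul, smul_eq_mul, mul_one] at h2
      rw [eq_neg_iff_add_eq_zero, add_comm]
      exact h2
  obtain ⟨a1, b1, c1⟩ := key f₁ g₁ hf₁
  obtain ⟨a2, b2, c2⟩ := key f₂ g₂ hf₂
  -- the degrees agree
  have hdeg : f₁.charpoly.reverse.natDegree = f₂.charpoly.reverse.natDegree := by
    have h1 : ∀ k, f₁.charpoly.reverse.coeff k = 0 ↔ f₂.charpoly.reverse.coeff k = 0 := by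
      intro k
      obtain ⟨c, h1, h2⟩ := hc k
      rw [h1, h2]
      constructor
      · intro h; have : c = 0 := by exact_mod_cast h
        rw [this, Rat.cast_zero]
      · intro h; have : c = 0 := by exact_mod_cast h
        rw [this, Rat.cast_zero]
    refine le_antisymm ?_ ?_
    · rw [natDegree_le_iff_coeff_eq_zero]
      intro N hN
      rw [h1]
      exact coeff_eq_zero_of_natDegree_lt hN
    · rw [natDegree_le_iff_coeff_eq_zero]
      intro N hN
      rw [← h1]
      exact coeff_eq_zero_of_natDegree_lt hN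
  have hdeg' : f₁.charpoly.natDegree = f₂.charpoly.natDegree := by rw [← b1, ← b2, hdeg]
  have hcoef : ∀ i, i ≤ f₁.charpoly.natDegree → RatPair (f₁.charpoly.coeff i) (f₂.charpoly.coeff i) := by
    intro i hi
    have h1 := hc (f₁.charpoly.natDegree - i)
    rw [coeff_reverse, coeff_reverse, ← hdeg', revAt_le (by omega)] at h1
    have h2 : f₁.charpoly.natDegree - (f₁.charpoly.natDegree - i) = i := by omega
    rw [h2] at h1
    exact h1
  obtain ⟨c, h1, h2⟩ := hcoef 0 (Nat.zero_le _)
  have hc0 : c ≠ 0 := by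
    intro h; rw [h, Rat.cast_zero] at h1; exact a1 h1
  refine RatPair.cancel hc0 ?_
  rw [← h1, ← h2, c1, c2, hdeg']
  refine RatPair.neg (ratPair_sum _ _ _ fun i hi => ?_)
  rw [Finset.mem_range] at hi
  exact (hcoef _ (by omega)).mul (h' _ (by omega))

end Pair

end Pool.Agent.X310.WD
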