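import Pool.Agent.X310.WdE

set_option autoImplicit false
set_option linter.unusedSectionVars false

/-! # Averages over inertia and permutation representations -/

namespace Pool.Agent.X310.WD

open Polynomial

variable {W : Type} [Group W] [TopologicalSpace W] [IsTopologicalGroup W] {G : WeilData W}
  {K : Type} [Field K] [CharZero K]

/-- an open normal subgroup of inertia acting trivially on two representations -/
theorem exists_J {K₁ K₂ : Type} [Field K₁] [Field K₂] (D₁ : WDRep G K₁) (D₂ : WDRep G K₂) :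
    ∃ J : Subgroup W, J.Normal ∧ IsOpen (J : Set W) ∧ (∀ w ∈ J, G.d w = 0) ∧
      (∀ w ∈ J, D₁.ρ w = 1) ∧ (∀ w ∈ J, D₂.ρ w = 1) := by
  obtain ⟨J₁, h1, h1'⟩ := D₁.smooth
  obtain ⟨J₂, h2, h2'⟩ := D₂.smooth
  refine ⟨G.deg.ker ⊓ (D₁.ρ.ker ⊓ D₂.ρ.ker), inferInstance, ?_, fun w hw => ?_, fun w hw => ?_,
    fun w hw => ?_⟩
  · refine Subgroup.isOpen_mono (H₁ := J₁ ⊓ J₂) ?_ ?_
    · intro w hw
      refine ⟨(G.mem_ker w).2 (h1' w hw.1).1, ?_, ?_⟩
      · exact (MonoidHom.mem_ker).2 (h1' w hw.1).2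
      · exact (MonoidHom.mem_ker).2 (h2' w hw.2).2
    · rw [Subgroup.coe_inf]; exact h1.inter h2
  · exact (G.mem_ker w).1 hw.1
  · exact MonoidHom.mem_ker.1 hw.2.1
  · exact MonoidHom.mem_ker.1 hw.2.2

/-- the finite quotient of inertia by an open subgroup -/
abbrev Quo (G : WeilData W) (J : Subgroup W) : Type := G.deg.ker ⧸ J.subgroupOf G.deg.ker

theorem finite_quo (J : Subgroup W) (hJ : IsOpen (J : Set W)) : Finite (Quo G J) := by
  have : CompactSpace G.deg.ker := isCompact_iff_compactSpace.mp G.isCompact_inertia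
  refine Subgroup.quotient_finite_of_isOpen _ ?_
  exact hJ.preimage continuous_subtype_val

/-- a representative in inertia -/
noncomputable def rep {J : Subgroup W} (x : Quo G J) : W := ((x.out : G.deg.ker) : W)

theorem d_rep {J : Subgroup W} (x : Quo G J) : G.d (rep x) = 0 :=
  (G.mem_ker _).1 (x.out : G.deg.ker).2

theorem rep_mk {J : Subgroup W} (i : G.deg.ker) :
    (rep ((i : G.deg.ker) : Quo G J))⁻¹ * (i : W) ∈ J := by
  have h := QuotientGroup.out_eq' ((i : G.deg.ker) : Quo G J)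
  have h2 := QuotientGroup.eq.1 h
  exact h2

theorem ρ_congr (D : WDRep G K) {J : Subgroup W} (hJ : ∀ w ∈ J, D.ρ w = 1) (w w' : W)
    (h : w⁻¹ * w' ∈ J) : D.ρ w = D.ρ w' := by
  have h1 : w' = w * (w⁻¹ * w') := by group
  rw [h1, map_mul, hJ _ h, mul_one]

/-- **The average formula** -/
theorem card_mul_tau (D : WDRep G K) (J : Subgroup W) (hJ : ∀ w ∈ J, D.ρ w = 1) [Fintype (Quo G J)]
    (w : W) : (Fintype.card (Quo G J) : K) * D.tau w = ∑ x : Quo G J, D.kap 1 (w * rep x) := by
  have hcard : (Fintype.card (Quo G J) : K) ≠ 0 := by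
    have : Nonempty (Quo G J) := ⟨((1 : G.deg.ker) : Quo G J)⟩
    exact_mod_cast Fintype.card_ne_zero
  let A : Module.End K (D.kerPow 1) := (Fintype.card (Quo G J) : K)⁻¹ • ∑ x : Quo G J, D.actKer 1 (rep x)
  let B : Module.End K (D.kerPow 1) := D.actKer 1 w * A
  have hB : LinearMap.trace K (D.kerPow 1) B =
      (Fintype.card (Quo G J) : K)⁻¹ * ∑ x : Quo G J, D.kap 1 (w * rep x) := by
    show LinearMap.trace K (D.kerPow 1) (D.actKer 1 w * ((Fintype.card (Quo G J) : K)⁻¹ •
      ∑ x : Quo G J, D.actKer 1 (rep x))) = _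
    rw [mul_smul_comm, map_smul, smul_eq_mul, Finset.mul_sum, map_sum]
    congr 1
    refine Finset.sum_congr rfl fun x _ => ?_
    rw [← D.actKer_mul]
    rfl
  have hAval : ∀ u : D.kerPow 1, ((A u : D.kerPow 1) : D.V) =
      (Fintype.card (Quo G J) : K)⁻¹ • ∑ x : Quo G J, D.ρ (rep x) u.1 := by
    intro u
    show (((Fintype.card (Quo G J) : K)⁻¹ • (∑ x : Quo G J, D.actKer 1 (rep x)) u : D.kerPow 1) : D.V) = _
    rw [Submodule.coe_smul, LinearMap.sum_apply, Submodule.coe_sum]
    rfl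
  have hAinv : ∀ u : D.kerPow 1, ((A u : D.kerPow 1) : D.V) ∈ D.inv := by
    intro u
    rw [D.mem_inv]
    refine ⟨?_, fun i hi => ?_⟩
    · have := (D.mem_kerPow 1 _).1 (A u).2
      rwa [pow_one] at this
    · rw [hAval, map_smul, map_sum]
      congr 1
      let i' : G.deg.ker := ⟨i, (G.mem_ker i).2 hi⟩
      rw [← Equiv.sum_comp (MulAction.toPerm i' : Equiv.Perm (Quo G J)) (fun x => D.ρ (rep x) u.1)]
      refine Finset.sum_congr rfl fun x _ => ?_
      have h1 : D.ρ (rep ((MulAction.toPerm i' : Equiv.Perm (Quo G J)) x)) = D.ρ (i * rep x) := by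
        refine ρ_congr D hJ _ _ ?_
        have h2 : (MulAction.toPerm i' : Equiv.Perm (Quo G J)) x = ((i' * x.out : G.deg.ker) : Quo G J) := by
          show i' • x = _
          conv_lhs => rw [← QuotientGroup.out_eq' x]
          rfl
        rw [h2]
        exact rep_mk _
      rw [h1, map_mul]
      rfl
  have hAfix : ∀ u : D.kerPow 1, (u : D.V) ∈ D.inv → A u = u := by
    intro u hu
    refine Subtype.ext ?_
    rw [hAval]
    have h1 : ∀ x : Quo G J, D.ρ (rep x) u.1 = u.1 := fun x => hu.2 _ (d_rep x)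
    simp only [h1]
    rw [Finset.sum_const, Finset.card_univ, ← Nat.cast_smul_eq_nsmul K, smul_smul,
      inv_mul_cancel₀ hcard, one_smul]
  let p : Submodule K (D.kerPow 1) := Submodule.comap (D.kerPow 1).subtype D.inv
  have hBp : ∀ u, B u ∈ p := fun u => D.inv_map w _ (hAinv u)
  have hle : D.inv ≤ D.kerPow 1 := by
    intro v hv
    rw [D.mem_kerPow, pow_one]
    exact hv.1
  have h1 := LinearMap.trace_restrict_eq_of_forall_mem p B hBp
  have h2 : LinearMap.trace K p (B.restrict fun x _ => hBp x) = D.tau w := by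
    refine trace_conj_of (Submodule.comapSubtypeEquivOfLe hle) _ _ fun x => Subtype.ext ?_
    show ((B x.1 : D.kerPow 1) : D.V) = D.ρ w x.1.1
    have h3 : B x.1 = D.actKer 1 w x.1 := by
      show D.actKer 1 w (A x.1) = _
      rw [hAfix x.1 x.2]
    rw [h3]
    rfl
  rw [← h2, h1, hB, ← mul_assoc, mul_inv_cancel₀ hcard, one_mul]

/-- the number of cosets fixed by `w` -/
noncomputable def fixNum (E : Subgroup W) (w : W) : ℕ := Nat.card {x : W ⧸ E // w⁻¹ • x = x}

theorem kap_perm (D : WDRep G K) (E : Subgroup W) (hE : IsOpen (E : Set W)) (hf : Finite (W ⧸ E))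
    (w : W) : (D.perm E hE hf).kap 1 w = (fixNum E w : K) * D.kap 1 w := by
  classical
  have := Fintype.ofFinite (W ⧸ E)
  have h1 : (fixNum E w : K) = ∑ x : W ⧸ E, (if w⁻¹ • x = x then (1 : K) else 0) := by
    unfold fixNum
    rw [Nat.card_eq_fintype_card, Fintype.card_subtype, Finset.sum_boole]
  rw [h1]
  refine trace_pi_restrict (D.kerPow 1) ((D.perm E hE hf).kerPow 1) ?_
    (fun x y => if w⁻¹ • x = y then (1 : K) else 0) (D.ρ w) _ ((D.perm E hE hf).ρ w) (fun F x => ?_) _
  · intro F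
    constructor
    · intro h x
      have h' := ((D.perm E hE hf).mem_kerPow 1 F).1 h
      rw [pow_one] at h'
      rw [D.mem_kerPow, pow_one]
      exact congrFun h' x
    · intro h
      refine ((D.perm E hE hf).mem_kerPow 1 F).2 ?_
      rw [pow_one]
      funext x
      have := (D.mem_kerPow 1 _).1 (h x)
      rw [pow_one] at this
      exact this
  · show D.ρ w (F (w⁻¹ • x)) = ∑ y, (if w⁻¹ • x = y then (1 : K) else 0) • D.ρ w (F y)
    simp

/-- the subgroup generated by `w` and `J` -/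
def gen (w : W) (J : Subgroup W) : Subgroup W := Subgroup.zpowers w ⊔ J

theorem mem_gen {w : W} {J : Subgroup W} [J.Normal] {g : W} (hg : g ∈ gen w J) :
    ∃ k : ℤ, ∃ j ∈ J, g = w ^ k * j := by
  have h : (g : W) ∈ ((Subgroup.zpowers w ⊔ J : Subgroup W) : Set W) := hg
  rw [Subgroup.mul_normal] at h
  obtain ⟨a, ⟨k, rfl⟩, j, hj, rfl⟩ := h
  exact ⟨k, j, hj, rfl⟩

theorem isOpen_gen (w : W) (J : Subgroup W) (hJ : IsOpen (J : Set W)) :
    IsOpen (gen w J : Set W) := Subgroup.isOpen_mono le_sup_right hJ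

theorem finite_gen (w : W) (hw : 1 ≤ G.d w) (J : Subgroup W) [J.Normal] (hJ : IsOpen (J : Set W)) :
    Finite (W ⧸ gen w J) := by
  have := finite_quo (G := G) J hJ
  let f : Quo G J × Fin (G.d w).toNat → W ⧸ gen w J := fun y =>
    ((rep y.1 * G.frob ^ (y.2 : ℕ) : W) : W ⧸ gen w J)
  refine Finite.of_surjective f fun z => ?_
  induction z using QuotientGroup.induction_on with
  | H g =>
    set n := G.d g with hn
    have hpos : 0 < G.d w := by omega
    have hr0 := Int.emod_nonneg n hpos.ne'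
    have hr1 := Int.emod_lt_of_pos n hpos
    have hdiv := Int.emod_add_mul_ediv n (G.d w)
    let a : ℕ := (n % G.d w).toNat
    have ha : (a : ℤ) = n % G.d w := Int.toNat_of_nonneg hr0
    -- `g' = g w ^ (-k)` has degree `a`
    let g' : W := g * w ^ (-(n / G.d w))
    have hg' : G.d g' = a := by
      show G.d (g * w ^ (-(n / G.d w))) = a
      rw [G.d_mul, G.d_zpow, ha, ← hn]
      have : n / G.d w * G.d w = G.d w * (n / G.d w) := mul_comm _ _
      linarith [hdiv, neg_mul (n / G.d w) (G.d w)]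
    let i : G.deg.ker := ⟨g' * (G.frob ^ a)⁻¹, (G.mem_ker _).2 (by
      rw [G.d_mul, hg', G.d_inv, G.d_pow, G.d_frob]; ring)⟩
    refine ⟨((i : Quo G J), ⟨a, by omega⟩), ?_⟩
    show ((rep (i : Quo G J) * G.frob ^ a : W) : W ⧸ gen w J) = (g : W ⧸ gen w J)
    rw [QuotientGroup.eq]
    have h1 : (rep (i : Quo G J) * G.frob ^ a)⁻¹ * g =
        ((G.frob ^ a)⁻¹ * ((rep (i : Quo G J))⁻¹ * (i : W)) * ((G.frob ^ a)⁻¹)⁻¹) * w ^ (n / G.d w) := by
      show _ = ((G.frob ^ a)⁻¹ * ((rep (i : Quo G J))⁻¹ * (g * w ^ (-(n / G.d w)) * (G.frob ^ a)⁻¹)) *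
        ((G.frob ^ a)⁻¹)⁻¹) * w ^ (n / G.d w)
      rw [zpow_neg]
      group
    rw [h1]
    refine (gen w J).mul_mem ?_ ?_
    · exact (le_sup_right : J ≤ gen w J) ((inferInstance : J.Normal).conj_mem _ (rep_mk i) _)
    · exact (le_sup_left : Subgroup.zpowers w ≤ gen w J) ⟨n / G.d w, rfl⟩

/-- the constant of the permutation formula -/
noncomputable def permSum (J : Subgroup W) [Fintype (Quo G J)] (w : W) : ℕ :=
  ∑ x : Quo G J, fixNum (gen w J) (w * rep x)

theorem permSum_ne_zero (J : Subgroup W) [J.Normal] [Fintype (Quo G J)] (w : W)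
    (hf : Finite (W ⧸ gen w J)) : permSum (G := G) J w ≠ 0 := by
  unfold permSum
  intro h
  rw [Finset.sum_eq_zero_iff] at h
  have h1 := h ((1 : G.deg.ker) : Quo G J) (Finset.mem_univ _)
  unfold fixNum at h1
  have : Nonempty {x : W ⧸ gen w J // (w * rep ((1 : G.deg.ker) : Quo G J))⁻¹ • x = x} := by
    refine ⟨((1 : W) : W ⧸ gen w J), ?_⟩
    have hr := rep_mk (G := G) (J := J) 1
    have hr' : rep ((1 : G.deg.ker) : Quo G J) ∈ J := by
      have : (rep ((1 : G.deg.ker) : Quo G J))⁻¹ ∈ J := by simpa using hr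
      exact (Subgroup.inv_mem_iff J).1 this
    show (((w * rep ((1 : G.deg.ker) : Quo G J))⁻¹ * 1 : W) : W ⧸ gen w J) = ((1 : W) : W ⧸ gen w J)
    rw [QuotientGroup.eq, mul_one, mul_one, inv_inv]
    exact (gen w J).mul_mem ((le_sup_left : Subgroup.zpowers w ≤ gen w J) (Subgroup.mem_zpowers w))
      ((le_sup_right : J ≤ gen w J) hr')
  rw [Nat.card_eq_zero] at h1
  rcases h1 with h1 | h1
  · exact h1.false this.some
  · exact h1.not_finite (Subtype.finite)

theorem card_mul_tau_perm (D : WDRep G K) (J : Subgroup W) [J.Normal] (hJd : ∀ w ∈ J, G.d w = 0)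
    (hJ : ∀ w ∈ J, D.ρ w = 1) [Fintype (Quo G J)] (w : W) (hw : 1 ≤ G.d w)
    (hE : IsOpen (gen w J : Set W)) (hf : Finite (W ⧸ gen w J)) :
    (Fintype.card (Quo G J) : K) * (D.perm (gen w J) hE hf).tau w =
      (permSum (G := G) J w : K) * D.kap 1 w := by
  have hJE : ∀ j ∈ J, (D.perm (gen w J) hE hf).ρ j = 1 := by
    intro j hj
    refine LinearMap.ext fun F => ?_
    funext x
    show D.ρ j (F (j⁻¹ • x)) = F x
    rw [hJ j hj]
    have : j⁻¹ • x = x := by
      induction x using QuotientGroup.induction_on with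
      | H g =>
        show ((j⁻¹ * g : W) : W ⧸ gen w J) = (g : W ⧸ gen w J)
        rw [QuotientGroup.eq]
        have h1 : (j⁻¹ * g)⁻¹ * g = g⁻¹ * j * (g⁻¹)⁻¹ := by group
        rw [h1]
        exact (le_sup_right : J ≤ gen w J) ((inferInstance : J.Normal).conj_mem _ hj _)
    rw [this]
    rfl
  rw [card_mul_tau (D.perm (gen w J) hE hf) J hJE w]
  unfold permSum
  push_cast
  rw [Finset.sum_mul]
  refine Finset.sum_congr rfl fun x _ => ?_
  rw [kap_perm]
  by_cases h0 : fixNum (gen w J) (w * rep x) = 0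
  · rw [h0]; simp
  · congr 1
    unfold fixNum at h0
    obtain ⟨⟨⟨z, hz⟩⟩, _⟩ := Nat.card_ne_zero.1 h0
    revert hz
    induction z using QuotientGroup.induction_on with
    | H g =>
      intro hz
      have hz' : (((w * rep x)⁻¹ * g : W) : W ⧸ gen w J) = (g : W ⧸ gen w J) := hz
      rw [QuotientGroup.eq] at hz'
      have h1 : ((w * rep x)⁻¹ * g)⁻¹ * g = g⁻¹ * (w * rep x) * (g⁻¹)⁻¹ := by group
      rw [h1] at hz'
      obtain ⟨k, j, hj, hk⟩ := mem_gen hz'
      have hdeg := congrArg G.d hk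
      simp only [G.d_mul, G.d_inv, d_rep, hJd j hj, G.d_zpow] at hdeg
      have hk1 : k = 1 := by
        have h2 : G.d w = k * G.d w := by
          generalize k * G.d w = t at hdeg ⊢
          omega
        have h3 : (k - 1) * G.d w = 0 := by rw [sub_mul, one_mul, ← h2, sub_self]
        rcases mul_eq_zero.1 h3 with h4 | h4
        · omega
        · omega
      rw [hk1, zpow_one] at hk
      have h2 : w * rep x = g * (w * j) * g⁻¹ := by rw [← hk]; group
      rw [h2, D.kap_conj]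
      refine D.kap_of_eq 1 _ _ ?_
      rw [map_mul, hJ j hj, mul_one]

end Pool.Agent.X310.WD
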