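import Pool.Agent.X310.WdF

set_option autoImplicit false
set_option linter.unusedSectionVars false

/-! # Pairs of Weil–Deligne representations -/

namespace Pool.Agent.X310.WD

open Polynomial

variable {W : Type} [Group W] [TopologicalSpace W] [IsTopologicalGroup W] {G : WeilData W}
  {K₁ K₂ : Type} [Field K₁] [Field K₂] [CharZero K₁] [CharZero K₂]

/-- the Euler factors of two representations are the same rational polynomial: in terms of traces -/
def SameEuler (D₁ : WDRep G K₁) (D₂ : WDRep G K₂) : Prop :=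
  ∀ w : W, 1 ≤ G.d w → RatPair (D₁.tau w) (D₂.tau w)

/-- the traces on the kernel of `N ^ m` are common rational numbers, positive degrees -/
def SameKap (m : ℕ) (D₁ : WDRep G K₁) (D₂ : WDRep G K₂) : Prop :=
  ∀ w : W, 1 ≤ G.d w → RatPair (D₁.kap m w) (D₂.kap m w)

theorem tau_eq_trace_pow {K : Type} [Field K] (D : WDRep G K) (w : W) (hw : 1 ≤ G.d w) :
    D.tau w = LinearMap.trace K D.inv (D.actInv G.frob ^ (G.d w).toNat) := by
  rw [← D.actInv_pow]
  refine D.tau_congr _ _ ?_
  rw [G.d_pow, G.d_frob, mul_one, Int.toNat_of_nonneg (by omega)]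

theorem sameEuler_iff (D₁ : WDRep G K₁) (D₂ : WDRep G K₂) :
    SameEuler D₁ D₂ ↔ ∀ k, RatPair (D₁.euler.coeff k) (D₂.euler.coeff k) := by
  constructor
  · intro h
    refine coeff_of_traces _ _ fun k hk => ?_
    have h1 := h (G.frob ^ k) (by rw [G.d_pow, G.d_frob]; omega)
    unfold WDRep.tau at h1
    rw [D₁.actInv_pow, D₂.actInv_pow] at h1
    exact h1
  · intro h w hw
    rw [tau_eq_trace_pow D₁ w hw, tau_eq_trace_pow D₂ w hw]
    exact traces_of_coeff _ _ h _ (by omega)

/-- traces of all elements from those of positive degree -/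
theorem SameKap.all {m : ℕ} {D₁ : WDRep G K₁} {D₂ : WDRep G K₂} (h : SameKap m D₁ D₂) (w : W) :
    RatPair (D₁.kap m w) (D₂.kap m w) := by
  let s : ℕ := 1 + (G.d w).natAbs
  let z : W := G.frob ^ s
  have hz : G.d z = s := by show G.d (G.frob ^ s) = s; rw [G.d_pow, G.d_frob, mul_one]
  have hs : (s : ℤ) = 1 + |G.d w| := by
    show ((1 + (G.d w).natAbs : ℕ) : ℤ) = _
    push_cast
    rfl
  have hunit : ∀ {K : Type} [Field K] (D : WDRep G K), IsUnit (D.actKer m z) := by
    intro K _ D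
    refine ⟨⟨D.actKer m z, D.actKer m z⁻¹, ?_, ?_⟩, rfl⟩
    · rw [← D.actKer_mul, mul_inv_cancel, D.actKer_one]
    · rw [← D.actKer_mul, inv_mul_cancel, D.actKer_one]
  refine trace_extend (D₁.actKer m z) (D₂.actKer m z) (hunit D₁) (hunit D₂) _ _ ?_ ?_
  · intro k hk
    rw [← D₁.actKer_pow, ← D₂.actKer_pow]
    refine h (z ^ k) ?_
    rw [G.d_pow, hz, hs]
    have : (1 : ℤ) ≤ k := by exact_mod_cast hk
    nlinarith [abs_nonneg (G.d w)]
  · intro k hk
    rw [← D₁.actKer_pow, ← D₂.actKer_pow, ← D₁.actKer_mul, ← D₂.actKer_mul]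
    refine h (w * z ^ k) ?_
    rw [G.d_mul, G.d_pow, hz, hs]
    have : (1 : ℤ) ≤ k := by exact_mod_cast hk
    have h2 := neg_abs_le (G.d w)
    nlinarith [abs_nonneg (G.d w)]

/-- Euler factors from the traces of the Weil group on the kernel of `N` -/
theorem sameEuler_of_kap {D₁ : WDRep G K₁} {D₂ : WDRep G K₂} (h : SameKap 1 D₁ D₂) :
    SameEuler D₁ D₂ := by
  intro w hw
  obtain ⟨J, hJn, hJo, hJd, hJ1, hJ2⟩ := exists_J D₁ D₂
  have := finite_quo (G := G) J hJo
  have := Fintype.ofFinite (Quo G J)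
  have hcard : (Fintype.card (Quo G J) : ℚ) ≠ 0 := by
    have : Nonempty (Quo G J) := ⟨((1 : G.deg.ker) : Quo G J)⟩
    exact_mod_cast Fintype.card_ne_zero
  refine RatPair.cancel hcard ?_
  push_cast
  rw [card_mul_tau D₁ J hJ1 w, card_mul_tau D₂ J hJ2 w]
  refine ratPair_sum _ _ _ fun x _ => h _ ?_
  rw [G.d_mul, d_rep]
  omega

/-- the traces of the Weil group on the kernel of `N` from the Euler factors over all finite
extensions -/
theorem sameKap_of_euler {D₁ : WDRep G K₁} {D₂ : WDRep G K₂}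
    (h : ∀ (E : Subgroup W) (hE : IsOpen (E : Set W)) (hf : Finite (W ⧸ E)),
      SameEuler (D₁.perm E hE hf) (D₂.perm E hE hf)) : SameKap 1 D₁ D₂ := by
  intro w hw
  obtain ⟨J, hJn, hJo, hJd, hJ1, hJ2⟩ := exists_J D₁ D₂
  have := finite_quo (G := G) J hJo
  have := Fintype.ofFinite (Quo G J)
  have hE := isOpen_gen w J hJo
  have hf := finite_gen (G := G) w hw J hJo
  have hne : ((permSum (G := G) J w : ℕ) : ℚ) ≠ 0 := by exact_mod_cast permSum_ne_zero J w hf
  refine RatPair.cancel hne ?_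
  have h1 := card_mul_tau_perm D₁ J hJd hJ1 w hw hE hf
  have h2 := card_mul_tau_perm D₂ J hJd hJ2 w hw hE hf
  push_cast
  rw [← h1, ← h2]
  exact RatPair.mul ⟨(Fintype.card (Quo G J) : ℚ), by push_cast; rfl, by push_cast; rfl⟩ (h _ hE hf w hw)

end Pool.Agent.X310.WD
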