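import Pool.Agent.X310.WdG

set_option autoImplicit false
set_option linter.unusedSectionVars false

/-! # Integrality of characteristic polynomials -/

namespace Pool.Agent.X310.WD

open Polynomial Matrix

/-- a root of the characteristic polynomial is a root of each polynomial which kills `h` -/
theorem root_of_kill {F K : Type} [Field F] [Field K] [Algebra F K] {Z : Type} [AddCommGroup Z]
    [Module F Z] [Module.Finite F Z] (h : Module.End F Z) (p : F[X]) (hp : aeval h p = 0) (α : K)
    (hα : aeval α h.charpoly = 0) : aeval α p = 0 := by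
  classical
  let b := Module.finBasis F Z
  obtain ⟨A, hA⟩ : ∃ A, A = LinearMap.toMatrixAlgEquiv b h := ⟨_, rfl⟩
  have h1 : A.charpoly = h.charpoly := by rw [hA]; exact LinearMap.charpoly_toMatrix h b
  have h2 : aeval A p = 0 := by
    rw [hA, Polynomial.aeval_algHom_apply, hp, map_zero]
  let ψ : Matrix (Fin (Module.finrank F Z)) (Fin (Module.finrank F Z)) F →+*
    Matrix (Fin (Module.finrank F Z)) (Fin (Module.finrank F Z)) K := (algebraMap F K).mapMatrix
  have h3 : aeval (ψ A) (p.map (algebraMap F K)) = 0 := by
    rw [← Polynomial.map_aeval_eq_aeval_map (φ := algebraMap F K) (ψ := ψ) _ p A, h2, map_zero]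
    ext c i j
    simp only [ψ, RingHom.comp_apply, RingHom.mapMatrix_apply, Matrix.algebraMap_matrix_apply,
      Matrix.map_apply]
    split_ifs <;> simp
  have h4 : (toLin' (ψ A)).charpoly = h.charpoly.map (algebraMap F K) := by
    rw [Matrix.charpoly_toLin', ← h1, ← Matrix.charpoly_map]
    rfl
  have h5 : Module.End.HasEigenvalue (toLin' (ψ A)) α := by
    rw [Module.End.hasEigenvalue_iff_isRoot_charpoly, h4, IsRoot.def, eval_map_algebraMap]
    exact hα
  obtain ⟨v, hv⟩ := h5.exists_hasEigenvector
  have h6 := Module.End.aeval_apply_of_hasEigenvector (p := p.map (algebraMap F K)) hv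
  have h7 : aeval (toLin' (ψ A)) (p.map (algebraMap F K)) = 0 := by
    have h8 := Polynomial.aeval_algHom_apply (toLinAlgEquiv' : Matrix (Fin (Module.finrank F Z))
      (Fin (Module.finrank F Z)) K ≃ₐ[K] _) (ψ A) (p.map (algebraMap F K))
    rw [h3, map_zero] at h8
    exact h8
  rw [h7, LinearMap.zero_apply, eval_map_algebraMap] at h6
  exact (smul_eq_zero.1 h6.symm).resolve_right hv.2

variable {K : Type} [Field K] {U : Type} [AddCommGroup U] [Module K U] [Module.Finite K U]

theorem charpoly_coeff_integral (f : Module.End K U) (p : ℤ[X]) (hp : p.Monic)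
    (h : aeval f (p.map (Int.castRingHom K)) = 0) (n : ℕ) : IsIntegral ℤ (f.charpoly.coeff n) := by
  let L := AlgebraicClosure K
  have hs : (f.charpoly.map (algebraMap K L)).Splits := IsAlgClosed.splits _
  have hm : (f.charpoly.map (algebraMap K L)).Monic := (LinearMap.charpoly_monic f).map _
  have hprod := hs.eq_prod_roots_of_monic hm
  have hroot : ∀ α ∈ (f.charpoly.map (algebraMap K L)).roots, IsIntegral ℤ α := by
    intro α hα
    rw [mem_roots hm.ne_zero, IsRoot.def, eval_map_algebraMap] at hα
    have h1 := root_of_kill f _ h α hα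
    refine ⟨p, hp, ?_⟩
    rw [aeval_def, eval₂_map] at h1
    have h2 : (algebraMap K L).comp (Int.castRingHom K) = algebraMap ℤ L := RingHom.ext_int _ _
    rw [h2] at h1
    exact h1
  have hl : f.charpoly.map (algebraMap K L) ∈ lifts (algebraMap (integralClosure ℤ L) L) := by
    rw [hprod]
    refine multiset_prod_mem _ fun q hq => ?_
    rw [Multiset.mem_map] at hq
    obtain ⟨α, hα, rfl⟩ := hq
    refine ⟨X - C ⟨α, hroot α hα⟩, ?_⟩
    simp
  rw [lifts_iff_coeff_lifts] at hl
  obtain ⟨y, hy⟩ := hl n
  rw [coeff_map] at hy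
  have h2 : IsIntegral ℤ (algebraMap K L (f.charpoly.coeff n)) := by
    rw [← hy]; exact y.2
  exact (isIntegral_algebraMap_iff (algebraMap K L).injective).1 h2

/-- a rational number whose image in a field of characteristic zero is integral is an integer -/
theorem int_of_integral [CharZero K] (c : ℚ) (h : IsIntegral ℤ (c : K)) : ∃ n : ℤ, (n : ℚ) = c := by
  have h1 : IsIntegral ℤ c := by
    have : (c : K) = algebraMap ℚ K c := rfl
    rw [this] at h
    exact (isIntegral_algebraMap_iff (algebraMap ℚ K).injective).1 h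
  obtain ⟨n, hn⟩ := IsIntegrallyClosed.isIntegral_iff.1 h1
  exact ⟨n, by simpa using hn⟩

end Pool.Agent.X310.WD
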