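import Pool.Agent.X310.WdV

set_option autoImplicit false
set_option linter.unusedSectionVars false

/-! # The realisations of motives at a prime -/

namespace Pool.Agent.X310.WD

open Polynomial

variable {W : Type} [Group W] [TopologicalSpace W] [IsTopologicalGroup W]

/-- The Weil–Deligne representations attached to the `ℓ`-adic realisations (`ℓ` in the index set
`Λ`, coefficients `K ℓ`) of Chow motives over `ℚ` at a prime `p`, for a class of motives stable
under Tate twists and under the tensor products with the motives of the spectra of number fields,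
with `h ^ 1` of an elliptic curve having split multiplicative reduction at `p` and with `h ^ 1`
of an elliptic curve having good ordinary reduction at `p`. -/
structure Motives (G : WeilData W) (Λ : Type) (K : Λ → Type) [∀ l, Field (K l)]
    [∀ l, CharZero (K l)] where
  /-- the motives -/
  Mot : Type
  /-- the realisation in degree `i` -/
  V : Mot → ℤ → (l : Λ) → WDRep G (K l)
  twist : ∀ M : Mot, ∃ M' : Mot, ∀ i l, Nonempty (Iso (V M' i l) ((V M (i + 2) l).tate (-1)))
  untwist : ∀ M : Mot, ∃ M' : Mot, ∀ i l, Nonempty (Iso (V M' i l) ((V M (i - 2) l).tate 1))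
  ext : ∀ (M : Mot) (E : Subgroup W) (hE : IsOpen (E : Set W)) (hf : Finite (W ⧸ E)),
    ∃ M' : Mot, ∀ i l, Nonempty (Iso (V M' i l) ((V M i l).perm E hE hf))
  timesTateCurve : ∀ M : Mot, ∃ M' : Mot, ∀ i l,
    Nonempty (Iso (V M' (i + 1) l) (V M i l).tateCurve)
  /-- the matrix of Frobenius on `H ^ 1` of an ordinary elliptic curve -/
  ord : GL (Fin 2) ℚ
  ord_trace : ∀ k : ℕ, 1 ≤ k → ((ord ^ k : GL (Fin 2) ℚ) : Matrix (Fin 2) (Fin 2) ℚ).trace ≠ 0
  timesOrdinary : ∀ M : Mot, ∃ M' : Mot, ∀ i l,
    Nonempty (Iso (V M' (i + 1) l) ((V M i l).unram ord))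

variable {G : WeilData W} {Λ : Type} {K : Λ → Type} [∀ l, Field (K l)] [∀ l, CharZero (K l)]
  (S : Motives G Λ K)

theorem mot_up (l l' : Λ) (h : ∀ M, SameEuler (S.V M 0 l) (S.V M 0 l')) (n : ℕ) :
    ∀ M, SameEuler (S.V M (2 * n) l) (S.V M (2 * n) l') := by
  induction n with
  | zero => intro M; simpa using h M
  | succ n ih =>
    intro M
    obtain ⟨M', hM'⟩ := S.twist M
    have h1 := (ih M').congr' (hM' _ l) (hM' _ l')
    rw [sameEuler_tate] at h1
    have e : (2 * (n : ℤ)) + 2 = 2 * ((n + 1 : ℕ) : ℤ) := by push_cast; ring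
    rwa [e] at h1

theorem mot_down (l l' : Λ) (h : ∀ M, SameEuler (S.V M 0 l) (S.V M 0 l')) (n : ℕ) :
    ∀ M, SameEuler (S.V M (-(2 * n)) l) (S.V M (-(2 * n)) l') := by
  induction n with
  | zero => intro M; simpa using h M
  | succ n ih =>
    intro M
    obtain ⟨M', hM'⟩ := S.untwist M
    have h1 := (ih M').congr' (hM' _ l) (hM' _ l')
    rw [sameEuler_tate] at h1
    have e : -(2 * (n : ℤ)) - 2 = -(2 * ((n + 1 : ℕ) : ℤ)) := by push_cast; ring
    rwa [e] at h1

theorem mot_even (l l' : Λ) (h : ∀ M, SameEuler (S.V M 0 l) (S.V M 0 l')) (i : ℤ) (hi : Even i) :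
    ∀ M, SameEuler (S.V M i l) (S.V M i l') := by
  obtain ⟨k, rfl⟩ := hi
  rcases le_total 0 k with hk | hk
  · obtain ⟨n, hn⟩ := Int.eq_ofNat_of_zero_le hk
    have e : k + k = 2 * (n : ℤ) := by rw [hn]; ring
    rw [e]
    exact mot_up S l l' h n
  · obtain ⟨n, hn⟩ := Int.eq_ofNat_of_zero_le (neg_nonneg.2 hk)
    have e : k + k = -(2 * (n : ℤ)) := by
      have : k = -(n : ℤ) := by omega
      rw [this]; ring
    rw [e]
    exact mot_down S l l' h n

theorem mot_all (l l' : Λ) (h : ∀ M, SameEuler (S.V M 0 l) (S.V M 0 l')) (i : ℤ) :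
    ∀ M, SameEuler (S.V M i l) (S.V M i l') := by
  intro M
  rcases Int.even_or_odd i with hi | hi
  · exact mot_even S l l' h i hi M
  · obtain ⟨M', hM'⟩ := S.timesOrdinary M
    have h1 := (mot_even S l l' h (i + 1) hi.add_one M').congr' (hM' i l) (hM' i l')
    exact sameEuler_unram S.ord S.ord_trace h1

theorem mot_kap (l l' : Λ) (h : ∀ i M, SameEuler (S.V M i l) (S.V M i l')) (m : ℕ) :
    ∀ i M, SameKap m (S.V M i l) (S.V M i l') := by
  induction m using Nat.strong_induction_on with
  | _ m ih =>
    rcases m with _ | m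
    · intro i M w hw
      rw [WDRep.kap_zero, WDRep.kap_zero]
      exact ⟨0, by simp, by simp⟩
    · rcases m with _ | m
      · intro i M
        refine sameKap_of_euler fun E hE hf => ?_
        obtain ⟨M', hiso⟩ := S.ext M E hE hf
        exact (h i M').congr' (hiso i l) (hiso i l')
      · intro i M w hw
        obtain ⟨M', hiso⟩ := S.timesTateCurve M
        have h1 := (ih (m + 1) (by omega) (i + 1) M').congr' (hiso i l) (hiso i l') w hw
        rw [kap_tateCurve, kap_tateCurve] at h1
        have h4 := (ratPair_zpow (K₁ := K l) (K₂ := K l') G.q (G.d w)).mul (ih m (by omega) i M w hw)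
        have h5 := h1.sub h4
        rw [add_sub_cancel_right, add_sub_cancel_right] at h5
        exact h5

/-- **Main theorem for motives** -/
theorem motive_tfae : List.TFAE [
    ∀ M, RationalEuler fun l => S.V M 0 l,
    ∀ M i, RationalEuler fun l => S.V M i l,
    ∀ M i, RationalWD fun l => S.V M i l] := by
  tfae_have 1 → 3 := by
    intro h M i
    rw [rationalWD_iff]
    intro m l l'
    exact mot_kap S l l' (fun i M => mot_all S l l' (fun M => (rationalEuler_iff _).1 (h M) l l') i M)
      m i M
  tfae_have 3 → 2 := by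
    intro h M i
    refine (rationalEuler_iff _).2 fun l l' => ?_
    exact sameEuler_of_kap ((rationalWD_iff _).1 (h M i) 1 l l')
  tfae_have 2 → 1 := fun h M => h M _
  tfae_finish

end Pool.Agent.X310.WD
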