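import Pool.Agent.X310.WdA

set_option autoImplicit false

/-! # Weil–Deligne representations by matrices: the definitions of the statements -/

namespace Pool.Agent.X310.WD

open Polynomial Matrix

section

variable {K : Type} [Field K]

/-- `A` is the matrix of the restriction of `F` to the subspace `U` in a basis of `U` (the columns
of `B`) -/
def IsRestriction {n m : ℕ} (U : Submodule K (Fin n → K)) (F : Matrix (Fin n) (Fin n) K)
    (A : Matrix (Fin m) (Fin m) K) : Prop :=
  ∃ B : Matrix (Fin n) (Fin m) K, Function.Injective B.mulVecLin ∧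
    LinearMap.range B.mulVecLin = U ∧ F * B = B * A

/-- `P = det (1 - T F | U)` -/
def IsEulerPoly {n : ℕ} (U : Submodule K (Fin n → K)) (F : Matrix (Fin n) (Fin n) K) (P : K[X]) :
    Prop :=
  ∃ (m : ℕ) (A : Matrix (Fin m) (Fin m) K), IsRestriction U F A ∧ A.charpolyRev = P

/-- `t` is the trace of `F` on `U` -/
def IsTraceOn {n : ℕ} (U : Submodule K (Fin n → K)) (F : Matrix (Fin n) (Fin n) K) (t : K) : Prop :=
  ∃ (m : ℕ) (A : Matrix (Fin m) (Fin m) K), IsRestriction U F A ∧ A.trace = t

/-- the vectors killed by `N` and fixed by all matrices of the set `S` -/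
def invariants {n : ℕ} (N : Matrix (Fin n) (Fin n) K) (S : Set (Matrix (Fin n) (Fin n) K)) :
    Submodule K (Fin n → K) :=
  LinearMap.ker N.mulVecLin ⊓ ⨅ A ∈ S, LinearMap.ker (A - 1).mulVecLin

end

section

variable {W : Type} [Group W] [TopologicalSpace W]

/-- A Weil–Deligne representation on `K ^ n`: a smooth action of the Weil group and a nilpotent
matrix `N` with `N ρ(w) = q ^ deg w ρ(w) N`. -/
structure Rep (G : WeilData W) (K : Type) [Field K] where
  /-- the dimension -/
  n : ℕ
  /-- the action of the Weil group -/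
  ρ : W →* Matrix (Fin n) (Fin n) K
  /-- the monodromy matrix -/
  N : Matrix (Fin n) (Fin n) K
  nilp : ∃ m : ℕ, N ^ m = 0
  comm : ∀ w, N * ρ w = (G.q : K) ^ (G.d w) • (ρ w * N)
  smooth : ∃ J : Subgroup W, IsOpen (J : Set W) ∧ ∀ w ∈ J, G.d w = 0 ∧ ρ w = 1

variable {G : WeilData W} {K : Type} [Field K]

/-- `P` is the Euler polynomial `det (1 - T Frob | (ker N) ^ I)` of `D` -/
def Rep.IsEuler (D : Rep G K) (P : K[X]) : Prop :=
  IsEulerPoly (invariants D.N (D.ρ '' {w | G.d w = 0})) (D.ρ G.frob) P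

/-- `t` is the trace of `w` on the kernel of `N ^ m` -/
def Rep.IsKerTrace (D : Rep G K) (m : ℕ) (w : W) (t : K) : Prop :=
  IsTraceOn (LinearMap.ker (D.N ^ m).mulVecLin) (D.ρ w) t

/-- `Y` is isomorphic to the representation on `K ^ ι` in which `w` acts by the matrix `R w` and the
monodromy operator is the matrix `M` -/
def Rep.IsConj (Y : Rep G K) {ι : Type} [Fintype ι] [DecidableEq ι] (R : W → Matrix ι ι K)
    (M : Matrix ι ι K) : Prop :=
  ∃ (P : Matrix (Fin Y.n) ι K) (Q : Matrix ι (Fin Y.n) K), P * Q = 1 ∧ Q * P = 1 ∧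
    (∀ w, Y.ρ w * P = P * R w) ∧ Y.N * P = P * M

/-- `Y` is isomorphic to the direct sum of `A` and `B` -/
def IsSum (Y A B : Rep G K) : Prop :=
  Y.IsConj (fun w => fromBlocks (A.ρ w) 0 0 (B.ρ w)) (fromBlocks A.N 0 0 B.N)

/-- `Y` is isomorphic to the Tate twist `A(-r)`: `ρ(w)` is multiplied by `q ^ (r deg w)` -/
def IsTwist (r : ℤ) (Y A : Rep G K) : Prop :=
  Y.IsConj (fun w => (G.q : K) ^ (r * G.d w) • A.ρ w) A.N

/-- `Y` is isomorphic to the tensor product of `A` with `H ^ 1` of an elliptic curve with split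
multiplicative reduction: basis `e₀, e₁` with Frobenius eigenvalues `1, q` and `N e₁ = e₀` -/
def IsTateCurve (Y A : Rep G K) : Prop :=
  Y.IsConj (fun w => fromBlocks (A.ρ w) 0 0 ((G.q : K) ^ (G.d w) • A.ρ w)) (fromBlocks A.N 1 0 A.N)

/-- `Y` is isomorphic to the tensor product of `A` with the unramified representation in which
Frobenius acts by the rational matrix `C` -/
def IsUnram {m : ℕ} (C : GL (Fin m) ℚ) (Y A : Rep G K) : Prop :=
  Y.IsConj (fun w => of fun (x y : Fin m × Fin A.n) =>
      (((C ^ (G.d w) : GL (Fin m) ℚ) : Matrix (Fin m) (Fin m) ℚ) x.1 y.1 : K) * A.ρ w x.2 y.2)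
    (of fun (x y : Fin m × Fin A.n) => if x.1 = y.1 then A.N x.2 y.2 else 0)

open scoped Classical in
/-- `Y` is isomorphic to the tensor product of `A` with the functions on the finite set `W ⧸ E` -/
def IsPerm (E : Subgroup W) [Fintype (W ⧸ E)] (Y A : Rep G K) : Prop :=
  Y.IsConj (fun w => of fun (x y : (W ⧸ E) × Fin A.n) =>
      if w⁻¹ • x.1 = y.1 then A.ρ w x.2 y.2 else 0)
    (of fun (x y : (W ⧸ E) × Fin A.n) => if x.1 = y.1 then A.N x.2 y.2 else 0)

/-- the Künneth formula for the product with a curve of genus one: `Y ≅ A ⊕ B' ⊕ C(-1)`, with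
`B'` related to `B` by `P` -/
def ProductWithCurve (P : Rep G K → Rep G K → Prop) (Y A B C : Rep G K) : Prop :=
  ∃ B' C' S : Rep G K, P B' B ∧ IsTwist 1 C' C ∧ IsSum S A B' ∧ IsSum Y S C'

/-- the Euler factors are one polynomial with integer coefficients for all `ℓ` -/
def IntegralFactors {Λ : Type} {K : Λ → Type} [∀ l, Field (K l)] (D : ∀ l, Rep G (K l)) : Prop :=
  ∃ P : ℤ[X], ∀ l, (D l).IsEuler (P.map (Int.castRingHom (K l)))

/-- the Euler factors are one polynomial with rational coefficients for all `ℓ` -/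
def RationalFactors {Λ : Type} {K : Λ → Type} [∀ l, Field (K l)] [∀ l, CharZero (K l)]
    (D : ∀ l, Rep G (K l)) : Prop :=
  ∃ P : ℚ[X], ∀ l, (D l).IsEuler (P.map (algebraMap ℚ (K l)))

/-- the traces of the whole Weil group on the kernels of all powers of the monodromy operator are
rational numbers which do not depend on `ℓ` -/
def RationalTraces {Λ : Type} {K : Λ → Type} [∀ l, Field (K l)] (D : ∀ l, Rep G (K l)) : Prop :=
  ∀ (m : ℕ) (w : W), ∃ c : ℚ, ∀ l, (D l).IsKerTrace m w c

end

/-- The Weil–Deligne representations attached to the `ℓ`-adic cohomology (`ℓ` in the index set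
`Λ`, coefficients `K ℓ`) of a class of smooth projective varieties over `ℚ` at a prime `p`, with
the known facts used: hard Lefschetz, the products of `X` with the projective line, with the
spectra of number fields, with an elliptic curve having split multiplicative reduction at `p` and
with an elliptic curve having good ordinary reduction at `p`, and the integrality of Frobenius. -/
structure VarietyClass {W : Type} [Group W] [TopologicalSpace W] (G : WeilData W) (Λ : Type)
    (K : Λ → Type) [∀ l, Field (K l)] where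
  /-- the varieties -/
  Var : Type
  /-- the dimension -/
  dim : Var → ℕ
  /-- the cohomology `H ^ i` -/
  H : Var → ℤ → (l : Λ) → Rep G (K l)
  lefschetz : ∀ (X : Var) (j : ℕ) (l : Λ), IsTwist j (H X (dim X + j) l) (H X (dim X - j) l)
  line : ∀ X : Var, ∃ Y : Var, dim Y = dim X + 1 ∧ ∀ i l,
    ∃ C, IsTwist 1 C (H X (i - 2) l) ∧ IsSum (H Y i l) (H X i l) C
  ext : ∀ (X : Var) (E : Subgroup W) [Fintype (W ⧸ E)], IsOpen (E : Set W) →
    ∃ Y : Var, dim Y = dim X ∧ ∀ i l, IsPerm E (H Y i l) (H X i l)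
  timesTateCurve : ∀ X : Var, ∃ Y : Var, dim Y = dim X + 1 ∧ ∀ i l,
    ProductWithCurve IsTateCurve (H Y i l) (H X i l) (H X (i - 1) l) (H X (i - 2) l)
  /-- the matrix of Frobenius on `H ^ 1` of an ordinary elliptic curve -/
  ord : GL (Fin 2) ℚ
  ord_trace : ∀ k : ℕ, 1 ≤ k → ((ord ^ k : GL (Fin 2) ℚ) : Matrix (Fin 2) (Fin 2) ℚ).trace ≠ 0
  timesOrdinary : ∀ X : Var, ∃ Y : Var, dim Y = dim X + 1 ∧ ∀ i l,
    ProductWithCurve (IsUnram ord) (H Y i l) (H X i l) (H X (i - 1) l) (H X (i - 2) l)
  integral : ∀ X i l, ∃ P : ℤ[X], P.Monic ∧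
    aeval ((H X i l).ρ G.frob) (P.map (Int.castRingHom (K l))) = 0

/-- The Weil–Deligne representations attached to the `ℓ`-adic realisations (`ℓ` in the index set
`Λ`, coefficients `K ℓ`) of Chow motives over `ℚ` at a prime `p`, for a class of motives stable
under Tate twists and under the tensor products with the motives of the spectra of number fields,
with `h ^ 1` of an elliptic curve having split multiplicative reduction at `p` and with `h ^ 1`
of an elliptic curve having good ordinary reduction at `p`. -/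
structure MotiveClass {W : Type} [Group W] [TopologicalSpace W] (G : WeilData W) (Λ : Type)
    (K : Λ → Type) [∀ l, Field (K l)] where
  /-- the motives -/
  Mot : Type
  /-- the realisation in degree `i` -/
  V : Mot → ℤ → (l : Λ) → Rep G (K l)
  twist : ∀ M : Mot, ∃ M' : Mot, ∀ i l, IsTwist (-1) (V M' i l) (V M (i + 2) l)
  untwist : ∀ M : Mot, ∃ M' : Mot, ∀ i l, IsTwist 1 (V M' i l) (V M (i - 2) l)
  ext : ∀ (M : Mot) (E : Subgroup W) [Fintype (W ⧸ E)], IsOpen (E : Set W) →
    ∃ M' : Mot, ∀ i l, IsPerm E (V M' i l) (V M i l)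
  timesTateCurve : ∀ M : Mot, ∃ M' : Mot, ∀ i l, IsTateCurve (V M' (i + 1) l) (V M i l)
  /-- the matrix of Frobenius on `H ^ 1` of an ordinary elliptic curve -/
  ord : GL (Fin 2) ℚ
  ord_trace : ∀ k : ℕ, 1 ≤ k → ((ord ^ k : GL (Fin 2) ℚ) : Matrix (Fin 2) (Fin 2) ℚ).trace ≠ 0
  timesOrdinary : ∀ M : Mot, ∃ M' : Mot, ∀ i l, IsUnram ord (V M' (i + 1) l) (V M i l)

end Pool.Agent.X310.WD
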