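import Pool.Agent.X310.WdP
import Pool.Agent.X310.WdM

set_option autoImplicit false
set_option linter.unusedSectionVars false

/-! # From matrices to spaces -/

namespace Pool.Agent.X310.WD

open Polynomial Matrix

section Restr

variable {K : Type} [Field K] {n : ℕ}

/-- the equivalence with the subspace given by a basis -/
theorem IsRestriction.equiv {m : ℕ} {U : Submodule K (Fin n → K)} {F : Matrix (Fin n) (Fin n) K}
    {A : Matrix (Fin m) (Fin m) K} (h : IsRestriction U F A) :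
    ∃ e : (Fin m → K) ≃ₗ[K] U, ∀ x, ((e (A *ᵥ x) : U) : Fin n → K) = F *ᵥ (e x : Fin n → K) := by
  obtain ⟨B, h1, h2, h3⟩ := h
  refine ⟨(LinearEquiv.ofInjective B.mulVecLin h1).trans (LinearEquiv.ofEq _ _ h2), fun x => ?_⟩
  show B *ᵥ (A *ᵥ x) = F *ᵥ (B *ᵥ x)
  rw [mulVec_mulVec, mulVec_mulVec, h3]

theorem IsRestriction.trace_eq {m : ℕ} {U : Submodule K (Fin n → K)} {F : Matrix (Fin n) (Fin n) K}
    {A : Matrix (Fin m) (Fin m) K} (h : IsRestriction U F A) (f : Module.End K U)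
    (hf : ∀ x : U, ((f x : U) : Fin n → K) = F *ᵥ (x : Fin n → K)) :
    A.trace = LinearMap.trace K U f := by
  obtain ⟨e, he⟩ := h.equiv
  rw [← Matrix.trace_toLin'_eq]
  refine trace_conj_of e _ _ fun x => Subtype.ext ?_
  rw [toLin'_apply, he, hf]

theorem IsRestriction.charpoly_eq {m : ℕ} {U : Submodule K (Fin n → K)}
    {F : Matrix (Fin n) (Fin n) K} {A : Matrix (Fin m) (Fin m) K} (h : IsRestriction U F A)
    (f : Module.End K U) (hf : ∀ x : U, ((f x : U) : Fin n → K) = F *ᵥ (x : Fin n → K)) :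
    A.charpoly = f.charpoly := by
  obtain ⟨e, he⟩ := h.equiv
  have h1 := LinearEquiv.charpoly_conj e (toLin' A)
  rw [Matrix.charpoly_toLin'] at h1
  rw [← h1]
  congr 1
  refine LinearMap.ext fun x => Subtype.ext ?_
  rw [LinearEquiv.conj_apply_apply, toLin'_apply, he, hf, LinearEquiv.apply_symm_apply]

theorem exists_isRestriction (U : Submodule K (Fin n → K)) (F : Matrix (Fin n) (Fin n) K)
    (f : Module.End K U) (hf : ∀ x : U, ((f x : U) : Fin n → K) = F *ᵥ (x : Fin n → K)) :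
    ∃ (m : ℕ) (A : Matrix (Fin m) (Fin m) K), IsRestriction U F A := by
  let b := Module.finBasis K U
  let B : Matrix (Fin n) (Fin (Module.finrank K U)) K := of fun i j => (b j : Fin n → K) i
  have hB : ∀ x, B.mulVecLin x = ((b.equivFun.symm x : U) : Fin n → K) := by
    intro x
    rw [Module.Basis.equivFun_symm_apply, Submodule.coe_sum]
    funext i
    rw [mulVecLin_apply, Finset.sum_apply]
    show ∑ j, B i j * x j = _
    refine Finset.sum_congr rfl fun j _ => ?_
    rw [Submodule.coe_smul, Pi.smul_apply, smul_eq_mul, mul_comm]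
    rfl
  refine ⟨_, LinearMap.toMatrix b b f, B, ?_, ?_, ?_⟩
  · intro x y hxy
    rw [hB, hB] at hxy
    exact b.equivFun.symm.injective (Subtype.ext hxy)
  · ext v
    constructor
    · rintro ⟨x, rfl⟩
      rw [hB]
      exact (b.equivFun.symm x).2
    · intro hv
      refine ⟨b.equivFun ⟨v, hv⟩, ?_⟩
      rw [hB, LinearEquiv.symm_apply_apply]
  · ext i j
    have h1 : (F * B) i j = (F *ᵥ (b j : Fin n → K)) i := rfl
    rw [h1, ← hf]
    have h2 := b.sum_repr (f (b j))
    rw [← h2, Submodule.coe_sum, Finset.sum_apply]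
    show _ = ∑ k, B i k * (LinearMap.toMatrix b b f) k j
    refine Finset.sum_congr rfl fun k _ => ?_
    rw [Submodule.coe_smul, Pi.smul_apply, smul_eq_mul, LinearMap.toMatrix_apply, mul_comm]
    rfl

end Restr

variable {W : Type} [Group W] [TopologicalSpace W] {G : WeilData W} {K : Type} [Field K]

/-- the space of a representation by matrices -/
def Rep.toWD (D : Rep G K) : WDRep G K where
  V := ModuleCat.of K (Fin D.n → K)
  fin := inferInstanceAs (Module.Finite K (Fin D.n → K))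
  ρ := (Matrix.toLinAlgEquiv' : Matrix (Fin D.n) (Fin D.n) K ≃ₐ[K] Module.End K (Fin D.n → K)).toAlgHom.toRingHom.toMonoidHom.comp D.ρ
  N := toLin' D.N
  nilp := by
    obtain ⟨m, hm⟩ := D.nilp
    refine ⟨m, ?_⟩
    have h : (toLin' D.N : Module.End K (Fin D.n → K)) ^ m = toLin' (D.N ^ m) := by
      rw [toLin'_pow]
    have h2 : (toLin' D.N : Module.End K (Fin D.n → K)) ^ m = 0 := by
      rw [h, hm, map_zero]
    exact h2
  comm := by
    intro w v
    show toLin' D.N (toLin' (D.ρ w) v) = (G.q : K) ^ (G.d w) • toLin' (D.ρ w) (toLin' D.N v)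
    simp only [toLin'_apply]
    rw [mulVec_mulVec, D.comm, smul_mulVec, ← mulVec_mulVec]
  smooth := by
    obtain ⟨J, hJ, h⟩ := D.smooth
    refine ⟨J, hJ, fun w hw => ⟨(h w hw).1, ?_⟩⟩
    refine LinearMap.ext fun v => ?_
    show toLin' (D.ρ w) v = v
    rw [(h w hw).2, toLin'_apply, one_mulVec]

theorem toWD_N_pow (D : Rep G K) (m : ℕ) (v : Fin D.n → K) :
    (D.toWD.N ^ m) v = (D.N ^ m) *ᵥ v := by
  have h : (toLin' D.N : Module.End K (Fin D.n → K)) ^ m = toLin' (D.N ^ m) := by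
    rw [toLin'_pow]
  have h2 : (D.N ^ m) *ᵥ v = toLin' (D.N ^ m) v := (toLin'_apply _ _).symm
  rw [h2, ← h]
  rfl

theorem mem_invariants {n : ℕ} (N : Matrix (Fin n) (Fin n) K) (S : Set (Matrix (Fin n) (Fin n) K))
    (v : Fin n → K) : v ∈ invariants N S ↔ N *ᵥ v = 0 ∧ ∀ A ∈ S, A *ᵥ v = v := by
  unfold invariants
  rw [Submodule.mem_inf, Submodule.mem_iInf, LinearMap.mem_ker, mulVecLin_apply]
  refine and_congr_right fun _ => forall_congr' fun A => ?_
  rw [Submodule.mem_iInf]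
  refine imp_congr_right fun _ => ?_
  rw [LinearMap.mem_ker, mulVecLin_apply, sub_mulVec, one_mulVec, sub_eq_zero]

theorem mem_inv_iff (D : Rep G K) (v : Fin D.n → K) :
    v ∈ D.toWD.inv ↔ v ∈ invariants D.N (D.ρ '' {w | G.d w = 0}) := by
  rw [mem_invariants]
  constructor
  · rintro ⟨h1, h2⟩
    refine ⟨h1, ?_⟩
    rintro A ⟨w, hw, rfl⟩
    exact h2 w hw
  · rintro ⟨h1, h2⟩
    exact ⟨h1, fun w hw => h2 _ ⟨w, hw, rfl⟩⟩

/-- the two spaces of invariants -/
def invEquiv (D : Rep G K) : invariants D.N (D.ρ '' {w | G.d w = 0}) ≃ₗ[K] D.toWD.inv where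
  toFun x := ⟨x.1, (mem_inv_iff D x.1).2 x.2⟩
  map_add' _ _ := rfl
  map_smul' _ _ := rfl
  invFun y := ⟨y.1, (mem_inv_iff D y.1).1 y.2⟩
  left_inv _ := rfl
  right_inv _ := rfl

theorem isEuler_iff (D : Rep G K) (P : K[X]) : D.IsEuler P ↔ D.toWD.euler = P := by
  let f : Module.End K (invariants D.N (D.ρ '' {w | G.d w = 0})) :=
    (invEquiv D).symm.conj (D.toWD.actInv G.frob)
  have hf : ∀ x : invariants D.N (D.ρ '' {w | G.d w = 0}),
      ((f x : invariants D.N (D.ρ '' {w | G.d w = 0})) : Fin D.n → K) =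
        D.ρ G.frob *ᵥ (x : Fin D.n → K) := fun x => rfl
  have hc : f.charpoly = (D.toWD.actInv G.frob).charpoly := LinearEquiv.charpoly_conj _ _
  have key : ∀ {m : ℕ} (A : Matrix (Fin m) (Fin m) K),
      IsRestriction (invariants D.N (D.ρ '' {w | G.d w = 0})) (D.ρ G.frob) A →
        A.charpolyRev = D.toWD.euler := by
    intro m A hA
    unfold WDRep.euler
    rw [← hc, ← hA.charpoly_eq f hf, Matrix.reverse_charpoly]
  constructor
  · rintro ⟨m, A, hA, rfl⟩
    exact (key A hA).symm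
  · intro h
    obtain ⟨m, A, hA⟩ := exists_isRestriction _ _ f hf
    exact ⟨m, A, hA, (key A hA).trans h⟩

theorem mem_ker_iff (D : Rep G K) (m : ℕ) (v : Fin D.n → K) :
    v ∈ D.toWD.kerPow m ↔ v ∈ LinearMap.ker (D.N ^ m).mulVecLin := by
  have h := toWD_N_pow D m v
  have h2 : v ∈ LinearMap.ker (D.N ^ m).mulVecLin ↔ (D.N ^ m) *ᵥ v = 0 := LinearMap.mem_ker
  exact (D.toWD.mem_kerPow m v).trans ((iff_of_eq (congrArg (fun t => t = 0) h)).trans h2.symm)

/-- the two kernels -/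
def kerEquiv (D : Rep G K) (m : ℕ) : LinearMap.ker (D.N ^ m).mulVecLin ≃ₗ[K] D.toWD.kerPow m where
  toFun x := ⟨x.1, (mem_ker_iff D m x.1).2 x.2⟩
  map_add' _ _ := rfl
  map_smul' _ _ := rfl
  invFun y := ⟨y.1, (mem_ker_iff D m y.1).1 y.2⟩
  left_inv _ := rfl
  right_inv _ := rfl

theorem isKerTrace_iff (D : Rep G K) (m : ℕ) (w : W) (t : K) :
    D.IsKerTrace m w t ↔ D.toWD.kap m w = t := by
  let f : Module.End K (LinearMap.ker (D.N ^ m).mulVecLin) :=
    (kerEquiv D m).symm.conj (D.toWD.actKer m w)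
  have hf : ∀ x : LinearMap.ker (D.N ^ m).mulVecLin,
      ((f x : LinearMap.ker (D.N ^ m).mulVecLin) : Fin D.n → K) = D.ρ w *ᵥ (x : Fin D.n → K) :=
    fun x => rfl
  have hc : LinearMap.trace K _ f = D.toWD.kap m w := LinearMap.trace_conj' _ _
  have key : ∀ {n : ℕ} (A : Matrix (Fin n) (Fin n) K),
      IsRestriction (LinearMap.ker (D.N ^ m).mulVecLin) (D.ρ w) A → A.trace = D.toWD.kap m w := by
    intro n A hA
    rw [← hc, ← hA.trace_eq f hf]
  constructor
  · rintro ⟨n, A, hA, rfl⟩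
    exact (key A hA).symm
  · intro h
    obtain ⟨n, A, hA⟩ := exists_isRestriction _ _ f hf
    exact ⟨n, A, hA, (key A hA).trans h⟩

/-! ### isomorphisms -/

/-- composition -/
def Iso.trans {A B C : WDRep G K} (e : Iso A B) (f : Iso B C) : Iso A C where
  e := e.e.trans f.e
  map_ρ w v := by
    show f.e (e.e (A.ρ w v)) = C.ρ w (f.e (e.e v))
    rw [e.map_ρ, f.map_ρ]
  map_N v := by
    show f.e (e.e (A.N v)) = C.N (f.e (e.e v))
    rw [e.map_N, f.map_N]

/-- direct sums of isomorphisms -/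
def Iso.sum {A B A' B' : WDRep G K} (e : Iso A A') (f : Iso B B') : Iso (A.prod B) (A'.prod B') where
  e := LinearEquiv.prodCongr e.e f.e
  map_ρ w v := Prod.ext (e.map_ρ w v.1) (f.map_ρ w v.2)
  map_N v := Prod.ext (e.map_N v.1) (f.map_N v.2)

/-- the identity -/
def Iso.refl (A : WDRep G K) : Iso A A where
  e := LinearEquiv.refl K A.V
  map_ρ _ _ := rfl
  map_N _ := rfl

theorem Rep.IsConj.iso {Y : Rep G K} {ι : Type} [Fintype ι] [DecidableEq ι] {R : W → Matrix ι ι K}
    {M : Matrix ι ι K} (h : Y.IsConj R M) (D : WDRep G K) (c : (ι → K) ≃ₗ[K] D.V)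
    (hR : ∀ w x, c (R w *ᵥ x) = D.ρ w (c x)) (hM : ∀ x, c (M *ᵥ x) = D.N (c x)) :
    Nonempty (Iso Y.toWD D) := by
  obtain ⟨P, Q, h1, h2, h3, h4⟩ := h
  let e : (Fin Y.n → K) ≃ₗ[K] (ι → K) :=
    { toFun := fun v => Q *ᵥ v
      map_add' := fun a b => mulVec_add _ _ _
      map_smul' := fun a b => mulVec_smul _ _ _
      invFun := fun v => P *ᵥ v
      left_inv := fun v => by
        show P *ᵥ (Q *ᵥ v) = v
        rw [mulVec_mulVec, h1, one_mulVec]
      right_inv := fun v => by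
        show Q *ᵥ (P *ᵥ v) = v
        rw [mulVec_mulVec, h2, one_mulVec] }
  have key : ∀ (A : Matrix (Fin Y.n) (Fin Y.n) K) (B : Matrix ι ι K), A * P = P * B →
      Q * A = B * Q := by
    intro A B hAB
    calc Q * A = Q * (A * (P * Q)) := by rw [h1, mul_one]
      _ = Q * (A * P) * Q := by simp only [Matrix.mul_assoc]
      _ = (Q * P) * B * Q := by rw [hAB]; simp only [Matrix.mul_assoc]
      _ = B * Q := by rw [h2, Matrix.one_mul]
  refine ⟨⟨e.trans c, fun w v => ?_, fun v => ?_⟩⟩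
  · show c (Q *ᵥ (Y.ρ w *ᵥ v)) = D.ρ w (c (Q *ᵥ v))
    rw [mulVec_mulVec, key _ _ (h3 w), ← mulVec_mulVec, hR]
  · show c (Q *ᵥ (Y.N *ᵥ v)) = D.N (c (Q *ᵥ v))
    rw [mulVec_mulVec, key _ _ h4, ← mulVec_mulVec, hM]

theorem IsSum.iso {Y A B : Rep G K} (h : IsSum Y A B) : Nonempty (Iso Y.toWD (A.toWD.prod B.toWD)) := by
  refine Rep.IsConj.iso h _ (LinearEquiv.sumArrowLequivProdArrow (Fin A.n) (Fin B.n) K K)
    (fun w x => ?_) (fun x => ?_)
  · show ((fun i => (fromBlocks (A.ρ w) 0 0 (B.ρ w) *ᵥ x) (Sum.inl i)),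
        (fun i => (fromBlocks (A.ρ w) 0 0 (B.ρ w) *ᵥ x) (Sum.inr i))) =
      (A.ρ w *ᵥ (fun i => x (Sum.inl i)), B.ρ w *ᵥ (fun i => x (Sum.inr i)))
    rw [fromBlocks_mulVec]
    simp [Function.comp_def]
  · show ((fun i => (fromBlocks A.N 0 0 B.N *ᵥ x) (Sum.inl i)),
        (fun i => (fromBlocks A.N 0 0 B.N *ᵥ x) (Sum.inr i))) =
      (A.N *ᵥ (fun i => x (Sum.inl i)), B.N *ᵥ (fun i => x (Sum.inr i)))
    rw [fromBlocks_mulVec]
    simp [Function.comp_def]

variable [CharZero K]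

theorem IsTwist.iso {r : ℤ} {Y A : Rep G K} (h : IsTwist r Y A) :
    Nonempty (Iso Y.toWD (A.toWD.tate r)) := by
  refine Rep.IsConj.iso h _ (LinearEquiv.refl K (Fin A.n → K)) (fun w x => ?_) (fun x => rfl)
  show ((G.q : K) ^ (r * G.d w) • A.ρ w) *ᵥ x = (G.q : K) ^ (r * G.d w) • (A.ρ w *ᵥ x)
  rw [smul_mulVec]

theorem IsTateCurve.iso {Y A : Rep G K} (h : IsTateCurve Y A) :
    Nonempty (Iso Y.toWD A.toWD.tateCurve) := by
  refine Rep.IsConj.iso h _ (LinearEquiv.sumArrowLequivProdArrow (Fin A.n) (Fin A.n) K K)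
    (fun w x => ?_) (fun x => ?_)
  · show ((fun i => (fromBlocks (A.ρ w) 0 0 ((G.q : K) ^ (G.d w) • A.ρ w) *ᵥ x) (Sum.inl i)),
        (fun i => (fromBlocks (A.ρ w) 0 0 ((G.q : K) ^ (G.d w) • A.ρ w) *ᵥ x) (Sum.inr i))) =
      (A.ρ w *ᵥ (fun i => x (Sum.inl i)), (G.q : K) ^ (G.d w) • (A.ρ w *ᵥ (fun i => x (Sum.inr i))))
    rw [fromBlocks_mulVec, smul_mulVec]
    simp only [Function.comp_def, zero_mulVec, add_zero, zero_add, Sum.elim_inl, Sum.elim_inr]
  · show ((fun i => (fromBlocks A.N 1 0 A.N *ᵥ x) (Sum.inl i)),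
        (fun i => (fromBlocks A.N 1 0 A.N *ᵥ x) (Sum.inr i))) =
      (A.N *ᵥ (fun i => x (Sum.inl i)) + (fun i => x (Sum.inr i)), A.N *ᵥ (fun i => x (Sum.inr i)))
    rw [fromBlocks_mulVec]
    simp only [Function.comp_def, zero_mulVec, zero_add, one_mulVec, Sum.elim_inl, Sum.elim_inr]

theorem IsUnram.iso {m : ℕ} {C : GL (Fin m) ℚ} {Y A : Rep G K} (h : IsUnram C Y A) :
    Nonempty (Iso Y.toWD (A.toWD.unram C)) := by
  refine Rep.IsConj.iso h _ (LinearEquiv.curry K K (Fin m) (Fin A.n)) (fun w x => ?_) (fun x => ?_)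
  · refine funext fun i => funext fun a => ?_
    show ∑ y : Fin m × Fin A.n, ((((C ^ (G.d w) : GL (Fin m) ℚ) : Matrix (Fin m) (Fin m) ℚ) i y.1 : K)
      * A.ρ w a y.2) * x y = (∑ b : Fin m, entry K G C w i b • (A.ρ w *ᵥ (fun t => x (b, t)))) a
    rw [Fintype.sum_prod_type, Finset.sum_apply]
    refine Finset.sum_congr rfl fun j _ => ?_
    rw [Pi.smul_apply, smul_eq_mul]
    show _ = _ * ∑ t, A.ρ w a t * x (j, t)
    rw [Finset.mul_sum]
    refine Finset.sum_congr rfl fun t _ => ?_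
    rw [mul_assoc]
    rfl
  · refine funext fun i => funext fun a => ?_
    show ∑ y : Fin m × Fin A.n, (if i = y.1 then A.N a y.2 else 0) * x y = ∑ t, A.N a t * x (i, t)
    rw [Fintype.sum_prod_type]
    simp

theorem IsPerm.iso [IsTopologicalGroup W] {E : Subgroup W} [Fintype (W ⧸ E)] {Y A : Rep G K}
    (h : IsPerm E Y A) (hE : IsOpen (E : Set W)) (hf : Finite (W ⧸ E)) :
    Nonempty (Iso Y.toWD (A.toWD.perm E hE hf)) := by
  classical
  refine Rep.IsConj.iso h _ (LinearEquiv.curry K K (W ⧸ E) (Fin A.n)) (fun w x => ?_) (fun x => ?_)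
  · refine funext fun i => funext fun a => ?_
    show ∑ y : (W ⧸ E) × Fin A.n, (if w⁻¹ • i = y.1 then A.ρ w a y.2 else 0) * x y =
      ∑ t, A.ρ w a t * x (w⁻¹ • i, t)
    rw [Fintype.sum_prod_type]
    simp
  · refine funext fun i => funext fun a => ?_
    show ∑ y : (W ⧸ E) × Fin A.n, (if i = y.1 then A.N a y.2 else 0) * x y =
      ∑ t, A.N a t * x (i, t)
    rw [Fintype.sum_prod_type]
    simp

section

variable [IsTopologicalGroup W] {Λ : Type} {K : Λ → Type} [∀ l, Field (K l)] [∀ l, CharZero (K l)]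

/-- the class of varieties in terms of spaces -/
noncomputable def VarietyClass.toVarieties (S : VarietyClass G Λ K) : Varieties G Λ K where
  Var := S.Var
  dim := S.dim
  H X i l := (S.H X i l).toWD
  lefschetz X j l := (S.lefschetz X j l).iso
  line X := by
    obtain ⟨Y, hY, h⟩ := S.line X
    refine ⟨Y, hY, fun i l => ?_⟩
    obtain ⟨C, h1, h2⟩ := h i l
    exact ⟨h2.iso.some.trans ((Iso.refl _).sum h1.iso.some)⟩
  ext X E hE hf := by
    have := Fintype.ofFinite (W ⧸ E)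
    obtain ⟨Y, hY, h⟩ := S.ext X E hE
    exact ⟨Y, hY, fun i l => (h i l).iso hE hf⟩
  timesTateCurve X := by
    obtain ⟨Y, hY, h⟩ := S.timesTateCurve X
    refine ⟨Y, hY, fun i l => ?_⟩
    obtain ⟨B, C, T, h1, h2, h3, h4⟩ := h i l
    exact ⟨h4.iso.some.trans ((h3.iso.some.trans ((Iso.refl _).sum h1.iso.some)).sum h2.iso.some)⟩
  ord := S.ord
  ord_trace := S.ord_trace
  timesOrdinary X := by
    obtain ⟨Y, hY, h⟩ := S.timesOrdinary X
    refine ⟨Y, hY, fun i l => ?_⟩
    obtain ⟨B, C, T, h1, h2, h3, h4⟩ := h i l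
    exact ⟨h4.iso.some.trans ((h3.iso.some.trans ((Iso.refl _).sum h1.iso.some)).sum h2.iso.some)⟩
  integral X i l := by
    obtain ⟨P, hP, h⟩ := S.integral X i l
    refine ⟨P, hP, ?_⟩
    have h1 := Polynomial.aeval_algHom_apply
      (Matrix.toLinAlgEquiv' : Matrix (Fin (S.H X i l).n) (Fin (S.H X i l).n) (K l) ≃ₐ[K l] _)
      ((S.H X i l).ρ G.frob) (P.map (Int.castRingHom (K l)))
    rw [h, map_zero] at h1
    exact h1

theorem integral_iff (D : ∀ l, Rep G (K l)) :
    IntegralFactors D ↔ IntegralEuler fun l => (D l).toWD :=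
  exists_congr fun P => forall_congr' fun l => isEuler_iff _ _

theorem rational_iff (D : ∀ l, Rep G (K l)) :
    RationalFactors D ↔ RationalEuler fun l => (D l).toWD :=
  exists_congr fun P => forall_congr' fun l => isEuler_iff _ _

theorem traces_iff (D : ∀ l, Rep G (K l)) :
    RationalTraces D ↔ RationalWD fun l => (D l).toWD :=
  forall_congr' fun m => forall_congr' fun w => exists_congr fun c => forall_congr' fun l =>
    isKerTrace_iff _ _ _ _

/-- **Main theorem for varieties** -/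
theorem variety_main (S : VarietyClass G Λ K) : List.TFAE [
    ∀ X, Even (S.dim X) → IntegralFactors fun l => S.H X (S.dim X) l,
    ∀ X i, IntegralFactors fun l => S.H X i l,
    ∀ X i, RationalTraces fun l => S.H X i l] := by
  have h := main_tfae S.toVarieties
  have e1 : (∀ X, Even (S.dim X) → IntegralFactors fun l => S.H X (S.dim X) l) ↔
      ∀ X, Even (S.toVarieties.dim X) → IntegralEuler fun l => S.toVarieties.H X (S.toVarieties.dim X) l :=
    forall_congr' fun X => imp_congr_right fun _ => integral_iff _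
  have e2 : (∀ X i, IntegralFactors fun l => S.H X i l) ↔
      ∀ X i, IntegralEuler fun l => S.toVarieties.H X i l :=
    forall_congr' fun X => forall_congr' fun i => integral_iff _
  have e3 : (∀ X i, RationalTraces fun l => S.H X i l) ↔
      ∀ X i, RationalWD fun l => S.toVarieties.H X i l :=
    forall_congr' fun X => forall_congr' fun i => traces_iff _
  rw [e1, e2, e3]
  exact h

/-- the class of motives in terms of spaces -/
noncomputable def MotiveClass.toMotives (S : MotiveClass G Λ K) : Motives G Λ K where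
  Mot := S.Mot
  V M i l := (S.V M i l).toWD
  twist M := by
    obtain ⟨M', h⟩ := S.twist M
    exact ⟨M', fun i l => (h i l).iso⟩
  untwist M := by
    obtain ⟨M', h⟩ := S.untwist M
    exact ⟨M', fun i l => (h i l).iso⟩
  ext M E hE hf := by
    have := Fintype.ofFinite (W ⧸ E)
    obtain ⟨M', h⟩ := S.ext M E hE
    exact ⟨M', fun i l => (h i l).iso hE hf⟩
  timesTateCurve M := by
    obtain ⟨M', h⟩ := S.timesTateCurve M
    exact ⟨M', fun i l => (h i l).iso⟩
  ord := S.ord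
  ord_trace := S.ord_trace
  timesOrdinary M := by
    obtain ⟨M', h⟩ := S.timesOrdinary M
    exact ⟨M', fun i l => (h i l).iso⟩

/-- **Main theorem for motives** -/
theorem motive_main (S : MotiveClass G Λ K) : List.TFAE [
    ∀ M, RationalFactors fun l => S.V M 0 l,
    ∀ M i, RationalFactors fun l => S.V M i l,
    ∀ M i, RationalTraces fun l => S.V M i l] := by
  have h := motive_tfae S.toMotives
  have e1 : (∀ M, RationalFactors fun l => S.V M 0 l) ↔
      ∀ M, RationalEuler fun l => S.toMotives.V M 0 l :=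
    forall_congr' fun X => rational_iff _
  have e2 : (∀ M i, RationalFactors fun l => S.V M i l) ↔
      ∀ M i, RationalEuler fun l => S.toMotives.V M i l :=
    forall_congr' fun X => forall_congr' fun i => rational_iff _
  have e3 : (∀ M i, RationalTraces fun l => S.V M i l) ↔
      ∀ M i, RationalWD fun l => S.toMotives.V M i l :=
    forall_congr' fun X => forall_congr' fun i => traces_iff _
  rw [e1, e2, e3]
  exact h

end

end Pool.Agent.X310.WD
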