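import Pool.Agent.X310.WdQ

set_option autoImplicit false
set_option linter.unusedSectionVars false

/-! # Traces of the Weil group composed with automorphisms -/

namespace Pool.Agent.X310.WD

open Polynomial

variable {W : Type} [Group W] [TopologicalSpace W] [IsTopologicalGroup W] {G : WeilData W}
  {K : Type} [Field K] [CharZero K]

/-- an endomorphism of a Weil–Deligne representation -/
structure Endo (D : WDRep G K) where
  /-- the linear map -/
  f : Module.End K D.V
  comm_ρ : ∀ w v, f (D.ρ w v) = D.ρ w (f v)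
  comm_N : ∀ v, f (D.N v) = D.N (f v)

theorem Endo.ker_map {D : WDRep G K} (a : Endo D) : ∀ v ∈ D.kerPow 1, a.f v ∈ D.kerPow 1 := by
  intro v hv
  rw [D.mem_kerPow, pow_one] at hv ⊢
  rw [← a.comm_N, hv, map_zero]

theorem Endo.inv_map {D : WDRep G K} (a : Endo D) : ∀ v ∈ D.inv, a.f v ∈ D.inv := by
  intro v hv
  rw [D.mem_inv] at hv ⊢
  refine ⟨by rw [← a.comm_N, hv.1, map_zero], fun i hi => ?_⟩
  rw [← a.comm_ρ, hv.2 i hi]

/-- the action on the kernel of `N` -/
def Endo.onKer {D : WDRep G K} (a : Endo D) : Module.End K (D.kerPow 1) := a.f.restrict a.ker_map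

/-- the action on the inertia invariants -/
def Endo.onInv {D : WDRep G K} (a : Endo D) : Module.End K D.inv := a.f.restrict a.inv_map

/-- the trace of `w a` on the kernel of `N` -/
noncomputable def Endo.kap {D : WDRep G K} (a : Endo D) (w : W) : K :=
  LinearMap.trace K (D.kerPow 1) (D.actKer 1 w * a.onKer)

/-- the trace of `w a` on the inertia invariants -/
noncomputable def Endo.tau {D : WDRep G K} (a : Endo D) (w : W) : K :=
  LinearMap.trace K D.inv (D.actInv w * a.onInv)

/-- **The average formula with an endomorphism** -/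
theorem Endo.card_mul_tau {D : WDRep G K} (a : Endo D) (J : Subgroup W)
    (hJ : ∀ w ∈ J, D.ρ w = 1) [Fintype (Quo G J)] (w : W) :
    (Fintype.card (Quo G J) : K) * a.tau w = ∑ x : Quo G J, a.kap (w * rep x) := by
  have hcard : (Fintype.card (Quo G J) : K) ≠ 0 := by
    have : Nonempty (Quo G J) := ⟨((1 : G.deg.ker) : Quo G J)⟩
    exact_mod_cast Fintype.card_ne_zero
  let A : Module.End K (D.kerPow 1) := (Fintype.card (Quo G J) : K)⁻¹ • ∑ x : Quo G J, D.actKer 1 (rep x)
  let B : Module.End K (D.kerPow 1) := D.actKer 1 w * A * a.onKer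
  have hB : LinearMap.trace K (D.kerPow 1) B =
      (Fintype.card (Quo G J) : K)⁻¹ * ∑ x : Quo G J, a.kap (w * rep x) := by
    show LinearMap.trace K (D.kerPow 1) (D.actKer 1 w * ((Fintype.card (Quo G J) : K)⁻¹ •
      ∑ x : Quo G J, D.actKer 1 (rep x)) * a.onKer) = _
    rw [mul_smul_comm, smul_mul_assoc, map_smul, smul_eq_mul, Finset.mul_sum, Finset.sum_mul, map_sum]
    congr 1
    refine Finset.sum_congr rfl fun x _ => ?_
    rw [← D.actKer_mul]
    rfl
  have hAval : ∀ u : D.kerPow 1, ((A u : D.kerPow 1) : D.V) =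
      (Fintype.card (Quo G J) : K)⁻¹ • ∑ x : Quo G J, D.ρ (rep x) u.1 := by
    intro u
    show (((Fintype.card (Quo G J) : K)⁻¹ • (∑ x : Quo G J, D.actKer 1 (rep x)) u : D.kerPow 1) : D.V) = _
    rw [Submodule.coe_smul, LinearMap.sum_apply, Submodule.coe_sum]
    rfl
  have hAinv : ∀ u : D.kerPow 1, ((A u : D.kerPow 1) : D.V) ∈ D.inv := by
    intro u
    rw [D.mem_inv]
    refine ⟨?_, fun i hi => ?_⟩
    · have := (D.mem_kerPow 1 _).1 (A u).2
      rwa [pow_one] at this
    · rw [hAval, map_smul, map_sum]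
      congr 1
      let i' : G.deg.ker := ⟨i, (G.mem_ker i).2 hi⟩
      rw [← Equiv.sum_comp (MulAction.toPerm i' : Equiv.Perm (Quo G J)) (fun x => D.ρ (rep x) u.1)]
      refine Finset.sum_congr rfl fun x _ => ?_
      have h1 : D.ρ (rep ((MulAction.toPerm i' : Equiv.Perm (Quo G J)) x)) = D.ρ (i * rep x) := by
        refine ρ_congr D hJ _ _ ?_
        have h2 : (MulAction.toPerm i' : Equiv.Perm (Quo G J)) x = ((i' * x.out : G.deg.ker) : Quo G J) := by
          show i' • x = _
          conv_lhs => rw [← QuotientGroup.out_eq' x]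
          rfl
        rw [h2]
        exact rep_mk _
      rw [h1, map_mul]
      rfl
  have hAfix : ∀ u : D.kerPow 1, (u : D.V) ∈ D.inv → A u = u := by
    intro u hu
    refine Subtype.ext ?_
    rw [hAval]
    have h1 : ∀ x : Quo G J, D.ρ (rep x) u.1 = u.1 := fun x => hu.2 _ (d_rep x)
    simp only [h1]
    rw [Finset.sum_const, Finset.card_univ, ← Nat.cast_smul_eq_nsmul K, smul_smul,
      inv_mul_cancel₀ hcard, one_smul]
  let p : Submodule K (D.kerPow 1) := Submodule.comap (D.kerPow 1).subtype D.inv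
  have hBp : ∀ u, B u ∈ p := fun u => D.inv_map w _ (hAinv _)
  have hle : D.inv ≤ D.kerPow 1 := by
    intro v hv
    rw [D.mem_kerPow, pow_one]
    exact hv.1
  have h1 := LinearMap.trace_restrict_eq_of_forall_mem p B hBp
  have h2 : LinearMap.trace K p (B.restrict fun x _ => hBp x) = a.tau w := by
    refine trace_conj_of (Submodule.comapSubtypeEquivOfLe hle) _ _ fun x => Subtype.ext ?_
    show ((B x.1 : D.kerPow 1) : D.V) = D.ρ w (a.f x.1.1)
    have h3 : B x.1 = D.actKer 1 w (a.onKer x.1) := by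
      show D.actKer 1 w (A (a.onKer x.1)) = _
      rw [hAfix _ (a.inv_map _ x.2)]
    rw [h3]
    rfl
  rw [← h2, h1, hB, ← mul_assoc, mul_inv_cancel₀ hcard, one_mul]

/-- conjugation -/
theorem Endo.kap_conj {D : WDRep G K} (a : Endo D) (w g : W) : a.kap (g * w * g⁻¹) = a.kap w := by
  unfold Endo.kap
  have hc : D.actKer 1 g⁻¹ * a.onKer = a.onKer * D.actKer 1 g⁻¹ := by
    refine LinearMap.ext fun v => Subtype.ext ?_
    exact (a.comm_ρ g⁻¹ v.1).symm
  rw [D.actKer_mul, mul_assoc, hc, ← mul_assoc, LinearMap.trace_mul_comm, ← mul_assoc, ← D.actKer_mul,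
    ← mul_assoc, inv_mul_cancel, one_mul]

theorem Endo.kap_of_eq {D : WDRep G K} (a : Endo D) (w w' : W) (h : D.ρ w = D.ρ w') :
    a.kap w = a.kap w' := by
  unfold Endo.kap
  congr 2
  refine LinearMap.ext fun v => Subtype.ext ?_
  show D.ρ w v.1 = D.ρ w' v.1
  rw [h]

end Pool.Agent.X310.WD
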