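import Pool.Agent.X310.WdR

set_option autoImplicit false
set_option linter.unusedSectionVars false

/-! # Representations induced from an unramified twist by an automorphism -/

namespace Pool.Agent.X310.WD

open Polynomial

section Gen

variable {K : Type} [Field K]

/-- the trace of a block matrix -/
theorem trace_blocks {X U : Type} [Fintype X] [DecidableEq X] [AddCommGroup U] [Module K U]
    [Module.Finite K U] (g : X → X → Module.End K U) (F : Module.End K (X → U))
    (hF : ∀ x a, F x a = ∑ b, g a b (x b)) :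
    LinearMap.trace K (X → U) F = ∑ a, LinearMap.trace K U (g a a) := by
  have h1 : F = ∑ a, ∑ b, ((LinearMap.single K (fun _ : X => U) a) ∘ₗ (g a b ∘ₗ LinearMap.proj b)) := by
    refine LinearMap.ext fun x => ?_
    funext a
    rw [hF]
    simp only [LinearMap.sum_apply, Finset.sum_apply,
      LinearMap.comp_apply, LinearMap.proj_apply, LinearMap.coe_single, Pi.single_apply]
    rw [Finset.sum_comm]
    refine Finset.sum_congr rfl fun b _ => ?_
    simp
  rw [h1]
  simp only [map_sum]
  refine Finset.sum_congr rfl fun a _ => ?_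
  rw [Finset.sum_eq_single a]
  · rw [LinearMap.trace_comp_comm']
    congr 1
    refine LinearMap.ext fun x => ?_
    simp
  · intro b _ hb
    rw [LinearMap.trace_comp_comm']
    have : (g a b ∘ₗ LinearMap.proj b) ∘ₗ (LinearMap.single K (fun _ : X => U) a) = 0 := by
      refine LinearMap.ext fun x => ?_
      simp [Pi.single_apply, hb]
    rw [this, map_zero]
  · intro h; exact absurd (Finset.mem_univ a) h

theorem trace_blocks_restrict {X V : Type} [Fintype X] [DecidableEq X] [AddCommGroup V] [Module K V]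
    [Module.Finite K V] (p : Submodule K V) (P : Submodule K (X → V))
    (hP : ∀ x, x ∈ P ↔ ∀ a, x a ∈ p) (g : X → X → Module.End K V)
    (hg : ∀ a b, ∀ x ∈ p, g a b x ∈ p) (F : Module.End K (X → V))
    (hF : ∀ x a, F x a = ∑ b, g a b (x b)) (hFP : ∀ x ∈ P, F x ∈ P) :
    LinearMap.trace K P (F.restrict hFP) =
      ∑ a, LinearMap.trace K p ((g a a).restrict (hg a a)) := by
  let F' : Module.End K (X → p) :=
    { toFun := fun x a => ∑ b, (g a b).restrict (hg a b) (x b)
      map_add' := fun x y => by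
        funext a
        simp only [Pi.add_apply, map_add, Finset.sum_add_distrib]
      map_smul' := fun c x => by
        funext a
        simp only [Pi.smul_apply, map_smul, RingHom.id_apply, Finset.smul_sum] }
  rw [← trace_blocks (fun a b => (g a b).restrict (hg a b)) F' (fun x a => rfl)]
  refine trace_conj_of (piEquiv p P hP) _ _ fun x => ?_
  funext a
  refine Subtype.ext ?_
  show F x.1 a = ((∑ b, (g a b).restrict (hg a b) (piEquiv p P hP x b) : p) : V)
  rw [hF, Submodule.coe_sum]
  rfl

end Gen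

variable {W : Type} [Group W] [TopologicalSpace W] [IsTopologicalGroup W] {G : WeilData W}
  {K : Type} [Field K] [CharZero K]

/-- the powers of an automorphism of a representation -/
structure Powers (D : WDRep G K) where
  /-- the powers -/
  α : ℤ → Module.End K D.V
  zero : α 0 = 1
  add : ∀ m n, α (m + n) = α m * α n
  comm_ρ : ∀ n w v, α n (D.ρ w v) = D.ρ w (α n v)
  comm_N : ∀ n v, α n (D.N v) = D.N (α n v)

/-- one of the powers -/
def Powers.endo {D : WDRep G K} (A : Powers D) (n : ℤ) : Endo D where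
  f := A.α n
  comm_ρ := A.comm_ρ n
  comm_N := A.comm_N n

/-- the exponent: the degree, divided by `f`, of an element of `E` -/
noncomputable def expo (G : WeilData W) (E : Subgroup W) (f : ℤ) (w : W) (x : W ⧸ E) : ℤ :=
  (G.d w + G.d (w⁻¹ • x).out - G.d x.out) / f

theorem expo_dvd (E : Subgroup W) (f : ℤ) (hf : ∀ g ∈ E, f ∣ G.d g) (w : W) (x : W ⧸ E) :
    f ∣ G.d w + G.d (w⁻¹ • x).out - G.d x.out := by
  have h1 : (x.out)⁻¹ * (w * (w⁻¹ • x).out) ∈ E := by
    rw [← QuotientGroup.eq, QuotientGroup.out_eq']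
    show x = w • (((w⁻¹ • x).out : W) : W ⧸ E)
    rw [QuotientGroup.out_eq', smul_inv_smul]
  have h2 := hf _ h1
  rw [G.d_mul, G.d_mul, G.d_inv] at h2
  have e : G.d w + G.d (w⁻¹ • x).out - G.d x.out = -G.d x.out + (G.d w + G.d (w⁻¹ • x).out) := by ring
  rw [e]
  exact h2

theorem expo_mul (E : Subgroup W) (f : ℤ) (hf : ∀ g ∈ E, f ∣ G.d g) (w w' : W) (x : W ⧸ E) :
    expo G E f (w * w') x = expo G E f w x + expo G E f w' (w⁻¹ • x) := by
  unfold expo
  rw [← Int.add_ediv_of_dvd_left (expo_dvd E f hf w x), mul_inv_rev, mul_smul, G.d_mul]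
  congr 1
  ring

theorem expo_fix (E : Subgroup W) (f : ℤ) (w : W) (x : W ⧸ E) (hx : w⁻¹ • x = x) :
    expo G E f w x = G.d w / f := by
  unfold expo
  rw [hx, add_sub_cancel_right]

/-- the action of one element on the induced representation -/
noncomputable def twAct (D : WDRep G K) (A : Powers D) (E : Subgroup W) (f : ℤ) (w : W) :
    Module.End K (W ⧸ E → D.V) where
  toFun F x := D.ρ w (A.α (expo G E f w x) (F (w⁻¹ • x)))
  map_add' x y := by
    funext a
    simp only [Pi.add_apply, map_add]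
  map_smul' c x := by
    funext a
    simp only [Pi.smul_apply, map_smul, RingHom.id_apply]

/-- the action on the induced representation -/
noncomputable def twρ (D : WDRep G K) (A : Powers D) (E : Subgroup W) (f : ℤ)
    (hf : ∀ g ∈ E, f ∣ G.d g) : W →* Module.End K (W ⧸ E → D.V) where
  toFun w := twAct D A E f w
  map_one' := by
    refine LinearMap.ext fun F => ?_
    funext x
    show D.ρ 1 (A.α (expo G E f 1 x) (F (1⁻¹ • x))) = F x
    have h1 : (1 : W)⁻¹ • x = x := by rw [inv_one, one_smul]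
    rw [expo_fix E f 1 x h1, G.d_one, Int.zero_ediv, A.zero, map_one, h1]
    rfl
  map_mul' w w' := by
    refine LinearMap.ext fun F => ?_
    funext x
    show D.ρ (w * w') (A.α (expo G E f (w * w') x) (F ((w * w')⁻¹ • x))) =
      D.ρ w (A.α (expo G E f w x) (D.ρ w' (A.α (expo G E f w' (w⁻¹ • x)) (F (w'⁻¹ • (w⁻¹ • x))))))
    rw [expo_mul E f hf, A.add, map_mul, mul_inv_rev, mul_smul, A.comm_ρ (expo G E f w x) w']
    rfl

theorem tw_comm (D : WDRep G K) (A : Powers D) (E : Subgroup W) (f : ℤ)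
    (hf : ∀ g ∈ E, f ∣ G.d g) (w : W) (x : W ⧸ E → D.V) :
    coordN D (W ⧸ E) (twρ D A E f hf w x) =
      (G.q : K) ^ (G.d w) • twρ D A E f hf w (coordN D (W ⧸ E) x) := by
  funext a
  show D.N (D.ρ w (A.α _ (x (w⁻¹ • a)))) = (G.q : K) ^ (G.d w) • D.ρ w (A.α _ (D.N (x (w⁻¹ • a))))
  rw [D.comm, A.comm_N]

/-- an open subgroup of inertia acting trivially on the cosets -/
theorem tw_smooth (D : WDRep G K) (A : Powers D) (E : Subgroup W) (f : ℤ)
    (hf : ∀ g ∈ E, f ∣ G.d g) (hE : IsOpen (E : Set W)) (hfin : Finite (W ⧸ E)) :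
    ∃ J : Subgroup W, IsOpen (J : Set W) ∧ ∀ w ∈ J, G.d w = 0 ∧ twρ D A E f hf w = 1 := by
  obtain ⟨J, hJ, h⟩ := D.smooth
  have := Fintype.ofFinite (W ⧸ E)
  let C : Subgroup W := (MulAction.toPermHom W (W ⧸ E)).ker
  have hC : IsOpen (C : Set W) := by
    have h1 : (C : Set W) = ⋂ x : W ⧸ E, {w : W | w • x = x} := by
      ext w
      rw [Set.mem_iInter, SetLike.mem_coe, MonoidHom.mem_ker]
      constructor
      · intro hw x
        exact Equiv.congr_fun hw x
      · intro hw
        exact Equiv.ext fun x => hw x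
    rw [h1]
    refine isOpen_iInter_of_finite fun x => ?_
    induction x using QuotientGroup.induction_on with
    | H g =>
      have h2 : {w : W | w • (g : W ⧸ E) = (g : W ⧸ E)} = (fun w => g⁻¹ * w⁻¹ * g) ⁻¹' (E : Set W) := by
        ext w
        show ((w * g : W) : W ⧸ E) = (g : W ⧸ E) ↔ g⁻¹ * w⁻¹ * g ∈ E
        rw [QuotientGroup.eq, mul_inv_rev]
      rw [h2]
      exact hE.preimage (by fun_prop)
  refine ⟨J ⊓ C, ?_, fun w hw => ⟨(h w hw.1).1, ?_⟩⟩
  · rw [Subgroup.coe_inf]; exact hJ.inter hC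
  · refine LinearMap.ext fun F => ?_
    funext x
    show D.ρ w (A.α (expo G E f w x) (F (w⁻¹ • x))) = F x
    have h3 : w⁻¹ • x = x := by
      have := Equiv.congr_fun (C.inv_mem hw.2) x
      exact this
    rw [expo_fix E f w x h3, (h w hw.1).1, Int.zero_ediv, A.zero, h3, (h w hw.1).2]
    rfl

/-- the representation induced from the restriction to `E` twisted by the unramified character of
`E` with values in the powers of an automorphism -/
noncomputable def WDRep.tw (D : WDRep G K) (A : Powers D) (E : Subgroup W) (f : ℤ)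
    (hf : ∀ g ∈ E, f ∣ G.d g) (hE : IsOpen (E : Set W)) (hfin : Finite (W ⧸ E)) : WDRep G K where
  V := ModuleCat.of K (W ⧸ E → D.V)
  fin := perm_fin D E hfin
  ρ := twρ D A E f hf
  N := coordN D (W ⧸ E)
  nilp := coordN_nilp D (W ⧸ E)
  comm := tw_comm D A E f hf
  smooth := tw_smooth D A E f hf hE hfin

theorem kap_tw (D : WDRep G K) (A : Powers D) (E : Subgroup W) (f : ℤ)
    (hf : ∀ g ∈ E, f ∣ G.d g) (hE : IsOpen (E : Set W)) (hfin : Finite (W ⧸ E)) (w : W) :
    (D.tw A E f hf hE hfin).kap 1 w = (fixNum E w : K) * (A.endo (G.d w / f)).kap w := by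
  classical
  have := Fintype.ofFinite (W ⧸ E)
  have h1 : (fixNum E w : K) = ∑ x : W ⧸ E, (if w⁻¹ • x = x then (1 : K) else 0) := by
    unfold fixNum
    rw [Nat.card_eq_fintype_card, Fintype.card_subtype, Finset.sum_boole]
  rw [h1]
  have hg : ∀ a b : W ⧸ E, ∀ x ∈ D.kerPow 1,
      (if w⁻¹ • a = b then D.ρ w * A.α (expo G E f w a) else 0 : Module.End K D.V) x ∈ D.kerPow 1 := by
    intro a b x hx
    split_ifs
    · exact D.kerPow_map 1 w _ ((A.endo _).ker_map x hx)
    · exact Submodule.zero_mem _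
  have h2 : (D.tw A E f hf hE hfin).kap 1 w = ∑ a : W ⧸ E, LinearMap.trace K (D.kerPow 1)
      ((if w⁻¹ • a = a then D.ρ w * A.α (expo G E f w a) else 0 : Module.End K D.V).restrict
        (hg a a)) := by
    refine trace_blocks_restrict (D.kerPow 1) ((D.tw A E f hf hE hfin).kerPow 1) ?_
      (fun a b => if w⁻¹ • a = b then D.ρ w * A.α (expo G E f w a) else 0) hg
      ((D.tw A E f hf hE hfin).ρ w) (fun F x => ?_) _
    · intro F
      constructor
      · intro h x
        have h' := ((D.tw A E f hf hE hfin).mem_kerPow 1 F).1 h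
        rw [pow_one] at h'
        rw [D.mem_kerPow, pow_one]
        exact congrFun h' x
      · intro h
        refine ((D.tw A E f hf hE hfin).mem_kerPow 1 F).2 ?_
        rw [pow_one]
        funext x
        have := (D.mem_kerPow 1 _).1 (h x)
        rw [pow_one] at this
        exact this
    · show D.ρ w (A.α (expo G E f w x) (F (w⁻¹ • x))) =
        ∑ y, (if w⁻¹ • x = y then D.ρ w * A.α (expo G E f w x) else 0 : Module.End K D.V) (F y)
      rw [Finset.sum_eq_single (w⁻¹ • x)]
      · rw [if_pos rfl]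
        rfl
      · intro y _ hy
        rw [if_neg (Ne.symm hy)]
        rfl
      · intro h; exact absurd (Finset.mem_univ _) h
  rw [h2, Finset.sum_mul]
  refine Finset.sum_congr rfl fun a _ => ?_
  by_cases ha : w⁻¹ • a = a
  · have e1 : (if w⁻¹ • a = a then (1 : K) else 0) = 1 := if_pos ha
    rw [e1, one_mul]
    unfold Endo.kap
    congr 1
    refine LinearMap.ext fun v => Subtype.ext ?_
    show (if w⁻¹ • a = a then D.ρ w * A.α (expo G E f w a) else 0 : Module.End K D.V) v.1 =
      D.ρ w (A.α (G.d w / f) v.1)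
    rw [if_pos ha, expo_fix E f w a ha]
    rfl
  · have e1 : (if w⁻¹ • a = a then (1 : K) else 0) = 0 := if_neg ha
    rw [e1, zero_mul]
    have : ((if w⁻¹ • a = a then D.ρ w * A.α (expo G E f w a) else 0 : Module.End K D.V).restrict
        (hg a a)) = 0 := by
      refine LinearMap.ext fun v => Subtype.ext ?_
      show (if w⁻¹ • a = a then D.ρ w * A.α (expo G E f w a) else 0 : Module.End K D.V) v.1 = 0
      rw [if_neg ha]
      rfl
    rw [this, map_zero]

/-- the degrees of the elements of `gen w J` -/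
theorem gen_dvd (J : Subgroup W) [J.Normal] (hJd : ∀ w ∈ J, G.d w = 0) (w : W) :
    ∀ g ∈ gen w J, G.d w ∣ G.d g := by
  intro g hg
  obtain ⟨k, j, hj, rfl⟩ := mem_gen hg
  rw [G.d_mul, G.d_zpow, hJd j hj, add_zero]
  exact Dvd.intro_left k rfl

theorem card_mul_tau_tw (D : WDRep G K) (A : Powers D) (J : Subgroup W) [J.Normal]
    (hJd : ∀ w ∈ J, G.d w = 0)
    (hJ : ∀ w ∈ J, D.ρ w = 1) [Fintype (Quo G J)] (w : W) (hw : 1 ≤ G.d w)
    (hE : IsOpen (gen w J : Set W)) (hfin : Finite (W ⧸ gen w J)) :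
    (Fintype.card (Quo G J) : K) *
        (D.tw A (gen w J) (G.d w) (gen_dvd J hJd w) hE hfin).tau w =
      (permSum (G := G) J w : K) * (A.endo 1).kap w := by
  have hJE : ∀ j ∈ J, (D.tw A (gen w J) (G.d w) (gen_dvd J hJd w) hE hfin).ρ j = 1 := by
    intro j hj
    refine LinearMap.ext fun F => ?_
    funext x
    show D.ρ j (A.α (expo G (gen w J) (G.d w) j x) (F (j⁻¹ • x))) = F x
    have h0 : j⁻¹ • x = x := by
      induction x using QuotientGroup.induction_on with
      | H g =>
        show ((j⁻¹ * g : W) : W ⧸ gen w J) = (g : W ⧸ gen w J)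
        rw [QuotientGroup.eq]
        have h1 : (j⁻¹ * g)⁻¹ * g = g⁻¹ * j * (g⁻¹)⁻¹ := by group
        rw [h1]
        exact (le_sup_right : J ≤ gen w J) ((inferInstance : J.Normal).conj_mem _ hj _)
    rw [expo_fix _ _ _ _ h0, hJd j hj, Int.zero_ediv, A.zero, hJ j hj, h0]
    rfl
  rw [card_mul_tau _ J hJE w]
  unfold permSum
  push_cast
  rw [Finset.sum_mul]
  refine Finset.sum_congr rfl fun x _ => ?_
  rw [kap_tw]
  have hd : G.d (w * rep x) / G.d w = 1 := by
    rw [G.d_mul, d_rep, add_zero, Int.ediv_self (by omega)]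
  rw [hd]
  by_cases h0 : fixNum (gen w J) (w * rep x) = 0
  · rw [h0]; simp
  · congr 1
    unfold fixNum at h0
    obtain ⟨⟨⟨z, hz⟩⟩, _⟩ := Nat.card_ne_zero.1 h0
    revert hz
    induction z using QuotientGroup.induction_on with
    | H g =>
      intro hz
      have hz' : (((w * rep x)⁻¹ * g : W) : W ⧸ gen w J) = (g : W ⧸ gen w J) := hz
      rw [QuotientGroup.eq] at hz'
      have h1 : ((w * rep x)⁻¹ * g)⁻¹ * g = g⁻¹ * (w * rep x) * (g⁻¹)⁻¹ := by group
      rw [h1] at hz'
      obtain ⟨k, j, hj, hk⟩ := mem_gen hz'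
      have hdeg := congrArg G.d hk
      simp only [G.d_mul, G.d_inv, d_rep, hJd j hj, G.d_zpow] at hdeg
      have hk1 : k = 1 := by
        have h2 : G.d w = k * G.d w := by
          generalize k * G.d w = t at hdeg ⊢
          omega
        have h3 : (k - 1) * G.d w = 0 := by rw [sub_mul, one_mul, ← h2, sub_self]
        rcases mul_eq_zero.1 h3 with h4 | h4
        · omega
        · omega
      rw [hk1, zpow_one] at hk
      have h2 : w * rep x = g * (w * j) * g⁻¹ := by rw [← hk]; group
      rw [h2, (A.endo 1).kap_conj]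
      refine (A.endo 1).kap_of_eq _ _ ?_
      rw [map_mul, hJ j hj, mul_one]

end Pool.Agent.X310.WD
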