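import Pool.Agent.X310.WdS

set_option autoImplicit false
set_option linter.unusedSectionVars false

/-! # Pairs of representations with endomorphisms; images of projectors -/

namespace Pool.Agent.X310.WD

open Polynomial

section One

variable {W : Type} [Group W] [TopologicalSpace W] [IsTopologicalGroup W] {G : WeilData W}
  {K : Type} [Field K] [CharZero K]

/-- the invariants in the image of a projector -/
def Endo.cut {D : WDRep G K} (a : Endo D) : Submodule K D.V where
  carrier := {v | v ∈ D.inv ∧ a.f v = v}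
  add_mem' := fun {x y} hx hy => ⟨D.inv.add_mem hx.1 hy.1, by rw [map_add, hx.2, hy.2]⟩
  zero_mem' := ⟨D.inv.zero_mem, map_zero _⟩
  smul_mem' := fun c x hx => ⟨D.inv.smul_mem c hx.1, by rw [map_smul, hx.2]⟩

theorem Endo.cut_map {D : WDRep G K} (a : Endo D) (w : W) : ∀ v ∈ a.cut, D.ρ w v ∈ a.cut := by
  intro v hv
  exact ⟨D.inv_map w v hv.1, by rw [a.comm_ρ, hv.2]⟩

/-- the action on the invariants in the image of a projector -/
def Endo.cutAct {D : WDRep G K} (a : Endo D) (w : W) : Module.End K a.cut :=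
  (D.ρ w).restrict (a.cut_map w)

theorem Endo.cutAct_pow {D : WDRep G K} (a : Endo D) (w : W) (n : ℕ) :
    a.cutAct (w ^ n) = a.cutAct w ^ n := by
  induction n with
  | zero =>
    rw [pow_zero, pow_zero]
    refine LinearMap.ext fun v => Subtype.ext ?_
    show D.ρ 1 v.1 = v.1
    rw [map_one]; rfl
  | succ n ih =>
    rw [pow_succ, pow_succ, ← ih]
    refine LinearMap.ext fun v => Subtype.ext ?_
    show D.ρ (w ^ n * w) v.1 = D.ρ (w ^ n) (D.ρ w v.1)
    rw [map_mul]; rfl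

/-- the trace on the invariants in the image of a projector -/
theorem Endo.trace_cutAct {D : WDRep G K} (a : Endo D) (ha : ∀ v, a.f (a.f v) = a.f v) (w : W) :
    LinearMap.trace K a.cut (a.cutAct w) = a.tau w := by
  let B : Module.End K D.inv := D.actInv w * a.onInv
  let p : Submodule K D.inv := Submodule.comap D.inv.subtype a.cut
  have hBp : ∀ u, B u ∈ p := by
    intro u
    show D.ρ w (a.f u.1) ∈ a.cut
    exact a.cut_map w _ ⟨a.inv_map _ u.2, ha _⟩
  have hle : a.cut ≤ D.inv := fun v hv => hv.1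
  have h1 := LinearMap.trace_restrict_eq_of_forall_mem p B hBp
  have h2 : LinearMap.trace K p (B.restrict fun x _ => hBp x) =
      LinearMap.trace K a.cut (a.cutAct w) := by
    refine trace_conj_of (Submodule.comapSubtypeEquivOfLe hle) _ _ fun x => Subtype.ext ?_
    show D.ρ w (a.f x.1.1) = D.ρ w x.1.1
    have h3 : a.f x.1.1 = x.1.1 := x.2.2
    rw [h3]
  rw [← h2, h1]
  rfl

/-- the Euler polynomial of the image of a projector -/
noncomputable def Endo.euler {D : WDRep G K} (a : Endo D) : K[X] :=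
  (LinearMap.charpoly (a.cutAct G.frob)).reverse

theorem Endo.trace_cutAct_pow {D : WDRep G K} (a : Endo D) (ha : ∀ v, a.f (a.f v) = a.f v) (k : ℕ) :
    LinearMap.trace K a.cut (a.cutAct G.frob ^ k) = a.tau (G.frob ^ k) := by
  rw [← a.cutAct_pow, a.trace_cutAct ha]

/-- linear combinations -/
noncomputable def Endo.comb {D : WDRep G K} {ι : Type} (s : Finset ι) (c : ι → K) (a : ι → Endo D) :
    Endo D where
  f := ∑ i ∈ s, c i • (a i).f
  comm_ρ w v := by
    simp only [LinearMap.sum_apply, LinearMap.smul_apply, map_sum, map_smul, (a _).comm_ρ]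
  comm_N v := by
    simp only [LinearMap.sum_apply, LinearMap.smul_apply, map_sum, map_smul, (a _).comm_N]

theorem Endo.tau_comb {D : WDRep G K} {ι : Type} (s : Finset ι) (c : ι → K) (a : ι → Endo D) (w : W) :
    (Endo.comb s c a).tau w = ∑ i ∈ s, c i * (a i).tau w := by
  have h1 : (Endo.comb s c a).onInv = ∑ i ∈ s, c i • (a i).onInv := by
    refine LinearMap.ext fun v => Subtype.ext ?_
    rw [LinearMap.sum_apply, Submodule.coe_sum]
    show (∑ i ∈ s, c i • (a i).f) v.1 = _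
    rw [LinearMap.sum_apply]
    rfl
  unfold Endo.tau
  rw [h1, Finset.mul_sum, map_sum]
  refine Finset.sum_congr rfl fun i _ => ?_
  rw [mul_smul_comm, map_smul, smul_eq_mul]

/-- the identity -/
def Endo.id (D : WDRep G K) : Endo D where
  f := 1
  comm_ρ _ _ := rfl
  comm_N _ := rfl

theorem Endo.kap_id (D : WDRep G K) (w : W) : (Endo.id D).kap w = D.kap 1 w := by
  unfold Endo.kap WDRep.kap
  congr 1

theorem Endo.kap_ext {D : WDRep G K} (a b : Endo D) (h : a.f = b.f) (w : W) : a.kap w = b.kap w := by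
  cases a; cases b; cases h; rfl

end One

section Two

variable {W : Type} [Group W] [TopologicalSpace W] [IsTopologicalGroup W] {G : WeilData W}
  {K₁ K₂ : Type} [Field K₁] [Field K₂] [CharZero K₁] [CharZero K₂]

/-- the traces of `w a` on the kernel of `N` are common rational numbers, positive degrees -/
def SameEndo {D₁ : WDRep G K₁} {D₂ : WDRep G K₂} (a₁ : Endo D₁) (a₂ : Endo D₂) : Prop :=
  ∀ w : W, 1 ≤ G.d w → RatPair (a₁.kap w) (a₂.kap w)

/-- all degrees -/
theorem SameEndo.all {D₁ : WDRep G K₁} {D₂ : WDRep G K₂} {a₁ : Endo D₁} {a₂ : Endo D₂}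
    (h : SameEndo a₁ a₂) (h0 : SameKap 1 D₁ D₂) (w : W) :
    RatPair (a₁.kap w) (a₂.kap w) := by
  let s : ℕ := 1 + (G.d w).natAbs
  let z : W := G.frob ^ s
  have hz : G.d z = s := by show G.d (G.frob ^ s) = s; rw [G.d_pow, G.d_frob, mul_one]
  have hs : (s : ℤ) = 1 + |G.d w| := by
    show ((1 + (G.d w).natAbs : ℕ) : ℤ) = _
    push_cast
    rfl
  have hunit : ∀ {K : Type} [Field K] (D : WDRep G K), IsUnit (D.actKer 1 z) := by
    intro K _ D
    refine ⟨⟨D.actKer 1 z, D.actKer 1 z⁻¹, ?_, ?_⟩, rfl⟩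
    · rw [← D.actKer_mul, mul_inv_cancel, D.actKer_one]
    · rw [← D.actKer_mul, inv_mul_cancel, D.actKer_one]
  have hcomm : ∀ {K : Type} [Field K] [CharZero K] {D : WDRep G K} (a : Endo D) (k : ℕ),
      D.actKer 1 w * a.onKer * D.actKer 1 z ^ k = D.actKer 1 (w * z ^ k) * a.onKer := by
    intro K _ _ D a k
    rw [← D.actKer_pow, D.actKer_mul, mul_assoc, mul_assoc]
    congr 1
    refine LinearMap.ext fun v => Subtype.ext ?_
    exact a.comm_ρ (z ^ k) v.1
  refine trace_extend (D₁.actKer 1 z) (D₂.actKer 1 z) (hunit D₁) (hunit D₂) _ _ ?_ ?_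
  · intro k hk
    rw [← D₁.actKer_pow, ← D₂.actKer_pow]
    refine h0 (z ^ k) ?_
    rw [G.d_pow, hz, hs]
    have : (1 : ℤ) ≤ k := by exact_mod_cast hk
    nlinarith [abs_nonneg (G.d w)]
  · intro k hk
    rw [hcomm a₁, hcomm a₂]
    refine h (w * z ^ k) ?_
    rw [G.d_mul, G.d_pow, hz, hs]
    have : (1 : ℤ) ≤ k := by exact_mod_cast hk
    have h2 := neg_abs_le (G.d w)
    nlinarith [abs_nonneg (G.d w)]

/-- the traces on the invariants -/
theorem SameEndo.tau {D₁ : WDRep G K₁} {D₂ : WDRep G K₂} {a₁ : Endo D₁} {a₂ : Endo D₂}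
    (h : SameEndo a₁ a₂) (w : W) (hw : 1 ≤ G.d w) : RatPair (a₁.tau w) (a₂.tau w) := by
  obtain ⟨J, hJn, hJo, hJd, hJ1, hJ2⟩ := exists_J D₁ D₂
  have := finite_quo (G := G) J hJo
  have := Fintype.ofFinite (Quo G J)
  have hcard : (Fintype.card (Quo G J) : ℚ) ≠ 0 := by
    have : Nonempty (Quo G J) := ⟨((1 : G.deg.ker) : Quo G J)⟩
    exact_mod_cast Fintype.card_ne_zero
  refine RatPair.cancel hcard ?_
  push_cast
  rw [a₁.card_mul_tau J hJ1 w, a₂.card_mul_tau J hJ2 w]
  refine ratPair_sum _ _ _ fun x _ => h _ ?_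
  rw [G.d_mul, d_rep]
  omega

/-- the traces on the kernel of `N` from the Euler factors of the twisted forms -/
theorem sameEndo_of_euler {D₁ : WDRep G K₁} {D₂ : WDRep G K₂} (A₁ : Powers D₁) (A₂ : Powers D₂)
    (h : ∀ (E : Subgroup W) (hE : IsOpen (E : Set W)) (hfin : Finite (W ⧸ E)) (f : ℤ) (_ : 1 ≤ f)
      (hf : ∀ g ∈ E, f ∣ G.d g) (_ : ∃ g ∈ E, G.d g = f),
      SameEuler (D₁.tw A₁ E f hf hE hfin) (D₂.tw A₂ E f hf hE hfin)) :
    SameEndo (A₁.endo 1) (A₂.endo 1) := by
  intro w hw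
  obtain ⟨J, hJn, hJo, hJd, hJ1, hJ2⟩ := exists_J D₁ D₂
  have := finite_quo (G := G) J hJo
  have := Fintype.ofFinite (Quo G J)
  have hE := isOpen_gen w J hJo
  have hfin := finite_gen (G := G) w hw J hJo
  have hne : ((permSum (G := G) J w : ℕ) : ℚ) ≠ 0 := by exact_mod_cast permSum_ne_zero J w hfin
  refine RatPair.cancel hne ?_
  have h1 := card_mul_tau_tw D₁ A₁ J hJd hJ1 w hw hE hfin
  have h2 := card_mul_tau_tw D₂ A₂ J hJd hJ2 w hw hE hfin
  push_cast
  rw [← h1, ← h2]
  refine RatPair.mul ⟨(Fintype.card (Quo G J) : ℚ), by push_cast; rfl, by push_cast; rfl⟩ ?_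
  exact h _ hE hfin _ hw (gen_dvd J hJd w)
    ⟨w, (le_sup_left : Subgroup.zpowers w ≤ gen w J) (Subgroup.mem_zpowers w), rfl⟩ w hw

/-- the Euler polynomials of the images of projectors -/
theorem endo_euler_pair {D₁ : WDRep G K₁} {D₂ : WDRep G K₂} (a₁ : Endo D₁) (a₂ : Endo D₂)
    (h₁ : ∀ v, a₁.f (a₁.f v) = a₁.f v) (h₂ : ∀ v, a₂.f (a₂.f v) = a₂.f v)
    (h : ∀ w : W, 1 ≤ G.d w → RatPair (a₁.tau w) (a₂.tau w)) (k : ℕ) :
    RatPair (a₁.euler.coeff k) (a₂.euler.coeff k) := by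
  refine coeff_of_traces _ _ (fun n hn => ?_) k
  rw [a₁.trace_cutAct_pow h₁, a₂.trace_cutAct_pow h₂]
  refine h _ ?_
  rw [G.d_pow, G.d_frob]
  omega

end Two

end Pool.Agent.X310.WD
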