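import Pool.Agent.X310.WdH

set_option autoImplicit false
set_option linter.unusedSectionVars false

/-! # The cohomology of varieties at a prime -/

namespace Pool.Agent.X310.WD

open Polynomial

variable {W : Type} [Group W] [TopologicalSpace W] [IsTopologicalGroup W]

/-- The Weil–Deligne representations attached to the `ℓ`-adic cohomology (`ℓ` in the index set
`Λ`, coefficients `K ℓ`) of smooth projective varieties over `ℚ` at a prime `p`, with the
known facts used: hard Lefschetz, the products of `X` with the projective line, with the spectra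
of number fields, with an elliptic curve having split multiplicative reduction at `p` and with an
elliptic curve having good ordinary reduction at `p`, and the integrality of Frobenius. -/
structure Varieties (G : WeilData W) (Λ : Type) (K : Λ → Type) [∀ l, Field (K l)]
    [∀ l, CharZero (K l)] where
  /-- the varieties -/
  Var : Type
  /-- the dimension -/
  dim : Var → ℕ
  /-- the cohomology `H ^ i` -/
  H : Var → ℤ → (l : Λ) → WDRep G (K l)
  lefschetz : ∀ (X : Var) (j : ℕ) (l : Λ),
    Nonempty (Iso (H X (dim X + j) l) ((H X (dim X - j) l).tate j))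
  line : ∀ X : Var, ∃ Y : Var, dim Y = dim X + 1 ∧ ∀ i l,
    Nonempty (Iso (H Y i l) ((H X i l).prod ((H X (i - 2) l).tate 1)))
  ext : ∀ (X : Var) (E : Subgroup W) (hE : IsOpen (E : Set W)) (hf : Finite (W ⧸ E)),
    ∃ Y : Var, dim Y = dim X ∧ ∀ i l, Nonempty (Iso (H Y i l) ((H X i l).perm E hE hf))
  timesTateCurve : ∀ X : Var, ∃ Y : Var, dim Y = dim X + 1 ∧ ∀ i l,
    Nonempty (Iso (H Y i l)
      (((H X i l).prod (H X (i - 1) l).tateCurve).prod ((H X (i - 2) l).tate 1)))
  /-- the matrix of Frobenius on `H ^ 1` of an ordinary elliptic curve -/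
  ord : GL (Fin 2) ℚ
  ord_trace : ∀ k : ℕ, 1 ≤ k → ((ord ^ k : GL (Fin 2) ℚ) : Matrix (Fin 2) (Fin 2) ℚ).trace ≠ 0
  timesOrdinary : ∀ X : Var, ∃ Y : Var, dim Y = dim X + 1 ∧ ∀ i l,
    Nonempty (Iso (H Y i l)
      (((H X i l).prod ((H X (i - 1) l).unram ord)).prod ((H X (i - 2) l).tate 1)))
  integral : ∀ X i l, ∃ P : ℤ[X], P.Monic ∧
    aeval ((H X i l).ρ G.frob) (P.map (Int.castRingHom (K l))) = 0

/-- the Euler factors are one polynomial with integer coefficients for all `ℓ` -/
def IntegralEuler {G : WeilData W} {Λ : Type} {K : Λ → Type} [∀ l, Field (K l)]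
    [∀ l, CharZero (K l)] (D : ∀ l, WDRep G (K l)) : Prop :=
  ∃ P : ℤ[X], ∀ l, (D l).euler = P.map (Int.castRingHom (K l))

/-- the Euler factors are one polynomial with rational coefficients for all `ℓ` -/
def RationalEuler {G : WeilData W} {Λ : Type} {K : Λ → Type} [∀ l, Field (K l)]
    [∀ l, CharZero (K l)] (D : ∀ l, WDRep G (K l)) : Prop :=
  ∃ P : ℚ[X], ∀ l, (D l).euler = P.map (algebraMap ℚ (K l))

/-- the traces of the whole Weil group on the kernels of all powers of the monodromy operator are
rational numbers which do not depend on `ℓ` -/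
def RationalWD {G : WeilData W} {Λ : Type} {K : Λ → Type} [∀ l, Field (K l)]
    [∀ l, CharZero (K l)] (D : ∀ l, WDRep G (K l)) : Prop :=
  ∀ (m : ℕ) (w : W), ∃ c : ℚ, ∀ l, LinearMap.trace (K l) ((D l).kerPow m) ((D l).actKer m w) = c

section

variable {G : WeilData W} {Λ : Type} {K : Λ → Type} [∀ l, Field (K l)] [∀ l, CharZero (K l)]

theorem rationalEuler_iff (D : ∀ l, WDRep G (K l)) :
    RationalEuler D ↔ ∀ l l', SameEuler (D l) (D l') := by
  constructor
  · rintro ⟨P, hP⟩ l l'
    rw [sameEuler_iff]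
    intro k
    rw [hP, hP, coeff_map, coeff_map]
    exact ⟨P.coeff k, rfl, rfl⟩
  · intro h
    exact poly_of_pairs _ fun k l l' => (sameEuler_iff _ _).1 (h l l') k

theorem rationalWD_iff (D : ∀ l, WDRep G (K l)) :
    RationalWD D ↔ ∀ m l l', SameKap m (D l) (D l') := by
  constructor
  · intro h m l l' w _
    obtain ⟨c, hc⟩ := h m w
    exact ⟨c, hc l, hc l'⟩
  · intro h m w
    exact ratInd_of_pairs (fun l => (D l).kap m w) fun l l' => (h m l l').all w

theorem RationalEuler.of_integral {D : ∀ l, WDRep G (K l)} (h : IntegralEuler D) :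
    RationalEuler D := by
  obtain ⟨P, hP⟩ := h
  refine ⟨P.map (Int.castRingHom ℚ), fun l => ?_⟩
  rw [hP, Polynomial.map_map]
  congr 1
  exact RingHom.ext_int _ _

/-- integrality of the Euler factor -/
theorem IntegralEuler.of_rational {D : ∀ l, WDRep G (K l)} (h : RationalEuler D)
    (hint : ∀ l, ∃ P : ℤ[X], P.Monic ∧ aeval ((D l).ρ G.frob) (P.map (Int.castRingHom (K l))) = 0) :
    IntegralEuler D := by
  obtain ⟨P, hP⟩ := h
  by_cases hΛ : Nonempty Λ
  · obtain ⟨l⟩ := hΛ
    obtain ⟨p, hp, hpl⟩ := hint l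
    have h1 : aeval ((D l).actInv G.frob) (p.map (Int.castRingHom (K l))) = 0 := by
      have key : ∀ (Q : (K l)[X]) (x : (D l).inv),
          ((aeval ((D l).actInv G.frob) Q x : (D l).inv) : (D l).V) =
            aeval ((D l).ρ G.frob) Q (x : (D l).V) := by
        intro Q x
        induction Q using Polynomial.induction_on' generalizing x with
        | add p q hp hq =>
          rw [map_add, map_add, LinearMap.add_apply, LinearMap.add_apply, Submodule.coe_add, hp, hq]
        | monomial n a =>
          rw [aeval_monomial, aeval_monomial, Module.End.mul_apply, Module.End.mul_apply,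
            Module.algebraMap_end_apply, Module.algebraMap_end_apply, Submodule.coe_smul]
          congr 1
          induction n with
          | zero => rfl
          | succ n ih =>
            rw [pow_succ', pow_succ', Module.End.mul_apply, Module.End.mul_apply, ← ih]
            rfl
      refine LinearMap.ext fun x => Subtype.ext ?_
      rw [key, hpl]
      rfl
    have hcoef : ∀ n, ∃ z : ℤ, (z : ℚ) = P.coeff n := by
      intro n
      refine int_of_integral (K := K l) _ ?_
      have h2 : ((P.coeff n : ℚ) : K l) = (D l).euler.coeff n := by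
        rw [hP, coeff_map]; rfl
      rw [h2]
      unfold WDRep.euler
      rw [coeff_reverse]
      exact charpoly_coeff_integral _ p hp h1 _
    choose z hz using hcoef
    refine ⟨∑ k ∈ Finset.range (P.natDegree + 1), monomial k (z k), fun l' => ?_⟩
    rw [hP]
    refine Polynomial.ext fun k => ?_
    rw [coeff_map, coeff_map, finset_sum_coeff]
    simp only [coeff_monomial]
    rw [Finset.sum_ite_eq' (Finset.range (P.natDegree + 1)) k z]
    by_cases hk : k ∈ Finset.range (P.natDegree + 1)
    · rw [if_pos hk, ← hz]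
      simp
    · rw [if_neg hk, map_zero]
      have h1 : P.coeff k = 0 := coeff_eq_zero_of_natDegree_lt (by
        rw [Finset.mem_range] at hk; omega)
      rw [h1, map_zero]
  · exact ⟨0, fun l => absurd ⟨l⟩ hΛ⟩

end

section

variable {G : WeilData W} {K₁ K₂ : Type} [Field K₁] [Field K₂] [CharZero K₁] [CharZero K₂]

/-! ### transport of the pair conditions -/

theorem SameEuler.congr {D₁ D₁' : WDRep G K₁} {D₂ D₂' : WDRep G K₂} (h : SameEuler D₁ D₂)
    (e₁ : Nonempty (Iso D₁' D₁)) (e₂ : Nonempty (Iso D₂' D₂)) : SameEuler D₁' D₂' := by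
  obtain ⟨e₁⟩ := e₁
  obtain ⟨e₂⟩ := e₂
  intro w hw
  rw [e₁.tau_eq, e₂.tau_eq]
  exact h w hw

theorem SameEuler.congr' {D₁ D₁' : WDRep G K₁} {D₂ D₂' : WDRep G K₂} (h : SameEuler D₁' D₂')
    (e₁ : Nonempty (Iso D₁' D₁)) (e₂ : Nonempty (Iso D₂' D₂)) : SameEuler D₁ D₂ := by
  obtain ⟨e₁⟩ := e₁
  obtain ⟨e₂⟩ := e₂
  intro w hw
  rw [← e₁.tau_eq, ← e₂.tau_eq]
  exact h w hw

theorem sameEuler_tate {D₁ : WDRep G K₁} {D₂ : WDRep G K₂} (r : ℤ) :
    SameEuler (D₁.tate r) (D₂.tate r) ↔ SameEuler D₁ D₂ := by
  refine forall_congr' fun w => imp_congr_right fun hw => ?_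
  rw [tau_tate, tau_tate]
  have hq : ((G.q : ℚ) ^ (r * G.d w)) ≠ 0 := zpow_ne_zero _ (q_ne_zero G)
  constructor
  · intro h
    refine RatPair.cancel hq ?_
    push_cast
    exact h
  · exact (ratPair_zpow _ _).mul

theorem SameEuler.prod {D₁ D₁' : WDRep G K₁} {D₂ D₂' : WDRep G K₂} (h : SameEuler D₁ D₂)
    (h' : SameEuler D₁' D₂') : SameEuler (D₁.prod D₁') (D₂.prod D₂') := by
  intro w hw
  rw [tau_prod, tau_prod]
  exact (h w hw).add (h' w hw)

theorem SameEuler.left {D₁ D₁' : WDRep G K₁} {D₂ D₂' : WDRep G K₂}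
    (h : SameEuler (D₁.prod D₁') (D₂.prod D₂')) (h' : SameEuler D₁' D₂') : SameEuler D₁ D₂ := by
  intro w hw
  have h1 := h w hw
  rw [tau_prod, tau_prod] at h1
  have h2 := h1.sub (h' w hw)
  rwa [add_sub_cancel_right, add_sub_cancel_right] at h2

theorem SameEuler.right {D₁ D₁' : WDRep G K₁} {D₂ D₂' : WDRep G K₂}
    (h : SameEuler (D₁.prod D₁') (D₂.prod D₂')) (h' : SameEuler D₁ D₂) : SameEuler D₁' D₂' := by
  intro w hw
  have h1 := h w hw
  rw [tau_prod, tau_prod] at h1
  have h2 := h1.sub (h' w hw)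
  rwa [add_sub_cancel_left, add_sub_cancel_left] at h2

/-- a sum with a Tate twist of itself -/
theorem SameEuler.self_twist {D₁ : WDRep G K₁} {D₂ : WDRep G K₂}
    (h : SameEuler ((D₁.tate 1).prod (D₁.tate 1)) ((D₂.tate 1).prod (D₂.tate 1))) :
    SameEuler D₁ D₂ := by
  rw [← sameEuler_tate 1]
  intro w hw
  have h1 := h w hw
  rw [tau_prod, tau_prod] at h1
  refine RatPair.cancel (c := 2) two_ne_zero ?_
  push_cast
  rwa [two_mul, two_mul]

theorem sameEuler_unram {D₁ : WDRep G K₁} {D₂ : WDRep G K₂} {n : ℕ} (C : GL (Fin n) ℚ)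
    (hC : ∀ k : ℕ, 1 ≤ k → ((C ^ k : GL (Fin n) ℚ) : Matrix (Fin n) (Fin n) ℚ).trace ≠ 0)
    (h : SameEuler (D₁.unram C) (D₂.unram C)) : SameEuler D₁ D₂ := by
  intro w hw
  have h1 := h w hw
  rw [tau_unram, tau_unram] at h1
  refine RatPair.cancel ?_ h1
  unfold trC
  have h2 : (C ^ (G.d w) : GL (Fin n) ℚ) = C ^ (G.d w).toNat := by
    conv_lhs => rw [← Int.toNat_of_nonneg (show 0 ≤ G.d w by omega)]
    rw [zpow_natCast]
  rw [h2]
  exact hC _ (by omega)

theorem SameKap.congr' {m : ℕ} {D₁ D₁' : WDRep G K₁} {D₂ D₂' : WDRep G K₂} (h : SameKap m D₁' D₂')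
    (e₁ : Nonempty (Iso D₁' D₁)) (e₂ : Nonempty (Iso D₂' D₂)) : SameKap m D₁ D₂ := by
  obtain ⟨e₁⟩ := e₁
  obtain ⟨e₂⟩ := e₂
  intro w hw
  rw [← e₁.kap_eq, ← e₂.kap_eq]
  exact h w hw

end

section

variable {G : WeilData W} {Λ : Type} {K : Λ → Type} [∀ l, Field (K l)] [∀ l, CharZero (K l)]
  (S : Varieties G Λ K)

/-- from the middle degrees of even-dimensional varieties to all even degrees -/
theorem even_degrees (l l' : Λ)
    (h : ∀ X, Even (S.dim X) → SameEuler (S.H X (S.dim X) l) (S.H X (S.dim X) l')) (j : ℕ) :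
    ∀ X, Even (S.dim X + j) → SameEuler (S.H X (S.dim X - j) l) (S.H X (S.dim X - j) l') := by
  induction j using Nat.strong_induction_on with
  | _ j ih =>
    intro X hX
    rcases j with _ | j
    · have := h X (by simpa using hX)
      simpa using this
    · obtain ⟨Y, hY, hiso⟩ := S.line X
      have hYe : Even (S.dim Y + j) := by rw [hY]; rwa [add_assoc, add_comm 1 j]
      have h1 := ih j (by omega) Y hYe
      have h2 := h1.congr' (hiso _ l) (hiso _ l')
      have e1 : (S.dim Y : ℤ) - j - 2 = S.dim X - ((j + 1 : ℕ) : ℤ) := by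
        rw [hY]; push_cast; ring
      rw [e1] at h2
      rcases j with _ | j
      · -- the middle degree of `Y`
        have e2 : (S.dim Y : ℤ) - ((0 : ℕ) : ℤ) = S.dim X + ((1 : ℕ) : ℤ) := by
          rw [hY]; push_cast; ring
        rw [e2] at h2
        have h3 := S.lefschetz X 1 l
        have h4 := S.lefschetz X 1 l'
        have e3 : (S.dim X : ℤ) - ((0 + 1 : ℕ) : ℤ) = S.dim X - ((1 : ℕ) : ℤ) := by push_cast; ring
        rw [e3] at h2 ⊢
        refine SameEuler.self_twist ?_
        intro w hw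
        have h5 := h2 w hw
        rw [tau_prod, tau_prod, h3.some.tau_eq, h4.some.tau_eq] at h5
        rw [tau_prod, tau_prod]
        exact h5
      · have e2 : (S.dim Y : ℤ) - ((j + 1 : ℕ) : ℤ) = S.dim X - (j : ℤ) := by
          rw [hY]; push_cast; ring
        rw [e2] at h2
        have h3 := ih j (by omega) X (by
          have : S.dim X + (j + 1 + 1) = (S.dim X + j) + 2 := by ring
          rw [this] at hX
          exact (Nat.even_add.1 hX).2 even_two)
        exact (sameEuler_tate 1).1 (h2.right h3)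

theorem even_degrees' (l l' : Λ)
    (h : ∀ X, Even (S.dim X) → SameEuler (S.H X (S.dim X) l) (S.H X (S.dim X) l')) (i : ℤ)
    (hi : Even i) : ∀ X, SameEuler (S.H X i l) (S.H X i l') := by
  intro X
  rcases le_total i (S.dim X) with hle | hle
  · obtain ⟨j, hj⟩ := Int.eq_ofNat_of_zero_le (sub_nonneg.2 hle)
    have e : i = S.dim X - (j : ℤ) := by omega
    have h1 := even_degrees S l l' h j X (by
      rw [e] at hi
      have h2 : Even ((S.dim X : ℤ) + j) := by
        have : (S.dim X : ℤ) + j = (S.dim X - j) + 2 * j := by ring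
        rw [this]
        exact hi.add (even_two_mul _)
      exact_mod_cast h2)
    rw [e]
    exact h1
  · obtain ⟨j, hj⟩ := Int.eq_ofNat_of_zero_le (sub_nonneg.2 hle)
    have e : i = S.dim X + (j : ℤ) := by omega
    have h1 := even_degrees S l l' h j X (by
      rw [e] at hi
      exact_mod_cast hi)
    rw [e]
    exact ((sameEuler_tate _).2 h1).congr (S.lefschetz X j l) (S.lefschetz X j l')

theorem all_degrees (l l' : Λ)
    (h : ∀ X, Even (S.dim X) → SameEuler (S.H X (S.dim X) l) (S.H X (S.dim X) l')) (i : ℤ) :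
    ∀ X, SameEuler (S.H X i l) (S.H X i l') := by
  intro X
  rcases Int.even_or_odd i with hi | hi
  · exact even_degrees' S l l' h i hi X
  · obtain ⟨Y, hY, hiso⟩ := S.timesOrdinary X
    have hi1 : Even (i + 1) := hi.add_one
    have hi2 : Even (i - 1) := hi.sub_odd odd_one
    have h1 := (even_degrees' S l l' h (i + 1) hi1 Y).congr' (hiso _ l) (hiso _ l')
    have e1 : i + 1 - 1 = i := by ring
    have e2 : i + 1 - 2 = i - 1 := by ring
    rw [e1, e2] at h1
    have h2 := even_degrees' S l l' h (i + 1) hi1 X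
    have h3 := (sameEuler_tate 1).2 (even_degrees' S l l' h (i - 1) hi2 X)
    have h4 := (h1.left h3).right h2
    exact sameEuler_unram S.ord S.ord_trace h4

theorem sameKap_all (l l' : Λ) (h : ∀ i X, SameEuler (S.H X i l) (S.H X i l')) (m : ℕ) :
    ∀ i X, SameKap m (S.H X i l) (S.H X i l') := by
  induction m using Nat.strong_induction_on with
  | _ m ih =>
    rcases m with _ | m
    · intro i X w hw
      rw [WDRep.kap_zero, WDRep.kap_zero]
      exact ⟨0, by simp, by simp⟩
    · rcases m with _ | m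
      · intro i X
        refine sameKap_of_euler fun E hE hf => ?_
        obtain ⟨Y, _, hiso⟩ := S.ext X E hE hf
        exact (h i Y).congr' (hiso i l) (hiso i l')
      · intro i X w hw
        obtain ⟨Y, hY, hiso⟩ := S.timesTateCurve X
        have h1 := (ih (m + 1) (by omega) (i + 1) Y).congr' (hiso _ l) (hiso _ l') w hw
        have e1 : i + 1 - 1 = i := by ring
        have e2 : i + 1 - 2 = i - 1 := by ring
        rw [e1, e2] at h1
        rw [kap_prod, kap_prod, kap_prod, kap_prod, kap_tateCurve, kap_tateCurve, kap_tate,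
          kap_tate] at h1
        have h2 := ih (m + 1) (by omega) (i + 1) X w hw
        have h3 := (ratPair_zpow (K₁ := K l) (K₂ := K l') G.q (1 * G.d w)).mul
          (ih (m + 1) (by omega) (i - 1) X w hw)
        have h4 := (ratPair_zpow (K₁ := K l) (K₂ := K l') G.q (G.d w)).mul (ih m (by omega) i X w hw)
        have h5 := ((h1.sub h3).sub h2).sub h4
        have hring : ∀ {F : Type} [Field F] (a b c d : F), a + (b + c) + d - d - a - c = b := by
          intro F _ a b c d; ring
        rw [hring, hring] at h5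
        exact h5

/-- **Main theorem** -/
theorem main_tfae : List.TFAE [
    ∀ X, Even (S.dim X) → IntegralEuler fun l => S.H X (S.dim X) l,
    ∀ X i, IntegralEuler fun l => S.H X i l,
    ∀ X i, RationalWD fun l => S.H X i l] := by
  tfae_have 1 → 3 := by
    intro h X i
    rw [rationalWD_iff]
    intro m l l'
    exact sameKap_all S l l' (fun i X => all_degrees S l l' (fun X hX =>
      (rationalEuler_iff _).1 (RationalEuler.of_integral (h X hX)) l l') i X) m i X
  tfae_have 3 → 2 := by
    intro h X i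
    refine IntegralEuler.of_rational ((rationalEuler_iff _).2 fun l l' => ?_) (S.integral X i)
    exact sameEuler_of_kap ((rationalWD_iff _).1 (h X i) 1 l l')
  tfae_have 2 → 1 := fun h X _ => h X _
  tfae_finish

end

end Pool.Agent.X310.WD
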