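import Pool.Agent.X310.WdP

set_option autoImplicit false

/-! # Varieties with automorphisms: the definitions of the statements -/

namespace Pool.Agent.X310.WD

open Polynomial Matrix

section

variable {W : Type} [Group W] [TopologicalSpace W] {G : WeilData W} {K : Type} [Field K]

open scoped Classical in
/-- `Y` is isomorphic to the representation of the Weil group induced from the twist of `A`,
restricted to the subgroup `E`, by the unramified character which maps the elements of `E` of degree
`c f` to `α c`, in the basis given by representatives of the cosets of `E` -/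
def IsTwistedForm (E : Subgroup W) [Fintype (W ⧸ E)] (f : ℕ) (Y A : Rep G K)
    (α : ℤ → Matrix (Fin A.n) (Fin A.n) K) : Prop :=
  Y.IsConj (fun w => of fun (x y : (W ⧸ E) × Fin A.n) =>
      if w⁻¹ • x.1 = y.1 then
        (A.ρ w * α ((G.d w + G.d y.1.out - G.d x.1.out) / (f : ℤ))) x.2 y.2
      else 0)
    (of fun (x y : (W ⧸ E) × Fin A.n) => if x.1 = y.1 then A.N x.2 y.2 else 0)

/-- An action of a group on a Weil–Deligne representation. -/
structure Action (A : Type) [Group A] (D : Rep G K) where
  /-- the matrices of the elements of the group -/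
  act : A →* Matrix (Fin D.n) (Fin D.n) K
  act_ρ : ∀ a w, act a * D.ρ w = D.ρ w * act a
  act_N : ∀ a, act a * D.N = D.N * act a

/-- the action of a rational linear combination of elements of the group -/
def Action.comb {A : Type} [Group A] {D : Rep G K} (α : Action A D) (e : A →₀ ℚ) :
    Matrix (Fin D.n) (Fin D.n) K :=
  ∑ a ∈ e.support, (e a : K) • α.act a

/-- the linear combination `e` acts as a projector -/
def Action.IsProj {A : Type} [Group A] {D : Rep G K} (α : Action A D) (e : A →₀ ℚ) : Prop :=
  α.comb e * α.comb e = α.comb e

/-- `t` is the trace of `w a` on the kernel of `N` -/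
def Action.IsKerTrace {A : Type} [Group A] {D : Rep G K} (α : Action A D) (a : A) (w : W) (t : K) :
    Prop :=
  IsTraceOn (LinearMap.ker D.N.mulVecLin) (D.ρ w * α.act a) t

/-- `P` is the Euler polynomial `det (1 - T Frob | (ker N) ^ I)` of the image of `e` -/
def Action.IsEuler {A : Type} [Group A] {D : Rep G K} (α : Action A D) (e : A →₀ ℚ) (P : K[X]) :
    Prop :=
  IsEulerPoly (invariants D.N (D.ρ '' {w | G.d w = 0}) ⊓ LinearMap.range (α.comb e).mulVecLin)
    (D.ρ G.frob) P

end

/-- The Weil–Deligne representations attached to the `ℓ`-adic cohomology (`ℓ` in the index set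
`Λ`, coefficients `K ℓ`) of a class of smooth projective varieties over `ℚ` at a prime `p`, with
the action of groups of automorphisms of the varieties; the class contains the twisted forms of
`X` over number fields `F` with one place over `p`, unramified at this place, by automorphisms of
finite order of `X`, considered as varieties over `ℚ`. -/
structure EquivariantClass {W : Type} [Group W] [TopologicalSpace W] (G : WeilData W) (Λ : Type)
    (K : Λ → Type) [∀ l, Field (K l)] where
  /-- the varieties -/
  Var : Type
  /-- the cohomology `H ^ i` -/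
  H : Var → ℤ → (l : Λ) → Rep G (K l)
  /-- the automorphisms -/
  Aut : Var → Type
  [grp : ∀ X, Group (Aut X)]
  /-- the action of the automorphisms on the cohomology -/
  act : ∀ (X : Var) (i : ℤ) (l : Λ), Action (Aut X) (H X i l)
  twisted : ∀ (X : Var) (a : Aut X), IsOfFinOrder a → ∀ (E : Subgroup W) [Fintype (W ⧸ E)] (f : ℕ),
    1 ≤ f → IsOpen (E : Set W) → (∀ g ∈ E, (f : ℤ) ∣ G.d g) → (∃ g ∈ E, G.d g = f) →
      ∃ Y : Var, ∀ i l, IsTwistedForm E f (H Y i l) (H X i l) fun c => (act X i l).act (a ^ c)

attribute [instance] EquivariantClass.grp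

section

variable {W : Type} [Group W] [TopologicalSpace W] {G : WeilData W} {Λ : Type} {K : Λ → Type}
  [∀ l, Field (K l)] (S : EquivariantClass G Λ K)

/-- the traces of the products `w a` on the kernel of the monodromy operator are rational numbers
which do not depend on `ℓ`, for all elements `w` of the Weil group -/
def EquivariantClass.RationalKerTraces (X : S.Var) (i : ℤ) (a : S.Aut X) : Prop :=
  ∀ w : W, ∃ c : ℚ, ∀ l, (S.act X i l).IsKerTrace a w c

/-- the Euler factors of the image of `e` are one polynomial with rational coefficients for
all `ℓ` -/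
def EquivariantClass.RationalMotive [∀ l, CharZero (K l)] (X : S.Var) (i : ℤ)
    (e : S.Aut X →₀ ℚ) : Prop :=
  ∃ P : ℚ[X], ∀ l, (S.act X i l).IsEuler e (P.map (algebraMap ℚ (K l)))

end

end Pool.Agent.X310.WD
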