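import Pool.Agent.X310.WdX
import Pool.Agent.X310.WdQ
import Pool.Agent.X310.WdT

set_option autoImplicit false
set_option linter.unusedSectionVars false

/-! # Motives cut out by automorphisms of finite order -/

namespace Pool.Agent.X310.WD

open Polynomial Matrix

section

variable {W : Type} [Group W] [TopologicalSpace W] [IsTopologicalGroup W] {G : WeilData W}
  {K : Type} [Field K] [CharZero K]

/-- the endomorphism given by a matrix -/
def mkEndo (D : Rep G K) (M : Matrix (Fin D.n) (Fin D.n) K) (hρ : ∀ w, M * D.ρ w = D.ρ w * M)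
    (hN : M * D.N = D.N * M) : Endo D.toWD where
  f := toLin' M
  comm_ρ w v := by
    show toLin' M (toLin' (D.ρ w) v) = toLin' (D.ρ w) (toLin' M v)
    simp only [toLin'_apply]
    rw [mulVec_mulVec, mulVec_mulVec, hρ]
  comm_N v := by
    show toLin' M (toLin' D.N v) = toLin' D.N (toLin' M v)
    simp only [toLin'_apply]
    rw [mulVec_mulVec, mulVec_mulVec, hN]

/-- the powers of an automorphism given by matrices -/
def mkPowers (D : Rep G K) (α : ℤ → Matrix (Fin D.n) (Fin D.n) K) (h0 : α 0 = 1)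
    (hadd : ∀ m n, α (m + n) = α m * α n) (hρ : ∀ n w, α n * D.ρ w = D.ρ w * α n)
    (hN : ∀ n, α n * D.N = D.N * α n) : Powers D.toWD where
  α n := (mkEndo D (α n) (hρ n) (hN n)).f
  zero := by
    show toLin' (α 0) = 1
    rw [h0, toLin'_one]
    rfl
  add m n := by
    show toLin' (α (m + n)) = toLin' (α m) * toLin' (α n)
    rw [hadd, toLin'_mul]
    rfl
  comm_ρ n := (mkEndo D (α n) (hρ n) (hN n)).comm_ρ
  comm_N n := (mkEndo D (α n) (hρ n) (hN n)).comm_N

theorem IsTwistedForm.iso {E : Subgroup W} [Fintype (W ⧸ E)] {f : ℕ} {Y A : Rep G K}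
    {α : ℤ → Matrix (Fin A.n) (Fin A.n) K} (h : IsTwistedForm E f Y A α) (h0 : α 0 = 1)
    (hadd : ∀ m n, α (m + n) = α m * α n) (hρ : ∀ n w, α n * A.ρ w = A.ρ w * α n)
    (hN : ∀ n, α n * A.N = A.N * α n) (hf : ∀ g ∈ E, (f : ℤ) ∣ G.d g)
    (hE : IsOpen (E : Set W)) (hfin : Finite (W ⧸ E)) :
    Nonempty (Iso Y.toWD (A.toWD.tw (mkPowers A α h0 hadd hρ hN) E f hf hE hfin)) := by
  classical
  refine Rep.IsConj.iso h _ (LinearEquiv.curry K K (W ⧸ E) (Fin A.n)) (fun w x => ?_) (fun x => ?_)
  · refine funext fun i => funext fun a => ?_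
    show ∑ y : (W ⧸ E) × Fin A.n, (if w⁻¹ • i = y.1 then
        (A.ρ w * α ((G.d w + G.d y.1.out - G.d i.out) / (f : ℤ))) a y.2 else 0) * x y =
      toLin' (A.ρ w) (toLin' (α (expo G E f w i)) (fun t => x (w⁻¹ • i, t))) a
    rw [toLin'_apply, toLin'_apply, mulVec_mulVec, Fintype.sum_prod_type]
    rw [Finset.sum_eq_single (w⁻¹ • i)]
    · simp only [if_true]
      rfl
    · intro y _ hy
      simp only [if_neg (Ne.symm hy), zero_mul, Finset.sum_const_zero]
    · intro h; exact absurd (Finset.mem_univ _) h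
  · refine funext fun i => funext fun a => ?_
    show ∑ y : (W ⧸ E) × Fin A.n, (if i = y.1 then A.N a y.2 else 0) * x y =
      ∑ t, A.N a t * x (i, t)
    rw [Fintype.sum_prod_type]
    simp

theorem isTraceOn_iff (D : Rep G K) (M : Matrix (Fin D.n) (Fin D.n) K)
    (hρ : ∀ w, M * D.ρ w = D.ρ w * M) (hN : M * D.N = D.N * M) (w : W) (t : K) :
    IsTraceOn (LinearMap.ker D.N.mulVecLin) (D.ρ w * M) t ↔ (mkEndo D M hρ hN).kap w = t := by
  have hk : ∀ v : Fin D.n → K, v ∈ LinearMap.ker D.N.mulVecLin ↔ v ∈ D.toWD.kerPow 1 := by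
    intro v
    have h := mem_ker_iff D 1 v
    have e : D.N ^ 1 = D.N := pow_one _
    rw [e] at h
    exact h.symm
  let e : LinearMap.ker D.N.mulVecLin ≃ₗ[K] D.toWD.kerPow 1 :=
    { toFun := fun x => ⟨x.1, (hk x.1).1 x.2⟩
      map_add' := fun _ _ => rfl
      map_smul' := fun _ _ => rfl
      invFun := fun y => ⟨y.1, (hk y.1).2 y.2⟩
      left_inv := fun _ => rfl
      right_inv := fun _ => rfl }
  let f : Module.End K (LinearMap.ker D.N.mulVecLin) :=
    e.symm.conj (D.toWD.actKer 1 w * (mkEndo D M hρ hN).onKer)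
  have hf : ∀ x : LinearMap.ker D.N.mulVecLin,
      ((f x : LinearMap.ker D.N.mulVecLin) : Fin D.n → K) = (D.ρ w * M) *ᵥ (x : Fin D.n → K) := by
    intro x
    have h1 : ((f x : LinearMap.ker D.N.mulVecLin) : Fin D.n → K) =
      toLin' (D.ρ w) (toLin' M (x : Fin D.n → K)) := rfl
    rw [h1, toLin'_apply, toLin'_apply, mulVec_mulVec]
  have hc : LinearMap.trace K _ f = (mkEndo D M hρ hN).kap w := LinearMap.trace_conj' _ _
  have key : ∀ {n : ℕ} (A : Matrix (Fin n) (Fin n) K),
      IsRestriction (LinearMap.ker D.N.mulVecLin) (D.ρ w * M) A →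
        A.trace = (mkEndo D M hρ hN).kap w := by
    intro n A hA
    rw [← hc, ← hA.trace_eq f hf]
  constructor
  · rintro ⟨n, A, hA, rfl⟩
    exact (key A hA).symm
  · intro h
    obtain ⟨n, A, hA⟩ := exists_isRestriction _ _ f hf
    exact ⟨n, A, hA, (key A hA).trans h⟩

theorem isEulerPoly_iff (D : Rep G K) (M : Matrix (Fin D.n) (Fin D.n) K)
    (hρ : ∀ w, M * D.ρ w = D.ρ w * M) (hN : M * D.N = D.N * M) (hM : M * M = M) (P : K[X]) :
    IsEulerPoly (invariants D.N (D.ρ '' {w | G.d w = 0}) ⊓ LinearMap.range M.mulVecLin)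
      (D.ρ G.frob) P ↔ (mkEndo D M hρ hN).euler = P := by
  have hk : ∀ v : Fin D.n → K,
      v ∈ invariants D.N (D.ρ '' {w | G.d w = 0}) ⊓ LinearMap.range M.mulVecLin ↔
        v ∈ (mkEndo D M hρ hN).cut := by
    intro v
    rw [Submodule.mem_inf, ← mem_inv_iff]
    refine and_congr_right fun _ => ?_
    constructor
    · rintro ⟨u, rfl⟩
      show toLin' M (M.mulVecLin u) = M.mulVecLin u
      rw [toLin'_apply, mulVecLin_apply, mulVec_mulVec, hM]
    · intro h
      refine ⟨v, ?_⟩
      have h' : toLin' M v = v := h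
      rw [toLin'_apply] at h'
      rw [mulVecLin_apply]
      exact h'
  let e : (invariants D.N (D.ρ '' {w | G.d w = 0}) ⊓ LinearMap.range M.mulVecLin :
      Submodule K (Fin D.n → K)) ≃ₗ[K] (mkEndo D M hρ hN).cut :=
    { toFun := fun x => ⟨x.1, (hk x.1).1 x.2⟩
      map_add' := fun _ _ => rfl
      map_smul' := fun _ _ => rfl
      invFun := fun y => ⟨y.1, (hk y.1).2 y.2⟩
      left_inv := fun _ => rfl
      right_inv := fun _ => rfl }
  let f : Module.End K (invariants D.N (D.ρ '' {w | G.d w = 0}) ⊓ LinearMap.range M.mulVecLin :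
      Submodule K (Fin D.n → K)) := e.symm.conj ((mkEndo D M hρ hN).cutAct G.frob)
  have hf : ∀ x : (invariants D.N (D.ρ '' {w | G.d w = 0}) ⊓ LinearMap.range M.mulVecLin :
      Submodule K (Fin D.n → K)), ((f x : (invariants D.N (D.ρ '' {w | G.d w = 0}) ⊓
        LinearMap.range M.mulVecLin : Submodule K (Fin D.n → K))) : Fin D.n → K) =
        D.ρ G.frob *ᵥ (x : Fin D.n → K) := fun x => rfl
  have hc : f.charpoly = ((mkEndo D M hρ hN).cutAct G.frob).charpoly := LinearEquiv.charpoly_conj _ _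
  have key : ∀ {m : ℕ} (A : Matrix (Fin m) (Fin m) K),
      IsRestriction (invariants D.N (D.ρ '' {w | G.d w = 0}) ⊓ LinearMap.range M.mulVecLin)
        (D.ρ G.frob) A → A.charpolyRev = (mkEndo D M hρ hN).euler := by
    intro m A hA
    unfold Endo.euler
    rw [← hc, ← hA.charpoly_eq f hf, Matrix.reverse_charpoly]
  constructor
  · rintro ⟨m, A, hA, rfl⟩
    exact (key A hA).symm
  · intro h
    obtain ⟨m, A, hA⟩ := exists_isRestriction _ _ f hf
    exact ⟨m, A, hA, (key A hA).trans h⟩

end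

section

variable {W : Type} [Group W] [TopologicalSpace W] [IsTopologicalGroup W] {G : WeilData W}
  {Λ : Type} {K : Λ → Type} [∀ l, Field (K l)] [∀ l, CharZero (K l)] (S : EquivariantClass G Λ K)

/-- the endomorphism given by an automorphism -/
def EquivariantClass.endo (X : S.Var) (i : ℤ) (l : Λ) (a : S.Aut X) : Endo (S.H X i l).toWD :=
  mkEndo _ ((S.act X i l).act a) ((S.act X i l).act_ρ a) ((S.act X i l).act_N a)

theorem rationalKerTraces_iff (X : S.Var) (i : ℤ) (a : S.Aut X) :
    S.RationalKerTraces X i a ↔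
      ∀ w : W, ∃ c : ℚ, ∀ l, (S.endo X i l a).kap w = (c : K l) :=
  forall_congr' fun w => exists_congr fun c => forall_congr' fun l => isTraceOn_iff _ _ _ _ _ _

theorem comb_ρ (X : S.Var) (i : ℤ) (l : Λ) (e : S.Aut X →₀ ℚ) (w : W) :
    (S.act X i l).comb e * (S.H X i l).ρ w = (S.H X i l).ρ w * (S.act X i l).comb e := by
  unfold Action.comb
  rw [Finset.sum_mul, Finset.mul_sum]
  refine Finset.sum_congr rfl fun a _ => ?_
  rw [smul_mul_assoc, mul_smul_comm, (S.act X i l).act_ρ]

theorem comb_N (X : S.Var) (i : ℤ) (l : Λ) (e : S.Aut X →₀ ℚ) :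
    (S.act X i l).comb e * (S.H X i l).N = (S.H X i l).N * (S.act X i l).comb e := by
  unfold Action.comb
  rw [Finset.sum_mul, Finset.mul_sum]
  refine Finset.sum_congr rfl fun a _ => ?_
  rw [smul_mul_assoc, mul_smul_comm, (S.act X i l).act_N]

theorem mkEndo_comb (X : S.Var) (i : ℤ) (l : Λ) (e : S.Aut X →₀ ℚ) :
    (mkEndo _ ((S.act X i l).comb e) (comb_ρ S X i l e) (comb_N S X i l e)) =
      Endo.comb e.support (fun a => (e a : K l)) (fun a => S.endo X i l a) := by
  have h : ∀ {D : WDRep G (K l)} (a b : Endo D), a.f = b.f → a = b := by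
    intro D a b h
    cases a; cases b; cases h; rfl
  refine h _ _ ?_
  show toLin' ((S.act X i l).comb e) = ∑ a ∈ e.support, (e a : K l) • toLin' ((S.act X i l).act a)
  unfold Action.comb
  rw [map_sum]
  refine Finset.sum_congr rfl fun a _ => ?_
  rw [map_smul]

theorem sameEndo_of_class (h : ∀ X i, RationalFactors fun l => S.H X i l) (X : S.Var) (i : ℤ)
    (a : S.Aut X) (ha : IsOfFinOrder a) (l l' : Λ) :
    SameEndo (S.endo X i l a) (S.endo X i l' a) := by
  have h0 : ∀ l, (S.act X i l).act (a ^ (0 : ℤ)) = 1 := fun l => by rw [zpow_zero, map_one]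
  have hadd : ∀ l, ∀ m n : ℤ, (S.act X i l).act (a ^ (m + n)) =
      (S.act X i l).act (a ^ m) * (S.act X i l).act (a ^ n) :=
    fun l m n => by rw [_root_.zpow_add, map_mul]
  let A : ∀ l, Powers (S.H X i l).toWD := fun l => mkPowers (S.H X i l)
    (fun c => (S.act X i l).act (a ^ c)) (h0 l) (hadd l) (fun n w => (S.act X i l).act_ρ _ w)
    (fun n => (S.act X i l).act_N _)
  have key := sameEndo_of_euler (A l) (A l') fun E hE hfin f hf1 hf hg => by
    have := Fintype.ofFinite (W ⧸ E)
    obtain ⟨f', rfl⟩ := Int.eq_ofNat_of_zero_le (by omega : 0 ≤ f)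
    obtain ⟨Y, hY⟩ := S.twisted X a ha E f' (by omega) hE hf hg
    have h1 := (rationalEuler_iff _).1 ((rational_iff _).1 (h Y i)) l l'
    exact h1.congr' ((hY i l).iso (h0 l) (hadd l) (fun n w => (S.act X i l).act_ρ _ w)
      (fun n => (S.act X i l).act_N _) hf hE hfin) ((hY i l').iso (h0 l') (hadd l')
      (fun n w => (S.act X i l').act_ρ _ w) (fun n => (S.act X i l').act_N _) hf hE hfin)
  intro w hw
  have h2 := key w hw
  have e : ∀ l, ((A l).endo 1).kap w = (S.endo X i l a).kap w := by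
    intro l
    refine Endo.kap_ext _ _ ?_ w
    show toLin' ((S.act X i l).act (a ^ (1 : ℤ))) = toLin' ((S.act X i l).act a)
    rw [zpow_one]
  rw [e, e] at h2
  exact h2

/-- **Main theorem for automorphisms of finite order** -/
theorem equivariant_main : List.TFAE [
    ∀ X i, RationalFactors fun l => S.H X i l,
    ∀ X i (a : S.Aut X), IsOfFinOrder a → S.RationalKerTraces X i a,
    ∀ X i (e : S.Aut X →₀ ℚ), (∀ a ∈ e.support, IsOfFinOrder a) →
      (∀ l, (S.act X i l).IsProj e) → S.RationalMotive X i e] := by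
  tfae_have 1 → 2 := by
    intro h X i a ha
    rw [rationalKerTraces_iff]
    intro w
    refine ratInd_of_pairs (fun l => (S.endo X i l a).kap w) fun l l' => ?_
    refine (sameEndo_of_class S h X i a ha l l').all ?_ w
    intro w' hw'
    have h1 := sameEndo_of_class S h X i 1 IsOfFinOrder.one l l' w' hw'
    have e : ∀ l, (S.endo X i l 1).kap w' = (S.H X i l).toWD.kap 1 w' := by
      intro l
      rw [← Endo.kap_id]
      refine Endo.kap_ext _ _ ?_ w'
      show toLin' ((S.act X i l).act 1) = 1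
      rw [map_one, toLin'_one]
      rfl
    rw [e, e] at h1
    exact h1
  tfae_have 2 → 3 := by
    intro h X i e he hidem
    have h1 : ∀ a, IsOfFinOrder a → ∀ l l', SameEndo (S.endo X i l a) (S.endo X i l' a) := by
      intro a ha l l' w _
      obtain ⟨c, hc⟩ := (rationalKerTraces_iff S X i a).1 (h X i a ha) w
      exact ⟨c, hc l, hc l'⟩
    have hid : ∀ l v, (mkEndo _ ((S.act X i l).comb e) (comb_ρ S X i l e) (comb_N S X i l e)).f
        ((mkEndo _ ((S.act X i l).comb e) (comb_ρ S X i l e) (comb_N S X i l e)).f v) =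
        (mkEndo _ ((S.act X i l).comb e) (comb_ρ S X i l e) (comb_N S X i l e)).f v := by
      intro l v
      show toLin' ((S.act X i l).comb e) (toLin' ((S.act X i l).comb e) v) =
        toLin' ((S.act X i l).comb e) v
      simp only [toLin'_apply]
      rw [mulVec_mulVec, hidem l]
    obtain ⟨P, hP⟩ := poly_of_pairs
      (fun l => (mkEndo _ ((S.act X i l).comb e) (comb_ρ S X i l e) (comb_N S X i l e)).euler)
      fun k l l' => by
        refine endo_euler_pair _ _ (hid l) (hid l') (fun w hw => ?_) k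
        rw [mkEndo_comb, mkEndo_comb, Endo.tau_comb, Endo.tau_comb]
        refine ratPair_sum _ _ _ fun a ha => ?_
        exact RatPair.mul ⟨e a, rfl, rfl⟩ ((h1 a (he a ha) l l').tau w hw)
    exact ⟨P, fun l => (isEulerPoly_iff _ _ (comb_ρ S X i l e) (comb_N S X i l e) (hidem l) _).2
      (hP l)⟩
  tfae_have 3 → 1 := by
    intro h X i
    have hc : ∀ l, (S.act X i l).comb (Finsupp.single 1 1) = 1 := by
      intro l
      unfold Action.comb
      rw [Finsupp.support_single _ one_ne_zero, Finset.sum_singleton,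
        Finsupp.single_eq_same, Rat.cast_one, one_smul, map_one]
    obtain ⟨P, hP⟩ := h X i (Finsupp.single 1 1) (fun a ha => by
      rw [Finsupp.support_single _ one_ne_zero, Finset.mem_singleton] at ha
      rw [ha]
      exact IsOfFinOrder.one) (fun l => by unfold Action.IsProj; rw [hc, one_mul])
    refine ⟨P, fun l => ?_⟩
    have h1 := hP l
    unfold Action.IsEuler at h1
    rw [hc, mulVecLin_one, LinearMap.range_id, inf_top_eq] at h1
    exact h1
  tfae_finish

end

end Pool.Agent.X310.WD
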