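import Mathlib

/-!
# Operators which are sums of commutators of eigenvectors with rational eigenvalues
-/

set_option autoImplicit false

open Polynomial Module LinearMap

namespace Pool.Agent.X310.Wt

section

variable {K : Type*} [Field K] {V : Type*} [AddCommGroup V] [Module K V]

/-- The operator with given scalars on the summands of an internal direct sum. -/
lemma exists_scal {ι : Type*} [DecidableEq ι] {E : ι → Submodule K V}
    (h : DirectSum.IsInternal E) (f : ι → K) :
    ∃ U : End K V, ∀ i, ∀ v ∈ E i, U v = f i • v := by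
  set e := LinearEquiv.ofBijective (DirectSum.coeLinearMap E) h with he
  refine ⟨(DirectSum.toModule K ι V fun i => f i • (E i).subtype) ∘ₗ e.symm.toLinearMap,
    fun i v hv => ?_⟩
  have h1 : e.symm v = DirectSum.lof K ι (fun i => E i) i ⟨v, hv⟩ := by
    rw [LinearEquiv.symm_apply_eq, he, LinearEquiv.ofBijective_apply, DirectSum.coeLinearMap_lof]
  rw [LinearMap.comp_apply, LinearEquiv.coe_coe, h1, DirectSum.toModule_lof, LinearMap.smul_apply]
  rfl

/-- The commutators of eigenvectors of `ad T` with opposite rational eigenvalues. -/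
def commSet (T : End K V) : Set (End K V) :=
  {Z | ∃ (a : ℚ) (x y : End K V), T * x - x * T = (a : K) • x ∧ T * y - y * T = (-a : K) • y ∧
    Z = x * y - y * x}

lemma map_genEigen [CharZero K] {T x : End K V} {a : ℚ} (hx : T * x - x * T = (a : K) • x) {α : K}
    {v : V} (hv : v ∈ T.maxGenEigenspace α) : x v ∈ T.maxGenEigenspace (α + a) := by
  rw [Module.End.mem_maxGenEigenspace] at hv ⊢
  obtain ⟨k, hk⟩ := hv
  refine ⟨k, ?_⟩
  have h1 : (T - (α + (a : K)) • (1 : End K V)) * x = x * (T - α • 1) := by
    rw [sub_mul, mul_sub, smul_mul_assoc, mul_smul_comm, one_mul, mul_one, add_smul, ← hx]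
    abel
  have h2 : ∀ k : ℕ, (T - (α + (a : K)) • (1 : End K V)) ^ k * x = x * (T - α • 1) ^ k := by
    intro k
    induction k with
    | zero => simp
    | succ k ih => rw [pow_succ, mul_assoc, h1, ← mul_assoc, ih, mul_assoc, ← pow_succ]
  rw [← Module.End.mul_apply, h2, Module.End.mul_apply, hk, map_zero]

/-- **Rational eigenvalues.** -/
theorem rational_of_comm [IsAlgClosed K] [CharZero K] [Module.Finite K V] {T : End K V}
    (hT : T ∈ Submodule.span K (commSet T)) {α : K} (hα : T.HasEigenvalue α) :
    ∃ q : ℚ, α = q := by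
  classical
  by_contra hne
  -- a functional on `K` over `ℚ` which vanishes at `1` but not at `α`
  have hli : α ∉ Submodule.span ℚ ({1} : Set K) := by
    intro hmem
    obtain ⟨q, hq⟩ := Submodule.mem_span_singleton.1 hmem
    exact hne ⟨q, by rw [← hq, Rat.smul_def, mul_one]⟩
  obtain ⟨φ, hφα, hφ1⟩ := Submodule.exists_dual_map_eq_bot_of_notMem hli inferInstance
  have hφ1' : φ 1 = 0 := by
    have : φ 1 ∈ Submodule.map φ (Submodule.span ℚ ({1} : Set K)) :=
      Submodule.mem_map_of_mem (Submodule.mem_span_singleton_self 1)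
    rw [hφ1] at this
    exact (Submodule.mem_bot _).1 this
  have hφq : ∀ (c : K) (q : ℚ), φ (c * q) = φ c * q := by
    intro c q
    have h1 : c * (q : K) = q • c := by rw [Rat.smul_def, mul_comm]
    rw [h1, map_smul, smul_eq_mul, mul_comm]
  have hφa : ∀ (c : K) (q : ℚ), φ (c + q) = φ c := by
    intro c q
    rw [map_add]
    have := hφq 1 q
    rw [one_mul, hφ1', zero_mul] at this
    rw [this, add_zero]
  have hint := DirectSum.isInternal_submodule_of_iSupIndep_of_iSup_eq_top
      T.independent_maxGenEigenspace (Module.End.iSup_maxGenEigenspace_eq_top T)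
  have hfin : {μ | T.maxGenEigenspace μ ≠ ⊥}.Finite :=
    WellFoundedGT.finite_ne_bot_of_iSupIndep T.independent_maxGenEigenspace
  obtain ⟨U, hU⟩ := exists_scal hint (fun μ => ((φ μ : ℚ) : K))
  have hext : ∀ {A B : End K V}, (∀ μ, ∀ v ∈ T.maxGenEigenspace μ, A v = B v) → A = B := by
    intro A B hAB
    apply LinearMap.ext
    intro v
    have hv : v ∈ ⨆ μ, T.maxGenEigenspace μ := by
      rw [Module.End.iSup_maxGenEigenspace_eq_top T]
      exact Submodule.mem_top
    refine Submodule.iSup_induction _ (motive := fun v => A v = B v) hv (fun μ v hv => hAB μ v hv)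
      (by rw [map_zero, map_zero]) (fun v w hv hw => by rw [map_add, map_add, hv, hw])
  have hUc : ∀ {a : ℚ} {x : End K V}, T * x - x * T = (a : K) • x → U * x = x * U := by
    intro a x hx
    apply hext
    intro μ v hv
    rw [Module.End.mul_apply, Module.End.mul_apply, hU _ _ (map_genEigen hx hv), hU _ _ hv,
      hφa, map_smul]
  have htr : trace K V (T * U) = 0 := by
    have key : ∀ Z ∈ Submodule.span K (commSet T), trace K V (Z * U) = 0 := by
      intro Z hZ
      induction hZ using Submodule.span_induction with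
      | mem Z hZ =>
        obtain ⟨a, x, y, hx, hy, rfl⟩ := hZ
        have hUy : U * y = y * U := hUc (a := -a) (by rw [hy]; push_cast; rfl)
        have e1 : (x * y - y * x) * U = x * (y * U) - y * (x * U) := by noncomm_ring
        rw [e1, map_sub, LinearMap.trace_mul_comm K y (x * U), mul_assoc, hUy, sub_self]
      | zero => rw [zero_mul, map_zero]
      | add a b _ _ ha hb => rw [add_mul, map_add, ha, hb, add_zero]
      | smul c a _ ha => rw [smul_mul_assoc, map_smul, ha, smul_zero]
    exact key T hT
  have hmaps : ∀ μ, Set.MapsTo (T * U) (T.maxGenEigenspace μ : Set V) (T.maxGenEigenspace μ) := by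
    intro μ v hv
    have h1 : T.maxGenEigenspace μ ≤ (T.maxGenEigenspace μ).comap T := fun w hw =>
      T.mapsTo_maxGenEigenspace_of_comm rfl μ hw
    rw [SetLike.mem_coe, Module.End.mul_apply, hU _ _ hv, map_smul]
    exact Submodule.smul_mem _ _ (h1 hv)
  rw [trace_eq_sum_trace_restrict' hint hfin hmaps] at htr
  have hloc : ∀ μ, trace K _ ((T * U).restrict (hmaps μ)) =
      ((φ μ : ℚ) : K) * (μ * (finrank K (T.maxGenEigenspace μ) : K)) := by
    intro μ
    have h1 : (T * U).restrict (hmaps μ) = ((φ μ : ℚ) : K) •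
        (T.restrict (T.mapsTo_maxGenEigenspace_of_comm rfl μ) : End K (T.maxGenEigenspace μ)) := by
      apply LinearMap.ext
      rintro ⟨v, hv⟩
      apply Subtype.ext
      change T (U v) = ((φ μ : ℚ) : K) • T v
      rw [hU _ _ hv, map_smul]
    have h2 := Module.End.isNilpotent_restrict_maxGenEigenspace_sub_algebraMap T μ
    have h3 : (T.restrict (T.mapsTo_maxGenEigenspace_of_comm rfl μ) :
        End K (T.maxGenEigenspace μ)) = ((T - algebraMap K (End K V) μ).restrict
          (T.mapsTo_maxGenEigenspace_of_comm (Algebra.mul_sub_algebraMap_commutes T μ) μ)) +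
          μ • 1 := by
      apply LinearMap.ext
      rintro ⟨v, hv⟩
      apply Subtype.ext
      change T v = (T - algebraMap K (End K V) μ) v + μ • v
      rw [LinearMap.sub_apply, Module.algebraMap_end_apply, sub_add_cancel]
    rw [h1, map_smul, h3, map_add, map_smul, LinearMap.trace_one, smul_eq_mul, smul_eq_mul]
    have h4 : trace K _ ((T - algebraMap K (End K V) μ).restrict
          (T.mapsTo_maxGenEigenspace_of_comm (Algebra.mul_sub_algebraMap_commutes T μ) μ)) = 0 :=
      (LinearMap.isNilpotent_trace_of_isNilpotent h2).eq_zero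
    rw [h4, zero_add]
  rw [Finset.sum_congr rfl fun μ _ => hloc μ] at htr
  have h5 := congrArg φ htr
  rw [map_sum, map_zero] at h5
  have h6 : ∀ μ, φ (((φ μ : ℚ) : K) * (μ * (finrank K (T.maxGenEigenspace μ) : K))) =
      (φ μ) ^ 2 * (finrank K (T.maxGenEigenspace μ) : ℚ) := by
    intro μ
    have : ((φ μ : ℚ) : K) * (μ * (finrank K (T.maxGenEigenspace μ) : K)) =
        μ * ((φ μ * (finrank K (T.maxGenEigenspace μ) : ℚ) : ℚ) : K) := by push_cast; ring
    rw [this, hφq]
    ring
  rw [Finset.sum_congr rfl fun μ _ => h6 μ] at h5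
  have h7 := (Finset.sum_eq_zero_iff_of_nonneg (fun μ _ => by positivity)).1 h5
  have hmem : α ∈ hfin.toFinset := by
    rw [Set.Finite.mem_toFinset]
    intro hbot
    obtain ⟨v, hv⟩ := hα.exists_hasEigenvector
    have h8 : v ∈ T.maxGenEigenspace α := by
      rw [Module.End.mem_maxGenEigenspace]
      refine ⟨1, ?_⟩
      rw [pow_one, LinearMap.sub_apply, hv.apply_eq_smul]
      simp
    rw [hbot] at h8
    exact hv.2 ((Submodule.mem_bot _).1 h8)
  have h9 := h7 α hmem
  rcases mul_eq_zero.1 h9 with h10 | h10
  · exact hφα (pow_eq_zero_iff two_ne_zero |>.1 h10)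
  · have h11 : finrank K (T.maxGenEigenspace α) = 0 := by exact_mod_cast h10
    rw [Submodule.finrank_eq_zero] at h11
    exact ((Set.Finite.mem_toFinset _).1 hmem) h11

end

end Pool.Agent.X310.Wt
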