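import Pool.Agent.X310.Wt9

/-!
# The second moment of the weight decomposition
-/

set_option autoImplicit false
set_option linter.unusedSectionVars false

open CategoryTheory AlgebraicGeometry Polynomial

universe u v

namespace Pool.Agent.X310.Wt

open Pool.Agent.H914 Pool.Agent.H447 Pool.Agent.W534 Pool.Agent.X310.Gap Pool.Agent.X310.Sec
  Pool.Agent.X310.Jm VarClass Obj WeilCohomology

section alg

variable {K : Type*} [Field K] [CharZero K] {M : Type*} [Ring M] [Algebra K M]
  [Module.Finite K M] {τ : M →ₗ[K] K} {G : ℤ → Submodule K M}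

lemma Decomp.evM_mul {Λ : Finset ℚ} {P : ℚ → M} (h : TrAlg τ G) (hP : Decomp G Λ P) (f : ℚ[X])
    (l : ℚ) : evM K (∑ l ∈ Λ, (l : K) • P l) f * P l = ((f.eval l : ℚ) : K) • P l := by
  obtain ⟨-, h1, -, -⟩ := hP.weight h
  induction f using Polynomial.induction_on' with
  | add a b ha hb => rw [map_add, add_mul, ha, hb, eval_add, ← add_smul]; push_cast; rfl
  | monomial r c =>
    rw [← C_mul_X_pow_eq_monomial, map_mul, map_pow, evM_X, evM_C, smul_mul_assoc, one_mul,
      smul_mul_assoc, eval_mul, eval_C, eval_pow, eval_X]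
    have : ∀ r : ℕ, (∑ l ∈ Λ, (l : K) • P l) ^ r * P l = ((l : K) ^ r) • P l := by
      intro r
      induction r with
      | zero => rw [pow_zero, one_mul, pow_zero, one_smul]
      | succ r ih => rw [pow_succ, mul_assoc, h1, mul_smul_comm, ih, smul_smul, pow_succ, mul_comm]
    rw [this, smul_smul]
    push_cast
    rfl

lemma Decomp.evM_eq {Λ : Finset ℚ} {P : ℚ → M} (h : TrAlg τ G) (hP : Decomp G Λ P) (f : ℚ[X]) :
    evM K (∑ l ∈ Λ, (l : K) • P l) f = ∑ l ∈ Λ, ((f.eval l : ℚ) : K) • P l := by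
  rw [← mul_one (evM K (∑ l ∈ Λ, (l : K) • P l) f), ← hP.sum, Finset.mul_sum]
  exact Finset.sum_congr rfl fun l _ => hP.evM_mul h f l

end alg

variable {k : Type u} [Field k] {𝒱 : VarClass k} {ops : CycleOps 𝒱}
  {W : WeilCohomology.{u, v} ops} {X : 𝒱.Obj}

lemma eq_of_rat_sums (Λ : Finset ℚ) (a b : ℚ → ℚ)
    (h : ∀ r : ℕ, ∑ l ∈ Λ, a l * l ^ r = ∑ l ∈ Λ, b l * l ^ r) : ∀ l ∈ Λ, a l = b l :=
  eq_of_power_sums Λ a b (fun r => by
    simp only [mul_comm (_ ^ r : ℚ)]
    exact h r)

/-- The intersection numbers with the diagonal. -/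
lemma interT_diag {a : (X.prod X).Cycles} (ha : (X.prod X).IsCyc X.dim a) :
    (interT ops X a (diagCyc ops X) : W.K) = tauM (W.isInternal X) (grAlg W X)
      (kcls W X (KOp.gen (by simp) ha : W.corr (W.cl _ a) ∈ KOp W X X 0)) := by
  rw [interT_tau (W := W) ha diag_mem, kcls_congr (KOp.gen (by simp) (diag_mem (ops := ops)))
    corr_diagCyc (grAlg W X).one, kcls_one, mul_one]

lemma tau_kcls {x : Module.End W.K (W.H X)} (hx : x ∈ RR W X 0) :
    tauM (W.isInternal X) (grAlg W X) (kcls W X hx) =
      LinearMap.trace W.K (W.H X) (par (W.isInternal X) * x) := by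
  have := tau_cls (W.isInternal X) (grAlg W X) hx (grAlg W X).one
  rw [mul_one] at this
  rw [← this]
  have h1 : cls (W.isInternal X) (grAlg W X) (grAlg W X).one = 1 := kcls_one _
  rw [h1, mul_one]

lemma nil_of_parts {T : Module.End W.K (W.H X)} (hT : IsHom (W.gr X) 0 T)
    (hn : ∀ j : Fin (2 * X.dim + 1), IsNilpotent (T * proj (W.isInternal X) (j : ℕ))) :
    IsNilpotent T := by
  classical
  have hc : ∀ j : ℕ, T * proj (W.isInternal X) j = proj (W.isInternal X) j * T := fun j =>
    (IsHom.proj_comm (W.isInternal X) hT j).symm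
  choose N hN using hn
  have hpow : ∀ (j m : ℕ), (T * proj (W.isInternal X) j) ^ (m + 1) =
      T ^ (m + 1) * proj (W.isInternal X) j := by
    intro j m
    induction m with
    | zero => rw [zero_add, pow_one, pow_one]
    | succ m ih =>
      rw [pow_succ, ih, pow_succ T (m + 1)]
      have : T ^ (m + 1) * proj (W.isInternal X) j * (T * proj (W.isInternal X) j) =
          T ^ (m + 1) * (proj (W.isInternal X) j * T) * proj (W.isInternal X) j := by noncomm_ring
      rw [this, ← hc, mul_assoc (T ^ (m + 1)), mul_assoc T, proj_mul_proj, ← mul_assoc]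
  refine ⟨∑ j, N j + 1, ?_⟩
  rw [← mul_one (T ^ (∑ j, N j + 1)), ← one_eq_sum_proj, Finset.mul_sum]
  apply Finset.sum_eq_zero
  intro j _
  rw [← hpow]
  have hle : N j ≤ ∑ j, N j + 1 :=
    (Finset.single_le_sum (f := N) (fun _ _ => Nat.zero_le _) (Finset.mem_univ j)).trans
      (Nat.le_succ _)
  exact pow_eq_zero_of_le hle (hN j)

/-- **The second moment of the weight decomposition.** -/
theorem moment_main {Λ : Finset ℚ} {P : ℚ → (X.prod X).Cycles}
    (h : IsWeightDecomposition ops X Λ P) :
    (∀ l, ∃ m : ℤ, interT ops X (P l) (diagCyc ops X) = m) ∧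
    ∑ l ∈ Λ, l ^ 2 * |interT ops X (P l) (diagCyc ops X)| ≤ totalWeight W X ∧
    (∑ l ∈ Λ, l ^ 2 * |interT ops X (P l) (diagCyc ops X)| = totalWeight W X ↔
      IsKunneth W X P) := by
  classical
  have hP := h.mem
  obtain ⟨hD, -⟩ := (decomp_iff (W := W) hP).1 h
  have hw := h.weightCycle W
  have hwt := hw.isWt (W := W)
  set T := W.corr (W.cl _ (wCyc Λ P)) with hT
  have hTR : ROp W X 0 T := rop_corr (by simp) hw.mem
  have hkw : kcls W X hwt.mem = ∑ l ∈ Λ, (l : W.K) • fam W hP l := kcls_wCyc hP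
  have hev : ∀ f : ℚ[X], kcls W X (KOp.ofRop (rop_opAlg.ev hTR f) : ev T f ∈ RR W X 0) =
      ∑ l ∈ Λ, ((f.eval l : ℚ) : W.K) • fam W hP l := by
    intro f
    rw [← evM_kcls hwt.mem f, hkw, hD.evM_eq (TA W X)]
  have hann : ev T (∏ l ∈ Λ, (Polynomial.X - Polynomial.C l) : ℚ[X]) ∈
      Nd (W.isInternal X) (RR W X) 0 := by
    rw [← cls_zero (W.isInternal X) (grAlg W X) (KOp.ofRop (rop_opAlg.ev hTR _))]
    refine (hev _).trans (Finset.sum_eq_zero fun l hl => ?_)
    rw [Polynomial.eval_prod, Finset.prod_eq_zero hl (by simp), Rat.cast_zero, zero_smul]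
  obtain ⟨S, hS, hS1⟩ := hwt.comm (grAlg W X)
  obtain ⟨sg, h1, h2, h3⟩ := second_wt (W.isInternal X) W_hbd (grAlg W X) hwt.mem hwt.shift hS hS1
    Λ 1 (by rwa [pow_one])
  -- the multiplicities
  have hsg : ∀ l ∈ Λ, interT ops X (P l) (diagCyc ops X) = sg l := by
    apply eq_of_rat_sums
    intro r
    have e1 := h1 r
    have e2 : LinearMap.trace W.K (W.H X) (par (W.isInternal X) * T ^ r) =
        ((∑ l ∈ Λ, interT ops X (P l) (diagCyc ops X) * l ^ r : ℚ) : W.K) := by
      have e3 : ev T (Polynomial.X ^ r : ℚ[X]) = T ^ r := by rw [map_pow, ev_X]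
      have hm : T ^ r ∈ RR W X 0 := e3 ▸ KOp.ofRop (rop_opAlg.ev hTR _)
      rw [← tau_kcls hm, ← kcls_congr (KOp.ofRop (rop_opAlg.ev hTR (Polynomial.X ^ r))) e3 hm, hev,
        map_sum]
      push_cast
      refine Finset.sum_congr rfl fun l _ => ?_
      rw [map_smul, smul_eq_mul, interT_diag (W := W) (hP l), Polynomial.eval_pow,
        Polynomial.eval_X, mul_comm]
      push_cast
      rfl
    rw [e2] at e1
    exact_mod_cast e1
  have hout : ∀ l, l ∉ Λ → interT ops X (P l) (diagCyc ops X) = 0 := by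
    intro l hl
    have e1 := interT_diag (W := W) (hP l)
    have e2 : kcls W X (KOp.gen (by simp) (hP l) : W.corr (W.cl _ (P l)) ∈ KOp W X X 0) = 0 :=
      hD.supp l hl
    rw [e2, map_zero] at e1
    exact_mod_cast e1
  have hmom : ∑ l ∈ Λ, l ^ 2 * |interT ops X (P l) (diagCyc ops X)| =
      ∑ l ∈ Λ, l ^ 2 * ((|sg l| : ℤ) : ℚ) := by
    refine Finset.sum_congr rfl fun l hl => ?_
    rw [hsg l hl]
    push_cast
    rfl
  refine ⟨fun l => ?_, ?_, ?_⟩
  · by_cases hl : l ∈ Λ
    · exact ⟨sg l, hsg l hl⟩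
    · exact ⟨0, by rw [hout l hl, Int.cast_zero]⟩
  · rw [hmom, totalWeight_eq]
    exact h2
  constructor
  · intro heq
    rw [hmom, totalWeight_eq] at heq
    obtain ⟨h4, h5⟩ := h3 heq
    have hK : KunnethStd W X := by
      apply kunneth_of_rop
      intro i
      by_cases hi : i < 2 * X.dim + 1
      · obtain ⟨g, hg⟩ := poly_of_nilp T
          (fun j : Fin (2 * X.dim + 1) => proj (W.isInternal X) (j : ℕ))
          (fun j => scal_comm_rop hTR _) (fun j => proj_mul_proj (W.isInternal X) j)
          one_eq_sum_proj (fun j => ww X.dim j) (ww_inj X.dim) h5 ⟨i, hi⟩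
        have h6 : proj (W.isInternal X) i = ev T g := hg
        rw [h6]
        exact rop_opAlg.ev hTR g
      · have h6 : proj (W.isInternal X) i = 0 := by
          ext x
          have h7 := proj_mem (W.isInternal X) i x
          rw [W_hbd i (by omega)] at h7
          exact (Submodule.mem_bot W.K).1 h7
        rw [h6]
        exact rop_opAlg.zero 0
    refine (isKunneth_iff h).2 ⟨hK, (weight_kunneth hK hw).1 ?_⟩
    have hwtm : wt (W.isInternal X) X.dim ∈ RR W X 0 := KOp.ofRop (wt_rop hK)
    have hv : T - wt (W.isInternal X) X.dim ∈ RR W X 0 := Submodule.sub_mem _ hwt.mem hwtm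
    have hnil : IsNilpotent (T - wt (W.isInternal X) X.dim) := by
      apply nil_of_parts (by simpa using (grAlg W X).hom hv)
      intro j
      have h6 : (T - wt (W.isInternal X) X.dim) * proj (W.isInternal X) (j : ℕ) =
          (T - algebraMap W.K _ (ww X.dim j : W.K)) * proj (W.isInternal X) (j : ℕ) := by
        rw [sub_mul, sub_mul]
        congr 1
        apply LinearMap.ext
        intro a
        rw [Module.End.mul_apply, Module.End.mul_apply, wt,
          scal_apply _ _ (proj_mem (W.isInternal X) (j : ℕ) a), Module.algebraMap_end_apply]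
        rfl
      rw [h6]
      exact h5 j
    rw [← cls_zero (W.isInternal X) (grAlg W X) hv]
    obtain ⟨m, hm⟩ := hnil
    have hcn : IsNilpotent (cls (W.isInternal X) (grAlg W X) hv) := by
      refine ⟨m, ?_⟩
      rw [cls, ← map_pow]
      have : (⟨T - wt (W.isInternal X) X.dim, mem_algA hv⟩ : algA (grAlg W X)) ^ m = 0 :=
        Subtype.ext hm
      rw [this, map_zero]
    have hcc : CentralMod (W.isInternal X) (RR W X) (T - wt (W.isInternal X) X.dim) := by
      intro d x hx
      have e1 := hwt.shift d x hx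
      have e2 := ((grAlg W X).hom hx).wt_comm (W.isInternal X) X.dim
      have e3 : (T - wt (W.isInternal X) X.dim) * x - x * (T - wt (W.isInternal X) X.dim) =
          T * x - x * T - (2 * (d : W.K)) • x := by
        rw [sub_mul, mul_sub, e2]
        push_cast
        abel
      rw [e3]
      exact e1
    apply (TA W X).nondeg
    intro y
    apply (TA W X).nil
    exact (show Commute _ y from cls_central (W.isInternal X) (grAlg W X) hv hcc y).isNilpotent_mul_right
      hcn
  · intro hk
    have hK : KunnethStd W X := ((isKunneth_iff h).1 hk).1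
    have hpr : ∀ j, proj (W.isInternal X) j ∈ RR W X 0 := fun j => KOp.ofRop (kunneth_rop hK j)
    have hone : ∑ j ∈ Finset.range (2 * X.dim + 1), proj (W.isInternal X) j = 1 :=
      sum_proj (W.isInternal X) W_hbd
    have hs1 : ∑ j ∈ Finset.range (2 * X.dim + 1), kcls W X (hpr j) = 1 := by
      rw [← kcls_sum _ _ hpr (by rw [hone]; exact (grAlg W X).one),
        kcls_congr _ hone (grAlg W X).one, kcls_one]
    have hq : ∀ j : ℕ, fam W hP ((j : ℚ) - X.dim) = kcls W X (hpr j) := by
      intro j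
      obtain ⟨z, hz, hz', hn⟩ := hk j
      rw [num_kcls0 (W := W) (hP _) hz] at hn
      exact hn.trans (kcls_congr _ (isProjector_unique hz') _)
    -- the numbers
    have hval : ∀ j : ℕ, interT ops X (P ((j : ℚ) - X.dim)) (diagCyc ops X) =
        (-1) ^ j * (W.betti X j : ℚ) := by
      intro j
      have e1 := interT_diag (W := W) (hP ((j : ℚ) - X.dim))
      have e2 : kcls W X (KOp.gen (by simp) (hP ((j : ℚ) - X.dim)) :
          W.corr (W.cl _ (P ((j : ℚ) - X.dim))) ∈ KOp W X X 0) = kcls W X (hpr j) := hq j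
      rw [e2, tau_kcls] at e1
      have e3 : par (W.isInternal X) * proj (W.isInternal X) j =
          ((-1 : W.K) ^ j) • proj (W.isInternal X) j := by
        apply LinearMap.ext
        intro a
        rw [Module.End.mul_apply, par, scal_apply _ _ (proj_mem (W.isInternal X) j a),
          LinearMap.smul_apply]
      rw [e3, map_smul, smul_eq_mul, trace_proj] at e1
      have e4 : ((interT ops X (P ((j : ℚ) - X.dim)) (diagCyc ops X) : ℚ) : W.K) =
          (((-1) ^ j * (W.betti X j : ℚ) : ℚ) : W.K) := by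
        rw [e1]
        push_cast
        rfl
      exact_mod_cast e4
    have hzero : ∀ l, (∀ j ∈ Finset.range (2 * X.dim + 1), l ≠ (j : ℚ) - X.dim) →
        interT ops X (P l) (diagCyc ops X) = 0 := by
      intro l hl
      have e1 := interT_diag (W := W) (hP l)
      have e2 : fam W hP l = 0 := by
        rw [← mul_one (fam W hP l), ← hs1, Finset.mul_sum]
        apply Finset.sum_eq_zero
        intro j hj
        rw [← hq j, hD.orth, if_neg (hl j hj)]
      have e3 : kcls W X (KOp.gen (by simp) (hP l) : W.corr (W.cl _ (P l)) ∈ KOp W X X 0) = 0 := e2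
      rw [e3, map_zero] at e1
      exact_mod_cast e1
    set J : Finset ℚ := (Finset.range (2 * X.dim + 1)).image (fun j : ℕ => (j : ℚ) - X.dim) with hJ
    have e1 : ∑ l ∈ Λ, l ^ 2 * |interT ops X (P l) (diagCyc ops X)| =
        ∑ l ∈ Λ ∪ J, l ^ 2 * |interT ops X (P l) (diagCyc ops X)| := by
      apply Finset.sum_subset Finset.subset_union_left
      intro l _ hl
      rw [hout l hl, abs_zero, mul_zero]
    have e2 : ∑ l ∈ J, l ^ 2 * |interT ops X (P l) (diagCyc ops X)| =
        ∑ l ∈ Λ ∪ J, l ^ 2 * |interT ops X (P l) (diagCyc ops X)| := by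
      apply Finset.sum_subset Finset.subset_union_right
      intro l _ hl
      rw [hzero l (fun j hj h' => hl (Finset.mem_image.2 ⟨j, hj, h'.symm⟩)), abs_zero, mul_zero]
    rw [e1, ← e2, hJ, Finset.sum_image (fun i _ j _ hij => by
      have : (i : ℚ) - X.dim = (j : ℚ) - X.dim := hij
      have : (i : ℚ) = j := by linarith
      exact_mod_cast this), totalWeight]
    refine Finset.sum_congr rfl fun j _ => ?_
    rw [hval j, abs_mul, abs_neg_one_pow, one_mul, Nat.abs_cast]

end Pool.Agent.X310.Wt
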