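import Pool.Agent.X310.Wt1

/-!
# Rational eigenvalues over an arbitrary field of characteristic zero
-/

set_option autoImplicit false

open Polynomial Module LinearMap TensorProduct

namespace Pool.Agent.X310.Wt

section

variable {K : Type*} [Field K] {V : Type*} [AddCommGroup V] [Module K V]

lemma baseChange_mul' (L : Type*) [Field L] [Algebra K L] (x y : End K V) :
    (x * y).baseChange L = (x.baseChange L : End L (L ⊗[K] V)) * y.baseChange L := by
  rw [Module.End.mul_eq_comp, LinearMap.baseChange_comp]
  rfl

/-- The roots of the minimal polynomial are rational. -/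
theorem rational_roots {L : Type*} [Field L] [Algebra K L] [IsAlgClosed L] [CharZero L]
    [Module.Finite K V] {T : End K V}
    (hT : T ∈ Submodule.span K (commSet T)) {α : L}
    (hα : ((minpoly K T).map (algebraMap K L)).IsRoot α) : ∃ q : ℚ, α = q := by
  classical
  set T' : End L (L ⊗[K] V) := T.baseChange L with hT'
  have hcast : ∀ a : ℚ, algebraMap K L (a : K) = (a : L) := fun a => map_ratCast _ a
  have hrel : ∀ {a : ℚ} {x : End K V}, T * x - x * T = (a : K) • x →
      T' * (x.baseChange L) - (x.baseChange L) * T' = (a : L) • x.baseChange L := by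
    intro a x hx
    rw [hT', ← baseChange_mul', ← baseChange_mul', ← LinearMap.baseChange_sub, hx,
      LinearMap.baseChange_smul, ← hcast, algebraMap_smul]
  have hmem : T' ∈ Submodule.span L (commSet T') := by
    have key : ∀ Z ∈ Submodule.span K (commSet T),
        (Z.baseChange L : End L (L ⊗[K] V)) ∈ Submodule.span L (commSet T') := by
      intro Z hZ
      induction hZ using Submodule.span_induction with
      | mem Z hZ =>
        obtain ⟨a, x, y, hx, hy, rfl⟩ := hZ
        refine Submodule.subset_span ⟨a, x.baseChange L, y.baseChange L, hrel hx, ?_, ?_⟩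
        · have := hrel (a := -a) (x := y) (by rw [hy]; push_cast; rfl)
          rw [this]
          push_cast
          rfl
        · rw [LinearMap.baseChange_sub, baseChange_mul', baseChange_mul']
      | zero => rw [LinearMap.baseChange_zero]; exact Submodule.zero_mem _
      | add a b _ _ ha hb => rw [LinearMap.baseChange_add]; exact Submodule.add_mem _ ha hb
      | smul c a _ ha =>
        rw [LinearMap.baseChange_smul, ← algebraMap_smul L c]
        exact Submodule.smul_mem _ _ ha
    exact key T hT
  refine rational_of_comm hmem (α := α) ?_
  rw [Module.End.hasEigenvalue_iff_isRoot_charpoly, hT', LinearMap.charpoly_baseChange]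
  exact IsRoot.dvd hα (Polynomial.map_dvd _ (LinearMap.minpoly_dvd_charpoly T))

/-- A semisimple operator which is a sum of commutators is annihilated by a product of distinct
linear factors with rational roots. -/
theorem exists_finset [CharZero K] [Module.Finite K V] {T : End K V}
    (hT : T ∈ Submodule.span K (commSet T)) (hs : T.IsSemisimple) :
    ∃ Λ : Finset ℚ, aeval T (∏ l ∈ Λ, (X - C (l : K))) = 0 := by
  classical
  let L := AlgebraicClosure K
  have : CharZero L := charZero_of_injective_algebraMap (algebraMap K L).injective
  set m := minpoly K T with hm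
  have hmon : m.Monic := minpoly.monic (Algebra.IsIntegral.isIntegral T)
  have hsq : Squarefree m := hs.minpoly_squarefree
  have hsep : m.Separable := PerfectField.separable_iff_squarefree.2 hsq
  set m' := m.map (algebraMap K L) with hm'
  have hmon' : m'.Monic := hmon.map _
  have hnd : m'.roots.Nodup := nodup_roots (hsep.map)
  have hspl : m'.Splits := IsAlgClosed.splits m'
  have hrat : ∀ α ∈ m'.roots.toFinset, ∃ q : ℚ, α = q := by
    intro α hα
    rw [Multiset.mem_toFinset, mem_roots hmon'.ne_zero] at hα
    exact rational_roots hT hα
  choose! g hg using hrat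
  refine ⟨m'.roots.toFinset.image g, ?_⟩
  have hinj : Set.InjOn g (m'.roots.toFinset : Set L) := by
    intro a ha b hb hab
    rw [hg a ha, hg b hb, hab]
  rw [Finset.prod_image hinj]
  suffices h : (∏ α ∈ m'.roots.toFinset, (X - C ((g α : ℚ) : K))) = m by
    rw [h, hm, minpoly.aeval]
  apply Polynomial.map_injective (algebraMap K L) (algebraMap K L).injective
  rw [Polynomial.map_prod, ← hm']
  have h1 : m' = (m'.roots.map fun a => X - C a).prod := hspl.eq_prod_roots_of_monic hmon'
  have h2 : (m'.roots.map fun a => X - C a).prod = ∏ α ∈ m'.roots.toFinset, (X - C α) := by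
    rw [Finset.prod, Multiset.toFinset_val, hnd.dedup]
  conv_rhs => rw [h1, h2]
  refine Finset.prod_congr rfl fun α hα => ?_
  rw [Polynomial.map_sub, map_X, map_C, map_ratCast, ← hg α hα]

end

end Pool.Agent.X310.Wt
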