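import Pool.Agent.X310.Wt2
import Pool.Agent.X310.JmLin

/-!
# The weight element of a graded algebra with a trace form
-/

set_option autoImplicit false
set_option linter.unusedSectionVars false

open Polynomial Module LinearMap

namespace Pool.Agent.X310.Wt

open Pool.Agent.X310.Jm Pool.Agent.H914

section

variable {K : Type*} [Field K] [CharZero K] {M : Type*} [Ring M] [Algebra K M] [Module.Finite K M]
  {τ : M →ₗ[K] K} {G : ℤ → Submodule K M}

lemma internal (h : TrAlg τ G) : DirectSum.IsInternal G := by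
  apply DirectSum.isInternal_submodule_of_iSupIndep_of_iSup_eq_top _ h.top
  intro d
  rw [Submodule.disjoint_def]
  intro x hx hx'
  apply h.eq_zero hx
  intro y hy
  rw [← Submodule.mem_bot (R := K)]
  refine Submodule.iSup_induction (fun j : ℤ => ⨆ _ : j ≠ d, G j)
    (motive := fun x => τ (x * y) ∈ (⊥ : Submodule K K)) hx' (fun j z hz => ?_) (by simp)
    (fun a b ha hb => by
      rw [Submodule.mem_bot] at ha hb ⊢
      rw [add_mul, map_add, ha, hb, add_zero])
  by_cases hj : j = d
  · rw [iSup_neg (by simpa using hj)] at hz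
    rw [(Submodule.mem_bot _).1 hz]
    simp
  · rw [iSup_pos hj] at hz
    rw [Submodule.mem_bot]
    exact h.deg (j + -d) (by omega) _ (h.mul hz hy)

lemma hom_ind (h : TrAlg τ G) {P : M → Prop} (h1 : ∀ d, ∀ x ∈ G d, P x) (h0 : P 0)
    (h2 : ∀ x y, P x → P y → P (x + y)) (x : M) : P x :=
  Submodule.iSup_induction G (motive := P) (h.top ▸ Submodule.mem_top) h1 h0 h2

/-- The degree derivation. -/
lemma exists_delta (h : TrAlg τ G) : ∃ δ : End K M, (∀ d, ∀ x ∈ G d, δ x = (2 * (d : K)) • x) ∧
    (∀ x y, δ (x * y) = δ x * y + x * δ y) ∧ ∀ x, τ (δ x) = 0 := by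
  obtain ⟨δ, hδ⟩ := exists_scal (internal h) (fun d : ℤ => 2 * (d : K))
  refine ⟨δ, hδ, ?_, ?_⟩
  · intro x y
    refine hom_ind h (P := fun x => δ (x * y) = δ x * y + x * δ y) (fun d x hx => ?_) (by simp)
      (fun a b ha hb => by rw [add_mul, map_add, ha, hb, map_add, add_mul, add_mul]; abel) x
    refine hom_ind h (P := fun y => δ (x * y) = δ x * y + x * δ y) (fun e y hy => ?_) (by simp)
      (fun a b ha hb => by rw [mul_add, map_add, ha, hb, map_add, mul_add, mul_add]; abel) y
    rw [hδ _ _ (h.mul hx hy), hδ _ _ hx, hδ _ _ hy, smul_mul_assoc, mul_smul_comm, ← add_smul]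
    congr 1
    push_cast
    ring
  · intro x
    refine hom_ind h (P := fun x => τ (δ x) = 0) (fun d x hx => ?_) (by simp)
      (fun a b ha hb => by rw [map_add, map_add, ha, hb, add_zero]) x
    rw [hδ _ _ hx, map_smul]
    by_cases hd : d = 0
    · subst hd; simp
    · rw [h.deg d hd _ hx, smul_zero]

/-- The projection to a degree. -/
lemma exists_proj (h : TrAlg τ G) (d : ℤ) : ∃ P : End K M, (∀ x, P x ∈ G d) ∧
    (∀ x ∈ G d, P x = x) ∧ (∀ e, e ≠ d → ∀ x ∈ G e, P x = 0) ∧
    ∀ x, ∀ y ∈ G (-d), τ (P x * y) = τ (x * y) := by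
  obtain ⟨P, hP⟩ := exists_scal (internal h) (fun e : ℤ => if e = d then (1 : K) else 0)
  have h1 : ∀ x ∈ G d, P x = x := fun x hx => by rw [hP _ _ hx, if_pos rfl, one_smul]
  have h2 : ∀ e, e ≠ d → ∀ x ∈ G e, P x = 0 := fun e he x hx => by
    rw [hP _ _ hx, if_neg he, zero_smul]
  refine ⟨P, fun x => ?_, h1, h2, fun x y hy => ?_⟩
  · refine hom_ind h (P := fun x => P x ∈ G d) (fun e x hx => ?_) (by simp)
      (fun a b ha hb => by rw [map_add]; exact Submodule.add_mem _ ha hb) x
    by_cases he : e = d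
    · subst he; rw [h1 x hx]; exact hx
    · rw [h2 e he x hx]; exact Submodule.zero_mem _
  · refine hom_ind h (P := fun x => τ (P x * y) = τ (x * y)) (fun e x hx => ?_) (by simp)
      (fun a b ha hb => by rw [map_add, add_mul, add_mul, map_add, map_add, ha, hb]) x
    by_cases he : e = d
    · subst he; rw [h1 x hx]
    · rw [h2 e he x hx, zero_mul, map_zero, h.deg (e + -d) (by omega) _ (h.mul hx hy)]

lemma mem_of_tau (h : TrAlg τ G) {d : ℤ} {x : M} (hx : ∀ e, e ≠ -d → ∀ y ∈ G e, τ (x * y) = 0) :
    x ∈ G d := by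
  obtain ⟨P, hP, -, -, hPτ⟩ := exists_proj h d
  have h1 : x - P x = 0 := by
    apply h.nondeg
    intro y
    refine hom_ind h (P := fun y => τ ((x - P x) * y) = 0) (fun e y hy => ?_) (by simp)
      (fun a b ha hb => by rw [mul_add, map_add, ha, hb, add_zero]) y
    rw [sub_mul, map_sub]
    by_cases he : e = -d
    · subst he; rw [hPτ x y hy, sub_self]
    · rw [hx e he y hy, h.deg (d + e) (by omega) _ (h.mul (hP x) hy), sub_zero]
  rw [sub_eq_zero.1 h1]
  exact hP x

/-- Representing a functional. -/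
lemma exists_rep (h : TrAlg τ G) (f : Dual K M) : ∃ v, ∀ y, τ (v * y) = f y := by
  obtain ⟨w, hw⟩ := exists_of_ker
    (LinearMap.mk₂ K (fun y w => τ (w * y)) (fun a b w => by rw [mul_add, map_add])
      (fun c a w => by rw [mul_smul_comm, map_smul]) (fun a w w' => by rw [add_mul, map_add])
      (fun c a w => by rw [smul_mul_assoc, map_smul]) : M →ₗ[K] Dual K M) f (by
    intro y hy
    have : y = 0 := by
      apply h.nondeg
      intro w
      rw [h.comm]
      exact congrArg (fun l => l w) hy
    rw [this, map_zero])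
  exact ⟨w, fun y => (hw y).symm⟩

lemma lmul_nil {x : M} (hx : IsNilpotent (Algebra.lmul K M x)) : IsNilpotent x := by
  obtain ⟨k, hk⟩ := hx
  refine ⟨k, ?_⟩
  rw [← map_pow] at hk
  exact Algebra.lmul_injective (by rw [hk, map_zero])

/-- The regular trace form is nondegenerate. -/
lemma reg_nondeg (h : TrAlg τ G) {x : M}
    (hx : ∀ y, trace K M (Algebra.lmul K M (x * y)) = 0) : x = 0 := by
  apply h.nondeg
  intro y
  apply h.nil
  apply lmul_nil (K := K)
  apply isNilpotent_of_trace_pow
  intro r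
  rw [← map_pow, pow_succ', mul_assoc, hx]

/-- The Casimir element. -/
lemma exists_Om (h : TrAlg τ G) : ∃ Ω ∈ G 0, (∀ y, τ (Ω * y) = trace K M (Algebra.lmul K M y)) ∧
    ∀ x, Ω * x = x * Ω := by
  obtain ⟨Ω, hΩ⟩ := exists_rep h ((trace K M) ∘ₗ (Algebra.lmul K M).toLinearMap)
  have hΩ' : ∀ y, τ (Ω * y) = trace K M (Algebra.lmul K M y) := hΩ
  obtain ⟨δ, hδ, hδm, -⟩ := exists_delta h
  refine ⟨Ω, ?_, hΩ', fun x => ?_⟩
  · apply mem_of_tau h
    intro e he y hy
    rw [neg_zero] at he
    rw [hΩ']
    have h1 : δ * Algebra.lmul K M y - Algebra.lmul K M y * δ =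
        (2 * (e : K)) • Algebra.lmul K M y := by
      apply LinearMap.ext
      intro v
      change δ (y * v) - y * δ v = (2 * (e : K)) • (y * v)
      rw [hδm, hδ _ _ hy, smul_mul_assoc, add_sub_cancel_right]
    have h2 := congrArg (trace K M) h1
    rw [map_sub, LinearMap.trace_mul_comm, sub_self, map_smul] at h2
    have h3 := h2.symm
    rcases smul_eq_zero.1 h3 with h4 | h4
    · rcases mul_eq_zero.1 h4 with h5 | h5
      · exact absurd h5 two_ne_zero
      · exact absurd (by exact_mod_cast h5) he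
    · exact h4
  · rw [← sub_eq_zero]
    apply h.nondeg
    intro y
    rw [sub_mul, map_sub, mul_assoc, hΩ', mul_assoc, h.comm x, mul_assoc, hΩ',
      map_mul (Algebra.lmul K M), map_mul (Algebra.lmul K M), LinearMap.trace_mul_comm, sub_self]

/-- The trace of a skew operator. -/
lemma trace_skew (h : TrAlg τ G) {A : End K M} (hA : ∀ x y, τ (A x * y) = -τ (x * A y)) :
    trace K M A = 0 := by
  set F : M →ₗ[K] Dual K M := LinearMap.mk₂ K (fun x y => τ (x * y))
    (fun a b w => by rw [add_mul, map_add]) (fun c a w => by rw [smul_mul_assoc, map_smul])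
    (fun a w w' => by rw [mul_add, map_add]) (fun c a w => by rw [mul_smul_comm, map_smul])
    with hF
  have hFi : Function.Injective F := by
    rw [injective_iff_map_eq_zero]
    intro a ha
    exact h.nondeg a fun y => congrArg (fun l => l y) ha
  have hFs : Function.Surjective F :=
    (LinearMap.injective_iff_surjective_of_finrank_eq_finrank
      (Subspace.dual_finrank_eq (K := K) (V := M)).symm).1 hFi
  set e : M ≃ₗ[K] Dual K M := LinearEquiv.ofBijective F ⟨hFi, hFs⟩ with he
  have h1 : e.conj A = -(Module.Dual.transpose (R := K) A) := by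
    apply LinearMap.ext
    intro f
    obtain ⟨x, rfl⟩ := e.surjective f
    rw [LinearEquiv.conj_apply_apply, LinearEquiv.symm_apply_apply]
    apply LinearMap.ext
    intro y
    change τ (A x * y) = -τ (x * A y)
    exact hA x y
  have h2 := LinearMap.trace_conj' A e
  rw [h1] at h2
  replace h2 := (map_neg (trace K (Dual K M)) (Module.Dual.transpose (R := K) A)).symm.trans h2
  have h3 : trace K (Dual K M) (Module.Dual.transpose (R := K) A) = trace K M A :=
    congrArg (fun l => l A) (LinearMap.trace_transpose K M)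
  rw [h3] at h2
  have h4 : (2 : K) * trace K M A = 0 := by linear_combination -h2
  exact (mul_eq_zero.1 h4).resolve_left two_ne_zero

/-- **The weight element.** -/
theorem exists_weight (h : TrAlg τ G) : ∃ w ∈ G 0, (∀ d, ∀ x ∈ G d, w * x - x * w = (2 * (d : K)) • x) ∧
    ∀ z ∈ G 0, (∀ x, z * x = x * z) → τ (w * z) = 0 := by
  obtain ⟨δ, hδ, hδm, hδτ⟩ := exists_delta h
  obtain ⟨Ω, hΩG, hΩ, hΩc⟩ := exists_Om h
  obtain ⟨w', hw'⟩ := exists_rep h ((trace K M) ∘ₗ (LinearMap.mulRight K δ) ∘ₗ
    (Algebra.lmul K M).toLinearMap)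
  have hw : ∀ y, τ (w' * y) = trace K M (Algebra.lmul K M y * δ) := hw'
  have hLδ : ∀ x, δ * Algebra.lmul K M x - Algebra.lmul K M x * δ = Algebra.lmul K M (δ x) := by
    intro x
    apply LinearMap.ext
    intro v
    change δ (x * v) - x * δ v = δ x * v
    rw [hδm, add_sub_cancel_right]
  have hcomm : ∀ x, w' * x - x * w' = δ x * Ω := by
    intro x
    rw [← sub_eq_zero]
    apply h.nondeg
    intro y
    have e1 : τ (w' * x * y) = trace K M (Algebra.lmul K M x * Algebra.lmul K M y * δ) := by
      rw [mul_assoc, hw, map_mul (Algebra.lmul K M)]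
    have e2 : τ (x * w' * y) = trace K M (Algebra.lmul K M y * Algebra.lmul K M x * δ) := by
      rw [mul_assoc, h.comm, mul_assoc, hw, map_mul (Algebra.lmul K M)]
    have e3 : τ (δ x * Ω * y) = trace K M (Algebra.lmul K M y * Algebra.lmul K M (δ x)) := by
      rw [← hΩc, mul_assoc, hΩ, map_mul (Algebra.lmul K M), LinearMap.trace_mul_comm]
    have e4 : trace K M (Algebra.lmul K M x * Algebra.lmul K M y * δ) =
        trace K M (Algebra.lmul K M y * (δ * Algebra.lmul K M x)) := by
      rw [mul_assoc, LinearMap.trace_mul_comm, mul_assoc]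
    rw [sub_mul, sub_mul, map_sub, map_sub, e1, e2, e3, e4, mul_assoc, ← map_sub, ← mul_sub, hLδ,
      sub_self]
  obtain ⟨g, hg, hgΩ⟩ := exists_left_inv h hΩG (fun v hv => by
    apply reg_nondeg h
    intro y
    rw [← hΩ, ← mul_assoc, hv, zero_mul, map_zero])
  have hΩg : Ω * g = 1 := by rw [hΩc, hgΩ]
  have hgc : ∀ x, g * x = x * g := by
    intro x
    calc g * x = g * x * (Ω * g) := by rw [hΩg, mul_one]
      _ = g * (x * Ω) * g := by noncomm_ring
      _ = g * Ω * x * g := by rw [← hΩc]; noncomm_ring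
      _ = x * g := by rw [hgΩ, one_mul]
  refine ⟨w' * g, ?_, ?_, ?_⟩
  · apply mem_of_tau h
    intro e he y hy
    rw [neg_zero] at he
    have hgy : g * y ∈ G e := h.mulc hg hy (by ring)
    rw [mul_assoc, hw]
    have h1 : δ * (Algebra.lmul K M (g * y) * δ) - (Algebra.lmul K M (g * y) * δ) * δ =
        (2 * (e : K)) • (Algebra.lmul K M (g * y) * δ) := by
      rw [← mul_assoc, ← sub_mul, hLδ, hδ _ _ hgy, map_smul, smul_mul_assoc]
    have h2 := congrArg (trace K M) h1
    rw [map_sub, LinearMap.trace_mul_comm, sub_self, map_smul] at h2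
    rcases smul_eq_zero.1 h2.symm with h4 | h4
    · rcases mul_eq_zero.1 h4 with h5 | h5
      · exact absurd h5 two_ne_zero
      · exact absurd (by exact_mod_cast h5) he
    · exact h4
  · intro d x hx
    calc w' * g * x - x * (w' * g) = (w' * x - x * w') * g := by
          rw [mul_assoc w' g x, hgc x, sub_mul, mul_assoc w' x g, mul_assoc x w' g]
      _ = δ x := by rw [hcomm, mul_assoc, hΩg, mul_one]
      _ = _ := hδ _ _ hx
  · intro z hz hzc
    rw [mul_assoc, hw]
    apply trace_skew h
    intro x y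
    change τ (g * z * δ x * y) = -τ (x * (g * z * δ y))
    have hgz : g * z ∈ G 0 := h.mulc hg hz (by ring)
    have hgzc : ∀ x, g * z * x = x * (g * z) := fun x => by
      rw [mul_assoc g z x, hzc x, ← mul_assoc g x z, hgc x, mul_assoc x g z]
    have hδgz : δ (g * z) = 0 := by rw [hδ _ _ hgz]; simp
    have h1 := hδτ (g * z * x * y)
    rw [hδm, hδm, hδgz, zero_mul, zero_add, map_add] at h1
    have h2 : x * (g * z * δ y) = g * z * x * δ y := by rw [hgzc x, ← mul_assoc]
    rw [h2]
    linear_combination h1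

/-- A degree zero element orthogonal to the centre is a sum of homogeneous commutators. -/
theorem mem_comm (h : TrAlg τ G) {w : M} (hw : w ∈ G 0)
    (hz : ∀ z ∈ G 0, (∀ x, z * x = x * z) → τ (w * z) = 0) :
    w ∈ Submodule.span K {v : M | ∃ d, ∃ x ∈ G d, ∃ y ∈ G (-d), v = x * y - y * x} := by
  by_contra hne
  obtain ⟨f, hf, hf0⟩ := Submodule.exists_dual_map_eq_bot_of_notMem hne inferInstance
  obtain ⟨v, hv⟩ := exists_rep h f
  obtain ⟨P, hP, -, -, hPτ⟩ := exists_proj h 0
  have hfz : ∀ d, ∀ x ∈ G d, ∀ y ∈ G (-d), f (x * y - y * x) = 0 := by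
    intro d x hx y hy
    have : f (x * y - y * x) ∈ Submodule.map f (Submodule.span K
        {v : M | ∃ d, ∃ x ∈ G d, ∃ y ∈ G (-d), v = x * y - y * x}) :=
      Submodule.mem_map_of_mem (Submodule.subset_span ⟨d, x, hx, y, hy, rfl⟩)
    rw [hf0] at this
    exact (Submodule.mem_bot _).1 this
  have hv0 : ∀ y ∈ G 0, τ (P v * y) = f y := fun y hy => by
    rw [hPτ v y (by rwa [neg_zero]), hv]
  have hc : ∀ x, P v * x = x * P v := by
    intro x
    refine hom_ind h (P := fun x => P v * x = x * P v) (fun d x hx => ?_) (by simp)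
      (fun a b ha hb => by rw [mul_add, add_mul, ha, hb]) x
    rw [← sub_eq_zero]
    apply h.eq_zero (d := d) (Submodule.sub_mem _ (h.mulc (hP v) hx (by ring))
      (h.mulc hx (hP v) (by ring)))
    intro y hy
    have e1 : τ ((P v * x - x * P v) * y) = τ (P v * (x * y - y * x)) := by
      rw [sub_mul, mul_sub, map_sub, map_sub, mul_assoc, mul_assoc, h.comm x, mul_assoc]
    rw [e1, hv0 _ (Submodule.sub_mem _ (h.mulc hx hy (by ring)) (h.mulc hy hx (by ring))),
      hfz d x hx y hy]
  have h1 := hz (P v) (hP v) hc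
  rw [h.comm, hv0 w hw] at h1
  exact hf h1

/-- The weight element is annihilated by a product of distinct rational linear factors. -/
theorem weight_rational (h : TrAlg τ G) {w : M} (hw : w ∈ G 0)
    (hd : ∀ d, ∀ x ∈ G d, w * x - x * w = (2 * (d : K)) • x)
    (hz : ∀ z ∈ G 0, (∀ x, z * x = x * z) → τ (w * z) = 0) :
    ∃ Λ : Finset ℚ, aeval w (∏ l ∈ Λ, (X - C (l : K))) = 0 := by
  set T : End K M := Algebra.lmul K M w with hT
  have hnil : ∀ p : K[X], IsNilpotent (aeval w p) → aeval w p = 0 := by
    intro p hp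
    apply h.eq_zero (aeval_G h hw p)
    intro y hy
    rw [neg_zero] at hy
    apply h.nil
    have hc : Commute w y := by
      have := hd 0 y hy
      rw [Int.cast_zero, mul_zero, zero_smul, sub_eq_zero] at this
      exact this
    exact (commute_aeval hc p).isNilpotent_mul_right hp
  have hmem : T ∈ Submodule.span K (commSet T) := by
    have key : ∀ v ∈ Submodule.span K {v : M | ∃ d, ∃ x ∈ G d, ∃ y ∈ G (-d), v = x * y - y * x},
        Algebra.lmul K M v ∈ Submodule.span K (commSet T) := by
      intro v hv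
      induction hv using Submodule.span_induction with
      | mem v hv =>
        obtain ⟨d, x, hx, y, hy, rfl⟩ := hv
        refine Submodule.subset_span ⟨2 * (d : ℚ), Algebra.lmul K M x, Algebra.lmul K M y, ?_, ?_, ?_⟩
        · rw [hT, ← map_mul, ← map_mul, ← map_sub, hd _ _ hx, map_smul]
          congr 1
          push_cast
          rfl
        · rw [hT, ← map_mul, ← map_mul, ← map_sub, hd _ _ hy, map_smul]
          congr 1
          push_cast
          ring
        · rw [map_sub, map_mul, map_mul]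
      | zero => rw [map_zero]; exact Submodule.zero_mem _
      | add a b _ _ ha hb => rw [map_add]; exact Submodule.add_mem _ ha hb
      | smul c a _ ha => rw [map_smul]; exact Submodule.smul_mem _ _ ha
    exact key w (mem_comm h hw hz)
  have hss : T.IsSemisimple := by
    obtain ⟨n, hn, s, hs, hnn, hss, hTn⟩ := T.exists_isNilpotent_isSemisimple
    rw [Algebra.adjoin_singleton_eq_range_aeval] at hn
    obtain ⟨p, rfl⟩ := hn
    have h1 : (aeval T p : End K M) = Algebra.lmul K M (aeval w p) := aeval_lmul w p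
    have h2 : aeval w p = 0 := hnil p (lmul_nil (K := K) (by rw [← h1]; exact hnn))
    have h3 : (aeval T).toRingHom p = 0 := by
      change aeval T p = 0
      rw [h1, h2, map_zero]
    rw [hTn]
    have h4 : ((aeval T).toRingHom p + s : End K M) = s := by rw [h3, zero_add]
    rw [h4]
    exact hss
  obtain ⟨Λ, hΛ⟩ := exists_finset hmem hss
  refine ⟨Λ, ?_⟩
  have h1 := aeval_lmul (K := K) w (∏ l ∈ Λ, (X - C (l : K)))
  apply Algebra.lmul_injective (R := K)
  rw [← h1, map_zero]
  exact hΛ

/-- Uniqueness of the weight element. -/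
theorem weight_unique (h : TrAlg τ G) {v : M} (hv : v ∈ G 0) (hc : ∀ x, v * x = x * v)
    (hz : ∀ z ∈ G 0, (∀ x, z * x = x * z) → τ (v * z) = 0) : v = 0 := by
  obtain ⟨Ω, hΩG, hΩ, hΩc⟩ := exists_Om h
  have hnil : IsNilpotent v := by
    apply lmul_nil (K := K)
    apply isNilpotent_of_trace_pow
    intro r
    rw [← map_pow, ← hΩ, pow_succ, ← mul_assoc, h.comm]
    apply hz
    · have hpow : ∀ n : ℕ, v ^ n ∈ G 0 := by
        intro n
        induction n with
        | zero => rw [pow_zero]; exact h.one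
        | succ n ih => rw [pow_succ]; exact h.mulc ih hv (add_zero 0)
      exact h.mulc hΩG (hpow r) (add_zero 0)
    · intro x
      have : Commute (v ^ r) x := (show Commute v x from hc x).pow_left r
      rw [mul_assoc, this.eq, ← mul_assoc, hΩc, mul_assoc]
  apply h.nondeg
  intro y
  exact h.nil _ ((show Commute v y from hc y).isNilpotent_mul_right hnil)

end

end Pool.Agent.X310.Wt
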