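import Pool.Agent.X310.Wt4

/-!
# The weight operator modulo the radical
-/

set_option autoImplicit false
set_option linter.unusedSectionVars false

open Polynomial LinearMap Module

namespace Pool.Agent.X310.Wt

open Pool.Agent.H914 Pool.Agent.X310.Sec Pool.Agent.X310.Jm

section

variable {K : Type*} [Field K] [CharZero K] {V : Type*} [AddCommGroup V] [Module K V]
  [Module.Finite K V] {gr : ℕ → Submodule K V} (h : DirectSum.IsInternal gr)
  (R : ℤ → Submodule K (End K V))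

/-- `z` commutes with all elements up to the radical. -/
def CentralMod (z : End K V) : Prop := ∀ d, ∀ x ∈ R d, z * x - x * z ∈ Nd h R d

/-- The weight operator. -/
structure IsWt (C : End K V) : Prop where
  mem : C ∈ R 0
  shift : ∀ d, ∀ x ∈ R d, C * x - x * C - (2 * (d : K)) • x ∈ Nd h R d
  bal : ∀ z ∈ R 0, CentralMod h R z → trace K V (par h * (C * z)) = 0

variable {R} (hR : GrAlg gr R)

lemma comm_mem {z x : End K V} {d : ℤ} (hR : GrAlg gr R) (hz : z ∈ R 0) (hx : x ∈ R d) :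
    z * x - x * z ∈ R d :=
  Submodule.sub_mem _ (cast_mem (hR.mul hz hx) (by ring)) (cast_mem (hR.mul hx hz) (by ring))

include hR

lemma cls_comm {z x : End K V} {d : ℤ} (hz : z ∈ R 0) (hx : x ∈ R d) :
    cls h hR (comm_mem hR hz hx) = cls h hR hz * cls h hR hx - cls h hR hx * cls h hR hz := by
  simp only [cls, ← map_mul, ← map_sub]
  rfl

lemma cls_central {z : End K V} (hz : z ∈ R 0) (hc : CentralMod h R z) (v : MM h hR) :
    cls h hR hz * v = v * cls h hR hz := by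
  refine hom_ind (trAlg h hR) (P := fun v => cls h hR hz * v = v * cls h hR hz)
    (fun d v hv => ?_) (by simp) (fun a b ha hb => by rw [mul_add, add_mul, ha, hb]) v
  obtain ⟨x, hx, rfl⟩ := exists_cls h hR hv
  rw [← sub_eq_zero, ← cls_comm h hR hz hx, cls_zero]
  exact hc d x hx

lemma central_of_cls {z : End K V} (hz : z ∈ R 0)
    (hc : ∀ v : MM h hR, cls h hR hz * v = v * cls h hR hz) : CentralMod h R z := by
  intro d x hx
  rw [← cls_zero h hR (comm_mem hR hz hx), cls_comm h hR hz hx, hc, sub_self]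

lemma tau_cls {z x : End K V} (hz : z ∈ R 0) (hx : x ∈ R 0) :
    tauM h hR (cls h hR hz * cls h hR hx) = trace K V (par h * (z * x)) := by
  simp only [cls, ← map_mul]
  rw [tauM_mk, strA_apply]
  rfl

lemma shift_mem {C x : End K V} {d : ℤ} (hC : C ∈ R 0) (hx : x ∈ R d) :
    C * x - x * C - (2 * (d : K)) • x ∈ R d :=
  Submodule.sub_mem _ (comm_mem hR hC hx) (Submodule.smul_mem _ _ hx)

lemma cls_shift {C x : End K V} {d : ℤ} (hC : C ∈ R 0) (hx : x ∈ R d) :
    cls h hR (shift_mem hR hC hx) = cls h hR hC * cls h hR hx - cls h hR hx * cls h hR hC -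
      (2 * (d : K)) • cls h hR hx := by
  simp only [cls, ← map_mul, ← map_sub, ← map_smul]
  rfl

/-- Existence of the weight operator. -/
theorem exists_isWt : ∃ C, IsWt h R C := by
  obtain ⟨w, hw, hw1, hw2⟩ := exists_weight (trAlg h hR)
  obtain ⟨C, hC, rfl⟩ := exists_cls h hR hw
  refine ⟨C, hC, fun d x hx => ?_, fun z hz hc => ?_⟩
  · rw [← cls_zero h hR (shift_mem hR hC hx), cls_shift h hR hC hx, hw1 d _ (cls_mem h hR hx),
      sub_self]
  · rw [← tau_cls h hR hC hz]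
    exact hw2 _ (cls_mem h hR hz) (cls_central h hR hz hc)

variable {h}

lemma IsWt.cls_shift {C : End K V} (hC : IsWt h R C) : ∀ d, ∀ x ∈ grM h hR d,
    cls h hR hC.mem * x - x * cls h hR hC.mem = (2 * (d : K)) • x := by
  intro d x hx
  obtain ⟨y, hy, rfl⟩ := exists_cls h hR hx
  rw [← sub_eq_zero, ← Pool.Agent.X310.Wt.cls_shift h hR hC.mem hy, cls_zero]
  exact hC.shift d y hy

lemma IsWt.cls_bal {C : End K V} (hC : IsWt h R C) : ∀ z ∈ grM h hR 0,
    (∀ x, z * x = x * z) → tauM h hR (cls h hR hC.mem * z) = 0 := by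
  intro z hz hc
  obtain ⟨y, hy, rfl⟩ := exists_cls h hR hz
  rw [tau_cls]
  exact hC.bal y hy (central_of_cls h hR hy hc)

/-- The annihilating polynomial. -/
theorem IsWt.ann {C : End K V} (hC : IsWt h R C) :
    ∃ Λ : Finset ℚ, ev C (∏ l ∈ Λ, (X - Polynomial.C l)) ∈ Nd h R 0 := by
  obtain ⟨Λ, hΛ⟩ := weight_rational (trAlg h hR) (cls_mem h hR hC.mem) (hC.cls_shift hR)
    (hC.cls_bal hR)
  refine ⟨Λ, ?_⟩
  have h1 : ev C (∏ l ∈ Λ, (X - Polynomial.C l) : ℚ[X]) =
      aeval C (∏ l ∈ Λ, (X - Polynomial.C (l : K)) : K[X]) := by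
    rw [ev_apply]
    congr 1
    rw [Polynomial.map_prod]
    refine Finset.prod_congr rfl fun l _ => ?_
    simp
  rw [h1, ← cls_zero h hR (aeval_R hR hC.mem _), ← aeval_cls h hR hC.mem]
  exact hΛ

/-- The weight operator is a sum of commutators. -/
theorem IsWt.comm {C : End K V} (hC : IsWt h R C) :
    ∃ S ∈ Submodule.span K {v : End K V | ∃ d, ∃ x ∈ R d, ∃ y ∈ R (-d), v = x * y - y * x},
      C - S ∈ Nd h R 0 := by
  have h1 := mem_comm (trAlg h hR) (cls_mem h hR hC.mem) (hC.cls_bal hR)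
  have key : ∀ w ∈ Submodule.span K {v : MM h hR | ∃ d, ∃ x ∈ grM h hR d, ∃ y ∈ grM h hR (-d),
      v = x * y - y * x}, ∃ S ∈ Submodule.span K
        {v : End K V | ∃ d, ∃ x ∈ R d, ∃ y ∈ R (-d), v = x * y - y * x},
        ∃ hS : S ∈ R 0, cls h hR hS = w := by
    intro w hw
    induction hw using Submodule.span_induction with
    | mem v hv =>
      obtain ⟨d, x, hx, y, hy, rfl⟩ := hv
      obtain ⟨a, ha, rfl⟩ := exists_cls h hR hx
      obtain ⟨b, hb, rfl⟩ := exists_cls h hR hy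
      refine ⟨a * b - b * a, Submodule.subset_span ⟨d, a, ha, b, hb, rfl⟩,
        Submodule.sub_mem _ (cast_mem (hR.mul ha hb) (by ring))
          (cast_mem (hR.mul hb ha) (by ring)), ?_⟩
      simp only [cls, ← map_mul, ← map_sub]
      rfl
    | zero =>
      refine ⟨0, Submodule.zero_mem _, Submodule.zero_mem _, ?_⟩
      rw [cls_zero]
      exact Submodule.zero_mem _
    | add a b _ _ ha hb =>
      obtain ⟨S, hS, hS0, rfl⟩ := ha
      obtain ⟨S', hS', hS0', rfl⟩ := hb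
      refine ⟨S + S', Submodule.add_mem _ hS hS', Submodule.add_mem _ hS0 hS0', ?_⟩
      simp only [cls, ← map_add]
      rfl
    | smul c a _ ha =>
      obtain ⟨S, hS, hS0, rfl⟩ := ha
      refine ⟨c • S, Submodule.smul_mem _ _ hS, Submodule.smul_mem _ _ hS0, ?_⟩
      simp only [cls, ← map_smul]
      rfl
  obtain ⟨S, hS, hS0, h2⟩ := key _ h1
  refine ⟨S, hS, ?_⟩
  rw [← cls_zero h hR (Submodule.sub_mem _ hC.mem hS0)]
  have : cls h hR (Submodule.sub_mem _ hC.mem hS0) = cls h hR hC.mem - cls h hR hS0 := by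
    simp only [cls, ← map_sub]
    rfl
  rw [this, h2, sub_self]

/-- Uniqueness of the weight operator. -/
theorem IsWt.unique {C C' : End K V} (hC : IsWt h R C) (hC' : IsWt h R C') :
    C - C' ∈ Nd h R 0 := by
  have hm : C - C' ∈ R 0 := Submodule.sub_mem _ hC.mem hC'.mem
  have h0 : cls h hR hm = cls h hR hC.mem - cls h hR hC'.mem := by
    simp only [cls, ← map_sub]
    rfl
  rw [← cls_zero h hR hm]
  apply weight_unique (trAlg h hR) (cls_mem h hR hm)
  · intro v
    refine hom_ind (trAlg h hR) (P := fun v => cls h hR hm * v = v * cls h hR hm)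
      (fun d v hv => ?_) (by simp) (fun a b ha hb => by rw [mul_add, add_mul, ha, hb]) v
    rw [← sub_eq_zero, h0]
    have e1 := hC.cls_shift hR d v hv
    have e2 := hC'.cls_shift hR d v hv
    have e3 : (cls h hR hC.mem - cls h hR hC'.mem) * v - v * (cls h hR hC.mem - cls h hR hC'.mem) =
        (cls h hR hC.mem * v - v * cls h hR hC.mem) -
          (cls h hR hC'.mem * v - v * cls h hR hC'.mem) := by noncomm_ring
    rw [e3, e1, e2, sub_self]
  · intro z hz hc
    rw [h0, sub_mul, map_sub, hC.cls_bal hR z hz hc, hC'.cls_bal hR z hz hc, sub_self]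

/-- The second moment of the weight operator. -/
theorem IsWt.second {n : ℕ} (hbd : ∀ i, 2 * n + 1 ≤ i → gr i = ⊥) {C : End K V}
    (hC : IsWt h R C) :
    ∃ (Λ : Finset ℚ) (sg : ℚ → ℤ), ev C (∏ l ∈ Λ, (X - Polynomial.C l)) ∈ Nd h R 0 ∧
      (∀ r : ℕ, trace K V (par h * C ^ r) = ((∑ l ∈ Λ, (sg l : ℚ) * l ^ r : ℚ) : K)) ∧
      ∑ l ∈ Λ, l ^ 2 * ((|sg l| : ℤ) : ℚ) ≤
        ∑ j : Fin (2 * n + 1), ww n j ^ 2 * (finrank K (gr j) : ℚ) ∧
      (∑ l ∈ Λ, l ^ 2 * ((|sg l| : ℤ) : ℚ) =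
          ∑ j : Fin (2 * n + 1), ww n j ^ 2 * (finrank K (gr j) : ℚ) →
        (∀ x ∈ Nd h R 0, IsNilpotent x) ∧ ∀ j : Fin (2 * n + 1),
          IsNilpotent ((C - algebraMap K (End K V) (ww n j : K)) * proj h (j : ℕ))) := by
  obtain ⟨Λ, hΛ⟩ := hC.ann hR
  obtain ⟨S, hS, hS1⟩ := hC.comm hR
  obtain ⟨sg, h1, h2, h3⟩ := second_wt h hbd hR hC.mem hC.shift hS hS1 Λ 1 (by rwa [pow_one])
  exact ⟨Λ, sg, hΛ, h1, h2, h3⟩

end

end Pool.Agent.X310.Wt
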