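import Pool.Agent.X310.Wt5

/-!
# The decomposition of the unit given by the weight element
-/

set_option autoImplicit false
set_option linter.unusedSectionVars false

open Polynomial LinearMap Module

namespace Pool.Agent.X310.Wt

open Pool.Agent.H914 Pool.Agent.X310.Sec Pool.Agent.X310.Jm

section

variable (K : Type*) [Field K] [CharZero K] {M : Type*} [Ring M] [Algebra K M]

/-- The value of a rational polynomial. -/
noncomputable def evM (w : M) : ℚ[X] →+* M :=
  (aeval w : K[X] →ₐ[K] M).toRingHom.comp (Polynomial.mapRingHom (algebraMap ℚ K))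

lemma evM_apply (w : M) (f : ℚ[X]) : evM K w f = aeval w (f.map (algebraMap ℚ K)) := rfl

lemma evM_X (w : M) : evM K w X = w := by simp [evM_apply]

lemma evM_C (w : M) (c : ℚ) : evM K w (C c) = (c : K) • 1 := by
  rw [evM_apply, Polynomial.map_C, aeval_C, Algebra.algebraMap_eq_smul_one]
  simp

variable {K}

lemma prod_dvd {Λ : Finset ℚ} {f : ℚ[X]} (hf : ∀ l ∈ Λ, f.eval l = 0) :
    ∏ l ∈ Λ, (X - C l : ℚ[X]) ∣ f := by
  apply Finset.prod_dvd_of_coprime
  · intro a _ b _ hab
    exact isCoprime_X_sub_C_of_isUnit_sub (sub_ne_zero.2 hab).isUnit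
  · intro l hl
    exact dvd_iff_isRoot.2 (hf l hl)

lemma evM_eq {w : M} {Λ : Finset ℚ} (hΛ : evM K w (∏ l ∈ Λ, (X - C l)) = 0) {f g : ℚ[X]}
    (hfg : ∀ l ∈ Λ, f.eval l = g.eval l) : evM K w f = evM K w g := by
  obtain ⟨q, hq⟩ := prod_dvd (Λ := Λ) (f := f - g) (fun l hl => by rw [eval_sub, hfg l hl, sub_self])
  rw [← sub_eq_zero, ← map_sub, hq, map_mul, hΛ, zero_mul]

variable [Module.Finite K M] {τ : M →ₗ[K] K} {G : ℤ → Submodule K M}

/-- A decomposition of the unit which is shifted by the degree. -/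
structure Decomp (G : ℤ → Submodule K M) (Λ : Finset ℚ) (P : ℚ → M) : Prop where
  mem : ∀ l, P l ∈ G 0
  supp : ∀ l, l ∉ Λ → P l = 0
  sum : ∑ l ∈ Λ, P l = 1
  orth : ∀ l m, P l * P m = if l = m then P l else 0
  shift : ∀ d : ℤ, ∀ x ∈ G d, ∀ l, P (l + 2 * d) * x = x * P l

/-- The idempotents of the weight element. -/
noncomputable def idem (K : Type*) [Field K] [CharZero K] [Algebra K M] (Λ : Finset ℚ) (w : M)
    (l : ℚ) : M := open Classical in if l ∈ Λ then evM K w (Lagrange.basis Λ _root_.id l) else 0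

lemma evM_G (h : TrAlg τ G) {w : M} (hw : w ∈ G 0) (f : ℚ[X]) : evM K w f ∈ G 0 :=
  aeval_G h hw _

lemma idem_mul {Λ : Finset ℚ} {w : M} (hΛ : evM K w (∏ l ∈ Λ, (X - C l)) = 0) (l : ℚ) :
    w * idem K Λ w l = (l : K) • idem K Λ w l := by
  classical
  rw [idem]
  split_ifs with hl
  · have h1 : evM K w (X * Lagrange.basis Λ _root_.id l) = evM K w (C l * Lagrange.basis Λ _root_.id l) := by
      apply evM_eq hΛ
      intro m hm
      rw [eval_mul, eval_mul, eval_X, eval_C]
      by_cases hml : m = l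
      · rw [hml]
      · have : (Lagrange.basis Λ (_root_.id : ℚ → ℚ) l).eval m = 0 :=
          Lagrange.eval_basis_of_ne (v := (_root_.id : ℚ → ℚ)) (Ne.symm hml) hm
        rw [this, mul_zero, mul_zero]
    rw [map_mul, map_mul, evM_X, evM_C, smul_mul_assoc, one_mul] at h1
    exact h1
  · rw [mul_zero, smul_zero]

lemma mul_idem {Λ : Finset ℚ} {w : M} (hΛ : evM K w (∏ l ∈ Λ, (X - C l)) = 0) (l : ℚ) :
    idem K Λ w l * w = (l : K) • idem K Λ w l := by
  classical
  rw [← idem_mul hΛ, idem]
  split_ifs with hl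
  · exact (commute_aeval (Commute.refl w) _).eq
  · rw [mul_zero, zero_mul]

lemma sum_idem {Λ : Finset ℚ} {w : M} (hΛ : evM K w (∏ l ∈ Λ, (X - C l)) = 0) :
    ∑ l ∈ Λ, idem K Λ w l = 1 := by
  classical
  rw [Finset.sum_congr rfl fun l hl => by rw [idem, if_pos hl], ← map_sum,
    evM_eq hΛ (g := 1) fun l hl => ?_, map_one]
  rw [eval_finsetSum, eval_one, Finset.sum_eq_single l]
  · exact Lagrange.eval_basis_self (v := (_root_.id : ℚ → ℚ)) (Set.injOn_id _) hl
  · intro m _ hml
    exact Lagrange.eval_basis_of_ne (v := (_root_.id : ℚ → ℚ)) hml hl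
  · intro h'; exact absurd hl h'

/-- **The decomposition.** -/
theorem idem_decomp (h : TrAlg τ G) {Λ : Finset ℚ} {w : M}
    (hΛ : evM K w (∏ l ∈ Λ, (X - C l)) = 0) (hw : w ∈ G 0)
    (hd : ∀ d, ∀ x ∈ G d, w * x - x * w = (2 * (d : K)) • x) :
    Decomp G Λ (idem K Λ w) ∧ ∑ l ∈ Λ, (l : K) • idem K Λ w l = w := by
  classical
  have hsupp : ∀ l, l ∉ Λ → idem K Λ w l = 0 := fun l hl => by rw [idem, if_neg hl]
  have hmem : ∀ l, idem K Λ w l ∈ G 0 := by
    intro l
    rw [idem]
    split_ifs with hl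
    · exact evM_G h hw _
    · exact Submodule.zero_mem _
  have hx0 : ∀ d : ℤ, ∀ x ∈ G d, ∀ l m : ℚ, m ≠ l + 2 * d → idem K Λ w m * x * idem K Λ w l = 0 := by
    intro d x hx l m hm
    have e1 : idem K Λ w m * (w * x - x * w) * idem K Λ w l =
        ((m : K) - l) • (idem K Λ w m * x * idem K Λ w l) := by
      have e2 : idem K Λ w m * (w * x - x * w) * idem K Λ w l =
          (idem K Λ w m * w) * x * idem K Λ w l - idem K Λ w m * x * (w * idem K Λ w l) := by
        noncomm_ring
      rw [e2, mul_idem hΛ, idem_mul hΛ, smul_mul_assoc, smul_mul_assoc, mul_smul_comm, ← sub_smul]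
    rw [hd d x hx, mul_smul_comm, smul_mul_assoc, ← sub_eq_zero, ← sub_smul] at e1
    rcases smul_eq_zero.1 e1 with h1 | h1
    · exfalso
      apply hm
      have : ((l + 2 * d : ℚ) : K) = (m : K) := by
        push_cast
        linear_combination h1
      exact_mod_cast this.symm
    · exact h1
  have horth : ∀ l m, idem K Λ w l * idem K Λ w m = if l = m then idem K Λ w l else 0 := by
    intro l m
    have h0 : ∀ a b : ℚ, a ≠ b → idem K Λ w a * idem K Λ w b = 0 := by
      intro a b hab
      have := hx0 0 1 h.one b a (by simpa using hab)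
      rwa [mul_one] at this
    split_ifs with hlm
    · subst hlm
      by_cases hl : l ∈ Λ
      · conv_rhs => rw [← mul_one (idem K Λ w l), ← sum_idem hΛ, Finset.mul_sum]
        rw [Finset.sum_eq_single l]
        · intro b _ hb
          exact h0 l b (Ne.symm hb)
        · intro h'; exact absurd hl h'
      · rw [hsupp l hl, mul_zero]
    · exact h0 l m hlm
  refine ⟨⟨hmem, hsupp, sum_idem hΛ, horth, ?_⟩, ?_⟩
  · intro d x hx l
    have e1 : idem K Λ w (l + 2 * d) * x = idem K Λ w (l + 2 * d) * x * idem K Λ w l := by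
      conv_lhs => rw [← mul_one (idem K Λ w (l + 2 * d) * x), ← sum_idem hΛ, Finset.mul_sum]
      by_cases hl : l ∈ Λ
      · rw [Finset.sum_eq_single l]
        · intro b _ hb
          exact hx0 d x hx b _ (fun h' => hb (by linarith))
        · intro h'; exact absurd hl h'
      · rw [hsupp l hl, mul_zero]
        apply Finset.sum_eq_zero
        intro b hb
        exact hx0 d x hx b _ (fun h' => hl (by
          have : l = b := by linarith
          rwa [this]))
    have e2 : x * idem K Λ w l = idem K Λ w (l + 2 * d) * x * idem K Λ w l := by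
      conv_lhs => rw [← one_mul (x * idem K Λ w l), ← sum_idem hΛ, Finset.sum_mul]
      by_cases hl : l + 2 * d ∈ Λ
      · rw [Finset.sum_eq_single (l + 2 * d)]
        · rw [mul_assoc]
        · intro b _ hb
          rw [← mul_assoc]
          exact hx0 d x hx l b hb
        · intro h'; exact absurd hl h'
      · rw [hsupp _ hl, zero_mul, zero_mul]
        apply Finset.sum_eq_zero
        intro b hb
        rw [← mul_assoc]
        exact hx0 d x hx l b (fun h' => hl (by rwa [← h']))
    rw [e1, ← e2]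
  · calc ∑ l ∈ Λ, (l : K) • idem K Λ w l = ∑ l ∈ Λ, w * idem K Λ w l :=
          Finset.sum_congr rfl fun l _ => (idem_mul hΛ l).symm
      _ = w := by rw [← Finset.mul_sum, sum_idem hΛ, mul_one]

/-- The weight element of a decomposition. -/
theorem Decomp.weight {Λ : Finset ℚ} {P : ℚ → M} (h : TrAlg τ G) (hP : Decomp G Λ P) :
    (∑ l ∈ Λ, (l : K) • P l) ∈ G 0 ∧
      (∀ l, (∑ l ∈ Λ, (l : K) • P l) * P l = (l : K) • P l) ∧
      (∀ l, P l * (∑ l ∈ Λ, (l : K) • P l) = (l : K) • P l) ∧
      ∀ d, ∀ x ∈ G d, (∑ l ∈ Λ, (l : K) • P l) * x - x * (∑ l ∈ Λ, (l : K) • P l) =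
        (2 * (d : K)) • x := by
  classical
  set w := ∑ l ∈ Λ, (l : K) • P l with hw
  have hwG : w ∈ G 0 := Submodule.sum_mem _ fun l _ => Submodule.smul_mem _ _ (hP.mem l)
  have h1 : ∀ m, w * P m = (m : K) • P m := by
    intro m
    rw [hw, Finset.sum_mul]
    by_cases hm : m ∈ Λ
    · rw [Finset.sum_eq_single m]
      · rw [smul_mul_assoc, hP.orth, if_pos rfl]
      · intro b _ hb
        rw [smul_mul_assoc, hP.orth, if_neg hb, smul_zero]
      · intro h'; exact absurd hm h'
    · rw [hP.supp m hm, smul_zero]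
      exact Finset.sum_eq_zero fun b _ => by rw [mul_zero]
  have h2 : ∀ m, P m * w = (m : K) • P m := by
    intro m
    rw [hw, Finset.mul_sum]
    by_cases hm : m ∈ Λ
    · rw [Finset.sum_eq_single m]
      · rw [mul_smul_comm, hP.orth, if_pos rfl]
      · intro b _ hb
        rw [mul_smul_comm, hP.orth, if_neg (Ne.symm hb), smul_zero]
      · intro h'; exact absurd hm h'
    · rw [hP.supp m hm, smul_zero]
      exact Finset.sum_eq_zero fun b _ => by rw [zero_mul]
  refine ⟨hwG, h1, h2, ?_⟩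
  intro d x hx
  have key : ∀ m, P m * (w * x - x * w - (2 * (d : K)) • x) = 0 := by
    intro m
    have hPx : P m * x = x * P (m - 2 * d) := by
      have := hP.shift d x hx (m - 2 * d)
      rwa [sub_add_cancel] at this
    have e1 : P m * (w * x - x * w - (2 * (d : K)) • x) =
        (P m * w) * x - (P m * x) * w - (2 * (d : K)) • (P m * x) := by
      rw [mul_sub, mul_sub, mul_smul_comm]
      noncomm_ring
    rw [e1, h2, smul_mul_assoc, hPx, mul_assoc, h2, mul_smul_comm, ← sub_smul, ← sub_smul]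
    have : ((m : K) - ((m - 2 * d : ℚ) : K) - 2 * (d : K)) = 0 := by
      push_cast
      ring
    rw [this, zero_smul]
  rw [← sub_eq_zero, ← one_mul (w * x - x * w - (2 * (d : K)) • x), ← hP.sum, Finset.sum_mul]
  exact Finset.sum_eq_zero fun m _ => key m

/-- Two decompositions with the same weight element agree. -/
theorem Decomp.unique {Λ Λ' : Finset ℚ} {P P' : ℚ → M} (h : TrAlg τ G) (hP : Decomp G Λ P)
    (hP' : Decomp G Λ' P')
    (hw : ∑ l ∈ Λ, (l : K) • P l = ∑ l ∈ Λ', (l : K) • P' l) (l : ℚ) : P l = P' l := by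
  classical
  obtain ⟨-, -, h2, -⟩ := hP.weight h
  obtain ⟨-, h1', -, -⟩ := hP'.weight h
  rw [hw] at h2
  have h0 : ∀ a b : ℚ, a ≠ b → P a * P' b = 0 := by
    intro a b hab
    have e1 : P a * (∑ l ∈ Λ', (l : K) • P' l) * P' b = (a : K) • (P a * P' b) := by
      rw [h2, smul_mul_assoc]
    rw [mul_assoc, h1', mul_smul_comm, ← sub_eq_zero, ← sub_smul] at e1
    rcases smul_eq_zero.1 e1 with h3 | h3
    · exact absurd (by exact_mod_cast (sub_eq_zero.1 h3).symm) hab
    · exact h3
  have e1 : P l = P l * P' l := by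
    conv_lhs => rw [← mul_one (P l), ← hP'.sum, Finset.mul_sum]
    by_cases hl : l ∈ Λ'
    · exact Finset.sum_eq_single l (fun b _ hb => h0 l b (Ne.symm hb))
        (fun h' => absurd hl h')
    · rw [hP'.supp l hl, mul_zero]
      exact Finset.sum_eq_zero fun b hb => h0 l b (fun h' => hl (by rwa [h']))
  have e2 : P' l = P l * P' l := by
    conv_lhs => rw [← one_mul (P' l), ← hP.sum, Finset.sum_mul]
    by_cases hl : l ∈ Λ
    · exact Finset.sum_eq_single l (fun b _ hb => h0 b l hb) (fun h' => absurd hl h')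
    · rw [hP.supp l hl, zero_mul]
      exact Finset.sum_eq_zero fun b hb => h0 b l (fun h' => hl (by rwa [← h']))
  rw [e1, ← e2]

end

end Pool.Agent.X310.Wt
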