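import Pool.Agent.X310.JmDefs
import Pool.Agent.H447R3.NcDefs

/-!
# Weight cycles and weight decompositions: definitions
-/

open CategoryTheory AlgebraicGeometry

universe u v

namespace Pool.Agent.X310.Wt

open Pool.Agent.H914 Pool.Agent.H447 VarClass Obj WeilCohomology

variable {k : Type u} [Field k] {𝒱 : VarClass k} {ops : CycleOps 𝒱}

/-- The diagonal of `X × X`, as a cycle. -/
noncomputable def diagCyc (ops : CycleOps 𝒱) (X : 𝒱.Obj) : (X.prod X).Cycles :=
  ops.push (diag X) X.V.fundCycle

/-- `w` is a weight cycle of `X`: a cycle of codimension `n = dim X` on `X × X` such that, up to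
numerical equivalence, the commutator of correspondences `w ∘ y - y ∘ w` is `2 (p - n) y` for all
cycles `y` of codimension `p` on `X × X`, for all `p`, and such that the intersection number of `w`
with the transpose of `z` is zero for all numerically central `z` of codimension `n`. (In the
composition `compCyc z w` the correspondence `z` comes first.) -/
structure IsWeightCycle (ops : CycleOps 𝒱) (X : 𝒱.Obj) (w : (X.prod X).Cycles) : Prop where
  mem : (X.prod X).IsCyc X.dim w
  shift : ∀ p ≤ 2 * X.dim, ∀ y, (X.prod X).IsCyc p y →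
    NumEquiv ops (X.prod X) p (compCyc ops y w - compCyc ops w y)
      ((2 * ((p : ℚ) - X.dim)) • y)
  bal : ∀ z, (X.prod X).IsCyc X.dim z → NumCentral ops X z → interT ops X w z = 0

/-- `P` is a weight decomposition of the diagonal of `X`, with weights in the finite set `Λ` of
rational numbers. Here `P l` is a cycle of codimension `n = dim X` on `X × X` for each rational
number `l`. Up to numerical equivalence, `P l = 0` for `l` not in `Λ`, the sum of the `P l` for `l`
in `Λ` is the diagonal, `P l` and `P m` are orthogonal for `l ≠ m`, `P l` is idempotent, and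
`P (l + 2 (p - n)) ∘ y = y ∘ P l` for all cycles `y` of codimension `p` on `X × X`, for all `p`. For
all numerically central `z` of codimension `n`, the sum of the numbers `l (P l · ᵗz)` is zero. -/
structure IsWeightDecomposition (ops : CycleOps 𝒱) (X : 𝒱.Obj) (Λ : Finset ℚ)
    (P : ℚ → (X.prod X).Cycles) : Prop where
  mem : ∀ l, (X.prod X).IsCyc X.dim (P l)
  supp : ∀ l, l ∉ Λ → NumEquiv ops (X.prod X) X.dim (P l) 0
  sum : NumEquiv ops (X.prod X) X.dim (∑ l ∈ Λ, P l) (diagCyc ops X)
  orth : ∀ l m, l ≠ m → NumEquiv ops (X.prod X) X.dim (compCyc ops (P m) (P l)) 0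
  idem : ∀ l, NumEquiv ops (X.prod X) X.dim (compCyc ops (P l) (P l)) (P l)
  shift : ∀ p ≤ 2 * X.dim, ∀ y, (X.prod X).IsCyc p y → ∀ l,
    NumEquiv ops (X.prod X) p (compCyc ops y (P (l + 2 * ((p : ℚ) - X.dim))))
      (compCyc ops (P l) y)
  bal : ∀ z, (X.prod X).IsCyc X.dim z → NumCentral ops X z →
    ∑ l ∈ Λ, l * interT ops X (P l) z = 0

/-- `P` is the Künneth decomposition, up to numerical equivalence: for all `j` the cycle `P (j - n)`
is numerically equivalent to a cycle which induces the projector onto `H^j(X)`. -/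
def IsKunneth (W : WeilCohomology.{u, v} ops) (X : 𝒱.Obj) (P : ℚ → (X.prod X).Cycles) : Prop :=
  ∀ j : ℕ, ∃ z, (X.prod X).IsCyc X.dim z ∧ InducesProjector W X j z ∧
    NumEquiv ops (X.prod X) X.dim (P ((j : ℚ) - X.dim)) z

end Pool.Agent.X310.Wt
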