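import Pool.Agent.X310.Wt6
import Pool.Agent.X310.WtDefs
import Pool.Agent.X310.JmMain
import Pool.Agent.X310.Nil
import Pool.Agent.H447R3.NcB

/-!
# Weight cycles
-/

set_option autoImplicit false
set_option linter.unusedSectionVars false

open CategoryTheory AlgebraicGeometry Polynomial

universe u v

namespace Pool.Agent.X310.Wt

open Pool.Agent.H914 Pool.Agent.H447 Pool.Agent.W534 Pool.Agent.X310.Gap Pool.Agent.X310.Sec
  Pool.Agent.X310.Jm VarClass Obj WeilCohomology

variable {k : Type u} [Field k] {𝒱 : VarClass k} {ops : CycleOps 𝒱}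
  {W : WeilCohomology.{u, v} ops} {X : 𝒱.Obj}

/-- Descent to rational coefficients, for an arbitrary functional. -/
lemma descend' (φ : W.K →ₗ[ℚ] ℚ) {d : ℤ} {x : Module.End W.K (W.H X)}
    (hx : x ∈ KOp W X X d) : ∃ x', ROp W X d x' ∧
      ∀ ψ : Module.End W.K (W.H X) →ₗ[W.K] W.K, (∀ s, ROp W X d s → ∃ q : ℚ, ψ s = q) →
        ψ x' = ((φ (ψ x) : ℚ) : W.K) := by
  have hφq : ∀ (c : W.K) (q : ℚ), φ (c * q) = φ c * q := by
    intro c q
    have h1 : c * (q : W.K) = q • c := by rw [Rat.smul_def, mul_comm]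
    rw [h1, map_smul, smul_eq_mul, mul_comm]
  have hOA := rop_opAlg (W := W) (X := X)
  suffices h : ∀ c : W.K, ∃ x', ROp W X d x' ∧
      ∀ ψ : Module.End W.K (W.H X) →ₗ[W.K] W.K, (∀ s, ROp W X d s → ∃ q : ℚ, ψ s = q) →
        ψ x' = ((φ (c * ψ x) : ℚ) : W.K) by
    obtain ⟨x', hx', h1⟩ := h 1
    exact ⟨x', hx', fun ψ hψ => by rw [h1 ψ hψ, one_mul]⟩
  induction hx using Submodule.span_induction with
  | mem b hb =>
    intro c
    obtain ⟨p, hp, z, hz, rfl⟩ := hb
    refine ⟨((φ c : ℚ) : W.K) • W.corr (W.cl _ z), hOA.smul _ (rop_corr hp hz), fun ψ hψ => ?_⟩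
    obtain ⟨q, hq⟩ := hψ _ (rop_corr hp hz)
    rw [map_smul, hq, hφq, smul_eq_mul, Rat.cast_mul]
  | zero => intro c; exact ⟨0, hOA.zero _, fun ψ hψ => by simp⟩
  | add x y _ _ hx hy =>
    intro c
    obtain ⟨x', hx', h1⟩ := hx c
    obtain ⟨y', hy', h2⟩ := hy c
    refine ⟨x' + y', hOA.add hx' hy', fun ψ hψ => ?_⟩
    rw [map_add, h1 ψ hψ, h2 ψ hψ, map_add, mul_add, map_add, Rat.cast_add]
  | smul a x _ hx =>
    intro c
    obtain ⟨x', hx', h1⟩ := hx (c * a)
    refine ⟨x', hx', fun ψ hψ => ?_⟩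
    rw [h1 ψ hψ, map_smul, smul_eq_mul, mul_assoc]

lemma kop_big {d : ℤ} (hd : (X.dim : ℤ) < d) {x : Module.End W.K (W.H X)}
    (hx : x ∈ KOp W X X d) : x = 0 := by
  apply gr_ext (W.isInternal X)
  intro i a ha
  have h1 := KOp.isHom hx i a (by rw [grZ_natCast]; exact ha)
  rw [show (i : ℤ) + 2 * d = ((i + (2 * d).toNat : ℕ) : ℤ) by push_cast; omega, grZ_natCast,
    W_hbd _ (by omega)] at h1
  rw [(Submodule.mem_bot _).1 h1, LinearMap.zero_apply]

/-- A condition on all operators of degree `d` has to be checked for cycles only. -/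
lemma kop_ind {d : ℤ} {N : Submodule W.K (Module.End W.K (W.H X))}
    (T : Module.End W.K (W.H X) →ₗ[W.K] Module.End W.K (W.H X))
    (hT : ∀ p ≤ 2 * X.dim, (p : ℤ) = X.dim + d → ∀ z, (X.prod X).IsCyc p z →
      T (W.corr (W.cl _ z)) ∈ N) : ∀ x ∈ KOp W X X d, T x ∈ N := by
  intro x hx
  by_cases hd : (X.dim : ℤ) < d
  · rw [kop_big hd hx, map_zero]
    exact Submodule.zero_mem _
  · induction hx using Submodule.span_induction with
    | mem b hb =>
      obtain ⟨p, hp, z, hz, rfl⟩ := hb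
      exact hT p (by omega) hp z hz
    | zero => rw [map_zero]; exact Submodule.zero_mem _
    | add x y _ _ hx hy => rw [map_add]; exact Submodule.add_mem _ hx hy
    | smul c x _ hx => rw [map_smul]; exact Submodule.smul_mem _ _ hx

lemma comp_mem {p : ℕ} {w y : (X.prod X).Cycles} (hw : (X.prod X).IsCyc X.dim w)
    (hy : (X.prod X).IsCyc p y) : (X.prod X).IsCyc p (compCyc ops y w) ∧
      (X.prod X).IsCyc p (compCyc ops w y) :=
  ⟨compCyc_mem hy hw rfl, compCyc_mem hw hy (by omega)⟩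

lemma corr_comm {p : ℕ} {w y : (X.prod X).Cycles} (hw : (X.prod X).IsCyc X.dim w)
    (hy : (X.prod X).IsCyc p y) :
    W.corr (W.cl _ (compCyc ops y w - compCyc ops w y)) =
      W.corr (W.cl _ w) * W.corr (W.cl _ y) - W.corr (W.cl _ y) * W.corr (W.cl _ w) := by
  rw [map_sub, corr_sub', corr_compCyc W hw, corr_compCyc W hy]
  rfl

lemma corr_smul' (c : ℚ) (y : (X.prod X).Cycles) :
    W.corr (W.cl _ (c • y)) = (c : W.K) • W.corr (W.cl _ y) := by
  rw [W.cl_smul, corr_smul]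

lemma neg_ad_rop {e d : ℤ} {y : Module.End W.K (W.H X)} (hy : ROp W X d y) :
    ∀ s, ROp W X e s → ROp W X (e + d) ((-(ad W.K y)) s) := by
  intro s hs
  have h1 := ad_rop hy hs
  have h3 : ((-1 : ℚ) : W.K) • ad W.K y s = (-(ad W.K y)) s := by
    rw [Rat.cast_neg, Rat.cast_one, LinearMap.neg_apply]
    exact neg_one_smul W.K (ad W.K y s)
  rw [← h3]
  exact rop_opAlg.smul _ (rop_opAlg.cast h1 (by ring))

/-- Numerically central cycles. -/
lemma central_iff {z : (X.prod X).Cycles} (hz : (X.prod X).IsCyc X.dim z) :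
    NumCentral ops X z ↔ CentralMod (W.isInternal X) (RR W X) (W.corr (W.cl _ z)) := by
  constructor
  · intro hc d x hx
    refine kop_ind (N := Nd (W.isInternal X) (RR W X) d) (ad W.K (W.corr (W.cl _ z))) ?_ x hx
    intro p hp hpd y hy
    have h1 := (nd_iff (W := W) hpd hp (comp_mem hz hy).2 (comp_mem hz hy).1).1 (hc p hp y hy)
    rw [corr_compCyc W hz, corr_compCyc W hy] at h1
    have h2 := Submodule.neg_mem _ h1
    rw [neg_sub] at h2
    exact h2
  · intro hc p hp y hy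
    rw [nd_iff (W := W) (d := (p : ℤ) - X.dim) (by ring) hp (comp_mem hz hy).2 (comp_mem hz hy).1,
      corr_compCyc W hz, corr_compCyc W hy]
    have h2 := Submodule.neg_mem _ (hc ((p : ℤ) - X.dim) _ (KOp.gen (by ring) hy))
    rw [neg_sub] at h2
    exact h2

lemma shift_iff {p : ℕ} (hp : p ≤ 2 * X.dim) {d : ℤ} (hpd : (p : ℤ) = X.dim + d)
    {w y : (X.prod X).Cycles} (hw : (X.prod X).IsCyc X.dim w) (hy : (X.prod X).IsCyc p y) :
    NumEquiv ops (X.prod X) p (compCyc ops y w - compCyc ops w y) ((2 * ((p : ℚ) - X.dim)) • y) ↔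
      W.corr (W.cl _ w) * W.corr (W.cl _ y) - W.corr (W.cl _ y) * W.corr (W.cl _ w) -
        (2 * (d : W.K)) • W.corr (W.cl _ y) ∈ Nd (W.isInternal X) (RR W X) d := by
  rw [nd_iff (W := W) hpd hp (cyc_sub (comp_mem hw hy).1 (comp_mem hw hy).2) (hy.smul _),
    corr_comm hw hy, corr_smul']
  have : ((2 * ((p : ℚ) - X.dim) : ℚ) : W.K) = 2 * (d : W.K) := by
    have h1 : ((p : ℤ) : W.K) = ((X.dim + d : ℤ) : W.K) := by rw [hpd]
    push_cast at h1 ⊢
    rw [h1]
    ring
  rw [this]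

lemma interT_str {z w : (X.prod X).Cycles} (hz : (X.prod X).IsCyc X.dim z)
    (hw : (X.prod X).IsCyc X.dim w) : (interT ops X z w : W.K) =
      LinearMap.trace W.K (W.H X)
        (par (W.isInternal X) * (W.corr (W.cl _ z) * W.corr (W.cl _ w))) := interT_eq hz hw

/-- The operator of a weight cycle. -/
theorem IsWeightCycle.isWt {w : (X.prod X).Cycles} (hw : IsWeightCycle ops X w) :
    IsWt (W.isInternal X) (RR W X) (W.corr (W.cl _ w)) := by
  have hmem : W.corr (W.cl _ w) ∈ RR W X 0 := KOp.gen (by simp) hw.mem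
  refine ⟨hmem, fun d x hx => ?_, fun z hz hc => ?_⟩
  · refine kop_ind (N := Nd (W.isInternal X) (RR W X) d) (ad W.K (W.corr (W.cl _ w)) -
      (2 * (d : W.K)) • LinearMap.id) ?_ x hx
    intro p hp hpd y hy
    exact (shift_iff hp hpd hw.mem hy).1 (hw.shift p hp y hy)
  · by_contra hne
    set c := LinearMap.trace W.K (W.H X) (par (W.isInternal X) * (W.corr (W.cl _ w) * z)) with hc0
    obtain ⟨φ₀, hφ₀⟩ := exists_retraction W.K
    set φ : W.K →ₗ[ℚ] ℚ := φ₀ ∘ₗ (LinearMap.mulLeft ℚ c⁻¹) with hφ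
    have hφc : φ c = 1 := by
      rw [hφ, LinearMap.comp_apply, LinearMap.mulLeft_apply, inv_mul_cancel₀ hne, hφ₀]
    obtain ⟨z', hz', hψ⟩ := descend' φ hz
    have hwR : ROp W X 0 (W.corr (W.cl _ w)) := rop_corr (by simp) hw.mem
    obtain ⟨y, hy, rfl⟩ := exists_of_rop (p := X.dim) (by simp) hz'
    have hcy : NumCentral ops X y := by
      rw [central_iff (W := W) hy]
      intro d x hx
      refine kop_ind (N := Nd (W.isInternal X) (RR W X) d) (ad W.K (W.corr (W.cl _ y))) ?_ x hx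
      intro p hp hpd v hv
      have hvR : ROp W X d (W.corr (W.cl _ v)) := rop_corr hpd hv
      refine nd_of_rop (KOp.ofRop (rop_opAlg.cast (ad_rop hz' hvR) (by ring))) fun b hb => ?_
      have hT : ∀ s, ROp W X 0 s → ROp W X (-(-d)) ((-(ad W.K (W.corr (W.cl _ v)))) s) :=
        fun s hs => rop_opAlg.cast (neg_ad_rop hvR s hs) (by ring)
      have h1 := hψ _ (strForm_rat hT hb)
      have h2 : strForm W X (-(ad W.K (W.corr (W.cl _ v)))) b z = 0 := by
        have h3 := (hc d _ (KOp.ofRop hvR)).2 b (KOp.ofRop hb)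
        rw [strForm_apply, LinearMap.neg_apply, ad_apply, neg_sub]
        exact h3
      rw [h2, map_zero, Rat.cast_zero, strForm_apply, LinearMap.neg_apply, ad_apply, neg_sub] at h1
      exact h1
    have h1 := hw.bal y hy hcy
    have h2 := hψ ((LinearMap.trace W.K (W.H X)) ∘ₗ
      (LinearMap.mulLeft W.K (par (W.isInternal X))) ∘ₗ
        (LinearMap.mulLeft W.K (W.corr (W.cl _ w)))) (fun s hs => rop_str _
          (rop_opAlg.cast (rop_opAlg.mul hwR hs) (by ring)))
    have h3 : ((LinearMap.trace W.K (W.H X)) ∘ₗ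
      (LinearMap.mulLeft W.K (par (W.isInternal X))) ∘ₗ
        (LinearMap.mulLeft W.K (W.corr (W.cl _ w)))) z = c := rfl
    rw [h3, hφc] at h2
    have h4 : (interT ops X w y : W.K) = ((1 : ℚ) : W.K) := by
      rw [interT_str hw.mem hy]
      exact h2
    rw [h1] at h4
    simp at h4

/-- Existence of a weight cycle. -/
theorem exists_weightCycle (W : WeilCohomology.{u, v} ops) (X : 𝒱.Obj) :
    ∃ w, IsWeightCycle ops X w := by
  obtain ⟨C, hC⟩ := exists_isWt (W.isInternal X) (grAlg W X)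
  obtain ⟨φ, hφ⟩ := exists_retraction W.K
  have hφr : ∀ q : ℚ, φ (q : W.K) = q := by
    intro q
    have h1 : (q : W.K) = q • (1 : W.K) := by rw [Rat.smul_def, mul_one]
    rw [h1, map_smul, hφ, smul_eq_mul, mul_one]
  obtain ⟨C', hC', hψ⟩ := descend' φ hC.mem
  obtain ⟨w, hw, rfl⟩ := exists_of_rop (p := X.dim) (by simp) hC'
  refine ⟨w, hw, fun p hp y hy => ?_, fun z hz hc => ?_⟩
  · have hpd : (p : ℤ) = X.dim + ((p : ℤ) - X.dim) := by ring
    rw [shift_iff (W := W) hp hpd hw hy]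
    set d : ℤ := (p : ℤ) - X.dim with hd
    have hyR : ROp W X d (W.corr (W.cl _ y)) := rop_corr hpd hy
    have hsm : ROp W X d ((2 * (d : W.K)) • W.corr (W.cl _ y)) := by
      have : ((2 * (d : ℚ) : ℚ) : W.K) = 2 * (d : W.K) := by push_cast; ring
      rw [← this]
      exact rop_opAlg.smul _ hyR
    refine nd_of_rop (Submodule.sub_mem _ (KOp.ofRop (rop_opAlg.cast (ad_rop hC' hyR) (by ring)))
      (KOp.ofRop hsm)) fun b hb => ?_
    have hT : ∀ s, ROp W X 0 s → ROp W X (-(-d)) ((-(ad W.K (W.corr (W.cl _ y)))) s) :=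
      fun s hs => rop_opAlg.cast (neg_ad_rop hyR s hs) (by ring)
    have h1 := hψ _ (strForm_rat hT hb)
    have h2 := (hC.shift d _ (KOp.ofRop hyR)).2 b (KOp.ofRop hb)
    rw [sub_mul, mul_sub, map_sub, sub_eq_zero] at h2
    have h3 : strForm W X (-(ad W.K (W.corr (W.cl _ y)))) b C =
        LinearMap.trace W.K (W.H X) (par (W.isInternal X) *
          ((2 * (d : W.K)) • W.corr (W.cl _ y) * b)) := by
      rw [strForm_apply, LinearMap.neg_apply, ad_apply, neg_sub]
      exact h2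
    obtain ⟨q, hq⟩ := rop_str _ (rop_opAlg.cast (rop_opAlg.mul hsm hb) (by ring))
    rw [h3, hq, hφr, ← hq, strForm_apply, LinearMap.neg_apply, ad_apply, neg_sub] at h1
    rw [sub_mul, mul_sub, map_sub, sub_eq_zero]
    exact h1
  · have hzR : ROp W X 0 (W.corr (W.cl _ z)) := rop_corr (by simp) hz
    have h1 := hψ (strForm W X LinearMap.id (W.corr (W.cl _ z))) (strForm_rat (e := 0)
      (fun s hs => rop_opAlg.cast hs (by ring)) hzR)
    have h2 : strForm W X LinearMap.id (W.corr (W.cl _ z)) C = 0 :=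
      hC.bal _ (KOp.ofRop hzR) ((central_iff hz).1 hc)
    rw [h2, map_zero, Rat.cast_zero] at h1
    have h3 : (interT ops X w z : W.K) = 0 := by
      rw [interT_str hw hz]
      exact h1
    exact_mod_cast h3

/-- Uniqueness of the weight cycle. -/
theorem weightCycle_unique (W : WeilCohomology.{u, v} ops) {w w' : (X.prod X).Cycles}
    (hw : IsWeightCycle ops X w) (hw' : IsWeightCycle ops X w') :
    NumEquiv ops (X.prod X) X.dim w w' := by
  rw [nd_iff (W := W) (d := 0) (by simp) (by omega) hw.mem hw'.mem]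
  exact (hw.isWt (W := W)).unique (grAlg W X) (hw'.isWt (W := W))

end Pool.Agent.X310.Wt
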