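import Pool.Agent.X310.Wt7

/-!
# Weight decompositions of the diagonal
-/

set_option autoImplicit false
set_option linter.unusedSectionVars false

open CategoryTheory AlgebraicGeometry Polynomial

universe u v

namespace Pool.Agent.X310.Wt

open Pool.Agent.H914 Pool.Agent.H447 Pool.Agent.W534 Pool.Agent.X310.Gap Pool.Agent.X310.Sec
  Pool.Agent.X310.Jm VarClass Obj WeilCohomology

variable {k : Type u} [Field k] {𝒱 : VarClass k} {ops : CycleOps 𝒱}
  {W : WeilCohomology.{u, v} ops} {X : 𝒱.Obj}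

/-- The class of an operator. -/
noncomputable abbrev kcls (W : WeilCohomology.{u, v} ops) (X : 𝒱.Obj) {d : ℤ}
    {x : Module.End W.K (W.H X)} (hx : x ∈ RR W X d) : MM (W.isInternal X) (grAlg W X) :=
  cls (W.isInternal X) (grAlg W X) hx

abbrev TA (W : WeilCohomology.{u, v} ops) (X : 𝒱.Obj) :
    TrAlg (tauM (W.isInternal X) (grAlg W X)) (grM (W.isInternal X) (grAlg W X)) :=
  trAlg (W.isInternal X) (grAlg W X)

lemma kcls_congr {d : ℤ} {x y : Module.End W.K (W.H X)} (hx : x ∈ RR W X d) (hxy : x = y)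
    (hy : y ∈ RR W X d) : kcls W X hx = kcls W X hy := by
  subst hxy
  rfl

lemma kcls_eq {d : ℤ} {x y : Module.End W.K (W.H X)} (hx : x ∈ RR W X d) (hy : y ∈ RR W X d) :
    kcls W X hx = kcls W X hy ↔ x - y ∈ Nd (W.isInternal X) (RR W X) d := by
  rw [← cls_zero (W.isInternal X) (grAlg W X) (Submodule.sub_mem _ hx hy), ← sub_eq_zero]
  have : cls (W.isInternal X) (grAlg W X) (Submodule.sub_mem _ hx hy) =
      kcls W X hx - kcls W X hy := by
    simp only [cls, ← map_sub]
    rfl
  rw [this]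

lemma kcls_mul {a b c : ℤ} {x y : Module.End W.K (W.H X)} (hx : x ∈ RR W X a) (hy : y ∈ RR W X b)
    (hxy : x * y ∈ RR W X c) : kcls W X hxy = kcls W X hx * kcls W X hy := by
  simp only [cls, ← map_mul]
  rfl

lemma kcls_zero {d : ℤ} (hx : (0 : Module.End W.K (W.H X)) ∈ RR W X d) : kcls W X hx = 0 := by
  rw [cls_zero]
  exact Submodule.zero_mem _

lemma kcls_one (hx : (1 : Module.End W.K (W.H X)) ∈ RR W X 0) : kcls W X hx = 1 := by
  simp only [cls]
  exact map_one _

lemma kcls_add {d : ℤ} {x y : Module.End W.K (W.H X)} (hx : x ∈ RR W X d) (hy : y ∈ RR W X d) :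
    kcls W X (Submodule.add_mem _ hx hy) = kcls W X hx + kcls W X hy := by
  simp only [cls, ← map_add]
  rfl

lemma kcls_smul {d : ℤ} (c : W.K) {x : Module.End W.K (W.H X)} (hx : x ∈ RR W X d) :
    kcls W X (Submodule.smul_mem _ c hx) = c • kcls W X hx := by
  simp only [cls, ← map_smul]
  rfl

lemma kcls_sum {ι : Type*} (s : Finset ι) (x : ι → Module.End W.K (W.H X)) {d : ℤ}
    (hx : ∀ i, x i ∈ RR W X d) (hs : ∑ i ∈ s, x i ∈ RR W X d) :
    kcls W X hs = ∑ i ∈ s, kcls W X (hx i) := by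
  classical
  induction s using Finset.induction_on with
  | empty =>
    exact (kcls_congr hs Finset.sum_empty (Submodule.zero_mem _)).trans
      ((kcls_zero _).trans Finset.sum_empty.symm)
  | insert a s ha ih =>
    have h1 : ∑ i ∈ s, x i ∈ RR W X d := Submodule.sum_mem _ fun i _ => hx i
    exact (kcls_congr hs (Finset.sum_insert ha) (Submodule.add_mem _ (hx a) h1)).trans
      (((kcls_add (hx a) h1).trans (by rw [ih h1])).trans (Finset.sum_insert ha).symm)

/-- Numerical equivalence in terms of classes. -/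
lemma num_kcls {p : ℕ} {d : ℤ} (hp : (p : ℤ) = X.dim + d) (hp2 : p ≤ 2 * X.dim)
    {z z' : (X.prod X).Cycles} (hz : (X.prod X).IsCyc p z) (hz' : (X.prod X).IsCyc p z') :
    NumEquiv ops (X.prod X) p z z' ↔
      kcls W X (KOp.gen hp hz : W.corr (W.cl _ z) ∈ KOp W X X d) =
        kcls W X (KOp.gen hp hz' : W.corr (W.cl _ z') ∈ KOp W X X d) := by
  rw [nd_iff (W := W) hp hp2 hz hz', kcls_eq]

lemma num_kcls0 {z z' : (X.prod X).Cycles} (hz : (X.prod X).IsCyc X.dim z)
    (hz' : (X.prod X).IsCyc X.dim z') :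
    NumEquiv ops (X.prod X) X.dim z z' ↔
      kcls W X (KOp.gen (by simp) hz : W.corr (W.cl _ z) ∈ KOp W X X 0) =
        kcls W X (KOp.gen (by simp) hz' : W.corr (W.cl _ z') ∈ KOp W X X 0) :=
  num_kcls (by simp) (by omega) hz hz'

lemma evM_kcls {C : Module.End W.K (W.H X)} (hC : C ∈ RR W X 0) (f : ℚ[X])
    (hf : ev C f ∈ RR W X 0) : evM W.K (kcls W X hC) f = kcls W X hf := by
  rw [evM_apply]
  exact aeval_cls (W.isInternal X) (grAlg W X) hC _ hf

/-- The classes of a family of cycles. -/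
noncomputable abbrev fam (W : WeilCohomology.{u, v} ops) {P : ℚ → (X.prod X).Cycles}
    (hP : ∀ l, (X.prod X).IsCyc X.dim (P l)) (l : ℚ) : MM (W.isInternal X) (grAlg W X) :=
  kcls W X (KOp.gen (by simp) (hP l) : W.corr (W.cl _ (P l)) ∈ KOp W X X 0)

lemma cyc_sum {ι : Type*} (s : Finset ι) {p : ℕ} {z : ι → (X.prod X).Cycles}
    (hz : ∀ i, (X.prod X).IsCyc p (z i)) : (X.prod X).IsCyc p (∑ i ∈ s, z i) := by
  classical
  induction s using Finset.induction_on with
  | empty => rw [Finset.sum_empty]; exact SmVar.IsCyc.zero _ _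
  | insert a s ha ih => rw [Finset.sum_insert ha]; exact (hz a).add ih

lemma corr_sum {ι : Type*} (s : Finset ι) (z : ι → (X.prod X).Cycles) :
    W.corr (W.cl _ (∑ i ∈ s, z i)) = ∑ i ∈ s, W.corr (W.cl _ (z i)) := by
  classical
  induction s using Finset.induction_on with
  | empty =>
    rw [Finset.sum_empty, Finset.sum_empty, map_zero]
    have := corr_smul' (W := W) (X := X) 0 0
    rw [zero_smul, map_zero, Rat.cast_zero, zero_smul] at this
    exact this
  | insert a s ha ih =>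
    rw [Finset.sum_insert ha, Finset.sum_insert ha, map_add, corr_add, ih]

lemma corr_zero' : W.corr (W.cl _ (0 : (X.prod X).Cycles)) = 0 := by
  have := corr_sum (W := W) (X := X) (∅ : Finset ℕ) (fun _ => 0)
  rwa [Finset.sum_empty, Finset.sum_empty] at this

lemma diag_mem : (X.prod X).IsCyc X.dim (diagCyc ops X) :=
  ops.push_mem _ X.V.fundCycle_mem (by rw [dim_prod]; omega)

lemma corr_diagCyc : W.corr (W.cl _ (diagCyc ops X)) = 1 := by
  rw [diagCyc, corr_push_diag, W.cl_fund]
  apply LinearMap.ext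
  intro a
  rw [LinearMap.mulLeft_apply, one_mul, Module.End.one_apply]

/-- A family of cycles is a decomposition if and only if its classes are. -/
theorem decomp_iff {Λ : Finset ℚ} {P : ℚ → (X.prod X).Cycles}
    (hP : ∀ l, (X.prod X).IsCyc X.dim (P l)) :
    IsWeightDecomposition ops X Λ P ↔
      Decomp (grM (W.isInternal X) (grAlg W X)) Λ (fam W hP) ∧
        ∀ z, (X.prod X).IsCyc X.dim z → NumCentral ops X z →
          ∑ l ∈ Λ, l * interT ops X (P l) z = 0 := by
  have hz0 : kcls W X (KOp.gen (p := X.dim) (by simp) (SmVar.IsCyc.zero _ _) :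
      W.corr (W.cl _ (0 : (X.prod X).Cycles)) ∈ KOp W X X 0) = 0 := by
    rw [kcls_congr _ corr_zero' (Submodule.zero_mem _), kcls_zero]
  have hmul : ∀ l m, kcls W X (KOp.gen (by simp) (comp_mem (hP l) (hP m)).1 :
      W.corr (W.cl _ (compCyc ops (P m) (P l))) ∈ KOp W X X 0) = fam W hP l * fam W hP m := by
    intro l m
    rw [← kcls_mul (KOp.gen (by simp) (hP l)) (KOp.gen (by simp) (hP m))
      (mul0 (grAlg W X) (KOp.gen (by simp) (hP l)) (KOp.gen (by simp) (hP m)))]
    exact kcls_congr _ (corr_compCyc W (hP l)) _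
  have hsum : kcls W X (KOp.gen (by simp) (cyc_sum Λ hP) :
      W.corr (W.cl _ (∑ l ∈ Λ, P l)) ∈ KOp W X X 0) = ∑ l ∈ Λ, fam W hP l := by
    rw [← kcls_sum Λ (fun l => W.corr (W.cl _ (P l))) (fun l => KOp.gen (by simp) (hP l))
      (Submodule.sum_mem _ fun l _ => KOp.gen (by simp) (hP l))]
    exact kcls_congr _ (corr_sum _ _) _
  have hdiag : kcls W X (KOp.gen (by simp) (diag_mem (ops := ops)) :
      W.corr (W.cl _ (diagCyc ops X)) ∈ KOp W X X 0) = 1 := by
    rw [kcls_congr _ corr_diagCyc (grAlg W X).one, kcls_one]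
  have hshift : ∀ (p : ℕ) (d : ℤ) (hpd : (p : ℤ) = X.dim + d), p ≤ 2 * X.dim → ∀ y
      (hy : (X.prod X).IsCyc p y) (l : ℚ),
      (NumEquiv ops (X.prod X) p (compCyc ops y (P (l + 2 * ((p : ℚ) - X.dim))))
        (compCyc ops (P l) y) ↔ fam W hP (l + 2 * d) * kcls W X (KOp.gen hpd hy) =
          kcls W X (KOp.gen hpd hy) * fam W hP l) := by
    intro p d hpd hp y hy l
    have hd : (l + 2 * ((p : ℚ) - X.dim)) = l + 2 * d := by
      have : ((p : ℤ) : ℚ) = ((X.dim + d : ℤ) : ℚ) := by rw [hpd]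
      push_cast at this
      rw [this]
      ring
    rw [hd, num_kcls (W := W) hpd hp (comp_mem (hP _) hy).1 (comp_mem (hP _) hy).2,
      ← kcls_mul (KOp.gen (by simp) (hP _)) (KOp.gen hpd hy)
        (cast_mem ((grAlg W X).mul (KOp.gen (by simp) (hP _)) (KOp.gen hpd hy)) (zero_add d)),
      ← kcls_mul (KOp.gen hpd hy) (KOp.gen (by simp) (hP _))
        (cast_mem ((grAlg W X).mul (KOp.gen hpd hy) (KOp.gen (by simp) (hP _))) (add_zero d))]
    rw [kcls_congr (KOp.gen hpd (comp_mem (hP (l + 2 * d)) hy).1) (corr_compCyc W (hP _))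
        (cast_mem ((grAlg W X).mul (KOp.gen (by simp) (hP _)) (KOp.gen hpd hy)) (zero_add d)),
      kcls_congr (KOp.gen hpd (comp_mem (hP l) hy).2) (corr_compCyc W hy)
        (cast_mem ((grAlg W X).mul (KOp.gen hpd hy) (KOp.gen (by simp) (hP _))) (add_zero d))]
  constructor
  · intro h
    refine ⟨⟨fun l => cls_mem _ _ _, fun l hl => ?_, ?_, fun l m => ?_, fun d x hx l => ?_⟩,
      h.bal⟩
    · have := (num_kcls0 (W := W) (hP l) (SmVar.IsCyc.zero _ _)).1 (h.supp l hl)
      rw [fam, this, hz0]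
    · have := (num_kcls0 (W := W) (cyc_sum Λ hP) diag_mem).1 h.sum
      rw [← hsum, this, hdiag]
    · split_ifs with hlm
      · subst hlm
        have := (num_kcls0 (W := W) (comp_mem (hP l) (hP l)).1 (hP l)).1 (h.idem l)
        rw [← hmul, this]
      · have := (num_kcls0 (W := W) (comp_mem (hP l) (hP m)).1 (SmVar.IsCyc.zero _ _)).1
          (h.orth l m hlm)
        rw [← hmul, this, hz0]
    · obtain ⟨y, hy, rfl⟩ := exists_cls _ _ hx
      have key := kop_ind (N := Nd (W.isInternal X) (RR W X) d)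
        (LinearMap.mulLeft W.K (W.corr (W.cl _ (P (l + 2 * d)))) -
          LinearMap.mulRight W.K (W.corr (W.cl _ (P l)))) (by
          intro p hp hpd v hv
          have h1 := (hshift p d hpd hp v hv l).1 (h.shift p hp v hv l)
          rw [← kcls_mul (KOp.gen (by simp) (hP _)) (KOp.gen hpd hv)
            (cast_mem ((grAlg W X).mul (KOp.gen (by simp) (hP _)) (KOp.gen hpd hv)) (zero_add d)),
            ← kcls_mul (KOp.gen hpd hv) (KOp.gen (by simp) (hP _))
            (cast_mem ((grAlg W X).mul (KOp.gen hpd hv) (KOp.gen (by simp) (hP _))) (add_zero d)),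
            kcls_eq] at h1
          exact h1) y hy
      rw [fam, fam, ← kcls_mul (KOp.gen (by simp) (hP _)) hy
            (cast_mem ((grAlg W X).mul (KOp.gen (by simp) (hP _)) hy) (zero_add d)),
            ← kcls_mul hy (KOp.gen (by simp) (hP _))
            (cast_mem ((grAlg W X).mul hy (KOp.gen (by simp) (hP _))) (add_zero d)), kcls_eq]
      exact key
  · rintro ⟨h, hb⟩
    refine ⟨hP, fun l hl => ?_, ?_, fun l m hlm => ?_, fun l => ?_, fun p hp y hy l => ?_, hb⟩
    · rw [num_kcls0 (W := W) (hP l) (SmVar.IsCyc.zero _ _), hz0]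
      exact h.supp l hl
    · rw [num_kcls0 (W := W) (cyc_sum Λ hP) diag_mem, hsum, hdiag]
      exact h.sum
    · rw [num_kcls0 (W := W) (comp_mem (hP l) (hP m)).1 (SmVar.IsCyc.zero _ _), hz0, hmul,
        h.orth, if_neg hlm]
    · rw [num_kcls0 (W := W) (comp_mem (hP l) (hP l)).1 (hP l), hmul, h.orth, if_pos rfl]
    · rw [hshift p ((p : ℤ) - X.dim) (by ring) hp y hy l]
      exact h.shift _ _ (cls_mem _ _ _) l

end Pool.Agent.X310.Wt
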