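import Pool.Agent.X310.Wt8
import Pool.Agent.X310.Src

/-!
# The canonical weight decomposition
-/

set_option autoImplicit false
set_option linter.unusedSectionVars false

open CategoryTheory AlgebraicGeometry Polynomial

universe u v

namespace Pool.Agent.X310.Wt

open Pool.Agent.H914 Pool.Agent.H447 Pool.Agent.W534 Pool.Agent.X310.Gap Pool.Agent.X310.Sec
  Pool.Agent.X310.Jm VarClass Obj WeilCohomology

variable {k : Type u} [Field k] {𝒱 : VarClass k} {ops : CycleOps 𝒱}
  {W : WeilCohomology.{u, v} ops} {X : 𝒱.Obj}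

lemma interT_tau {a b : (X.prod X).Cycles} (ha : (X.prod X).IsCyc X.dim a)
    (hb : (X.prod X).IsCyc X.dim b) : (interT ops X a b : W.K) =
      tauM (W.isInternal X) (grAlg W X)
        (kcls W X (KOp.gen (by simp) ha : W.corr (W.cl _ a) ∈ KOp W X X 0) *
          kcls W X (KOp.gen (by simp) hb : W.corr (W.cl _ b) ∈ KOp W X X 0)) := by
  rw [interT_str ha hb]
  exact (tau_cls (W.isInternal X) (grAlg W X) (KOp.gen (by simp) ha) (KOp.gen (by simp) hb)).symm

lemma bal_sum {Λ : Finset ℚ} {P : ℚ → (X.prod X).Cycles}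
    (hP : ∀ l, (X.prod X).IsCyc X.dim (P l)) {z : (X.prod X).Cycles}
    (hz : (X.prod X).IsCyc X.dim z) :
    ((∑ l ∈ Λ, l * interT ops X (P l) z : ℚ) : W.K) =
      tauM (W.isInternal X) (grAlg W X) ((∑ l ∈ Λ, (l : W.K) • fam W hP l) *
        kcls W X (KOp.gen (by simp) hz : W.corr (W.cl _ z) ∈ KOp W X X 0)) := by
  rw [Finset.sum_mul, map_sum]
  push_cast
  refine Finset.sum_congr rfl fun l _ => ?_
  rw [interT_tau (W := W) (hP l) hz, smul_mul_assoc, map_smul, smul_eq_mul]

/-- **Existence of a weight decomposition.** -/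
theorem exists_decomposition (W : WeilCohomology.{u, v} ops) (X : 𝒱.Obj) :
    ∃ Λ P, IsWeightDecomposition ops X Λ P := by
  classical
  obtain ⟨w, hw⟩ := exists_weightCycle W X
  have hwt := hw.isWt (W := W)
  obtain ⟨Λ, hΛ⟩ := hwt.ann (grAlg W X)
  have hTR : ROp W X 0 (W.corr (W.cl _ w)) := rop_corr (by simp) hw.mem
  set T := W.corr (W.cl _ w) with hT
  choose z hz hz' using fun l => exists_of_rop (p := X.dim) (by simp)
    ((rop_opAlg (W := W) (X := X)).ev hTR (Lagrange.basis Λ _root_.id l))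
  set P : ℚ → (X.prod X).Cycles := fun l => if l ∈ Λ then z l else 0 with hPdef
  have hP : ∀ l, (X.prod X).IsCyc X.dim (P l) := by
    intro l
    rw [hPdef]
    beta_reduce
    split_ifs
    · exact hz l
    · exact SmVar.IsCyc.zero _ _
  set t := kcls W X hwt.mem with ht
  have hann : evM W.K t (∏ l ∈ Λ, (Polynomial.X - Polynomial.C l) : ℚ[X]) = 0 := by
    rw [ht, evM_kcls hwt.mem _ (Nd_le hΛ), cls_zero]
    exact hΛ
  have hfam : fam W hP = idem W.K Λ t := by
    funext l
    rw [idem]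
    split_ifs with hl
    · have h1 : ev T (Lagrange.basis Λ _root_.id l) ∈ RR W X 0 :=
        KOp.ofRop (rop_opAlg.ev hTR _)
      rw [ht, evM_kcls hwt.mem _ h1]
      apply kcls_congr
      rw [hPdef]
      beta_reduce
      rw [if_pos hl, hz']
    · have h1 : W.corr (W.cl _ (P l)) = 0 := by
        rw [hPdef]
        beta_reduce
        rw [if_neg hl, corr_zero']
      rw [fam, kcls_congr _ h1 (Submodule.zero_mem _), kcls_zero]
  obtain ⟨hd, hs⟩ := idem_decomp (TA W X) hann (cls_mem _ _ _) (hwt.cls_shift (grAlg W X))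
  refine ⟨Λ, P, (decomp_iff (W := W) hP).2 ⟨by rw [hfam]; exact hd, fun y hy hc => ?_⟩⟩
  have h1 := bal_sum (W := W) (Λ := Λ) hP hy
  have h2 : ∑ l ∈ Λ, (l : W.K) • fam W hP l = t := by rw [hfam]; exact hs
  rw [h2, ht, ← interT_tau hw.mem hy, hw.bal y hy hc] at h1
  exact_mod_cast h1

/-- The weight cycle of a decomposition. -/
noncomputable def wCyc (Λ : Finset ℚ) (P : ℚ → (X.prod X).Cycles) : (X.prod X).Cycles :=
  ∑ l ∈ Λ, l • P l

lemma wCyc_mem {Λ : Finset ℚ} {P : ℚ → (X.prod X).Cycles}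
    (hP : ∀ l, (X.prod X).IsCyc X.dim (P l)) : (X.prod X).IsCyc X.dim (wCyc Λ P) :=
  cyc_sum Λ fun l => (hP l).smul l

lemma kcls_wCyc {Λ : Finset ℚ} {P : ℚ → (X.prod X).Cycles}
    (hP : ∀ l, (X.prod X).IsCyc X.dim (P l)) :
    kcls W X (KOp.gen (by simp) (wCyc_mem hP) : W.corr (W.cl _ (wCyc Λ P)) ∈ KOp W X X 0) =
      ∑ l ∈ Λ, (l : W.K) • fam W hP l := by
  have h1 : W.corr (W.cl _ (wCyc Λ P)) = ∑ l ∈ Λ, (l : W.K) • W.corr (W.cl _ (P l)) := by
    rw [wCyc, corr_sum]
    exact Finset.sum_congr rfl fun l _ => corr_smul' l (P l)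
  have h2 : ∀ l : ℚ, (l : W.K) • W.corr (W.cl _ (P l)) ∈ RR W X 0 := fun l =>
    Submodule.smul_mem _ _ (KOp.gen (by simp) (hP l))
  rw [kcls_congr _ h1 (Submodule.sum_mem _ fun l _ => h2 l), kcls_sum Λ _ h2]
  exact Finset.sum_congr rfl fun l _ => kcls_smul _ _

/-- The weight cycle of a decomposition is a weight cycle. -/
theorem IsWeightDecomposition.weightCycle (W : WeilCohomology.{u, v} ops) {Λ : Finset ℚ}
    {P : ℚ → (X.prod X).Cycles} (h : IsWeightDecomposition ops X Λ P) :
    IsWeightCycle ops X (wCyc Λ P) := by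
  have hP := h.mem
  obtain ⟨hD, hb⟩ := (decomp_iff (W := W) hP).1 h
  obtain ⟨-, -, -, hsh⟩ := hD.weight (TA W X)
  refine ⟨wCyc_mem hP, fun p hp y hy => ?_, fun z hz hc => ?_⟩
  · have hpd : (p : ℤ) = X.dim + ((p : ℤ) - X.dim) := by ring
    rw [shift_iff (W := W) hp hpd (wCyc_mem hP) hy]
    have hA : W.corr (W.cl _ (wCyc Λ P)) ∈ RR W X 0 := KOp.gen (by simp) (wCyc_mem hP)
    have hB : W.corr (W.cl _ y) ∈ RR W X ((p : ℤ) - X.dim) := KOp.gen hpd hy
    have h1 := hsh ((p : ℤ) - X.dim) _ (cls_mem (W.isInternal X) (grAlg W X) hB)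
    rw [← kcls_wCyc hP] at h1
    rw [← cls_zero (W.isInternal X) (grAlg W X) (shift_mem (grAlg W X) hA hB),
      cls_shift (W.isInternal X) (grAlg W X) hA hB, h1, sub_self]
  · have h1 := bal_sum (W := W) (Λ := Λ) hP hz
    rw [h.bal z hz hc, ← kcls_wCyc hP, ← interT_tau (wCyc_mem hP) hz] at h1
    exact_mod_cast h1.symm

/-- **Uniqueness of the weight decomposition.** -/
theorem decomposition_unique (W : WeilCohomology.{u, v} ops) {Λ Λ' : Finset ℚ}
    {P P' : ℚ → (X.prod X).Cycles} (h : IsWeightDecomposition ops X Λ P)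
    (h' : IsWeightDecomposition ops X Λ' P') (l : ℚ) :
    NumEquiv ops (X.prod X) X.dim (P l) (P' l) := by
  have hP := h.mem
  have hP' := h'.mem
  obtain ⟨hD, -⟩ := (decomp_iff (W := W) hP).1 h
  obtain ⟨hD', -⟩ := (decomp_iff (W := W) hP').1 h'
  have h1 := weightCycle_unique W (h.weightCycle W) (h'.weightCycle W)
  rw [num_kcls0 (W := W) (wCyc_mem hP) (wCyc_mem hP'), kcls_wCyc hP, kcls_wCyc hP'] at h1
  rw [num_kcls0 (W := W) (hP l) (hP' l)]
  exact hD.unique (TA W X) hD' h1 l

/-! ### The Künneth decomposition -/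

lemma par_rop (hK : KunnethStd W X) : ROp W X 0 (par (W.isInternal X)) := by
  have := scal_rop hK (fun j => (-1) ^ j)
  rw [par]
  convert this using 2
  funext j
  push_cast
  rfl

lemma wt_rop (hK : KunnethStd W X) : ROp W X 0 (wt (W.isInternal X) X.dim) := by
  exact scal_rop hK (fun j => (j : ℚ) - X.dim)

/-- The product of a central element with the parity operator. -/
lemma central_par (hK : KunnethStd W X) {z : (X.prod X).Cycles}
    (hz : (X.prod X).IsCyc X.dim z) (hc : NumCentral ops X z) :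
    ∃ y, (X.prod X).IsCyc X.dim y ∧ NumCentral ops X y ∧
      W.corr (W.cl _ y) = par (W.isInternal X) * W.corr (W.cl _ z) := by
  have hpar := par_rop hK
  have hzR : ROp W X 0 (W.corr (W.cl _ z)) := rop_corr (by simp) hz
  obtain ⟨y, hy, hy'⟩ := exists_of_rop (p := X.dim) (by simp)
    (rop_opAlg.cast (rop_opAlg.mul hpar hzR) (add_zero 0))
  refine ⟨y, hy, ?_, hy'⟩
  rw [central_iff (W := W) hy, hy']
  intro d x hx
  have h1 := (central_iff (W := W) hz).1 hc d x hx
  have h2 : par (W.isInternal X) * x = x * par (W.isInternal X) :=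
    ((grAlg W X).hom hx).par_comm (W.isInternal X)
  have h3 : par (W.isInternal X) * W.corr (W.cl _ z) * x -
      x * (par (W.isInternal X) * W.corr (W.cl _ z)) =
        par (W.isInternal X) * (W.corr (W.cl _ z) * x - x * W.corr (W.cl _ z)) := by
    rw [← mul_assoc x, ← h2, mul_sub, mul_assoc, mul_assoc]
  rw [h3]
  exact Nd_cast (Nd_left (grAlg W X) (KOp.ofRop hpar) h1) (by ring)

/-- The weight cycle and the Künneth components. -/
theorem weight_kunneth (hK : KunnethStd W X) {w : (X.prod X).Cycles} (hw : IsWeightCycle ops X w) :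
    W.corr (W.cl _ w) - wt (W.isInternal X) X.dim ∈ Nd (W.isInternal X) (RR W X) 0 ↔
      CentralTraceZero W X := by
  have hpar := par_rop hK
  have hwt := wt_rop hK
  have hcomm : wt (W.isInternal X) X.dim * par (W.isInternal X) =
      par (W.isInternal X) * wt (W.isInternal X) X.dim := by
    rw [wt, par, scal_mul, scal_mul]
    congr 1
    funext j
    ring
  constructor
  · intro h u hu hc H hH
    rw [isWeightOp_iff.1 hH]
    obtain ⟨y, hy, hyc, hy'⟩ := central_par hK hu hc
    have h1 := interT_str (W := W) hw.mem hy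
    rw [hw.bal y hy hyc, Rat.cast_zero, hy'] at h1
    have h2 := h.2 (par (W.isInternal X) * W.corr (W.cl _ u))
      (KOp.ofRop (rop_opAlg.cast (rop_opAlg.mul hpar (rop_corr (d := 0) (by simp) hu))
        (show (0 : ℤ) + 0 = -0 by simp)))
    rw [sub_mul, mul_sub, map_sub, ← h1, zero_sub, neg_eq_zero] at h2
    have h3 : par (W.isInternal X) * (wt (W.isInternal X) X.dim *
        (par (W.isInternal X) * W.corr (W.cl _ u))) = wt (W.isInternal X) X.dim *
          W.corr (W.cl _ u) := by
      rw [← mul_assoc (wt _ _), hcomm, ← mul_assoc, ← mul_assoc, par_mul_par, one_mul]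
    rw [h3] at h2
    exact h2
  · intro hT
    obtain ⟨c, hc, hc'⟩ := exists_of_rop (p := X.dim) (by simp) hwt
    have hcw : IsWeightCycle ops X c := by
      refine ⟨hc, fun p hp y hy => ?_, fun z hz hzc => ?_⟩
      · have hpd : (p : ℤ) = X.dim + ((p : ℤ) - X.dim) := by ring
        rw [shift_iff (W := W) hp hpd hc hy, hc']
        have h1 := (rop_opAlg.hom (rop_corr (W := W) hpd hy)).wt_comm (W.isInternal X) X.dim
        rw [h1]
        have h2 : ((2 * ((p : ℤ) - X.dim) : ℤ) : W.K) = 2 * (((p : ℤ) - X.dim : ℤ) : W.K) := by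
          push_cast
          ring
        rw [h2, add_sub_cancel_left, sub_self]
        exact Submodule.zero_mem _
      · obtain ⟨y, hy, hyc, hy'⟩ := central_par hK hz hzc
        have h1 := hT y hy hyc _ (isWeightOp_iff.2 rfl)
        rw [TraceZero, hy', ← mul_assoc, hcomm, mul_assoc] at h1
        have h2 := interT_str (W := W) hc hz
        rw [hc', h1] at h2
        exact_mod_cast h2
    have h1 := weightCycle_unique W hw hcw
    rw [nd_iff (W := W) (d := 0) (by simp) (by omega) hw.mem hc, hc'] at h1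
    exact h1

/-- **The weight decomposition and the Künneth components.** -/
theorem isKunneth_iff {Λ : Finset ℚ} {P : ℚ → (X.prod X).Cycles}
    (h : IsWeightDecomposition ops X Λ P) :
    IsKunneth W X P ↔ KunnethStd W X ∧ CentralTraceZero W X := by
  classical
  have hP := h.mem
  obtain ⟨hD, -⟩ := (decomp_iff (W := W) hP).1 h
  obtain ⟨-, hw1, hw2, -⟩ := hD.weight (TA W X)
  have hproj : ∀ {j : ℕ} {z : (X.prod X).Cycles}, InducesProjector W X j z →
      W.corr (W.cl _ z) = proj (W.isInternal X) j := fun hz => Pool.Agent.X310.isProjector_unique hz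
  have hone : ∑ j ∈ Finset.range (2 * X.dim + 1), proj (W.isInternal X) j = 1 :=
    sum_proj (W.isInternal X) W_hbd
  have hwtsum : wt (W.isInternal X) X.dim = ∑ j ∈ Finset.range (2 * X.dim + 1),
      ((((j : ℚ) - X.dim : ℚ)) : W.K) • proj (W.isInternal X) j := by
    rw [wt, scal_eq_sum (W.isInternal X) W_hbd]
    rfl
  constructor
  · intro hk
    have hK : KunnethStd W X := fun j => by
      obtain ⟨z, hz, hz', -⟩ := hk j
      exact ⟨z, hz, hz'⟩
    refine ⟨hK, ?_⟩
    rw [← weight_kunneth hK (h.weightCycle W)]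
    have hpr : ∀ j, proj (W.isInternal X) j ∈ RR W X 0 := fun j => KOp.ofRop (kunneth_rop hK j)
    have hq : ∀ j : ℕ, fam W hP ((j : ℚ) - X.dim) = kcls W X (hpr j) := by
      intro j
      obtain ⟨z, hz, hz', hn⟩ := hk j
      rw [num_kcls0 (W := W) (hP _) hz] at hn
      exact hn.trans (kcls_congr _ (hproj hz') _)
    have hwtm : wt (W.isInternal X) X.dim ∈ RR W X 0 := KOp.ofRop (wt_rop hK)
    rw [← kcls_eq (KOp.gen (by simp) (wCyc_mem hP)) hwtm, kcls_wCyc hP]
    have hs1 : ∑ j ∈ Finset.range (2 * X.dim + 1), kcls W X (hpr j) = 1 := by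
      rw [← kcls_sum _ _ hpr (by rw [hone]; exact (grAlg W X).one),
        kcls_congr _ hone (grAlg W X).one, kcls_one]
    have hs2 : kcls W X hwtm = ∑ j ∈ Finset.range (2 * X.dim + 1),
        ((((j : ℚ) - X.dim : ℚ)) : W.K) • kcls W X (hpr j) := by
      have h2 : ∀ j : ℕ, ((((j : ℚ) - X.dim : ℚ)) : W.K) • proj (W.isInternal X) j ∈ RR W X 0 :=
        fun j => Submodule.smul_mem _ _ (hpr j)
      rw [kcls_congr hwtm hwtsum (Submodule.sum_mem _ fun j _ => h2 j), kcls_sum _ _ h2]
      exact Finset.sum_congr rfl fun j _ => kcls_smul _ _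
    rw [hs2, ← mul_one (∑ l ∈ Λ, (l : W.K) • fam W hP l), ← hs1, Finset.mul_sum]
    refine Finset.sum_congr rfl fun j _ => ?_
    rw [← hq j, hw1]
  · rintro ⟨hK, hT⟩ j
    have hN := (weight_kunneth hK (h.weightCycle W)).2 hT
    have hpr : ∀ j, proj (W.isInternal X) j ∈ RR W X 0 := fun j => KOp.ofRop (kunneth_rop hK j)
    have hwtm : wt (W.isInternal X) X.dim ∈ RR W X 0 := KOp.ofRop (wt_rop hK)
    rw [← kcls_eq (KOp.gen (by simp) (wCyc_mem hP)) hwtm, kcls_wCyc hP] at hN
    have hs1 : ∑ j ∈ Finset.range (2 * X.dim + 1), kcls W X (hpr j) = 1 := by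
      rw [← kcls_sum _ _ hpr (by rw [hone]; exact (grAlg W X).one),
        kcls_congr _ hone (grAlg W X).one, kcls_one]
    have hwQ : ∀ i : ℕ, (∑ l ∈ Λ, (l : W.K) • fam W hP l) * kcls W X (hpr i) =
        ((((i : ℚ) - X.dim : ℚ)) : W.K) • kcls W X (hpr i) := by
      intro i
      have h1 : wt (W.isInternal X) X.dim * proj (W.isInternal X) i =
          ((((i : ℚ) - X.dim : ℚ)) : W.K) • proj (W.isInternal X) i := by
        apply gr_ext (W.isInternal X)
        intro m a ha
        rw [Module.End.mul_apply, LinearMap.smul_apply]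
        by_cases hm : m = i
        · subst hm
          rw [proj_same _ ha, wt, scal_apply _ _ ha]
          rfl
        · rw [proj_ne _ ha hm, map_zero, smul_zero]
      rw [hN, ← kcls_mul hwtm (hpr i) (mul0 (grAlg W X) hwtm (hpr i)),
        kcls_congr _ h1 (Submodule.smul_mem _ _ (hpr i)), kcls_smul]
    have hz : ∀ (l : ℚ) (i : ℕ), l ≠ (i : ℚ) - X.dim → fam W hP l * kcls W X (hpr i) = 0 := by
      intro l i hl
      have e1 : fam W hP l * (∑ l ∈ Λ, (l : W.K) • fam W hP l) * kcls W X (hpr i) =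
          (l : W.K) • (fam W hP l * kcls W X (hpr i)) := by rw [hw2, smul_mul_assoc]
      rw [mul_assoc, hwQ, mul_smul_comm, ← sub_eq_zero, ← sub_smul] at e1
      rcases smul_eq_zero.1 e1 with h3 | h3
      · exact absurd (by exact_mod_cast (sub_eq_zero.1 h3).symm) hl
      · exact h3
    have hbig : ∀ i : ℕ, i ∉ Finset.range (2 * X.dim + 1) → kcls W X (hpr i) = 0 := by
      intro i hi
      have h3 : proj (W.isInternal X) i = 0 := by
        ext x
        have h4 := proj_mem (W.isInternal X) i x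
        rw [W_hbd i (by rw [Finset.mem_range] at hi; omega)] at h4
        exact (Submodule.mem_bot W.K).1 h4
      rw [kcls_congr _ h3 (Submodule.zero_mem _), kcls_zero]
    have hq : fam W hP ((j : ℚ) - X.dim) = kcls W X (hpr j) := by
      have e1 : fam W hP ((j : ℚ) - X.dim) = fam W hP ((j : ℚ) - X.dim) * kcls W X (hpr j) := by
        conv_lhs => rw [← mul_one (fam W hP ((j : ℚ) - X.dim)), ← hs1, Finset.mul_sum]
        by_cases hj : j ∈ Finset.range (2 * X.dim + 1)
        · exact Finset.sum_eq_single j (fun i _ hi => hz _ _ (fun h' => hi (by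
            have : (j : ℚ) = i := by linarith
            exact_mod_cast this.symm))) (fun h' => absurd hj h')
        · rw [hbig j hj, mul_zero]
          exact Finset.sum_eq_zero fun i hi => hz _ _ (fun h' => hj (by
            have : (j : ℚ) = i := by linarith
            have : j = i := by exact_mod_cast this
            rwa [this]))
      have e2 : kcls W X (hpr j) = fam W hP ((j : ℚ) - X.dim) * kcls W X (hpr j) := by
        conv_lhs => rw [← one_mul (kcls W X (hpr j)), ← hD.sum, Finset.sum_mul]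
        by_cases hj : (j : ℚ) - X.dim ∈ Λ
        · exact Finset.sum_eq_single _ (fun l _ hl => hz _ _ hl) (fun h' => absurd hj h')
        · rw [hD.supp _ hj, zero_mul]
          exact Finset.sum_eq_zero fun l hl => hz _ _ (fun h' => hj (by rwa [← h']))
      rw [e1, ← e2]
    obtain ⟨z, hz0, hz'⟩ := hK j
    refine ⟨z, hz0, hz', ?_⟩
    rw [num_kcls0 (W := W) (hP _) hz0]
    exact hq.trans (kcls_congr _ (hproj hz').symm _)

end Pool.Agent.X310.Wt
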